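import Mathlib
import Pool.Agent.Y119.HY.Loc

/-!
# Local solutions at a singular point with a semisimple residue with eigenvalues `0` and `-1/2`
-/

set_option autoImplicit false

open Filter Topology Matrix

namespace Pool.Agent.L0h14.HO

open Pool.Agent.Y119.HY

variable {n : ℕ} {N0 N1 : Matrix (Fin n) (Fin n) ℂ} {H : ℕ → Matrix (Fin n) (Fin n) ℂ}

section alg

lemma DD_cube (hN : N0 * N0 = (-(1 / 2 : ℂ)) • N0) (X : Matrix (Fin n) (Fin n) ℂ) :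
    DD N0 (DD N0 (DD N0 X)) = (1 / 4 : ℂ) • DD N0 X := by
  have h1 : ∀ Y : Matrix (Fin n) (Fin n) ℂ, Y * N0 * N0 = (-(1 / 2 : ℂ)) • (Y * N0) := fun Y => by
    rw [Matrix.mul_assoc, hN, mul_smul_comm]
  have h2 : ∀ Y : Matrix (Fin n) (Fin n) ℂ, N0 * (N0 * Y) = (-(1 / 2 : ℂ)) • (N0 * Y) := fun Y => by
    rw [← Matrix.mul_assoc, hN, smul_mul_assoc]
  have h3 : ∀ Y : Matrix (Fin n) (Fin n) ℂ, N0 * Y * N0 = N0 * (Y * N0) := fun Y => Matrix.mul_assoc _ _ _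
  simp only [DD_apply, sub_mul, mul_sub, h3, h1, h2, mul_smul_comm, smul_mul_assoc, hN]
  module

/-- the inverse of `κ + D` -/
noncomputable def R1 (N0 : Matrix (Fin n) (Fin n) ℂ) (κ : ℂ) (Y : Matrix (Fin n) (Fin n) ℂ) : Matrix (Fin n) (Fin n) ℂ :=
  κ⁻¹ • Y + (-(κ ^ 2 - 1 / 4)⁻¹) • DD N0 Y + (κ⁻¹ * (κ ^ 2 - 1 / 4)⁻¹) • DD N0 (DD N0 Y)

lemma R1_right (hN : N0 * N0 = (-(1 / 2 : ℂ)) • N0) {κ : ℂ} (hκ : κ ≠ 0) (hκ' : κ ^ 2 - 1 / 4 ≠ 0)
    (Y : Matrix (Fin n) (Fin n) ℂ) : κ • R1 N0 κ Y + DD N0 (R1 N0 κ Y) = Y := by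
  unfold R1
  rw [map_add, map_add, map_smul, map_smul, map_smul, DD_cube hN]
  set a := DD N0 Y
  set b := DD N0 a
  set d := κ ^ 2 - 1 / 4 with hd
  have e : κ • (κ⁻¹ • Y + (-d⁻¹) • a + (κ⁻¹ * d⁻¹) • b) + (κ⁻¹ • a + (-d⁻¹) • b + (κ⁻¹ * d⁻¹) • (1 / 4 : ℂ) • a) =
      (κ * κ⁻¹) • Y + (κ⁻¹ - κ * d⁻¹ + κ⁻¹ * d⁻¹ * (1 / 4)) • a + (κ * κ⁻¹ * d⁻¹ - d⁻¹) • b := by
    module
  rw [e]
  have e1 : κ * κ⁻¹ = 1 := mul_inv_cancel₀ hκ
  have e2 : κ⁻¹ - κ * d⁻¹ + κ⁻¹ * d⁻¹ * (1 / 4) = 0 := by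
    field_simp
    rw [hd]
    ring
  rw [e1, e2, one_mul, sub_self, zero_smul, zero_smul, one_smul, add_zero, add_zero]

lemma R1_left (hN : N0 * N0 = (-(1 / 2 : ℂ)) • N0) {κ : ℂ} (hκ : κ ≠ 0) (hκ' : κ ^ 2 - 1 / 4 ≠ 0)
    (Y : Matrix (Fin n) (Fin n) ℂ) : R1 N0 κ (κ • Y + DD N0 Y) = Y := by
  unfold R1
  rw [map_add, map_add, map_smul, map_smul, DD_cube hN]
  set a := DD N0 Y
  set b := DD N0 a
  set d := κ ^ 2 - 1 / 4 with hd
  have e : κ⁻¹ • (κ • Y + a) + (-d⁻¹) • (κ • a + b) + (κ⁻¹ * d⁻¹) • (κ • b + (1 / 4 : ℂ) • a) =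
      (κ⁻¹ * κ) • Y + (κ⁻¹ - d⁻¹ * κ + κ⁻¹ * d⁻¹ * (1 / 4)) • a + (κ⁻¹ * κ * d⁻¹ - d⁻¹) • b := by
    module
  rw [e]
  have e1 : κ⁻¹ * κ = 1 := inv_mul_cancel₀ hκ
  have e2 : κ⁻¹ - d⁻¹ * κ + κ⁻¹ * d⁻¹ * (1 / 4) = 0 := by
    field_simp
    rw [hd]
    ring
  rw [e1, e2, one_mul, sub_self, zero_smul, zero_smul, one_smul, add_zero, add_zero]

lemma kap_ne (k : ℕ) : ((k : ℂ) + 1) ≠ 0 ∧ ((k : ℂ) + 1) ^ 2 - 1 / 4 ≠ 0 := by
  refine ⟨by exact_mod_cast Nat.succ_ne_zero k, ?_⟩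
  have h1 : ((k : ℂ) + 1) ^ 2 - 1 / 4 = (((2 * k + 1 : ℕ) : ℂ)) * (((2 * k + 3 : ℕ) : ℂ)) / 4 := by
    push_cast
    ring
  rw [h1]
  refine div_ne_zero (mul_ne_zero ?_ ?_) (by norm_num)
  · exact Nat.cast_ne_zero.2 (by omega)
  · exact Nat.cast_ne_zero.2 (by omega)

/-- existence -/
theorem exists_sol1 (hN : N0 * N0 = (-(1 / 2 : ℂ)) • N0) (N1 : Matrix (Fin n) (Fin n) ℂ) : ∃ H, Sol N0 N1 H := by
  set H : ℕ → Matrix (Fin n) (Fin n) ℂ := fun k => Nat.rec (motive := fun _ => Matrix (Fin n) (Fin n) ℂ) 1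
    (fun k X => R1 N0 ((k : ℂ) + 1) ((k : ℂ) • X + (X * N0 - N0 * X) + N1 * X)) k with hH
  refine ⟨H, rfl, fun k => ?_⟩
  have h2 : H (k + 1) = R1 N0 ((k : ℂ) + 1) ((k : ℂ) • H k + (H k * N0 - N0 * H k) + N1 * H k) := rfl
  have h3 := R1_right hN (kap_ne k).1 (kap_ne k).2 ((k : ℂ) • H k + (H k * N0 - N0 * H k) + N1 * H k)
  rw [← h2, DD_apply] at h3
  exact h3

end alg

section growth

attribute [local instance] Matrix.linftyOpNormedAddCommGroup Matrix.linftyOpNormedRing Matrix.linftyOpNormedAlgebra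

lemma R1_norm : ∃ K : ℝ, 0 ≤ K ∧ ∀ (k : ℕ) (Y : Matrix (Fin n) (Fin n) ℂ),
    ‖R1 N0 ((k : ℂ) + 1) Y‖ ≤ K / ((k : ℝ) + 1) * ‖Y‖ := by
  refine ⟨1 + 2 * (2 * ‖N0‖) + 2 * (2 * ‖N0‖) ^ 2, by positivity, fun k Y => ?_⟩
  have hk : (1 : ℝ) ≤ (k : ℝ) + 1 := by linarith [Nat.cast_nonneg (α := ℝ) k]
  have h1 : ‖((k : ℂ) + 1)⁻¹‖ = 1 / ((k : ℝ) + 1) := by
    have : ((k : ℂ) + 1) = (((k : ℝ) + 1 : ℝ) : ℂ) := by push_cast; rfl
    rw [norm_inv, this, Complex.norm_real, Real.norm_of_nonneg (by linarith), one_div]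
  have h2 : ‖(((k : ℂ) + 1) ^ 2 - 1 / 4)⁻¹‖ ≤ 2 / ((k : ℝ) + 1) := by
    have : ((k : ℂ) + 1) ^ 2 - 1 / 4 = ((((k : ℝ) + 1) ^ 2 - 1 / 4 : ℝ) : ℂ) := by push_cast; rfl
    have h3 : 0 < ((k : ℝ) + 1) ^ 2 - 1 / 4 := by nlinarith
    rw [norm_inv, this, Complex.norm_real, Real.norm_of_nonneg h3.le, ← one_div, div_le_div_iff₀ h3 (by linarith)]
    nlinarith
  have h4 : ‖(((k : ℂ) + 1)⁻¹ * (((k : ℂ) + 1) ^ 2 - 1 / 4)⁻¹)‖ ≤ 2 / ((k : ℝ) + 1) := by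
    rw [norm_mul, h1]
    calc 1 / ((k : ℝ) + 1) * ‖(((k : ℂ) + 1) ^ 2 - 1 / 4)⁻¹‖ ≤ 1 * ‖(((k : ℂ) + 1) ^ 2 - 1 / 4)⁻¹‖ :=
          mul_le_mul_of_nonneg_right (by rw [div_le_one (by linarith)]; exact hk) (norm_nonneg _)
      _ ≤ _ := by rw [one_mul]; exact h2
  have h5 := DD_norm (N0 := N0) Y
  have h6 : ‖DD N0 (DD N0 Y)‖ ≤ (2 * ‖N0‖) ^ 2 * ‖Y‖ := by
    refine (DD_norm _).trans ?_
    calc (2 * ‖N0‖) * ‖DD N0 Y‖ ≤ (2 * ‖N0‖) * ((2 * ‖N0‖) * ‖Y‖) := mul_le_mul_of_nonneg_left h5 (by positivity)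
      _ = _ := by ring
  unfold R1
  refine (norm_add_le _ _).trans (le_trans (add_le_add (norm_add_le _ _) le_rfl) ?_)
  rw [norm_smul, norm_smul, norm_smul, norm_neg, h1]
  have e1 : ‖(((k : ℂ) + 1) ^ 2 - 1 / 4)⁻¹‖ * ‖DD N0 Y‖ ≤ 2 / ((k : ℝ) + 1) * ((2 * ‖N0‖) * ‖Y‖) :=
    mul_le_mul h2 h5 (norm_nonneg _) (by positivity)
  have e2 : ‖(((k : ℂ) + 1)⁻¹ * (((k : ℂ) + 1) ^ 2 - 1 / 4)⁻¹)‖ * ‖DD N0 (DD N0 Y)‖ ≤
      2 / ((k : ℝ) + 1) * ((2 * ‖N0‖) ^ 2 * ‖Y‖) :=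
    mul_le_mul h4 h6 (norm_nonneg _) (by positivity)
  have e3 : (1 + 2 * (2 * ‖N0‖) + 2 * (2 * ‖N0‖) ^ 2) / ((k : ℝ) + 1) * ‖Y‖ = 1 / ((k : ℝ) + 1) * ‖Y‖ +
      2 / ((k : ℝ) + 1) * ((2 * ‖N0‖) * ‖Y‖) + 2 / ((k : ℝ) + 1) * ((2 * ‖N0‖) ^ 2 * ‖Y‖) := by ring
  rw [e3]
  linarith

/-- growth -/
theorem growth1 (hH : Sol N0 N1 H) (h : N0 * N0 = (-(1 / 2 : ℂ)) • N0) (i j : Fin n) : PG fun k => H k i j := by
  obtain ⟨K, hK0, hK⟩ := R1_norm (N0 := N0)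
  set K1 : ℝ := K * ‖N1 - 1‖ with hK1
  have hK10 : 0 ≤ K1 := by positivity
  set q : ℕ := ⌈K1⌉₊ with hq
  have hstep : ∀ k, ‖H (k + 1)‖ ≤ (1 + K1 / ((k : ℝ) + 1)) * ‖H k‖ := by
    intro k
    have h2 : ((k : ℂ) + 1) • (H (k + 1) - H k) + DD N0 (H (k + 1) - H k) = (N1 - 1) * H k := by
      have h3 := hH.step k
      rw [DD_apply, sub_mul, mul_sub, sub_mul, one_mul]
      have h4 : ((k : ℂ) + 1) • (H (k + 1) - H k) = ((k : ℂ) + 1) • H (k + 1) - ((k : ℂ) • H k + H k) := by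
        rw [smul_sub, add_smul (k : ℂ) 1 (H k), one_smul]
      rw [h4]
      calc _ = (((k : ℂ) + 1) • H (k + 1) + (H (k + 1) * N0 - N0 * H (k + 1))) - (k : ℂ) • H k - H k
            - (H k * N0 - N0 * H k) := by abel
        _ = _ := by rw [h3]; abel
    have h5 := R1_left h (kap_ne k).1 (kap_ne k).2 (H (k + 1) - H k)
    rw [h2] at h5
    have h6 : ‖H (k + 1) - H k‖ ≤ K1 / ((k : ℝ) + 1) * ‖H k‖ := by
      rw [← h5]
      refine (hK k _).trans ?_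
      calc K / ((k : ℝ) + 1) * ‖(N1 - 1) * H k‖ ≤ K / ((k : ℝ) + 1) * (‖N1 - 1‖ * ‖H k‖) :=
            mul_le_mul_of_nonneg_left (norm_mul_le _ _) (by positivity)
        _ = _ := by rw [hK1]; ring
    calc ‖H (k + 1)‖ = ‖H k + (H (k + 1) - H k)‖ := by rw [add_sub_cancel]
      _ ≤ ‖H k‖ + ‖H (k + 1) - H k‖ := norm_add_le _ _
      _ ≤ _ := by linarith
  have hbd : ∀ k : ℕ, ‖H k‖ ≤ ‖H 0‖ * ((k : ℝ) + 1) ^ q := by
    intro k
    induction k with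
    | zero => simp
    | succ k ih =>
      have hk : (0 : ℝ) < (k : ℝ) + 1 := by positivity
      have h1 : 1 + K1 / ((k : ℝ) + 1) ≤ (1 + 1 / ((k : ℝ) + 1)) ^ q := by
        have h2 := one_add_mul_le_pow (a := 1 / ((k : ℝ) + 1)) (by have : (0 : ℝ) ≤ 1 / ((k : ℝ) + 1) := by positivity
                                                                   linarith) q
        refine le_trans ?_ h2
        have : K1 ≤ q := Nat.le_ceil _
        rw [mul_one_div]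
        gcongr
      calc ‖H (k + 1)‖ ≤ (1 + K1 / ((k : ℝ) + 1)) * ‖H k‖ := hstep k
        _ ≤ (1 + 1 / ((k : ℝ) + 1)) ^ q * (‖H 0‖ * ((k : ℝ) + 1) ^ q) :=
          mul_le_mul h1 ih (norm_nonneg _) (by positivity)
        _ = ‖H 0‖ * ((1 + 1 / ((k : ℝ) + 1)) * ((k : ℝ) + 1)) ^ q := by rw [mul_pow]; ring
        _ = ‖H 0‖ * (((k + 1 : ℕ) : ℝ) + 1) ^ q := by
          congr 2
          push_cast
          field_simp
  exact ⟨‖H 0‖, q, fun k => (entry_le _ i j).trans (hbd k)⟩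

end growth

lemma Hf_an1 (hg : ∀ i j, PG fun k => H k i j) (i j : Fin n) :
    AnalyticOnNhd ℂ (fun z => Hf H z i j) (Metric.ball 0 1) := ps_an (hg i j)

lemma Hf_ode1 (hH : Sol N0 N1 H) (hg : ∀ i j, PG fun k => H k i j) {z : ℂ} (hz : ‖z‖ < 1) (hz0 : z ≠ 0) :
    HD (Hf H) ((1 / z) • (N0 * Hf H z - Hf H z * N0) + (1 / (1 - z)) • (N1 * Hf H z)) z := by
  intro i j
  have hd : HasDerivAt (ps fun k => H k i j) (deriv (ps fun k => H k i j) z) z :=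
    ((ps_an (hg i j)) z (by rwa [Metric.mem_ball, dist_zero_right])).differentiableAt.hasDerivAt
  have h1z : (1 - z) ≠ 0 := by
    intro h0
    have : z = 1 := (sub_eq_zero.1 h0).symm
    rw [this, norm_one] at hz
    exact lt_irrefl _ hz
  refine hd.congr_deriv ?_
  -- the sequences
  have hgl : PG fun k => (N0 * H k) i j := by
    simp only [Matrix.mul_apply]
    exact PG.sum _ fun l _ => (hg l j).smul _
  have hgr : PG fun k => (H k * N0) i j := by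
    simp only [Matrix.mul_apply]
    refine PG.sum _ fun l _ => ?_
    simp only [mul_comm (H _ i l)]
    exact (hg i l).smul _
  have hg1 : PG fun k => (N1 * H k) i j := by
    simp only [Matrix.mul_apply]
    exact PG.sum _ fun l _ => (hg l j).smul _
  have el : ps (fun k => (N0 * H k) i j) z = (N0 * Hf H z) i j := by
    simp only [Matrix.mul_apply]
    rw [ps_sum _ (fun l _ => (hg l j).smul _) hz]
    exact Finset.sum_congr rfl fun l _ => ps_smul _ _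
  have er : ps (fun k => (H k * N0) i j) z = (Hf H z * N0) i j := by
    simp only [Matrix.mul_apply, mul_comm (H _ i _)]
    rw [ps_sum _ (fun l _ => (hg i l).smul _) hz]
    refine Finset.sum_congr rfl fun l _ => ?_
    rw [ps_smul, mul_comm]
    rfl
  have e1 : ps (fun k => (N1 * H k) i j) z = (N1 * Hf H z) i j := by
    simp only [Matrix.mul_apply]
    rw [ps_sum _ (fun l _ => (hg l j).smul _) hz]
    exact Finset.sum_congr rfl fun l _ => ps_smul _ _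
  set D : ℕ → ℂ := fun k => (k : ℂ) * H k i j + ((H k * N0) i j + (-1) * (N0 * H k) i j) with hD
  have hDg : PG D := (hg i j).nat.add (hgr.add (hgl.smul (-1)))
  have eD : ps D z = z * deriv (ps fun k => H k i j) z + ((Hf H z * N0) i j - (N0 * Hf H z) i j) := by
    rw [hD, ps_add (hg i j).nat (hgr.add (hgl.smul (-1))) hz, ps_add hgr (hgl.smul (-1)) hz, ps_smul, el, er,
      ← ps_deriv (hg i j) hz]
    ring
  have hD0 : D 0 = 0 := by
    rw [hD]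
    simp only
    rw [hH.zero]
    simp
  have hDs : ∀ k, D (k + 1) = D k + (N1 * H k) i j := by
    intro k
    have := congrFun (congrFun (hH.step k) i) j
    simp only [Matrix.add_apply, Matrix.smul_apply, Matrix.sub_apply, smul_eq_mul] at this
    rw [hD]
    simp only
    push_cast
    linear_combination this
  have hfin : ps D z = z * (ps D z + (N1 * Hf H z) i j) := by
    conv_lhs => rw [ps_shift hDg hz, hD0, zero_add]
    congr 1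
    simp only [hDs]
    rw [ps_add hDg hg1 hz, e1]
  simp only [Matrix.add_apply, Matrix.smul_apply, Matrix.sub_apply, smul_eq_mul]
  rw [eD] at hfin
  have h2 : (1 - z) * (z * deriv (ps fun k => H k i j) z + ((Hf H z * N0) i j - (N0 * Hf H z) i j)) =
      z * (N1 * Hf H z) i j := by linear_combination hfin
  field_simp
  linear_combination h2

/-- the power `w ^ N` as a function of `s = log w` -/
noncomputable def Pf (N : Matrix (Fin n) (Fin n) ℂ) (s : ℂ) : Matrix (Fin n) (Fin n) ℂ :=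
  1 + (2 * (1 - Complex.exp (-s / 2))) • N

variable {N : Matrix (Fin n) (Fin n) ℂ}

lemma Pf_zero : Pf N 0 = 1 := by
  unfold Pf
  simp

lemma Pf_add (hN : N * N = (-(1 / 2 : ℂ)) • N) (s t : ℂ) : Pf N (s + t) = Pf N s * Pf N t := by
  unfold Pf
  have h1 : Complex.exp (-(s + t) / 2) = Complex.exp (-s / 2) * Complex.exp (-t / 2) := by
    rw [← Complex.exp_add]
    congr 1
    ring
  rw [h1, mul_add, mul_one, add_mul, one_mul, smul_mul_smul_comm, hN]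
  module

lemma Pf_mul_neg (hN : N * N = (-(1 / 2 : ℂ)) • N) (s : ℂ) : Pf N s * Pf N (-s) = 1 := by
  rw [← Pf_add hN, add_neg_cancel, Pf_zero]

lemma Pf_HD (hN : N * N = (-(1 / 2 : ℂ)) • N) (s : ℂ) : HD (Pf N) (N * Pf N s) s := by
  have h1 : N * Pf N s = Complex.exp (-s / 2) • N := by
    unfold Pf
    rw [mul_add, mul_one, mul_smul_comm, hN]
    module
  rw [h1]
  intro i j
  unfold Pf
  simp only [Matrix.add_apply, Matrix.smul_apply, smul_eq_mul]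
  have h2 : HasDerivAt (fun s : ℂ => -s / 2) (-1 / 2) s := by
    have := (hasDerivAt_id s).neg.div_const 2
    simpa using this
  have h3 := (((h2.cexp.const_sub 1).const_mul 2).mul_const (N i j)).const_add ((1 : Matrix (Fin n) (Fin n) ℂ) i j)
  refine h3.congr_deriv ?_
  ring

lemma Pf_fix {m : Fin n → ℂ} (h : N *ᵥ m = 0) (s : ℂ) : Pf N s *ᵥ m = m := by
  unfold Pf
  rw [add_mulVec, one_mulVec, smul_mulVec, h, smul_zero, add_zero]

/-- the monodromy -/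
lemma Pf_two_pi : Pf N (2 * Real.pi * Complex.I) = 1 + (4 : ℂ) • N := by
  unfold Pf
  have h1 : Complex.exp (-(2 * Real.pi * Complex.I) / 2) = -1 := by
    have e : -(2 * (Real.pi : ℂ) * Complex.I) / 2 = -(Real.pi * Complex.I) := by ring
    rw [e, Complex.exp_neg, Complex.exp_pi_mul_I]
    norm_num
  rw [h1]
  norm_num

/-- the solution -/
noncomputable def Zf (N0 : Matrix (Fin n) (Fin n) ℂ) (H : ℕ → Matrix (Fin n) (Fin n) ℂ) (z : ℂ) :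
    Matrix (Fin n) (Fin n) ℂ := Hf H z * Pf N0 (Complex.log z)

theorem Zf_ode (hH : Sol N0 N1 H) (hN : N0 * N0 = (-(1 / 2 : ℂ)) • N0) {z : ℂ} (hz : ‖z‖ < 1) (hz0 : z ∈ Complex.slitPlane) :
    HD (Zf N0 H) (Gm N0 N1 z * Zf N0 H z) z := by
  have hz0' : z ≠ 0 := Complex.slitPlane_ne_zero hz0
  have h1 := Hf_ode1 hH (growth1 hH hN) hz hz0'
  have h2 : HD (fun w => Pf N0 (Complex.log w)) (z⁻¹ • (N0 * Pf N0 (Complex.log z))) z :=
    (Pf_HD hN (Complex.log z)).comp (Complex.hasDerivAt_log hz0)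
  refine (h1.mul h2).congr ?_
  unfold Gm Zf
  simp only [add_mul, smul_mul_assoc, sub_mul, mul_smul_comm, Matrix.mul_assoc, smul_sub, one_div]
  abel

/-- the holomorphic part is invertible near the origin -/
lemma Hf_inv (hz : Hf H 0 = 1) (hg : ∀ i j, PG fun k => H k i j) :
    ∃ x : ℝ, 0 < x ∧ x < 1 ∧ (Hf H (x : ℂ)).det ≠ 0 := by
  have hcont : ContinuousAt (fun x : ℝ => (Hf H (x : ℂ)).det) 0 := by
    simp only [Matrix.det_apply]
    refine tendsto_finsetSum _ fun σ _ => ?_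
    refine Tendsto.const_smul ?_ _
    refine tendsto_finsetProd _ fun i _ => ?_
    have h1 : ContinuousAt (fun z : ℂ => Hf H z (σ i) i) ((0 : ℝ) : ℂ) :=
      (Hf_an1 hg _ _ _ (by simp)).continuousAt
    exact h1.comp (Complex.continuous_ofReal.continuousAt)
  have h0 : (Hf H ((0 : ℝ) : ℂ)).det ≠ 0 := by
    rw [Complex.ofReal_zero, hz, det_one]
    exact one_ne_zero
  have h1 := hcont.eventually_ne h0
  rw [Metric.eventually_nhds_iff] at h1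
  obtain ⟨ε, hε, h2⟩ := h1
  refine ⟨min (ε / 2) (1 / 2), by positivity, lt_of_le_of_lt (min_le_right _ _) (by norm_num), h2 ?_⟩
  rw [Real.dist_eq, sub_zero, abs_of_pos (by positivity)]
  exact lt_of_le_of_lt (min_le_left _ _) (by linarith)

end Pool.Agent.L0h14.HO
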