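import Mathlib
import Pool.Agent.Y119.HY.Loc

/-!
# Orthogonal hypergeometric families: the Lie algebra of a closed monoid of matrices
-/

set_option autoImplicit false

open Matrix Filter Topology

namespace Pool.Agent.L0h14.HO

open Pool.Agent.Y119.HY (HD E E_HD E_zero E_mul_neg E_add)

variable {n : ℕ}

/-- evaluation of a polynomial at a matrix -/
noncomputable def pe (p : MvPolynomial (Fin n × Fin n) ℂ) (g : Matrix (Fin n) (Fin n) ℂ) : ℂ :=
  MvPolynomial.eval (fun x => g x.1 x.2) p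

/-- the differential of a polynomial at `g` in the direction `H` -/
noncomputable def dl (p : MvPolynomial (Fin n × Fin n) ℂ) (g H : Matrix (Fin n) (Fin n) ℂ) : ℂ :=
  ∑ x : Fin n × Fin n, H x.1 x.2 * pe (MvPolynomial.pderiv x p) g

lemma pe_HD (p : MvPolynomial (Fin n × Fin n) ℂ) {M : ℂ → Matrix (Fin n) (Fin n) ℂ} {M' : Matrix (Fin n) (Fin n) ℂ}
    {z : ℂ} (h : HD M M' z) : HasDerivAt (fun t => pe p (M t)) (dl p (M z) M') z := by
  unfold dl pe
  induction p using MvPolynomial.induction_on with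
  | C a =>
    simp only [MvPolynomial.eval_C, MvPolynomial.pderiv_C, map_zero, mul_zero, Finset.sum_const_zero]
    exact hasDerivAt_const _ _
  | add p q hp hq =>
    simp only [map_add, mul_add, Finset.sum_add_distrib]
    exact hp.add hq
  | mul_X p i hp =>
    simp only [map_mul, MvPolynomial.eval_X, Derivation.leibniz, MvPolynomial.pderiv_X, smul_eq_mul, map_add]
    refine (hp.mul (h i.1 i.2)).congr_deriv ?_
    simp only [mul_add, Finset.sum_add_distrib]
    rw [add_comm, Finset.sum_mul]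
    congr 1
    · rw [Finset.sum_eq_single i]
      · simp; ring
      · intro j _ hj
        rw [Pi.single_eq_of_ne (Ne.symm hj)]
        simp
      · simp
    · refine Finset.sum_congr rfl fun x _ => ?_
      ring

/-- the derivative along `g ↦ g (1 + t X)` -/
noncomputable def Dp (X : Matrix (Fin n) (Fin n) ℂ) (p : MvPolynomial (Fin n × Fin n) ℂ) : MvPolynomial (Fin n × Fin n) ℂ :=
  ∑ x : Fin n × Fin n, (∑ k, MvPolynomial.X (x.1, k) * MvPolynomial.C (X k x.2)) * MvPolynomial.pderiv x p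

lemma pe_Dp (X : Matrix (Fin n) (Fin n) ℂ) (p : MvPolynomial (Fin n × Fin n) ℂ) (g : Matrix (Fin n) (Fin n) ℂ) :
    pe (Dp X p) g = dl p g (g * X) := by
  unfold Dp dl pe
  rw [map_sum]
  refine Finset.sum_congr rfl fun x _ => ?_
  rw [map_mul, map_sum, Matrix.mul_apply]
  simp

/-- the polynomials which vanish on `S` -/
def Id (S : Set (Matrix (Fin n) (Fin n) ℂ)) : Set (MvPolynomial (Fin n × Fin n) ℂ) := {p | ∀ g ∈ S, pe p g = 0}

/-- the Lie algebra -/
def Lie (S : Set (Matrix (Fin n) (Fin n) ℂ)) : Submodule ℂ (Matrix (Fin n) (Fin n) ℂ) where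
  carrier := {X | ∀ p ∈ Id S, ∀ g ∈ S, dl p g (g * X) = 0}
  add_mem' := by
    intro X Y hX hY p hp g hg
    have h1 := hX p hp g hg
    have h2 := hY p hp g hg
    unfold dl at h1 h2 ⊢
    rw [← add_zero (0 : ℂ)]
    nth_rewrite 2 [← h1]
    rw [← h2, ← Finset.sum_add_distrib]
    refine Finset.sum_congr rfl fun x _ => ?_
    rw [mul_add, Matrix.add_apply]
    ring
  zero_mem' := by
    intro p _ g _
    unfold dl
    refine Finset.sum_eq_zero fun x _ => ?_
    rw [mul_zero, Matrix.zero_apply, zero_mul]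
  smul_mem' := by
    intro c X hX p hp g hg
    have h1 := hX p hp g hg
    unfold dl at h1 ⊢
    rw [← mul_zero c, ← h1, Finset.mul_sum]
    refine Finset.sum_congr rfl fun x _ => ?_
    rw [mul_smul_comm, Matrix.smul_apply, smul_eq_mul]
    ring

variable {S : Submonoid (Matrix (Fin n) (Fin n) ℂ)}

lemma mem_Lie {X : Matrix (Fin n) (Fin n) ℂ} : X ∈ Lie (S : Set (Matrix (Fin n) (Fin n) ℂ)) ↔
    ∀ p ∈ Id (S : Set (Matrix (Fin n) (Fin n) ℂ)), ∀ g ∈ S, dl p g (g * X) = 0 := Iff.rfl

lemma HD.const_mul {M : ℂ → Matrix (Fin n) (Fin n) ℂ} {M' : Matrix (Fin n) (Fin n) ℂ} {z : ℂ} (h : HD M M' z)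
    (g : Matrix (Fin n) (Fin n) ℂ) : HD (fun t => g * M t) (g * M') z := by
  have h1 := (Pool.Agent.Y119.HY.HD.const g z).mul h
  rw [zero_mul, zero_add] at h1
  exact h1

/-- tangent vectors of curves -/
lemma tangent {M : ℂ → Matrix (Fin n) (Fin n) ℂ} {X : Matrix (Fin n) (Fin n) ℂ} (h : HD M X 0) (h0 : M 0 = 1)
    (hM : ∀ t, M t ∈ S) : X ∈ Lie (S : Set (Matrix (Fin n) (Fin n) ℂ)) := by
  intro p hp g hg
  have h1 := pe_HD p (HD.const_mul h g)
  have h2 : (fun t => pe p (g * M t)) = fun _ => 0 := by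
    funext t
    exact hp _ (mul_mem hg (hM t))
  rw [h2] at h1
  have h3 := h1.unique (hasDerivAt_const (0 : ℂ) (0 : ℂ))
  rw [h0, mul_one] at h3
  exact h3

/-- integral curves -/
lemma path {R : ℂ → Matrix (Fin n) (Fin n) ℂ} {X : Matrix (Fin n) (Fin n) ℂ}
    (hZ : ∀ g, (∀ p ∈ Id (S : Set (Matrix (Fin n) (Fin n) ℂ)), pe p g = 0) → g ∈ S)
    (hX : X ∈ Lie (S : Set (Matrix (Fin n) (Fin n) ℂ))) (hR : ∀ t, HD R (R t * X) t) (h0 : R 0 = 1)
    (t : ℂ) : R t ∈ S := by
  refine hZ _ fun p hp => ?_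
  have hd : ∀ p : MvPolynomial (Fin n × Fin n) ℂ, ∀ t, HasDerivAt (fun t => pe p (R t)) (pe (Dp X p) (R t)) t := by
    intro p t
    rw [pe_Dp]
    exact pe_HD p (hR t)
  have hI : ∀ p ∈ Id (S : Set (Matrix (Fin n) (Fin n) ℂ)), Dp X p ∈ Id (S : Set (Matrix (Fin n) (Fin n) ℂ)) := by
    intro p hp g hg
    rw [pe_Dp]
    exact hX p hp g hg
  have key : ∀ k : ℕ, ∀ p ∈ Id (S : Set (Matrix (Fin n) (Fin n) ℂ)), iteratedDeriv k (fun t => pe p (R t)) 0 = 0 := by
    intro k
    induction k with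
    | zero =>
      intro p hp
      rw [iteratedDeriv_zero, h0]
      exact hp _ (one_mem _)
    | succ k ih =>
      intro p hp
      rw [iteratedDeriv_succ']
      have h1 : deriv (fun t => pe p (R t)) = fun t => pe (Dp X p) (R t) := by
        funext t
        exact (hd p t).deriv
      rw [h1]
      exact ih _ (hI p hp)
  have hdiff : Differentiable ℂ fun t => pe p (R t) := fun t => (hd p t).differentiableAt
  have h2 := Complex.taylorSeries_eq_of_entire' (c := 0) (z := t) hdiff
  rw [← h2]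
  simp only [key _ p hp, mul_zero, zero_mul, tsum_zero]

/-- conjugation -/
lemma conj_lie {X h h' : Matrix (Fin n) (Fin n) ℂ} (h1 : h * h' = 1)
    (ha : ∀ g ∈ S, h * g * h' ∈ S) (hb : ∀ g ∈ S, h' * g * h ∈ S)
    (hX : X ∈ Lie (S : Set (Matrix (Fin n) (Fin n) ℂ))) : h * X * h' ∈ Lie (S : Set (Matrix (Fin n) (Fin n) ℂ)) := by
  intro p hp g hg
  set q : MvPolynomial (Fin n × Fin n) ℂ := MvPolynomial.bind₁ (fun x : Fin n × Fin n => ∑ k, ∑ l,
    MvPolynomial.C (h x.1 k) * MvPolynomial.X (k, l) * MvPolynomial.C (h' l x.2)) p with hq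
  have hqe : ∀ g, pe q g = pe p (h * g * h') := by
    intro g
    rw [hq]
    unfold pe
    rw [← MvPolynomial.coe_aeval_eq_eval, ← MvPolynomial.coe_aeval_eq_eval, RingHom.coe_coe, RingHom.coe_coe,
      MvPolynomial.aeval_bind₁]
    congr 1
    congr 1
    funext x
    simp only [map_sum, map_mul, MvPolynomial.aeval_X, MvPolynomial.aeval_C, Matrix.mul_apply, Algebra.algebraMap_self,
      RingHom.id_apply]
    rw [Finset.sum_comm]
    refine Finset.sum_congr rfl fun l _ => ?_
    rw [Finset.sum_mul]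
  have hqI : q ∈ Id (S : Set (Matrix (Fin n) (Fin n) ℂ)) := by
    intro g hg
    rw [hqe]
    exact hp _ (ha g hg)
  have hdl : ∀ g H, dl q g H = dl p (h * g * h') (h * H * h') := by
    intro g H
    have h3 : HD (fun t : ℂ => g + t • H) H 0 := by
      intro i j
      have : HasDerivAt (fun t : ℂ => g i j + t * H i j) (0 + 1 * H i j) 0 :=
        (hasDerivAt_const _ _).add ((hasDerivAt_id _).mul_const _)
      simpa using this
    have h4 := pe_HD q h3
    have h5 : HD (fun t : ℂ => h * (g + t • H) * h') (h * H * h') 0 := by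
      have := (HD.const_mul h3 h).mul (Pool.Agent.Y119.HY.HD.const h' 0)
      rw [mul_zero, add_zero] at this
      exact this
    have h6 := pe_HD p h5
    have h7 : (fun t : ℂ => pe q (g + t • H)) = fun t => pe p (h * (g + t • H) * h') := by
      funext t
      exact hqe _
    rw [h7] at h4
    have h8 := h4.unique h6
    simp only [zero_smul, add_zero] at h8
    exact h8
  have h9 := hX q hqI (h' * g * h) (hb g hg)
  rw [hdl] at h9
  have e1 : h * (h' * g * h) * h' = g := by
    calc h * (h' * g * h) * h' = (h * h') * g * (h * h') := by simp only [Matrix.mul_assoc]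
      _ = g := by rw [h1, one_mul, mul_one]
  have e2 : h * (h' * g * h * X) * h' = g * (h * X * h') := by
    calc h * (h' * g * h * X) * h' = (h * h') * g * (h * X * h') := by simp only [Matrix.mul_assoc]
      _ = g * (h * X * h') := by rw [h1, one_mul]
  rw [e1, e2] at h9
  exact h9

/-- the Lie algebra is closed under the bracket with `N` -/
lemma bracket {N X : Matrix (Fin n) (Fin n) ℂ} (hN : N ^ n = 0)
    (hE : ∀ c : ℂ, ∀ g ∈ S, E N c * g * E N (-c) ∈ S)
    (hX : X ∈ Lie (S : Set (Matrix (Fin n) (Fin n) ℂ))) : N * X - X * N ∈ Lie (S : Set (Matrix (Fin n) (Fin n) ℂ)) := by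
  by_contra hcon
  obtain ⟨l, hl1, hl2⟩ := Submodule.exists_le_ker_of_notMem hcon
  have h1 : ∀ c : ℂ, l (E N c * X * E N (-c)) = 0 := by
    intro c
    refine LinearMap.mem_ker.1 (hl2 (conj_lie (E_mul_neg hN c) (hE c) (fun g hg => ?_) hX))
    have := hE (-c) g hg
    rwa [neg_neg] at this
  have h3 : HD (fun c : ℂ => E N c * X * E N (-c)) (N * X - X * N) 0 := by
    have h4 := E_HD hN (0 : ℂ)
    have h5 : HD (fun c : ℂ => E N (-c)) ((-1 : ℂ) • (N * E N 0)) 0 := by
      have h6 : HasDerivAt (fun c : ℂ => -c) (-1) 0 := (hasDerivAt_id _).neg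
      have h7 : HD (E N) (N * E N 0) (-(0 : ℂ)) := by rw [neg_zero]; exact h4
      exact h7.comp h6
    refine ((h4.mul (Pool.Agent.Y119.HY.HD.const X 0)).mul h5).congr ?_
    rw [neg_zero, E_zero hN]
    simp only [mul_one, one_mul, mul_zero, add_zero, neg_smul, one_smul, Matrix.mul_neg, sub_eq_add_neg]
  -- apply `l`
  have h8 : HasDerivAt (fun c : ℂ => l (E N c * X * E N (-c))) (l (N * X - X * N)) 0 := by
    have h9 : ∀ Y : Matrix (Fin n) (Fin n) ℂ, l Y = ∑ i, ∑ j, Y i j * l (Matrix.single i j 1) := by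
      intro Y
      conv_lhs => rw [Matrix.matrix_eq_sum_single Y]
      rw [map_sum]
      refine Finset.sum_congr rfl fun i _ => ?_
      rw [map_sum]
      refine Finset.sum_congr rfl fun j _ => ?_
      rw [← mul_one (Y i j), ← smul_eq_mul, ← Matrix.smul_single, map_smul, smul_eq_mul, smul_eq_mul, mul_one]
    have h10 : (fun c : ℂ => l (E N c * X * E N (-c))) =
        fun c => ∑ i, ∑ j, (E N c * X * E N (-c)) i j * l (Matrix.single i j 1) := by
      funext c
      exact h9 _
    rw [h10, h9 (N * X - X * N)]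
    exact HasDerivAt.fun_sum fun i _ => HasDerivAt.fun_sum fun j _ => (h3 i j).mul_const _
  have h11 : (fun c : ℂ => l (E N c * X * E N (-c))) = fun _ => 0 := by
    funext c
    exact h1 c
  rw [h11] at h8
  exact hl1 (h8.unique (hasDerivAt_const _ _))

end Pool.Agent.L0h14.HO
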