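import Mathlib
import Pool.Agent.L0h14.HO.Lie

/-!
# Orthogonal hypergeometric families: density of the group generated by a regular unipotent group and a reflection
-/

set_option autoImplicit false

open Matrix Filter Topology

namespace Pool.Agent.L0h14.HO

open Pool.Agent.Y119.HY (HD E E_HD E_zero E_mul_neg E_add om tv om_eq om_add om_smul tv_mulVec tv_conj chain_li E_isom)

variable {n : ℕ} {J : Matrix (Fin n) (Fin n) ℂ}

lemma ext_mulVec {A B : Matrix (Fin n) (Fin n) ℂ} (h : ∀ x, A *ᵥ x = B *ᵥ x) : A = B :=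
  Matrix.toLin'.injective (LinearMap.ext h)

lemma om_symm (hJ : J.transpose = J) (u v : Fin n → ℂ) : om J v u = om J u v := by
  unfold om
  have h1 : v ⬝ᵥ (J *ᵥ u) = u ⬝ᵥ (J.transpose *ᵥ v) := by
    rw [mulVec_transpose, dotProduct_comm u, ← dotProduct_mulVec]
  rw [h1, hJ]

lemma om_add_left (u v w : Fin n → ℂ) : om J (u + v) w = om J u w + om J v w := by
  unfold om; rw [add_dotProduct]

lemma om_smul_left (c : ℂ) (u v : Fin n → ℂ) : om J (c • u) v = c * om J u v := by
  unfold om; rw [smul_dotProduct, smul_eq_mul]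

lemma om_neg (u v : Fin n → ℂ) : om J u (-v) = -om J u v := by
  unfold om; rw [mulVec_neg, dotProduct_neg]

lemma om_neg_left (u v : Fin n → ℂ) : om J (-u) v = -om J u v := by
  unfold om; rw [neg_dotProduct]

lemma om_sub (u v w : Fin n → ℂ) : om J u (v - w) = om J u v - om J u w := by
  rw [sub_eq_add_neg, om_add, om_neg, sub_eq_add_neg]

lemma om_sub_left (u v w : Fin n → ℂ) : om J (u - v) w = om J u w - om J v w := by
  rw [sub_eq_add_neg, om_add_left, om_neg_left, sub_eq_add_neg]

lemma om_mulVec (A : Matrix (Fin n) (Fin n) ℂ) (u v : Fin n → ℂ) : om J (A *ᵥ u) v = u ⬝ᵥ ((A.transpose * J) *ᵥ v) := by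
  unfold om
  rw [← vecMul_transpose, ← dotProduct_mulVec, mulVec_mulVec]

lemma om_mulVec_right (A : Matrix (Fin n) (Fin n) ℂ) (u v : Fin n → ℂ) : om J u (A *ᵥ v) = u ⬝ᵥ ((J * A) *ᵥ v) := by
  unfold om
  rw [mulVec_mulVec]

lemma sk_om {X : Matrix (Fin n) (Fin n) ℂ} (hX : X.transpose * J + J * X = 0) (u v : Fin n → ℂ) :
    om J (X *ᵥ u) v = -om J u (X *ᵥ v) := by
  rw [om_mulVec, om_mulVec_right, eq_neg_of_add_eq_zero_left hX, neg_mulVec, dotProduct_neg]

lemma iso_om {g : Matrix (Fin n) (Fin n) ℂ} (hg : g.transpose * J * g = J) (u v : Fin n → ℂ) :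
    om J (g *ᵥ u) (g *ᵥ v) = om J u v := by
  rw [om_mulVec, mulVec_mulVec, hg]; rfl

/-- reflections -/
noncomputable def rf (J : Matrix (Fin n) (Fin n) ℂ) (w : Fin n → ℂ) : Matrix (Fin n) (Fin n) ℂ :=
  tv J w (-(2 / om J w w))

lemma rf_mulVec (w x : Fin n → ℂ) : rf J w *ᵥ x = x - (2 / om J w w * om J w x) • w := by
  unfold rf
  rw [tv_mulVec, neg_mul, neg_smul, sub_eq_add_neg]

lemma rf_self {w : Fin n → ℂ} (hw : om J w w ≠ 0) : rf J w *ᵥ w = -w := by
  rw [rf_mulVec, div_mul_cancel₀ _ hw, two_smul]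
  abel

lemma rf_mul_self {w : Fin n → ℂ} (hw : om J w w ≠ 0) : rf J w * rf J w = 1 := by
  refine ext_mulVec fun x => ?_
  rw [← mulVec_mulVec, one_mulVec, rf_mulVec, rf_mulVec, om_sub, om_smul]
  have : 2 / om J w w * (om J w x - 2 / om J w w * om J w x * om J w w) = -(2 / om J w w * om J w x) := by
    field_simp
    ring
  rw [this, neg_smul]
  abel

lemma rf_smul {w : Fin n → ℂ} {c : ℂ} (hc : c ≠ 0) : rf J (c • w) = rf J w := by
  refine ext_mulVec fun x => ?_
  rw [rf_mulVec, rf_mulVec, om_smul_left, om_smul_left, om_smul, smul_smul]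
  congr 2
  by_cases h : om J w w = 0
  · rw [h]; simp
  · field_simp

lemma rf_neg {w : Fin n → ℂ} : rf J (-w) = rf J w := by
  rw [← neg_one_smul ℂ w]
  exact rf_smul (by norm_num)

lemma rf_isom (hJ : J.transpose = J) {w : Fin n → ℂ} (hw : om J w w ≠ 0) : (rf J w).transpose * J * rf J w = J := by
  refine ext_mulVec fun x => ?_
  refine (dotProduct_eq _ _ fun u => ?_)
  have h1 : om J (rf J w *ᵥ u) (rf J w *ᵥ x) = om J u x := by
    rw [rf_mulVec, rf_mulVec]
    simp only [om_sub, om_sub_left, om_smul, om_smul_left]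
    rw [om_symm hJ w u]
    field_simp
    ring
  rw [om_mulVec, mulVec_mulVec] at h1
  rw [dotProduct_comm, h1, dotProduct_comm]
  rfl

/-- wedges -/
noncomputable def wd (J : Matrix (Fin n) (Fin n) ℂ) (a b : Fin n → ℂ) : Matrix (Fin n) (Fin n) ℂ :=
  vecMulVec a (b ᵥ* J) - vecMulVec b (a ᵥ* J)

lemma wd_mulVec (a b x : Fin n → ℂ) : wd J a b *ᵥ x = om J b x • a - om J a x • b := by
  unfold wd
  rw [sub_mulVec, vecMulVec_mulVec, vecMulVec_mulVec, om_eq, om_eq]
  ext i
  simp only [Pi.sub_apply, Pi.smul_apply, MulOpposite.smul_eq_mul_unop, MulOpposite.unop_op, smul_eq_mul]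
  ring

lemma wd_add (a b c : Fin n → ℂ) : wd J a (b + c) = wd J a b + wd J a c := by
  refine ext_mulVec fun x => ?_
  rw [add_mulVec, wd_mulVec, wd_mulVec, wd_mulVec, om_add_left, add_smul, smul_add]
  abel

lemma wd_smul (a b : Fin n → ℂ) (c : ℂ) : wd J a (c • b) = c • wd J a b := by
  refine ext_mulVec fun x => ?_
  rw [smul_mulVec, wd_mulVec, wd_mulVec, om_smul_left, smul_sub, smul_smul, smul_smul, smul_smul, mul_comm c (om J a x)]

lemma wd_self (a : Fin n → ℂ) : wd J a a = 0 := by
  refine ext_mulVec fun x => ?_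
  rw [wd_mulVec, sub_self, zero_mulVec]

lemma wd_skew (hJ : J.transpose = J) (a b : Fin n → ℂ) : (wd J a b).transpose * J + J * wd J a b = 0 := by
  refine ext_mulVec fun x => ?_
  refine (dotProduct_eq _ _ fun u => ?_)
  rw [add_mulVec, zero_mulVec, dotProduct_comm, dotProduct_add, ← om_mulVec, ← om_mulVec_right, wd_mulVec, wd_mulVec,
    zero_dotProduct]
  simp only [om_sub, om_sub_left, om_smul, om_smul_left]
  rw [om_symm hJ a u, om_symm hJ b u]
  ring

lemma brk_skew {N X : Matrix (Fin n) (Fin n) ℂ} (hN : N.transpose * J + J * N = 0)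
    (hX : X.transpose * J + J * X = 0) : (N * X - X * N).transpose * J + J * (N * X - X * N) = 0 := by
  have h1 : N.transpose * J = -(J * N) := eq_neg_of_add_eq_zero_left hN
  have h2 : X.transpose * J = -(J * X) := eq_neg_of_add_eq_zero_left hX
  rw [transpose_sub, transpose_mul, transpose_mul, sub_mul, Matrix.mul_assoc, Matrix.mul_assoc, h1, h2, mul_sub,
    Matrix.mul_neg, Matrix.mul_neg, ← Matrix.mul_assoc, ← Matrix.mul_assoc, h1, h2, Matrix.neg_mul, Matrix.neg_mul,
    Matrix.mul_assoc, Matrix.mul_assoc]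
  abel

/-- conjugation of a skew matrix by a reflection -/
lemma conj_id {X : Matrix (Fin n) (Fin n) ℂ} (hJ : J.transpose = J) (hX : X.transpose * J + J * X = 0)
    {w : Fin n → ℂ} (hw : om J w w ≠ 0) :
    rf J w * X * rf J w - X = (2 / om J w w) • wd J w (X *ᵥ w) := by
  refine ext_mulVec fun x => ?_
  have h0 : om J w (X *ᵥ w) = 0 := by
    have h1 := sk_om hX w w
    rw [om_symm hJ] at h1
    have : (2 : ℂ) * om J w (X *ᵥ w) = 0 := by linear_combination h1
    simpa using this
  rw [sub_mulVec, ← mulVec_mulVec, ← mulVec_mulVec, smul_mulVec, wd_mulVec, rf_mulVec w x, mulVec_sub, mulVec_smul,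
    rf_mulVec, om_sub, om_smul, h0, sk_om hX]
  simp only [mul_zero, sub_zero, neg_smul, smul_sub, smul_neg, smul_smul]
  abel

section main

variable {N : Matrix (Fin n) (Fin n) ℂ} {v : Fin n → ℂ} {S : Submonoid (Matrix (Fin n) (Fin n) ℂ)}
  (hJ : J.transpose = J) (hN : N ^ n = 0) (hNJ : N.transpose * J + J * N = 0)
  (hv : (N ^ (n - 1)) *ᵥ v ≠ 0) (hvv : om J v v ≠ 0)
  (hE : ∀ c : ℂ, ∀ g ∈ S, E N c * g * E N (-c) ∈ S) (hvS : rf J v ∈ S)
  (hZ : ∀ g, (∀ p ∈ Id (S : Set (Matrix (Fin n) (Fin n) ℂ)), pe p g = 0) → g ∈ S)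

include hJ in
lemma star {X : Matrix (Fin n) (Fin n) ℂ} (hX : X.transpose * J + J * X = 0) {w : Fin n → ℂ} (hw : om J w w ≠ 0)
    (hwS : rf J w ∈ S) (hXL : X ∈ Lie (S : Set (Matrix (Fin n) (Fin n) ℂ))) :
    wd J w (X *ᵥ w) ∈ Lie (S : Set (Matrix (Fin n) (Fin n) ℂ)) := by
  have h1 := conj_lie (rf_mul_self hw) (fun g hg => mul_mem (mul_mem hwS hg) hwS)
    (fun g hg => mul_mem (mul_mem hwS hg) hwS) hXL
  have h2 := (Lie (S : Set (Matrix (Fin n) (Fin n) ℂ))).sub_mem h1 hXL
  rw [conj_id hJ hX hw] at h2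
  have h3 : (2 / om J w w) ≠ 0 := div_ne_zero two_ne_zero hw
  have h4 := (Lie (S : Set (Matrix (Fin n) (Fin n) ℂ))).smul_mem ((2 / om J w w)⁻¹) h2
  rwa [smul_smul, inv_mul_cancel₀ h3, one_smul] at h4

include hJ hN hNJ hvv hE hvS in
lemma first : wd J v (N *ᵥ v) ∈ Lie (S : Set (Matrix (Fin n) (Fin n) ℂ)) := by
  have h1 : HD (fun c => E N c * rf J v * E N (-c) * rf J v) (N - rf J v * N * rf J v) 0 := by
    have h4 := E_HD hN (0 : ℂ)
    have h5 : HD (fun c : ℂ => E N (-c)) ((-1 : ℂ) • (N * E N 0)) 0 := by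
      have h6 : HasDerivAt (fun c : ℂ => -c) (-1) 0 := (hasDerivAt_id _).neg
      have h7 : HD (E N) (N * E N 0) (-(0 : ℂ)) := by rw [neg_zero]; exact h4
      exact h7.comp h6
    refine (((h4.mul (Pool.Agent.Y119.HY.HD.const (rf J v) 0)).mul h5).mul
      (Pool.Agent.Y119.HY.HD.const (rf J v) 0)).congr ?_
    rw [neg_zero, E_zero hN]
    simp only [mul_one, one_mul, mul_zero, add_zero, neg_smul, one_smul, Matrix.mul_neg, add_mul, Matrix.neg_mul]
    rw [Matrix.mul_assoc N, rf_mul_self hvv, mul_one, sub_eq_add_neg]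
  have h2 := tangent (S := S) h1 (by
    show E N 0 * rf J v * E N (-0) * rf J v = 1
    rw [neg_zero, E_zero hN, one_mul, mul_one, rf_mul_self hvv]) fun t => mul_mem (hE t _ hvS) hvS
  have h3 := (Lie (S : Set (Matrix (Fin n) (Fin n) ℂ))).neg_mem h2
  rw [neg_sub, conj_id hJ hNJ hvv] at h3
  have h6 : (2 / om J v v) ≠ 0 := div_ne_zero two_ne_zero hvv
  have h7 := (Lie (S : Set (Matrix (Fin n) (Fin n) ℂ))).smul_mem ((2 / om J v v)⁻¹) h3
  rwa [smul_smul, inv_mul_cancel₀ h6, one_smul] at h7

include hJ hN hNJ hvv hE hvS in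
lemma step_U {x : Fin n → ℂ} (hx : wd J v x ∈ Lie (S : Set (Matrix (Fin n) (Fin n) ℂ))) :
    wd J v (N *ᵥ x) ∈ Lie (S : Set (Matrix (Fin n) (Fin n) ℂ)) := by
  have h1 := bracket hN hE hx
  have h2 := star hJ (brk_skew hNJ (wd_skew hJ v x)) hvv hvS h1
  have h0 : om J v (N *ᵥ v) = 0 := by
    have h1 := sk_om hNJ v v
    rw [om_symm hJ] at h1
    have : (2 : ℂ) * om J v (N *ᵥ v) = 0 := by linear_combination h1
    simpa using this
  have h3 : (N * wd J v x - wd J v x * N) *ᵥ v =
      om J x v • (N *ᵥ v) + (-(om J v v) • (N *ᵥ x) + (-(om J x (N *ᵥ v))) • v) := by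
    rw [sub_mulVec, ← mulVec_mulVec, ← mulVec_mulVec, wd_mulVec, wd_mulVec, mulVec_sub, mulVec_smul, mulVec_smul, h0,
      zero_smul]
    rw [neg_smul, neg_smul]
    abel
  rw [h3, wd_add, wd_add, wd_smul, wd_smul, wd_smul] at h2
  have h4 : wd J v v = 0 := by
    refine ext_mulVec fun x => ?_
    rw [wd_mulVec, sub_self, zero_mulVec]
  rw [h4, smul_zero, add_zero] at h2
  have h5 := (Lie (S : Set (Matrix (Fin n) (Fin n) ℂ))).sub_mem h2
    ((Lie (S : Set (Matrix (Fin n) (Fin n) ℂ))).smul_mem (om J x v) (first hJ hN hNJ hvv hE hvS))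
  rw [add_sub_cancel_left] at h5
  have h6 := (Lie (S : Set (Matrix (Fin n) (Fin n) ℂ))).smul_mem ((-(om J v v))⁻¹) h5
  rwa [smul_smul, inv_mul_cancel₀ (neg_ne_zero.2 hvv), one_smul] at h6

include hJ hN hNJ hv hvv hE hvS in
lemma all_wd (x : Fin n → ℂ) : wd J v x ∈ Lie (S : Set (Matrix (Fin n) (Fin n) ℂ)) := by
  set U : Submodule ℂ (Fin n → ℂ) :=
    { carrier := {x | wd J v x ∈ Lie (S : Set (Matrix (Fin n) (Fin n) ℂ))}
      add_mem' := by
        intro a b ha hb
        show wd J v (a + b) ∈ Lie (S : Set (Matrix (Fin n) (Fin n) ℂ))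
        rw [wd_add]
        exact Submodule.add_mem _ ha hb
      zero_mem' := by
        show wd J v 0 ∈ Lie (S : Set (Matrix (Fin n) (Fin n) ℂ))
        rw [← zero_smul ℂ (0 : Fin n → ℂ), wd_smul, zero_smul]
        exact Submodule.zero_mem _
      smul_mem' := by
        intro c a ha
        show wd J v (c • a) ∈ Lie (S : Set (Matrix (Fin n) (Fin n) ℂ))
        rw [wd_smul]
        exact Submodule.smul_mem _ _ ha } with hU
  have h1 : ∀ i : ℕ, (N ^ i) *ᵥ v ∈ U := by
    intro i
    induction i with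
    | zero =>
      show wd J v ((N ^ 0) *ᵥ v) ∈ Lie (S : Set (Matrix (Fin n) (Fin n) ℂ))
      rw [pow_zero, one_mulVec]
      have h4 : wd J v v = 0 := by
        refine ext_mulVec fun x => ?_
        rw [wd_mulVec, sub_self, zero_mulVec]
      rw [h4]
      exact Submodule.zero_mem _
    | succ i ih =>
      show wd J v ((N ^ (i + 1)) *ᵥ v) ∈ Lie (S : Set (Matrix (Fin n) (Fin n) ℂ))
      rw [pow_succ', ← mulVec_mulVec]
      exact step_U hJ hN hNJ hvv hE hvS ih
  have h2 := (chain_li hN hv).span_eq_top_of_card_eq_finrank' (by simp)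
  have h3 : (⊤ : Submodule ℂ (Fin n → ℂ)) ≤ U := by
    rw [← h2, Submodule.span_le]
    rintro _ ⟨i, rfl⟩
    exact h1 i
  exact h3 (Submodule.mem_top (x := x))

/-- rotations -/
lemma rot_mul {X : Matrix (Fin n) (Fin n) ℂ} {m a b : ℂ} (hX : X * X * X = (-m) • X) (hab : 2 * b = a ^ 2 + m * b ^ 2) :
    (1 + a • X + b • (X * X)) * (1 + (-a) • X + b • (X * X)) = 1 := by
  have h4 : X * X * (X * X) = (-m) • (X * X) := by
    rw [← Matrix.mul_assoc, hX, smul_mul_assoc]
  have h5 : X * (X * X) = (-m) • X := by rw [← Matrix.mul_assoc, hX]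
  have key : (1 + a • X + b • (X * X)) * (1 + (-a) • X + b • (X * X)) =
      1 + (2 * b - a ^ 2 - m * b ^ 2) • (X * X) := by
    simp only [add_mul, mul_add, one_mul, mul_one, smul_mul_smul_comm, hX, h4, h5, smul_smul]
    module
  rw [key, hab]
  simp

lemma rot_iso {X : Matrix (Fin n) (Fin n) ℂ} {m a b : ℂ} (hX : X * X * X = (-m) • X) (hab : 2 * b = a ^ 2 + m * b ^ 2)
    (hs : X.transpose * J + J * X = 0) :
    (1 + a • X + b • (X * X)).transpose * J * (1 + a • X + b • (X * X)) = J := by
  have h1 : X.transpose * J = -(J * X) := eq_neg_of_add_eq_zero_left hs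
  have h2 : (1 + a • X + b • (X * X)).transpose * J = J * (1 + (-a) • X + b • (X * X)) := by
    rw [transpose_add, transpose_add, transpose_one, transpose_smul, transpose_smul, transpose_mul, add_mul, add_mul,
      one_mul, smul_mul_assoc, smul_mul_assoc, Matrix.mul_assoc, h1, Matrix.mul_neg, ← Matrix.mul_assoc, h1, mul_add,
      mul_add, mul_one, mul_smul_comm, mul_smul_comm, Matrix.neg_mul, neg_neg, Matrix.mul_assoc, neg_smul, smul_neg]
  have h3 := rot_mul (X := X) (a := -a) (b := b) (m := m) hX (by rw [hab]; ring)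
  rw [neg_neg] at h3
  rw [h2, Matrix.mul_assoc, h3, mul_one]

include hZ in
lemma rot_mem {X : Matrix (Fin n) (Fin n) ℂ} {m : ℂ} (hX : X * X * X = (-m) • X)
    (hXL : X ∈ Lie (S : Set (Matrix (Fin n) (Fin n) ℂ))) {a b : ℂ → ℂ} (ha0 : a 0 = 0) (hb0 : b 0 = 0)
    (ha : ∀ t, HasDerivAt a (1 - m * b t) t) (hb : ∀ t, HasDerivAt b (a t) t) (t : ℂ) :
    1 + a t • X + b t • (X * X) ∈ S := by
  refine path (R := fun t => 1 + a t • X + b t • (X * X)) hZ hXL (fun t => ?_) ?_ t
  · have e : (1 + a t • X + b t • (X * X)) * X = (1 - m * b t) • X + a t • (X * X) := by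
      rw [add_mul, add_mul, one_mul, smul_mul_assoc, smul_mul_assoc, hX, smul_smul]
      module
    show HD (fun t => 1 + a t • X + b t • (X * X)) ((1 + a t • X + b t • (X * X)) * X) t
    rw [e]
    intro i j
    simp only [Matrix.add_apply, Matrix.smul_apply, smul_eq_mul]
    have h1 := ((ha t).mul_const (X i j)).add ((hb t).mul_const ((X * X) i j))
    have h2 := (h1.const_add ((1 : Matrix (Fin n) (Fin n) ℂ) i j))
    refine h2.congr_of_eventuallyEq (Filter.Eventually.of_forall fun s => ?_)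
    simp only [Pi.add_apply]
    ring
  · show 1 + a 0 • X + b 0 • (X * X) = 1
    rw [ha0, hb0]
    simp

include hJ hZ in
/-- moving the vector of a reflection -/
lemma move {X : Matrix (Fin n) (Fin n) ℂ} {m : ℂ} (hX : X * X * X = (-m) • X) (hs : X.transpose * J + J * X = 0)
    (hXL : X ∈ Lie (S : Set (Matrix (Fin n) (Fin n) ℂ))) {a b : ℂ → ℂ} (ha0 : a 0 = 0) (hb0 : b 0 = 0)
    (ha : ∀ t, HasDerivAt a (1 - m * b t) t) (hb : ∀ t, HasDerivAt b (a t) t)
    (hab : ∀ t, 2 * b t = a t ^ 2 + m * b t ^ 2) {v : Fin n → ℂ} (hvS : rf J v ∈ S) (t : ℂ) :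
    rf J ((1 + a t • X + b t • (X * X)) *ᵥ v) ∈ S := by
  have _ := hJ
  have h1 := rot_mem hZ hX hXL ha0 hb0 ha hb t
  have h2 : 1 + (-a t) • X + b t • (X * X) ∈ S := by
    have hX' : (-X) * (-X) * (-X) = (-m) • (-X) := by
      rw [neg_mul_neg, Matrix.mul_neg, hX, smul_neg]
    have h3 := rot_mem hZ hX' (Submodule.neg_mem _ hXL) ha0 hb0 ha hb t
    rw [neg_mul_neg, smul_neg, ← neg_smul] at h3
    exact h3
  have h4 := rot_mul hX (hab t)
  have h5 := rot_iso hX (hab t) hs
  have h6 : rf J ((1 + a t • X + b t • (X * X)) *ᵥ v) =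
      (1 + a t • X + b t • (X * X)) * rf J v * (1 + (-a t) • X + b t • (X * X)) := by
    unfold rf
    rw [tv_conj _ _ h4 h5, iso_om h5]
  rw [h6]
  exact mul_mem (mul_mem h1 hvS) h2

include hJ hN hNJ hv hvv hE hvS hZ in
lemma all_rf' {w : Fin n → ℂ} (hw : om J w w = om J v v) : rf J w ∈ S := by
  set s := om J v v with hs
  set r := om J v w with hr
  set x : Fin n → ℂ := w - (r / s) • v with hx
  have hvx : om J v x = 0 := by
    rw [hx, om_sub, om_smul, ← hs, ← hr, div_mul_cancel₀ _ hvv, sub_self]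
  have hxv : om J x v = 0 := by rw [om_symm hJ, hvx]
  set X := wd J v x with hXd
  have hXL : X ∈ Lie (S : Set (Matrix (Fin n) (Fin n) ℂ)) := all_wd hJ hN hNJ hv hvv hE hvS x
  have hXs : X.transpose * J + J * X = 0 := wd_skew hJ v x
  have hXv : X *ᵥ v = (-s) • x := by
    rw [hXd, wd_mulVec, hxv, zero_smul, zero_sub, neg_smul]
  have hXx : X *ᵥ x = (om J x x) • v := by
    rw [hXd, wd_mulVec, hvx, zero_smul, sub_zero]
  set m := s * om J x x with hm
  have hX3 : X * X * X = (-m) • X := by
    refine ext_mulVec fun y => ?_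
    rw [← mulVec_mulVec, ← mulVec_mulVec, smul_mulVec]
    have h1 : X *ᵥ y = om J x y • v - om J v y • x := by rw [hXd, wd_mulVec]
    rw [h1, mulVec_sub, mulVec_smul, mulVec_smul, hXv, hXx, mulVec_sub, mulVec_smul, mulVec_smul, mulVec_smul,
      mulVec_smul, hXv, hXx, hm]
    module
  have hwx : w = (r / s) • v + x := by rw [hx]; abel
  have hnorm : r ^ 2 / s + om J x x = s := by
    have h1 := hw
    rw [hwx] at h1
    simp only [om_add, om_add_left, om_smul, om_smul_left, hvx, hxv, ← hs] at h1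
    have e : r / s * (r / s * s) = r ^ 2 / s := by field_simp
    linear_combination h1 - e
  have hXXv : (X * X) *ᵥ v = (-m) • v := by
    rw [← mulVec_mulVec, hXv, mulVec_smul, hXx, smul_smul, hm]
    congr 1
    ring
  by_cases hm0 : m = 0
  · -- the unipotent case
    have hxx : om J x x = 0 := by
      rw [hm] at hm0
      exact (mul_eq_zero.1 hm0).resolve_left hvv
    have hr2 : (r - s) * (r + s) = 0 := by
      rw [hxx, add_zero, div_eq_iff hvv] at hnorm
      linear_combination hnorm
    have hmv : ∀ t : ℂ, rf J (v + (-(t * s)) • x) ∈ S := by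
      intro t
      have h1 := move hJ hZ hX3 hXs hXL (a := fun t => t) (b := fun t => t ^ 2 / 2) rfl (by simp)
        (fun t => by rw [hm0, zero_mul, sub_zero]; exact hasDerivAt_id t)
        (fun t => by
          have := (hasDerivAt_pow 2 t).div_const 2
          refine this.congr_deriv ?_
          simp)
        (fun t => by rw [hm0]; ring) hvS t
      rw [add_mulVec, add_mulVec, one_mulVec, smul_mulVec, smul_mulVec, hXXv, hm0, hXv, neg_zero, zero_smul, smul_zero,
        add_zero, smul_smul] at h1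
      rwa [mul_neg] at h1
    rcases mul_eq_zero.1 hr2 with h | h
    · have hrs : r = s := by linear_combination h
      have h1 := hmv (-1 / s)
      rw [div_mul_cancel₀ _ hvv, neg_neg, one_smul] at h1
      rw [hwx, hrs, div_self hvv, one_smul]
      exact h1
    · have hrs : r = -s := by linear_combination h
      have h1 := hmv (1 / s)
      rw [div_mul_cancel₀ _ hvv] at h1
      have e : w = -(v + (-1 : ℂ) • x) := by
        rw [hwx, hrs, neg_div, div_self hvv]
        module
      rw [e, rf_neg]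
      exact h1
  · -- the generic case
    obtain ⟨κ, hκ⟩ : ∃ κ : ℂ, κ ^ 2 = m := by
      obtain ⟨κ, hκ⟩ := IsAlgClosed.exists_pow_nat_eq m (n := 2) (by norm_num)
      exact ⟨κ, hκ⟩
    have hκ0 : κ ≠ 0 := by
      rintro rfl
      apply hm0
      rw [← hκ]
      ring
    have hcs : (r / s) ^ 2 + (-κ / s) ^ 2 = 1 := by
      have h1 : (-κ / s) ^ 2 = om J x x / s := by
        rw [div_pow, neg_sq, hκ, hm]
        field_simp
      rw [h1]
      field_simp
      field_simp at hnorm
      linear_combination hnorm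
    obtain ⟨t, htc, hts⟩ : ∃ t : ℂ, Complex.cos (κ * t) = r / s ∧ Complex.sin (κ * t) = -κ / s := by
      have h1 : (r / s + (-κ / s) * Complex.I) * (r / s - (-κ / s) * Complex.I) = 1 := by
        have : (r / s + (-κ / s) * Complex.I) * (r / s - (-κ / s) * Complex.I) =
          (r / s) ^ 2 - (-κ / s) ^ 2 * Complex.I ^ 2 := by ring
        rw [this, Complex.I_sq]
        linear_combination hcs
      have h2 : (r / s + (-κ / s) * Complex.I) ≠ 0 := left_ne_zero_of_mul (by rw [h1]; exact one_ne_zero)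
      set e := r / s + (-κ / s) * Complex.I with he
      set e' := r / s - (-κ / s) * Complex.I with he'
      set θ := -Complex.I * Complex.log e with hθ
      have h3 : Complex.exp (θ * Complex.I) = e := by
        rw [hθ]
        have : -Complex.I * Complex.log e * Complex.I = Complex.log e := by
          rw [mul_right_comm, neg_mul, Complex.I_mul_I, neg_neg, one_mul]
        rw [this, Complex.exp_log h2]
      have h4 : Complex.exp (-θ * Complex.I) = e' := by
        rw [neg_mul, Complex.exp_neg, h3]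
        exact inv_eq_of_mul_eq_one_right h1
      refine ⟨θ / κ, ?_, ?_⟩
      · rw [mul_div_cancel₀ _ hκ0, Complex.cos, h3, h4, he, he']
        ring
      · rw [mul_div_cancel₀ _ hκ0, Complex.sin, h3, h4, he, he']
        have : (r / s - -κ / s * Complex.I - (r / s + -κ / s * Complex.I)) * Complex.I / 2 =
          κ / s * Complex.I ^ 2 := by ring
        rw [this, Complex.I_sq]
        ring
    have hda : ∀ t, HasDerivAt (fun t => Complex.sin (κ * t) / κ) (1 - m * ((1 - Complex.cos (κ * t)) / κ ^ 2)) t := by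
      intro t
      have h1 : HasDerivAt (fun t => κ * t) κ t := by simpa using (hasDerivAt_id t).const_mul κ
      have h2 := ((Complex.hasDerivAt_sin (κ * t)).comp t h1).div_const κ
      refine h2.congr_deriv ?_
      rw [← hκ]
      field_simp
      ring
    have hdb : ∀ t, HasDerivAt (fun t => (1 - Complex.cos (κ * t)) / κ ^ 2) (Complex.sin (κ * t) / κ) t := by
      intro t
      have h1 : HasDerivAt (fun t => κ * t) κ t := by simpa using (hasDerivAt_id t).const_mul κ
      have h2 := (((Complex.hasDerivAt_cos (κ * t)).comp t h1).const_sub 1).div_const (κ ^ 2)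
      refine h2.congr_deriv ?_
      field_simp
    have h1 := move hJ hZ hX3 hXs hXL (a := fun t => Complex.sin (κ * t) / κ)
      (b := fun t => (1 - Complex.cos (κ * t)) / κ ^ 2) (by simp) (by simp) hda hdb
      (fun t => by
        have := Complex.sin_sq_add_cos_sq (κ * t)
        rw [← hκ]
        field_simp
        linear_combination -this) hvS t
    have h2 : (1 + (Complex.sin (κ * t) / κ) • X + ((1 - Complex.cos (κ * t)) / κ ^ 2) • (X * X)) *ᵥ v = w := by
      rw [add_mulVec, add_mulVec, one_mulVec, smul_mulVec, smul_mulVec, hXXv, hXv, htc, hts, ← hκ, smul_smul, smul_smul,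
        hwx]
      have e1 : (-κ / s / κ * -s) = 1 := by field_simp
      have e2 : ((1 - r / s) / κ ^ 2 * -κ ^ 2) = r / s - 1 := by
        field_simp
        ring
      rw [e1, e2]
      module
    rw [h2] at h1
    exact h1

include hJ hN hNJ hv hvv hE hvS hZ in
/-- all reflections -/
lemma all_rf {w : Fin n → ℂ} (hw : om J w w ≠ 0) : rf J w ∈ S := by
  obtain ⟨c, hc⟩ : ∃ c : ℂ, c ^ 2 = om J v v / om J w w :=
    IsAlgClosed.exists_pow_nat_eq _ (n := 2) (by norm_num)
  have hc0 : c ≠ 0 := by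
    rintro rfl
    have h1 : om J v v / om J w w ≠ 0 := div_ne_zero hvv hw
    apply h1
    rw [← hc]
    ring
  have h2 := all_rf' hJ hN hNJ hv hvv hE hvS hZ (w := c • w) (by
    rw [om_smul, om_smul_left, ← mul_assoc, ← sq, hc, div_mul_cancel₀ _ hw])
  rwa [rf_smul hc0] at h2

end main

/-- reflections fix orthogonal vectors -/
lemma rf_fix {w x : Fin n → ℂ} (h : om J w x = 0) : rf J w *ᵥ x = x := by
  rw [rf_mulVec, h, mul_zero, zero_smul, sub_zero]

/-- **Cartan-Dieudonné.** -/
theorem orth_mem (hJ : J.transpose = J) (hdet : J.det ≠ 0) {S : Submonoid (Matrix (Fin n) (Fin n) ℂ)}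
    (hS : ∀ w, om J w w ≠ 0 → rf J w ∈ S) (g : Matrix (Fin n) (Fin n) ℂ) (hg : g.transpose * J * g = J) : g ∈ S := by
  set B : LinearMap.BilinForm ℂ (Fin n → ℂ) := Matrix.toLinearMap₂' ℂ J with hB
  have hBa : ∀ u v, B u v = om J u v := by
    intro u v
    rw [hB, Matrix.toLinearMap₂'_apply']
    rfl
  have hBs : LinearMap.IsSymm B := ⟨fun u v => by rw [hBa, hBa, om_symm hJ]; rfl⟩
  have hnd : ∀ u, (∀ v, B u v = 0) → u = 0 := by
    intro u hu
    have h1 : ∀ w : Fin n → ℂ, u ⬝ᵥ w = 0 := by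
      intro w
      have h2 := hu (J⁻¹ *ᵥ w)
      rw [hBa] at h2
      unfold om at h2
      rw [mulVec_mulVec, mul_nonsing_inv _ (Ne.isUnit hdet), one_mulVec] at h2
      exact h2
    funext i
    have := h1 (Pi.single i 1)
    rwa [dotProduct_single_one] at this
  obtain ⟨b, hb⟩ := LinearMap.BilinForm.exists_orthogonal_basis hBs
  have hbo : ∀ i j, i ≠ j → om J (b i) (b j) = 0 := fun i j hij => by rw [← hBa]; exact hb hij
  have hbn : ∀ i, om J (b i) (b i) ≠ 0 := by
    intro i hi
    apply b.ne_zero i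
    refine hnd _ fun v => ?_
    have h1 : B (b i) = 0 := by
      refine b.ext fun j => ?_
      rw [hBa]
      by_cases hij : i = j
      · rw [← hij, hi]; rfl
      · rw [hbo i j hij]; rfl
    rw [h1]; rfl
  have key : ∀ k : ℕ, k ≤ Module.finrank ℂ (Fin n → ℂ) → ∀ g : Matrix (Fin n) (Fin n) ℂ, g.transpose * J * g = J →
      (∀ i : Fin (Module.finrank ℂ (Fin n → ℂ)), (i : ℕ) + k < Module.finrank ℂ (Fin n → ℂ) → g *ᵥ b i = b i) → g ∈ S := by
    intro k
    induction k with
    | zero =>
      intro _ g _ hfix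
      have h1 : g = 1 := by
        refine Matrix.toLin'.injective (b.ext fun i => ?_)
        rw [toLin'_apply, toLin'_one]
        exact hfix i i.2
      rw [h1]
      exact one_mem _
    | succ k ih =>
      intro hk g hg hfix
      set i₀ : Fin (Module.finrank ℂ (Fin n → ℂ)) := ⟨Module.finrank ℂ (Fin n → ℂ) - (k + 1), by omega⟩ with hi₀
      set β := b i₀ with hβ
      set a := g *ᵥ β with ha
      have hβ0 : om J β β ≠ 0 := hbn i₀
      have haa : om J a a = om J β β := iso_om hg _ _
      have horth : ∀ i : Fin (Module.finrank ℂ (Fin n → ℂ)), (i : ℕ) + (k + 1) < Module.finrank ℂ (Fin n → ℂ) →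
          om J β (b i) = 0 ∧ om J a (b i) = 0 := by
        intro i hi
        have hne : i₀ ≠ i := by
          intro h
          rw [← h] at hi
          simp only [hi₀] at hi
          omega
        refine ⟨hbo _ _ hne, ?_⟩
        have h1 := iso_om hg β (b i)
        rw [hfix i hi, hbo _ _ hne] at h1
        exact h1
      -- a product of reflections
      obtain ⟨r, r', hrr, hrS, hriso, hra, hrfix⟩ : ∃ r r' : Matrix (Fin n) (Fin n) ℂ, r' * r = 1 ∧ r' ∈ S ∧
          r.transpose * J * r = J ∧ r *ᵥ a = β ∧ ∀ x, om J β x = 0 → om J a x = 0 → r *ᵥ x = x := by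
        by_cases h : om J (a - β) (a - β) = 0
        · have h1 : om J (a + β) (a + β) = 4 * om J β β := by
            simp only [om_sub, om_sub_left] at h
            simp only [om_add, om_add_left]
            rw [om_symm hJ a β] at h ⊢
            linear_combination -h + 2 * haa
          have h2 : om J (a + β) (a + β) ≠ 0 := by
            rw [h1]
            exact mul_ne_zero (by norm_num) hβ0
          have h3 : 2 * om J (a + β) a = om J (a + β) (a + β) := by
            simp only [om_add, om_add_left]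
            rw [om_symm hJ a β]
            linear_combination haa
          refine ⟨rf J β * rf J (a + β), rf J (a + β) * rf J β, ?_, mul_mem (hS _ h2) (hS _ hβ0), ?_, ?_, ?_⟩
          · rw [Matrix.mul_assoc, ← Matrix.mul_assoc (rf J β), rf_mul_self hβ0, one_mul, rf_mul_self h2]
          · rw [transpose_mul]
            calc (rf J (a + β)).transpose * (rf J β).transpose * J * (rf J β * rf J (a + β))
                = (rf J (a + β)).transpose * ((rf J β).transpose * J * rf J β) * rf J (a + β) := by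
                  simp only [Matrix.mul_assoc]
              _ = J := by rw [rf_isom hJ hβ0, rf_isom hJ h2]
          · rw [← mulVec_mulVec, rf_mulVec (a + β)]
            have h4 : 2 / om J (a + β) (a + β) * om J (a + β) a = 1 := by
              rw [div_mul_eq_mul_div, h3, div_self h2]
            rw [h4, one_smul, sub_add_cancel_left, mulVec_neg, rf_self hβ0, neg_neg]
          · intro x hx1 hx2
            rw [← mulVec_mulVec, rf_fix (w := a + β) (by rw [om_add_left, hx1, hx2, add_zero]), rf_fix hx1]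
        · have h3 : 2 * om J (a - β) a = om J (a - β) (a - β) := by
            simp only [om_sub, om_sub_left]
            rw [om_symm hJ a β]
            linear_combination haa
          refine ⟨rf J (a - β), rf J (a - β), rf_mul_self h, hS _ h, rf_isom hJ h, ?_, ?_⟩
          · rw [rf_mulVec]
            have h4 : 2 / om J (a - β) (a - β) * om J (a - β) a = 1 := by
              rw [div_mul_eq_mul_div, h3, div_self h]
            rw [h4, one_smul, sub_sub_cancel]
          · intro x hx1 hx2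
            exact rf_fix (by rw [om_sub_left, hx1, hx2, sub_zero])
      have h1 : r * g ∈ S := by
        refine ih (by omega) (r * g) ?_ ?_
        · rw [transpose_mul]
          calc g.transpose * r.transpose * J * (r * g) = g.transpose * (r.transpose * J * r) * g := by
                simp only [Matrix.mul_assoc]
            _ = J := by rw [hriso, hg]
        · intro i hi
          rw [← mulVec_mulVec]
          by_cases hii : i = i₀
          · rw [hii]
            exact hra
          · have h2 : (i : ℕ) + (k + 1) < Module.finrank ℂ (Fin n → ℂ) := by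
              have h3 : (i : ℕ) ≠ Module.finrank ℂ (Fin n → ℂ) - (k + 1) := fun h => hii (Fin.ext h)
              omega
            rw [hfix i h2]
            exact hrfix _ (horth i h2).1 (horth i h2).2
      have h2 : g = r' * (r * g) := by rw [← Matrix.mul_assoc, hrr, one_mul]
      rw [h2]
      exact mul_mem hrS h1
  exact key _ le_rfl g hg fun i hi => absurd hi (by omega)

/-- **Density.** -/
theorem orth_all {N : Matrix (Fin n) (Fin n) ℂ} {v : Fin n → ℂ} {S : Submonoid (Matrix (Fin n) (Fin n) ℂ)}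
    (hJ : J.transpose = J) (hdet : J.det ≠ 0) (hN : N ^ n = 0) (hNJ : N.transpose * J + J * N = 0)
    (hv : (N ^ (n - 1)) *ᵥ v ≠ 0) (hvv : om J v v ≠ 0)
    (hE : ∀ c : ℂ, ∀ g ∈ S, E N c * g * E N (-c) ∈ S) (hvS : rf J v ∈ S)
    (hZ : ∀ g, (∀ p ∈ Id (S : Set (Matrix (Fin n) (Fin n) ℂ)), pe p g = 0) → g ∈ S)
    (g : Matrix (Fin n) (Fin n) ℂ) (hg : g.transpose * J * g = J) : g ∈ S :=
  orth_mem hJ hdet (fun _ hw => all_rf hJ hN hNJ hv hvv hE hvS hZ hw) g hg

end Pool.Agent.L0h14.HO
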