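import Mathlib
import Pool.Agent.L0h14.HO.Loc1
import Pool.Agent.L0h14.HO.Orth
import Pool.Agent.Y119.HY.Gal

/-!
# The monodromy at one preserves the relations
-/

set_option autoImplicit false

open Filter Topology Matrix

namespace Pool.Agent.L0h14.HO

open Pool.Agent.Y119.HY

variable {n : ℕ}

/-- analyticity of polynomial expressions -/
lemma ev_an (P : MvPolynomial (Vr n) ℂ) {U : Set ℂ} {z L : ℂ → ℂ} {X : ℂ → Matrix (Fin n) (Fin n) ℂ}
    (hz : AnalyticOnNhd ℂ z U) (hL : AnalyticOnNhd ℂ L U) (hX : ∀ i j, AnalyticOnNhd ℂ (fun s => X s i j) U) :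
    AnalyticOnNhd ℂ (fun s => ev P (z s) (L s) (X s)) U := by
  unfold ev
  induction P using MvPolynomial.induction_on with
  | C a =>
    simp only [MvPolynomial.eval_C]
    exact analyticOnNhd_const
  | add p q hp hq =>
    simp only [map_add]
    exact hp.add hq
  | mul_X p i hp =>
    simp only [map_mul, MvPolynomial.eval_X]
    refine hp.mul ?_
    rcases i with _ | _ | x
    · exact hz
    · exact hL
    · exact hX x.1 x.2

/-- the left half plane -/
def HP : Set ℂ := {s | s.re < 0}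

lemma HP_open : IsOpen HP := isOpen_lt Complex.continuous_re continuous_const

lemma HP_conn : IsPreconnected HP := (convex_halfSpace_re_lt 0).isPreconnected

lemma exp_HP {s : ℂ} (h : s ∈ HP) : ‖Complex.exp s‖ < 1 := by
  rw [Complex.norm_exp, Real.exp_lt_one_iff]
  exact h

/-- **The monodromy at `1` preserves the relations.** -/
theorem mono_one {K : ℕ → Matrix (Fin n) (Fin n) ℂ} {N2 : Matrix (Fin n) (Fin n) ℂ}
    (hN : N2 * N2 = (-(1 / 2 : ℂ)) • N2) (hg : ∀ i j, PG fun k => K k i j)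
    {Y : ℂ → Matrix (Fin n) (Fin n) ℂ} {M Mi : Matrix (Fin n) (Fin n) ℂ} (hMi : M * Mi = 1)
    (hY : ∀ x : ℝ, 0 < x → x < 1 → Y x = Zf N2 K (1 - (x : ℂ)) * M) : Mi * (1 + (4 : ℂ) • N2) * M ∈ Gal Y := by
  intro P hP x hx hx1
  set F : ℂ → ℂ := fun s => ev P (1 - Complex.exp s) (Complex.log (1 - Complex.exp s)) (Hf K (Complex.exp s) * Pf N2 s * M)
    with hF
  have hFan : AnalyticOnNhd ℂ F HP := by
    have hexp : AnalyticOnNhd ℂ Complex.exp HP := fun s _ => analyticAt_cexp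
    have h1 : AnalyticOnNhd ℂ (fun s => 1 - Complex.exp s) HP := analyticOnNhd_const.sub hexp
    refine ev_an P h1 ?_ fun i j => ?_
    · intro s hs
      refine AnalyticAt.clog (h1 s hs) ?_
      left
      have h2 : (Complex.exp s).re ≤ ‖Complex.exp s‖ := Complex.re_le_norm _
      have h3 := exp_HP hs
      rw [Complex.sub_re, Complex.one_re]
      linarith
    · have h2 : ∀ i j, AnalyticOnNhd ℂ (fun s => Hf K (Complex.exp s) i j) HP := by
        intro i j s hs
        have h3 : AnalyticAt ℂ (fun w => Hf K w i j) (Complex.exp s) := Hf_an1 hg i j _ (by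
          rw [Metric.mem_ball, dist_zero_right]
          exact exp_HP hs)
        exact h3.fun_comp (hexp s hs)
      have h4 : ∀ i j, AnalyticOnNhd ℂ (fun s => Pf N2 s i j) HP := by
        intro i j
        unfold Pf
        simp only [Matrix.add_apply, Matrix.smul_apply, smul_eq_mul]
        refine analyticOnNhd_const.add (AnalyticOnNhd.mul (analyticOnNhd_const.mul (analyticOnNhd_const.sub ?_))
          analyticOnNhd_const)
        intro s _
        exact (analyticAt_cexp).fun_comp (((analyticAt_id).neg).div analyticAt_const two_ne_zero)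
      simp only [Matrix.mul_apply]
      exact Finset.analyticOnNhd_fun_sum _ fun l _ => (Finset.analyticOnNhd_fun_sum _ fun k _ =>
        (h2 _ _).mul (h4 _ _)).mul analyticOnNhd_const
  -- vanishing at real points
  have hreal : ∀ r : ℝ, r < 0 → F (r : ℂ) = 0 := by
    intro r hr
    have e1 : Real.exp r < 1 := Real.exp_lt_one_iff.2 hr
    have e2 : 0 < Real.exp r := Real.exp_pos r
    have h3 := hP (1 - Real.exp r) (by linarith) (by linarith)
    rw [hY (1 - Real.exp r) (by linarith) (by linarith)] at h3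
    push_cast at h3
    rw [sub_sub_cancel] at h3
    unfold Zf at h3
    have e3 : Complex.log (Complex.exp (r : ℂ)) = r := by
      rw [← Complex.ofReal_exp, ← Complex.ofReal_log e2.le, Real.log_exp]
    rw [e3] at h3
    exact h3
  have hzero : Set.EqOn F 0 HP := by
    refine AnalyticOnNhd.eqOn_zero_of_preconnected_of_frequently_eq_zero hFan HP_conn (z₀ := ((-1 : ℝ) : ℂ)) ?_ ?_
    · show ((-1 : ℝ) : ℂ).re < 0
      rw [Complex.ofReal_re]
      norm_num
    · rw [Filter.frequently_iff]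
      intro U hU
      rw [mem_nhdsWithin] at hU
      obtain ⟨V, hVo, hV1, hV2⟩ := hU
      have h1 : ∀ᶠ r : ℝ in 𝓝 (-1), (r : ℂ) ∈ V :=
        (Complex.continuous_ofReal.tendsto (-1)).eventually (hVo.mem_nhds hV1)
      have h2 : ∀ᶠ r : ℝ in 𝓝 (-1), r < 0 := gt_mem_nhds (by norm_num)
      obtain ⟨ε, hε, h3⟩ := Metric.eventually_nhds_iff.1 (h1.and h2)
      have h4 := h3 (y := -1 - ε / 2) (by
        rw [Real.dist_eq]
        have : -1 - ε / 2 - -1 = -(ε / 2) := by ring
        rw [this, abs_neg, abs_of_pos (by positivity)]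
        linarith)
      refine ⟨((-1 - ε / 2 : ℝ) : ℂ), hV2 ⟨h4.1, ?_⟩, hreal _ h4.2⟩
      intro h5
      rw [Set.mem_singleton_iff, Complex.ofReal_inj] at h5
      linarith
  -- the value after the loop
  have hx0 : (0 : ℝ) < 1 - x := by linarith
  have hxr : (1 - (x : ℂ)) = ((1 - x : ℝ) : ℂ) := by push_cast; rfl
  have hx0' : (1 - (x : ℂ)) ≠ 0 := by
    rw [hxr]
    exact_mod_cast hx0.ne'
  have hs : Complex.log (1 - (x : ℂ)) + 2 * Real.pi * Complex.I ∈ HP := by
    show (Complex.log (1 - (x : ℂ)) + 2 * Real.pi * Complex.I).re < 0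
    rw [Complex.add_re, hxr, ← Complex.ofReal_log hx0.le, Complex.ofReal_re]
    have h1 : (2 * (Real.pi : ℂ) * Complex.I).re = 0 := by simp
    rw [h1, add_zero]
    exact Real.log_neg hx0 (by linarith)
  have h1 := hzero hs
  have e1 : Complex.exp (Complex.log (1 - (x : ℂ)) + 2 * Real.pi * Complex.I) = 1 - (x : ℂ) := by
    rw [Complex.exp_add, Complex.exp_log hx0', Complex.exp_two_pi_mul_I, mul_one]
  rw [hF] at h1
  simp only [e1, sub_sub_cancel, Pf_add hN, Pf_two_pi] at h1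
  rw [hY x hx hx1]
  unfold Zf
  have e2 : Hf K (1 - (x : ℂ)) * Pf N2 (Complex.log (1 - (x : ℂ))) * M * (Mi * (1 + (4 : ℂ) • N2) * M) =
      Hf K (1 - (x : ℂ)) * (Pf N2 (Complex.log (1 - (x : ℂ))) * (1 + (4 : ℂ) • N2)) * M := by
    calc _ = Hf K (1 - (x : ℂ)) * Pf N2 (Complex.log (1 - (x : ℂ))) * (M * Mi) * (1 + (4 : ℂ) • N2) * M := by
          simp only [Matrix.mul_assoc]
      _ = _ := by rw [hMi, mul_one]; simp only [Matrix.mul_assoc]
  rw [e2]
  exact h1

/-! ### the group of relations is closed -/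

/-- the relation at a point as a polynomial in the matrix -/
noncomputable def rel (P : MvPolynomial (Vr n) ℂ) (z L : ℂ) (Y : Matrix (Fin n) (Fin n) ℂ) :
    MvPolynomial (Fin n × Fin n) ℂ :=
  MvPolynomial.aeval (fun o : Vr n => o.elim (MvPolynomial.C z) fun o => o.elim (MvPolynomial.C L) fun x =>
    ∑ k, MvPolynomial.C (Y x.1 k) * MvPolynomial.X (k, x.2)) P

lemma pe_rel (P : MvPolynomial (Vr n) ℂ) (z L : ℂ) (Y g : Matrix (Fin n) (Fin n) ℂ) :
    pe (rel P z L Y) g = ev P z L (Y * g) := by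
  unfold pe rel ev
  rw [← MvPolynomial.coe_aeval_eq_eval, ← MvPolynomial.coe_aeval_eq_eval, RingHom.coe_coe, RingHom.coe_coe]
  have h1 := MvPolynomial.aeval_bind₁ (S := ℂ) (fun x : Fin n × Fin n => g x.1 x.2)
    (fun o : Vr n => o.elim (MvPolynomial.C z) fun o => o.elim (MvPolynomial.C L) fun x =>
    ∑ k, MvPolynomial.C (Y x.1 k) * (MvPolynomial.X (k, x.2) : MvPolynomial (Fin n × Fin n) ℂ)) P
  refine h1.trans ?_
  congr 1
  congr 1
  funext o
  rcases o with _ | _ | x
  · simp [pt]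
  · simp [pt]
  · simp [pt, Matrix.mul_apply]

lemma Gal_Z (Y : ℂ → Matrix (Fin n) (Fin n) ℂ) (g : Matrix (Fin n) (Fin n) ℂ)
    (h : ∀ p ∈ Id (Gal Y : Set (Matrix (Fin n) (Fin n) ℂ)), pe p g = 0) : g ∈ Gal Y := by
  intro P hP x hx hx1
  rw [← pe_rel]
  refine h _ fun g' hg' => ?_
  rw [pe_rel]
  exact hg' P hP x hx hx1

/-! ### the form -/

variable {J0 J1 : Matrix (Fin n) (Fin n) ℂ}

/-- the relation of the form -/
noncomputable def fr (J0 J1 : Matrix (Fin n) (Fin n) ℂ) (i j : Fin n) : MvPolynomial (Vr n) ℂ :=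
  ∑ k, ∑ l, MvPolynomial.X (some (some (k, i))) * (MvPolynomial.C (J0 k l) - MvPolynomial.X none * MvPolynomial.C (J1 k l)) *
    MvPolynomial.X (some (some (l, j))) - MvPolynomial.C (J0 i j)

lemma ev_fr (z L : ℂ) (Y : Matrix (Fin n) (Fin n) ℂ) (i j : Fin n) :
    ev (fr J0 J1 i j) z L Y = (Y.transpose * (J0 - z • J1) * Y - J0) i j := by
  unfold ev fr
  rw [map_sub, map_sum, Matrix.sub_apply, MvPolynomial.eval_C, Matrix.mul_apply]
  congr 1
  simp only [map_sum, map_mul, map_sub, MvPolynomial.eval_X, MvPolynomial.eval_C, Matrix.mul_apply,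
    Matrix.transpose_apply, Matrix.sub_apply, Matrix.smul_apply, smul_eq_mul, Finset.sum_mul]
  rw [Finset.sum_comm]
  rfl

/-- matrices which preserve the relations preserve the form -/
lemma Gal_isom {Y : ℂ → Matrix (Fin n) (Fin n) ℂ}
    (hY : ∀ x : ℝ, 0 < x → x < 1 → (Y x).transpose * (J0 - (x : ℂ) • J1) * Y x = J0) {g : Matrix (Fin n) (Fin n) ℂ}
    (hg : g ∈ Gal Y) : g.transpose * J0 * g = J0 := by
  have h0 : (0 : ℝ) < 1 / 2 := by norm_num
  have h1 : (1 / 2 : ℝ) < 1 := by norm_num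
  have h2 : ∀ i j, (((Y ((1 / 2 : ℝ) : ℂ) * g).transpose * (J0 - ((1 / 2 : ℝ) : ℂ) • J1) * (Y ((1 / 2 : ℝ) : ℂ) * g)) - J0) i j = 0 := by
    intro i j
    rw [← ev_fr (L := Complex.log ((1 / 2 : ℝ) : ℂ))]
    refine hg _ ?_ _ h0 h1
    intro x hx hx1
    rw [ev_fr, hY x hx hx1, sub_self, Matrix.zero_apply]
  have h3 : (Y ((1 / 2 : ℝ) : ℂ) * g).transpose * (J0 - ((1 / 2 : ℝ) : ℂ) • J1) * (Y ((1 / 2 : ℝ) : ℂ) * g) = J0 := by
    rw [← sub_eq_zero]
    ext i j
    exact h2 i j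
  rw [transpose_mul] at h3
  calc g.transpose * J0 * g = g.transpose * ((Y ((1 / 2 : ℝ) : ℂ)).transpose * (J0 - ((1 / 2 : ℝ) : ℂ) • J1) *
        Y ((1 / 2 : ℝ) : ℂ)) * g := by rw [hY _ h0 h1]
    _ = g.transpose * (Y ((1 / 2 : ℝ) : ℂ)).transpose * (J0 - ((1 / 2 : ℝ) : ℂ) • J1) * (Y ((1 / 2 : ℝ) : ℂ) * g) := by
      simp only [Matrix.mul_assoc]
    _ = J0 := h3

/-! ### connection -/

/-- the derivative of the pairing of two solutions -/
lemma pair1 {A B C : Matrix (Fin n) (Fin n) ℂ} (hA0 : A.transpose * J0 + J0 * A = 0)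
    (hB0 : B.transpose * J0 + J0 * B = C) (hA1 : J1 + (A.transpose * J1 + J1 * A) = C)
    (hB1 : B.transpose * J1 + J1 * B = C) {Y Z : ℂ → Matrix (Fin n) (Fin n) ℂ} {z : ℂ} (hz : z ≠ 0) (hz1 : 1 - z ≠ 0)
    (hY : HD Y (Gm A B z * Y z) z) (hZ : HD Z (Gm A B z * Z z) z) :
    HD (fun w => (Y w).transpose * (J0 - w • J1) * Z w) 0 z := by
  have hJ : HD (fun w => J0 - w • J1) (-J1) z := by
    intro i j
    simp only [Matrix.sub_apply, Matrix.smul_apply, smul_eq_mul, Matrix.neg_apply]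
    have := ((hasDerivAt_id z).mul_const (J1 i j)).const_sub (J0 i j)
    simpa using this
  refine ((hY.transpose.mul hJ).mul hZ).congr ?_
  have key : (Gm A B z).transpose * (J0 - z • J1) + -J1 + (J0 - z • J1) * Gm A B z = 0 := by
    unfold Gm
    rw [transpose_add, transpose_smul, transpose_smul]
    have e : ((1 / z) • A.transpose + (1 / (1 - z)) • B.transpose) * (J0 - z • J1) + -J1 +
        (J0 - z • J1) * ((1 / z) • A + (1 / (1 - z)) • B) =
        (1 / z) • (A.transpose * J0 + J0 * A) - (1 / z * z) • (A.transpose * J1 + J1 * A) +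
        (1 / (1 - z)) • (B.transpose * J0 + J0 * B) - (1 / (1 - z) * z) • (B.transpose * J1 + J1 * B) - J1 := by
      simp only [add_mul, mul_add, sub_mul, mul_sub, smul_mul_assoc, mul_smul_comm]
      module
    have h1 : A.transpose * J1 + J1 * A = C - J1 := by rw [← hA1]; abel
    have e2 : (1 / (1 - z)) • C - (1 / (1 - z) * z) • C = C := by
      rw [← sub_smul, show 1 / (1 - z) - 1 / (1 - z) * z = 1 by field_simp, one_smul]
    rw [e, hA0, hB0, hB1, h1, one_div_mul_cancel hz, smul_zero, one_smul]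
    calc _ = ((1 / (1 - z)) • C - (1 / (1 - z) * z) • C) - C := by abel
      _ = 0 := by rw [e2, sub_self]
  rw [transpose_mul]
  calc ((Y z).transpose * (Gm A B z).transpose * (J0 - z • J1) + (Y z).transpose * -J1) * Z z +
      (Y z).transpose * (J0 - z • J1) * (Gm A B z * Z z)
      = (Y z).transpose * ((Gm A B z).transpose * (J0 - z • J1) + -J1 + (J0 - z • J1) * Gm A B z) * Z z := by
        simp only [mul_add, add_mul, Matrix.mul_assoc]
    _ = 0 := by rw [key, mul_zero, zero_mul]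

/-- **Connection.** -/
theorem connect1 {A B C : Matrix (Fin n) (Fin n) ℂ} {H K : ℕ → Matrix (Fin n) (Fin n) ℂ} (hA : A ^ n = 0)
    (hA0 : A.transpose * J0 + J0 * A = 0)
    (hB0 : B.transpose * J0 + J0 * B = C) (hA1 : J1 + (A.transpose * J1 + J1 * A) = C)
    (hB1 : B.transpose * J1 + J1 * B = C) (hB : (-B) * (-B) = (-(1 / 2 : ℂ)) • (-B))
    (hdet : ∀ x : ℝ, 0 < x → x < 1 → (J0 - (x : ℂ) • J1).det ≠ 0)
    (hH : Sol A B H) (hK : Sol (-B) (-A) K) :
    ∃ M Mi : Matrix (Fin n) (Fin n) ℂ, M * Mi = 1 ∧ Mi * M = 1 ∧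
      ∀ z ∈ Lens, Yf A H z = Zf (-B) K (1 - z) * M := by
  have hKg := growth1 hK hB
  have hHg := hH.growth hA
  set Z : ℂ → Matrix (Fin n) (Fin n) ℂ := fun z => Zf (-B) K (1 - z) with hZ
  have hz0 : ∀ z ∈ Lens, z ≠ 0 := fun z hz => Complex.slitPlane_ne_zero (slit_Lens hz)
  have hz1 : ∀ z ∈ Lens, 1 - z ≠ 0 := fun z hz => Complex.slitPlane_ne_zero (slit_Lens (symm_Lens hz))
  have hYd : ∀ z ∈ Lens, HD (Yf A H) (Gm A B z * Yf A H z) z := fun z hz =>
    Yf_ode hH hA (mem_Lens.1 hz).1 (slit_Lens hz)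
  have hZd : ∀ z ∈ Lens, HD Z (Gm A B z * Z z) z := by
    intro z hz
    have hz' := symm_Lens hz
    have h1 := Zf_ode hK hB (mem_Lens.1 hz').1 (slit_Lens hz')
    have h2 : HasDerivAt (fun w : ℂ => 1 - w) (-1) z := by
      simpa using (hasDerivAt_id z).const_sub 1
    refine (h1.comp h2).congr ?_
    rw [hZ, ← smul_mul_assoc]
    congr 1
    unfold Gm
    rw [sub_sub_cancel, smul_neg, smul_neg]
    rw [← neg_add, neg_smul, one_smul, neg_neg, add_comm]
  -- a point where `Z` is invertible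
  obtain ⟨x, hx0, hx1, hxd⟩ := Hf_inv (Hf_zero hK) hKg
  have hxL : ((1 - x : ℝ) : ℂ) ∈ Lens := real_mem_Lens (by linarith) (by linarith)
  set S := (Z ((1 - x : ℝ) : ℂ)).transpose * (J0 - ((1 - x : ℝ) : ℂ) • J1) * Z ((1 - x : ℝ) : ℂ) with hS
  have hSd : S.det ≠ 0 := by
    rw [hS, det_mul, det_mul, det_transpose]
    have h1 : (Z ((1 - x : ℝ) : ℂ)).det ≠ 0 := by
      rw [hZ]
      simp only
      unfold Zf
      have e : (1 - ((1 - x : ℝ) : ℂ)) = (x : ℂ) := by push_cast; ring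
      rw [e, det_mul]
      refine mul_ne_zero hxd ?_
      have h2 := congrArg Matrix.det (Pf_mul_neg hB (Complex.log (x : ℂ)))
      rw [det_mul, det_one] at h2
      exact left_ne_zero_of_mul (by rw [h2]; exact one_ne_zero)
    exact mul_ne_zero (mul_ne_zero h1 (hdet _ (by linarith) (by linarith))) h1
  have hSc : ∀ z ∈ Lens, (Z z).transpose * (J0 - z • J1) * Z z = S := fun z hz =>
    const_Lens (F := fun z => (Z z).transpose * (J0 - z • J1) * Z z)
      (fun x hx => pair1 hA0 hB0 hA1 hB1 (hz0 x hx) (hz1 x hx) (hZd x hx) (hZd x hx)) hz hxL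
  set W := (Z ((1 - x : ℝ) : ℂ)).transpose * (J0 - ((1 - x : ℝ) : ℂ) • J1) * Yf A H ((1 - x : ℝ) : ℂ) with hW
  have hWc : ∀ z ∈ Lens, (Z z).transpose * (J0 - z • J1) * Yf A H z = W := fun z hz =>
    const_Lens (F := fun z => (Z z).transpose * (J0 - z • J1) * Yf A H z)
      (fun x hx => pair1 hA0 hB0 hA1 hB1 (hz0 x hx) (hz1 x hx) (hZd x hx) (hYd x hx)) hz hxL
  have hu : IsUnit S.det := Ne.isUnit hSd
  have hZM : ∀ z ∈ Lens, Yf A H z = Z z * (S⁻¹ * W) := by
    intro z hz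
    have h1 : (S⁻¹ * (Z z).transpose * (J0 - z • J1)) * Z z = 1 := by
      rw [Matrix.mul_assoc, Matrix.mul_assoc, ← Matrix.mul_assoc _ (J0 - z • J1), hSc z hz, nonsing_inv_mul _ hu]
    have h2 : Z z * (S⁻¹ * (Z z).transpose * (J0 - z • J1)) = 1 := mul_eq_one_comm.1 h1
    rw [← hWc z hz]
    calc Yf A H z = Z z * (S⁻¹ * (Z z).transpose * (J0 - z • J1)) * Yf A H z := by rw [h2, one_mul]
      _ = _ := by simp only [Matrix.mul_assoc]
  -- `M` is invertible
  obtain ⟨y, hy0, hy1, hyd⟩ := Hf_inv (Hf_zero hH) hHg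
  have hMd : (S⁻¹ * W).det ≠ 0 := by
    have h1 := congrArg Matrix.det (hZM (y : ℂ) (real_mem_Lens hy0 hy1))
    rw [det_mul (Z (y : ℂ))] at h1
    have h2 : (Yf A H (y : ℂ)).det ≠ 0 := by
      unfold Yf
      rw [det_mul]
      refine mul_ne_zero hyd ?_
      have h2 := congrArg Matrix.det (E_mul_neg hA (Complex.log (y : ℂ)))
      rw [det_mul, det_one] at h2
      exact left_ne_zero_of_mul (by rw [h2]; exact one_ne_zero)
    rw [h1] at h2
    exact right_ne_zero_of_mul h2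
  exact ⟨S⁻¹ * W, (S⁻¹ * W)⁻¹, mul_nonsing_inv _ (Ne.isUnit hMd), nonsing_inv_mul _ (Ne.isUnit hMd), hZM⟩

/-! ### reflections -/

lemma rf_of (hJ : J0.transpose = J0) (hdet : J0.det ≠ 0) {u p : Fin n → ℂ} (hpu : p ⬝ᵥ u = 2)
    (hg : (1 - vecMulVec u p).transpose * J0 * (1 - vecMulVec u p) = J0) :
    om J0 u u ≠ 0 ∧ 1 - vecMulVec u p = rf J0 u := by
  have hact : ∀ x, (1 - vecMulVec u p) *ᵥ x = x - (p ⬝ᵥ x) • u := by
    intro x
    rw [sub_mulVec, one_mulVec, vecMulVec_mulVec]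
    congr 1
    ext i
    simp only [Pi.smul_apply, MulOpposite.smul_eq_mul_unop, MulOpposite.unop_op, smul_eq_mul]
    ring
  have h1 : ∀ x, (p ⬝ᵥ x) * om J0 u u = 2 * om J0 u x := by
    intro x
    have h2 := iso_om hg x u
    rw [hact, hact, hpu] at h2
    have e : u - (2 : ℂ) • u = -u := by rw [two_smul]; abel
    rw [e, om_neg, om_sub_left, om_smul_left, om_symm hJ u x] at h2
    linear_combination h2
  have huu : om J0 u u ≠ 0 := by
    intro h0
    have h3 : ∀ x, om J0 u x = 0 := by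
      intro x
      have := h1 x
      rw [h0, mul_zero] at this
      simpa using this.symm
    have h4 : u = 0 := by
      have h5 : ∀ w : Fin n → ℂ, u ⬝ᵥ w = 0 := by
        intro w
        have h2 := h3 (J0⁻¹ *ᵥ w)
        unfold om at h2
        rw [mulVec_mulVec, mul_nonsing_inv _ (Ne.isUnit hdet), one_mulVec] at h2
        exact h2
      funext i
      have := h5 (Pi.single i 1)
      rwa [dotProduct_single_one] at this
    rw [h4, dotProduct_zero] at hpu
    exact two_ne_zero hpu.symm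
  refine ⟨huu, ext_mulVec fun x => ?_⟩
  rw [hact, rf_mulVec]
  congr 2
  have := h1 x
  field_simp
  linear_combination this

end Pool.Agent.L0h14.HO
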