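import Mathlib
import Pool.Agent.L0h14.HO.Mono

/-!
# Local solutions at a singular point with a semisimple residue with eigenvalues `0` and `-σ`
-/

set_option autoImplicit false

open Filter Topology Matrix

namespace Pool.Agent.L0h14.HO

open Pool.Agent.Y119.HY

variable {n : ℕ} {N0 N1 : Matrix (Fin n) (Fin n) ℂ} {H : ℕ → Matrix (Fin n) (Fin n) ℂ} {σ : ℝ}

section alg

lemma DD_cubeS (hN : N0 * N0 = (-(σ : ℂ)) • N0) (X : Matrix (Fin n) (Fin n) ℂ) :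
    DD N0 (DD N0 (DD N0 X)) = ((σ : ℂ) ^ 2) • DD N0 X := by
  have h1 : ∀ Y : Matrix (Fin n) (Fin n) ℂ, Y * N0 * N0 = (-(σ : ℂ)) • (Y * N0) := fun Y => by
    rw [Matrix.mul_assoc, hN, mul_smul_comm]
  have h2 : ∀ Y : Matrix (Fin n) (Fin n) ℂ, N0 * (N0 * Y) = (-(σ : ℂ)) • (N0 * Y) := fun Y => by
    rw [← Matrix.mul_assoc, hN, smul_mul_assoc]
  have h3 : ∀ Y : Matrix (Fin n) (Fin n) ℂ, N0 * Y * N0 = N0 * (Y * N0) := fun Y => Matrix.mul_assoc _ _ _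
  simp only [DD_apply, sub_mul, mul_sub, h3, h1, h2, mul_smul_comm, smul_mul_assoc]
  module

/-- the inverse of `κ + D` -/
noncomputable def RS (σ : ℝ) (N0 : Matrix (Fin n) (Fin n) ℂ) (κ : ℂ) (Y : Matrix (Fin n) (Fin n) ℂ) : Matrix (Fin n) (Fin n) ℂ :=
  κ⁻¹ • Y + (-(κ ^ 2 - (σ : ℂ) ^ 2)⁻¹) • DD N0 Y + (κ⁻¹ * (κ ^ 2 - (σ : ℂ) ^ 2)⁻¹) • DD N0 (DD N0 Y)

lemma RS_right (hN : N0 * N0 = (-(σ : ℂ)) • N0) {κ : ℂ} (hκ : κ ≠ 0) (hκ' : κ ^ 2 - (σ : ℂ) ^ 2 ≠ 0)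
    (Y : Matrix (Fin n) (Fin n) ℂ) : κ • RS σ N0 κ Y + DD N0 (RS σ N0 κ Y) = Y := by
  unfold RS
  rw [map_add, map_add, map_smul, map_smul, map_smul, DD_cubeS hN]
  set a := DD N0 Y
  set b := DD N0 a
  set d := κ ^ 2 - (σ : ℂ) ^ 2 with hd
  have e : κ • (κ⁻¹ • Y + (-d⁻¹) • a + (κ⁻¹ * d⁻¹) • b) + (κ⁻¹ • a + (-d⁻¹) • b + (κ⁻¹ * d⁻¹) • ((σ : ℂ) ^ 2) • a) =
      (κ * κ⁻¹) • Y + (κ⁻¹ - κ * d⁻¹ + κ⁻¹ * d⁻¹ * ((σ : ℂ) ^ 2)) • a + (κ * κ⁻¹ * d⁻¹ - d⁻¹) • b := by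
    module
  rw [e]
  have e1 : κ * κ⁻¹ = 1 := mul_inv_cancel₀ hκ
  have e2 : κ⁻¹ - κ * d⁻¹ + κ⁻¹ * d⁻¹ * ((σ : ℂ) ^ 2) = 0 := by
    field_simp
    rw [hd]
    ring
  rw [e1, e2, one_mul, sub_self, zero_smul, zero_smul, one_smul, add_zero, add_zero]

lemma RS_left (hN : N0 * N0 = (-(σ : ℂ)) • N0) {κ : ℂ} (hκ : κ ≠ 0) (hκ' : κ ^ 2 - (σ : ℂ) ^ 2 ≠ 0)
    (Y : Matrix (Fin n) (Fin n) ℂ) : RS σ N0 κ (κ • Y + DD N0 Y) = Y := by
  unfold RS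
  rw [map_add, map_add, map_smul, map_smul, DD_cubeS hN]
  set a := DD N0 Y
  set b := DD N0 a
  set d := κ ^ 2 - (σ : ℂ) ^ 2 with hd
  have e : κ⁻¹ • (κ • Y + a) + (-d⁻¹) • (κ • a + b) + (κ⁻¹ * d⁻¹) • (κ • b + ((σ : ℂ) ^ 2) • a) =
      (κ⁻¹ * κ) • Y + (κ⁻¹ - d⁻¹ * κ + κ⁻¹ * d⁻¹ * ((σ : ℂ) ^ 2)) • a + (κ⁻¹ * κ * d⁻¹ - d⁻¹) • b := by
    module
  rw [e]
  have e1 : κ⁻¹ * κ = 1 := inv_mul_cancel₀ hκ
  have e2 : κ⁻¹ - d⁻¹ * κ + κ⁻¹ * d⁻¹ * ((σ : ℂ) ^ 2) = 0 := by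
    field_simp
    rw [hd]
    ring
  rw [e1, e2, one_mul, sub_self, zero_smul, zero_smul, one_smul, add_zero, add_zero]

lemma kapS_ne (hσ : ∀ a : ℤ, σ ≠ a) (k : ℕ) : ((k : ℂ) + 1) ≠ 0 ∧ ((k : ℂ) + 1) ^ 2 - (σ : ℂ) ^ 2 ≠ 0 := by
  refine ⟨by exact_mod_cast Nat.succ_ne_zero k, ?_⟩
  have h1 : ((k : ℂ) + 1) ^ 2 - (σ : ℂ) ^ 2 = ((((k : ℝ) + 1) - σ) * (((k : ℝ) + 1) + σ) : ℝ) := by
    push_cast
    ring
  rw [h1, Complex.ofReal_ne_zero]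
  refine mul_ne_zero (fun h => hσ (k + 1) ?_) (fun h => hσ (-(k + 1)) ?_)
  · push_cast
    linear_combination -h
  · push_cast
    linear_combination h

/-- existence -/
theorem exists_solS (hσ : ∀ a : ℤ, σ ≠ a) (hN : N0 * N0 = (-(σ : ℂ)) • N0) (N1 : Matrix (Fin n) (Fin n) ℂ) :
    ∃ H, Sol N0 N1 H := by
  set H : ℕ → Matrix (Fin n) (Fin n) ℂ := fun k => Nat.rec (motive := fun _ => Matrix (Fin n) (Fin n) ℂ) 1
    (fun k X => RS σ N0 ((k : ℂ) + 1) ((k : ℂ) • X + (X * N0 - N0 * X) + N1 * X)) k with hH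
  refine ⟨H, rfl, fun k => ?_⟩
  have h2 : H (k + 1) = RS σ N0 ((k : ℂ) + 1) ((k : ℂ) • H k + (H k * N0 - N0 * H k) + N1 * H k) := rfl
  have h3 := RS_right hN (kapS_ne hσ k).1 (kapS_ne hσ k).2 ((k : ℂ) • H k + (H k * N0 - N0 * H k) + N1 * H k)
  rw [← h2, DD_apply] at h3
  exact h3

lemma kapS_bd (σ : ℝ) : ∃ C : ℝ, 0 ≤ C ∧ ∀ k : ℕ, ‖(((k : ℂ) + 1) ^ 2 - (σ : ℂ) ^ 2)⁻¹‖ ≤ C / ((k : ℝ) + 1) := by
  obtain ⟨K, hK⟩ := exists_nat_ge (2 * |σ|)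
  refine ⟨2 + ∑ k ∈ Finset.range K, ((k : ℝ) + 1) * ‖(((k : ℂ) + 1) ^ 2 - (σ : ℂ) ^ 2)⁻¹‖, by positivity, fun k => ?_⟩
  have hk : (0 : ℝ) < (k : ℝ) + 1 := by positivity
  rw [le_div_iff₀ hk, mul_comm]
  by_cases h : k < K
  · have h1 := Finset.single_le_sum (f := fun k : ℕ => ((k : ℝ) + 1) * ‖(((k : ℂ) + 1) ^ 2 - (σ : ℂ) ^ 2)⁻¹‖)
      (fun _ _ => by positivity) (Finset.mem_range.2 h)
    linarith
  · have hkK : (K : ℝ) ≤ k := by exact_mod_cast (not_lt.1 h)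
    have h1 : 2 * |σ| ≤ (k : ℝ) + 1 := by linarith
    have h2 : 4 * σ ^ 2 ≤ ((k : ℝ) + 1) ^ 2 := by
      have h3 : (2 * |σ|) ^ 2 ≤ ((k : ℝ) + 1) ^ 2 := pow_le_pow_left₀ (by positivity) h1 2
      rw [mul_pow, sq_abs] at h3
      linarith
    have h4 : 1 ≤ (k : ℝ) + 1 := by linarith [Nat.cast_nonneg (α := ℝ) k]
    have h5 : ((k : ℝ) + 1) / 2 ≤ ((k : ℝ) + 1) ^ 2 - σ ^ 2 := by nlinarith
    have h6 : (((k : ℂ) + 1) ^ 2 - (σ : ℂ) ^ 2) = ((((k : ℝ) + 1) ^ 2 - σ ^ 2 : ℝ) : ℂ) := by push_cast; rfl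
    have h7 : 0 < ((k : ℝ) + 1) ^ 2 - σ ^ 2 := by linarith
    rw [norm_inv, h6, Complex.norm_real, Real.norm_of_nonneg h7.le]
    have h8 : ((k : ℝ) + 1) * (((k : ℝ) + 1) ^ 2 - σ ^ 2)⁻¹ ≤ 2 := by
      rw [← div_eq_mul_inv, div_le_iff₀ h7]
      linarith
    have h9 : 0 ≤ ∑ k ∈ Finset.range K, ((k : ℝ) + 1) * ‖(((k : ℂ) + 1) ^ 2 - (σ : ℂ) ^ 2)⁻¹‖ :=
      Finset.sum_nonneg fun _ _ => by positivity
    linarith

end alg

section growth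

attribute [local instance] Matrix.linftyOpNormedAddCommGroup Matrix.linftyOpNormedRing Matrix.linftyOpNormedAlgebra

lemma RS_norm (σ : ℝ) (N0 : Matrix (Fin n) (Fin n) ℂ) : ∃ K : ℝ, 0 ≤ K ∧ ∀ (k : ℕ) (Y : Matrix (Fin n) (Fin n) ℂ),
    ‖RS σ N0 ((k : ℂ) + 1) Y‖ ≤ K / ((k : ℝ) + 1) * ‖Y‖ := by
  obtain ⟨C, hC0, hC⟩ := kapS_bd σ
  refine ⟨1 + C * (2 * ‖N0‖) + C * (2 * ‖N0‖) ^ 2, by positivity, fun k Y => ?_⟩
  have hk : (1 : ℝ) ≤ (k : ℝ) + 1 := by linarith [Nat.cast_nonneg (α := ℝ) k]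
  have h1 : ‖((k : ℂ) + 1)⁻¹‖ = 1 / ((k : ℝ) + 1) := by
    have : ((k : ℂ) + 1) = (((k : ℝ) + 1 : ℝ) : ℂ) := by push_cast; rfl
    rw [norm_inv, this, Complex.norm_real, Real.norm_of_nonneg (by linarith), one_div]
  have h2 := hC k
  have h4 : ‖(((k : ℂ) + 1)⁻¹ * (((k : ℂ) + 1) ^ 2 - (σ : ℂ) ^ 2)⁻¹)‖ ≤ C / ((k : ℝ) + 1) := by
    rw [norm_mul, h1]
    calc 1 / ((k : ℝ) + 1) * ‖(((k : ℂ) + 1) ^ 2 - (σ : ℂ) ^ 2)⁻¹‖ ≤ 1 * ‖(((k : ℂ) + 1) ^ 2 - (σ : ℂ) ^ 2)⁻¹‖ :=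
          mul_le_mul_of_nonneg_right (by rw [div_le_one (by linarith)]; exact hk) (norm_nonneg _)
      _ ≤ _ := by rw [one_mul]; exact h2
  have h5 := DD_norm (N0 := N0) Y
  have h6 : ‖DD N0 (DD N0 Y)‖ ≤ (2 * ‖N0‖) ^ 2 * ‖Y‖ := by
    refine (DD_norm _).trans ?_
    calc (2 * ‖N0‖) * ‖DD N0 Y‖ ≤ (2 * ‖N0‖) * ((2 * ‖N0‖) * ‖Y‖) := mul_le_mul_of_nonneg_left h5 (by positivity)
      _ = _ := by ring
  unfold RS
  refine (norm_add_le _ _).trans (le_trans (add_le_add (norm_add_le _ _) le_rfl) ?_)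
  rw [norm_smul, norm_smul, norm_smul, norm_neg, h1]
  have e1 : ‖(((k : ℂ) + 1) ^ 2 - (σ : ℂ) ^ 2)⁻¹‖ * ‖DD N0 Y‖ ≤ C / ((k : ℝ) + 1) * ((2 * ‖N0‖) * ‖Y‖) :=
    mul_le_mul h2 h5 (norm_nonneg _) (by positivity)
  have e2 : ‖(((k : ℂ) + 1)⁻¹ * (((k : ℂ) + 1) ^ 2 - (σ : ℂ) ^ 2)⁻¹)‖ * ‖DD N0 (DD N0 Y)‖ ≤
      C / ((k : ℝ) + 1) * ((2 * ‖N0‖) ^ 2 * ‖Y‖) :=
    mul_le_mul h4 h6 (norm_nonneg _) (by positivity)
  have e3 : (1 + C * (2 * ‖N0‖) + C * (2 * ‖N0‖) ^ 2) / ((k : ℝ) + 1) * ‖Y‖ = 1 / ((k : ℝ) + 1) * ‖Y‖ +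
      C / ((k : ℝ) + 1) * ((2 * ‖N0‖) * ‖Y‖) + C / ((k : ℝ) + 1) * ((2 * ‖N0‖) ^ 2 * ‖Y‖) := by ring
  rw [e3]
  linarith

/-- growth -/
theorem growthS (hσ : ∀ a : ℤ, σ ≠ a) (hH : Sol N0 N1 H) (h : N0 * N0 = (-(σ : ℂ)) • N0) (i j : Fin n) : PG fun k => H k i j := by
  obtain ⟨K, hK0, hK⟩ := RS_norm σ N0
  set K1 : ℝ := K * ‖N1 - 1‖ with hK1
  have hK10 : 0 ≤ K1 := by positivity
  set q : ℕ := ⌈K1⌉₊ with hq
  have hstep : ∀ k, ‖H (k + 1)‖ ≤ (1 + K1 / ((k : ℝ) + 1)) * ‖H k‖ := by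
    intro k
    have h2 : ((k : ℂ) + 1) • (H (k + 1) - H k) + DD N0 (H (k + 1) - H k) = (N1 - 1) * H k := by
      have h3 := hH.step k
      rw [DD_apply, sub_mul, mul_sub, sub_mul, one_mul]
      have h4 : ((k : ℂ) + 1) • (H (k + 1) - H k) = ((k : ℂ) + 1) • H (k + 1) - ((k : ℂ) • H k + H k) := by
        rw [smul_sub, add_smul (k : ℂ) 1 (H k), one_smul]
      rw [h4]
      calc _ = (((k : ℂ) + 1) • H (k + 1) + (H (k + 1) * N0 - N0 * H (k + 1))) - (k : ℂ) • H k - H k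
            - (H k * N0 - N0 * H k) := by abel
        _ = _ := by rw [h3]; abel
    have h5 := RS_left h (kapS_ne hσ k).1 (kapS_ne hσ k).2 (H (k + 1) - H k)
    rw [h2] at h5
    have h6 : ‖H (k + 1) - H k‖ ≤ K1 / ((k : ℝ) + 1) * ‖H k‖ := by
      rw [← h5]
      refine (hK k _).trans ?_
      calc K / ((k : ℝ) + 1) * ‖(N1 - 1) * H k‖ ≤ K / ((k : ℝ) + 1) * (‖N1 - 1‖ * ‖H k‖) :=
            mul_le_mul_of_nonneg_left (norm_mul_le _ _) (by positivity)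
        _ = _ := by rw [hK1]; ring
    calc ‖H (k + 1)‖ = ‖H k + (H (k + 1) - H k)‖ := by rw [add_sub_cancel]
      _ ≤ ‖H k‖ + ‖H (k + 1) - H k‖ := norm_add_le _ _
      _ ≤ _ := by linarith
  have hbd : ∀ k : ℕ, ‖H k‖ ≤ ‖H 0‖ * ((k : ℝ) + 1) ^ q := by
    intro k
    induction k with
    | zero => simp
    | succ k ih =>
      have hk : (0 : ℝ) < (k : ℝ) + 1 := by positivity
      have h1 : 1 + K1 / ((k : ℝ) + 1) ≤ (1 + 1 / ((k : ℝ) + 1)) ^ q := by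
        have h2 := one_add_mul_le_pow (a := 1 / ((k : ℝ) + 1)) (by have : (0 : ℝ) ≤ 1 / ((k : ℝ) + 1) := by positivity
                                                                   linarith) q
        refine le_trans ?_ h2
        have : K1 ≤ q := Nat.le_ceil _
        rw [mul_one_div]
        gcongr
      calc ‖H (k + 1)‖ ≤ (1 + K1 / ((k : ℝ) + 1)) * ‖H k‖ := hstep k
        _ ≤ (1 + 1 / ((k : ℝ) + 1)) ^ q * (‖H 0‖ * ((k : ℝ) + 1) ^ q) :=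
          mul_le_mul h1 ih (norm_nonneg _) (by positivity)
        _ = ‖H 0‖ * ((1 + 1 / ((k : ℝ) + 1)) * ((k : ℝ) + 1)) ^ q := by rw [mul_pow]; ring
        _ = ‖H 0‖ * (((k + 1 : ℕ) : ℝ) + 1) ^ q := by
          congr 2
          push_cast
          field_simp
  exact ⟨‖H 0‖, q, fun k => (entry_le _ i j).trans (hbd k)⟩

end growth

/-- the power `w ^ N` as a function of `s = log w` -/
noncomputable def PS (σ : ℝ) (N : Matrix (Fin n) (Fin n) ℂ) (s : ℂ) : Matrix (Fin n) (Fin n) ℂ :=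
  1 + ((σ : ℂ)⁻¹ * (1 - Complex.exp (-(σ : ℂ) * s))) • N

variable {N : Matrix (Fin n) (Fin n) ℂ}

lemma PS_zero : PS σ N 0 = 1 := by
  unfold PS
  simp

lemma PS_add (hσ : (σ : ℂ) ≠ 0) (hN : N * N = (-(σ : ℂ)) • N) (s t : ℂ) : PS σ N (s + t) = PS σ N s * PS σ N t := by
  unfold PS
  have h1 : Complex.exp (-(σ : ℂ) * (s + t)) = Complex.exp (-(σ : ℂ) * s) * Complex.exp (-(σ : ℂ) * t) := by
    rw [← Complex.exp_add]
    congr 1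
    ring
  rw [h1]
  set x := Complex.exp (-(σ : ℂ) * s)
  set y := Complex.exp (-(σ : ℂ) * t)
  rw [mul_add, mul_one, add_mul, one_mul, smul_mul_smul_comm, hN, smul_smul]
  have e : 1 + ((σ : ℂ)⁻¹ * (1 - x)) • N + (((σ : ℂ)⁻¹ * (1 - y)) • N + (((σ : ℂ)⁻¹ * (1 - x)) * ((σ : ℂ)⁻¹ * (1 - y)) * -(σ : ℂ)) • N) =
      1 + ((σ : ℂ)⁻¹ * (1 - x) + (σ : ℂ)⁻¹ * (1 - y) + ((σ : ℂ)⁻¹ * (1 - x)) * ((σ : ℂ)⁻¹ * (1 - y)) * -(σ : ℂ)) • N := by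
    module
  rw [e]
  congr 2
  field_simp
  ring

lemma PS_mul_neg (hσ : (σ : ℂ) ≠ 0) (hN : N * N = (-(σ : ℂ)) • N) (s : ℂ) : PS σ N s * PS σ N (-s) = 1 := by
  rw [← PS_add hσ hN, add_neg_cancel, PS_zero]

lemma PS_HD (hσ : (σ : ℂ) ≠ 0) (hN : N * N = (-(σ : ℂ)) • N) (s : ℂ) : HD (PS σ N) (N * PS σ N s) s := by
  have h1 : N * PS σ N s = Complex.exp (-(σ : ℂ) * s) • N := by
    unfold PS
    rw [mul_add, mul_one, mul_smul_comm, hN, smul_smul]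
    have e : N + ((σ : ℂ)⁻¹ * (1 - Complex.exp (-(σ : ℂ) * s)) * -(σ : ℂ)) • N =
        (1 + (σ : ℂ)⁻¹ * (1 - Complex.exp (-(σ : ℂ) * s)) * -(σ : ℂ)) • N := by module
    rw [e]
    congr 1
    field_simp
    ring
  rw [h1]
  intro i j
  unfold PS
  simp only [Matrix.add_apply, Matrix.smul_apply, smul_eq_mul]
  have h2 : HasDerivAt (fun s : ℂ => -(σ : ℂ) * s) (-(σ : ℂ)) s := by
    have := (hasDerivAt_id s).const_mul (-(σ : ℂ))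
    simpa using this
  have h3 := (((h2.cexp.const_sub 1).const_mul ((σ : ℂ)⁻¹)).mul_const (N i j)).const_add ((1 : Matrix (Fin n) (Fin n) ℂ) i j)
  refine h3.congr_deriv ?_
  field_simp

lemma PS_fix {m : Fin n → ℂ} (h : N *ᵥ m = 0) (s : ℂ) : PS σ N s *ᵥ m = m := by
  unfold PS
  rw [add_mulVec, one_mulVec, smul_mulVec, h, smul_zero, add_zero]

/-- the solution -/
noncomputable def ZS (σ : ℝ) (N0 : Matrix (Fin n) (Fin n) ℂ) (H : ℕ → Matrix (Fin n) (Fin n) ℂ) (z : ℂ) :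
    Matrix (Fin n) (Fin n) ℂ := Hf H z * PS σ N0 (Complex.log z)

theorem ZS_ode (hσ : ∀ a : ℤ, σ ≠ a) (hH : Sol N0 N1 H) (hN : N0 * N0 = (-(σ : ℂ)) • N0) {z : ℂ} (hz : ‖z‖ < 1)
    (hz0 : z ∈ Complex.slitPlane) : HD (ZS σ N0 H) (Gm N0 N1 z * ZS σ N0 H z) z := by
  have hσ0 : (σ : ℂ) ≠ 0 := by
    have := hσ 0
    rw [Int.cast_zero] at this
    exact_mod_cast this
  have hz0' : z ≠ 0 := Complex.slitPlane_ne_zero hz0
  have h1 := Hf_ode1 hH (growthS hσ hH hN) hz hz0'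
  have h2 : HD (fun w => PS σ N0 (Complex.log w)) (z⁻¹ • (N0 * PS σ N0 (Complex.log z))) z :=
    (PS_HD hσ0 hN (Complex.log z)).comp (Complex.hasDerivAt_log hz0)
  refine (h1.mul h2).congr ?_
  unfold Gm ZS
  simp only [add_mul, smul_mul_assoc, sub_mul, mul_smul_comm, Matrix.mul_assoc, smul_sub, one_div]
  abel

/-- **The powers of the monodromy at `1` preserve the relations.** -/
theorem mono_oneS (hσ : (σ : ℂ) ≠ 0) {K : ℕ → Matrix (Fin n) (Fin n) ℂ} {N2 : Matrix (Fin n) (Fin n) ℂ}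
    (hN : N2 * N2 = (-(σ : ℂ)) • N2) (hg : ∀ i j, PG fun k => K k i j)
    {Y : ℂ → Matrix (Fin n) (Fin n) ℂ} {M Mi : Matrix (Fin n) (Fin n) ℂ} (hMi : M * Mi = 1)
    (hY : ∀ x : ℝ, 0 < x → x < 1 → Y x = ZS σ N2 K (1 - (x : ℂ)) * M) (r : ℤ) :
    Mi * PS σ N2 ((r : ℂ) * (2 * Real.pi * Complex.I)) * M ∈ Gal Y := by
  intro P hP x hx hx1
  set F : ℂ → ℂ := fun s => ev P (1 - Complex.exp s) (Complex.log (1 - Complex.exp s)) (Hf K (Complex.exp s) * PS σ N2 s * M)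
    with hF
  have hFan : AnalyticOnNhd ℂ F HP := by
    have hexp : AnalyticOnNhd ℂ Complex.exp HP := fun s _ => analyticAt_cexp
    have h1 : AnalyticOnNhd ℂ (fun s => 1 - Complex.exp s) HP := analyticOnNhd_const.sub hexp
    refine ev_an P h1 ?_ fun i j => ?_
    · intro s hs
      refine AnalyticAt.clog (h1 s hs) ?_
      left
      have h2 : (Complex.exp s).re ≤ ‖Complex.exp s‖ := Complex.re_le_norm _
      have h3 := exp_HP hs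
      rw [Complex.sub_re, Complex.one_re]
      linarith
    · have h2 : ∀ i j, AnalyticOnNhd ℂ (fun s => Hf K (Complex.exp s) i j) HP := by
        intro i j s hs
        have h3 : AnalyticAt ℂ (fun w => Hf K w i j) (Complex.exp s) := Hf_an1 hg i j _ (by
          rw [Metric.mem_ball, dist_zero_right]
          exact exp_HP hs)
        exact h3.fun_comp (hexp s hs)
      have h4 : ∀ i j, AnalyticOnNhd ℂ (fun s => PS σ N2 s i j) HP := by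
        intro i j
        unfold PS
        simp only [Matrix.add_apply, Matrix.smul_apply, smul_eq_mul]
        refine analyticOnNhd_const.add (AnalyticOnNhd.mul (analyticOnNhd_const.mul (analyticOnNhd_const.sub ?_))
          analyticOnNhd_const)
        intro s _
        exact (analyticAt_cexp).fun_comp (analyticAt_const.mul analyticAt_id)
      simp only [Matrix.mul_apply]
      exact Finset.analyticOnNhd_fun_sum _ fun l _ => (Finset.analyticOnNhd_fun_sum _ fun k _ =>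
        (h2 _ _).mul (h4 _ _)).mul analyticOnNhd_const
  -- vanishing at real points
  have hreal : ∀ r : ℝ, r < 0 → F (r : ℂ) = 0 := by
    intro r hr
    have e1 : Real.exp r < 1 := Real.exp_lt_one_iff.2 hr
    have e2 : 0 < Real.exp r := Real.exp_pos r
    have h3 := hP (1 - Real.exp r) (by linarith) (by linarith)
    rw [hY (1 - Real.exp r) (by linarith) (by linarith)] at h3
    push_cast at h3
    rw [sub_sub_cancel] at h3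
    unfold ZS at h3
    have e3 : Complex.log (Complex.exp (r : ℂ)) = r := by
      rw [← Complex.ofReal_exp, ← Complex.ofReal_log e2.le, Real.log_exp]
    rw [e3] at h3
    exact h3
  have hzero : Set.EqOn F 0 HP := by
    refine AnalyticOnNhd.eqOn_zero_of_preconnected_of_frequently_eq_zero hFan HP_conn (z₀ := ((-1 : ℝ) : ℂ)) ?_ ?_
    · show ((-1 : ℝ) : ℂ).re < 0
      rw [Complex.ofReal_re]
      norm_num
    · rw [Filter.frequently_iff]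
      intro U hU
      rw [mem_nhdsWithin] at hU
      obtain ⟨V, hVo, hV1, hV2⟩ := hU
      have h1 : ∀ᶠ r : ℝ in 𝓝 (-1), (r : ℂ) ∈ V :=
        (Complex.continuous_ofReal.tendsto (-1)).eventually (hVo.mem_nhds hV1)
      have h2 : ∀ᶠ r : ℝ in 𝓝 (-1), r < 0 := gt_mem_nhds (by norm_num)
      obtain ⟨ε, hε, h3⟩ := Metric.eventually_nhds_iff.1 (h1.and h2)
      have h4 := h3 (y := -1 - ε / 2) (by
        rw [Real.dist_eq]
        have : -1 - ε / 2 - -1 = -(ε / 2) := by ring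
        rw [this, abs_neg, abs_of_pos (by positivity)]
        linarith)
      refine ⟨((-1 - ε / 2 : ℝ) : ℂ), hV2 ⟨h4.1, ?_⟩, hreal _ h4.2⟩
      intro h5
      rw [Set.mem_singleton_iff, Complex.ofReal_inj] at h5
      linarith
  -- the value after the loop
  have hx0 : (0 : ℝ) < 1 - x := by linarith
  have hxr : (1 - (x : ℂ)) = ((1 - x : ℝ) : ℂ) := by push_cast; rfl
  have hx0' : (1 - (x : ℂ)) ≠ 0 := by
    rw [hxr]
    exact_mod_cast hx0.ne'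
  have hs : Complex.log (1 - (x : ℂ)) + (r : ℂ) * (2 * Real.pi * Complex.I) ∈ HP := by
    show (Complex.log (1 - (x : ℂ)) + (r : ℂ) * (2 * Real.pi * Complex.I)).re < 0
    rw [Complex.add_re, hxr, ← Complex.ofReal_log hx0.le, Complex.ofReal_re]
    have h1 : ((r : ℂ) * (2 * (Real.pi : ℂ) * Complex.I)).re = 0 := by simp
    rw [h1, add_zero]
    exact Real.log_neg hx0 (by linarith)
  have h1 := hzero hs
  have e1 : Complex.exp (Complex.log (1 - (x : ℂ)) + (r : ℂ) * (2 * Real.pi * Complex.I)) = 1 - (x : ℂ) := by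
    rw [Complex.exp_add, Complex.exp_log hx0', Complex.exp_int_mul_two_pi_mul_I, mul_one]
  rw [hF] at h1
  simp only [e1, sub_sub_cancel, PS_add hσ hN] at h1
  rw [hY x hx hx1]
  unfold ZS
  have e2 : Hf K (1 - (x : ℂ)) * PS σ N2 (Complex.log (1 - (x : ℂ))) * M * (Mi * PS σ N2 ((r : ℂ) * (2 * Real.pi * Complex.I)) * M) =
      Hf K (1 - (x : ℂ)) * (PS σ N2 (Complex.log (1 - (x : ℂ))) * PS σ N2 ((r : ℂ) * (2 * Real.pi * Complex.I))) * M := by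
    calc _ = Hf K (1 - (x : ℂ)) * PS σ N2 (Complex.log (1 - (x : ℂ))) * (M * Mi) * PS σ N2 ((r : ℂ) * (2 * Real.pi * Complex.I)) * M := by
          simp only [Matrix.mul_assoc]
      _ = _ := by rw [hMi, mul_one]; simp only [Matrix.mul_assoc]
  rw [e2]
  exact h1

end Pool.Agent.L0h14.HO
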