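import Mathlib
import Pool.Agent.L0h14.HO.Orth

/-!
# Density of the group generated by a regular unipotent group and a complex reflection of order different from `2`
-/

set_option autoImplicit false

open Matrix Filter Topology

namespace Pool.Agent.L0h14.HO

open Pool.Agent.Y119.HY (HD E E_HD E_zero E_mul_neg E_add chain_li)

variable {n : ℕ}

lemma vm_mulVec (u p x : Fin n → ℂ) : vecMulVec u p *ᵥ x = (p ⬝ᵥ x) • u := by
  rw [vecMulVec_mulVec]
  ext i
  simp only [Pi.smul_apply, MulOpposite.smul_eq_mul_unop, MulOpposite.unop_op, smul_eq_mul]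
  ring

section lin

variable {N : Matrix (Fin n) (Fin n) ℂ} {u p : Fin n → ℂ} {lam : ℂ} {L : Submodule ℂ (Matrix (Fin n) (Fin n) ℂ)}

lemma hh' (hpu : p ⬝ᵥ u = 1 - lam) (h0 : lam ≠ 0) :
    (1 - vecMulVec u p) * (1 + lam⁻¹ • vecMulVec u p) = 1 := by
  have h1 : vecMulVec u p * vecMulVec u p = (1 - lam) • vecMulVec u p := by
    rw [vecMulVec_mul_vecMulVec, hpu, vecMulVec_smul]
  rw [mul_add, mul_one, sub_mul, one_mul, mul_smul_comm, h1, smul_smul]
  have e : 1 - vecMulVec u p + (lam⁻¹ • vecMulVec u p - (lam⁻¹ * (1 - lam)) • vecMulVec u p) =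
      1 + (lam⁻¹ - lam⁻¹ * (1 - lam) - 1) • vecMulVec u p := by module
  rw [e]
  have e2 : lam⁻¹ - lam⁻¹ * (1 - lam) - 1 = 0 := by
    field_simp
    ring
  rw [e2, zero_smul, add_zero]

lemma zlem (h0 : lam ≠ 0) (h1 : 1 + lam ≠ 0)
    (hT : ∀ X ∈ L, (1 - vecMulVec u p) * X * (1 + lam⁻¹ • vecMulVec u p) ∈ L)
    (hT' : ∀ X ∈ L, (1 + lam⁻¹ • vecMulVec u p) * X * (1 - vecMulVec u p) ∈ L) {X : Matrix (Fin n) (Fin n) ℂ}
    (hX : X ∈ L) : vecMulVec ((1 - lam) • (X *ᵥ u) - (p ⬝ᵥ (X *ᵥ u)) • u) p ∈ L := by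
  have e1 := L.sub_mem (hT X hX) hX
  have e2 := L.sub_mem (hT' X hX) hX
  have e3 := L.add_mem e1 (L.smul_mem lam e2)
  have e4 : (1 - vecMulVec u p) * X * (1 + lam⁻¹ • vecMulVec u p) - X +
      lam • ((1 + lam⁻¹ • vecMulVec u p) * X * (1 - vecMulVec u p) - X) =
      (lam⁻¹ * (1 + lam)) • vecMulVec ((1 - lam) • (X *ᵥ u) - (p ⬝ᵥ (X *ᵥ u)) • u) p := by
    refine ext_mulVec fun x => ?_
    simp only [sub_mulVec, add_mulVec, smul_mulVec, ← mulVec_mulVec, vm_mulVec, one_mulVec, mulVec_add, mulVec_sub,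
      mulVec_smul, smul_sub, smul_add, smul_smul, sub_smul]
    have e5 : lam * lam⁻¹ = 1 := mul_inv_cancel₀ h0
    ext i
    simp only [Pi.add_apply, Pi.sub_apply, Pi.smul_apply, smul_eq_mul]
    field_simp
    ring
  rw [e4] at e3
  have e6 : lam⁻¹ * (1 + lam) ≠ 0 := mul_ne_zero (inv_ne_zero h0) h1
  have e7 := L.smul_mem (lam⁻¹ * (1 + lam))⁻¹ e3
  rwa [smul_smul, inv_mul_cancel₀ e6, one_smul] at e7

lemma all_left (hpu : p ⬝ᵥ u = 1 - lam) (h0 : lam ≠ 0) (h1 : 1 + lam ≠ 0) (h2 : 1 - lam ≠ 0) (hN : N ^ n = 0)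
    (hu : (N ^ (n - 1)) *ᵥ u ≠ 0)
    (hT : ∀ X ∈ L, (1 - vecMulVec u p) * X * (1 + lam⁻¹ • vecMulVec u p) ∈ L)
    (hT' : ∀ X ∈ L, (1 + lam⁻¹ • vecMulVec u p) * X * (1 - vecMulVec u p) ∈ L)
    (hb : ∀ X ∈ L, N * X - X * N ∈ L) (hX0 : N - (1 - vecMulVec u p) * N * (1 + lam⁻¹ • vecMulVec u p) ∈ L)
    {w : Fin n → ℂ} (hw : p ⬝ᵥ w = 0) : vecMulVec w p ∈ L := by
  set U : Submodule ℂ (Fin n → ℂ) :=
    { carrier := {x | vecMulVec ((1 - lam) • x - (p ⬝ᵥ x) • u) p ∈ L}
      add_mem' := by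
        intro a b ha hb
        show vecMulVec ((1 - lam) • (a + b) - (p ⬝ᵥ (a + b)) • u) p ∈ L
        have e : (1 - lam) • (a + b) - (p ⬝ᵥ (a + b)) • u =
            ((1 - lam) • a - (p ⬝ᵥ a) • u) + ((1 - lam) • b - (p ⬝ᵥ b) • u) := by
          rw [dotProduct_add]
          module
        rw [e, add_vecMulVec]
        exact L.add_mem ha hb
      zero_mem' := by
        show vecMulVec ((1 - lam) • (0 : Fin n → ℂ) - (p ⬝ᵥ (0 : Fin n → ℂ)) • u) p ∈ L
        rw [dotProduct_zero, smul_zero, zero_smul, sub_zero, zero_vecMulVec]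
        exact L.zero_mem
      smul_mem' := by
        intro c a ha
        show vecMulVec ((1 - lam) • (c • a) - (p ⬝ᵥ (c • a)) • u) p ∈ L
        have e : (1 - lam) • (c • a) - (p ⬝ᵥ (c • a)) • u = c • ((1 - lam) • a - (p ⬝ᵥ a) • u) := by
          rw [dotProduct_smul, smul_eq_mul]
          module
        rw [e, smul_vecMulVec]
        exact L.smul_mem c ha } with hU
  have hmem : ∀ x, x ∈ U ↔ vecMulVec ((1 - lam) • x - (p ⬝ᵥ x) • u) p ∈ L := fun x => Iff.rfl
  have hz := fun X (hX : X ∈ L) => zlem h0 h1 hT hT' hX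
  -- base
  have hbase : N *ᵥ u ∈ U := by
    have e1 := hz _ hX0
    have e2 : (1 - lam) • ((N - (1 - vecMulVec u p) * N * (1 + lam⁻¹ • vecMulVec u p)) *ᵥ u) -
        (p ⬝ᵥ ((N - (1 - vecMulVec u p) * N * (1 + lam⁻¹ • vecMulVec u p)) *ᵥ u)) • u =
        (-(lam⁻¹ * (1 - lam))) • ((1 - lam) • (N *ᵥ u) - (p ⬝ᵥ (N *ᵥ u)) • u) := by
      simp only [sub_mulVec, add_mulVec, smul_mulVec, ← mulVec_mulVec, vm_mulVec, one_mulVec, mulVec_add, mulVec_sub,
        mulVec_smul, dotProduct_sub, dotProduct_smul, dotProduct_add, smul_eq_mul, hpu]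
      ext i
      simp only [Pi.add_apply, Pi.sub_apply, Pi.smul_apply, smul_eq_mul]
      field_simp
      ring
    rw [e2, smul_vecMulVec] at e1
    have e6 : -(lam⁻¹ * (1 - lam)) ≠ 0 := neg_ne_zero.2 (mul_ne_zero (inv_ne_zero h0) h2)
    have e7 := L.smul_mem (-(lam⁻¹ * (1 - lam)))⁻¹ e1
    rwa [smul_smul, inv_mul_cancel₀ e6, one_smul] at e7
  -- step
  have hstep : ∀ x ∈ U, N *ᵥ x ∈ U := by
    intro x hx
    set w := (1 - lam) • x - (p ⬝ᵥ x) • u with hwd
    have hpw : p ⬝ᵥ w = 0 := by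
      rw [hwd, dotProduct_sub, dotProduct_smul, dotProduct_smul, hpu, smul_eq_mul, smul_eq_mul]
      ring
    have hwL : vecMulVec w p ∈ L := hx
    have e1 := hz _ (hb _ hwL)
    have e2 : (1 - lam) • ((N * vecMulVec w p - vecMulVec w p * N) *ᵥ u) -
        (p ⬝ᵥ ((N * vecMulVec w p - vecMulVec w p * N) *ᵥ u)) • u =
        (1 - lam) • ((1 - lam) • (N *ᵥ w) - (p ⬝ᵥ (N *ᵥ w)) • u) - ((1 - lam) * (p ⬝ᵥ (N *ᵥ u))) • w := by
      simp only [sub_mulVec, ← mulVec_mulVec, vm_mulVec, mulVec_smul, dotProduct_sub, dotProduct_smul, smul_eq_mul, hpu, hpw]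
      module
    rw [e2, sub_vecMulVec, smul_vecMulVec, smul_vecMulVec] at e1
    have e3 := L.add_mem e1 (L.smul_mem ((1 - lam) * (p ⬝ᵥ (N *ᵥ u))) hwL)
    rw [sub_add_cancel] at e3
    have e4 := L.smul_mem (1 - lam)⁻¹ e3
    rw [smul_smul, inv_mul_cancel₀ h2, one_smul] at e4
    have e5 : N *ᵥ w ∈ U := e4
    have e6 : N *ᵥ x = (1 - lam)⁻¹ • (N *ᵥ w + (p ⬝ᵥ x) • (N *ᵥ u)) := by
      rw [hwd, mulVec_sub, mulVec_smul, mulVec_smul, sub_add_cancel, smul_smul, inv_mul_cancel₀ h2, one_smul]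
    rw [e6]
    exact U.smul_mem _ (U.add_mem e5 (U.smul_mem _ hbase))
  have hall : ∀ i : ℕ, (N ^ i) *ᵥ u ∈ U := by
    intro i
    induction i with
    | zero =>
      rw [pow_zero, one_mulVec, hmem, hpu, sub_self, zero_vecMulVec]
      exact L.zero_mem
    | succ i ih =>
      rw [pow_succ', ← mulVec_mulVec]
      exact hstep _ ih
  have hspan := (chain_li hN hu).span_eq_top_of_card_eq_finrank' (by simp)
  have htop : (⊤ : Submodule ℂ (Fin n → ℂ)) ≤ U := by
    rw [← hspan, Submodule.span_le]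
    rintro _ ⟨i, rfl⟩
    exact hall i
  have e1 := (hmem w).1 (htop (Submodule.mem_top (x := w)))
  rw [hw, zero_smul, sub_zero, smul_vecMulVec] at e1
  have e4 := L.smul_mem (1 - lam)⁻¹ e1
  rwa [smul_smul, inv_mul_cancel₀ h2, one_smul] at e4

end lin

section main

variable {N : Matrix (Fin n) (Fin n) ℂ} {S : Submonoid (Matrix (Fin n) (Fin n) ℂ)} {u p : Fin n → ℂ} {lam : ℂ}

/-- unipotent paths -/
lemma uni_mem (hZ : ∀ g, (∀ q ∈ Id (S : Set (Matrix (Fin n) (Fin n) ℂ)), pe q g = 0) → g ∈ S)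
    {X : Matrix (Fin n) (Fin n) ℂ} (hX : X * X = 0) (hXL : X ∈ Lie (S : Set (Matrix (Fin n) (Fin n) ℂ))) (t : ℂ) :
    1 + t • X ∈ S := by
  refine path (R := fun t => 1 + t • X) hZ hXL (fun t => ?_) ?_ t
  · have e : (1 + t • X) * X = X := by rw [add_mul, one_mul, smul_mul_assoc, hX, smul_zero, add_zero]
    show HD (fun t => 1 + t • X) ((1 + t • X) * X) t
    rw [e]
    intro i j
    simp only [Matrix.add_apply, Matrix.smul_apply, smul_eq_mul]
    have := ((hasDerivAt_id t).mul_const (X i j)).const_add ((1 : Matrix (Fin n) (Fin n) ℂ) i j)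
    simpa using this
  · show 1 + (0 : ℂ) • X = 1
    rw [zero_smul, add_zero]

/-- the Lie algebra is closed under brackets with square zero elements -/
lemma brk_uni (hZ : ∀ g, (∀ q ∈ Id (S : Set (Matrix (Fin n) (Fin n) ℂ)), pe q g = 0) → g ∈ S)
    {X Y : Matrix (Fin n) (Fin n) ℂ} (hX : X * X = 0) (hXL : X ∈ Lie (S : Set (Matrix (Fin n) (Fin n) ℂ)))
    (hY : Y ∈ Lie (S : Set (Matrix (Fin n) (Fin n) ℂ))) :
    X * Y - Y * X ∈ Lie (S : Set (Matrix (Fin n) (Fin n) ℂ)) := by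
  have h1 : 1 + X ∈ S := by
    have := uni_mem hZ hX hXL 1
    rwa [one_smul] at this
  have h2 : 1 - X ∈ S := by
    have := uni_mem hZ hX hXL (-1)
    rwa [neg_one_smul, ← sub_eq_add_neg] at this
  have h3 : (1 + X) * (1 - X) = 1 := by
    rw [mul_sub, mul_one, add_mul, one_mul, hX, add_zero]
    abel
  have h4 : (1 - X) * (1 + X) = 1 := mul_eq_one_comm.1 h3
  have e1 := conj_lie h3 (fun g hg => mul_mem (mul_mem h1 hg) h2) (fun g hg => mul_mem (mul_mem h2 hg) h1) hY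
  have e2 := conj_lie h4 (fun g hg => mul_mem (mul_mem h2 hg) h1) (fun g hg => mul_mem (mul_mem h1 hg) h2) hY
  have e3 := (Lie (S : Set (Matrix (Fin n) (Fin n) ℂ))).smul_mem (1 / 2 : ℂ)
    ((Lie (S : Set (Matrix (Fin n) (Fin n) ℂ))).sub_mem e1 e2)
  have e4 : (1 / 2 : ℂ) • ((1 + X) * Y * (1 - X) - (1 - X) * Y * (1 + X)) = X * Y - Y * X := by
    have e5 : (1 + X) * Y * (1 - X) - (1 - X) * Y * (1 + X) = (2 : ℂ) • (X * Y - Y * X) := by
      rw [two_smul]
      noncomm_ring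
    rw [e5, smul_smul]
    norm_num
  rwa [e4] at e3

variable (hpu : p ⬝ᵥ u = 1 - lam) (h0 : lam ≠ 0) (h1 : 1 + lam ≠ 0) (h2 : 1 - lam ≠ 0) (hN : N ^ n = 0)
    (hu : (N ^ (n - 1)) *ᵥ u ≠ 0) (hp : p ᵥ* (N ^ (n - 1)) ≠ 0)
    (hE : ∀ c : ℂ, ∀ g ∈ S, E N c * g * E N (-c) ∈ S) (hS : 1 - vecMulVec u p ∈ S)
    (hS' : 1 + lam⁻¹ • vecMulVec u p ∈ S)
    (hZ : ∀ g, (∀ q ∈ Id (S : Set (Matrix (Fin n) (Fin n) ℂ)), pe q g = 0) → g ∈ S)

include hpu h0 h1 h2 hN hu hp hE hS hS' hZ in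
/-- the Lie algebra contains the traceless matrices -/
theorem sl_lie {X : Matrix (Fin n) (Fin n) ℂ} (hX : X.trace = 0) : X ∈ Lie (S : Set (Matrix (Fin n) (Fin n) ℂ)) := by
  set L := Lie (S : Set (Matrix (Fin n) (Fin n) ℂ)) with hL
  have k1 := hh' hpu h0
  have k2 : (1 + lam⁻¹ • vecMulVec u p) * (1 - vecMulVec u p) = 1 := mul_eq_one_comm.1 k1
  have hT : ∀ X ∈ L, (1 - vecMulVec u p) * X * (1 + lam⁻¹ • vecMulVec u p) ∈ L := fun X hX =>
    conj_lie k1 (fun g hg => mul_mem (mul_mem hS hg) hS') (fun g hg => mul_mem (mul_mem hS' hg) hS) hX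
  have hT' : ∀ X ∈ L, (1 + lam⁻¹ • vecMulVec u p) * X * (1 - vecMulVec u p) ∈ L := fun X hX =>
    conj_lie k2 (fun g hg => mul_mem (mul_mem hS' hg) hS) (fun g hg => mul_mem (mul_mem hS hg) hS') hX
  have hb : ∀ X ∈ L, N * X - X * N ∈ L := fun X hX => bracket hN hE hX
  have hX0 : N - (1 - vecMulVec u p) * N * (1 + lam⁻¹ • vecMulVec u p) ∈ L := by
    have e1 : HD (fun c => E N c * (1 - vecMulVec u p) * E N (-c) * (1 + lam⁻¹ • vecMulVec u p))
        (N - (1 - vecMulVec u p) * N * (1 + lam⁻¹ • vecMulVec u p)) 0 := by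
      have h4 := E_HD hN (0 : ℂ)
      have h5 : HD (fun c : ℂ => E N (-c)) ((-1 : ℂ) • (N * E N 0)) 0 := by
        have h6 : HasDerivAt (fun c : ℂ => -c) (-1) 0 := (hasDerivAt_id _).neg
        have h7 : HD (E N) (N * E N 0) (-(0 : ℂ)) := by rw [neg_zero]; exact h4
        exact h7.comp h6
      refine (((h4.mul (Pool.Agent.Y119.HY.HD.const (1 - vecMulVec u p) 0)).mul h5).mul
        (Pool.Agent.Y119.HY.HD.const (1 + lam⁻¹ • vecMulVec u p) 0)).congr ?_
      rw [neg_zero, E_zero hN]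
      have e : ∀ h h' : Matrix (Fin n) (Fin n) ℂ, (((N * 1 * h + 1 * 0) * 1 + 1 * h * (-1 : ℂ) • (N * 1)) *
          h' + 1 * h * 1 * 0) = N * (h * h') - h * N * h' := by
        intro h h'
        rw [neg_one_smul]
        noncomm_ring
      rw [e, k1, mul_one]
    exact tangent (S := S) e1 (by
      show E N 0 * (1 - vecMulVec u p) * E N (-0) * (1 + lam⁻¹ • vecMulVec u p) = 1
      rw [neg_zero, E_zero hN, one_mul, mul_one, k1]) fun t => mul_mem (hE t _ hS) hS'
  have hleft : ∀ w, p ⬝ᵥ w = 0 → vecMulVec w p ∈ L := fun w hw => all_left hpu h0 h1 h2 hN hu hT hT' hb hX0 hw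
  -- the transposed statement
  have hright : ∀ r, r ⬝ᵥ u = 0 → vecMulVec u r ∈ L := by
    intro r hr
    set L' : Submodule ℂ (Matrix (Fin n) (Fin n) ℂ) := L.comap (Matrix.transposeLinearEquiv (Fin n) (Fin n) ℂ ℂ).toLinearMap
      with hL'
    have hmem : ∀ X, X ∈ L' ↔ X.transpose ∈ L := fun X => Iff.rfl
    have hpu' : u ⬝ᵥ p = 1 - lam := by rw [dotProduct_comm]; exact hpu
    have t1 : (1 - vecMulVec p u).transpose = 1 - vecMulVec u p := by
      rw [transpose_sub, transpose_one, transpose_vecMulVec]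
    have t2 : (1 + lam⁻¹ • vecMulVec p u).transpose = 1 + lam⁻¹ • vecMulVec u p := by
      rw [transpose_add, transpose_one, transpose_smul, transpose_vecMulVec]
    have h3 := all_left (N := N.transpose) (u := p) (p := u) (lam := lam) (L := L') hpu' h0 h1 h2
      (by rw [← transpose_pow, hN, transpose_zero])
      (by rw [← transpose_pow, mulVec_transpose]; exact hp)
      (fun X hX => by
        rw [hmem, transpose_mul, transpose_mul, t1, t2, ← Matrix.mul_assoc]
        exact hT' _ hX)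
      (fun X hX => by
        rw [hmem, transpose_mul, transpose_mul, t1, t2, ← Matrix.mul_assoc]
        exact hT _ hX)
      (fun X hX => by
        rw [hmem, transpose_sub, transpose_mul, transpose_mul, transpose_transpose]
        have := L.neg_mem (hb _ ((hmem X).1 hX))
        rwa [neg_sub] at this)
      (by
        rw [hmem, transpose_sub, transpose_mul, transpose_mul, t1, t2, transpose_transpose, ← Matrix.mul_assoc]
        have := L.neg_mem (hT' _ hX0)
        have e : ∀ h h' : Matrix (Fin n) (Fin n) ℂ, h' * h = 1 → -(h' * (N - h * N * h') * h) = N - h' * N * h := by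
          intro h h' hh
          have e1 : h' * (h * N * h') * h = N := by
            calc h' * (h * N * h') * h = (h' * h) * N * (h' * h) := by simp only [Matrix.mul_assoc]
              _ = N := by rw [hh, one_mul, mul_one]
          calc -(h' * (N - h * N * h') * h) = h' * (h * N * h') * h - h' * N * h := by noncomm_ring
            _ = _ := by rw [e1]
        rwa [e _ _ k2] at this)
      (w := r) (by rw [dotProduct_comm]; exact hr)
    rw [hmem, transpose_vecMulVec] at h3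
    exact h3
  -- brackets
  have hbr : ∀ w r, p ⬝ᵥ w = 0 → r ⬝ᵥ u = 0 → (1 - lam) • vecMulVec w r - (r ⬝ᵥ w) • vecMulVec u p ∈ L := by
    intro w r hw hr
    have e1 : vecMulVec w p * vecMulVec w p = 0 := by
      rw [vecMulVec_mul_vecMulVec, hw, zero_smul, vecMulVec_zero]
    have e2 := brk_uni hZ e1 (hleft w hw) (hright r hr)
    rw [vecMulVec_mul_vecMulVec, vecMulVec_mul_vecMulVec, hpu, vecMulVec_smul, vecMulVec_smul] at e2
    exact e2
  -- the decomposition
  set π : Matrix (Fin n) (Fin n) ℂ := 1 - (1 - lam)⁻¹ • vecMulVec u p with hπ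
  have hpπ : p ᵥ* π = 0 := by
    rw [hπ, vecMul_sub, vecMul_one, vecMul_smul, vecMul_vecMulVec, hpu, smul_smul, inv_mul_cancel₀ h2, one_smul, sub_self]
  have hπu : π *ᵥ u = 0 := by
    rw [hπ, sub_mulVec, one_mulVec, smul_mulVec, vm_mulVec, hpu, smul_smul, inv_mul_cancel₀ h2, one_smul, sub_self]
  have hsum : ∑ j : Fin n, ((1 - lam) • vecMulVec (π *ᵥ (X *ᵥ Pi.single j 1)) (Pi.single j 1 ᵥ* π) -
      ((Pi.single j 1 ᵥ* π) ⬝ᵥ (π *ᵥ (X *ᵥ Pi.single j 1))) • vecMulVec u p) ∈ L := by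
    refine L.sum_mem fun j _ => hbr _ _ ?_ ?_
    · rw [dotProduct_mulVec, hpπ, zero_dotProduct]
    · rw [← dotProduct_mulVec, hπu, dotProduct_zero]
  have hππ : π * π = π := by
    have e1 : vecMulVec u p * vecMulVec u p = (1 - lam) • vecMulVec u p := by
      rw [vecMulVec_mul_vecMulVec, hpu, vecMulVec_smul]
    rw [hπ, mul_sub, mul_one, sub_mul, one_mul, smul_mul_smul_comm, e1, smul_smul]
    have e2 : (1 - lam)⁻¹ * (1 - lam)⁻¹ * (1 - lam) = (1 - lam)⁻¹ := by field_simp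
    rw [e2]
    abel
  have hs1 : ∑ j : Fin n, vecMulVec (π *ᵥ (X *ᵥ Pi.single j 1)) (Pi.single j 1 ᵥ* π) = π * X * π := by
    ext a b
    rw [Matrix.sum_apply, Matrix.mul_apply]
    refine Finset.sum_congr rfl fun j _ => ?_
    rw [vecMulVec_apply, mulVec_mulVec, mulVec_single_one, single_one_vecMul]
    rfl
  have hs2 : ∑ j : Fin n, ((Pi.single j 1 ᵥ* π) ⬝ᵥ (π *ᵥ (X *ᵥ Pi.single j 1))) = (π * X).trace := by
    unfold Matrix.trace
    refine Finset.sum_congr rfl fun j _ => ?_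
    rw [← dotProduct_mulVec, mulVec_mulVec, mulVec_mulVec, hππ, mulVec_single_one,
      single_one_dotProduct]
    rfl
  rw [Finset.sum_sub_distrib, ← Finset.smul_sum, hs1, ← Finset.sum_smul, hs2] at hsum
  have htr : (π * X).trace = -((1 - lam)⁻¹ * (p ⬝ᵥ (X *ᵥ u))) := by
    rw [hπ, sub_mul, one_mul, trace_sub, hX, zero_sub, smul_mul_assoc, vecMulVec_mul, trace_smul, trace_vecMulVec,
      dotProduct_comm, ← dotProduct_mulVec, smul_eq_mul]
  have e1 := hleft (π *ᵥ (X *ᵥ u)) (by rw [dotProduct_mulVec, hpπ, zero_dotProduct])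
  have e2 := hright ((p ᵥ* X) ᵥ* π) (by rw [← dotProduct_mulVec, hπu, dotProduct_zero])
  have e3 : X = (1 - lam)⁻¹ • ((1 - lam) • (π * X * π) - (π * X).trace • vecMulVec u p) +
      ((1 - lam)⁻¹ • vecMulVec (π *ᵥ (X *ᵥ u)) p + (1 - lam)⁻¹ • vecMulVec u ((p ᵥ* X) ᵥ* π)) := by
    rw [htr]
    refine ext_mulVec fun x => ?_
    simp only [hπ, sub_mulVec, add_mulVec, smul_mulVec, ← mulVec_mulVec, vm_mulVec, one_mulVec, mulVec_add, mulVec_sub,
      mulVec_smul, dotProduct_sub, dotProduct_smul, dotProduct_add, smul_eq_mul, ← dotProduct_mulVec]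
    ext i
    simp only [Pi.add_apply, Pi.sub_apply, Pi.smul_apply, smul_eq_mul]
    field_simp
    ring
  rw [e3]
  exact L.add_mem (L.smul_mem _ hsum) (L.add_mem (L.smul_mem _ e1) (L.smul_mem _ e2))

include hpu h0 h1 h2 hN hu hp hE hS hS' hZ in
/-- **Density.** -/
theorem sl_all (g : Matrix (Fin n) (Fin n) ℂ) (hg : g.det = 1) : g ∈ S := by
  obtain ⟨L1, L2, D, hD⟩ := Matrix.Pivot.exists_list_transvec_mul_diagonal_mul_list_transvec g
  have htr : ∀ l : List (Matrix.TransvectionStruct (Fin n) ℂ), (l.map Matrix.TransvectionStruct.toMatrix).prod ∈ S := by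
    intro l
    refine Submonoid.list_prod_mem _ fun x hx => ?_
    obtain ⟨t, -, rfl⟩ := List.mem_map.1 hx
    have e1 : t.toMatrix = 1 + t.c • Matrix.single t.i t.j (1 : ℂ) := by
      unfold Matrix.TransvectionStruct.toMatrix Matrix.transvection
      rw [Matrix.smul_single, smul_eq_mul, mul_one]
    rw [e1]
    refine uni_mem hZ ?_ (sl_lie hpu h0 h1 h2 hN hu hp hE hS hS' hZ ?_) _
    · rw [Matrix.single_mul_single_of_ne]
      exact (Ne.symm t.hij)
    · rw [Matrix.trace_single_eq_of_ne _ _ _ t.hij]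
  have hdet : ∏ i, D i = 1 := by
    rw [hD, det_mul, det_mul, det_diagonal, Matrix.TransvectionStruct.det_toMatrix_prod,
      Matrix.TransvectionStruct.det_toMatrix_prod, one_mul, mul_one] at hg
    exact hg
  have hD0 : ∀ i, D i ≠ 0 := by
    intro i hi
    have : ∏ i, D i = 0 := Finset.prod_eq_zero (Finset.mem_univ i) hi
    rw [hdet] at this
    exact one_ne_zero this
  rw [hD]
  refine mul_mem (mul_mem (htr _) ?_) (htr _)
  -- the diagonal matrix
  rcases Nat.eq_zero_or_pos n with hn | hn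
  · subst hn
    have : diagonal D = 1 := Subsingleton.elim _ _
    rw [this]
    exact one_mem _
  have hsum : Complex.exp (∑ i, Complex.log (D i)) = 1 := by
    rw [Complex.exp_sum, ← hdet]
    exact Finset.prod_congr rfl fun i _ => Complex.exp_log (hD0 i)
  obtain ⟨k, hk⟩ := Complex.exp_eq_one_iff.1 hsum
  set i₀ : Fin n := ⟨0, hn⟩
  set y : Fin n → ℂ := fun i => Complex.log (D i) - if i = i₀ then (k : ℂ) * (2 * Real.pi * Complex.I) else 0 with hy
  have hy0 : ∑ i, y i = 0 := by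
    rw [hy, Finset.sum_sub_distrib, hk, Finset.sum_ite_eq' Finset.univ i₀, if_pos (Finset.mem_univ _), sub_self]
  have hye : ∀ i, Complex.exp (y i) = D i := by
    intro i
    rw [hy]
    simp only
    rw [Complex.exp_sub, Complex.exp_log (hD0 i)]
    split_ifs
    · rw [Complex.exp_int_mul_two_pi_mul_I, div_one]
    · rw [Complex.exp_zero, div_one]
  have h3 := path (R := fun t => diagonal fun i => Complex.exp (t * y i)) (X := diagonal y) hZ
    (sl_lie hpu h0 h1 h2 hN hu hp hE hS hS' hZ (by rw [trace_diagonal, hy0])) (fun t => by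
      show HD (fun t => diagonal fun i => Complex.exp (t * y i)) ((diagonal fun i => Complex.exp (t * y i)) * diagonal y) t
      rw [diagonal_mul_diagonal]
      intro i j
      by_cases hij : i = j
      · subst hij
        simp only [diagonal_apply_eq]
        have := ((hasDerivAt_id t).mul_const (y i)).cexp
        simpa using this
      · simp only [diagonal_apply_ne _ hij]
        exact hasDerivAt_const _ _) (by
      show (diagonal fun i => Complex.exp (0 * y i)) = 1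
      simp) 1
  simp only [one_mul, hye] at h3
  exact h3

end main

end Pool.Agent.L0h14.HO
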