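import Mathlib
import Pool.Agent.L0h14.HO.Sys
import Pool.Agent.L0h14.HO.Mono

/-!
# Hypergeometric systems of orthogonal type: the form and the invariance of the relations
-/

set_option autoImplicit false

open Filter Topology Matrix

namespace Pool.Agent.L0h14.HO

open Pool.Agent.Y119.HY

/-- even monic polynomials of even degree `n - 1` without roots at the natural numbers -/
structure QO (n : ℕ) (R : Polynomial ℚ) : Prop where
  two : 2 ≤ n
  odd : Odd n
  monic : R.Monic
  deg : R.natDegree + 1 = n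
  sym : ∀ j, Odd j → R.coeff j = 0
  ne : ∀ l : ℕ, R.eval (l : ℚ) ≠ 0

/-- the polynomial of the operator -/
noncomputable def PO (R : Polynomial ℚ) : Polynomial ℚ := (Polynomial.X + Polynomial.C (1 / 2)) * R

variable {n : ℕ} {R : Polynomial ℚ}

lemma QO.qg (h : QO n R) : QG n (PO R) where
  two := h.two
  monic := (Polynomial.monic_X_add_C _).mul h.monic
  deg := by
    unfold PO
    rw [(Polynomial.monic_X_add_C _).natDegree_mul h.monic, Polynomial.natDegree_X_add_C, add_comm]
    exact h.deg
  ne := by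
    intro l
    unfold PO
    rw [Polynomial.eval_mul, Polynomial.eval_add, Polynomial.eval_X, Polynomial.eval_C]
    exact mul_ne_zero (by positivity) (h.ne l)

/-- the coefficients -/
def cv (n : ℕ) (R : Polynomial ℚ) : Fin n → ℚ := fun j => R.coeff j

/-- the last row -/
def qv (n : ℕ) (Q : Polynomial ℚ) : Fin n → ℚ := fun j => Q.coeff j

/-- the second part of the form -/
noncomputable def J1 (n : ℕ) (R : Polynomial ℚ) : Matrix (Fin n) (Fin n) ℚ := vecMulVec (cv n R) (cv n R)

lemma Bm_vec (Q : Polynomial ℚ) : Bm n Q = vecMulVec (um n) (qv n Q) := by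
  ext i j
  rw [vecMulVec_apply]
  unfold Bm um qv
  rw [Matrix.of_apply]
  split_ifs <;> simp

lemma QO.sub_even (h : QO n R) : Even (n - 1) := by
  obtain ⟨m, hm⟩ := h.odd
  exact ⟨m, by omega⟩

lemma J0_symm (h : QO n R) : (Jm n R).transpose = Jm n R := by
  ext i j
  rw [Matrix.transpose_apply]
  unfold Jm
  simp only [Matrix.of_apply]
  by_cases h1 : n ≤ (i : ℕ) + j + 1
  · rw [if_pos h1, if_pos (by omega)]
    have e1 : (j : ℕ) + i + 1 - n = i + j + 1 - n := by omega
    rw [e1]
    rcases Nat.even_or_odd ((i : ℕ) + j + 1 - n) with h2 | h2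
    · have h3 : Even ((i : ℕ) + j) := by
        obtain ⟨a, ha⟩ := h2
        obtain ⟨b, hb⟩ := h.odd
        exact ⟨a + b, by omega⟩
      have h4 : (-1 : ℚ) ^ (i : ℕ) * (-1) ^ (j : ℕ) = 1 := by rw [← pow_add, h3.neg_one_pow]
      have h5 : (-1 : ℚ) ^ (i : ℕ) * (-1) ^ (i : ℕ) = 1 := by rw [← pow_add, Even.neg_one_pow ⟨_, rfl⟩]
      have h6 : (-1 : ℚ) ^ (j : ℕ) = (-1) ^ (i : ℕ) := by
        linear_combination (-1 : ℚ) ^ (i : ℕ) * h4 - (-1 : ℚ) ^ (j : ℕ) * h5
      rw [h6]
    · rw [h.sym _ h2]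
      simp
  · rw [if_neg h1, if_neg (by omega)]

lemma um_J0 (h : QO n R) : um n ᵥ* Jm n R = cv n R := by
  funext j
  unfold Matrix.vecMul dotProduct um cv
  simp only [ite_mul, one_mul, zero_mul]
  have hn := h.two
  rw [Finset.sum_eq_single ⟨n - 1, by omega⟩]
  · rw [if_pos (by simp only; omega)]
    unfold Jm
    simp only [Matrix.of_apply]
    rw [if_pos (by omega), h.sub_even.neg_one_pow, one_mul]
    congr 1
    omega
  · intro b _ hb
    rw [if_neg]
    intro h'
    exact hb (Fin.ext (by simp only; omega))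
  · intro h'
    exact absurd (Finset.mem_univ _) h'

lemma J0_um (h : QO n R) : Jm n R *ᵥ um n = cv n R := by
  rw [← vecMul_transpose, J0_symm h, um_J0 h]

lemma um_cv (h : QO n R) : um n ⬝ᵥ cv n R = 1 := by
  unfold dotProduct um cv
  have hn := h.two
  rw [Finset.sum_eq_single ⟨n - 1, by omega⟩]
  · rw [if_pos (by simp only; omega), one_mul]
    have h1 : n - 1 = R.natDegree := by have := h.deg; omega
    simp only [h1]
    exact h.monic.coeff_natDegree
  · intro b _ hb
    rw [if_neg, zero_mul]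
    intro h'
    exact hb (Fin.ext (by simp only; omega))
  · intro h'
    exact absurd (Finset.mem_univ _) h'

lemma PO_coeff (j : ℕ) : (PO R).coeff j = 1 / 2 * R.coeff j + if j = 0 then 0 else R.coeff (j - 1) := by
  unfold PO
  rw [add_mul, Polynomial.coeff_add, Polynomial.coeff_C_mul, add_comm]
  congr 1
  rcases j with _ | j
  · simp
  · rw [Polynomial.coeff_X_mul]
    simp

lemma um_qv (h : QO n R) : um n ⬝ᵥ qv n (PO R) = 1 / 2 := by
  unfold dotProduct um qv
  have hn := h.two
  rw [Finset.sum_eq_single ⟨n - 1, by omega⟩]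
  · rw [if_pos (by simp only; omega), one_mul, PO_coeff]
    have h1 : n - 1 = R.natDegree := by have := h.deg; omega
    have h2 : Odd (n - 1 - 1) := by
      obtain ⟨m, hm⟩ := h.odd
      exact ⟨m - 1, by omega⟩
    simp only
    rw [if_neg (by omega), h.sym _ h2, h1, h.monic.coeff_natDegree]
    norm_num
  · intro b _ hb
    rw [if_neg, zero_mul]
    intro h'
    exact hb (Fin.ext (by simp only; omega))
  · intro h'
    exact absurd (Finset.mem_univ _) h'

/-- the shift of the coefficients -/
lemma cv_Am : cv n R ᵥ* Am n = qv n (PO R) - (1 / 2 : ℚ) • cv n R := by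
  funext j
  have h1 : (cv n R ᵥ* Am n) j = if (j : ℕ) = 0 then 0 else R.coeff (j - 1) := by
    unfold Matrix.vecMul dotProduct Am cv
    simp only [Matrix.of_apply, mul_ite, mul_one, mul_zero]
    split_ifs with h
    · exact Finset.sum_eq_zero fun x _ => if_neg (by omega)
    · rw [Finset.sum_eq_single ⟨(j : ℕ) - 1, by omega⟩]
      · rw [if_pos]
        simp only
        omega
      · intro b _ hb
        rw [if_neg]
        intro h'
        exact hb (Fin.ext (by simp only; omega))
      · intro h'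
        exact absurd (Finset.mem_univ _) h'
  rw [h1, Pi.sub_apply, Pi.smul_apply, smul_eq_mul]
  unfold qv cv
  rw [PO_coeff]
  ring

/-- the common value -/
noncomputable def C0 (n : ℕ) (R : Polynomial ℚ) : Matrix (Fin n) (Fin n) ℚ :=
  vecMulVec (qv n (PO R)) (cv n R) + vecMulVec (cv n R) (qv n (PO R))

lemma rB0 (h : QO n R) : (Bm n (PO R)).transpose * Jm n R + Jm n R * Bm n (PO R) = C0 n R := by
  unfold C0
  rw [Bm_vec, transpose_vecMulVec, vecMulVec_mul, um_J0 h, mul_vecMulVec, J0_um h]

lemma rA1 : J1 n R + ((Am n).transpose * J1 n R + J1 n R * Am n) = C0 n R := by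
  unfold C0 J1
  have h1 : (Am n).transpose *ᵥ cv n R = qv n (PO R) - (1 / 2 : ℚ) • cv n R := by
    rw [mulVec_transpose, cv_Am]
  rw [mul_vecMulVec, vecMulVec_mul, h1, cv_Am]
  ext i j
  simp only [Matrix.add_apply, vecMulVec_apply, Pi.sub_apply, Pi.smul_apply, smul_eq_mul]
  ring

lemma rB1 (h : QO n R) : (Bm n (PO R)).transpose * J1 n R + J1 n R * Bm n (PO R) = C0 n R := by
  unfold C0 J1
  rw [Bm_vec, transpose_vecMulVec, vecMulVec_mul_vecMulVec, vecMulVec_mul_vecMulVec, um_cv h, dotProduct_comm, um_cv h,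
    one_smul, one_smul]

lemma rBB (h : QO n R) : Bm n (PO R) * Bm n (PO R) = (1 / 2 : ℚ) • Bm n (PO R) := by
  rw [Bm_vec, vecMulVec_mul_vecMulVec, dotProduct_comm, um_qv h]
  rw [vecMulVec_smul]

lemma J0_det (h : QO n R) : (Jm n R).det ≠ 0 := by
  have h1 := Matrix.det_permute' (Fin.revPerm : Equiv.Perm (Fin n)) (Jm n R)
  have h2 : ((Jm n R).submatrix id (Fin.revPerm : Equiv.Perm (Fin n))).det = ∏ i : Fin n, ((-1) ^ (i : ℕ) * R.coeff 0) := by
    rw [Matrix.det_of_isLowerTriangular]
    · refine Finset.prod_congr rfl fun i _ => ?_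
      rw [Matrix.submatrix_apply]
      unfold Jm
      simp only [Matrix.of_apply, id, Fin.revPerm_apply, Fin.val_rev]
      have := i.2
      rw [if_pos (by omega)]
      congr 2
      omega
    · intro i j hij
      have hij' : (i : ℕ) < j := hij
      rw [Matrix.submatrix_apply]
      unfold Jm
      simp only [Matrix.of_apply, id, Fin.revPerm_apply, Fin.val_rev]
      have := j.2
      rw [if_neg (by omega)]
  have h3 : ((Jm n R).submatrix id (Fin.revPerm : Equiv.Perm (Fin n))).det ≠ 0 := by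
    rw [h2]
    refine Finset.prod_ne_zero_iff.2 fun i _ => mul_ne_zero (pow_ne_zero _ (by norm_num)) ?_
    have := h.ne 0
    rwa [Nat.cast_zero, ← Polynomial.coeff_zero_eq_eval_zero] at this
  intro h0
  rw [h0, mul_zero] at h1
  exact h3 h1

/-- the form is non-degenerate -/
lemma Jz_det (h : QO n R) {z : ℂ} (hz : 1 - z ≠ 0) : (cm (Jm n R) - z • cm (J1 n R)).det ≠ 0 := by
  have h1 : J1 n R = Jm n R * vecMulVec (um n) (cv n R) := by
    rw [mul_vecMulVec, J0_um h]; rfl
  set V := cm (vecMulVec (um n) (cv n R)) with hV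
  have hVV : V * V = V := by
    rw [hV, ← cm_mul, vecMulVec_mul_vecMulVec, dotProduct_comm, um_cv h, one_smul]
  have h2 : cm (Jm n R) - z • cm (J1 n R) = cm (Jm n R) * (1 - z • V) := by
    rw [h1, cm_mul, mul_sub, mul_one, mul_smul_comm]
  have h3 : (1 - z • V) * (1 + (z / (1 - z)) • V) = 1 := by
    rw [mul_add, mul_one, sub_mul, one_mul, smul_mul_smul_comm, hVV]
    have e : (1 - z • V + ((z / (1 - z)) • V - (z * (z / (1 - z))) • V)) = 1 + (z / (1 - z) - z * (z / (1 - z)) - z) • V := by
      module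
    rw [e]
    have e2 : z / (1 - z) - z * (z / (1 - z)) - z = 0 := by
      field_simp
      ring
    rw [e2, zero_smul, add_zero]
  rw [h2, det_mul]
  refine mul_ne_zero ?_ ?_
  · have h4 : (cm (Jm n R)).det = algebraMap ℚ ℂ (Jm n R).det := (RingHom.map_det _ _).symm
    rw [h4]
    exact (map_ne_zero _).2 (J0_det h)
  · have h4 := congrArg Matrix.det h3
    rw [det_mul, det_one] at h4
    exact left_ne_zero_of_mul (by rw [h4]; exact one_ne_zero)

end Pool.Agent.L0h14.HO
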