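import Mathlib
import Pool.Agent.L0h14.HO.Odd

/-!
# Hypergeometric systems of orthogonal type: the formal bilinear relations and the inverse matrix
-/

set_option autoImplicit false

open PowerSeries Pool.Agent.Y113

namespace Pool.Agent.L0h14.HO

open Pool.Agent.Y119.HY (Am Jm Hq Hq_zero Jm_rel cm Am_nil)
open Pool.Agent.Y119.HZ hiding ode_Hp ode_int gsys_Hp ode_A2 Phi_ode qu_hf hfam_hf

variable {n : ℕ} {R : Polynomial ℚ}

/-- the form over the power series -/
noncomputable def Jz (n : ℕ) (R : Polynomial ℚ) : Matrix (Fin n) (Fin n) ℚ⟦X⟧ := km (Jm n R) - (X : ℚ⟦X⟧) • km (J1 n R)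

lemma km_tr (M : Matrix (Fin n) (Fin n) ℚ) : km M.transpose = (km M).transpose := rfl
lemma km_mul (M N : Matrix (Fin n) (Fin n) ℚ) : km (M * N) = km M * km N := map_mul _ _ _
lemma km_add (M N : Matrix (Fin n) (Fin n) ℚ) : km (M + N) = km M + km N := map_add _ _ _
lemma km_one : km (1 : Matrix (Fin n) (Fin n) ℚ) = 1 := map_one _
lemma km_zero : km (0 : Matrix (Fin n) (Fin n) ℚ) = 0 := map_zero _

lemma th_Jz : th (Jz n R) = -((X : ℚ⟦X⟧) • km (J1 n R)) := by
  ext1 i j
  unfold th Jz
  rw [Matrix.of_apply, Matrix.sub_apply, Matrix.smul_apply, Matrix.neg_apply, Matrix.smul_apply, km_apply, km_apply, map_sub,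
    smul_eq_mul, (d⁄dX ℚ).leibniz, PowerSeries.derivative_C, PowerSeries.derivative_C, PowerSeries.derivative_X]
  simp only [smul_eq_mul]
  ring

/-- **the bilinear relations** -/
theorem form1 (h : QO n R) : (Hp n (PO R)).transpose * Jz n R * Hp n (PO R) = km (Jm n R) := by
  set Z := (Hp n (PO R)).transpose * Jz n R * Hp n (PO R) with hZ
  set H := Hp n (PO R) with hH
  set J := Jz n R with hJ
  set A := km (Am n) with hA
  set B := km (Pool.Agent.Y119.HY.Bm n (PO R)) with hB
  set G : Matrix (Fin n) (Fin n) ℚ⟦X⟧ := (1 - X : ℚ⟦X⟧) • A + (X : ℚ⟦X⟧) • B with hG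
  have hGJ : G.transpose * J + J * G + (1 - X : ℚ⟦X⟧) • th J = 0 := by
    have e0 : A.transpose * km (Jm n R) + km (Jm n R) * A = 0 := by
      rw [hA, ← km_tr, ← km_mul, ← km_mul, ← km_add, Jm_rel, km_zero]
    have e1 : B.transpose * km (Jm n R) + km (Jm n R) * B = km (C0 n R) := by
      rw [hB, ← km_tr, ← km_mul, ← km_mul, ← km_add, rB0 h]
    have e2 : A.transpose * km (J1 n R) + km (J1 n R) * A = km (C0 n R) - km (J1 n R) := by
      rw [← rA1 (n := n) (R := R), km_add, km_add, km_mul, km_mul, km_tr]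
      abel
    have e3 : B.transpose * km (J1 n R) + km (J1 n R) * B = km (C0 n R) := by
      rw [hB, ← km_tr, ← km_mul, ← km_mul, ← km_add, rB1 h]
    have e4 : G.transpose * J + J * G = (1 - X : ℚ⟦X⟧) • (A.transpose * km (Jm n R) + km (Jm n R) * A) +
        (X : ℚ⟦X⟧) • (B.transpose * km (Jm n R) + km (Jm n R) * B) -
        ((1 - X) * X : ℚ⟦X⟧) • (A.transpose * km (J1 n R) + km (J1 n R) * A) -
        (X * X : ℚ⟦X⟧) • (B.transpose * km (J1 n R) + km (J1 n R) * B) := by
      rw [hG, hJ, Matrix.transpose_add, Matrix.transpose_smul, Matrix.transpose_smul]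
      unfold Jz
      simp only [add_mul, mul_add, sub_mul, mul_sub, smul_mul_assoc, mul_smul_comm, smul_add, smul_sub, smul_smul]
      ext1 i j
      simp only [Matrix.add_apply, Matrix.sub_apply, Matrix.smul_apply, smul_eq_mul]
      ring
    rw [e4, e0, e1, e2, e3, hJ, th_Jz]
    ext1 i j
    simp only [Matrix.add_apply, Matrix.sub_apply, Matrix.smul_apply, smul_eq_mul, Matrix.neg_apply, Matrix.zero_apply]
    ring
  have hode := ode_Hp h.qg
  rw [← hH, ← hA, ← hB, ← hG] at hode
  have hth : (1 - X : ℚ⟦X⟧) • th H = G * H - (1 - X : ℚ⟦X⟧) • (H * A) := by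
    rw [← hode, smul_add]
    abel
  have hthZ : th Z = (th H).transpose * J * H + H.transpose * th J * H + H.transpose * J * th H := by
    rw [hZ, th_mul, th_mul, add_mul, th_transpose]
  have h1 : (1 - X : ℚ⟦X⟧) • (th Z + (A.transpose * Z + Z * A)) = 0 := by
    have e1 : (1 - X : ℚ⟦X⟧) • ((th H).transpose * J * H) =
        (H.transpose * G.transpose - (1 - X : ℚ⟦X⟧) • (A.transpose * H.transpose)) * J * H := by
      rw [← smul_mul_assoc, ← smul_mul_assoc, ← Matrix.transpose_smul, hth, Matrix.transpose_sub, Matrix.transpose_smul,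
        Matrix.transpose_mul, Matrix.transpose_mul]
    have e2 : (1 - X : ℚ⟦X⟧) • (H.transpose * J * th H) = H.transpose * J * (G * H - (1 - X : ℚ⟦X⟧) • (H * A)) := by
      rw [← mul_smul_comm, hth]
    have e2' : (1 - X : ℚ⟦X⟧) • (H.transpose * th J * H) = H.transpose * ((1 - X : ℚ⟦X⟧) • th J) * H := by
      rw [mul_smul_comm, smul_mul_assoc]
    rw [smul_add, hthZ, smul_add, smul_add, e1, e2, e2', smul_add, hZ]
    have e3 : (H.transpose * G.transpose - (1 - X : ℚ⟦X⟧) • (A.transpose * H.transpose)) * J * H =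
        H.transpose * (G.transpose * J) * H - (1 - X : ℚ⟦X⟧) • (A.transpose * (H.transpose * J * H)) := by
      rw [sub_mul, sub_mul, smul_mul_assoc, smul_mul_assoc]
      simp only [Matrix.mul_assoc]
    have e4 : H.transpose * J * (G * H - (1 - X : ℚ⟦X⟧) • (H * A)) =
        H.transpose * (J * G) * H - (1 - X : ℚ⟦X⟧) • ((H.transpose * J * H) * A) := by
      rw [mul_sub, mul_smul_comm]
      simp only [Matrix.mul_assoc]
    rw [e3, e4]
    have e5 : H.transpose * (G.transpose * J) * H + H.transpose * (J * G) * H + H.transpose * ((1 - X : ℚ⟦X⟧) • th J) * H = 0 := by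
      rw [← add_mul, ← mul_add, ← add_mul, ← mul_add, hGJ, Matrix.mul_zero, Matrix.zero_mul]
    calc _ = H.transpose * (G.transpose * J) * H + H.transpose * (J * G) * H + H.transpose * ((1 - X : ℚ⟦X⟧) • th J) * H := by
          abel
      _ = 0 := e5
  have h1X : (1 - X : ℚ⟦X⟧) ≠ 0 := by
    intro h0
    have := congrArg (coeff 0) h0
    simp at this
  have h2 : th Z + (A.transpose * Z + Z * A) = 0 := by
    ext1 i j
    have h3 := congrFun (congrFun h1 i) j
    rw [Matrix.smul_apply, smul_eq_mul, Matrix.zero_apply] at h3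
    exact (mul_eq_zero.1 h3).resolve_left h1X
  refine cf_ext fun k => ?_
  have h3 : (k : ℚ) • cf Z k + ((Am n).transpose * cf Z k + cf Z k * Am n) = 0 := by
    have e1 : cf (th Z + (A.transpose * Z + Z * A)) k =
        cf (th Z) k + (cf (A.transpose * Z) k + cf (Z * A) k) := by
      ext i j
      unfold cf
      simp only [Matrix.map_apply, Matrix.add_apply, map_add]
    rw [h2, cf_th, hA, ← km_tr, cf_km_mul, cf_mul_km] at e1
    rw [← e1]
    ext i j
    unfold cf
    simp
  rcases k with _ | k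
  · have h4 : ∀ M N : Matrix (Fin n) (Fin n) ℚ⟦X⟧, cf (M * N) 0 = cf M 0 * cf N 0 := by
      intro M N
      ext i j
      unfold cf
      rw [Matrix.map_apply, Matrix.mul_apply, Matrix.mul_apply, map_sum]
      refine Finset.sum_congr rfl fun l _ => ?_
      rw [Matrix.map_apply, Matrix.map_apply, coeff_zero_eq_constantCoeff_apply, coeff_zero_eq_constantCoeff_apply,
        coeff_zero_eq_constantCoeff_apply, map_mul]
    have h5 : cf H.transpose 0 = (cf H 0).transpose := rfl
    have h6 : cf J 0 = cf (km (Jm n R)) 0 := by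
      ext i j
      rw [hJ]
      unfold cf Jz
      rw [Matrix.map_apply, Matrix.map_apply, Matrix.sub_apply, Matrix.smul_apply, smul_eq_mul, map_sub, coeff_zero_X_mul,
        sub_zero]
    rw [hZ, h4, h4, h5, hH, cf_Hp, Hq_zero, Matrix.transpose_one, one_mul, mul_one, h6]
  · rw [nil_zero (by exact_mod_cast Nat.succ_ne_zero k) h3]
    ext i j
    unfold cf
    rw [Matrix.map_apply, km_apply, coeff_C, if_neg (Nat.succ_ne_zero k), Matrix.zero_apply]

/-- the inverse of the holomorphic part -/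
noncomputable def W1 (n : ℕ) (R : Polynomial ℚ) : Matrix (Fin n) (Fin n) ℚ⟦X⟧ :=
  km (Jm n R)⁻¹ * ((Hp n (PO R)).transpose * Jz n R)

lemma mul_W1 (h : QO n R) : Hp n (PO R) * W1 n R = 1 := by
  refine mul_eq_one_comm.1 ?_
  unfold W1
  rw [Matrix.mul_assoc, form1 h, ← km_mul, Matrix.nonsing_inv_mul _ (Ne.isUnit (J0_det h)), km_one]

lemma SDc_W1 (h : ∀ i j, SDc (Hp n (PO R) i j)) (i j : Fin n) : SDc (W1 n R i j) := by
  refine SDc_matmul (SDc_km _) (SDc_matmul (fun i j => h j i) fun i j => ?_) i j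
  unfold Jz
  rw [Matrix.sub_apply, Matrix.smul_apply, smul_eq_mul, sub_eq_add_neg]
  refine (SDc_km _ i j).add ?_
  have h1 : -((X : ℚ⟦X⟧) * km (J1 n R) i j) = X * C (-(J1 n R i j)) := by
    rw [km_apply, map_neg]
    ring
  rw [h1]
  exact SDc.X.mul (SDc_C _)

end Pool.Agent.L0h14.HO
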