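import Mathlib
import Pool.Agent.L0h14.HO.Form

/-!
# Hypergeometric systems: values, the form at real points, and the invariance of the relations in the orthogonal case
-/

set_option autoImplicit false

open PowerSeries Pool.Agent.Y113

namespace Pool.Agent.L0h14.HO

open Pool.Agent.Y119.HY (QD Am Jm cm Ep E Ep_eval E_neg Hf Hc Yf Vr Rel Gal E_add E_zero E_mul_neg E_isom)
open Pool.Agent.Y119.HZ hiding ode_Hp ode_int gsys_Hp ode_A2 Phi_ode qu_hf hfam_hf Cv_Hp ev_aeval rel_inv relI_vanish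

variable {n : ℕ} {Q : Polynomial ℚ}

/-- the entries converge for `t > 1` -/
lemma Cv_Hp (hQ : QG n Q) {t : ℝ} (ht : 1 < t) (i j : Fin n) : Cv t (Hp n Q i j) := by
  have h1 := ((sol_c hQ).growth Pool.Agent.Y119.HY.Ac_nil i j).summable
    (r := 1 / t) (by positivity) (by rw [div_lt_one (by linarith)]; exact ht)
  refine h1.congr fun m => ?_
  congr 1
  unfold Hc
  rw [Pool.Agent.Y119.HY.cm_apply]
  have h2 : coeff m (Hp n Q i j) = Pool.Agent.Y119.HY.Hq n Q m i j := congrFun (congrFun (cf_Hp (Q := Q) m) i) j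
  rw [h2]
  have h3 : ((Pool.Agent.Y119.HY.Hq n Q m i j : ℚ) : ℂ) = (((Pool.Agent.Y119.HY.Hq n Q m i j : ℚ) : ℝ) : ℂ) := by push_cast; rfl
  rw [h3, Complex.norm_real, Real.norm_eq_abs]

lemma ev_aeval (hQ : QG n Q) {t : ℝ} (ht : 1 < t) (R : MvPolynomial (Fin (n * n)) (Polynomial ℚ)) :
    Cv t (MvPolynomial.aeval (hf n Q) R) ∧ ((ev t (MvPolynomial.aeval (hf n Q) R) : ℝ) : ℂ) =
      MvPolynomial.eval₂ (evq (((1 / t : ℝ)) : ℂ)) (fun j => ((ev t (hf n Q j) : ℝ) : ℂ)) R := by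
  have ht0 : 0 < t := by linarith
  induction R using MvPolynomial.induction_on with
  | C p =>
    have h1 : MvPolynomial.aeval (hf n Q) (MvPolynomial.C p) = (p : ℚ⟦X⟧) := by
      rw [MvPolynomial.aeval_C, PowerSeries.algebraMap_apply']
      simp
    rw [h1, MvPolynomial.eval₂_C]
    refine ⟨Cv.coe p, ?_⟩
    rw [ev_coe]
    unfold evq
    have h2 : (((1 / t : ℝ)) : ℂ) = algebraMap ℝ ℂ (1 / t) := rfl
    rw [h2]
    show _ = Polynomial.aeval (algebraMap ℝ ℂ (1 / t)) p
    rw [Polynomial.aeval_algebraMap_apply]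
    rfl
  | add p q hp hq =>
    rw [map_add, MvPolynomial.eval₂_add, ← hp.2, ← hq.2, Cv.ev_add ht0 hp.1 hq.1]
    refine ⟨Cv.add ht0 hp.1 hq.1, ?_⟩
    push_cast
    rfl
  | mul_X p j hp =>
    have h1 : Cv t (hf n Q j) := Cv_Hp hQ ht _ _
    rw [map_mul, MvPolynomial.aeval_X, MvPolynomial.eval₂_mul, MvPolynomial.eval₂_X, ← hp.2, Cv.ev_mul ht0 hp.1 h1]
    refine ⟨Cv.mul ht0 hp.1 h1, ?_⟩
    push_cast
    rfl

variable {R : Polynomial ℚ}

/-- the relation of the form with rational coefficients -/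
noncomputable def fR (n : ℕ) (R : Polynomial ℚ) (i j : Fin n) : MvPolynomial (Fin (n * n)) (Polynomial ℚ) :=
  ∑ k, ∑ l, MvPolynomial.X ((ix n).symm (k, i)) *
    MvPolynomial.C (Polynomial.C (Jm n R k l) - Polynomial.X * Polynomial.C (J1 n R k l)) *
    MvPolynomial.X ((ix n).symm (l, j)) - MvPolynomial.C (Polynomial.C (Jm n R i j))

lemma aeval_fR (h : QO n R) (i j : Fin n) : MvPolynomial.aeval (hf n (PO R)) (fR n R i j) = 0 := by
  have h1 := congrFun (congrFun (form1 h) i) j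
  have hC : ∀ p : Polynomial ℚ, MvPolynomial.aeval (hf n (PO R)) (MvPolynomial.C p) = (p : ℚ⟦X⟧) := by
    intro p
    rw [MvPolynomial.aeval_C, PowerSeries.algebraMap_apply']
    simp
  have hX : ∀ a b : Fin n, MvPolynomial.aeval (hf n (PO R))
      (MvPolynomial.X ((ix n).symm (a, b)) : MvPolynomial (Fin (n * n)) (Polynomial ℚ)) = Hp n (PO R) a b := by
    intro a b
    rw [MvPolynomial.aeval_X]
    unfold hf
    simp
  unfold fR
  rw [map_sub, sub_eq_zero, map_sum, hC, Polynomial.coe_C, ← km_apply, ← h1, Matrix.mul_apply]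
  simp only [map_sum, map_mul, hC, hX, Matrix.mul_apply, Matrix.transpose_apply, Finset.sum_mul]
  rw [Finset.sum_comm]
  refine Finset.sum_congr rfl fun l _ => Finset.sum_congr rfl fun k _ => ?_
  congr 2
  unfold Jz
  rw [Matrix.sub_apply, Matrix.smul_apply, smul_eq_mul, km_apply, km_apply, Polynomial.coe_sub, Polynomial.coe_mul,
    Polynomial.coe_X, Polynomial.coe_C, Polynomial.coe_C]

/-- **the form at real points** -/
theorem form_real (h : QO n R) {x : ℝ} (hx : 0 < x) (hx1 : x < 1) :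
    (Hf (Hc n (PO R)) (x : ℂ)).transpose * (cm (Jm n R) - (x : ℂ) • cm (J1 n R)) * Hf (Hc n (PO R)) (x : ℂ) =
      cm (Jm n R) := by
  ext i j
  have hy' : 1 < 1 / x := by rw [lt_div_iff₀ hx]; linarith
  have h1 := (ev_aeval h.qg hy' (fR n R i j)).2
  rw [aeval_fR h] at h1
  have h2 : ev (1 / x) (0 : ℚ⟦X⟧) = 0 := by
    unfold ev
    simp
  rw [h2, Complex.ofReal_zero, one_div_one_div] at h1
  have h3 : (fun j => ((ev (1 / x) (hf n (PO R) j) : ℝ) : ℂ)) = fun j => Hf (Hc n (PO R)) (x : ℂ) (ix n j).1 (ix n j).2 := by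
    funext j
    unfold hf
    rw [ev_Hp, one_div_one_div]
  rw [h3] at h1
  have hev : ∀ p : Polynomial ℚ, evq (x : ℂ) p = Polynomial.aeval (x : ℂ) p := fun p => rfl
  unfold fR at h1
  rw [← MvPolynomial.coe_eval₂Hom, map_sub, map_sum] at h1
  simp only [map_sum, map_mul, MvPolynomial.coe_eval₂Hom, MvPolynomial.eval₂_X, MvPolynomial.eval₂_C, hev,
    Equiv.apply_symm_apply, Polynomial.aeval_C, map_sub, Polynomial.aeval_X] at h1
  rw [Matrix.mul_apply]
  simp only [Matrix.mul_apply, Matrix.transpose_apply, Finset.sum_mul, Matrix.sub_apply, Matrix.smul_apply, smul_eq_mul]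
  rw [Finset.sum_comm]
  exact (sub_eq_zero.1 h1.symm)

/-- the form of the solution -/
theorem Yf_form (h : QO n R) {x : ℝ} (hx : 0 < x) (hx1 : x < 1) :
    (Yf (cm (Am n)) (Hc n (PO R)) (x : ℂ)).transpose * (cm (Jm n R) - (x : ℂ) • cm (J1 n R)) *
      Yf (cm (Am n)) (Hc n (PO R)) (x : ℂ) = cm (Jm n R) := by
  unfold Yf
  have i1 := E_isom Pool.Agent.Y119.HY.Ac_nil (Pool.Agent.Y119.HY.Jc_rel (n := n) (Q := R)) (Complex.log (x : ℂ))
  rw [Matrix.transpose_mul]
  calc _ = (E (cm (Am n)) (Complex.log (x : ℂ))).transpose * ((Hf (Hc n (PO R)) (x : ℂ)).transpose *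
        (cm (Jm n R) - (x : ℂ) • cm (J1 n R)) * Hf (Hc n (PO R)) (x : ℂ)) * E (cm (Am n)) (Complex.log (x : ℂ)) := by
        simp only [Matrix.mul_assoc]
    _ = _ := by rw [form_real h hx hx1, i1]

lemma cm_smulQ (a : ℚ) (M : Matrix (Fin n) (Fin n) ℚ) : cm (a • M) = (a : ℂ) • cm M := by
  ext i j
  rw [Pool.Agent.Y119.HY.cm_apply, Matrix.smul_apply, Matrix.smul_apply, Pool.Agent.Y119.HY.cm_apply, smul_eq_mul,
    smul_eq_mul, Rat.cast_mul]

open Matrix Pool.Agent.Y119.HY in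
/-- **The relations between the solutions are invariant under the orthogonal group.** -/
theorem odd_invar (h : QO n R) (g : Matrix (Fin n) (Fin n) ℂ)
    (hg : g.transpose * cm (Jm n R) * g = cm (Jm n R)) : g ∈ Gal (Yf (cm (Am n)) (Hc n (PO R))) := by
  have hn := h.two
  set A := cm (Am n) with hA
  set B := cm (Pool.Agent.Y119.HY.Bm n (PO R)) with hB
  set J0' := cm (Jm n R) with hJ0
  set J1' := cm (J1 n R) with hJ1
  have hsol : Sol A B (Hc n (PO R)) := HO.sol_c h.qg
  have hAn : A ^ n = 0 := Ac_nil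
  have hA0 : A.transpose * J0' + J0' * A = 0 := Jc_rel
  have hB0 : B.transpose * J0' + J0' * B = cm (C0 n R) := by
    rw [← rB0 h, cm_add, cm_mul, cm_mul, cm_transpose]
  have hA1 : J1' + (A.transpose * J1' + J1' * A) = cm (C0 n R) := by
    rw [← rA1, cm_add, cm_add, cm_mul, cm_mul, cm_transpose]
  have hB1 : B.transpose * J1' + J1' * B = cm (C0 n R) := by
    rw [← rB1 h, cm_add, cm_mul, cm_mul, cm_transpose]
  have hBB : (-B) * (-B) = (-(1 / 2 : ℂ)) • (-B) := by
    rw [neg_mul_neg, hB, ← cm_mul, rBB h, cm_smulQ]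
    push_cast
    rw [neg_smul, smul_neg, neg_neg]
  obtain ⟨K, hK⟩ := exists_sol1 hBB (-A)
  have hKg := growth1 hK hBB
  obtain ⟨M, Mi, hMMi, hMiM, hconn⟩ := connect1 hAn hA0 hB0 hA1 hB1 hBB (fun x hx hx1 => Jz_det h (by
    have : (1 - (x : ℂ)) = ((1 - x : ℝ) : ℂ) := by push_cast; rfl
    rw [this]
    exact Complex.ofReal_ne_zero.2 (sub_pos.2 hx1).ne')) hsol hK
  have hmon := mono_one hBB hKg (Y := Yf A (Hc n (PO R))) hMMi (fun x hx hx1 => hconn x (real_mem_Lens hx hx1))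
  have hJsym : J0'.transpose = J0' := by rw [hJ0, ← cm_transpose, J0_symm h]
  have hJdet : J0'.det ≠ 0 := by
    have h4 : (cm (Jm n R)).det = algebraMap ℚ ℂ (Jm n R).det := (RingHom.map_det _ _).symm
    rw [hJ0, h4]
    exact (map_ne_zero _).2 (J0_det h)
  have hiso := Gal_isom (J0 := J0') (J1 := J1') (Y := Yf A (Hc n (PO R))) (fun x hx hx1 => Yf_form h hx hx1) hmon
  -- the reflection
  set q : Fin n → ℂ := fun j => ((qv n (PO R) j : ℚ) : ℂ) with hq
  have hBv : B = vecMulVec (uc n) q := by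
    rw [hB, Bm_vec, cm_vec, uc_eq]
  set u : Fin n → ℂ := Mi *ᵥ uc n with hu
  set p : Fin n → ℂ := (4 : ℂ) • (q ᵥ* M) with hp
  have hform : Mi * (1 + (4 : ℂ) • (-B)) * M = 1 - vecMulVec u p := by
    rw [mul_add, mul_one, add_mul, hMiM, mul_smul_comm, smul_mul_assoc, mul_neg, neg_mul, hBv, mul_vecMulVec, vecMulVec_mul,
      hp, vecMulVec_smul, smul_neg, sub_eq_add_neg]
  rw [hform] at hmon hiso
  have hpu : p ⬝ᵥ u = 2 := by
    rw [hp, smul_dotProduct, hu, dotProduct_mulVec, vecMul_vecMul, hMMi, vecMul_one]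
    have h1 : q ⬝ᵥ uc n = ((um n ⬝ᵥ qv n (PO R) : ℚ) : ℂ) := by
      rw [dotProduct_comm, hq, uc_eq]
      unfold dotProduct
      push_cast
      rfl
    rw [h1, um_qv h]
    norm_num
  obtain ⟨huu, hrf⟩ := rf_of hJsym hJdet hpu hiso
  rw [hrf] at hmon
  -- cyclicity
  have hcyc : (A ^ (n - 1)) *ᵥ u ≠ 0 := by
    rw [hA, Ac_last hn]
    intro h0
    have hlast : u ⟨n - 1, by omega⟩ = 0 := by
      rcases smul_eq_zero.1 h0 with h1 | h1
      · exact h1
      · exfalso
        have h2 := congrFun h1 ⟨0, by omega⟩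
        unfold ec at h2
        rw [if_pos rfl] at h2
        exact one_ne_zero h2
    have home : om J0' u (ec n) = 0 := by
      unfold om dotProduct
      refine Finset.sum_eq_zero fun i _ => ?_
      by_cases hi : (i : ℕ) + 1 = n
      · have : i = ⟨n - 1, by omega⟩ := Fin.ext (by simp only; omega)
        rw [this, hlast, zero_mul]
      · have : (J0' *ᵥ ec n) i = 0 := by
          rw [mv_apply]
          refine Finset.sum_eq_zero fun j _ => ?_
          unfold ec
          split_ifs with hj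
          · rw [hJ0, cm_apply]
            unfold Jm
            rw [Matrix.of_apply, if_neg (by have := i.2; omega)]
            simp
          · rw [mul_zero]
        rw [this, mul_zero]
    have hfix : rf J0' u *ᵥ ec n = ec n := rf_fix home
    rw [← hrf, ← hform] at hfix
    have hBM : (-B) *ᵥ (M *ᵥ ec n) = 0 := by
      have h1 := congrArg (fun x => M *ᵥ x) hfix
      simp only [← mulVec_mulVec] at h1
      rw [mulVec_mulVec (_) M Mi, hMMi, one_mulVec, add_mulVec, one_mulVec, smul_mulVec] at h1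
      have h2 : (4 : ℂ) • ((-B) *ᵥ (M *ᵥ ec n)) = 0 := by
        have := congrArg (fun x => x - M *ᵥ ec n) h1
        simpa using this
      exact (smul_eq_zero.1 h2).resolve_left (by norm_num)
    refine HO.sing h.qg (fun z => (Hf K (1 - z) *ᵥ (M *ᵥ ec n)) ⟨0, by omega⟩) ?_ fun z hz => ?_
    · simp only [Matrix.mulVec, dotProduct]
      refine Finset.analyticOnNhd_fun_sum _ fun j _ => AnalyticOnNhd.mul ?_ analyticOnNhd_const
      intro z hz
      have h3 : AnalyticAt ℂ (fun w => Hf K w ⟨0, by omega⟩ j) (1 - z) := Hf_an1 hKg ⟨0, by omega⟩ j (1 - z) (by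
        rw [Metric.mem_ball, dist_comm, dist_eq_norm] at hz
        rwa [Metric.mem_ball, dist_zero_right])
      have h4 : AnalyticAt ℂ (fun w : ℂ => 1 - w) z := analyticAt_const.sub analyticAt_id
      exact h3.fun_comp h4
    · have h3 := congrArg (fun X : Matrix (Fin n) (Fin n) ℂ => X *ᵥ ec n) (hconn z hz)
      unfold Yf Zf at h3
      rw [← mulVec_mulVec, E_fix (Ac_ec n), ← mulVec_mulVec, ← mulVec_mulVec, Pf_fix hBM] at h3
      rw [h3]
  exact orth_all hJsym hJdet hAn hA0 hcyc huu (fun c g hg => conj_E hAn hsol c g hg) hmon (Gal_Z _) g hg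

end Pool.Agent.L0h14.HO
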