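import Mathlib
import Pool.Agent.L0h14.HO.Inv

/-!
# Denominators of the coefficients of a hypergeometric system with rational exponents at infinity
-/

set_option autoImplicit false

open PowerSeries

namespace Pool.Agent.L0h14.HO

open Pool.Agent.Y119.HY hiding sol_c a0_ne ratio sing Bm_mul step_q

variable {ι : Type} [Fintype ι]

/-- the polynomial with the roots `-γ_i` -/
noncomputable def QP (γ : ι → ℚ) : Polynomial ℚ := ∏ i, (Polynomial.X + Polynomial.C (γ i))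

lemma aq_QP (γ : ι → ℚ) (k : ℕ) : aq (Fintype.card ι) (QP γ) k = ∏ i, uq (γ i) k := by
  unfold aq uq QP
  rw [Finset.prod_comm]
  refine Finset.prod_congr rfl fun l _ => ?_
  rw [map_prod]
  have h1 : ∀ i : ι, Polynomial.aeval (kx l) (Polynomial.X + Polynomial.C (γ i)) = C ((l : ℚ) + γ i) + X := by
    intro i
    rw [map_add, Polynomial.aeval_X, Polynomial.aeval_C]
    have h2 : algebraMap ℚ ℚ⟦X⟧ (γ i) = C (γ i) := rfl
    rw [h2, map_add]
    unfold kx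
    ring
  simp only [h1]
  rw [Finset.prod_mul_distrib, Finset.prod_const, Finset.card_univ]

/-- the denominators -/
lemma hq_denP {γ : ι → ℚ} (hγ : ∀ i, ∀ l : ℕ, (l : ℚ) + γ i ≠ 0) :
    ∃ A : ℝ, ∀ K, ∃ d : ℕ, 0 < d ∧ (d : ℝ) ≤ A ^ (K + 1) ∧ ∀ k ≤ K, ∀ i j : ℕ, j < Fintype.card ι →
      ∃ a : ℤ, (d : ℚ) * hq (Fintype.card ι) (QP γ) k i j = a := by
  set n := Fintype.card ι with hn
  set Bd : ℕ := 1 + ∑ i, ((γ i).den + (γ i).num.natAbs) with hBd
  have hBi : ∀ i, (γ i).den + (γ i).num.natAbs + 1 ≤ Bd := by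
    intro i
    have := Finset.single_le_sum (f := fun i => (γ i).den + (γ i).num.natAbs) (fun _ _ => Nat.zero_le _) (Finset.mem_univ i)
    omega
  set M : ℕ := ∏ i, ((γ i).den ^ 2) with hM
  have hM1 : 1 ≤ M := by
    rw [hM]
    refine Nat.succ_le_of_lt (Finset.prod_pos fun i _ => ?_)
    have := (γ i).den_pos
    positivity
  refine ⟨(M : ℝ) * ((2 ^ 8) ^ Bd) ^ n, fun K => ?_⟩
  set L : ℕ := Nat.lcmUpto (K * Bd + Bd) with hL
  have hL0 : 0 < L := Nat.lcmUpto_pos _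
  have hLd : ∀ γ : ℚ, γ.den + γ.num.natAbs + 1 ≤ Bd → ∀ i : ℕ, 1 ≤ i → i ≤ K * γ.den + γ.num.natAbs + K → i ∣ L := by
    intro γ hγ i h1 h2
    refine Pool.Agent.Y113.dvd_lcmUpto h1 (h2.trans ?_)
    have h3 : K * (γ.den + 1) ≤ K * Bd := Nat.mul_le_mul_left _ (by omega)
    rw [mul_add, mul_one] at h3
    omega
  refine ⟨M ^ K * L ^ n, by positivity, ?_, fun k hk i j hj => ?_⟩
  · push_cast
    have h1 : (L : ℝ) ≤ (2 ^ 8) ^ (K * Bd + Bd) := Pool.Agent.Y113.lcm_bound _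
    have hM1' : (1 : ℝ) ≤ M := by exact_mod_cast hM1
    calc (M : ℝ) ^ K * (L : ℝ) ^ n ≤ (M : ℝ) ^ (K + 1) * ((2 ^ 8) ^ (K * Bd + Bd)) ^ n :=
          mul_le_mul (pow_le_pow_right₀ hM1' (Nat.le_succ K)) (pow_le_pow_left₀ (by positivity) h1 _) (by positivity)
            (by positivity)
      _ = _ := by
          rw [mul_pow]
          congr 1
          generalize ((2 : ℝ) ^ 8) = B
          rw [← pow_mul, ← pow_mul, ← pow_mul]
          congr 1
          ring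
  · -- the factors
    have hm1 : ∀ i, ∃ w ∈ SL L, uq (γ i) k = C (∏ l ∈ Finset.range k, (((l : ℚ) + γ i) / ((l : ℚ) + 1))) * w := fun i =>
      uq_eq (fun l => hγ i l) hk (hLd _ (hBi i))
    choose w1 hw1 hw1' using hm1
    set c : ℚ := ∏ i, (∏ l ∈ Finset.range k, (((l : ℚ) + γ i) / ((l : ℚ) + 1))) with hc
    have haq : aq n (QP γ) k = C c * ∏ i, w1 i := by
      rw [hn, aq_QP, hc, map_prod, ← Finset.prod_mul_distrib]
      exact Finset.prod_congr rfl fun i _ => hw1' i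
    have hcM : ∃ a : ℤ, ((M : ℚ) ^ k) * c = a := by
      choose a ha using fun i => poch_int (γ i) k
      refine ⟨∏ i, a i, ?_⟩
      rw [hc, hM]
      push_cast
      rw [← Finset.prod_pow, ← Finset.prod_mul_distrib]
      refine Finset.prod_congr rfl fun i _ => ?_
      rw [← ha i]
    obtain ⟨a, ha⟩ := hcM
    have hmem : kx k ^ i * ∏ i, w1 i ∈ SL L := by
      refine (SL L).mul_mem ((SL L).pow_mem ((SL L).add_mem ?_ (SL_X L)) _)
        ((SL L).prod_mem fun i _ => hw1 i)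
      have := SL_C L (k : ℤ)
      exact_mod_cast this
    obtain ⟨b, hb⟩ := SL_coeff hmem j
    refine ⟨(M : ℤ) ^ (K - k) * a * ((L : ℤ) ^ (n - j) * b), ?_⟩
    unfold hq
    rw [haq, show kx k ^ i * (C c * ∏ i, w1 i) = C c * (kx k ^ i * ∏ i, w1 i) by ring,
      PowerSeries.coeff_C_mul]
    push_cast
    rw [← ha, ← hb]
    have e1 : (M : ℚ) ^ K = (M : ℚ) ^ (K - k) * (M : ℚ) ^ k := by rw [← pow_add]; congr 1; omega
    have e2 : (L : ℚ) ^ n = (L : ℚ) ^ (n - j) * (L : ℚ) ^ j := by rw [← pow_add]; congr 1; omega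
    rw [e1, e2]
    ring

open Pool.Agent.Y113 in
/-- the entries are G-functions -/
theorem sdc_hpsP {γ : ι → ℚ} (hγ : ∀ i, ∀ l : ℕ, (l : ℚ) + γ i ≠ 0) {n : ℕ} (hn : Fintype.card ι = n)
    (hQ : QG n (QP γ)) (i j : Fin n) : SDc (hps n (QP γ) i j) := by
  refine sdc_of ?_ ?_
  · obtain ⟨A, hA⟩ := ((HO.sol_c hQ).growth Ac_nil i j).exp
    refine ⟨A, fun k => ?_⟩
    have h1 := hA k
    unfold Hc at h1
    rw [cm_apply] at h1
    unfold hps
    rw [PowerSeries.coeff_mk]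
    refine le_trans (le_of_eq ?_) h1
    have e1 : ((Hq n (QP γ) k i j : ℚ) : ℂ) = (((Hq n (QP γ) k i j : ℚ) : ℝ) : ℂ) := by push_cast; rfl
    rw [e1, Complex.norm_real, Real.norm_eq_abs]
    rfl
  · obtain ⟨A, hA⟩ := hq_denP hγ
    refine ⟨A, fun K => ?_⟩
    obtain ⟨d, hd0, hd, hd'⟩ := hA K
    refine ⟨d, hd0, hd, fun k hk => ?_⟩
    unfold hps
    rw [PowerSeries.coeff_mk]
    rw [hn] at hd'
    exact hd' k hk i j j.2

/-! ### the orthogonal case -/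

variable {m : ℕ}

/-- the exponents -/
def ex (β : Fin m → ℚ) : Option (Fin m ⊕ Fin m) → ℚ := fun o => o.elim (1 / 2) (Sum.elim β fun i => -β i)

lemma QP_ex (β : Fin m → ℚ) : QP (ex β) = PO (QB β) := by
  unfold QP PO QB ex
  rw [Fintype.prod_option, Fintype.prod_sum_type, ← Finset.prod_mul_distrib]
  congr 1
  refine Finset.prod_congr rfl fun i _ => ?_
  simp only [Option.elim_some, Sum.elim_inl, Sum.elim_inr]
  rw [map_neg, map_pow]
  ring

lemma QO_QB (hm : 1 ≤ m) {β : Fin m → ℚ} (hβ : ∀ i, ∀ l : ℕ, (l : ℚ) + β i ≠ 0 ∧ (l : ℚ) + -β i ≠ 0) :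
    QO (2 * m + 1) (QB β) where
  two := by omega
  odd := ⟨m, by ring⟩
  monic := (Pool.Agent.Y119.HZ.QD_QB hm hβ).monic
  deg := by rw [(Pool.Agent.Y119.HZ.QD_QB hm hβ).deg]
  sym := (Pool.Agent.Y119.HZ.QD_QB hm hβ).sym
  ne := (Pool.Agent.Y119.HZ.QD_QB hm hβ).ne

open Pool.Agent.Y113 in
theorem sdc_odd (hm : 1 ≤ m) {β : Fin m → ℚ} (hβ : ∀ i, ∀ l : ℕ, (l : ℚ) + β i ≠ 0 ∧ (l : ℚ) + -β i ≠ 0)
    (i j : Fin (2 * m + 1)) : SDc (Pool.Agent.Y119.HZ.Hp (2 * m + 1) (PO (QB β)) i j) := by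
  have hQ := (QO_QB hm hβ).qg
  rw [← QP_ex] at hQ ⊢
  refine sdc_hpsP (γ := ex β) (fun o l => ?_) (by
    simp [Fintype.card_option, Fintype.card_sum]
    ring) hQ i j
  rcases o with _ | i | i
  · show (l : ℚ) + 1 / 2 ≠ 0
    positivity
  · exact (hβ i l).1
  · exact (hβ i l).2

end Pool.Agent.L0h14.HO
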