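import Mathlib
import Pool.Agent.L0h14.HO.Ari

/-!
# Tuples of hypergeometric families of symplectic or orthogonal type
-/

set_option autoImplicit false

open PowerSeries Pool.Agent.Y113 Pool.Agent.Y120.GF Pool.Agent.Y120.GH

namespace Pool.Agent.L0h14.HO

open Pool.Agent.Y119.HY (QD Am Jm cm Ep E Ep_eval E_neg Hf Hc Yf Vr Rel Gal E_add E_zero E_mul_neg E_isom QB)
open Pool.Agent.Y119.HZ hiding ode_Hp ode_int gsys_Hp ode_A2 Phi_ode qu_hf hfam_hf Cv_Hp ev_aeval rel_inv relI_vanish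

/-- the properties of a family which are used -/
structure HG (n : ℕ) (Q : Polynomial ℚ) (J : Matrix (Fin n) (Fin n) ℚ) : Prop where
  qg : QG n Q
  det : J.det ≠ 0
  rel : (Am n).transpose * J + J * Am n = 0
  inv : ∀ g : Matrix (Fin n) (Fin n) ℂ, g.transpose * cm J * g = cm J → g ∈ Gal (Yf (cm (Am n)) (Hc n Q))
  sdc : ∀ i j, SDc (Hp n Q i j)
  wex : ∃ W : Matrix (Fin n) (Fin n) ℚ⟦X⟧, Hp n Q * W = 1 ∧ ∀ i j, SDc (W i j)

theorem HG.odd {m : ℕ} (hm : 1 ≤ m) {β : Fin m → ℚ} (hβ : ∀ i, ∀ l : ℕ, (l : ℚ) + β i ≠ 0 ∧ (l : ℚ) + -β i ≠ 0) :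
    HG (2 * m + 1) (PO (QB β)) (Jm (2 * m + 1) (QB β)) where
  qg := (QO_QB hm hβ).qg
  det := J0_det (QO_QB hm hβ)
  rel := Pool.Agent.Y119.HY.Jm_rel
  inv := odd_invar (QO_QB hm hβ)
  sdc := sdc_odd hm hβ
  wex := ⟨_, mul_W1 (QO_QB hm hβ), SDc_W1 (sdc_odd hm hβ)⟩

theorem HG.even {m : ℕ} (hm : 1 ≤ m) {β : Fin m → ℚ} (hβ : ∀ i, ∀ l : ℕ, (l : ℚ) + β i ≠ 0 ∧ (l : ℚ) + -β i ≠ 0) :
    HG (2 * m) (QB β) (Jm (2 * m) (QB β)) where
  qg := QG.ofQD (QD_QB hm hβ)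
  det := Pool.Agent.Y119.HY.Jm_det (QD_QB hm hβ)
  rel := Pool.Agent.Y119.HY.Jm_rel
  inv := Pool.Agent.Y119.HY.hyp_invar (QD_QB hm hβ)
  sdc := fun i j => Pool.Agent.Y119.HY.sdc_hps hβ (QD_QB hm hβ) i j
  wex := ⟨_, mul_Wp (QD_QB hm hβ), SDc_Wp fun i j => Pool.Agent.Y119.HY.sdc_hps hβ (QD_QB hm hβ) i j⟩

section one

variable {n : ℕ} {Q : Polynomial ℚ} {J : Matrix (Fin n) (Fin n) ℚ}

lemma HG.relc (h : HG n Q J) : (cm (Am n)).transpose * cm J + cm J * cm (Am n) = 0 := by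
  rw [← Pool.Agent.Y119.HY.cm_transpose, ← Pool.Agent.Y119.HY.cm_mul, ← Pool.Agent.Y119.HY.cm_mul,
    ← Pool.Agent.Y119.HY.cm_add, h.rel, Pool.Agent.Y119.HY.cm_zero]

/-- **invariance of the relations between the entries of the holomorphic part** -/
theorem rel_inv (hQ : HG n Q J) {R : MvPolynomial (Fin (n * n)) (Polynomial ℚ)} (hR : MvPolynomial.aeval (hf n Q) R = 0)
    {x : ℝ} (hx : 0 < x) (hx1 : x < 1) {κ : Matrix (Fin n) (Fin n) ℂ}
    (hκ : κ.transpose * cm J * κ = cm J) :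
    MvPolynomial.eval₂ (evq (x : ℂ)) (fun j => (Hf (Hc n Q) (x : ℂ) * κ) (ix n j).1 (ix n j).2) R = 0 := by
  set N := cm (Am n) with hNd
  have hN : N ^ n = 0 := Pool.Agent.Y119.HY.Ac_nil
  have hNJ : N.transpose * cm J + cm J * N = 0 := hQ.relc
  -- the relation
  have hrel : PR N R ∈ Rel (Yf N (Hc n Q)) := by
    intro y hy hy1
    rw [ev_PR]
    have e1 : Yf N (Hc n Q) (y : ℂ) * E N (-Complex.log y) = Hf (Hc n Q) (y : ℂ) := by
      unfold Yf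
      rw [Matrix.mul_assoc, E_mul_neg hN, mul_one]
    rw [e1]
    have hy' : 1 < 1 / y := by rw [lt_div_iff₀ hy]; linarith
    have h1 := (ev_aeval hQ.qg hy' R).2
    rw [hR] at h1
    have h2 : ev (1 / y) (0 : ℚ⟦X⟧) = 0 := by
      unfold ev
      simp
    rw [h2, Complex.ofReal_zero, one_div_one_div] at h1
    have h3 : (fun j => ((ev (1 / y) (hf n Q j) : ℝ) : ℂ)) = fun j => Hf (Hc n Q) (y : ℂ) (ix n j).1 (ix n j).2 := by
      funext j
      unfold hf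
      rw [ev_Hp, one_div_one_div]
    rw [h3] at h1
    exact h1.symm
  set L : ℂ := Complex.log x with hL
  set g : Matrix (Fin n) (Fin n) ℂ := E N (-L) * κ * E N L with hg
  have hgJ : g.transpose * cm J * g = cm J := by
    have i1 := E_isom hN hNJ (-L)
    have i2 := E_isom hN hNJ L
    calc g.transpose * cm J * g = (E N L).transpose * (κ.transpose * ((E N (-L)).transpose * cm J * E N (-L)) * κ) *
          E N L := by
            rw [hg, Matrix.transpose_mul, Matrix.transpose_mul]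
            simp only [Matrix.mul_assoc]
      _ = _ := by rw [i1, hκ, i2]
  have h1 := hQ.inv g hgJ _ hrel x hx hx1
  rw [ev_PR] at h1
  have e2 : Yf N (Hc n Q) (x : ℂ) * g * E N (-L) = Hf (Hc n Q) (x : ℂ) * κ := by
    unfold Yf
    have e3 : E N L * E N (-L) = 1 := E_mul_neg hN L
    calc Hf (Hc n Q) (x : ℂ) * E N (Complex.log x) * g * E N (-L) =
          Hf (Hc n Q) (x : ℂ) * (E N L * E N (-L)) * κ * (E N L * E N (-L)) := by
            rw [hg]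
            simp only [Matrix.mul_assoc]
            rfl
      _ = _ := by rw [e3, mul_one, mul_one]
  rw [← hL, e2] at h1
  exact h1

end one

variable {k : ℕ} {n : Fin k → ℕ} {Q : Fin k → Polynomial ℚ} {J : ∀ i, Matrix (Fin (n i)) (Fin (n i)) ℚ}

theorem relI_vanish (hQ : ∀ i, HG (n i) (Q i) (J i)) {δ : ℕ} {t : Fin k → ℕ} (ht : ∀ i, 2 ≤ t i)
    {κ : ∀ i, Matrix (Fin (n i)) (Fin (n i)) ℂ}
    (hκ : ∀ i, (κ i).transpose * cm (J i) * κ i = cm (J i)) (l : Fin k → ℂ)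
    {P : MvPolynomial (Vx n) ℂ} (hP : P ∈ relI δ (fun i => hf (n i) (Q i)) t) :
    MvPolynomial.aeval (pt (fun i j => (Hf (Hc (n i) (Q i)) (((1 / (t i : ℝ) : ℝ)) : ℂ) * κ i) (ix (n i) j).1 (ix (n i) j).2) l) P = 0 := by
  set θ := pt (fun i j => (Hf (Hc (n i) (Q i)) (((1 / (t i : ℝ) : ℝ)) : ℂ) * κ i) (ix (n i) j).1 (ix (n i) j).2) l with hθ
  have h1 : relI δ (fun i => hf (n i) (Q i)) t ≤ RingHom.ker (MvPolynomial.aeval (R := ℂ) θ).toRingHom := by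
    unfold relI
    rw [Ideal.span_le]
    rintro _ ⟨i, R, -, hR, rfl⟩
    show (MvPolynomial.aeval θ) (MvPolynomial.rename (fun j => (⟨i, some j⟩ : Vx n)) (MvPolynomial.map (spec (t i)) R)) = 0
    rw [MvPolynomial.aeval_rename, MvPolynomial.aeval_def, MvPolynomial.eval₂_map]
    have h2 : (algebraMap ℂ ℂ).comp (spec (t i)) = evq (((1 / (t i : ℝ) : ℝ)) : ℂ) := by
      rw [← spec_eq]
      rfl
    rw [h2]
    have h3 : (2 : ℝ) ≤ t i := by exact_mod_cast ht i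
    have h4 := rel_inv (hQ i) (R := R) hR (x := 1 / (t i : ℝ)) (by positivity) (by rw [div_lt_one (by linarith)]; linarith)
      (hκ i)
    have h5 : (θ ∘ fun j => (⟨i, some j⟩ : Vx n)) = fun j : Fin (n i * n i) =>
        (Hf (Hc (n i) (Q i)) (((1 / (t i : ℝ) : ℝ)) : ℂ) * κ i) (ix (n i) j).1 (ix (n i) j).2 := by
      funext j
      rfl
    rw [h5]
    exact h4
  exact h1 hP

/-- **Few exceptional tuples.** -/
theorem tuples_all (k δ D : ℕ) (n : Fin k → ℕ) (Q : Fin k → Polynomial ℚ) (J : ∀ i, Matrix (Fin (n i)) (Fin (n i)) ℚ)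
    (hQ : ∀ i, HG (n i) (Q i) (J i)) :
    ∃ c C : ℝ, 0 < c ∧ 0 ≤ C ∧ ∀ (V : Submodule ℚ ℂ) [Module.Finite ℚ V], Module.finrank ℚ V ≤ D →
      ∀ Ω : (∀ i, Matrix (Fin (n i)) (Fin (n i)) ℂ), ∀ (x : Fin k → ℕ) (N : ℕ), (∀ i, 1 ≤ x i) → 1 ≤ N →
      ∀ S : Finset (Fin k → ℕ), (∀ t ∈ S, (∀ i, x i < t i ∧ t i ≤ x i + N) ∧ ∃ P : MvPolynomial (Jx n) ℂ,
        P.totalDegree ≤ δ ∧ (∀ s, P.coeff s ∈ V) ∧
        MvPolynomial.aeval (pw (fun i => ((Real.log (t i) : ℝ) : ℂ)) fun i => Yt (n i) (Q i) (t i) * Ω i) P = 0 ∧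
        ∃ (l : Fin k → ℂ) (g : ∀ i, Matrix (Fin (n i)) (Fin (n i)) ℂ),
          (∀ i, (g i).transpose * cm (J i) * g i = cm (J i)) ∧
          MvPolynomial.aeval (pw l fun i => Yt (n i) (Q i) (t i) * g i * Ω i) P ≠ 0) →
      (S.card : ℝ) ≤ C * (N : ℝ) ^ (k - 1) * ∑ i, (1 + N / ((x i : ℝ) + N) ^ c) := by
  classical
  obtain ⟨c, C, hc, hC, hmain⟩ := tuples k (δ * dg n) ((Fintype.card (Option (Ix n))) ^ δ * D) (fun i => n i * n i)
    (fun i => hf (n i) (Q i)) (fun i => by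
      obtain ⟨C₁, -, hs, -⟩ := Pool.Agent.Y119.HY.SDc.unif
        (y := fun p : Fin (n i) × Fin (n i) => Hp (n i) (Q i) p.1 p.2) fun p => (hQ i).sdc p.1 p.2
      exact ⟨C₁, fun j m => hs (ix (n i) j) m⟩) (fun i => by
        obtain ⟨W, hW1, hW2⟩ := (hQ i).wex
        exact hfam_hf (hQ i).qg (hQ i).sdc hW1 hW2 _)
  refine ⟨c, C, hc, hC, ?_⟩
  intro V _ hV Ω x N hx hN S hS
  obtain ⟨hfin, hrank⟩ := Vn_fin Ω V δ
  refine hmain (Vn Ω V δ) (hrank.trans (Nat.mul_le_mul_left _ hV)) x N hN S fun t htS => ?_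
  obtain ⟨hbox, P, hPd, hPV, hP0, l, g, hg, hPg⟩ := hS t htS
  refine ⟨hbox, MvPolynomial.aeval (sub' Ω) P, (aeval_MV' Ω hPd hPV).2, (aeval_MV' Ω hPd hPV).1, ?_, ?_⟩
  · -- the value
    have h1 : valpt (fun i => hf (n i) (Q i)) t =
        pt (fun i j => Hf (Hc (n i) (Q i)) (((1 / (t i : ℝ) : ℝ)) : ℂ) (ix (n i) j).1 (ix (n i) j).2)
          (fun i => ((Real.log (t i) : ℝ) : ℂ)) := by
      unfold valpt
      congr 1
      funext i j
      exact ev_Hp _ _ _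
    have h2 : MvPolynomial.aeval (valpt (fun i => hf (n i) (Q i)) t) (MvPolynomial.aeval (sub' Ω) P) =
        MvPolynomial.aeval (fun v => MvPolynomial.aeval (valpt (fun i => hf (n i) (Q i)) t) (sub' Ω v)) P :=
      MvPolynomial.aeval_bind₁ _ _ _
    rw [h2, h1]
    have h3 := fun v => aeval_sub' Ω (fun i => Hf (Hc (n i) (Q i)) (((1 / (t i : ℝ) : ℝ)) : ℂ)) (fun i => ((Real.log (t i) : ℝ) : ℂ)) v
    simp only [h3]
    exact hP0
  · intro hmem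
    apply hPg
    set N' := fun i => cm (Am (n i)) with hN'
    have ht2 : ∀ i, 2 ≤ t i := fun i => by
      have := (hbox i).1
      have := hx i
      omega
    have hN : ∀ i, (N' i) ^ n i = 0 := fun i => Pool.Agent.Y119.HY.Ac_nil
    have hEiso : ∀ i (s : ℂ), (E (N' i) s).transpose * cm (J i) * E (N' i) s = cm (J i) :=
      fun i s => E_isom (hN i) (hQ i).relc s
    let κ : ∀ i, Matrix (Fin (n i)) (Fin (n i)) ℂ := fun i => E (N' i) (-((Real.log (t i) : ℝ) : ℂ)) * g i * E (N' i) (l i)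
    have hκ : ∀ i, (κ i).transpose * cm (J i) * κ i = cm (J i) := fun i =>
      isom_mul (isom_mul (hEiso i _) (hg i)) (hEiso i (l i))
    have h1 := relI_vanish hQ ht2 hκ l hmem
    have h2 : MvPolynomial.aeval (pt (fun i j => (Hf (Hc (n i) (Q i)) (((1 / (t i : ℝ) : ℝ)) : ℂ) * κ i)
        (ix (n i) j).1 (ix (n i) j).2) l) (MvPolynomial.aeval (sub' Ω) P) =
        MvPolynomial.aeval (fun v => MvPolynomial.aeval (pt (fun i j => (Hf (Hc (n i) (Q i)) (((1 / (t i : ℝ) : ℝ)) : ℂ) * κ i)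
          (ix (n i) j).1 (ix (n i) j).2) l) (sub' Ω v)) P := MvPolynomial.aeval_bind₁ _ _ _
    rw [h2] at h1
    have h3 := fun v => aeval_sub' Ω (fun i => Hf (Hc (n i) (Q i)) (((1 / (t i : ℝ) : ℝ)) : ℂ) * κ i) l v
    simp only [h3] at h1
    have h4 : (fun i => Hf (Hc (n i) (Q i)) (((1 / (t i : ℝ) : ℝ)) : ℂ) * κ i * E (cm (Am (n i))) (-l i) * Ω i) =
        fun i => Yt (n i) (Q i) (t i) * g i * Ω i := by
      funext i
      have e1 : E (N' i) (l i) * E (N' i) (-l i) = 1 := E_mul_neg (hN i) (l i)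
      calc Hf (Hc (n i) (Q i)) (((1 / (t i : ℝ) : ℝ)) : ℂ) * κ i * E (N' i) (-l i) * Ω i =
          Hf (Hc (n i) (Q i)) (((1 / (t i : ℝ) : ℝ)) : ℂ) * E (N' i) (-((Real.log (t i) : ℝ) : ℂ)) * g i *
            (E (N' i) (l i) * E (N' i) (-l i)) * Ω i := by
            show Hf (Hc (n i) (Q i)) (((1 / (t i : ℝ) : ℝ)) : ℂ) *
              (E (N' i) (-((Real.log (t i) : ℝ) : ℂ)) * g i * E (N' i) (l i)) * E (N' i) (-l i) * Ω i = _
            simp only [Matrix.mul_assoc]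
        _ = _ := by rw [e1, mul_one]; rfl
    rw [h4] at h1
    exact h1

end Pool.Agent.L0h14.HO
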