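import Mathlib
import Pool.Agent.L0h14.HO.Tup
import Pool.Agent.L0h14.HO.LocS
import Pool.Agent.L0h14.HO.Sl

/-!
# Hypergeometric systems and their duals
-/

set_option autoImplicit false

open PowerSeries Pool.Agent.Y113

namespace Pool.Agent.L0h14.HO

open Pool.Agent.Y119.HY (Am Jm Hq Hq_zero Jm_rel cm Am_nil um Hf Hc Yf E E_isom)
open Pool.Agent.Y119.HZ hiding ode_Hp ode_int gsys_Hp ode_A2 Phi_ode qu_hf hfam_hf Cv_Hp ev_aeval rel_inv relI_vanish

variable {n : ℕ} {Q : Polynomial ℚ}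

/-- the dual polynomial `(-1)^n Q(-x)` -/
noncomputable def dq (n : ℕ) (Q : Polynomial ℚ) : Polynomial ℚ := Polynomial.C ((-1) ^ n) * Q.comp (-Polynomial.X)

lemma dq_coeff (j : ℕ) : (dq n Q).coeff j = (-1) ^ (n + j) * Q.coeff j := by
  unfold dq
  have h1 : (-Polynomial.X : Polynomial ℚ) = Polynomial.C (-1) * Polynomial.X := by
    rw [map_neg, map_one, neg_one_mul]
  rw [Polynomial.coeff_C_mul, h1, Polynomial.comp_C_mul_X_coeff, pow_add]
  ring

/-- admissible polynomials -/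
structure QS (n : ℕ) (Q : Polynomial ℚ) : Prop where
  pos : QG n Q
  neg : ∀ l : ℕ, Q.eval (-(l : ℚ)) ≠ 0

lemma QS.dual (h : QS n Q) : QG n (dq n Q) where
  two := h.pos.two
  monic := by
    have h1 : (dq n Q).natDegree ≤ n := by
      refine Polynomial.natDegree_le_iff_coeff_eq_zero.2 fun j hj => ?_
      rw [dq_coeff, Polynomial.coeff_eq_zero_of_natDegree_lt (by rw [h.pos.deg]; exact hj), mul_zero]
    refine Polynomial.monic_of_natDegree_le_of_coeff_eq_one n h1 ?_
    have h2 : Q.coeff n = 1 := by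
      rw [← h.pos.deg]
      exact h.pos.monic.coeff_natDegree
    rw [dq_coeff, h2, mul_one, Even.neg_one_pow ⟨n, rfl⟩]
  deg := by
    unfold dq
    rw [Polynomial.natDegree_C_mul (by positivity), Polynomial.natDegree_comp, Polynomial.natDegree_neg,
      Polynomial.natDegree_X, mul_one, h.pos.deg]
  ne := by
    intro l
    unfold dq
    rw [Polynomial.eval_mul, Polynomial.eval_C, Polynomial.eval_comp, Polynomial.eval_neg, Polynomial.eval_X]
    exact mul_ne_zero (pow_ne_zero _ (by norm_num)) (h.neg l)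

lemma dq_dq : dq n (dq n Q) = Q := by
  ext j
  have h1 : (-1 : ℚ) ^ (n + j) * (-1) ^ (n + j) = 1 := by rw [← pow_add, Even.neg_one_pow ⟨_, rfl⟩]
  rw [dq_coeff, dq_coeff, ← mul_assoc, h1, one_mul]

open Matrix in
lemma um_Jm (hn : 1 ≤ n) : um n ᵥ* Jm n Q = ((-1 : ℚ) ^ (n - 1)) • qv n Q := by
  funext j
  unfold Matrix.vecMul dotProduct um qv
  simp only [ite_mul, one_mul, zero_mul]
  rw [Finset.sum_eq_single ⟨n - 1, by omega⟩]
  · rw [if_pos (by simp only; omega)]
    unfold Jm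
    simp only [Matrix.of_apply]
    rw [if_pos (by omega), Pi.smul_apply, smul_eq_mul]
    congr 2
    omega
  · intro b _ hb
    rw [if_neg]
    intro h'
    exact hb (Fin.ext (by simp only; omega))
  · intro h'
    exact absurd (Finset.mem_univ _) h'

open Matrix in
lemma Jm_um (hn : 1 ≤ n) : Jm n Q *ᵥ um n = ((-1 : ℚ) ^ n) • qv n (dq n Q) := by
  funext i
  unfold Matrix.mulVec dotProduct um qv
  simp only [mul_ite, mul_one, mul_zero]
  rw [Finset.sum_eq_single ⟨n - 1, by omega⟩]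
  · rw [if_pos (by simp only; omega)]
    unfold Jm
    simp only [Matrix.of_apply]
    have e1 : (i : ℕ) + (n - 1) + 1 - n = i := by omega
    have e2 : (-1 : ℚ) ^ n * (-1) ^ n = 1 := by rw [← pow_add, Even.neg_one_pow ⟨_, rfl⟩]
    rw [if_pos (by omega), e1, Pi.smul_apply, smul_eq_mul, dq_coeff, ← mul_assoc, pow_add, ← mul_assoc, e2, one_mul]
  · intro b _ hb
    rw [if_neg]
    intro h'
    exact hb (Fin.ext (by simp only; omega))
  · intro h'
    exact absurd (Finset.mem_univ _) h'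

open Matrix in
/-- the form pairs the two systems -/
lemma Bd_rel (hn : 1 ≤ n) : (Pool.Agent.Y119.HY.Bm n (dq n Q)).transpose * Jm n Q + Jm n Q * Pool.Agent.Y119.HY.Bm n Q = 0 := by
  rw [Bm_vec, Bm_vec, transpose_vecMulVec, vecMulVec_mul, um_Jm hn, mul_vecMulVec, Jm_um hn]
  ext i j
  rw [Matrix.add_apply, vecMulVec_apply, vecMulVec_apply, Pi.smul_apply, Pi.smul_apply, smul_eq_mul, smul_eq_mul,
    Matrix.zero_apply]
  have e : (-1 : ℚ) ^ n = -(-1) ^ (n - 1) := by
    have h1 : n = (n - 1) + 1 := by omega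
    conv_lhs => rw [h1, pow_succ]
    ring
  rw [e]
  ring

lemma Jm_detS (h : QS n Q) : (Jm n Q).det ≠ 0 := by
  have h1 := Matrix.det_permute' (Fin.revPerm : Equiv.Perm (Fin n)) (Jm n Q)
  have h2 : ((Jm n Q).submatrix id (Fin.revPerm : Equiv.Perm (Fin n))).det = ∏ i : Fin n, ((-1) ^ (i : ℕ) * Q.coeff 0) := by
    rw [Matrix.det_of_isLowerTriangular]
    · refine Finset.prod_congr rfl fun i _ => ?_
      rw [Matrix.submatrix_apply]
      unfold Jm
      simp only [Matrix.of_apply, id, Fin.revPerm_apply, Fin.val_rev]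
      have := i.2
      rw [if_pos (by omega)]
      congr 2
      omega
    · intro i j hij
      have hij' : (i : ℕ) < j := hij
      rw [Matrix.submatrix_apply]
      unfold Jm
      simp only [Matrix.of_apply, id, Fin.revPerm_apply, Fin.val_rev]
      have := j.2
      rw [if_neg (by omega)]
  have h3 : ((Jm n Q).submatrix id (Fin.revPerm : Equiv.Perm (Fin n))).det ≠ 0 := by
    rw [h2]
    refine Finset.prod_ne_zero_iff.2 fun i _ => mul_ne_zero (pow_ne_zero _ (by norm_num)) ?_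
    have := h.pos.ne 0
    rwa [Nat.cast_zero, ← Polynomial.coeff_zero_eq_eval_zero] at this
  intro h0
  rw [h0, mul_zero] at h1
  exact h3 h1

/-- **the bilinear relations** -/
theorem formD (h : QS n Q) : (Hp n (dq n Q)).transpose * km (Jm n Q) * Hp n Q = km (Jm n Q) := by
  set Z := (Hp n (dq n Q)).transpose * km (Jm n Q) * Hp n Q with hZ
  set H := Hp n Q with hH
  set H' := Hp n (dq n Q) with hH'
  set J := km (Jm n Q) with hJ
  set A := km (Am n) with hA
  set B := km (Pool.Agent.Y119.HY.Bm n Q) with hB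
  set B' := km (Pool.Agent.Y119.HY.Bm n (dq n Q)) with hB'
  set G : Matrix (Fin n) (Fin n) ℚ⟦X⟧ := (1 - X : ℚ⟦X⟧) • A + (X : ℚ⟦X⟧) • B with hG
  set G' : Matrix (Fin n) (Fin n) ℚ⟦X⟧ := (1 - X : ℚ⟦X⟧) • A + (X : ℚ⟦X⟧) • B' with hG'
  have hGJ : G'.transpose * J + J * G = 0 := by
    have e0 : A.transpose * J + J * A = 0 := by
      rw [hA, hJ, ← km_tr, ← km_mul, ← km_mul, ← km_add, Jm_rel, km_zero]
    have e1 : B'.transpose * J + J * B = 0 := by
      rw [hB, hB', hJ, ← km_tr, ← km_mul, ← km_mul, ← km_add, Bd_rel (by have := h.pos.two; omega), km_zero]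
    have e3 : G'.transpose * J + J * G = (1 - X : ℚ⟦X⟧) • (A.transpose * J + J * A) +
        (X : ℚ⟦X⟧) • (B'.transpose * J + J * B) := by
      rw [hG, hG', Matrix.transpose_add, Matrix.transpose_smul, Matrix.transpose_smul, add_mul, mul_add, smul_mul_assoc,
        smul_mul_assoc, mul_smul_comm, mul_smul_comm, smul_add, smul_add]
      abel
    rw [e3, e0, e1, smul_zero, smul_zero, add_zero]
  have hode := ode_Hp h.pos
  have hode' := ode_Hp h.dual
  rw [← hH, ← hA, ← hB, ← hG] at hode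
  rw [← hH', ← hA, ← hB', ← hG'] at hode'
  have hth : (1 - X : ℚ⟦X⟧) • th H = G * H - (1 - X : ℚ⟦X⟧) • (H * A) := by
    rw [← hode, smul_add]
    abel
  have hth' : (1 - X : ℚ⟦X⟧) • th H' = G' * H' - (1 - X : ℚ⟦X⟧) • (H' * A) := by
    rw [← hode', smul_add]
    abel
  have hthZ : th Z = (th H').transpose * J * H + H'.transpose * J * th H := by
    rw [hZ, th_mul, th_mul, hJ, th_km, Matrix.mul_zero, add_zero, th_transpose]
  have h1 : (1 - X : ℚ⟦X⟧) • (th Z + (A.transpose * Z + Z * A)) = 0 := by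
    have e1 : (1 - X : ℚ⟦X⟧) • ((th H').transpose * J * H) =
        (H'.transpose * G'.transpose - (1 - X : ℚ⟦X⟧) • (A.transpose * H'.transpose)) * J * H := by
      rw [← smul_mul_assoc, ← smul_mul_assoc, ← Matrix.transpose_smul, hth', Matrix.transpose_sub, Matrix.transpose_smul,
        Matrix.transpose_mul, Matrix.transpose_mul]
    have e2 : (1 - X : ℚ⟦X⟧) • (H'.transpose * J * th H) = H'.transpose * J * (G * H - (1 - X : ℚ⟦X⟧) • (H * A)) := by
      rw [← mul_smul_comm, hth]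
    rw [smul_add, hthZ, smul_add, e1, e2, smul_add, hZ]
    have e3 : (H'.transpose * G'.transpose - (1 - X : ℚ⟦X⟧) • (A.transpose * H'.transpose)) * J * H =
        H'.transpose * (G'.transpose * J) * H - (1 - X : ℚ⟦X⟧) • (A.transpose * (H'.transpose * J * H)) := by
      rw [sub_mul, sub_mul, smul_mul_assoc, smul_mul_assoc]
      simp only [Matrix.mul_assoc]
    have e4 : H'.transpose * J * (G * H - (1 - X : ℚ⟦X⟧) • (H * A)) =
        H'.transpose * (J * G) * H - (1 - X : ℚ⟦X⟧) • ((H'.transpose * J * H) * A) := by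
      rw [mul_sub, mul_smul_comm]
      simp only [Matrix.mul_assoc]
    rw [e3, e4]
    have e5 : H'.transpose * (G'.transpose * J) * H + H'.transpose * (J * G) * H = 0 := by
      rw [← add_mul, ← mul_add, hGJ, Matrix.mul_zero, Matrix.zero_mul]
    calc _ = H'.transpose * (G'.transpose * J) * H + H'.transpose * (J * G) * H := by abel
      _ = 0 := e5
  have h1X : (1 - X : ℚ⟦X⟧) ≠ 0 := by
    intro h0
    have := congrArg (coeff 0) h0
    simp at this
  have h2 : th Z + (A.transpose * Z + Z * A) = 0 := by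
    ext1 i j
    have h3 := congrFun (congrFun h1 i) j
    rw [Matrix.smul_apply, smul_eq_mul, Matrix.zero_apply] at h3
    exact (mul_eq_zero.1 h3).resolve_left h1X
  refine cf_ext fun k => ?_
  have h3 : (k : ℚ) • cf Z k + ((Am n).transpose * cf Z k + cf Z k * Am n) = 0 := by
    have e1 : cf (th Z + (A.transpose * Z + Z * A)) k =
        cf (th Z) k + (cf (A.transpose * Z) k + cf (Z * A) k) := by
      ext i j
      unfold cf
      simp only [Matrix.map_apply, Matrix.add_apply, map_add]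
    rw [h2, cf_th, hA, ← km_tr, cf_km_mul, cf_mul_km] at e1
    rw [← e1]
    ext i j
    unfold cf
    simp
  rcases k with _ | k
  · have h4 : ∀ M N : Matrix (Fin n) (Fin n) ℚ⟦X⟧, cf (M * N) 0 = cf M 0 * cf N 0 := by
      intro M N
      ext i j
      unfold cf
      rw [Matrix.map_apply, Matrix.mul_apply, Matrix.mul_apply, map_sum]
      refine Finset.sum_congr rfl fun l _ => ?_
      rw [Matrix.map_apply, Matrix.map_apply, coeff_zero_eq_constantCoeff_apply, coeff_zero_eq_constantCoeff_apply,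
        coeff_zero_eq_constantCoeff_apply, map_mul]
    have h5 : cf H'.transpose 0 = (cf H' 0).transpose := rfl
    rw [hZ, h4, h4, h5, hH, hH', cf_Hp, cf_Hp, Hq_zero, Hq_zero, Matrix.transpose_one, one_mul, mul_one]
  · rw [nil_zero (by exact_mod_cast Nat.succ_ne_zero k) h3]
    ext i j
    unfold cf
    rw [Matrix.map_apply, hJ, km_apply, coeff_C, if_neg (Nat.succ_ne_zero k), Matrix.zero_apply]

/-- the inverse of the holomorphic part -/
noncomputable def WD (n : ℕ) (Q : Polynomial ℚ) : Matrix (Fin n) (Fin n) ℚ⟦X⟧ :=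
  km (Jm n Q)⁻¹ * ((Hp n (dq n Q)).transpose * km (Jm n Q))

lemma mul_WD (h : QS n Q) : Hp n Q * WD n Q = 1 := by
  refine mul_eq_one_comm.1 ?_
  unfold WD
  rw [Matrix.mul_assoc, formD h, ← km_mul, Matrix.nonsing_inv_mul _ (Ne.isUnit (Jm_detS h)), km_one]

lemma SDc_WD (h : ∀ i j, SDc (Hp n (dq n Q) i j)) (i j : Fin n) : SDc (WD n Q i j) :=
  SDc_matmul (SDc_km _) (SDc_matmul (fun i j => h j i) (SDc_km _)) i j

/-! ### real points -/

lemma cv_sum {ι : Type*} (s : Finset ι) {f : ι → ℚ⟦X⟧} {t : ℝ} (ht : 0 < t) (h : ∀ i ∈ s, Cv t (f i)) :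
    Cv t (∑ i ∈ s, f i) ∧ ev t (∑ i ∈ s, f i) = ∑ i ∈ s, ev t (f i) := by
  classical
  induction s using Finset.induction_on with
  | empty =>
    rw [Finset.sum_empty, Finset.sum_empty]
    refine ⟨?_, ?_⟩
    · have := Cv.coe (t := t) (0 : Polynomial ℚ)
      simpa using this
    · unfold ev
      simp
  | insert a s ha ih =>
    obtain ⟨i1, i2⟩ := ih fun i hi => h i (Finset.mem_insert_of_mem hi)
    rw [Finset.sum_insert ha, Finset.sum_insert ha, Cv.ev_add ht (h a (Finset.mem_insert_self _ _)) i1, i2]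
    exact ⟨Cv.add ht (h a (Finset.mem_insert_self _ _)) i1, rfl⟩

/-- values of a matrix of power series -/
noncomputable def evM (t : ℝ) (M : Matrix (Fin n) (Fin n) ℚ⟦X⟧) : Matrix (Fin n) (Fin n) ℂ :=
  Matrix.of fun i j => ((ev t (M i j) : ℝ) : ℂ)

lemma evM_mul {t : ℝ} (ht : 0 < t) {M N : Matrix (Fin n) (Fin n) ℚ⟦X⟧} (hM : ∀ i j, Cv t (M i j))
    (hN : ∀ i j, Cv t (N i j)) : (∀ i j, Cv t ((M * N) i j)) ∧ evM t (M * N) = evM t M * evM t N := by
  have h1 : ∀ i j, Cv t ((M * N) i j) ∧ ev t ((M * N) i j) = ∑ l, ev t (M i l) * ev t (N l j) := by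
    intro i j
    rw [Matrix.mul_apply]
    obtain ⟨i1, i2⟩ := cv_sum Finset.univ (f := fun l => M i l * N l j) ht fun l _ => Cv.mul ht (hM i l) (hN l j)
    refine ⟨i1, i2.trans ?_⟩
    exact Finset.sum_congr rfl fun l _ => Cv.ev_mul ht (hM i l) (hN l j)
  refine ⟨fun i j => (h1 i j).1, ?_⟩
  ext i j
  unfold evM
  rw [Matrix.of_apply, (h1 i j).2, Matrix.mul_apply]
  push_cast
  rfl

lemma Cv_C {t : ℝ} (a : ℚ) : Cv t (C a : ℚ⟦X⟧) := by
  have := Cv.coe (t := t) (Polynomial.C a)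
  rwa [Polynomial.coe_C] at this

lemma evM_km {t : ℝ} (M : Matrix (Fin n) (Fin n) ℚ) : evM t (km M) = cm M := by
  ext i j
  unfold evM
  rw [Matrix.of_apply, km_apply, Pool.Agent.Y119.HY.cm_apply]
  have h1 : ev t (C (M i j) : ℚ⟦X⟧) = ((M i j : ℚ) : ℝ) := by
    have := ev_coe (t := t) (Polynomial.C (M i j))
    rw [Polynomial.coe_C] at this
    rw [this, Polynomial.aeval_C]
    rfl
  rw [h1]
  push_cast
  rfl

lemma evM_Hp {x : ℝ} : evM (1 / x) (Hp n Q) = Hf (Hc n Q) (x : ℂ) := by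
  ext i j
  unfold evM
  rw [Matrix.of_apply, ev_Hp, one_div_one_div]

/-- **the form at real points** -/
theorem formD_real (h : QS n Q) {x : ℝ} (hx : 0 < x) (hx1 : x < 1) :
    (Hf (Hc n (dq n Q)) (x : ℂ)).transpose * cm (Jm n Q) * Hf (Hc n Q) (x : ℂ) = cm (Jm n Q) := by
  have hy' : 1 < 1 / x := by rw [lt_div_iff₀ hx]; linarith
  have ht : 0 < 1 / x := by positivity
  have h1 := congrArg (evM (1 / x)) (formD h)
  have c1 : ∀ i j, Cv (1 / x) ((Hp n (dq n Q)).transpose i j) := fun i j => Cv_Hp h.dual hy' j i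
  have c2 : ∀ i j, Cv (1 / x) (km (Jm n Q) i j) := fun i j => Cv_C _
  have c3 : ∀ i j, Cv (1 / x) (Hp n Q i j) := fun i j => Cv_Hp h.pos hy' i j
  obtain ⟨d1, d2⟩ := evM_mul ht c1 c2
  obtain ⟨-, d3⟩ := evM_mul ht d1 c3
  rw [d3, d2, evM_km, evM_Hp] at h1
  have e : evM (1 / x) (Hp n (dq n Q)).transpose = (Hf (Hc n (dq n Q)) (x : ℂ)).transpose := by
    rw [← evM_Hp]
    rfl
  rw [e] at h1
  exact h1

end Pool.Agent.L0h14.HO
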