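import Mathlib
import Pool.Agent.L0h14.HO.Dual

/-!
# Hypergeometric systems of linear type: the relations are invariant under the special linear group
-/

set_option autoImplicit false

open Filter Topology Matrix

namespace Pool.Agent.L0h14.HO

open Pool.Agent.Y119.HY hiding sol_c a0_ne ratio sing Bm_mul step_q

variable {n : ℕ} {Q : Polynomial ℚ}

/-- the identity theorem on the left half plane -/
lemma HP_zero {F : ℂ → ℂ} (hF : AnalyticOnNhd ℂ F HP) (h : ∀ r : ℝ, r < 0 → F (r : ℂ) = 0) {s : ℂ} (hs : s ∈ HP) : F s = 0 := by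
  have hzero : Set.EqOn F 0 HP := by
    refine AnalyticOnNhd.eqOn_zero_of_preconnected_of_frequently_eq_zero hF HP_conn (z₀ := ((-1 : ℝ) : ℂ)) ?_ ?_
    · show ((-1 : ℝ) : ℂ).re < 0
      rw [Complex.ofReal_re]
      norm_num
    · rw [Filter.frequently_iff]
      intro U hU
      rw [mem_nhdsWithin] at hU
      obtain ⟨V, hVo, hV1, hV2⟩ := hU
      have h1 : ∀ᶠ r : ℝ in 𝓝 (-1), (r : ℂ) ∈ V :=
        (Complex.continuous_ofReal.tendsto (-1)).eventually (hVo.mem_nhds hV1)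
      have h2 : ∀ᶠ r : ℝ in 𝓝 (-1), r < 0 := gt_mem_nhds (by norm_num)
      obtain ⟨ε, hε, h3⟩ := Metric.eventually_nhds_iff.1 (h1.and h2)
      have h4 := h3 (y := -1 - ε / 2) (by
        rw [Real.dist_eq]
        have : -1 - ε / 2 - -1 = -(ε / 2) := by ring
        rw [this, abs_neg, abs_of_pos (by positivity)]
        linarith)
      refine ⟨((-1 - ε / 2 : ℝ) : ℂ), hV2 ⟨h4.1, ?_⟩, h _ h4.2⟩
      intro h5
      rw [Set.mem_singleton_iff, Complex.ofReal_inj] at h5
      linarith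
  exact hzero hs

/-- the exponent at one -/
noncomputable def sg (n : ℕ) (Q : Polynomial ℚ) : ℝ := ((Q.coeff (n - 1) : ℚ) : ℝ)

lemma sg_dual (hn : 1 ≤ n) : sg n (dq n Q) = -sg n Q := by
  unfold sg
  rw [dq_coeff]
  have h1 : Odd (n + (n - 1)) := ⟨n - 1, by omega⟩
  rw [h1.neg_one_pow]
  push_cast
  ring

lemma QS.dual' (h : QS n Q) : QS n (dq n Q) where
  pos := h.dual
  neg := by
    intro l
    unfold dq
    rw [Polynomial.eval_mul, Polynomial.eval_C, Polynomial.eval_comp, Polynomial.eval_neg, Polynomial.eval_X, neg_neg]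
    exact mul_ne_zero (pow_ne_zero _ (by norm_num)) (h.pos.ne l)

lemma um_qvS (hn : 2 ≤ n) : um n ⬝ᵥ qv n Q = Q.coeff (n - 1) := by
  unfold dotProduct um qv
  rw [Finset.sum_eq_single ⟨n - 1, by omega⟩]
  · rw [if_pos (by simp only; omega), one_mul]
  · intro b _ hb
    rw [if_neg, zero_mul]
    intro h'
    exact hb (Fin.ext (by simp only; omega))
  · intro h'
    exact absurd (Finset.mem_univ _) h'

/-- the complex last row -/
noncomputable def qc (n : ℕ) (Q : Polynomial ℚ) : Fin n → ℂ := fun j => ((qv n Q j : ℚ) : ℂ)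

lemma Bc_eq : cm (Bm n Q) = vecMulVec (uc n) (qc n Q) := by
  rw [Bm_vec, cm_vec, uc_eq]
  rfl

lemma qc_uc (hn : 2 ≤ n) : qc n Q ⬝ᵥ uc n = (sg n Q : ℂ) := by
  have h1 : qc n Q ⬝ᵥ uc n = ((um n ⬝ᵥ qv n Q : ℚ) : ℂ) := by
    rw [dotProduct_comm, uc_eq]
    unfold dotProduct qc
    push_cast
    rfl
  rw [h1, um_qvS hn]
  unfold sg
  push_cast
  rfl

lemma Bc_sq (hn : 2 ≤ n) : (-cm (Bm n Q)) * (-cm (Bm n Q)) = (-(sg n Q : ℂ)) • (-cm (Bm n Q)) := by
  rw [neg_mul_neg, Bc_eq, vecMulVec_mul_vecMulVec, qc_uc hn, vecMulVec_smul, neg_smul, smul_neg, neg_neg]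

lemma pair2 {J A B A' B' : Matrix (Fin n) (Fin n) ℂ} (hA : A'.transpose * J + J * A = 0)
    (hB : B'.transpose * J + J * B = 0) {Y Z : ℂ → Matrix (Fin n) (Fin n) ℂ} {z : ℂ}
    (hY : HD Y (Gm A' B' z * Y z) z) (hZ : HD Z (Gm A B z * Z z) z) :
    HD (fun w => (Y w).transpose * J * Z w) 0 z := by
  refine ((hY.transpose.mul (HD.const J z)).mul hZ).congr ?_
  rw [mul_zero, add_zero, transpose_mul]
  have key : (Gm A' B' z).transpose * J + J * Gm A B z = 0 := by
    unfold Gm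
    have e : ((1 / z) • A' + (1 / (1 - z)) • B').transpose * J + J * ((1 / z) • A + (1 / (1 - z)) • B) =
        (1 / z) • (A'.transpose * J + J * A) + (1 / (1 - z)) • (B'.transpose * J + J * B) := by
      rw [transpose_add, transpose_smul, transpose_smul]
      simp only [add_mul, mul_add, smul_mul_assoc, mul_smul_comm]
      module
    rw [e, hA, hB, smul_zero, smul_zero, add_zero]
  calc (Y z).transpose * (Gm A' B' z).transpose * J * Z z + (Y z).transpose * J * (Gm A B z * Z z)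
      = (Y z).transpose * ((Gm A' B' z).transpose * J + J * Gm A B z) * Z z := by
        simp only [mul_add, add_mul, Matrix.mul_assoc]
    _ = 0 := by rw [key, mul_zero, zero_mul]

/-- **Connection.** -/
theorem connS (h : QS n Q) (hσ : ∀ a : ℤ, sg n Q ≠ a) :
    ∃ (K : ℕ → Matrix (Fin n) (Fin n) ℂ) (M Mi : Matrix (Fin n) (Fin n) ℂ), (∀ i j, PG fun k => K k i j) ∧ M * Mi = 1 ∧
      Mi * M = 1 ∧ ∀ z ∈ Lens, Yf (cm (Am n)) (Hc n Q) z = ZS (sg n Q) (-cm (Bm n Q)) K (1 - z) * M := by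
  have hn := h.pos.two
  set A := cm (Am n) with hA
  set B := cm (Bm n Q) with hB
  set B' := cm (Bm n (dq n Q)) with hB'
  set J := cm (Jm n Q) with hJ
  have hAn : A ^ n = 0 := Ac_nil
  have hAJ : A.transpose * J + J * A = 0 := Jc_rel
  have hBJ : B'.transpose * J + J * B = 0 := by
    rw [hB', hB, hJ, ← cm_transpose, ← cm_mul, ← cm_mul, ← cm_add, Bd_rel (by omega), cm_zero]
  have hBB := Bc_sq (Q := Q) hn
  rw [← hB] at hBB
  have hH : Sol A B (Hc n Q) := HO.sol_c h.pos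
  have hH' : Sol A B' (Hc n (dq n Q)) := HO.sol_c h.dual
  obtain ⟨K, hK⟩ := exists_solS hσ hBB (-A)
  have hKg := growthS hσ hK hBB
  have hσ0 : (sg n Q : ℂ) ≠ 0 := by
    have := hσ 0
    rw [Int.cast_zero] at this
    exact_mod_cast this
  set Z : ℂ → Matrix (Fin n) (Fin n) ℂ := fun z => ZS (sg n Q) (-B) K (1 - z) with hZ
  set X : ℂ → Matrix (Fin n) (Fin n) ℂ := Yf A (Hc n (dq n Q)) with hX
  have hYd : ∀ z ∈ Lens, HD (Yf A (Hc n Q)) (Gm A B z * Yf A (Hc n Q) z) z := fun z hz =>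
    Yf_ode hH hAn (mem_Lens.1 hz).1 (slit_Lens hz)
  have hXd : ∀ z ∈ Lens, HD X (Gm A B' z * X z) z := fun z hz =>
    Yf_ode hH' hAn (mem_Lens.1 hz).1 (slit_Lens hz)
  have hZd : ∀ z ∈ Lens, HD Z (Gm A B z * Z z) z := by
    intro z hz
    have hz' := symm_Lens hz
    have h1 := ZS_ode hσ hK hBB (mem_Lens.1 hz').1 (slit_Lens hz')
    have h2 : HasDerivAt (fun w : ℂ => 1 - w) (-1) z := by
      simpa using (hasDerivAt_id z).const_sub 1
    refine (h1.comp h2).congr ?_
    rw [hZ, ← smul_mul_assoc]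
    congr 1
    unfold Gm
    rw [sub_sub_cancel, smul_neg, smul_neg]
    rw [← neg_add, neg_smul, one_smul, neg_neg, add_comm]
  -- the pairing of `X` and `Y`
  have hXY : ∀ x : ℝ, 0 < x → x < 1 → (X (x : ℂ)).transpose * J * Yf A (Hc n Q) (x : ℂ) = J := by
    intro x hx hx1
    have h1 := formD_real h hx hx1
    have i1 := E_isom hAn hAJ (Complex.log (x : ℂ))
    rw [hX]
    unfold Yf
    rw [transpose_mul]
    calc _ = (E A (Complex.log (x : ℂ))).transpose * ((Hf (Hc n (dq n Q)) (x : ℂ)).transpose * J *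
          Hf (Hc n Q) (x : ℂ)) * E A (Complex.log (x : ℂ)) := by simp only [Matrix.mul_assoc]
      _ = J := by rw [h1, i1]
  have hJd : J.det ≠ 0 := by
    have h4 : (cm (Jm n Q)).det = algebraMap ℚ ℂ (Jm n Q).det := (RingHom.map_det _ _).symm
    rw [hJ, h4]
    exact (map_ne_zero _).2 (Jm_detS h)
  -- a point where `Z` is invertible
  obtain ⟨x, hx0, hx1, hxd⟩ := Hf_inv (Hf_zero hK) hKg
  have hxL : ((1 - x : ℝ) : ℂ) ∈ Lens := real_mem_Lens (by linarith) (by linarith)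
  set S := (X ((1 - x : ℝ) : ℂ)).transpose * J * Z ((1 - x : ℝ) : ℂ) with hS
  have hSd : S.det ≠ 0 := by
    have h0 := congrArg Matrix.det (hXY (1 - x) (by linarith) (by linarith))
    rw [det_mul] at h0
    rw [hS, det_mul]
    refine mul_ne_zero (left_ne_zero_of_mul (by rw [h0]; exact hJd)) ?_
    rw [hZ]
    simp only
    unfold ZS
    have e : (1 - ((1 - x : ℝ) : ℂ)) = (x : ℂ) := by push_cast; ring
    rw [e, det_mul]
    refine mul_ne_zero hxd ?_
    have h2 := congrArg Matrix.det (PS_mul_neg hσ0 hBB (Complex.log (x : ℂ)))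
    rw [det_mul, det_one] at h2
    exact left_ne_zero_of_mul (by rw [h2]; exact one_ne_zero)
  have hSc : ∀ z ∈ Lens, (X z).transpose * J * Z z = S := fun z hz =>
    const_Lens (F := fun z => (X z).transpose * J * Z z)
      (fun x hx => pair2 hAJ hBJ (hXd x hx) (hZd x hx)) hz hxL
  have hWc : ∀ z ∈ Lens, (X z).transpose * J * Yf A (Hc n Q) z = J := fun z hz =>
    (const_Lens (F := fun z => (X z).transpose * J * Yf A (Hc n Q) z)
      (fun x hx => pair2 hAJ hBJ (hXd x hx) (hYd x hx)) hz hxL).trans (hXY (1 - x) (by linarith) (by linarith))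
  have hu : IsUnit S.det := Ne.isUnit hSd
  have huJ : IsUnit J.det := Ne.isUnit hJd
  refine ⟨K, S⁻¹ * J, J⁻¹ * S, hKg, ?_, ?_, fun z hz => ?_⟩
  · rw [Matrix.mul_assoc, ← Matrix.mul_assoc J, mul_nonsing_inv _ huJ, one_mul, nonsing_inv_mul _ hu]
  · rw [Matrix.mul_assoc, ← Matrix.mul_assoc S, mul_nonsing_inv _ hu, one_mul, nonsing_inv_mul _ huJ]
  · have h1 : Z z * (S⁻¹ * ((X z).transpose * J)) = 1 := by
      refine mul_eq_one_comm.1 ?_
      rw [Matrix.mul_assoc, hSc z hz, nonsing_inv_mul _ hu]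
    show _ = Z z * (S⁻¹ * J)
    rw [← hWc z hz]
    calc Yf A (Hc n Q) z = Z z * (S⁻¹ * ((X z).transpose * J)) * Yf A (Hc n Q) z := by rw [h1, one_mul]
      _ = _ := by simp only [Matrix.mul_assoc]

/-- the first vector is not fixed by the monodromy at `1` -/
lemma row_ne (h : QG n Q) {K : ℕ → Matrix (Fin n) (Fin n) ℂ} {M : Matrix (Fin n) (Fin n) ℂ}
    (hKg : ∀ i j, PG fun k => K k i j)
    (hconn : ∀ z ∈ Lens, Yf (cm (Am n)) (Hc n Q) z = ZS (sg n Q) (-cm (Bm n Q)) K (1 - z) * M) :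
    qc n Q ⬝ᵥ (M *ᵥ ec n) ≠ 0 := by
  have hn := h.two
  intro h0
  have hBM : (-cm (Bm n Q)) *ᵥ (M *ᵥ ec n) = 0 := by
    rw [Bc_eq, neg_mulVec, vm_mulVec, h0, zero_smul, neg_zero]
  refine HO.sing h (fun z => (Hf K (1 - z) *ᵥ (M *ᵥ ec n)) ⟨0, by omega⟩) ?_ fun z hz => ?_
  · simp only [Matrix.mulVec, dotProduct]
    refine Finset.analyticOnNhd_fun_sum _ fun j _ => AnalyticOnNhd.mul ?_ analyticOnNhd_const
    intro z hz
    have h3 : AnalyticAt ℂ (fun w => Hf K w ⟨0, by omega⟩ j) (1 - z) := Hf_an1 hKg ⟨0, by omega⟩ j (1 - z) (by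
      rw [Metric.mem_ball, dist_comm, dist_eq_norm] at hz
      rwa [Metric.mem_ball, dist_zero_right])
    have h4 : AnalyticAt ℂ (fun w : ℂ => 1 - w) z := analyticAt_const.sub analyticAt_id
    exact h3.fun_comp h4
  · have h3 := congrArg (fun X : Matrix (Fin n) (Fin n) ℂ => X *ᵥ ec n) (hconn z hz)
    unfold Yf ZS at h3
    rw [← mulVec_mulVec, E_fix (Ac_ec n), ← mulVec_mulVec, ← mulVec_mulVec, PS_fix hBM] at h3
    rw [h3]

/-- the multiplier at one -/
noncomputable def mlt (σ : ℝ) : ℂ := Complex.exp (-(σ : ℂ) * (2 * Real.pi * Complex.I))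

lemma mlt_ne_zero (σ : ℝ) : mlt σ ≠ 0 := Complex.exp_ne_zero _

lemma mlt_neg (σ : ℝ) : mlt (-σ) = (mlt σ)⁻¹ := by
  unfold mlt
  rw [← Complex.exp_neg]
  congr 1
  push_cast
  ring

lemma mlt_ne_one {σ : ℝ} (hσ : ∀ a : ℤ, σ ≠ a) : 1 - mlt σ ≠ 0 := by
  intro h0
  have h1 : Complex.exp (-(σ : ℂ) * (2 * Real.pi * Complex.I)) = 1 := (sub_eq_zero.1 h0).symm
  obtain ⟨a, ha⟩ := Complex.exp_eq_one_iff.1 h1
  have h2 : (2 * Real.pi * Complex.I : ℂ) ≠ 0 := Complex.two_pi_I_ne_zero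
  have h3 : (-(σ : ℂ)) = a := mul_right_cancel₀ h2 ha
  refine hσ (-a) ?_
  have h4 : (((-σ : ℝ)) : ℂ) = ((a : ℝ) : ℂ) := by push_cast; exact h3
  have h5 := Complex.ofReal_inj.1 h4
  push_cast
  linarith

lemma mlt_ne_neg {σ : ℝ} (hσ : ∀ a : ℤ, 2 * σ ≠ a) : 1 + mlt σ ≠ 0 := by
  intro h0
  have h1 : mlt (2 * σ) = 1 := by
    have h2 : mlt (2 * σ) = mlt σ * mlt σ := by
      unfold mlt
      rw [← Complex.exp_add]
      congr 1
      push_cast
      ring
    have h3 : mlt σ = -1 := by linear_combination h0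
    rw [h2, h3]
    norm_num
  exact mlt_ne_one hσ (by rw [h1, sub_self])

/-- the form of the monodromy -/
lemma mon_form (hn : 2 ≤ n) (hσ : ∀ a : ℤ, sg n Q ≠ a) {M Mi : Matrix (Fin n) (Fin n) ℂ} (hM : Mi * M = 1) :
    Mi * PS (sg n Q) (-cm (Bm n Q)) (((1 : ℤ) : ℂ) * (2 * Real.pi * Complex.I)) * M =
      1 - vecMulVec (Mi *ᵥ uc n) (((sg n Q : ℂ)⁻¹ * (1 - mlt (sg n Q))) • (qc n Q ᵥ* M)) ∧
    Mi * PS (sg n Q) (-cm (Bm n Q)) (((-1 : ℤ) : ℂ) * (2 * Real.pi * Complex.I)) * M =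
      1 + (mlt (sg n Q))⁻¹ • vecMulVec (Mi *ᵥ uc n) (((sg n Q : ℂ)⁻¹ * (1 - mlt (sg n Q))) • (qc n Q ᵥ* M)) := by
  have hl := mlt_ne_zero (sg n Q)
  have key : ∀ a : ℂ, Mi * (1 + a • (-cm (Bm n Q))) * M = 1 - a • vecMulVec (Mi *ᵥ uc n) (qc n Q ᵥ* M) := by
    intro a
    rw [mul_add, mul_one, add_mul, hM, mul_smul_comm, smul_mul_assoc, mul_neg, neg_mul, Bc_eq, mul_vecMulVec,
      vecMulVec_mul, smul_neg, sub_eq_add_neg]
  unfold PS
  have e1 : Complex.exp (-(sg n Q : ℂ) * (((1 : ℤ) : ℂ) * (2 * Real.pi * Complex.I))) = mlt (sg n Q) := by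
    unfold mlt
    push_cast
    rw [one_mul]
  have e2 : Complex.exp (-(sg n Q : ℂ) * (((-1 : ℤ) : ℂ) * (2 * Real.pi * Complex.I))) = (mlt (sg n Q))⁻¹ := by
    unfold mlt
    rw [← Complex.exp_neg]
    congr 1
    push_cast
    ring
  rw [e1, e2, key, key, vecMulVec_smul]
  refine ⟨rfl, ?_⟩
  rw [smul_smul, sub_eq_add_neg, ← neg_smul]
  congr 2
  field_simp
  ring

/-- **The relations between the solutions are invariant under the special linear group and the monodromy.** -/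
theorem lin_invar (h : QS n Q) (h2 : ∀ a : ℤ, 2 * sg n Q ≠ a) :
    (∀ g : Matrix (Fin n) (Fin n) ℂ, g.det = 1 → g ∈ Gal (Yf (cm (Am n)) (Hc n Q))) ∧
    ∃ m m' : Matrix (Fin n) (Fin n) ℂ, m * m' = 1 ∧ m.det = mlt (sg n Q) ∧ m ∈ Gal (Yf (cm (Am n)) (Hc n Q)) ∧
      m' ∈ Gal (Yf (cm (Am n)) (Hc n Q)) := by
  have hn := h.pos.two
  have hσ : ∀ a : ℤ, sg n Q ≠ a := by
    intro a ha
    refine h2 (2 * a) ?_
    rw [ha]
    push_cast
    ring
  have hσ' : ∀ a : ℤ, sg n (dq n Q) ≠ a := by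
    intro a ha
    rw [sg_dual (by omega)] at ha
    refine hσ (-a) ?_
    push_cast
    linarith
  obtain ⟨K, M, Mi, hKg, hMMi, hMiM, hconn⟩ := connS h hσ
  obtain ⟨K', M', Mi', hKg', hMMi', hMiM', hconn'⟩ := connS h.dual' hσ'
  have hσ0 : (sg n Q : ℂ) ≠ 0 := by
    have := hσ 0
    rw [Int.cast_zero] at this
    exact_mod_cast this
  have hσ0' : (sg n (dq n Q) : ℂ) ≠ 0 := by
    have := hσ' 0
    rw [Int.cast_zero] at this
    exact_mod_cast this
  set lam := mlt (sg n Q) with hlam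
  have hl0 : lam ≠ 0 := mlt_ne_zero _
  have hl1 : 1 - lam ≠ 0 := mlt_ne_one hσ
  have hl2 : 1 + lam ≠ 0 := mlt_ne_neg h2
  set A := cm (Am n) with hA
  set J := cm (Jm n Q) with hJ
  have hAn : A ^ n = 0 := Ac_nil
  have hAJ : A.transpose * J + J * A = 0 := Jc_rel
  have hBB := Bc_sq (Q := Q) hn
  have hBB' := Bc_sq (Q := dq n Q) hn
  set u := Mi *ᵥ uc n with hu
  set p := ((sg n Q : ℂ)⁻¹ * (1 - lam)) • (qc n Q ᵥ* M) with hp
  set u' := Mi' *ᵥ uc n with hu'
  set p' := ((sg n (dq n Q) : ℂ)⁻¹ * (1 - mlt (sg n (dq n Q)))) • (qc n (dq n Q) ᵥ* M') with hp'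
  obtain ⟨f1, f2⟩ := mon_form hn hσ hMiM
  obtain ⟨f1', -⟩ := mon_form hn hσ' hMiM'
  have m1 := mono_oneS hσ0 hBB hKg (Y := Yf A (Hc n Q)) hMMi (fun x hx hx1 => hconn x (real_mem_Lens hx hx1)) 1
  have m2 := mono_oneS hσ0 hBB hKg (Y := Yf A (Hc n Q)) hMMi (fun x hx hx1 => hconn x (real_mem_Lens hx hx1)) (-1)
  rw [f1] at m1
  rw [f2] at m2
  have hpu : p ⬝ᵥ u = 1 - lam := by
    rw [hp, smul_dotProduct, hu, dotProduct_mulVec, vecMul_vecMul, hMMi, vecMul_one, qc_uc hn, smul_eq_mul]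
    field_simp
  have hune : u ≠ 0 := by
    intro h0
    rw [h0, dotProduct_zero] at hpu
    exact hl1 hpu.symm
  have hJd : J.det ≠ 0 := by
    have h4 : (cm (Jm n Q)).det = algebraMap ℚ ℂ (Jm n Q).det := (RingHom.map_det _ _).symm
    rw [hJ, h4]
    exact (map_ne_zero _).2 (Jm_detS h)
  -- the row vector
  have hpe : p ⬝ᵥ ec n ≠ 0 := by
    rw [hp, smul_dotProduct, ← dotProduct_mulVec, smul_eq_mul]
    exact mul_ne_zero (mul_ne_zero (inv_ne_zero hσ0) hl1) (row_ne h.pos hKg hconn)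
  have hpe' : p' ⬝ᵥ ec n ≠ 0 := by
    rw [hp', smul_dotProduct, ← dotProduct_mulVec, smul_eq_mul]
    exact mul_ne_zero (mul_ne_zero (inv_ne_zero hσ0') (mlt_ne_one hσ')) (row_ne h.dual hKg' hconn')
  -- the pairing of the two systems on the real segment
  have hXY : ∀ x : ℝ, 0 < x → x < 1 → (Yf A (Hc n (dq n Q)) (x : ℂ)).transpose * J * Yf A (Hc n Q) (x : ℂ) = J := by
    intro x hx hx1
    have h1 := formD_real h hx hx1
    have i1 := E_isom hAn hAJ (Complex.log (x : ℂ))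
    unfold Yf
    rw [transpose_mul]
    calc _ = (E A (Complex.log (x : ℂ))).transpose * ((Hf (Hc n (dq n Q)) (x : ℂ)).transpose * J *
          Hf (Hc n Q) (x : ℂ)) * E A (Complex.log (x : ℂ)) := by simp only [Matrix.mul_assoc]
      _ = J := by rw [h1, i1]
  -- its continuation
  have hjoint : (1 - vecMulVec u' p').transpose * J * (1 - vecMulVec u p) = J := by
    rw [← f1, ← f1']
    set F : ℂ → Matrix (Fin n) (Fin n) ℂ := fun s =>
      (Hf K' (Complex.exp s) * PS (sg n (dq n Q)) (-cm (Bm n (dq n Q))) s * M').transpose * J *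
        (Hf K (Complex.exp s) * PS (sg n Q) (-cm (Bm n Q)) s * M) - J with hF
    have hFan : ∀ i j, AnalyticOnNhd ℂ (fun s => F s i j) HP := by
      have hHan : ∀ (K : ℕ → Matrix (Fin n) (Fin n) ℂ), (∀ i j, PG fun k => K k i j) → ∀ i j,
          AnalyticOnNhd ℂ (fun s => Hf K (Complex.exp s) i j) HP := by
        intro K hK i j s hs
        have h3 : AnalyticAt ℂ (fun w => Hf K w i j) (Complex.exp s) := Hf_an1 hK i j _ (by
          rw [Metric.mem_ball, dist_zero_right]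
          exact exp_HP hs)
        exact h3.fun_comp analyticAt_cexp
      have hPan : ∀ (σ : ℝ) (N : Matrix (Fin n) (Fin n) ℂ) i j, AnalyticOnNhd ℂ (fun s => PS σ N s i j) HP := by
        intro σ N i j
        unfold PS
        simp only [Matrix.add_apply, Matrix.smul_apply, smul_eq_mul]
        refine analyticOnNhd_const.add (AnalyticOnNhd.mul (analyticOnNhd_const.mul (analyticOnNhd_const.sub ?_))
          analyticOnNhd_const)
        intro s _
        exact (analyticAt_cexp).fun_comp (analyticAt_const.mul analyticAt_id)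
      have hmul : ∀ {P R : ℂ → Matrix (Fin n) (Fin n) ℂ}, (∀ i j, AnalyticOnNhd ℂ (fun s => P s i j) HP) →
          (∀ i j, AnalyticOnNhd ℂ (fun s => R s i j) HP) → ∀ i j, AnalyticOnNhd ℂ (fun s => (P s * R s) i j) HP := by
        intro P R hP hR i j
        simp only [Matrix.mul_apply]
        exact Finset.analyticOnNhd_fun_sum _ fun l _ => (hP i l).mul (hR l j)
      intro i j
      rw [hF]
      simp only [Matrix.sub_apply]
      refine AnalyticOnNhd.sub ?_ analyticOnNhd_const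
      refine hmul (P := fun s => (Hf K' (Complex.exp s) * PS (sg n (dq n Q)) (-cm (Bm n (dq n Q))) s * M').transpose * J)
        (hmul (R := fun _ => J) (fun i j => ?_) (fun _ _ => analyticOnNhd_const))
        (hmul (R := fun _ => M) (hmul (hHan K hKg) (hPan _ _)) (fun _ _ => analyticOnNhd_const)) i j
      simp only [Matrix.transpose_apply]
      exact hmul (R := fun _ => M') (hmul (hHan K' hKg') (hPan _ _)) (fun _ _ => analyticOnNhd_const) j i
    have hFr : ∀ r : ℝ, r < 0 → F (r : ℂ) = 0 := by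
      intro r hr
      have e1 : Real.exp r < 1 := Real.exp_lt_one_iff.2 hr
      have e2 : 0 < Real.exp r := Real.exp_pos r
      have h3 := hXY (1 - Real.exp r) (by linarith) (by linarith)
      rw [hconn _ (real_mem_Lens (by linarith) (by linarith)), hconn' _ (real_mem_Lens (by linarith) (by linarith))] at h3
      push_cast at h3
      rw [sub_sub_cancel] at h3
      unfold ZS at h3
      have e3 : Complex.log (Complex.exp (r : ℂ)) = r := by
        rw [← Complex.ofReal_exp, ← Complex.ofReal_log e2.le, Real.log_exp]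
      rw [e3] at h3
      rw [hF]
      simp only
      rw [h3, sub_self]
    have hF1 : ∀ s ∈ HP, F s = 0 := by
      intro s hs
      ext i j
      exact HP_zero (hFan i j) (fun r hr => by rw [hFr r hr]; rfl) hs
    have hs0 : ((-1 : ℝ) : ℂ) ∈ HP := by
      show ((-1 : ℝ) : ℂ).re < 0
      rw [Complex.ofReal_re]
      norm_num
    have hs1 : ((-1 : ℝ) : ℂ) + ((1 : ℤ) : ℂ) * (2 * Real.pi * Complex.I) ∈ HP := by
      show (((-1 : ℝ) : ℂ) + ((1 : ℤ) : ℂ) * (2 * Real.pi * Complex.I)).re < 0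
      rw [Complex.add_re, Complex.ofReal_re]
      simp
    have g0 := sub_eq_zero.1 (hF1 _ hs0)
    have g1 := sub_eq_zero.1 (hF1 _ hs1)
    rw [Complex.exp_add, Complex.exp_int_mul_two_pi_mul_I, mul_one, PS_add hσ0 hBB, PS_add hσ0' hBB'] at g1
    set a := Hf K (Complex.exp ((-1 : ℝ) : ℂ)) * PS (sg n Q) (-cm (Bm n Q)) ((-1 : ℝ) : ℂ) with ha
    set a' := Hf K' (Complex.exp ((-1 : ℝ) : ℂ)) * PS (sg n (dq n Q)) (-cm (Bm n (dq n Q))) ((-1 : ℝ) : ℂ) with ha'
    set T := PS (sg n Q) (-cm (Bm n Q)) (((1 : ℤ) : ℂ) * (2 * Real.pi * Complex.I)) with hT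
    set T' := PS (sg n (dq n Q)) (-cm (Bm n (dq n Q))) (((1 : ℤ) : ℂ) * (2 * Real.pi * Complex.I)) with hT'
    have r1 : Hf K (Complex.exp ((-1 : ℝ) : ℂ)) * (PS (sg n Q) (-cm (Bm n Q)) ((-1 : ℝ) : ℂ) * T) * M = a * T * M := by
      rw [ha, ← Matrix.mul_assoc]
    have r1' : Hf K' (Complex.exp ((-1 : ℝ) : ℂ)) *
        (PS (sg n (dq n Q)) (-cm (Bm n (dq n Q))) ((-1 : ℝ) : ℂ) * T') * M' = a' * T' * M' := by
      rw [ha', ← Matrix.mul_assoc]
    rw [r1, r1'] at g1
    have g2 : a * T * M = a * M * (Mi * T * M) := by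
      calc a * T * M = a * (M * Mi) * T * M := by rw [hMMi, mul_one]
        _ = _ := by simp only [Matrix.mul_assoc]
    have g2' : a' * T' * M' = a' * M' * (Mi' * T' * M') := by
      calc a' * T' * M' = a' * (M' * Mi') * T' * M' := by rw [hMMi', mul_one]
        _ = _ := by simp only [Matrix.mul_assoc]
    rw [g2, g2', transpose_mul] at g1
    calc (Mi' * T' * M').transpose * J * (Mi * T * M)
        = (Mi' * T' * M').transpose * ((a' * M').transpose * J * (a * M)) * (Mi * T * M) := by rw [g0]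
      _ = (Mi' * T' * M').transpose * (a' * M').transpose * J * (a * M * (Mi * T * M)) := by
        simp only [Matrix.mul_assoc]
      _ = J := g1
  -- the column vector
  have hlast : u ⟨n - 1, by omega⟩ ≠ 0 := by
    intro h0
    have home : om J (ec n) u = 0 := by
      unfold om dotProduct
      refine Finset.sum_eq_zero fun i _ => ?_
      by_cases hi : (i : ℕ) = 0
      · have : (J *ᵥ u) i = 0 := by
          rw [mv_apply]
          refine Finset.sum_eq_zero fun j _ => ?_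
          by_cases hj : (j : ℕ) + 1 = n
          · have : j = ⟨n - 1, by omega⟩ := Fin.ext (by simp only; omega)
            rw [this, h0, mul_zero]
          · rw [hJ, cm_apply]
            unfold Jm
            rw [Matrix.of_apply, if_neg (by have := j.2; omega)]
            simp
        rw [this, mul_zero]
      · unfold ec
        rw [if_neg hi, zero_mul]
    have hbil : ∀ x, om J ((1 - vecMulVec u' p') *ᵥ x) ((1 - vecMulVec u p) *ᵥ u) = om J x u := by
      intro x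
      rw [om_mulVec, mulVec_mulVec, hjoint]
      rfl
    have hgu : (1 - vecMulVec u p) *ᵥ u = lam • u := by
      rw [sub_mulVec, one_mulVec, vm_mulVec, hpu, sub_smul, one_smul]
      abel
    have hgx : ∀ x, (1 - vecMulVec u' p') *ᵥ x = x - (p' ⬝ᵥ x) • u' := by
      intro x
      rw [sub_mulVec, one_mulVec, vm_mulVec]
    have h3 : ∀ x, lam * (om J x u - (p' ⬝ᵥ x) * om J u' u) = om J x u := by
      intro x
      have := hbil x
      rw [hgu, hgx, om_smul, om_sub_left, om_smul_left] at this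
      exact this
    have h4 : om J u' u = 0 := by
      have h5 := h3 (ec n)
      rw [home, zero_sub, mul_neg, neg_eq_zero] at h5
      rcases mul_eq_zero.1 h5 with h6 | h6
      · exact absurd h6 hl0
      · exact (mul_eq_zero.1 h6).resolve_left hpe'
    have h5 : ∀ x, om J x u = 0 := by
      intro x
      have h6 := h3 x
      rw [h4, mul_zero, sub_zero] at h6
      have h7 : (1 - lam) * om J x u = 0 := by linear_combination -h6
      exact (mul_eq_zero.1 h7).resolve_left hl1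
    apply hune
    have h6 : J *ᵥ u = 0 := by
      funext i
      have := h5 (Pi.single i 1)
      unfold om at this
      rwa [single_one_dotProduct] at this
    have h7 := congrArg (fun x => J⁻¹ *ᵥ x) h6
    simp only [mulVec_mulVec, nonsing_inv_mul _ (Ne.isUnit hJd), one_mulVec, mulVec_zero] at h7
    exact h7
  have hcu : (A ^ (n - 1)) *ᵥ u ≠ 0 := by
    rw [hA, Ac_last hn]
    intro h0
    rcases smul_eq_zero.1 h0 with h1 | h1
    · exact hlast h1
    · have h2 := congrFun h1 ⟨0, by omega⟩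
      unfold ec at h2
      rw [if_pos rfl] at h2
      exact one_ne_zero h2
  have hcp : p ᵥ* (A ^ (n - 1)) ≠ 0 := by
    intro h0
    apply hpe
    have h1 := congrArg (fun r => r ⬝ᵥ uc n) h0
    simp only [zero_dotProduct] at h1
    rw [← dotProduct_mulVec, hA, Ac_last hn, dotProduct_smul] at h1
    unfold uc at h1
    rw [if_pos (by simp only; omega), one_smul] at h1
    exact h1
  refine ⟨fun g hg => ?_, 1 - vecMulVec u p, 1 + lam⁻¹ • vecMulVec u p, hh' hpu hl0, ?_, m1, m2⟩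
  · exact sl_all hpu hl0 hl2 hl1 hAn hcu hcp (fun c g hg => conj_E hAn (HO.sol_c h.pos) c g hg) m1 m2 (Gal_Z _) g hg
  · have h3 := Matrix.det_one_add_replicateCol_mul_replicateRow (ι := Unit) (-u) p
    rw [dotProduct_neg, hpu] at h3
    have h4 : (1 : Matrix (Fin n) (Fin n) ℂ) - vecMulVec u p = 1 + replicateCol Unit (-u) * replicateRow Unit p := by
      rw [← vecMulVec_eq, neg_vecMulVec, sub_eq_add_neg]
    rw [h4, h3]
    ring

end Pool.Agent.L0h14.HO
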