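import Mathlib
import Pool.Agent.L0h14.HO.InvS

/-!
# Hypergeometric systems: the determinant of the solution
-/

set_option autoImplicit false

open Filter Topology Matrix

namespace Pool.Agent.L0h14.HO

open Pool.Agent.Y119.HY hiding sol_c a0_ne ratio sing Bm_mul step_q

variable {n : ℕ} {Q : Polynomial ℚ}

/-- the determinant as a polynomial -/
noncomputable def detp (n : ℕ) : MvPolynomial (Fin n × Fin n) ℂ := (Matrix.of fun i j => MvPolynomial.X (i, j)).det

lemma pe_detp (g : Matrix (Fin n) (Fin n) ℂ) : pe (detp n) g = g.det := by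
  unfold pe detp
  rw [RingHom.map_det]
  congr 1
  ext i j
  simp

lemma dl_detp (X : Matrix (Fin n) (Fin n) ℂ) : dl (detp n) 1 X = X.trace := by
  have h3 : HD (fun t : ℂ => 1 + t • X) X 0 := by
    intro i j
    have : HasDerivAt (fun t : ℂ => (1 : Matrix (Fin n) (Fin n) ℂ) i j + t * X i j) (0 + 1 * X i j) 0 :=
      (hasDerivAt_const _ _).add ((hasDerivAt_id _).mul_const _)
    simpa using this
  have h4 := pe_HD (detp n) h3
  simp only [pe_detp, zero_smul, add_zero] at h4
  have h5 : HasDerivAt (fun t : ℂ => (1 + t • X).det) X.trace 0 := by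
    have h6 : (fun t : ℂ => (1 + t • X).det) = fun t => 1 + X.trace * t +
        (Matrix.det (1 + (Polynomial.X : Polynomial ℂ) • X.map Polynomial.C)).divX.divX.eval t * t ^ 2 := by
      funext t
      exact Matrix.det_one_add_smul t X
    rw [h6]
    set q := (Matrix.det (1 + (Polynomial.X : Polynomial ℂ) • X.map Polynomial.C)).divX.divX
    have h7 := (((hasDerivAt_id (0 : ℂ)).const_mul X.trace).const_add 1).add ((q.hasDerivAt 0).mul (hasDerivAt_pow 2 (0 : ℂ)))
    refine h7.congr_deriv ?_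
    simp
  exact h4.unique h5

/-- the derivative of the determinant -/
lemma det_HD {Y : ℂ → Matrix (Fin n) (Fin n) ℂ} {G : Matrix (Fin n) (Fin n) ℂ} {z : ℂ} (h : HD Y (G * Y z) z)
    (hd : (Y z).det ≠ 0) : HasDerivAt (fun w => (Y w).det) (G.trace * (Y z).det) z := by
  have hu : IsUnit (Y z).det := Ne.isUnit hd
  have h1 : HD (fun w => Y w * (Y z)⁻¹) G z := by
    refine (h.mul (HD.const (Y z)⁻¹ z)).congr ?_
    rw [mul_zero, add_zero, Matrix.mul_assoc, mul_nonsing_inv _ hu, mul_one]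
  have h2 := pe_HD (detp n) h1
  simp only [pe_detp, mul_nonsing_inv _ hu, dl_detp] at h2
  have h3 := h2.mul_const (Y z).det
  refine h3.congr_of_eventuallyEq (Eventually.of_forall fun w => ?_)
  simp only
  rw [det_mul, mul_assoc, ← det_mul, nonsing_inv_mul _ hu, det_one, mul_one]

lemma trace_Gm (hn : 2 ≤ n) (z : ℂ) : (Gm (cm (Am n)) (cm (Bm n Q)) z).trace = (1 / (1 - z)) * (sg n Q : ℂ) := by
  unfold Gm
  rw [trace_add, trace_smul, trace_smul, Bc_eq, trace_vecMulVec, dotProduct_comm, qc_uc hn]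
  have h1 : (cm (Am n)).trace = 0 := by
    unfold Matrix.trace
    refine Finset.sum_eq_zero fun i _ => ?_
    rw [Matrix.diag_apply, cm_apply]
    unfold Am
    rw [Matrix.of_apply, if_neg (by omega)]
    simp
  rw [h1, smul_zero, zero_add, smul_eq_mul]

lemma det_E (s : ℂ) : (E (cm (Am n)) s).det = 1 := by
  have he : ∀ i j : Fin n, E (cm (Am n)) s i j = ∑ l ∈ Finset.range n, if (j : ℕ) = i + l then s ^ l / (l.factorial : ℂ) else 0 := by
    intro i j
    unfold E
    rw [Matrix.sum_apply]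
    refine Finset.sum_congr rfl fun l _ => ?_
    rw [Matrix.smul_apply, ← cm_pow, cm_apply, Am_pow, smul_eq_mul]
    split_ifs <;> simp
  rw [Matrix.det_of_isUpperTriangular]
  · refine Finset.prod_eq_one fun i _ => ?_
    rw [he, Finset.sum_eq_single 0]
    · simp
    · intro l _ hl
      rw [if_neg (by omega)]
    · intro h
      exact absurd (Finset.mem_range.2 (by have := i.2; omega)) h
  · intro i j hij
    have hij' : (j : ℕ) < i := hij
    rw [he]
    refine Finset.sum_eq_zero fun l _ => ?_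
    rw [if_neg (by omega)]

/-- **The determinant of the solution.** -/
theorem det_Yf (h : QS n Q) {x : ℝ} (hx : 0 < x) (hx1 : x < 1) :
    (Yf (cm (Am n)) (Hc n Q) (x : ℂ)).det = (((1 - x) ^ (-sg n Q) : ℝ) : ℂ) := by
  have hn := h.pos.two
  have hAn : cm (Am n) ^ n = 0 := Ac_nil
  have hH : Sol (cm (Am n)) (cm (Bm n Q)) (Hc n Q) := HO.sol_c h.pos
  have hdH : ∀ y : ℝ, 0 < y → y < 1 → (Hf (Hc n Q) (y : ℂ)).det ≠ 0 := by
    intro y hy hy1 h0
    have h1 := congrArg Matrix.det (formD_real h hy hy1)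
    rw [det_mul, h0, mul_zero] at h1
    have h4 : (cm (Jm n Q)).det = algebraMap ℚ ℂ (Jm n Q).det := (RingHom.map_det _ _).symm
    rw [h4] at h1
    exact (map_ne_zero _).2 (Jm_detS h) h1.symm
  have hdY : ∀ y : ℝ, (Yf (cm (Am n)) (Hc n Q) (y : ℂ)).det = (Hf (Hc n Q) (y : ℂ)).det := by
    intro y
    unfold Yf
    rw [det_mul, det_E, mul_one]
  set F : ℝ → ℂ := fun y => (Yf (cm (Am n)) (Hc n Q) (y : ℂ)).det * (((1 - y) ^ (sg n Q) : ℝ) : ℂ) with hF
  have hder : ∀ y ∈ Set.Ioo (0 : ℝ) 1, HasDerivAt F 0 y := by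
    intro y hy
    have h1 := det_HD (Yf_ode hH hAn (mem_Lens.1 (real_mem_Lens hy.1 hy.2)).1 (slit_Lens (real_mem_Lens hy.1 hy.2)))
      (by rw [hdY]; exact hdH y hy.1 hy.2)
    have h2 := h1.comp_ofReal
    have hy' : (0 : ℝ) < 1 - y := by linarith [hy.2]
    have h3 : HasDerivAt (fun y : ℝ => (1 - y) ^ (sg n Q)) (-1 * sg n Q * (1 - y) ^ (sg n Q - 1)) y := by
      have h4 : HasDerivAt (fun y : ℝ => 1 - y) (-1) y := by simpa using (hasDerivAt_id y).const_sub 1
      exact h4.rpow_const (Or.inl hy'.ne')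
    have h5 := h2.mul h3.ofReal_comp
    refine h5.congr_deriv ?_
    rw [trace_Gm hn]
    have h6 : (1 - y) ^ (sg n Q) = (1 - y) ^ (sg n Q - 1) * (1 - y) := by
      rw [Real.rpow_sub_one hy'.ne']
      field_simp
    have h7 : (1 - (y : ℂ)) ≠ 0 := by
      have : (1 - (y : ℂ)) = ((1 - y : ℝ) : ℂ) := by push_cast; rfl
      rw [this]
      exact Complex.ofReal_ne_zero.2 hy'.ne'
    rw [h6]
    push_cast
    field_simp
    ring
  have hconst : ∀ y ∈ Set.Ioo (0 : ℝ) 1, ∀ w ∈ Set.Ioo (0 : ℝ) 1, F y = F w := by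
    intro y hy w hw
    exact isOpen_Ioo.is_const_of_deriv_eq_zero isPreconnected_Ioo
      (fun x hx => (hder x hx).differentiableAt.differentiableWithinAt) (fun x hx => (hder x hx).deriv) hy hw
  have hlim : Tendsto F (𝓝[>] 0) (𝓝 1) := by
    have h1 : ContinuousAt (fun y : ℝ => (Hf (Hc n Q) (y : ℂ)).det * (((1 - y) ^ (sg n Q) : ℝ) : ℂ)) 0 := by
      refine ContinuousAt.mul ?_ ?_
      · have hHg := hH.growth hAn
        simp only [Matrix.det_apply]
        refine tendsto_finsetSum _ fun σ _ => ?_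
        refine Tendsto.const_smul ?_ _
        refine tendsto_finsetProd _ fun i _ => ?_
        have h1 : ContinuousAt (fun z : ℂ => Hf (Hc n Q) z (σ i) i) ((0 : ℝ) : ℂ) :=
          (Hf_an1 hHg _ _ _ (by simp)).continuousAt
        exact h1.comp (Complex.continuous_ofReal.continuousAt)
      · refine Complex.continuous_ofReal.continuousAt.comp ?_
        refine ContinuousAt.rpow_const (continuousAt_const.sub continuousAt_id) (Or.inl ?_)
        norm_num
    have h2 : (Hf (Hc n Q) ((0 : ℝ) : ℂ)).det * (((1 - (0 : ℝ)) ^ (sg n Q) : ℝ) : ℂ) = 1 := by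
      rw [Complex.ofReal_zero, Hf_zero hH, det_one, sub_zero, Real.one_rpow]
      simp
    have h3 := h1.tendsto
    rw [h2] at h3
    refine (h3.mono_left nhdsWithin_le_nhds).congr fun y => ?_
    rw [hF]
    simp only
    rw [hdY]
  have hval : F x = 1 := by
    refine tendsto_nhds_unique ?_ hlim
    refine tendsto_const_nhds.congr' ?_
    filter_upwards [Ioo_mem_nhdsGT (show (0 : ℝ) < 1 by norm_num)] with y hy
    exact hconst x ⟨hx, hx1⟩ y hy
  have hx' : (0 : ℝ) < 1 - x := by linarith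
  rw [Real.rpow_neg hx'.le, Complex.ofReal_inv]
  refine eq_inv_of_mul_eq_one_left hval

end Pool.Agent.L0h14.HO
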