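import Mathlib
import Pool.Agent.L0h14.HO.DetF

/-!
# Tuples of hypergeometric families of symplectic, orthogonal and linear type
-/

set_option autoImplicit false

open PowerSeries Pool.Agent.Y113 Pool.Agent.Y120.GF Pool.Agent.Y120.GH

namespace Pool.Agent.L0h14.HO

open Pool.Agent.Y119.HY (QD Am Jm cm Ep E Ep_eval E_neg Hf Hc Yf Vr Rel Gal E_add E_zero E_mul_neg E_isom QB)
open Pool.Agent.Y119.HZ hiding ode_Hp ode_int gsys_Hp ode_A2 Phi_ode qu_hf hfam_hf Cv_Hp ev_aeval rel_inv relI_vanish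

/-- the properties of a family which are used -/
structure HM (n : ℕ) (Q : Polynomial ℚ) (G : Submonoid (Matrix (Fin n) (Fin n) ℂ)) : Prop where
  qg : QG n Q
  unip : ∀ s : ℂ, E (cm (Am n)) s ∈ G
  inv : ∀ g ∈ G, g ∈ Gal (Yf (cm (Am n)) (Hc n Q))
  sdc : ∀ i j, SDc (Hp n Q i j)
  wex : ∃ W : Matrix (Fin n) (Fin n) ℚ⟦X⟧, Hp n Q * W = 1 ∧ ∀ i j, SDc (W i j)

/-- the isometries of a form -/
def isoM {n : ℕ} (J : Matrix (Fin n) (Fin n) ℂ) : Submonoid (Matrix (Fin n) (Fin n) ℂ) where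
  carrier := {g | g.transpose * J * g = J}
  mul_mem' := by
    intro a b ha hb
    exact isom_mul ha hb
  one_mem' := by
    show (1 : Matrix (Fin n) (Fin n) ℂ).transpose * J * 1 = J
    rw [Matrix.transpose_one, one_mul, mul_one]

/-- the matrices whose determinant is a root of unity of order `d` -/
def detM (n d : ℕ) : Submonoid (Matrix (Fin n) (Fin n) ℂ) where
  carrier := {g | g.det ^ d = 1}
  mul_mem' := by
    intro a b ha hb
    show (a * b).det ^ d = 1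
    have ha' : a.det ^ d = 1 := ha
    have hb' : b.det ^ d = 1 := hb
    rw [Matrix.det_mul, mul_pow, ha', hb', one_mul]
  one_mem' := by
    show (1 : Matrix (Fin n) (Fin n) ℂ).det ^ d = 1
    rw [Matrix.det_one, one_pow]

lemma HM.ofHG {n : ℕ} {Q : Polynomial ℚ} {J : Matrix (Fin n) (Fin n) ℚ} (h : HG n Q J) : HM n Q (isoM (cm J)) where
  qg := h.qg
  unip := fun s => E_isom Pool.Agent.Y119.HY.Ac_nil h.relc s
  inv := h.inv
  sdc := h.sdc
  wex := h.wex

/-- the family of symplectic type -/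
theorem HM.sym {n : ℕ} {α : Fin n → ℚ} (h : QD n (QP α)) (hα : ∀ i, ∀ l : ℕ, (l : ℚ) + α i ≠ 0) :
    HM n (QP α) (isoM (cm (Jm n (QP α)))) := by
  have hs : ∀ i j, SDc (Hp n (QP α) i j) := fun i j => sdc_hpsP hα (Fintype.card_fin n) (QG.ofQD h) i j
  exact HM.ofHG
    { qg := QG.ofQD h
      det := Pool.Agent.Y119.HY.Jm_det h
      rel := Pool.Agent.Y119.HY.Jm_rel
      inv := Pool.Agent.Y119.HY.hyp_invar h
      sdc := hs
      wex := ⟨_, mul_Wp h, SDc_Wp hs⟩ }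

/-- the family of orthogonal type -/
theorem HM.ort {n : ℕ} {α : Fin n → ℚ} {R : Polynomial ℚ} (h : QO n R) (hR : QP α = PO R)
    (hα : ∀ i, ∀ l : ℕ, (l : ℚ) + α i ≠ 0) : HM n (QP α) (isoM (cm (Jm n R))) := by
  have hq : QG n (QP α) := by rw [hR]; exact h.qg
  have hs : ∀ i j, SDc (Hp n (QP α) i j) := fun i j => sdc_hpsP hα (Fintype.card_fin n) hq i j
  rw [hR] at hs ⊢
  exact HM.ofHG
    { qg := h.qg
      det := J0_det h
      rel := Pool.Agent.Y119.HY.Jm_rel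
      inv := odd_invar h
      sdc := hs
      wex := ⟨_, mul_W1 h, SDc_W1 hs⟩ }

lemma dq_QP {n : ℕ} (α : Fin n → ℚ) : dq n (QP α) = QP fun i => -α i := by
  unfold dq QP
  rw [Polynomial.prod_comp]
  have h1 : ∀ i : Fin n, (Polynomial.X + Polynomial.C (α i)).comp (-Polynomial.X) =
      Polynomial.C (-1) * (Polynomial.X + Polynomial.C (-α i)) := by
    intro i
    rw [Polynomial.add_comp, Polynomial.X_comp, Polynomial.C_comp, map_neg, map_neg, map_one]
    ring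
  simp only [h1]
  rw [Finset.prod_mul_distrib, Finset.prod_const, Finset.card_univ, Fintype.card_fin, ← mul_assoc, map_pow, ← mul_pow,
    ← map_mul]
  norm_num

lemma QP_monic {n : ℕ} (α : Fin n → ℚ) : (QP α).Monic := Polynomial.monic_prod_of_monic _ _ fun i _ => Polynomial.monic_X_add_C _

lemma QP_deg {n : ℕ} (α : Fin n → ℚ) : (QP α).natDegree = n := by
  unfold QP
  rw [Polynomial.natDegree_prod_of_monic _ _ fun i _ => Polynomial.monic_X_add_C _]
  simp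

lemma QP_eval {n : ℕ} (α : Fin n → ℚ) (x : ℚ) : (QP α).eval x = ∏ i, (x + α i) := by
  unfold QP
  rw [Polynomial.eval_prod]
  refine Finset.prod_congr rfl fun i _ => ?_
  rw [Polynomial.eval_add, Polynomial.eval_X, Polynomial.eval_C]

lemma QP_QS {n : ℕ} (hn : 2 ≤ n) {α : Fin n → ℚ} (hα : ∀ i, ∀ a : ℤ, α i ≠ a) : QS n (QP α) where
  pos :=
    { two := hn
      monic := QP_monic α
      deg := QP_deg α
      ne := by
        intro l
        rw [QP_eval]
        refine Finset.prod_ne_zero_iff.2 fun i _ => fun h => hα i (-(l : ℤ)) ?_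
        push_cast
        linear_combination h }
  neg := by
    intro l
    rw [QP_eval]
    refine Finset.prod_ne_zero_iff.2 fun i _ => fun h => hα i (l : ℤ) ?_
    push_cast
    linear_combination h

/-- the sum of the exponents -/
lemma QP_coeff {n : ℕ} (α : Fin n → ℚ) (hn : 1 ≤ n) : (QP α).coeff (n - 1) = ∑ i, α i := by
  have h1 : (QP α).nextCoeff = ∑ i, α i := by
    unfold QP
    rw [Polynomial.Monic.nextCoeff_prod _ _ fun i _ => Polynomial.monic_X_add_C _]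
    exact Finset.sum_congr rfl fun i _ => Polynomial.nextCoeff_X_add_C _
  rw [Polynomial.nextCoeff_of_natDegree_pos (by rw [QP_deg]; omega), QP_deg] at h1
  exact h1

/-- the family of linear type -/
theorem HM.lin {n : ℕ} (hn : 2 ≤ n) {α : Fin n → ℚ} (hα : ∀ i, ∀ a : ℤ, α i ≠ a) (h2 : ∀ a : ℤ, 2 * ∑ i, α i ≠ a) :
    HM n (QP α) (detM n (∑ i, α i).den) := by
  have hQS := QP_QS hn hα
  have hα' : ∀ i, ∀ l : ℕ, (l : ℚ) + α i ≠ 0 := by
    intro i l h
    refine hα i (-(l : ℤ)) ?_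
    push_cast
    linear_combination h
  have hα'' : ∀ i, ∀ l : ℕ, (l : ℚ) + -α i ≠ 0 := by
    intro i l h
    refine hα i (l : ℤ) ?_
    push_cast
    linear_combination -h
  have hs : ∀ i j, SDc (Hp n (QP α) i j) := fun i j => sdc_hpsP hα' (Fintype.card_fin n) hQS.pos i j
  have hs' : ∀ i j, SDc (Hp n (dq n (QP α)) i j) := by
    have hd := hQS.dual
    rw [dq_QP] at hd ⊢
    exact fun i j => sdc_hpsP hα'' (Fintype.card_fin n) hd i j
  have hsg : sg n (QP α) = ((∑ i, α i : ℚ) : ℝ) := by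
    unfold sg
    rw [QP_coeff α (by omega)]
  have h2' : ∀ a : ℤ, 2 * sg n (QP α) ≠ a := by
    intro a ha
    refine h2 a ?_
    rw [hsg] at ha
    exact_mod_cast ha
  obtain ⟨hsl, m, m', hmm, hmd, hm, hm'⟩ := lin_invar hQS h2'
  refine ⟨hQS.pos, fun s => ?_, fun g hg => ?_, hs, ⟨_, mul_WD hQS, SDc_WD hs'⟩⟩
  · show (E (cm (Am n)) s).det ^ _ = 1
    rw [det_E, one_pow]
  · have hg' : g.det ^ (∑ i, α i).den = 1 := hg
    have hprim : IsPrimitiveRoot (mlt (sg n (QP α))) (∑ i, α i).den := by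
      have h3 := Complex.isPrimitiveRoot_exp_rat (-(∑ i, α i))
      rw [Rat.neg_den] at h3
      have h4 : mlt (sg n (QP α)) = Complex.exp (2 * Real.pi * Complex.I * ((-(∑ i, α i) : ℚ) : ℂ)) := by
        unfold mlt
        rw [hsg]
        congr 1
        push_cast
        ring
      rw [h4]
      exact h3
    haveI : NeZero (∑ i, α i).den := ⟨(∑ i, α i).den_nz⟩
    obtain ⟨j, -, hj⟩ := hprim.eq_pow_of_pow_eq_one hg'
    have hm0 : m.det ≠ 0 := by
      rw [hmd]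
      exact mlt_ne_zero _
    have hmd' : m'.det * m.det = 1 := by
      rw [← Matrix.det_mul, mul_eq_one_comm.1 hmm, Matrix.det_one]
    have h5 : (g * m' ^ j).det = 1 := by
      rw [Matrix.det_mul, Matrix.det_pow, ← hj, ← hmd, ← mul_pow, mul_comm, hmd', one_pow]
    have h6 := (Gal (Yf (cm (Am n)) (Hc n (QP α)))).mul_mem (hsl _ h5) (Submonoid.pow_mem _ hm j)
    have h7 : g * m' ^ j * m ^ j = g := by
      have hc : Commute m' m := by
        show m' * m = m * m'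
        rw [hmm, mul_eq_one_comm.1 hmm]
      rw [mul_assoc, ← hc.mul_pow, mul_eq_one_comm.1 hmm, one_pow, mul_one]
    rw [h7] at h6
    exact h6

section one

variable {n : ℕ} {Q : Polynomial ℚ} {G : Submonoid (Matrix (Fin n) (Fin n) ℂ)}

/-- **invariance of the relations between the entries of the holomorphic part** -/
theorem rel_invM (hQ : HM n Q G) {R : MvPolynomial (Fin (n * n)) (Polynomial ℚ)} (hR : MvPolynomial.aeval (hf n Q) R = 0)
    {x : ℝ} (hx : 0 < x) (hx1 : x < 1) {κ : Matrix (Fin n) (Fin n) ℂ} (hκ : κ ∈ G) :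
    MvPolynomial.eval₂ (evq (x : ℂ)) (fun j => (Hf (Hc n Q) (x : ℂ) * κ) (ix n j).1 (ix n j).2) R = 0 := by
  set N := cm (Am n) with hNd
  have hN : N ^ n = 0 := Pool.Agent.Y119.HY.Ac_nil
  -- the relation
  have hrel : PR N R ∈ Rel (Yf N (Hc n Q)) := by
    intro y hy hy1
    rw [ev_PR]
    have e1 : Yf N (Hc n Q) (y : ℂ) * E N (-Complex.log y) = Hf (Hc n Q) (y : ℂ) := by
      unfold Yf
      rw [Matrix.mul_assoc, E_mul_neg hN, mul_one]
    rw [e1]
    have hy' : 1 < 1 / y := by rw [lt_div_iff₀ hy]; linarith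
    have h1 := (ev_aeval hQ.qg hy' R).2
    rw [hR] at h1
    have h2 : ev (1 / y) (0 : ℚ⟦X⟧) = 0 := by
      unfold ev
      simp
    rw [h2, Complex.ofReal_zero, one_div_one_div] at h1
    have h3 : (fun j => ((ev (1 / y) (hf n Q j) : ℝ) : ℂ)) = fun j => Hf (Hc n Q) (y : ℂ) (ix n j).1 (ix n j).2 := by
      funext j
      unfold hf
      rw [ev_Hp, one_div_one_div]
    rw [h3] at h1
    exact h1.symm
  set L : ℂ := Complex.log x with hL
  set g : Matrix (Fin n) (Fin n) ℂ := E N (-L) * κ * E N L with hg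
  have hgG : g ∈ G := G.mul_mem (G.mul_mem (hQ.unip _) hκ) (hQ.unip _)
  have h1 := hQ.inv g hgG _ hrel x hx hx1
  rw [ev_PR] at h1
  have e2 : Yf N (Hc n Q) (x : ℂ) * g * E N (-L) = Hf (Hc n Q) (x : ℂ) * κ := by
    unfold Yf
    have e3 : E N L * E N (-L) = 1 := E_mul_neg hN L
    calc Hf (Hc n Q) (x : ℂ) * E N (Complex.log x) * g * E N (-L) =
          Hf (Hc n Q) (x : ℂ) * (E N L * E N (-L)) * κ * (E N L * E N (-L)) := by
            rw [hg]
            simp only [Matrix.mul_assoc]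
            rfl
      _ = _ := by rw [e3, mul_one, mul_one]
  rw [← hL, e2] at h1
  exact h1

end one

variable {k : ℕ} {n : Fin k → ℕ} {Q : Fin k → Polynomial ℚ} {G : ∀ i, Submonoid (Matrix (Fin (n i)) (Fin (n i)) ℂ)}

theorem relI_vanishM (hQ : ∀ i, HM (n i) (Q i) (G i)) {δ : ℕ} {t : Fin k → ℕ} (ht : ∀ i, 2 ≤ t i)
    {κ : ∀ i, Matrix (Fin (n i)) (Fin (n i)) ℂ} (hκ : ∀ i, κ i ∈ G i) (l : Fin k → ℂ)
    {P : MvPolynomial (Vx n) ℂ} (hP : P ∈ relI δ (fun i => hf (n i) (Q i)) t) :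
    MvPolynomial.aeval (pt (fun i j => (Hf (Hc (n i) (Q i)) (((1 / (t i : ℝ) : ℝ)) : ℂ) * κ i) (ix (n i) j).1 (ix (n i) j).2) l) P = 0 := by
  set θ := pt (fun i j => (Hf (Hc (n i) (Q i)) (((1 / (t i : ℝ) : ℝ)) : ℂ) * κ i) (ix (n i) j).1 (ix (n i) j).2) l with hθ
  have h1 : relI δ (fun i => hf (n i) (Q i)) t ≤ RingHom.ker (MvPolynomial.aeval (R := ℂ) θ).toRingHom := by
    unfold relI
    rw [Ideal.span_le]
    rintro _ ⟨i, R, -, hR, rfl⟩
    show (MvPolynomial.aeval θ) (MvPolynomial.rename (fun j => (⟨i, some j⟩ : Vx n)) (MvPolynomial.map (spec (t i)) R)) = 0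
    rw [MvPolynomial.aeval_rename, MvPolynomial.aeval_def, MvPolynomial.eval₂_map]
    have h2 : (algebraMap ℂ ℂ).comp (spec (t i)) = evq (((1 / (t i : ℝ) : ℝ)) : ℂ) := by
      rw [← spec_eq]
      rfl
    rw [h2]
    have h3 : (2 : ℝ) ≤ t i := by exact_mod_cast ht i
    have h4 := rel_invM (hQ i) (R := R) hR (x := 1 / (t i : ℝ)) (by positivity) (by rw [div_lt_one (by linarith)]; linarith)
      (hκ i)
    have h5 : (θ ∘ fun j => (⟨i, some j⟩ : Vx n)) = fun j : Fin (n i * n i) =>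
        (Hf (Hc (n i) (Q i)) (((1 / (t i : ℝ) : ℝ)) : ℂ) * κ i) (ix (n i) j).1 (ix (n i) j).2 := by
      funext j
      rfl
    rw [h5]
    exact h4
  exact h1 hP

/-- **Few exceptional tuples.** -/
theorem tuplesM (k δ D : ℕ) (n : Fin k → ℕ) (Q : Fin k → Polynomial ℚ)
    (G : ∀ i, Submonoid (Matrix (Fin (n i)) (Fin (n i)) ℂ)) (hQ : ∀ i, HM (n i) (Q i) (G i)) :
    ∃ c C : ℝ, 0 < c ∧ 0 ≤ C ∧ ∀ (V : Submodule ℚ ℂ) [Module.Finite ℚ V], Module.finrank ℚ V ≤ D →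
      ∀ Ω : (∀ i, Matrix (Fin (n i)) (Fin (n i)) ℂ), ∀ (x : Fin k → ℕ) (N : ℕ), (∀ i, 1 ≤ x i) → 1 ≤ N →
      ∀ S : Finset (Fin k → ℕ), (∀ t ∈ S, (∀ i, x i < t i ∧ t i ≤ x i + N) ∧ ∃ P : MvPolynomial (Jx n) ℂ,
        P.totalDegree ≤ δ ∧ (∀ s, P.coeff s ∈ V) ∧
        MvPolynomial.aeval (pw (fun i => ((Real.log (t i) : ℝ) : ℂ)) fun i => Yt (n i) (Q i) (t i) * Ω i) P = 0 ∧
        ∃ (l : Fin k → ℂ) (g : ∀ i, Matrix (Fin (n i)) (Fin (n i)) ℂ), (∀ i, g i ∈ G i) ∧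
          MvPolynomial.aeval (pw l fun i => Yt (n i) (Q i) (t i) * g i * Ω i) P ≠ 0) →
      (S.card : ℝ) ≤ C * (N : ℝ) ^ (k - 1) * ∑ i, (1 + N / ((x i : ℝ) + N) ^ c) := by
  classical
  obtain ⟨c, C, hc, hC, hmain⟩ := tuples k (δ * dg n) ((Fintype.card (Option (Ix n))) ^ δ * D) (fun i => n i * n i)
    (fun i => hf (n i) (Q i)) (fun i => by
      obtain ⟨C₁, -, hs, -⟩ := Pool.Agent.Y119.HY.SDc.unif
        (y := fun p : Fin (n i) × Fin (n i) => Hp (n i) (Q i) p.1 p.2) fun p => (hQ i).sdc p.1 p.2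
      exact ⟨C₁, fun j m => hs (ix (n i) j) m⟩) (fun i => by
        obtain ⟨W, hW1, hW2⟩ := (hQ i).wex
        exact hfam_hf (hQ i).qg (hQ i).sdc hW1 hW2 _)
  refine ⟨c, C, hc, hC, ?_⟩
  intro V _ hV Ω x N hx hN S hS
  obtain ⟨hfin, hrank⟩ := Vn_fin Ω V δ
  refine hmain (Vn Ω V δ) (hrank.trans (Nat.mul_le_mul_left _ hV)) x N hN S fun t htS => ?_
  obtain ⟨hbox, P, hPd, hPV, hP0, l, g, hg, hPg⟩ := hS t htS
  refine ⟨hbox, MvPolynomial.aeval (sub' Ω) P, (aeval_MV' Ω hPd hPV).2, (aeval_MV' Ω hPd hPV).1, ?_, ?_⟩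
  · -- the value
    have h1 : valpt (fun i => hf (n i) (Q i)) t =
        pt (fun i j => Hf (Hc (n i) (Q i)) (((1 / (t i : ℝ) : ℝ)) : ℂ) (ix (n i) j).1 (ix (n i) j).2)
          (fun i => ((Real.log (t i) : ℝ) : ℂ)) := by
      unfold valpt
      congr 1
      funext i j
      exact ev_Hp _ _ _
    have h2 : MvPolynomial.aeval (valpt (fun i => hf (n i) (Q i)) t) (MvPolynomial.aeval (sub' Ω) P) =
        MvPolynomial.aeval (fun v => MvPolynomial.aeval (valpt (fun i => hf (n i) (Q i)) t) (sub' Ω v)) P :=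
      MvPolynomial.aeval_bind₁ _ _ _
    rw [h2, h1]
    have h3 := fun v => aeval_sub' Ω (fun i => Hf (Hc (n i) (Q i)) (((1 / (t i : ℝ) : ℝ)) : ℂ)) (fun i => ((Real.log (t i) : ℝ) : ℂ)) v
    simp only [h3]
    exact hP0
  · intro hmem
    apply hPg
    set N' := fun i => cm (Am (n i)) with hN'
    have ht2 : ∀ i, 2 ≤ t i := fun i => by
      have := (hbox i).1
      have := hx i
      omega
    have hN : ∀ i, (N' i) ^ n i = 0 := fun i => Pool.Agent.Y119.HY.Ac_nil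
    let κ : ∀ i, Matrix (Fin (n i)) (Fin (n i)) ℂ := fun i => E (N' i) (-((Real.log (t i) : ℝ) : ℂ)) * g i * E (N' i) (l i)
    have hκ : ∀ i, κ i ∈ G i := fun i => (G i).mul_mem ((G i).mul_mem ((hQ i).unip _) (hg i)) ((hQ i).unip _)
    have h1 := relI_vanishM hQ ht2 hκ l hmem
    have h2 : MvPolynomial.aeval (pt (fun i j => (Hf (Hc (n i) (Q i)) (((1 / (t i : ℝ) : ℝ)) : ℂ) * κ i)
        (ix (n i) j).1 (ix (n i) j).2) l) (MvPolynomial.aeval (sub' Ω) P) =
        MvPolynomial.aeval (fun v => MvPolynomial.aeval (pt (fun i j => (Hf (Hc (n i) (Q i)) (((1 / (t i : ℝ) : ℝ)) : ℂ) * κ i)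
          (ix (n i) j).1 (ix (n i) j).2) l) (sub' Ω v)) P := MvPolynomial.aeval_bind₁ _ _ _
    rw [h2] at h1
    have h3 := fun v => aeval_sub' Ω (fun i => Hf (Hc (n i) (Q i)) (((1 / (t i : ℝ) : ℝ)) : ℂ) * κ i) l v
    simp only [h3] at h1
    have h4 : (fun i => Hf (Hc (n i) (Q i)) (((1 / (t i : ℝ) : ℝ)) : ℂ) * κ i * E (cm (Am (n i))) (-l i) * Ω i) =
        fun i => Yt (n i) (Q i) (t i) * g i * Ω i := by
      funext i
      have e1 : E (N' i) (l i) * E (N' i) (-l i) = 1 := E_mul_neg (hN i) (l i)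
      calc Hf (Hc (n i) (Q i)) (((1 / (t i : ℝ) : ℝ)) : ℂ) * κ i * E (N' i) (-l i) * Ω i =
          Hf (Hc (n i) (Q i)) (((1 / (t i : ℝ) : ℝ)) : ℂ) * E (N' i) (-((Real.log (t i) : ℝ) : ℂ)) * g i *
            (E (N' i) (l i) * E (N' i) (-l i)) * Ω i := by
            show Hf (Hc (n i) (Q i)) (((1 / (t i : ℝ) : ℝ)) : ℂ) *
              (E (N' i) (-((Real.log (t i) : ℝ) : ℂ)) * g i * E (N' i) (l i)) * E (N' i) (-l i) * Ω i = _
            simp only [Matrix.mul_assoc]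
        _ = _ := by rw [e1, mul_one]; rfl
    rw [h4] at h1
    exact h1

end Pool.Agent.L0h14.HO
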