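import Mathlib
import Pool.Agent.L0h14.HO.Fam

/-!
# Hypergeometric families of the three types: the torsors
-/

set_option autoImplicit false

open Matrix

namespace Pool.Agent.L0h14.HO

open Pool.Agent.Y119.HY (QD Am Jm cm Ep E Ep_eval E_neg Hf Hc Yf Vr Rel Gal E_add E_zero E_mul_neg E_isom QB)
open Pool.Agent.Y119.HZ hiding ode_Hp ode_int gsys_Hp ode_A2 Phi_ode qu_hf hfam_hf Cv_Hp ev_aeval rel_inv relI_vanish

lemma comp_neg_coeff {P : Polynomial ℚ} (h : P.comp (-Polynomial.X) = P) {j : ℕ} (hj : Odd j) : P.coeff j = 0 := by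
  have h1 : (-Polynomial.X : Polynomial ℚ) = Polynomial.C (-1) * Polynomial.X := by
    rw [map_neg, map_one, neg_one_mul]
  have h2 : (P.comp (-Polynomial.X)).coeff j = P.coeff j := by rw [h]
  rw [h1, Polynomial.comp_C_mul_X_coeff, hj.neg_one_pow] at h2
  linarith

lemma comp_neg_even {P : Polynomial ℚ} (h : P.comp (-Polynomial.X) = P) (hP : P.Monic) : Even P.natDegree := by
  by_contra h0
  have h1 := comp_neg_coeff h (Nat.not_even_iff_odd.1 h0)
  rw [hP.coeff_natDegree] at h1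
  exact one_ne_zero h1

theorem QD_QP {n : ℕ} (hn : 2 ≤ n) {α : Fin n → ℚ} (hα : ∀ i, ∀ a : ℤ, α i ≠ a)
    (h : (QP α).comp (-Polynomial.X) = QP α) : QD n (QP α) where
  two := hn
  even := by
    have h1 := comp_neg_even h (QP_monic α)
    rwa [QP_deg] at h1
  monic := QP_monic α
  deg := QP_deg α
  sym := fun j hj => comp_neg_coeff h hj
  ne := (QP_QS hn hα).pos.ne

theorem QO_QP {n : ℕ} (hn : 2 ≤ n) {α : Fin n → ℚ} (hα : ∀ i, ∀ a : ℤ, α i ≠ a) {R : Polynomial ℚ}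
    (hR : QP α = PO R) (h : R.comp (-Polynomial.X) = R) : QO n R := by
  have hm : R.Monic := by
    have h1 := QP_monic α
    rw [hR] at h1
    unfold PO at h1
    exact (Polynomial.monic_X_add_C (1 / 2 : ℚ)).of_mul_monic_left h1
  have hd : R.natDegree + 1 = n := by
    have h1 := QP_deg α
    rw [hR] at h1
    unfold PO at h1
    rw [(Polynomial.monic_X_add_C _).natDegree_mul hm, Polynomial.natDegree_X_add_C] at h1
    omega
  refine ⟨hn, ?_, hm, hd, fun j hj => comp_neg_coeff h hj, fun l h0 => ?_⟩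
  · rw [← hd]
    exact (comp_neg_even h hm).add_one
  · have h1 := (QP_QS hn hα).pos.ne l
    rw [hR] at h1
    unfold PO at h1
    rw [Polynomial.eval_mul, h0, mul_zero] at h1
    exact h1 rfl

/-- the solution at `1 / t` -/
lemma isom_quot {n : ℕ} {Y F J g : Matrix (Fin n) (Fin n) ℂ} (hY : Y.transpose * F * Y = J) (hJ : J.det ≠ 0)
    (hg : g.transpose * F * g = J) : ∃ κ ∈ isoM J, g = Y * κ := by
  have hYd : IsUnit Y.det := by
    refine Ne.isUnit fun h0 => hJ ?_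
    rw [← hY, det_mul, h0, mul_zero]
  have e : Y * (Y⁻¹ * g) = g := by rw [← Matrix.mul_assoc, mul_nonsing_inv _ hYd, one_mul]
  refine ⟨Y⁻¹ * g, ?_, e.symm⟩
  show (Y⁻¹ * g).transpose * J * (Y⁻¹ * g) = J
  calc (Y⁻¹ * g).transpose * J * (Y⁻¹ * g) = (Y * (Y⁻¹ * g)).transpose * F * (Y * (Y⁻¹ * g)) := by
        rw [← hY]
        simp only [transpose_mul, Matrix.mul_assoc]
    _ = J := by rw [e, hg]

lemma cm_det_ne {n : ℕ} {J : Matrix (Fin n) (Fin n) ℚ} (h : J.det ≠ 0) : (cm J).det ≠ 0 := by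
  have h4 : (cm J).det = algebraMap ℚ ℂ J.det := (RingHom.map_det _ _).symm
  rw [h4]
  exact (map_ne_zero _).2 h

lemma Yt_formO {n : ℕ} {R : Polynomial ℚ} (h : QO n R) {t : ℕ} (ht : 2 ≤ t) :
    (Yt n (PO R) t).transpose * (cm (Jm n R) - ((((1 / (t : ℝ) : ℝ)) : ℂ)) • cm (J1 n R)) * Yt n (PO R) t = cm (Jm n R) := by
  have ht0 : (2 : ℝ) ≤ t := by exact_mod_cast ht
  rw [Yt_eq (by omega)]
  exact Yf_form h (by positivity) (by rw [div_lt_one (by linarith)]; linarith)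

lemma Yt_det {n : ℕ} (hn : 2 ≤ n) {α : Fin n → ℚ} (hα : ∀ i, ∀ a : ℤ, α i ≠ a) {t : ℕ} (ht : 2 ≤ t) :
    (Yt n (QP α) t).det ^ (∑ i, α i).den * (1 - ((((1 / (t : ℝ) : ℝ)) : ℂ))) ^ (∑ i, α i).num = 1 := by
  have ht0 : (2 : ℝ) ≤ t := by exact_mod_cast ht
  have hx : (0 : ℝ) < 1 / t := by positivity
  have hx1 : (1 : ℝ) / t < 1 := by rw [div_lt_one (by linarith)]; linarith
  rw [Yt_eq (by omega), det_Yf (QP_QS hn hα) hx hx1]
  have hsg : sg n (QP α) = ((∑ i, α i : ℚ) : ℝ) := by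
    unfold sg
    rw [QP_coeff α (by omega)]
  rw [hsg]
  set s : ℚ := ∑ i, α i
  have h0 : (0 : ℝ) < 1 - 1 / t := by linarith
  have h1 : (((1 - 1 / (t : ℝ)) ^ (-(s : ℝ)) : ℝ)) ^ s.den * (1 - 1 / (t : ℝ)) ^ s.num = 1 := by
    rw [← Real.rpow_natCast, ← Real.rpow_mul h0.le, ← Real.rpow_intCast, ← Real.rpow_add h0]
    have h2 : -(s : ℝ) * ((s.den : ℕ) : ℝ) + ((s.num : ℤ) : ℝ) = 0 := by
      have h3 : (s : ℝ) * (s.den : ℝ) = s.num := by
        exact_mod_cast Rat.mul_den_eq_num s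
      linarith
    rw [h2, Real.rpow_zero]
  have h3 : (((((1 - 1 / (t : ℝ)) ^ (-(s : ℝ)) : ℝ)) ^ s.den * (1 - 1 / (t : ℝ)) ^ s.num : ℝ) : ℂ) = ((1 : ℝ) : ℂ) := by
    rw [h1]
  push_cast at h3 ⊢
  exact h3

lemma det_quot {n : ℕ} {Y g : Matrix (Fin n) (Fin n) ℂ} {d : ℕ} {c : ℂ} (hd : d ≠ 0) (hY : Y.det ^ d * c = 1)
    (hg : g.det ^ d * c = 1) : ∃ κ ∈ detM n d, g = Y * κ := by
  have hYd : IsUnit Y.det := by
    refine Ne.isUnit fun h0 => ?_
    rw [h0, zero_pow hd, zero_mul] at hY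
    exact zero_ne_one hY
  have e : Y * (Y⁻¹ * g) = g := by rw [← Matrix.mul_assoc, mul_nonsing_inv _ hYd, one_mul]
  refine ⟨Y⁻¹ * g, ?_, e.symm⟩
  show (Y⁻¹ * g).det ^ d = 1
  have hc : c ≠ 0 := by
    rintro rfl
    rw [mul_zero] at hY
    exact zero_ne_one hY
  have h1 : Y.det ^ d * c * (Y⁻¹ * g).det ^ d = g.det ^ d * c := by
    calc _ = (Y.det * (Y⁻¹ * g).det) ^ d * c := by rw [mul_pow]; ring
      _ = _ := by rw [← det_mul, e]
  rw [hY, hg, one_mul] at h1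
  exact h1

end Pool.Agent.L0h14.HO
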