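import Mathlib
import Pool.Agent.L0h14.HO.Fam2

/-!
# The transcendence degree of the holomorphic part
-/

set_option autoImplicit false

open Matrix Filter Topology

namespace Pool.Agent.L0h14.HO

open Pool.Agent.Y119.HY (HD Hf Hc Hf_zero Sol cm Am Bm)

section poly

variable {σ : Type}

/-- chain rule -/
lemma ev_chain [Fintype σ] [DecidableEq σ] (p : MvPolynomial σ ℂ) {v : ℂ → σ → ℂ} {v' : σ → ℂ} {z : ℂ}
    (h : ∀ i, HasDerivAt (fun t => v t i) (v' i) z) :
    HasDerivAt (fun t => MvPolynomial.eval (v t) p) (∑ i, v' i * MvPolynomial.eval (v z) (MvPolynomial.pderiv i p)) z := by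
  induction p using MvPolynomial.induction_on with
  | C a =>
    simp only [MvPolynomial.eval_C, MvPolynomial.pderiv_C, map_zero, mul_zero, Finset.sum_const_zero]
    exact hasDerivAt_const _ _
  | add p q hp hq =>
    simp only [map_add, mul_add, Finset.sum_add_distrib]
    exact hp.add hq
  | mul_X p i hp =>
    simp only [map_mul, MvPolynomial.eval_X, Derivation.leibniz, MvPolynomial.pderiv_X, smul_eq_mul, map_add]
    refine (hp.mul (h i)).congr_deriv ?_
    simp only [mul_add, Finset.sum_add_distrib]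
    rw [add_comm, Finset.sum_mul]
    congr 1
    · rw [Finset.sum_eq_single i]
      · simp; ring
      · intro j _ hj
        rw [Pi.single_eq_of_ne (Ne.symm hj)]
        simp
      · simp
    · refine Finset.sum_congr rfl fun x _ => ?_
      ring

lemma const_of_pderiv {p : MvPolynomial σ ℂ} (h : ∀ i, MvPolynomial.pderiv i p = 0) :
    p = MvPolynomial.C (MvPolynomial.coeff 0 p) := by
  classical
  ext m
  rw [MvPolynomial.coeff_C]
  split_ifs with h0
  · rw [h0]
  · obtain ⟨i, hi⟩ : ∃ i, m i ≠ 0 := by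
      by_contra hcon
      push Not at hcon
      exact h0 (Finsupp.ext fun i => by rw [hcon i]; rfl)
    have h1 : m - Finsupp.single i 1 + Finsupp.single i 1 = m := by
      refine tsub_add_cancel_of_le ?_
      rw [Finsupp.single_le_iff]
      omega
    have h2 := MvPolynomial.coeff_pderiv (i := i) p (m - Finsupp.single i 1)
    rw [h i, MvPolynomial.coeff_zero, h1] at h2
    have h3 : (((m - Finsupp.single i 1 : σ →₀ ℕ) i : ℕ) : ℂ) + 1 ≠ 0 := Nat.cast_add_one_ne_zero _
    exact (mul_eq_zero.1 h2.symm).resolve_right h3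

lemma deg_pderiv {p : MvPolynomial σ ℂ} (i : σ) {N : ℕ} (h : p.totalDegree ≤ N + 1) :
    (MvPolynomial.pderiv i p).totalDegree ≤ N := by
  classical
  unfold MvPolynomial.totalDegree
  refine Finset.sup_le fun m hm => ?_
  rw [MvPolynomial.mem_support_iff, MvPolynomial.coeff_pderiv] at hm
  have h1 : m + Finsupp.single i 1 ∈ p.support := MvPolynomial.mem_support_iff.2 (left_ne_zero_of_mul hm)
  have h2 := (MvPolynomial.le_totalDegree h1).trans h
  rw [Finsupp.sum_add_index' (fun _ => rfl) (fun _ _ _ => rfl), Finsupp.sum_single_index rfl] at h2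
  omega

end poly

/-- a minor of a matrix with independent rows -/
lemma coords {I J : Type} [Fintype I] [Fintype J] [DecidableEq I] {X : I → J → ℂ} (h : LinearIndependent ℂ X) :
    ∃ τ : I → J, (Matrix.of fun a b => X a (τ b)).det ≠ 0 := by
  classical
  set M : Matrix I J ℂ := Matrix.of X with hM
  set v : J → I → ℂ := fun j a => X a j with hv
  have h1 : M.rank = Fintype.card I := LinearIndependent.rank_matrix (M := M) h
  have h2 : Submodule.span ℂ (Set.range v) = ⊤ := by
    refine Submodule.eq_top_of_finrank_eq ?_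
    have h3 : M.rank = Module.finrank ℂ (Submodule.span ℂ (Set.range v)) := Matrix.rank_eq_finrank_span_cols M
    rw [← h3, h1, Module.finrank_fintype_fun_eq_card]
  obtain ⟨κ, a, ha, hsp, hli⟩ := exists_linearIndependent' ℂ v
  rw [h2] at hsp
  have hfin : Finite κ := Finite.of_injective a ha
  haveI := Fintype.ofFinite κ
  have h4 : Fintype.card κ = Fintype.card I := by
    rw [← finrank_span_eq_card hli, hsp, finrank_top, Module.finrank_fintype_fun_eq_card]
  have e : I ≃ κ := Fintype.equivOfCardEq h4.symm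
  refine ⟨fun b => a (e b), ?_⟩
  have h5 : LinearIndependent ℂ (fun b : I => v (a (e b))) := hli.comp e e.injective
  have h6 : LinearIndependent ℂ (Matrix.of fun a' b => X a' (a (e b))).col := h5
  have h7 := Matrix.linearIndependent_cols_iff_isUnit.1 h6
  exact ((Matrix.isUnit_iff_isUnit_det _).1 h7).ne_zero

variable {n : ℕ} {S : Submonoid (Matrix (Fin n) (Fin n) ℂ)}

/-- **Algebraic independence of coordinates on a group.** -/
theorem vanish {I : Type} [Fintype I] [DecidableEq I] {X : I → Matrix (Fin n) (Fin n) ℂ}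
    (hX : ∀ a, X a ∈ Lie (S : Set (Matrix (Fin n) (Fin n) ℂ))) (τ : I → Fin n × Fin n) (H : Matrix (Fin n) (Fin n) ℂ)
    (hD : (Matrix.of fun a b => (H * X a) (τ b).1 (τ b).2).det ≠ 0)
    (F : MvPolynomial I ℂ) (hF : ∀ κ ∈ S, MvPolynomial.eval (fun b => (H * κ) (τ b).1 (τ b).2) F = 0) : F = 0 := by
  classical
  set φ : Matrix (Fin n) (Fin n) ℂ → I → ℂ := fun κ b => (H * κ) (τ b).1 (τ b).2 with hφ
  set DM : Matrix (Fin n) (Fin n) ℂ → Matrix I I ℂ := fun κ => Matrix.of fun a b => (H * κ * X a) (τ b).1 (τ b).2 with hDM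
  have hD1 : (DM 1).det ≠ 0 := by
    have : DM 1 = Matrix.of fun a b => (H * X a) (τ b).1 (τ b).2 := by
      rw [hDM]
      simp only [mul_one]
    rw [this]
    exact hD
  -- the determinant as a polynomial
  set q : MvPolynomial (Fin n × Fin n) ℂ := (Matrix.of fun a b => ∑ l, (∑ k, MvPolynomial.C (H (τ b).1 k) *
    MvPolynomial.X (k, l)) * MvPolynomial.C (X a l (τ b).2) : Matrix I I (MvPolynomial (Fin n × Fin n) ℂ)).det with hq
  have hqe : ∀ g, pe q g = (DM g).det := by
    intro g
    unfold pe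
    rw [hq, RingHom.map_det]
    congr 1
    ext a b
    simp only [RingHom.mapMatrix_apply, Matrix.map_apply, Matrix.of_apply, map_sum, map_mul, MvPolynomial.eval_C,
      MvPolynomial.eval_X, hDM, Matrix.mul_apply]
  have key : ∀ N : ℕ, ∀ F : MvPolynomial I ℂ, F.totalDegree ≤ N →
      (∀ κ ∈ S, (DM κ).det ≠ 0 → MvPolynomial.eval (φ κ) F = 0) → F = 0 := by
    intro N
    induction N with
    | zero =>
      intro F hN hF
      have h1 := MvPolynomial.totalDegree_eq_zero_iff_eq_C.1 (Nat.le_zero.1 hN)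
      have h2 := hF 1 (one_mem _) hD1
      rw [h1, MvPolynomial.eval_C] at h2
      rw [h1, h2, map_zero]
    | succ N ih =>
      intro F hN hF
      have hpd : ∀ b, MvPolynomial.pderiv b F = 0 := by
        intro b
        refine ih _ (deg_pderiv b hN) fun κ hκ hdet => ?_
        set f : MvPolynomial (Fin n × Fin n) ℂ := MvPolynomial.bind₁ (fun b => ∑ k, MvPolynomial.C (H (τ b).1 k) *
          MvPolynomial.X (k, (τ b).2)) F with hf
        have hfe : ∀ g, pe f g = MvPolynomial.eval (φ g) F := by
          intro g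
          rw [hf]
          unfold pe
          rw [← MvPolynomial.coe_aeval_eq_eval, ← MvPolynomial.coe_aeval_eq_eval, RingHom.coe_coe, RingHom.coe_coe,
            MvPolynomial.aeval_bind₁]
          congr 1
          congr 1
          funext b
          simp only [map_sum, map_mul, MvPolynomial.aeval_X, MvPolynomial.aeval_C, hφ, Matrix.mul_apply,
            Algebra.algebraMap_self, RingHom.id_apply]
        have hI : f * q ∈ Id (S : Set (Matrix (Fin n) (Fin n) ℂ)) := by
          intro g hg
          have e : pe (f * q) g = pe f g * pe q g := by unfold pe; rw [map_mul]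
          rw [e, hfe, hqe]
          by_cases h0 : (DM g).det = 0
          · rw [h0, mul_zero]
          · rw [hF g hg h0, zero_mul]
        have hA : ∀ a, ∑ b, DM κ a b * MvPolynomial.eval (φ κ) (MvPolynomial.pderiv b F) = 0 := by
          intro a
          have h3 : HD (fun t : ℂ => κ + t • (κ * X a)) (κ * X a) 0 := by
            intro i j
            have : HasDerivAt (fun t : ℂ => κ i j + t * (κ * X a) i j) (0 + 1 * (κ * X a) i j) 0 :=
              (hasDerivAt_const _ _).add ((hasDerivAt_id _).mul_const _)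
            simpa using this
          have h4 := pe_HD (f * q) h3
          simp only [zero_smul, add_zero] at h4
          rw [hX a _ hI κ hκ] at h4
          have h5 := pe_HD q h3
          have h6 : HasDerivAt (fun t : ℂ => MvPolynomial.eval (φ (κ + t • (κ * X a))) F)
              (∑ b, DM κ a b * MvPolynomial.eval (φ (κ + (0 : ℂ) • (κ * X a))) (MvPolynomial.pderiv b F)) 0 := by
            refine ev_chain F (v := fun t => φ (κ + t • (κ * X a))) fun b => ?_
            have h7 := HD.const_mul h3 H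
            have h8 := h7 (τ b).1 (τ b).2
            have e : (H * (κ * X a)) (τ b).1 (τ b).2 = DM κ a b := by
              rw [hDM]
              simp only [Matrix.of_apply, Matrix.mul_assoc]
            rw [e] at h8
            exact h8
          have h7 := h6.mul h5
          have h8 : (fun t : ℂ => MvPolynomial.eval (φ (κ + t • (κ * X a))) F * pe q (κ + t • (κ * X a))) =
              fun t : ℂ => pe (f * q) (κ + t • (κ * X a)) := by
            funext t
            rw [← hfe]
            unfold pe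
            rw [map_mul]
          have h9 := (h7.congr_of_eventuallyEq (Eventually.of_forall fun t => (congrFun h8 t).symm)).unique h4
          simp only [zero_smul, add_zero] at h9
          rw [hF κ hκ hdet, zero_mul, add_zero, hqe] at h9
          exact (mul_eq_zero.1 h9).resolve_right hdet
        have h10 : DM κ *ᵥ (fun b => MvPolynomial.eval (φ κ) (MvPolynomial.pderiv b F)) = 0 := by
          funext a
          exact hA a
        exact congrFun (Matrix.eq_zero_of_mulVec_eq_zero hdet h10) b
      have h1 := const_of_pderiv hpd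
      have h2 := hF 1 (one_mem _) hD1
      rw [h1, MvPolynomial.eval_C] at h2
      rw [h1, h2, map_zero]
  exact key _ F le_rfl fun κ hκ _ => hF κ hκ

open Pool.Agent.Y113 Pool.Agent.Y120.GF Pool.Agent.Y120.GH in
open Pool.Agent.Y119.HZ hiding ode_Hp ode_int gsys_Hp ode_A2 Phi_ode qu_hf hfam_hf Cv_Hp ev_aeval rel_inv relI_vanish in
/-- **The entries of the holomorphic part contain as many algebraically independent ones as the dimension of the group.** -/
theorem alg_indep {Q : Polynomial ℚ} (hQ : HM n Q S) {I : Type} [Fintype I] [DecidableEq I]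
    {X : I → Matrix (Fin n) (Fin n) ℂ} (hX : ∀ a, X a ∈ Lie (S : Set (Matrix (Fin n) (Fin n) ℂ)))
    (hLI : LinearIndependent ℂ X) :
    ∃ τ : I → Fin n × Fin n, AlgebraicIndependent (Polynomial ℚ) (fun b => Hp n Q (τ b).1 (τ b).2) := by
  classical
  have hLI' : LinearIndependent ℂ (fun a (p : Fin n × Fin n) => X a p.1 p.2) := by
    rw [Fintype.linearIndependent_iff] at hLI ⊢
    intro g hg
    refine hLI g ?_
    ext i j
    have h1 := congrFun hg (i, j)
    rw [Finset.sum_apply] at h1
    rw [Matrix.sum_apply]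
    exact h1
  obtain ⟨τ, hτ⟩ := coords hLI'
  refine ⟨τ, ?_⟩
  rw [algebraicIndependent_iff]
  intro R hR
  by_contra hne
  obtain ⟨s, hs⟩ := MvPolynomial.ne_zero_iff.1 hne
  have hsol : Sol (cm (Am n)) (cm (Bm n Q)) (Hc n Q) := HO.sol_c hQ.qg
  -- continuity at zero
  have hcont : ∀ i j, ContinuousAt (fun y : ℝ => Hf (Hc n Q) (y : ℂ) i j) 0 := by
    intro i j
    have hHg := hsol.growth (Pool.Agent.Y119.HY.Ac_nil)
    have h1 : ContinuousAt (fun z : ℂ => Hf (Hc n Q) z i j) ((0 : ℝ) : ℂ) :=
      (Hf_an1 hHg _ _ _ (by simp)).continuousAt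
    exact h1.comp (Complex.continuous_ofReal.continuousAt)
  have hdc : ContinuousAt (fun y : ℝ => (Matrix.of fun a b => (Hf (Hc n Q) (y : ℂ) * X a) (τ b).1 (τ b).2).det) 0 := by
    simp only [Matrix.det_apply]
    refine tendsto_finsetSum _ fun σ _ => ?_
    refine Tendsto.const_smul ?_ _
    refine tendsto_finsetProd _ fun i _ => ?_
    simp only [Matrix.of_apply, Matrix.mul_apply]
    refine tendsto_finsetSum _ fun l _ => ?_
    exact (hcont _ _).tendsto.mul_const _
  have hd0 : (Matrix.of fun a b => (Hf (Hc n Q) ((0 : ℝ) : ℂ) * X a) (τ b).1 (τ b).2).det ≠ 0 := by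
    rw [Complex.ofReal_zero, Hf_zero hsol]
    simp only [one_mul]
    exact hτ
  have hev1 : ∀ᶠ y : ℝ in 𝓝[>] 0, (Matrix.of fun a b => (Hf (Hc n Q) (y : ℂ) * X a) (τ b).1 (τ b).2).det ≠ 0 :=
    (hdc.tendsto.mono_left nhdsWithin_le_nhds).eventually (isOpen_ne.mem_nhds hd0)
  have hev2 : ∀ᶠ y : ℝ in 𝓝[>] 0, evq (y : ℂ) (MvPolynomial.coeff s R) ≠ 0 := by
    set c := MvPolynomial.coeff s R with hc
    have h2 : {y : ℝ | evq (y : ℂ) c = 0}.Finite := by
      have h3 : {y : ℝ | evq (y : ℂ) c = 0} ⊆ (fun y : ℝ => (y : ℂ)) ⁻¹' (c.aroots ℂ).toFinset := by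
        intro y hy
        have hy' : Polynomial.aeval (y : ℂ) c = 0 := hy
        simp only [Set.mem_preimage, Finset.mem_coe, Multiset.mem_toFinset]
        rw [Polynomial.mem_aroots]
        exact ⟨hs, hy'⟩
      refine (Set.Finite.preimage ?_ (Finset.finite_toSet _)).subset h3
      exact Complex.ofReal_injective.injOn
    have h4 : ({y : ℝ | evq (y : ℂ) c = 0} \ {0}).Finite := h2.subset Set.sdiff_subset
    have h5 : ({y : ℝ | evq (y : ℂ) c = 0} \ {0})ᶜ ∈ 𝓝 (0 : ℝ) := h4.isClosed.isOpen_compl.mem_nhds (by simp)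
    filter_upwards [mem_nhdsWithin_of_mem_nhds h5, self_mem_nhdsWithin] with y hy1 hy2 hy3
    exact hy1 ⟨hy3, (ne_of_gt hy2)⟩
  obtain ⟨x, hx, hx1, hx2, hx3⟩ : ∃ x : ℝ, 0 < x ∧ x < 1 ∧
      (Matrix.of fun a b => (Hf (Hc n Q) (x : ℂ) * X a) (τ b).1 (τ b).2).det ≠ 0 ∧ evq (x : ℂ) (MvPolynomial.coeff s R) ≠ 0 := by
    have h6 : ∀ᶠ y : ℝ in 𝓝[>] 0, y ∈ Set.Ioo (0 : ℝ) 1 := Ioo_mem_nhdsGT (show (0 : ℝ) < 1 by norm_num)
    obtain ⟨x, h1, h2, h3⟩ := ((h6.and (hev1.and hev2))).exists
    exact ⟨x, h1.1, h1.2, h2, h3⟩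
  -- the relation at `x`
  set R' : MvPolynomial (Fin (n * n)) (Polynomial ℚ) := MvPolynomial.rename (fun b => (ix n).symm (τ b)) R with hR'
  have h1 : MvPolynomial.aeval (hf n Q) R' = 0 := by
    rw [hR', MvPolynomial.aeval_rename]
    have e : (hf n Q ∘ fun b => (ix n).symm (τ b)) = fun b => Hp n Q (τ b).1 (τ b).2 := by
      funext b
      simp only [Function.comp_apply]
      unfold hf
      rw [Equiv.apply_symm_apply]
    rw [e]
    exact hR
  have h2 : MvPolynomial.map (evq (x : ℂ)) R = 0 := by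
    refine vanish hX τ (Hf (Hc n Q) (x : ℂ)) hx2 _ fun κ hκ => ?_
    have h3 := rel_invM hQ h1 hx hx1 hκ
    rw [hR', MvPolynomial.eval₂_rename] at h3
    rw [MvPolynomial.eval_map]
    have e : ((fun j => (Hf (Hc n Q) (x : ℂ) * κ) (ix n j).1 (ix n j).2) ∘ fun b => (ix n).symm (τ b)) =
        fun b => (Hf (Hc n Q) (x : ℂ) * κ) (τ b).1 (τ b).2 := by
      funext b
      simp only [Function.comp_apply, Equiv.apply_symm_apply]
    rw [e] at h3
    exact h3
  have h3 := congrArg (MvPolynomial.coeff s) h2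
  rw [MvPolynomial.coeff_map, MvPolynomial.coeff_zero] at h3
  exact hx3 h3

end Pool.Agent.L0h14.HO
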