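import Mathlib
import Pool.Agent.L0h14.HO.Rank

/-!
# The Lie algebras of the classical groups and their dimensions
-/

set_option autoImplicit false

open Matrix Filter Topology

namespace Pool.Agent.L0h14.HO

open Pool.Agent.Y119.HY (HD)

variable {n : ℕ}

section exp

open scoped Matrix.Norms.Operator in
/-- the exponential curve -/
lemma exists_exp (X : Matrix (Fin n) (Fin n) ℂ) : ∃ R : ℂ → Matrix (Fin n) (Fin n) ℂ,
    (∀ t, HD R (R t * X) t) ∧ R 0 = 1 ∧ ∀ t, R t * X = X * R t := by
  refine ⟨fun t => NormedSpace.exp (t • X), fun t i j => ?_, ?_, fun t => ?_⟩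
  · have h1 : HasDerivAt (fun u : ℂ => NormedSpace.exp (u • X)) (NormedSpace.exp (t • X) * X) t := hasDerivAt_exp_smul_const X t
    have h2 := ((Matrix.entryLinearMap ℂ ℂ i j).toContinuousLinearMap.hasFDerivAt (x := NormedSpace.exp (t • X))).comp_hasDerivAt t h1
    exact h2
  · show NormedSpace.exp ((0 : ℂ) • X) = 1
    rw [zero_smul, NormedSpace.exp_zero]
  · exact ((Commute.refl X).smul_left t).exp_left.eq

end exp

/-- the Lie algebra of the isometries -/
lemma lie_iso {J X : Matrix (Fin n) (Fin n) ℂ} (hX : X.transpose * J + J * X = 0) :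
    X ∈ Lie ((isoM J : Submonoid (Matrix (Fin n) (Fin n) ℂ)) : Set (Matrix (Fin n) (Fin n) ℂ)) := by
  obtain ⟨R, hR, h0, hc⟩ := exists_exp X
  refine tangent (M := R) ((hR 0).congr (by rw [h0, one_mul])) h0 fun t => ?_
  show (R t).transpose * J * R t = J
  have hd : ∀ z, HD (fun w => (R w).transpose * J * R w) 0 z := by
    intro z
    refine (((hR z).transpose.mul (HD.const J z)).mul (hR z)).congr ?_
    rw [mul_zero, add_zero, transpose_mul]
    calc X.transpose * (R z).transpose * J * R z + (R z).transpose * J * (R z * X) =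
        (R z * X).transpose * J * R z + (R z).transpose * J * (R z * X) := by rw [transpose_mul]
      _ = (X * R z).transpose * J * R z + (R z).transpose * J * (X * R z) := by rw [hc z]
      _ = (R z).transpose * (X.transpose * J + J * X) * R z := by
          rw [transpose_mul]
          simp only [mul_add, add_mul, Matrix.mul_assoc]
      _ = 0 := by rw [hX, mul_zero, zero_mul]
  ext i j
  have h1 := is_const_of_deriv_eq_zero (f := fun w => ((R w).transpose * J * R w) i j)
    (fun z => (hd z i j).differentiableAt) (fun z => (hd z i j).deriv) t 0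
  simp only [h0, transpose_one, one_mul, mul_one] at h1
  exact h1

lemma dl_detp' (g X : Matrix (Fin n) (Fin n) ℂ) : dl (detp n) g (g * X) = g.det * X.trace := by
  have h3 : HD (fun t : ℂ => g + t • (g * X)) (g * X) 0 := by
    intro i j
    have : HasDerivAt (fun t : ℂ => g i j + t * (g * X) i j) (0 + 1 * (g * X) i j) 0 :=
      (hasDerivAt_const _ _).add ((hasDerivAt_id _).mul_const _)
    simpa using this
  have h4 := pe_HD (detp n) h3
  simp only [zero_smul, add_zero] at h4
  have h5 : HD (fun t : ℂ => 1 + t • X) X 0 := by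
    intro i j
    have : HasDerivAt (fun t : ℂ => (1 : Matrix (Fin n) (Fin n) ℂ) i j + t * X i j) (0 + 1 * X i j) 0 :=
      (hasDerivAt_const _ _).add ((hasDerivAt_id _).mul_const _)
    simpa using this
  have h6 := (pe_HD (detp n) h5).const_mul g.det
  simp only [zero_smul, add_zero, dl_detp] at h6
  refine h4.unique (h6.congr_of_eventuallyEq (Eventually.of_forall fun t => ?_))
  simp only
  rw [pe_detp, pe_detp, ← det_mul, mul_add, mul_one, mul_smul_comm]

/-- the Lie algebra of the special linear group -/
lemma lie_det {X : Matrix (Fin n) (Fin n) ℂ} (hX : X.trace = 0) (d : ℕ) :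
    X ∈ Lie ((detM n d : Submonoid (Matrix (Fin n) (Fin n) ℂ)) : Set (Matrix (Fin n) (Fin n) ℂ)) := by
  obtain ⟨R, hR, h0, hc⟩ := exists_exp X
  refine tangent (M := R) ((hR 0).congr (by rw [h0, one_mul])) h0 fun t => ?_
  show (R t).det ^ d = 1
  have hd : ∀ z, HasDerivAt (fun w => (R w).det) 0 z := by
    intro z
    have h1 := pe_HD (detp n) (hR z)
    rw [dl_detp', hX, mul_zero] at h1
    exact h1.congr_of_eventuallyEq (Eventually.of_forall fun t => (pe_detp _).symm)
  have h1 := is_const_of_deriv_eq_zero (f := fun w => (R w).det)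
    (fun z => (hd z).differentiableAt) (fun z => (hd z).deriv) t 0
  simp only [h0, det_one] at h1
  rw [h1, one_pow]

/-! ### the index sets -/

/-- pairs -/
abbrev ILe (n : ℕ) : Type := {p : Fin n × Fin n // p.1 ≤ p.2}

/-- strictly ordered pairs -/
abbrev ILt (n : ℕ) : Type := {p : Fin n × Fin n // p.1 < p.2}

lemma card_ILt (n : ℕ) : Fintype.card (ILt n) = n * (n - 1) / 2 := by
  have h1 : Fintype.card (Fin n × Fin n) = Fintype.card (ILt n) + Fintype.card (ILt n) + n := by
    have e1 := Fintype.card_subtype_compl (fun p : Fin n × Fin n => p.1 < p.2)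
    have e2 : Fintype.card {p : Fin n × Fin n // ¬ p.1 < p.2} = Fintype.card (ILt n) + n := by
      have e3 : Fintype.card {p : Fin n × Fin n // ¬ p.1 < p.2} = Fintype.card (ILt n ⊕ Fin n) := by
        refine Fintype.card_congr
          { toFun := fun p => if h : p.1.2 < p.1.1 then Sum.inl ⟨(p.1.2, p.1.1), h⟩ else Sum.inr p.1.1
            invFun := fun q => q.elim (fun q => ⟨(q.1.2, q.1.1), not_lt.2 q.2.le⟩) fun i => ⟨(i, i), lt_irrefl _⟩
            left_inv := ?_
            right_inv := ?_ }
        · rintro ⟨⟨i, j⟩, h⟩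
          simp only
          split_ifs with h1
          · rfl
          · have : i = j := le_antisymm (not_lt.1 h1) (not_lt.1 h)
            subst this
            rfl
        · rintro (⟨⟨i, j⟩, h⟩ | i)
          · exact dif_pos h
          · exact dif_neg (lt_irrefl _)
      rw [e3, Fintype.card_sum, Fintype.card_fin]
    have e4 : Fintype.card (ILt n) ≤ Fintype.card (Fin n × Fin n) := Fintype.card_subtype_le _
    have e5 : Fintype.card {p : Fin n × Fin n // p.1 < p.2} = Fintype.card (ILt n) := rfl
    omega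
  rw [Fintype.card_prod, Fintype.card_fin] at h1
  rcases Nat.eq_zero_or_pos n with h0 | h0
  · subst h0
    simp at h1 ⊢
  · have h2 : n * n = n * (n - 1) + n := by
      obtain ⟨m, rfl⟩ : ∃ m, n = m + 1 := ⟨n - 1, by omega⟩
      simp only [Nat.add_sub_cancel]
      ring
    omega

lemma card_ILe (n : ℕ) : Fintype.card (ILe n) = n * (n + 1) / 2 := by
  have e3 : Fintype.card (ILe n) = Fintype.card (ILt n ⊕ Fin n) := by
    refine Fintype.card_congr
      { toFun := fun p => if h : p.1.1 < p.1.2 then Sum.inl ⟨p.1, h⟩ else Sum.inr p.1.1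
        invFun := fun q => q.elim (fun q => ⟨q.1, q.2.le⟩) fun i => ⟨(i, i), le_rfl⟩
        left_inv := ?_
        right_inv := ?_ }
    · rintro ⟨⟨i, j⟩, h⟩
      simp only
      split_ifs with h1
      · rfl
      · have : i = j := le_antisymm h (not_lt.1 h1)
        subst this
        rfl
    · rintro (⟨⟨i, j⟩, h⟩ | i)
      · exact dif_pos h
      · exact dif_neg (lt_irrefl _)
  rw [e3, Fintype.card_sum, Fintype.card_fin, card_ILt]
  rcases Nat.eq_zero_or_pos n with h0 | h0
  · subst h0
    simp
  · have h2 : n * (n + 1) = n * (n - 1) + n * 2 := by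
      obtain ⟨m, rfl⟩ : ∃ m, n = m + 1 := ⟨n - 1, by omega⟩
      simp only [Nat.add_sub_cancel]
      ring
    rw [h2, Nat.add_mul_div_right _ _ (by norm_num)]

/-- a family of independent elements of the Lie algebra of dimension `d` -/
def HasDim (S : Submonoid (Matrix (Fin n) (Fin n) ℂ)) (d : ℕ) : Prop :=
  ∃ X : Fin d → Matrix (Fin n) (Fin n) ℂ, (∀ a, X a ∈ Lie (S : Set (Matrix (Fin n) (Fin n) ℂ))) ∧ LinearIndependent ℂ X

lemma HasDim.of {S : Submonoid (Matrix (Fin n) (Fin n) ℂ)} {I : Type} [Fintype I] {d : ℕ} (hd : Fintype.card I = d)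
    {X : I → Matrix (Fin n) (Fin n) ℂ} (h : ∀ a, X a ∈ Lie (S : Set (Matrix (Fin n) (Fin n) ℂ)))
    (hL : LinearIndependent ℂ X) : HasDim S d := by
  have e : Fin d ≃ I := (Fintype.equivFinOfCardEq hd).symm
  exact ⟨fun a => X (e a), fun a => h _, hL.comp e e.injective⟩

lemma li_of_entries {I : Type} [Fintype I] {S : I → Matrix (Fin n) (Fin n) ℂ} {J : Matrix (Fin n) (Fin n) ℂ}
    (h : ∀ g : I → ℂ, ∑ p, g p • (J * S p) = 0 → ∀ p, g p = 0) : LinearIndependent ℂ S := by
  rw [Fintype.linearIndependent_iff]
  intro g hg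
  refine h g ?_
  have h1 : ∑ p, g p • (J * S p) = J * ∑ p, g p • S p := by
    rw [Finset.mul_sum]
    exact Finset.sum_congr rfl fun p _ => (mul_smul_comm _ _ _).symm
  rw [h1, hg, mul_zero]

/-- the symplectic group -/
theorem dim_sp {J : Matrix (Fin n) (Fin n) ℂ} (hJ : J.transpose = -J) (hd : J.det ≠ 0) :
    HasDim (isoM J) (n * (n + 1) / 2) := by
  classical
  have hu : IsUnit J.det := Ne.isUnit hd
  set S : ILe n → Matrix (Fin n) (Fin n) ℂ := fun p => Matrix.single p.1.1 p.1.2 1 + Matrix.single p.1.2 p.1.1 1 with hS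
  have hSt : ∀ p, (S p).transpose = S p := by
    intro p
    rw [hS]
    simp only [transpose_add, Matrix.transpose_single]
    rw [add_comm]
  have hJS : ∀ p, J * (J⁻¹ * S p) = S p := fun p => by
    rw [← Matrix.mul_assoc, mul_nonsing_inv _ hu, one_mul]
  refine HasDim.of (card_ILe n) (X := fun p => J⁻¹ * S p) (fun p => lie_iso ?_) ?_
  · have h1 : (J⁻¹ * S p).transpose * J = -(S p) := by
      have h2 : (J * (J⁻¹ * S p)).transpose = (J⁻¹ * S p).transpose * J.transpose := transpose_mul _ _
      rw [hJS, hSt, hJ, mul_neg] at h2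
      rw [eq_comm, neg_eq_iff_eq_neg]
      exact h2
    rw [h1, hJS, neg_add_cancel]
  · refine li_of_entries (J := J) fun g hg p => ?_
    simp only [hJS] at hg
    have h1 := congrFun (congrFun hg p.1.1) p.1.2
    rw [Matrix.sum_apply, Finset.sum_eq_single p] at h1
    · rw [Matrix.smul_apply, hS] at h1
      simp only [Matrix.add_apply, Matrix.single_apply_same, Matrix.zero_apply, smul_eq_mul] at h1
      rcases mul_eq_zero.1 h1 with h2 | h2
      · exact h2
      · exfalso
        rw [Matrix.single_apply] at h2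
        split_ifs at h2
        · norm_num at h2
        · norm_num at h2
    · intro q _ hq
      rw [Matrix.smul_apply, hS]
      simp only [Matrix.add_apply, Matrix.single_apply, smul_eq_mul]
      rw [if_neg, if_neg]
      · simp
      · rintro ⟨h2, h3⟩
        apply hq
        have h4 : p.1.1 = p.1.2 := le_antisymm p.2 (by rw [← h2, ← h3]; exact q.2)
        apply Subtype.ext
        apply Prod.ext
        · rw [h3, h4]
        · rw [h2, h4]
      · rintro ⟨h2, h3⟩
        exact hq (Subtype.ext (Prod.ext h2 h3))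
    · intro h
      exact absurd (Finset.mem_univ _) h

/-- the orthogonal group -/
theorem dim_so {J : Matrix (Fin n) (Fin n) ℂ} (hJ : J.transpose = J) (hd : J.det ≠ 0) :
    HasDim (isoM J) (n * (n - 1) / 2) := by
  classical
  have hu : IsUnit J.det := Ne.isUnit hd
  set S : ILt n → Matrix (Fin n) (Fin n) ℂ := fun p => Matrix.single p.1.1 p.1.2 1 - Matrix.single p.1.2 p.1.1 1 with hS
  have hSt : ∀ p, (S p).transpose = -S p := by
    intro p
    rw [hS]
    simp only [transpose_sub, Matrix.transpose_single]
    rw [neg_sub]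
  have hJS : ∀ p, J * (J⁻¹ * S p) = S p := fun p => by
    rw [← Matrix.mul_assoc, mul_nonsing_inv _ hu, one_mul]
  refine HasDim.of (card_ILt n) (X := fun p => J⁻¹ * S p) (fun p => lie_iso ?_) ?_
  · have h1 : (J⁻¹ * S p).transpose * J = -(S p) := by
      have h2 : (J * (J⁻¹ * S p)).transpose = (J⁻¹ * S p).transpose * J.transpose := transpose_mul _ _
      rw [hJS, hSt, hJ] at h2
      exact h2.symm
    rw [h1, hJS, neg_add_cancel]
  · refine li_of_entries (J := J) fun g hg p => ?_
    simp only [hJS] at hg
    have h1 := congrFun (congrFun hg p.1.1) p.1.2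
    rw [Matrix.sum_apply, Finset.sum_eq_single p] at h1
    · rw [Matrix.smul_apply, hS] at h1
      simp only [Matrix.sub_apply, Matrix.single_apply_same, Matrix.zero_apply, smul_eq_mul] at h1
      rw [Matrix.single_apply, if_neg (fun h => (ne_of_lt p.2) h.2), sub_zero, mul_one] at h1
      exact h1
    · intro q _ hq
      rw [Matrix.smul_apply, hS]
      simp only [Matrix.sub_apply, Matrix.single_apply, smul_eq_mul]
      rw [if_neg, if_neg]
      · simp
      · rintro ⟨h2, h3⟩
        have h4 := q.2
        rw [h2, h3] at h4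
        exact absurd h4 (not_lt.2 p.2.le)
      · rintro ⟨h2, h3⟩
        exact hq (Subtype.ext (Prod.ext h2 h3))
    · intro h
      exact absurd (Finset.mem_univ _) h

/-- the special linear group -/
theorem dim_sl (hn : 1 ≤ n) (d : ℕ) : HasDim (detM n d) (n ^ 2 - 1) := by
  classical
  set L : Fin n := ⟨n - 1, by omega⟩ with hL
  set X : {p : Fin n × Fin n // p ≠ (L, L)} → Matrix (Fin n) (Fin n) ℂ := fun p =>
    Matrix.single p.1.1 p.1.2 1 - if p.1.1 = p.1.2 then Matrix.single L L 1 else 0 with hX
  refine HasDim.of (I := {p : Fin n × Fin n // p ≠ (L, L)}) ?_ (X := X) (fun p => lie_det ?_ d) ?_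
  · rw [Fintype.card_subtype_compl, Fintype.card_prod, Fintype.card_fin, Fintype.card_subtype_eq, sq]
  · rw [hX]
    simp only [trace_sub]
    split_ifs with h
    · rw [h, Matrix.trace_single_eq_same, Matrix.trace_single_eq_same, sub_self]
    · rw [Matrix.trace_single_eq_of_ne _ _ _ h, trace_zero, sub_zero]
  · rw [Fintype.linearIndependent_iff]
    intro g hg p
    have h1 := congrFun (congrFun hg p.1.1) p.1.2
    have hL' : ∀ q : {p : Fin n × Fin n // p ≠ (L, L)}, (if q.1.1 = q.1.2 then Matrix.single L L (1 : ℂ) else 0) p.1.1 p.1.2 = 0 := by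
      intro q
      split_ifs
      · rw [Matrix.single_apply, if_neg]
        rintro ⟨h2, h3⟩
        exact p.2 (Prod.ext h2.symm h3.symm)
      · rfl
    rw [Matrix.sum_apply, Finset.sum_eq_single p] at h1
    · rw [Matrix.smul_apply, hX] at h1
      simp only [Matrix.sub_apply, Matrix.single_apply_same, Matrix.zero_apply, smul_eq_mul, hL', sub_zero, mul_one] at h1
      exact h1
    · intro q _ hq
      rw [Matrix.smul_apply, hX]
      simp only [Matrix.sub_apply, hL', sub_zero, smul_eq_mul]
      rw [Matrix.single_apply, if_neg, mul_zero]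
      rintro ⟨h2, h3⟩
      exact hq (Subtype.ext (Prod.ext h2 h3))
    · intro h
      exact absurd (Finset.mem_univ _) h

end Pool.Agent.L0h14.HO
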