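import Mathlib
import Pool.Agent.L0h14.HO.Dims
import Pool.Agent.Results.MP_cbf1af_ag.AllTuplesDegenerating

/-!
# All tuples of fibres of a hypergeometric family
-/

set_option autoImplicit false

open PowerSeries Module Pool.Agent.Y113

namespace Pool.Agent.L0h14.HO

open Pool.Agent.Y119.HY (Am Jm cm E Hf Hc Yf)
open Pool.Agent.Y119.HZ hiding ode_Hp ode_int gsys_Hp ode_A2 Phi_ode qu_hf hfam_hf Cv_Hp ev_aeval rel_inv relI_vanish
open Pool.Agent.Results.MP_cbf1af_ag.AllTuplesDegenerating (toQ GCond val periods rank)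

lemma gcond {f : ℚ⟦X⟧} (h : SDc f) : GCond f := by
  obtain ⟨a, h1, h2⟩ := h
  refine ⟨((2 ^ a : ℕ) : ℝ), fun m => ?_, fun m => ?_⟩
  · have := h1 m
    exact_mod_cast this
  · obtain ⟨d, hd0, hd, hd'⟩ := h2 m
    refine ⟨d, hd0, ?_, hd'⟩
    exact_mod_cast hd

variable {n : ℕ} {Q : Polynomial ℚ} {G' : Submonoid (Matrix (Fin n) (Fin n) ℂ)}

/-- the transposed holomorphic part -/
noncomputable def Zt (n : ℕ) (Q : Polynomial ℚ) : Matrix (Fin n) (Fin n) ℚ⟦X⟧ := (Hp n Q).transpose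

/-- the residue -/
def Ni' (n : ℕ) : Matrix (Fin n) (Fin n) ℤ := Matrix.of fun i j => if (i : ℕ) = j + 1 then 1 else 0

lemma Ni'_cast (i j : Fin n) : ((Ni' n i j : ℤ) : ℚ) = Am n j i := by
  unfold Ni' Am
  rw [Matrix.of_apply, Matrix.of_apply]
  split_ifs <;> simp

lemma Ni'_map : (Ni' n).map (Int.castRingHom ℂ) = (cm (Am n)).transpose := by
  ext i j
  rw [Matrix.map_apply, Matrix.transpose_apply, Pool.Agent.Y119.HY.cm_apply, ← Ni'_cast]
  simp

lemma Ni'_nil : Ni' n ^ n = 0 := by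
  have h1 : ((Ni' n).map (Int.castRingHom ℂ)) ^ n = 0 := by
    rw [Ni'_map, ← Matrix.transpose_pow, Pool.Agent.Y119.HY.Ac_nil, Matrix.transpose_zero]
  have h2 : (RingHom.mapMatrix (Int.castRingHom ℂ)) (Ni' n ^ n) = 0 := by
    rw [map_pow]
    exact h1
  ext i j
  have h3 := congrFun (congrFun h2 i) j
  rw [RingHom.mapMatrix_apply, Matrix.map_apply, Matrix.zero_apply] at h3
  exact (Int.cast_eq_zero (α := ℂ)).1 h3

/-- the rank is at least the dimension of the group -/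
theorem rank_ge (hQ : HM n Q G') {d : ℕ} (hd : HasDim G' d) : d ≤ rank (Zt n Q) := by
  obtain ⟨X, hX, hLI⟩ := hd
  obtain ⟨τ, hτ⟩ := alg_indep hQ hX hLI
  refine le_csSup ?_ ⟨fun i => ((τ i).2, (τ i).1), hτ⟩
  refine ⟨Fintype.card (Fin n × Fin n), ?_⟩
  rintro d' ⟨T, hT⟩
  have h1 : Function.Injective T := by
    intro i j hij
    exact hT.injective (by
      show Zt n Q (T i).1 (T i).2 = Zt n Q (T j).1 (T j).2
      rw [hij])
  simpa using Fintype.card_le_of_injective T h1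

lemma exp_eq (s : ℂ) : IsNilpotent.exp (s • (Ni' n).map (Int.castRingHom ℂ)) = (E (cm (Am n)) s).transpose := by
  rw [Ni'_map]
  have h0 : (s • (cm (Am n)).transpose) ^ n = 0 := by
    rw [smul_pow, ← Matrix.transpose_pow, Pool.Agent.Y119.HY.Ac_nil, Matrix.transpose_zero, smul_zero]
  rw [IsNilpotent.exp_eq_sum h0]
  unfold E
  rw [Matrix.transpose_sum]
  refine Finset.sum_congr rfl fun l _ => ?_
  rw [smul_pow, ← Matrix.transpose_pow, Matrix.transpose_smul]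
  ext i j
  rw [Matrix.smul_apply, Matrix.smul_apply, Matrix.smul_apply, smul_eq_mul, smul_eq_mul, Rat.smul_def]
  push_cast
  ring

lemma val_eq (m : ℕ) : val (Zt n Q) m = (Hf (Hc n Q) (((1 / (m : ℝ) : ℝ)) : ℂ)).transpose := by
  ext i j
  rw [Matrix.transpose_apply, ← ev_Hp]
  rfl

lemma periods_eq (Ω : Matrix (Fin n) (Fin n) ℂ) (m : ℕ) :
    (periods Ω.transpose (Ni' n) (Zt n Q) m).transpose = Yt n Q m * Ω := by
  unfold periods Yt
  rw [exp_eq, val_eq, Matrix.transpose_mul, Matrix.transpose_mul, Matrix.transpose_transpose, Matrix.transpose_transpose,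
    Matrix.transpose_transpose, Matrix.mul_assoc]

/-- the general theorem for our family -/
theorem all_main (hQ : HM n Q G') :
    ∃ G : ℕ, ∀ k δ D : ℕ,
      (∃ (c : ℝ) (M₀ : ℕ), 0 < c ∧ ∀ M : ℕ, M₀ ≤ M → ∀ Ω : Matrix (Fin n) (Fin n) ℂ, IsUnit Ω →
        Pool.Agent.Results.MP_cbf1af_ag.AllTuplesDegenerating.Bound Ω (Ni' n) (Zt n Q) G k δ D ((k - 1) * (rank (Zt n Q) + 1)) c M) ∧
      ∀ Ω : Matrix (Fin n) (Fin n) ℂ, IsUnit Ω → ∀ (s : ℕ) (ω : Fin s → ℂ),
        (∀ i j, IsAlgebraic (Algebra.adjoin ℚ (Set.range ω)) (Ω i j)) →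
        ∃ (c : ℝ) (M₀ : ℕ), 0 < c ∧ ∀ M : ℕ, M₀ ≤ M →
          Pool.Agent.Results.MP_cbf1af_ag.AllTuplesDegenerating.Bound Ω (Ni' n) (Zt n Q) G k δ D (k * (rank (Zt n Q) + 1) - (s + 1)) c M := by
  obtain ⟨D, b, hD, hb⟩ := exists_b n Q
  obtain ⟨W, hW1, hW2⟩ := hQ.wex
  refine Pool.Agent.Results.MP_cbf1af_ag.AllTuplesDegenerating.result n (T1 D) (Matrix.of fun k j => A1 n D b j k) (Ni' n) (Zt n Q)
    W.transpose ?_ Ni'_nil ?_ ?_ ?_ (fun i j => gcond (hQ.sdc j i)) (fun i j => gcond (hW2 j i))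
  · refine mul_ne_zero (Polynomial.C_ne_zero.2 (by exact_mod_cast hD)) ?_
    intro h0
    have := congrArg (Polynomial.eval 0) h0
    simp at this
  · intro i j
    have h1 := ode_int hQ.qg hb j i
    have h2 : ∑ k, C ((Ni' n i k : ℤ) : ℚ) * Zt n Q k j = ∑ k, Hp n Q j k * C (Am n k i) := by
      refine Finset.sum_congr rfl fun k _ => ?_
      rw [Ni'_cast, mul_comm]
      rfl
    have h3 : ∑ k, Zt n Q i k * toQ ((Matrix.of fun k j => A1 n D b j k) k j) = ∑ k, ps (A1 n D b j k) * Hp n Q k i := by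
      refine Finset.sum_congr rfl fun k _ => ?_
      rw [mul_comm]
      rfl
    rw [h2, h3, ← h1]
    rfl
  · intro i j
    have h1 : coeff 0 (Hp n Q j i) = Pool.Agent.Y119.HY.Hq n Q 0 j i := by
      have := congrFun (congrFun (cf_Hp (n := n) (Q := Q) 0) j) i
      exact this
    show coeff 0 (Hp n Q j i) = _
    rw [h1, Pool.Agent.Y119.HY.Hq_zero, Matrix.one_apply]
    simp only [eq_comm]
  · unfold Zt
    rw [← Matrix.transpose_mul, hW1, Matrix.transpose_one]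

end Pool.Agent.L0h14.HO
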