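import Mathlib
import Pool.Agent.L0h14.HO.AllT

/-!
# Block diagonal matrices
-/

set_option autoImplicit false

open Matrix

namespace Pool.Agent.L0h14.HO

section bd

variable {q : ℕ} {n : Fin q → ℕ} {R : Type*}

/-- the total size -/
abbrev tot (n : Fin q → ℕ) : ℕ := ∑ i, n i

/-- the indices -/
noncomputable def ei (n : Fin q → ℕ) : (Σ i : Fin q, Fin (n i)) ≃ Fin (tot n) := finSigmaFinEquiv

/-- block diagonal matrices -/
noncomputable def bd [Zero R] (M : ∀ i, Matrix (Fin (n i)) (Fin (n i)) R) : Matrix (Fin (tot n)) (Fin (tot n)) R :=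
  (Matrix.blockDiagonal' M).submatrix (ei n).symm (ei n).symm

lemma bd_apply [Zero R] (M : ∀ i, Matrix (Fin (n i)) (Fin (n i)) R) (a b : Σ i : Fin q, Fin (n i)) :
    bd M (ei n a) (ei n b) = Matrix.blockDiagonal' M a b := by
  unfold bd
  rw [Matrix.submatrix_apply, Equiv.symm_apply_apply, Equiv.symm_apply_apply]

lemma bd_same [Zero R] (M : ∀ i, Matrix (Fin (n i)) (Fin (n i)) R) (i : Fin q) (a b : Fin (n i)) :
    bd M (ei n ⟨i, a⟩) (ei n ⟨i, b⟩) = M i a b := by
  rw [bd_apply, Matrix.blockDiagonal'_apply_eq]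

lemma bd_ne [Zero R] (M : ∀ i, Matrix (Fin (n i)) (Fin (n i)) R) {i j : Fin q} (h : i ≠ j) (a : Fin (n i)) (b : Fin (n j)) :
    bd M (ei n ⟨i, a⟩) (ei n ⟨j, b⟩) = 0 := by
  rw [bd_apply, Matrix.blockDiagonal'_apply_ne _ _ _ h]

lemma ei_ext {A B : Matrix (Fin (tot n)) (Fin (tot n)) R} (h : ∀ a b, A (ei n a) (ei n b) = B (ei n a) (ei n b)) : A = B := by
  ext a b
  have := h ((ei n).symm a) ((ei n).symm b)
  rwa [Equiv.apply_symm_apply, Equiv.apply_symm_apply] at this

lemma bd_eq_iff [Zero R] {A : Matrix (Fin (tot n)) (Fin (tot n)) R} {M : ∀ i, Matrix (Fin (n i)) (Fin (n i)) R}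
    (h1 : ∀ i a b, A (ei n ⟨i, a⟩) (ei n ⟨i, b⟩) = M i a b)
    (h2 : ∀ i j, i ≠ j → ∀ a b, A (ei n ⟨i, a⟩) (ei n ⟨j, b⟩) = 0) : A = bd M := by
  refine ei_ext fun a b => ?_
  obtain ⟨i, a⟩ := a
  obtain ⟨j, b⟩ := b
  by_cases h : i = j
  · subst h
    rw [bd_same, h1]
  · rw [bd_ne _ h, h2 i j h]

lemma bd_mul [Ring R] (M M' : ∀ i, Matrix (Fin (n i)) (Fin (n i)) R) : bd (fun i => M i * M' i) = bd M * bd M' := by
  unfold bd
  rw [Matrix.blockDiagonal'_mul, Matrix.submatrix_mul_equiv]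

lemma bd_one [Ring R] : bd (fun i => (1 : Matrix (Fin (n i)) (Fin (n i)) R)) = 1 := by
  unfold bd
  have : (fun i => (1 : Matrix (Fin (n i)) (Fin (n i)) R)) = 1 := rfl
  rw [this, Matrix.blockDiagonal'_one, Matrix.submatrix_one_equiv]

lemma bd_add [Ring R] (M M' : ∀ i, Matrix (Fin (n i)) (Fin (n i)) R) : bd (fun i => M i + M' i) = bd M + bd M' := by
  have h := Matrix.blockDiagonal'_add M M'
  refine ei_ext fun a b => ?_
  rw [Matrix.add_apply, bd_apply, bd_apply, bd_apply]
  exact congrFun (congrFun h a) b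

lemma bd_sub [Ring R] (M M' : ∀ i, Matrix (Fin (n i)) (Fin (n i)) R) : bd (fun i => M i - M' i) = bd M - bd M' := by
  have h := Matrix.blockDiagonal'_sub M M'
  refine ei_ext fun a b => ?_
  rw [Matrix.sub_apply, bd_apply, bd_apply, bd_apply]
  exact congrFun (congrFun h a) b

lemma bd_zero [Ring R] : bd (fun i => (0 : Matrix (Fin (n i)) (Fin (n i)) R)) = 0 := by
  refine ei_ext fun a b => ?_
  rw [bd_apply, Matrix.zero_apply]
  have : (fun i => (0 : Matrix (Fin (n i)) (Fin (n i)) R)) = 0 := rfl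
  rw [this, Matrix.blockDiagonal'_zero, Matrix.zero_apply]

lemma bd_smul [Ring R] {S : Type*} [SMulZeroClass S R] (c : S) (M : ∀ i, Matrix (Fin (n i)) (Fin (n i)) R) :
    bd (fun i => c • M i) = c • bd M := by
  have h := Matrix.blockDiagonal'_smul c M
  refine ei_ext fun a b => ?_
  rw [Matrix.smul_apply, bd_apply, bd_apply]
  exact congrFun (congrFun h a) b

lemma bd_transpose [Ring R] (M : ∀ i, Matrix (Fin (n i)) (Fin (n i)) R) : (bd M).transpose = bd fun i => (M i).transpose := by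
  unfold bd
  rw [Matrix.transpose_submatrix, Matrix.blockDiagonal'_transpose]

lemma bd_map {S : Type*} [Zero R] [Zero S] (f : R → S) (hf : f 0 = 0) (M : ∀ i, Matrix (Fin (n i)) (Fin (n i)) R) :
    (bd M).map f = bd fun i => (M i).map f := by
  unfold bd
  rw [← Matrix.submatrix_map, Matrix.blockDiagonal'_map _ _ hf]

lemma bd_pow [Ring R] (M : ∀ i, Matrix (Fin (n i)) (Fin (n i)) R) (k : ℕ) : bd (fun i => M i ^ k) = bd M ^ k := by
  induction k with
  | zero =>
    simp only [pow_zero]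
    exact bd_one
  | succ k ih =>
    simp only [pow_succ]
    rw [bd_mul, ih]

lemma bd_sum [Ring R] {ι : Type*} (s : Finset ι) (M : ι → ∀ i, Matrix (Fin (n i)) (Fin (n i)) R) :
    bd (fun i => ∑ x ∈ s, M x i) = ∑ x ∈ s, bd (M x) := by
  classical
  induction s using Finset.induction_on with
  | empty =>
    simp only [Finset.sum_empty]
    exact bd_zero
  | insert a s ha ih =>
    simp only [Finset.sum_insert ha]
    rw [bd_add, ih]

lemma bd_inj [Zero R] {M M' : ∀ i, Matrix (Fin (n i)) (Fin (n i)) R} (h : bd M = bd M') : M = M' := by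
  funext i
  ext a b
  rw [← bd_same M, ← bd_same M', h]

/-- one block -/
noncomputable def blk [Ring R] (i : Fin q) (g : Matrix (Fin (n i)) (Fin (n i)) R) : Matrix (Fin (tot n)) (Fin (tot n)) R :=
  bd (Function.update (fun i => (1 : Matrix (Fin (n i)) (Fin (n i)) R)) i g)

lemma update_mul [Ring R] (i : Fin q) (M M' : ∀ i, Matrix (Fin (n i)) (Fin (n i)) R) (g g' : Matrix (Fin (n i)) (Fin (n i)) R) :
    (fun j => Function.update M i g j * Function.update M' i g' j) = Function.update (fun j => M j * M' j) i (g * g') := by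
  funext j
  by_cases h : j = i
  · subst h
    simp only [Function.update_self]
  · simp only [Function.update_of_ne h]

lemma blk_mul [Ring R] (i : Fin q) (g h : Matrix (Fin (n i)) (Fin (n i)) R) : blk i (g * h) = blk i g * blk i h := by
  unfold blk
  rw [← bd_mul, update_mul]
  simp only [mul_one]

lemma blk_one [Ring R] (i : Fin q) : blk i (1 : Matrix (Fin (n i)) (Fin (n i)) R) = 1 := by
  unfold blk
  rw [Function.update_eq_self]
  exact bd_one

/-- products of blocks -/
lemma bd_mem [Ring R] {S : Submonoid (Matrix (Fin (tot n)) (Fin (tot n)) R)} {g : ∀ i, Matrix (Fin (n i)) (Fin (n i)) R}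
    (h : ∀ i, blk i (g i) ∈ S) : bd g ∈ S := by
  classical
  have key : ∀ s : Finset (Fin q), bd (fun i => if i ∈ s then g i else 1) ∈ S := by
    intro s
    induction s using Finset.induction_on with
    | empty =>
      simp only [Finset.notMem_empty, if_false]
      rw [bd_one]
      exact one_mem _
    | insert a s ha ih =>
      have h1 := S.mul_mem (h a) ih
      unfold blk at h1
      rw [← bd_mul] at h1
      have h2 : (fun i => Function.update (fun i => (1 : Matrix (Fin (n i)) (Fin (n i)) R)) a (g a) i * if i ∈ s then g i else 1) =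
          fun i => if i ∈ insert a s then g i else 1 := by
        funext i
        by_cases hi : i = a
        · subst hi
          rw [Function.update_self, if_neg ha, if_pos (Finset.mem_insert_self _ _), mul_one]
        · rw [Function.update_of_ne hi, one_mul]
          simp only [Finset.mem_insert, hi, false_or]
      rw [h2] at h1
      exact h1
  have := key Finset.univ
  simpa using this

end bd

section an

variable {q : ℕ} {n : Fin q → ℕ}

open Pool.Agent.Y119.HY (E Hf Yf HD Sol)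

lemma bd_E {A : ∀ i, Matrix (Fin (n i)) (Fin (n i)) ℂ} (hA : ∀ i, A i ^ n i = 0) (s : ℂ) :
    E (bd A) s = bd fun i => E (A i) s := by
  have h1 : ∀ i, E (A i) s = ∑ l ∈ Finset.range (tot n), (s ^ l / (l.factorial : ℂ)) • A i ^ l := by
    intro i
    unfold E
    have hle : n i ≤ tot n := Finset.single_le_sum (f := n) (fun _ _ => Nat.zero_le _) (Finset.mem_univ i)
    refine Finset.sum_subset (Finset.range_mono hle) fun l _ hl => ?_
    rw [Finset.mem_range, not_lt] at hl
    rw [pow_eq_zero_of_le hl (hA i), smul_zero]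
  simp only [h1]
  rw [bd_sum]
  unfold E
  refine Finset.sum_congr rfl fun l _ => ?_
  rw [bd_smul, bd_pow]

lemma bd_nil {A : ∀ i, Matrix (Fin (n i)) (Fin (n i)) ℂ} (hA : ∀ i, A i ^ n i = 0) : bd A ^ tot n = 0 := by
  rw [← bd_pow]
  have h1 : (fun i => A i ^ tot n) = fun i => (0 : Matrix (Fin (n i)) (Fin (n i)) ℂ) := by
    funext i
    have hle : n i ≤ tot n := Finset.single_le_sum (f := n) (fun _ _ => Nat.zero_le _) (Finset.mem_univ i)
    exact pow_eq_zero_of_le hle (hA i)
  rw [h1]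
  exact bd_zero

lemma bd_Hf (K : ∀ i, ℕ → Matrix (Fin (n i)) (Fin (n i)) ℂ) (z : ℂ) :
    Hf (fun k => bd fun i => K i k) z = bd fun i => Hf (K i) z := by
  refine bd_eq_iff (fun i a b => ?_) fun i j hij a b => ?_
  · unfold Hf
    rw [Matrix.of_apply, Matrix.of_apply]
    congr 1
    funext k
    exact bd_same _ _ _ _
  · unfold Hf
    rw [Matrix.of_apply]
    have h1 : (fun k => bd (fun i => K i k) (ei n ⟨i, a⟩) (ei n ⟨j, b⟩)) = fun _ => 0 := by
      funext k
      exact bd_ne _ hij _ _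
    rw [h1]
    unfold Pool.Agent.Y119.HY.ps
    simp

lemma bd_Yf {A : ∀ i, Matrix (Fin (n i)) (Fin (n i)) ℂ} (hA : ∀ i, A i ^ n i = 0)
    (K : ∀ i, ℕ → Matrix (Fin (n i)) (Fin (n i)) ℂ) (z : ℂ) :
    Yf (bd A) (fun k => bd fun i => K i k) z = bd fun i => Yf (A i) (K i) z := by
  unfold Yf
  rw [bd_Hf, bd_E hA, ← bd_mul]

lemma bd_Sol {A B : ∀ i, Matrix (Fin (n i)) (Fin (n i)) ℂ} {K : ∀ i, ℕ → Matrix (Fin (n i)) (Fin (n i)) ℂ}
    (h : ∀ i, Sol (A i) (B i) (K i)) : Sol (bd A) (bd B) (fun k => bd fun i => K i k) where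
  zero := by
    have h1 : (fun i => K i 0) = fun i => (1 : Matrix (Fin (n i)) (Fin (n i)) ℂ) := by
      funext i
      exact (h i).zero
    show bd (fun i => K i 0) = 1
    rw [h1, bd_one]
  step := by
    intro k
    have h1 : (fun i => ((k : ℂ) + 1) • K i (k + 1) + (K i (k + 1) * A i - A i * K i (k + 1))) =
        fun i => (k : ℂ) • K i k + (K i k * A i - A i * K i k) + B i * K i k := by
      funext i
      exact (h i).step k
    have h2 := congrArg bd h1
    rw [bd_add, bd_smul, bd_sub, bd_mul, bd_mul] at h2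
    rw [bd_add, bd_add, bd_smul, bd_sub, bd_mul, bd_mul, bd_mul] at h2
    exact h2

lemma bd_an {Φ : ∀ i, ℂ → Matrix (Fin (n i)) (Fin (n i)) ℂ} {U : Set ℂ}
    (h : ∀ i a b, AnalyticOnNhd ℂ (fun s => Φ i s a b) U) (a b : Fin (tot n)) :
    AnalyticOnNhd ℂ (fun s => (bd fun i => Φ i s) a b) U := by
  obtain ⟨⟨i, a⟩, rfl⟩ := (ei n).surjective a
  obtain ⟨⟨j, b⟩, rfl⟩ := (ei n).surjective b
  by_cases hij : i = j
  · subst hij
    simp only [bd_same]
    exact h i a b
  · simp only [bd_ne _ hij]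
    exact analyticOnNhd_const

lemma bd_HD {M : ∀ i, ℂ → Matrix (Fin (n i)) (Fin (n i)) ℂ} {M' : ∀ i, Matrix (Fin (n i)) (Fin (n i)) ℂ} {z : ℂ}
    (h : ∀ i, HD (M i) (M' i) z) : HD (fun s => bd fun i => M i s) (bd M') z := by
  intro a b
  obtain ⟨⟨i, a⟩, rfl⟩ := (ei n).surjective a
  obtain ⟨⟨j, b⟩, rfl⟩ := (ei n).surjective b
  by_cases hij : i = j
  · subst hij
    simp only [bd_same]
    exact h i a b
  · simp only [bd_ne _ hij]
    exact hasDerivAt_const _ _

end an

end Pool.Agent.L0h14.HO
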