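import Mathlib
import Pool.Agent.L0h14.HO.Bd

/-!
# The monodromy at one of several systems
-/

set_option autoImplicit false

open Matrix Filter Topology

namespace Pool.Agent.L0h14.HO

open Pool.Agent.Y119.HY hiding sol_c a0_ne ratio sing Bm_mul step_q

variable {n : ℕ}

lemma log_HP {x : ℝ} (hx : 0 < x) (hx1 : x < 1) : Complex.log (1 - (x : ℂ)) ∈ HP := by
  have hx0 : (0 : ℝ) < 1 - x := by linarith
  have hxr : (1 - (x : ℂ)) = ((1 - x : ℝ) : ℂ) := by push_cast; rfl
  show (Complex.log (1 - (x : ℂ))).re < 0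
  rw [hxr, ← Complex.ofReal_log hx0.le, Complex.ofReal_re]
  exact Real.log_neg hx0 (by linarith)

/-- **The monodromy at `1` preserves the relations**, general form -/
theorem mono_gen {Φ : ℂ → Matrix (Fin n) (Fin n) ℂ} (hΦ : ∀ i j, AnalyticOnNhd ℂ (fun s => Φ s i j) HP)
    {Y : ℂ → Matrix (Fin n) (Fin n) ℂ} (hY : ∀ x : ℝ, 0 < x → x < 1 → Y (x : ℂ) = Φ (Complex.log (1 - (x : ℂ)))) {c : ℂ}
    (hc : Complex.exp c = 1) (hc0 : c.re = 0) {T : Matrix (Fin n) (Fin n) ℂ} (hT : ∀ s ∈ HP, Φ (s + c) = Φ s * T) :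
    T ∈ Gal Y := by
  intro P hP x hx hx1
  set F : ℂ → ℂ := fun s => ev P (1 - Complex.exp s) (Complex.log (1 - Complex.exp s)) (Φ s) with hF
  have hFan : AnalyticOnNhd ℂ F HP := by
    have hexp : AnalyticOnNhd ℂ Complex.exp HP := fun s _ => analyticAt_cexp
    have h1 : AnalyticOnNhd ℂ (fun s => 1 - Complex.exp s) HP := analyticOnNhd_const.sub hexp
    refine ev_an P h1 ?_ hΦ
    intro s hs
    refine AnalyticAt.clog (h1 s hs) ?_
    left
    have h2 : (Complex.exp s).re ≤ ‖Complex.exp s‖ := Complex.re_le_norm _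
    have h3 := exp_HP hs
    rw [Complex.sub_re, Complex.one_re]
    linarith
  -- vanishing at real points
  have hreal : ∀ r : ℝ, r < 0 → F (r : ℂ) = 0 := by
    intro r hr
    have e1 : Real.exp r < 1 := Real.exp_lt_one_iff.2 hr
    have e2 : 0 < Real.exp r := Real.exp_pos r
    have h3 := hP (1 - Real.exp r) (by linarith) (by linarith)
    rw [hY (1 - Real.exp r) (by linarith) (by linarith)] at h3
    push_cast at h3
    rw [sub_sub_cancel] at h3
    have e3 : Complex.log (Complex.exp (r : ℂ)) = r := by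
      rw [← Complex.ofReal_exp, ← Complex.ofReal_log e2.le, Real.log_exp]
    rw [e3] at h3
    exact h3
  have h1 := HP_zero hFan hreal (s := Complex.log (1 - (x : ℂ)) + c) (by
    show (Complex.log (1 - (x : ℂ)) + c).re < 0
    rw [Complex.add_re, hc0, add_zero]
    exact log_HP hx hx1)
  have hx0 : (0 : ℝ) < 1 - x := by linarith
  have hxr : (1 - (x : ℂ)) = ((1 - x : ℝ) : ℂ) := by push_cast; rfl
  have hx0' : (1 - (x : ℂ)) ≠ 0 := by
    rw [hxr]
    exact_mod_cast hx0.ne'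
  have e1 : Complex.exp (Complex.log (1 - (x : ℂ)) + c) = 1 - (x : ℂ) := by
    rw [Complex.exp_add, Complex.exp_log hx0', hc, mul_one]
  rw [hF] at h1
  simp only [e1, sub_sub_cancel] at h1
  rw [hT _ (log_HP hx hx1), ← hY x hx hx1] at h1
  exact h1

/-- the period of the loop -/
noncomputable def tp (r : ℤ) : ℂ := (r : ℂ) * (2 * Real.pi * Complex.I)

lemma tp_exp (r : ℤ) : Complex.exp (tp r) = 1 := by
  unfold tp
  exact Complex.exp_int_mul_two_pi_mul_I r

lemma tp_re (r : ℤ) : (tp r).re = 0 := by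
  unfold tp
  simp

/-- The continuation of `Y` around `1`: the matrices `T r` of the `r`-th power of the monodromy. -/
def LD (Y : ℂ → Matrix (Fin n) (Fin n) ℂ) (T : ℤ → Matrix (Fin n) (Fin n) ℂ) : Prop :=
  ∃ Φ : ℂ → Matrix (Fin n) (Fin n) ℂ, (∀ i j, AnalyticOnNhd ℂ (fun s => Φ s i j) HP) ∧
    (∀ x : ℝ, 0 < x → x < 1 → Y (x : ℂ) = Φ (Complex.log (1 - (x : ℂ)))) ∧
    ∀ (r : ℤ), ∀ s ∈ HP, Φ (s + tp r) = Φ s * T r

lemma LD.mem {Y : ℂ → Matrix (Fin n) (Fin n) ℂ} {T : ℤ → Matrix (Fin n) (Fin n) ℂ} (h : LD Y T) (r : ℤ) : T r ∈ Gal Y := by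
  obtain ⟨Φ, h1, h2, h3⟩ := h
  exact mono_gen h1 h2 (tp_exp r) (tp_re r) (h3 r)

/-- several systems -/
lemma LD.bd {q : ℕ} {n : Fin q → ℕ} {Y : ∀ i, ℂ → Matrix (Fin (n i)) (Fin (n i)) ℂ}
    {T : ∀ i, ℤ → Matrix (Fin (n i)) (Fin (n i)) ℂ} (h : ∀ i, LD (Y i) (T i)) :
    LD (fun z => HO.bd fun i => Y i z) (fun r => HO.bd fun i => T i r) := by
  choose Φ h1 h2 h3 using h
  refine ⟨fun s => HO.bd fun i => Φ i s, bd_an h1, fun x hx hx1 => ?_, fun r s hs => ?_⟩
  · show HO.bd (fun i => Y i (x : ℂ)) = HO.bd fun i => Φ i (Complex.log (1 - (x : ℂ)))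
    congr 1
    funext i
    exact h2 i x hx hx1
  · show HO.bd (fun i => Φ i (s + tp r)) = HO.bd (fun i => Φ i s) * HO.bd fun i => T i r
    rw [← bd_mul]
    congr 1
    funext i
    exact h3 i r s hs

/-! ### the case of unipotent local monodromy -/

lemma LD.unip {A B : Matrix (Fin n) (Fin n) ℂ} {K : ℕ → Matrix (Fin n) (Fin n) ℂ} (hB : B ^ n = 0) (hK : Sol B (-A) K)
    {Y : ℂ → Matrix (Fin n) (Fin n) ℂ} {M Mi : Matrix (Fin n) (Fin n) ℂ} (hMi : M * Mi = 1)
    (hY : ∀ x : ℝ, 0 < x → x < 1 → Y (x : ℂ) = Yf B K (1 - (x : ℂ)) * M) :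
    LD Y fun r => Mi * E B (tp r) * M := by
  refine ⟨fun s => Hf K (Complex.exp s) * E B s * M, ?_, fun x hx hx1 => ?_, fun r s hs => ?_⟩
  · have h2 : ∀ i j, AnalyticOnNhd ℂ (fun s => Hf K (Complex.exp s) i j) HP := by
      intro i j s hs
      have h3 : AnalyticAt ℂ (fun w => Hf K w i j) (Complex.exp s) := Hf_an hK hB i j _ (by
        rw [Metric.mem_ball, dist_zero_right]
        exact exp_HP hs)
      exact h3.fun_comp analyticAt_cexp
    have h4 : ∀ i j, AnalyticOnNhd ℂ (fun s => E B s i j) HP := by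
      intro i j
      unfold E
      simp only [Matrix.sum_apply, Matrix.smul_apply, smul_eq_mul]
      refine Finset.analyticOnNhd_fun_sum _ fun l _ => AnalyticOnNhd.mul ?_ analyticOnNhd_const
      intro s _
      exact ((analyticAt_id).pow l).div analyticAt_const (by exact_mod_cast l.factorial_ne_zero)
    intro i j
    simp only [Matrix.mul_apply]
    exact Finset.analyticOnNhd_fun_sum _ fun l _ => (Finset.analyticOnNhd_fun_sum _ fun k _ =>
      (h2 _ _).mul (h4 _ _)).mul analyticOnNhd_const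
  · rw [hY x hx hx1]
    unfold Yf
    have hx0 : (0 : ℝ) < 1 - x := by linarith
    have hx0' : (1 - (x : ℂ)) ≠ 0 := by
      have : (1 - (x : ℂ)) = ((1 - x : ℝ) : ℂ) := by push_cast; rfl
      rw [this]
      exact_mod_cast hx0.ne'
    simp only
    rw [Complex.exp_log hx0']
  · have e1 : Complex.exp (s + tp r) = Complex.exp s := by rw [Complex.exp_add, tp_exp, mul_one]
    show Hf K (Complex.exp (s + tp r)) * E B (s + tp r) * M = _
    rw [e1, E_add hB]
    calc _ = Hf K (Complex.exp s) * E B s * (M * Mi) * E B (tp r) * M := by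
          rw [hMi, mul_one]
          simp only [Matrix.mul_assoc]
      _ = _ := by simp only [Matrix.mul_assoc]

/-! ### the case of a pseudo-reflection -/

lemma LD.refl {σ : ℝ} (hσ : (σ : ℂ) ≠ 0) {K : ℕ → Matrix (Fin n) (Fin n) ℂ} {N2 : Matrix (Fin n) (Fin n) ℂ}
    (hN : N2 * N2 = (-(σ : ℂ)) • N2) (hg : ∀ i j, PG fun k => K k i j)
    {Y : ℂ → Matrix (Fin n) (Fin n) ℂ} {M Mi : Matrix (Fin n) (Fin n) ℂ} (hMi : M * Mi = 1)
    (hY : ∀ x : ℝ, 0 < x → x < 1 → Y (x : ℂ) = ZS σ N2 K (1 - (x : ℂ)) * M) :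
    LD Y fun r => Mi * PS σ N2 (tp r) * M := by
  refine ⟨fun s => Hf K (Complex.exp s) * PS σ N2 s * M, ?_, fun x hx hx1 => ?_, fun r s hs => ?_⟩
  · have h2 : ∀ i j, AnalyticOnNhd ℂ (fun s => Hf K (Complex.exp s) i j) HP := by
      intro i j s hs
      have h3 : AnalyticAt ℂ (fun w => Hf K w i j) (Complex.exp s) := Hf_an1 hg i j _ (by
        rw [Metric.mem_ball, dist_zero_right]
        exact exp_HP hs)
      exact h3.fun_comp analyticAt_cexp
    have h4 : ∀ i j, AnalyticOnNhd ℂ (fun s => PS σ N2 s i j) HP := by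
      intro i j
      unfold PS
      simp only [Matrix.add_apply, Matrix.smul_apply, smul_eq_mul]
      refine analyticOnNhd_const.add (AnalyticOnNhd.mul (analyticOnNhd_const.mul (analyticOnNhd_const.sub ?_))
        analyticOnNhd_const)
      intro s _
      exact (analyticAt_cexp).fun_comp (analyticAt_const.mul analyticAt_id)
    intro i j
    simp only [Matrix.mul_apply]
    exact Finset.analyticOnNhd_fun_sum _ fun l _ => (Finset.analyticOnNhd_fun_sum _ fun k _ =>
      (h2 _ _).mul (h4 _ _)).mul analyticOnNhd_const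
  · rw [hY x hx hx1]
    unfold ZS
    have hx0 : (0 : ℝ) < 1 - x := by linarith
    have hx0' : (1 - (x : ℂ)) ≠ 0 := by
      have : (1 - (x : ℂ)) = ((1 - x : ℝ) : ℂ) := by push_cast; rfl
      rw [this]
      exact_mod_cast hx0.ne'
    simp only
    rw [Complex.exp_log hx0']
  · have e1 : Complex.exp (s + tp r) = Complex.exp s := by rw [Complex.exp_add, tp_exp, mul_one]
    show Hf K (Complex.exp (s + tp r)) * PS σ N2 (s + tp r) * M = _
    rw [e1, PS_add hσ hN]
    calc _ = Hf K (Complex.exp s) * PS σ N2 s * (M * Mi) * PS σ N2 (tp r) * M := by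
          rw [hMi, mul_one]
          simp only [Matrix.mul_assoc]
      _ = _ := by simp only [Matrix.mul_assoc]

end Pool.Agent.L0h14.HO
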