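import Mathlib
import Pool.Agent.L0h14.HO.JMono

/-!
# Systems with maximally unipotent monodromy at zero: the monodromy preserves the relations
-/

set_option autoImplicit false

open Filter Topology Matrix Polynomial

namespace Pool.Agent.L0h14.HO

open Pool.Agent.Y119.HY

variable {n : ℕ} {N : Matrix (Fin n) (Fin n) ℂ} {F Y : ℂ → Matrix (Fin n) (Fin n) ℂ}

/-- the monodromy at `0` preserves the relations -/
theorem mono_zeroF (h0 : N ^ n = 0) (hF : ∀ i j, AnalyticOnNhd ℂ (fun z => F z i j) (Metric.ball 0 1))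
    (hY : ∀ x : ℝ, 0 < x → x < 1 → Y (x : ℂ) = F (x : ℂ) * E N (Complex.log x)) (c : ℂ) {P : MvPolynomial (Vr n) ℂ}
    (hP : P ∈ Rel Y) {x : ℝ} (hx : 0 < x) (hx1 : x < 1) :
    ev P (x : ℂ) (Complex.log x + c) (Y x * E N c) = 0 := by
  have h1 : ∀ w ∈ Metric.ball (0 : ℂ) 1, evp P (C w) X ((F w).map C * Ep N) = 0 := by
    refine PA.log_zero (f := fun w => evp P (C w) X ((F w).map C * Ep N)) ?_ fun y hy hy1 => ?_
    · refine PA.aeval (fun o => ?_) P
      rcases o with _ | _ | x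
      · exact PA.ofFun analyticOnNhd_id
      · exact PA.const _
      · simp only [pt, Option.elim_some, Matrix.mul_apply, Matrix.map_apply]
        exact PA.sum _ fun l _ => (PA.ofFun (hF _ _)).mul (PA.const _)
    · rw [eval_evp, map_mul_eval, map_C_eval, Ep_eval, Complex.ofReal_log hy.le, eval_C, eval_X, ← hY y hy hy1]
      exact hP y hy hy1
  have h2 := congrArg (Polynomial.eval (Complex.log x + c)) (h1 x (by
    rw [Metric.mem_ball, dist_zero_right, Complex.norm_real, Real.norm_of_nonneg hx.le]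
    exact hx1))
  rw [eval_evp, map_mul_eval, map_C_eval, Ep_eval, eval_zero, E_add h0, ← Matrix.mul_assoc, eval_C, eval_X, ← hY x hx hx1] at h2
  exact h2

/-- conjugation by the monodromy at `0` -/
theorem conj_EF (h0 : N ^ n = 0) (hF : ∀ i j, AnalyticOnNhd ℂ (fun z => F z i j) (Metric.ball 0 1))
    (hY : ∀ x : ℝ, 0 < x → x < 1 → Y (x : ℂ) = F (x : ℂ) * E N (Complex.log x)) (c : ℂ) (g : Matrix (Fin n) (Fin n) ℂ)
    (hg : g ∈ Gal Y) : E N c * g * E N (-c) ∈ Gal Y := by
  intro P hP x hx hx1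
  have h1 : sb (-c) (E N (-c)) P ∈ Rel Y := fun y hy hy1 => by
    rw [ev_sb]
    exact mono_zeroF h0 hF hY (-c) hP hy hy1
  have h2 : sb (-c) (g * E N (-c)) P ∈ Rel Y := fun y hy hy1 => by
    have h3 := hg _ h1 y hy hy1
    rw [ev_sb, Matrix.mul_assoc] at h3
    rw [ev_sb]
    exact h3
  have h3 := mono_zeroF h0 hF hY c h2 hx hx1
  rw [ev_sb, add_neg_cancel_right] at h3
  simp only [Matrix.mul_assoc] at h3 ⊢
  exact h3

/-- half planes -/
def HPa (a : ℝ) : Set ℂ := {s | s.re < a}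

lemma HPa_zero {a : ℝ} {f : ℂ → ℂ} (hf : AnalyticOnNhd ℂ f (HPa a)) (h : ∀ r : ℝ, r < a → f (r : ℂ) = 0) {s : ℂ}
    (hs : s ∈ HPa a) : f s = 0 := by
  have h1 : AnalyticOnNhd ℂ (fun s : ℂ => f (s + (a : ℂ))) HP := by
    intro w hw
    have hw' : w.re < 0 := hw
    have h2 : AnalyticAt ℂ f (w + (a : ℂ)) := hf _ (by
      show (w + (a : ℂ)).re < a
      rw [Complex.add_re, Complex.ofReal_re]
      linarith)
    exact h2.fun_comp (f := fun s : ℂ => s + (a : ℂ)) (analyticAt_id.add analyticAt_const)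
  have hs' : s.re < a := hs
  have h3 := HP_zero h1 (fun r hr => by
    have := h (r + a) (by linarith)
    push_cast at this
    exact this) (s := s - (a : ℂ)) (by
      show (s - (a : ℂ)).re < 0
      rw [Complex.sub_re, Complex.ofReal_re]
      linarith)
  simpa using h3

/-- the identity theorem in the lens -/
lemma Lens_zero {g : ℂ → ℂ} (hg : AnalyticOnNhd ℂ g Lens) {a : ℝ} (ha0 : 0 ≤ a) (ha1 : a < 1)
    (h : ∀ x : ℝ, a < x → x < 1 → g (x : ℂ) = 0) {x : ℝ} (hx : 0 < x) (hx1 : x < 1) : g (x : ℂ) = 0 := by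
  have hzero : Set.EqOn g 0 Lens := by
    refine AnalyticOnNhd.eqOn_zero_of_preconnected_of_frequently_eq_zero hg preconn_Lens (z₀ := (((a + 1) / 2 : ℝ) : ℂ)) ?_ ?_
    · exact real_mem_Lens (by linarith) (by linarith)
    · rw [Filter.frequently_iff]
      intro U hU
      rw [mem_nhdsWithin] at hU
      obtain ⟨V, hVo, hV1, hV2⟩ := hU
      have h1 : ∀ᶠ r : ℝ in 𝓝 ((a + 1) / 2), (r : ℂ) ∈ V :=
        (Complex.continuous_ofReal.tendsto ((a + 1) / 2)).eventually (hVo.mem_nhds hV1)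
      have h2 : ∀ᶠ r : ℝ in 𝓝 ((a + 1) / 2), r < 1 := gt_mem_nhds (by linarith)
      obtain ⟨ε, hε, h3⟩ := Metric.eventually_nhds_iff.1 (h1.and h2)
      have h4 := h3 (y := (a + 1) / 2 + ε / 2) (by
        rw [Real.dist_eq]
        have : (a + 1) / 2 + ε / 2 - (a + 1) / 2 = ε / 2 := by ring
        rw [this, abs_of_pos (by positivity)]
        linarith)
      refine ⟨(((a + 1) / 2 + ε / 2 : ℝ) : ℂ), hV2 ⟨h4.1, ?_⟩, h _ (by linarith) h4.2⟩
      intro h5
      rw [Set.mem_singleton_iff, Complex.ofReal_inj] at h5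
      linarith
  exact hzero (real_mem_Lens hx hx1)

lemma E_an (h0 : N ^ n = 0) (i j : Fin n) : AnalyticOnNhd ℂ (fun s => E N s i j) Set.univ := by
  have h1 : Differentiable ℂ fun s => E N s i j := fun s => (E_HD h0 s i j).differentiableAt
  exact fun s _ => h1.analyticAt s

/-- **The local monodromy at `1` preserves the relations.** -/
theorem mono_at (h0 : N ^ n = 0) (hF : ∀ i j, AnalyticOnNhd ℂ (fun z => F z i j) (Metric.ball 0 1))
    (hYF : ∀ x : ℝ, 0 < x → x < 1 → Y (x : ℂ) = F (x : ℂ) * E N (Complex.log x)) {a : ℝ} (ha : a ≤ 0)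
    {Φ : ℂ → Matrix (Fin n) (Fin n) ℂ} (hΦ : ∀ i j, AnalyticOnNhd ℂ (fun s => Φ s i j) (HPa a))
    (hY : ∀ x : ℝ, 1 - Real.exp a < x → x < 1 → Y (x : ℂ) = Φ (Complex.log (1 - (x : ℂ)))) {c : ℂ}
    (hc : Complex.exp c = 1) (hc0 : c.re = 0) {T : Matrix (Fin n) (Fin n) ℂ} (hT : ∀ s ∈ HPa a, Φ (s + c) = Φ s * T) :
    T ∈ Gal Y := by
  intro P hP x hx hx1
  have hea : Real.exp a ≤ 1 := Real.exp_le_one_iff.2 ha
  have hea0 : 0 < Real.exp a := Real.exp_pos a
  set G : ℂ → ℂ := fun s => ev P (1 - Complex.exp s) (Complex.log (1 - Complex.exp s)) (Φ s) with hG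
  have hsub : HPa a ⊆ HP := fun s hs => lt_of_lt_of_le hs ha
  have hGan : AnalyticOnNhd ℂ G (HPa a) := by
    have hexp : AnalyticOnNhd ℂ Complex.exp (HPa a) := fun s _ => analyticAt_cexp
    have h1 : AnalyticOnNhd ℂ (fun s => 1 - Complex.exp s) (HPa a) := analyticOnNhd_const.sub hexp
    refine ev_an P h1 ?_ hΦ
    intro s hs
    refine AnalyticAt.clog (h1 s hs) ?_
    left
    have h2 : (Complex.exp s).re ≤ ‖Complex.exp s‖ := Complex.re_le_norm _
    have h3 := exp_HP (hsub hs)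
    rw [Complex.sub_re, Complex.one_re]
    linarith
  have hreal : ∀ r : ℝ, r < a → G (r : ℂ) = 0 := by
    intro r hr
    have e1 : Real.exp r < Real.exp a := Real.exp_lt_exp.2 hr
    have e2 : 0 < Real.exp r := Real.exp_pos r
    have h3 := hP (1 - Real.exp r) (by linarith) (by linarith)
    rw [hY (1 - Real.exp r) (by linarith) (by linarith)] at h3
    push_cast at h3
    rw [sub_sub_cancel] at h3
    have e3 : Complex.log (Complex.exp (r : ℂ)) = r := by
      rw [← Complex.ofReal_exp, ← Complex.ofReal_log e2.le, Real.log_exp]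
    rw [e3] at h3
    exact h3
  -- vanishing near `1`
  have hnear : ∀ y : ℝ, 1 - Real.exp a < y → y < 1 → ev P (y : ℂ) (Complex.log y) (Y y * T) = 0 := by
    intro y hy hy1
    have hy0 : (0 : ℝ) < 1 - y := by linarith
    have hyr : (1 - (y : ℂ)) = ((1 - y : ℝ) : ℂ) := by push_cast; rfl
    have hy0' : (1 - (y : ℂ)) ≠ 0 := by
      rw [hyr]
      exact_mod_cast hy0.ne'
    have hmem : Complex.log (1 - (y : ℂ)) ∈ HPa a := by
      show (Complex.log (1 - (y : ℂ))).re < a
      rw [hyr, ← Complex.ofReal_log hy0.le, Complex.ofReal_re, Real.log_lt_iff_lt_exp hy0]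
      linarith
    have h1 := HPa_zero hGan hreal (s := Complex.log (1 - (y : ℂ)) + c) (by
      show (Complex.log (1 - (y : ℂ)) + c).re < a
      rw [Complex.add_re, hc0, add_zero]
      exact hmem)
    have e1 : Complex.exp (Complex.log (1 - (y : ℂ)) + c) = 1 - (y : ℂ) := by
      rw [Complex.exp_add, Complex.exp_log hy0', hc, mul_one]
    rw [hG] at h1
    simp only [e1, sub_sub_cancel] at h1
    rw [hT _ hmem, ← hY y hy hy1] at h1
    exact h1
  -- the identity theorem
  set g : ℂ → ℂ := fun z => ev P z (Complex.log z) (F z * E N (Complex.log z) * T) with hg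
  have hsL : Lens ⊆ Metric.ball 0 1 := Set.inter_subset_left
  have hlog : AnalyticOnNhd ℂ Complex.log Lens := fun z hz => analyticAt_clog (slit_Lens hz)
  have hgan : AnalyticOnNhd ℂ g Lens := by
    refine ev_an P analyticOnNhd_id hlog fun i j => ?_
    simp only [Matrix.mul_apply]
    refine Finset.analyticOnNhd_fun_sum _ fun l _ => AnalyticOnNhd.mul ?_ analyticOnNhd_const
    refine Finset.analyticOnNhd_fun_sum _ fun m _ => AnalyticOnNhd.mul ((hF i m).mono hsL) ?_
    intro z hz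
    exact (E_an h0 m l _ (Set.mem_univ _)).fun_comp (hlog z hz)
  have h2 := Lens_zero hgan (a := 1 - Real.exp a) (by linarith) (by linarith) (fun y hy hy1 => by
    have h3 := hnear y hy hy1
    rw [hYF y (by linarith) hy1] at h3
    exact h3) hx hx1
  rw [hYF x hx hx1]
  exact h2

end Pool.Agent.L0h14.HO
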