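import Mathlib
import Pool.Agent.L0h14.HO.CLoc
import Pool.Agent.L0h14.HO.Sl

/-!
# Density of the group generated by a regular unipotent group and a pseudo-reflection: the three types
-/

set_option autoImplicit false

open Matrix Filter Topology

namespace Pool.Agent.L0h14.HO

open Pool.Agent.Y119.HY (HD E E_HD E_zero E_mul_neg E_add chain_li om om_eq om_skew om_self om_add om_smul tv tv_mulVec sp_all)

variable {n : ℕ} {J N : Matrix (Fin n) (Fin n) ℂ} {u p : Fin n → ℂ}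

lemma om_nd (hdet : J.det ≠ 0) {u : Fin n → ℂ} (h : ∀ x, om J u x = 0) : u = 0 := by
  have h5 : ∀ w : Fin n → ℂ, u ⬝ᵥ w = 0 := by
    intro w
    have h2 := h (J⁻¹ *ᵥ w)
    unfold om at h2
    rw [mulVec_mulVec, mul_nonsing_inv _ (Ne.isUnit hdet), one_mulVec] at h2
    exact h2
  funext i
  have := h5 (Pi.single i 1)
  rwa [dotProduct_single_one] at this

lemma psr_mulVec (x : Fin n → ℂ) : (1 - vecMulVec u p) *ᵥ x = x - (p ⬝ᵥ x) • u := by
  rw [sub_mulVec, one_mulVec, vm_mulVec]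

/-- the basic identity -/
lemma psr_om (hg : (1 - vecMulVec u p).transpose * J * (1 - vecMulVec u p) = J) (x y : Fin n → ℂ) :
    (p ⬝ᵥ x) * om J u y + (p ⬝ᵥ y) * om J x u = (p ⬝ᵥ x) * (p ⬝ᵥ y) * om J u u := by
  have h2 := iso_om hg x y
  rw [psr_mulVec, psr_mulVec] at h2
  have e1 : x - (p ⬝ᵥ x) • u = x + (-(p ⬝ᵥ x)) • u := by rw [neg_smul, sub_eq_add_neg]
  have e2 : y - (p ⬝ᵥ y) • u = y + (-(p ⬝ᵥ y)) • u := by rw [neg_smul, sub_eq_add_neg]
  have e3 : ∀ (a b c : Fin n → ℂ) (s : ℂ), om J (a + s • b) c = om J a c + s * om J b c := by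
    intro a b c s
    unfold om
    rw [add_dotProduct, smul_dotProduct, smul_eq_mul]
  rw [e1, e2, e3, om_add, om_add, om_smul, om_smul] at h2
  linear_combination -h2

/-- an isometric pseudo-reflection of an alternating form is a transvection -/
lemma tv_of (hJ : J.transpose = -J) (hdet : J.det ≠ 0) (hu : u ≠ 0) (hp : p ≠ 0)
    (hg : (1 - vecMulVec u p).transpose * J * (1 - vecMulVec u p) = J) :
    ∃ c : ℂ, c ≠ 0 ∧ (∀ y, p ⬝ᵥ y = c * om J u y) ∧ ∀ k : ℕ, (1 - vecMulVec u p) ^ k = tv J u (-(k * c)) := by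
  obtain ⟨i, hi⟩ : ∃ i, p i ≠ 0 := by
    by_contra hcon
    push Not at hcon
    exact hp (funext hcon)
  set x₀ : Fin n → ℂ := Pi.single i (p i)⁻¹ with hx₀
  have hpx : p ⬝ᵥ x₀ = 1 := by
    rw [hx₀, dotProduct_single, mul_inv_cancel₀ hi]
  have h1 : ∀ y, om J u y = (p ⬝ᵥ y) * om J u x₀ := by
    intro y
    have h2 := psr_om hg x₀ y
    rw [hpx, om_self hJ, om_skew hJ u x₀] at h2
    linear_combination h2
  have hc : om J u x₀ ≠ 0 := by
    intro h0
    exact hu (om_nd hdet fun y => by rw [h1, h0, mul_zero])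
  have h3 : ∀ y, p ⬝ᵥ y = (om J u x₀)⁻¹ * om J u y := by
    intro y
    rw [h1 y]
    field_simp
  refine ⟨(om J u x₀)⁻¹, inv_ne_zero hc, h3, fun k => ?_⟩
  refine ext_mulVec fun x => ?_
  rw [tv_mulVec]
  induction k with
  | zero => rw [pow_zero, one_mulVec]; simp
  | succ k ih =>
    rw [pow_succ', ← mulVec_mulVec, ih, psr_mulVec, dotProduct_add, dotProduct_smul, h3 u, om_self hJ, mul_zero, smul_zero,
      add_zero, h3 x]
    push_cast
    module

/-- polynomial families of matrices -/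
lemma pe_fam (M : Matrix (Fin n) (Fin n) (Polynomial ℂ)) (q : MvPolynomial (Fin n × Fin n) ℂ) (s : ℂ) :
    (MvPolynomial.aeval (fun x : Fin n × Fin n => M x.1 x.2) q : Polynomial ℂ).eval s = pe q (M.map (Polynomial.eval s)) := by
  have h1 := MvPolynomial.map_aeval (fun x : Fin n × Fin n => M x.1 x.2) (Polynomial.evalRingHom s) q
  rw [Polynomial.coe_evalRingHom] at h1
  rw [h1]
  have e : (Polynomial.evalRingHom s).comp (algebraMap ℂ (Polynomial ℂ)) = RingHom.id ℂ := by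
    ext a
    simp
  rw [e]
  rfl

/-- a closed set which contains infinitely many elements of a polynomial family contains the family -/
lemma fam_mem {S : Submonoid (Matrix (Fin n) (Fin n) ℂ)}
    (hZ : ∀ g, (∀ q ∈ Id (S : Set (Matrix (Fin n) (Fin n) ℂ)), pe q g = 0) → g ∈ S)
    (M : Matrix (Fin n) (Fin n) (Polynomial ℂ)) {Z : Set ℂ} (hZi : Z.Infinite)
    (hM : ∀ s ∈ Z, M.map (Polynomial.eval s) ∈ S) (s : ℂ) : M.map (Polynomial.eval s) ∈ S := by
  refine hZ _ fun q hq => ?_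
  rw [← pe_fam]
  have hf0 : (MvPolynomial.aeval (fun x : Fin n × Fin n => M x.1 x.2) q : Polynomial ℂ) = 0 := by
    refine Polynomial.eq_zero_of_infinite_isRoot _ (Set.Infinite.mono ?_ hZi)
    intro s hs
    show Polynomial.eval s _ = 0
    rw [pe_fam]
    exact hq _ (hM s hs)
  rw [hf0, Polynomial.eval_zero]

/-- the symplectic type -/
theorem sp_dense (hJ : J.transpose = -J) (hdet : J.det ≠ 0) (hN : N ^ n = 0) (hNJ : N.transpose * J + J * N = 0)
    (hup : p ⬝ᵥ ((N ^ (n - 1)) *ᵥ u) ≠ 0)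
    (hg : (1 - vecMulVec u p).transpose * J * (1 - vecMulVec u p) = J) {S : Submonoid (Matrix (Fin n) (Fin n) ℂ)}
    (hE : ∀ c : ℂ, ∀ g ∈ S, E N c * g * E N (-c) ∈ S) (hS : 1 - vecMulVec u p ∈ S)
    (hZ : ∀ g, (∀ q ∈ Id (S : Set (Matrix (Fin n) (Fin n) ℂ)), pe q g = 0) → g ∈ S)
    (g : Matrix (Fin n) (Fin n) ℂ) (hgJ : g.transpose * J * g = J) : g ∈ S := by
  have hu : u ≠ 0 := by
    rintro rfl
    rw [mulVec_zero, dotProduct_zero] at hup
    exact hup rfl
  have hp : p ≠ 0 := by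
    rintro rfl
    rw [zero_dotProduct] at hup
    exact hup rfl
  obtain ⟨c, hc, hpc, hpow⟩ := tv_of hJ hdet hu hp hg
  have htv : ∀ s, tv J u s ∈ S := by
    intro s
    set M : Matrix (Fin n) (Fin n) (Polynomial ℂ) := Matrix.of fun i j => Polynomial.C ((1 : Matrix (Fin n) (Fin n) ℂ) i j) +
      Polynomial.X * Polynomial.C (vecMulVec u (u ᵥ* J) i j) with hM
    have hMe : ∀ s, M.map (Polynomial.eval s) = tv J u s := by
      intro s
      ext i j
      unfold tv
      rw [hM]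
      simp only [Matrix.map_apply, Matrix.of_apply, Polynomial.eval_add, Polynomial.eval_mul, Polynomial.eval_C,
        Polynomial.eval_X, Matrix.add_apply, Matrix.smul_apply, smul_eq_mul]
    rw [← hMe]
    refine fam_mem hZ M (Z := Set.range fun k : ℕ => -((k : ℂ) * c)) (Set.infinite_range_of_injective fun a b hab => ?_) ?_ s
    · have h1 : (a : ℂ) * c = b * c := neg_injective hab
      exact_mod_cast mul_right_cancel₀ hc h1
    · rintro _ ⟨k, rfl⟩
      rw [hMe, ← hpow]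
      exact Submonoid.pow_mem _ hS k
  refine sp_all hJ hN hNJ (v := u) ?_ S hE htv (fun M hM => fam_mem hZ M (Z := ({0} : Set ℂ)ᶜ)
    (Set.finite_singleton (0 : ℂ)).infinite_compl (fun s hs => hM s hs) 0) hdet g hgJ
  intro h0
  rw [hpc, h0, mul_zero] at hup
  exact hup rfl

/-- the orthogonal type -/
theorem so_dense (hJ : J.transpose = J) (hdet : J.det ≠ 0) (hN : N ^ n = 0) (hNJ : N.transpose * J + J * N = 0)
    (hup : p ⬝ᵥ ((N ^ (n - 1)) *ᵥ u) ≠ 0)
    (hg : (1 - vecMulVec u p).transpose * J * (1 - vecMulVec u p) = J) {S : Submonoid (Matrix (Fin n) (Fin n) ℂ)}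
    (hE : ∀ c : ℂ, ∀ g ∈ S, E N c * g * E N (-c) ∈ S) (hS : 1 - vecMulVec u p ∈ S)
    (hZ : ∀ g, (∀ q ∈ Id (S : Set (Matrix (Fin n) (Fin n) ℂ)), pe q g = 0) → g ∈ S)
    (g : Matrix (Fin n) (Fin n) ℂ) (hgJ : g.transpose * J * g = J) : g ∈ S := by
  have hu : u ≠ 0 := by
    rintro rfl
    rw [mulVec_zero, dotProduct_zero] at hup
    exact hup rfl
  have hp : p ≠ 0 := by
    rintro rfl
    rw [zero_dotProduct] at hup
    exact hup rfl
  obtain ⟨i, hi⟩ : ∃ i, p i ≠ 0 := by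
    by_contra hcon
    push Not at hcon
    exact hp (funext hcon)
  set x₀ : Fin n → ℂ := Pi.single i (p i)⁻¹ with hx₀
  have hpx : p ⬝ᵥ x₀ = 1 := by
    rw [hx₀, dotProduct_single, mul_inv_cancel₀ hi]
  have hsym : ∀ x, om J x u = om J u x := fun x => (om_symm hJ x u).symm
  have huu : om J u u ≠ 0 := by
    intro h0
    have h1 : ∀ x y, (p ⬝ᵥ x) * om J u y + (p ⬝ᵥ y) * om J u x = 0 := by
      intro x y
      have := psr_om hg x y
      rw [h0, mul_zero, hsym x] at this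
      exact this
    have h2 : om J u x₀ = 0 := by
      have := h1 x₀ x₀
      rw [hpx] at this
      linear_combination this / 2
    refine hu (om_nd hdet fun y => ?_)
    have := h1 x₀ y
    rw [hpx, h2] at this
    linear_combination this
  have hpu : p ⬝ᵥ u = 2 := by
    have h1 := psr_om hg x₀ u
    rw [hpx, hsym x₀] at h1
    have h2 := psr_om hg x₀ x₀
    rw [hpx, hsym x₀] at h2
    have h3 : om J u x₀ = om J u u / 2 := by linear_combination h2 / 2
    rw [h3] at h1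
    have h4 : om J u u * (2 - p ⬝ᵥ u) = 0 := by linear_combination 2 * h1
    have h5 := (mul_eq_zero.1 h4).resolve_left huu
    linear_combination -h5
  obtain ⟨-, hrf⟩ := rf_of hJ hdet hpu hg
  rw [hrf] at hS
  refine orth_all hJ hdet hN hNJ (v := u) (fun h0 => ?_) huu hE hS hZ g hgJ
  rw [h0, dotProduct_zero] at hup
  exact hup rfl

/-- the linear type -/
theorem sl_dense (hN : N ^ n = 0) (hup : p ⬝ᵥ ((N ^ (n - 1)) *ᵥ u) ≠ 0)
    (h0 : (1 - vecMulVec u p).det ≠ 0) (h1 : (1 - vecMulVec u p).det ≠ 1) (h2 : (1 - vecMulVec u p).det ≠ -1)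
    {T' : Matrix (Fin n) (Fin n) ℂ} (hT' : (1 - vecMulVec u p) * T' = 1) {S : Submonoid (Matrix (Fin n) (Fin n) ℂ)}
    (hE : ∀ c : ℂ, ∀ g ∈ S, E N c * g * E N (-c) ∈ S) (hS : 1 - vecMulVec u p ∈ S) (hS' : T' ∈ S)
    (hZ : ∀ g, (∀ q ∈ Id (S : Set (Matrix (Fin n) (Fin n) ℂ)), pe q g = 0) → g ∈ S)
    (g : Matrix (Fin n) (Fin n) ℂ) (hgd : g.det = 1) : g ∈ S := by
  have hd : (1 - vecMulVec u p).det = 1 - p ⬝ᵥ u := by
    have e1 : vecMulVec u p = replicateCol (Fin 1) u * replicateRow (Fin 1) p := by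
      ext i j
      rw [vecMulVec_apply, Matrix.mul_apply]
      simp
    rw [e1, det_one_sub_mul_comm]
    simp [Matrix.mul_apply, dotProduct]
  rw [hd] at h0 h1 h2
  have hpu : p ⬝ᵥ u = 1 - (1 - p ⬝ᵥ u) := by ring
  have e2 := hh' hpu h0
  have e3 : T' = 1 + (1 - p ⬝ᵥ u)⁻¹ • vecMulVec u p := by
    have e4 : T' * (1 - vecMulVec u p) = 1 := mul_eq_one_comm.1 hT'
    calc T' = T' * ((1 - vecMulVec u p) * (1 + (1 - p ⬝ᵥ u)⁻¹ • vecMulVec u p)) := by rw [e2, mul_one]
      _ = _ := by rw [← Matrix.mul_assoc, e4, one_mul]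
  rw [e3] at hS'
  refine sl_all hpu h0 (fun h => h2 ?_) (fun h => h1 ?_) hN (fun h => ?_) (fun h => ?_) hE hS hS' hZ g hgd
  · linear_combination h
  · linear_combination -h
  · rw [h, dotProduct_zero] at hup
    exact hup rfl
  · rw [dotProduct_mulVec, h, zero_dotProduct] at hup
    exact hup rfl

end Pool.Agent.L0h14.HO
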