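import Mathlib
import Pool.Agent.L0h14.HO.JMono

/-!
# Separation of the blocks of a closed monoid of block diagonal matrices
-/

set_option autoImplicit false

open Matrix Filter Topology

namespace Pool.Agent.L0h14.HO

open Pool.Agent.Y119.HY (HD E E_HD E_zero E_mul_neg E_add)

section lie

variable {N : ℕ} {S : Submonoid (Matrix (Fin N) (Fin N) ℂ)}

/-- one-parameter groups of square zero elements -/
lemma one_add_mem (hZ : ∀ g, (∀ p ∈ Id (S : Set (Matrix (Fin N) (Fin N) ℂ)), pe p g = 0) → g ∈ S)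
    {X : Matrix (Fin N) (Fin N) ℂ} (hX : X ∈ Lie (S : Set (Matrix (Fin N) (Fin N) ℂ))) (hX2 : X * X = 0) (t : ℂ) :
    1 + t • X ∈ S := by
  refine path (R := fun t => 1 + t • X) hZ hX (fun t => ?_) (by rw [zero_smul, add_zero]) t
  have e : (1 + t • X) * X = X := by rw [add_mul, one_mul, smul_mul_assoc, hX2, smul_zero, add_zero]
  show HD (fun t : ℂ => 1 + t • X) ((1 + t • X) * X) t
  rw [e]
  intro i j
  have : HasDerivAt (fun t : ℂ => (1 : Matrix (Fin N) (Fin N) ℂ) i j + t * X i j) (0 + 1 * X i j) t :=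
    (hasDerivAt_const _ _).add ((hasDerivAt_id _).mul_const _)
  simpa using this

/-- the sandwich -/
lemma sandwich (hZ : ∀ g, (∀ p ∈ Id (S : Set (Matrix (Fin N) (Fin N) ℂ)), pe p g = 0) → g ∈ S)
    {X Z : Matrix (Fin N) (Fin N) ℂ} (hX : X ∈ Lie (S : Set (Matrix (Fin N) (Fin N) ℂ))) (hX2 : X * X = 0)
    (hZ' : Z ∈ Lie (S : Set (Matrix (Fin N) (Fin N) ℂ))) : X * Z * X ∈ Lie (S : Set (Matrix (Fin N) (Fin N) ℂ)) := by
  have m1 := one_add_mem hZ hX hX2 1
  have m2 := one_add_mem hZ hX hX2 (-1)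
  have e1 : (1 + (1 : ℂ) • X) * (1 + (-1 : ℂ) • X) = 1 := by
    rw [one_smul, neg_one_smul, mul_add, mul_one, add_mul, one_mul, mul_neg, hX2]
    abel
  have e2 : (1 + (-1 : ℂ) • X) * (1 + (1 : ℂ) • X) = 1 := mul_eq_one_comm.1 e1
  have h1 := conj_lie e1 (fun g hg => S.mul_mem (S.mul_mem m1 hg) m2) (fun g hg => S.mul_mem (S.mul_mem m2 hg) m1) hZ'
  have h2 := conj_lie e2 (fun g hg => S.mul_mem (S.mul_mem m2 hg) m1) (fun g hg => S.mul_mem (S.mul_mem m1 hg) m2) hZ'
  have h3 := Submodule.smul_mem _ ((-1 / 2 : ℂ)) (Submodule.sub_mem _ (Submodule.add_mem _ h1 h2) (Submodule.smul_mem _ (2 : ℂ) hZ'))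
  have e3 : (-1 / 2 : ℂ) • ((1 + (1 : ℂ) • X) * Z * (1 + (-1 : ℂ) • X) + (1 + (-1 : ℂ) • X) * Z * (1 + (1 : ℂ) • X) -
      (2 : ℂ) • Z) = X * Z * X := by
    rw [one_smul, neg_one_smul]
    have e4 : (1 + X) * Z * (1 + -X) + (1 + -X) * Z * (1 + X) - (2 : ℂ) • Z = (-2 : ℂ) • (X * Z * X) := by
      rw [two_smul, neg_smul, two_smul]
      noncomm_ring
    rw [e4, smul_smul]
    norm_num
  rw [e3] at h3
  exact h3

end lie

variable {q : ℕ} {n : Fin q → ℕ} {S : Submonoid (Matrix (Fin (tot n)) (Fin (tot n)) ℂ)}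
  {A R : ∀ i, Matrix (Fin (n i)) (Fin (n i)) ℂ} {χ : Fin q → ℂ → ℂ}

/-- combinations of the blocks -/
noncomputable def cb (R : ∀ i, Matrix (Fin (n i)) (Fin (n i)) ℂ) (c : Fin q → ℂ) : Matrix (Fin (tot n)) (Fin (tot n)) ℂ :=
  bd fun i => c i • R i

lemma cb_mul (hR : ∀ i, R i * R i = 0) (c c' : Fin q → ℂ) : cb R c * cb R c' = 0 := by
  unfold cb
  rw [← bd_mul]
  have : (fun i => c i • R i * c' i • R i) = fun i => (0 : Matrix (Fin (n i)) (Fin (n i)) ℂ) := by
    funext i
    rw [smul_mul_smul_comm, hR, smul_zero]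
  rw [this, bd_zero]

lemma cb_add (c c' : Fin q → ℂ) : cb R (c + c') = cb R c + cb R c' := by
  unfold cb
  rw [← bd_add]
  congr 1
  funext i
  rw [Pi.add_apply, add_smul]

lemma cb_smul (a : ℂ) (c : Fin q → ℂ) : cb R (a • c) = a • cb R c := by
  unfold cb
  rw [← bd_smul]
  congr 1
  funext i
  rw [Pi.smul_apply, smul_smul, smul_eq_mul]

/-- the product rule -/
lemma cb_prod (hZ : ∀ g, (∀ p ∈ Id (S : Set (Matrix (Fin (tot n)) (Fin (tot n)) ℂ)), pe p g = 0) → g ∈ S)
    (hA : ∀ i, A i ^ n i = 0) (hE : ∀ c : ℂ, ∀ g ∈ S, E (bd A) c * g * E (bd A) (-c) ∈ S)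
    (hR : ∀ i, R i * R i = 0) (hχ : ∀ i s, R i * (E (A i) s * R i * E (A i) (-s)) * R i = χ i s • R i)
    {c c' c'' : Fin q → ℂ} (hc : cb R c ∈ Lie (S : Set (Matrix (Fin (tot n)) (Fin (tot n)) ℂ)))
    (hc' : cb R c' ∈ Lie (S : Set (Matrix (Fin (tot n)) (Fin (tot n)) ℂ)))
    (hc'' : cb R c'' ∈ Lie (S : Set (Matrix (Fin (tot n)) (Fin (tot n)) ℂ))) (s : ℂ) :
    cb R (fun i => c i * c' i * c'' i * χ i s) ∈ Lie (S : Set (Matrix (Fin (tot n)) (Fin (tot n)) ℂ)) := by
  have hAn := bd_nil hA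
  set Z := E (bd A) s * cb R c'' * E (bd A) (-s) with hZd
  have hZm : Z ∈ Lie (S : Set (Matrix (Fin (tot n)) (Fin (tot n)) ℂ)) :=
    conj_lie (E_mul_neg hAn s) (hE s) (fun g hg => by
      have := hE (-s) g hg
      rwa [neg_neg] at this) hc''
  have h1 := sandwich hZ (Submodule.add_mem _ hc hc') (by rw [← cb_add, cb_mul hR]) hZm
  have h2 := sandwich hZ hc (cb_mul hR _ _) hZm
  have h3 := sandwich hZ hc' (cb_mul hR _ _) hZm
  have h4 := Submodule.smul_mem _ (1 / 2 : ℂ) (Submodule.sub_mem _ (Submodule.sub_mem _ h1 h2) h3)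
  have hval : ∀ d d' : Fin q → ℂ, cb R d * Z * cb R d' = cb R (fun i => d i * d' i * c'' i * χ i s) := by
    intro d d'
    rw [hZd, bd_E hA, bd_E hA]
    unfold cb
    rw [← bd_mul, ← bd_mul, ← bd_mul, ← bd_mul]
    congr 1
    funext i
    calc d i • R i * (E (A i) s * c'' i • R i * E (A i) (-s)) * d' i • R i
        = (d i * d' i * c'' i) • (R i * (E (A i) s * R i * E (A i) (-s)) * R i) := by
          simp only [smul_mul_assoc, mul_smul_comm, smul_smul]
          congr 1
          ring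
      _ = _ := by rw [hχ, smul_smul]
  have e : (1 / 2 : ℂ) • ((cb R c + cb R c') * Z * (cb R c + cb R c') - cb R c * Z * cb R c - cb R c' * Z * cb R c') =
      cb R (fun i => c i * c' i * c'' i * χ i s) := by
    rw [← cb_add, hval, hval, hval]
    have e1 : cb R (fun i => (c + c') i * (c + c') i * c'' i * χ i s) - cb R (fun i => c i * c i * c'' i * χ i s) -
        cb R (fun i => c' i * c' i * c'' i * χ i s) = cb R ((2 : ℂ) • fun i => c i * c' i * c'' i * χ i s) := by
      rw [sub_sub, ← cb_add, sub_eq_iff_eq_add, ← cb_add]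
      congr 1
      funext i
      simp only [Pi.add_apply, Pi.smul_apply, smul_eq_mul]
      ring
    rw [e1, cb_smul, smul_smul]
    norm_num
  rw [e] at h4
  exact h4

/-- **Separation of the blocks.** -/
theorem sep (hZ : ∀ g, (∀ p ∈ Id (S : Set (Matrix (Fin (tot n)) (Fin (tot n)) ℂ)), pe p g = 0) → g ∈ S)
    (hA : ∀ i, A i ^ n i = 0) (hE : ∀ c : ℂ, ∀ g ∈ S, E (bd A) c * g * E (bd A) (-c) ∈ S)
    (hR : ∀ i, R i * R i = 0) (hχ : ∀ i s, R i * (E (A i) s * R i * E (A i) (-s)) * R i = χ i s • R i)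
    (h1 : bd R ∈ Lie (S : Set (Matrix (Fin (tot n)) (Fin (tot n)) ℂ)))
    (i : Fin q) (hi : ∀ j, j ≠ i → R j = 0 ∨ ∃ s, χ i s ≠ χ j s) :
    bd (Function.update (fun j => (0 : Matrix (Fin (n j)) (Fin (n j)) ℂ)) i (R i)) ∈
      Lie (S : Set (Matrix (Fin (tot n)) (Fin (tot n)) ℂ)) := by
  classical
  have hone : cb R (fun _ => 1) ∈ Lie (S : Set (Matrix (Fin (tot n)) (Fin (tot n)) ℂ)) := by
    unfold cb
    simp only [one_smul]
    exact h1
  have key : ∀ t : Finset (Fin q), i ∉ t → ∃ c : Fin q → ℂ, cb R c ∈ Lie (S : Set (Matrix (Fin (tot n)) (Fin (tot n)) ℂ)) ∧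
      c i ≠ 0 ∧ ∀ j ∈ t, c j • R j = 0 := by
    intro t
    induction t using Finset.induction_on with
    | empty =>
      intro _
      exact ⟨fun _ => 1, hone, one_ne_zero, fun j hj => absurd hj (Finset.notMem_empty _)⟩
    | insert j t hj ih =>
      intro hi'
      rw [Finset.mem_insert, not_or] at hi'
      obtain ⟨c, hc, hci, hcj⟩ := ih hi'.2
      rcases hi j (Ne.symm hi'.1) with h0 | ⟨s, hs⟩
      · refine ⟨c, hc, hci, fun l hl => ?_⟩
        rcases Finset.mem_insert.1 hl with rfl | hl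
        · rw [h0, smul_zero]
        · exact hcj l hl
      · have h2 := cb_prod hZ hA hE hR hχ hone hone hc s
        have h3 := Submodule.add_mem _ h2 (Submodule.smul_mem _ (-χ j s) hc)
        rw [← cb_smul, ← cb_add] at h3
        refine ⟨_, h3, ?_, fun l hl => ?_⟩
        · simp only [Pi.add_apply, Pi.smul_apply, smul_eq_mul, one_mul]
          have e : c i * χ i s + -χ j s * c i = c i * (χ i s - χ j s) := by ring
          rw [e]
          exact mul_ne_zero hci (sub_ne_zero.2 hs)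
        · simp only [Pi.add_apply, Pi.smul_apply, smul_eq_mul, one_mul]
          rcases Finset.mem_insert.1 hl with rfl | hl
          · have e : c l * χ l s + -χ l s * c l = 0 := by ring
            rw [e, zero_smul]
          · have e : c l * χ l s + -χ j s * c l = (χ l s - χ j s) * c l := by ring
            rw [e, mul_smul, hcj l hl, smul_zero]
  obtain ⟨c, hc, hci, hcj⟩ := key (Finset.univ.erase i) (Finset.notMem_erase _ _)
  have h2 := Submodule.smul_mem _ (c i)⁻¹ hc
  have e : (c i)⁻¹ • cb R c = bd (Function.update (fun j => (0 : Matrix (Fin (n j)) (Fin (n j)) ℂ)) i (R i)) := by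
    unfold cb
    rw [← bd_smul]
    congr 1
    funext j
    by_cases hj : j = i
    · subst hj
      rw [Function.update_self, smul_smul, inv_mul_cancel₀ hci, one_smul]
    · rw [Function.update_of_ne hj, hcj j (Finset.mem_erase.2 ⟨hj, Finset.mem_univ _⟩), smul_zero]
  rw [e] at h2
  exact h2

/-! ### the monoid of one block -/

/-- the monoid of the matrices whose block is in `S` -/
noncomputable def bS (S : Submonoid (Matrix (Fin (tot n)) (Fin (tot n)) ℂ)) (i : Fin q) :
    Submonoid (Matrix (Fin (n i)) (Fin (n i)) ℂ) where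
  carrier := {g | blk i g ∈ S}
  mul_mem' := by
    intro a b ha hb
    show blk i (a * b) ∈ S
    rw [blk_mul]
    exact S.mul_mem ha hb
  one_mem' := by
    show blk i 1 ∈ S
    rw [blk_one]
    exact S.one_mem

/-- closedness of the monoid of one block -/
lemma bS_Z (hZ : ∀ g, (∀ p ∈ Id (S : Set (Matrix (Fin (tot n)) (Fin (tot n)) ℂ)), pe p g = 0) → g ∈ S) (i : Fin q)
    (g : Matrix (Fin (n i)) (Fin (n i)) ℂ)
    (h : ∀ p ∈ Id (bS S i : Set (Matrix (Fin (n i)) (Fin (n i)) ℂ)), pe p g = 0) : g ∈ bS S i := by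
  classical
  refine hZ _ fun p hp => ?_
  -- the restriction of the polynomial to the block
  set f : Fin (tot n) × Fin (tot n) → MvPolynomial (Fin (n i) × Fin (n i)) ℂ := fun x =>
    blk i (Matrix.of fun a b => (MvPolynomial.X (a, b) : MvPolynomial (Fin (n i) × Fin (n i)) ℂ)) x.1 x.2 with hf
  have hfe : ∀ h : Matrix (Fin (n i)) (Fin (n i)) ℂ, pe (MvPolynomial.bind₁ f p) h = pe p (blk i h) := by
    intro h
    unfold pe
    rw [← MvPolynomial.coe_aeval_eq_eval, ← MvPolynomial.coe_aeval_eq_eval, RingHom.coe_coe, RingHom.coe_coe,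
      MvPolynomial.aeval_bind₁]
    congr 1
    congr 1
    funext x
    obtain ⟨a, b⟩ := x
    rw [hf]
    simp only
    have h1 := congrFun (congrFun (bd_map (fun y : MvPolynomial (Fin (n i) × Fin (n i)) ℂ =>
      MvPolynomial.aeval (fun x : Fin (n i) × Fin (n i) => h x.1 x.2) y) (map_zero _)
      (Function.update (fun i => (1 : Matrix (Fin (n i)) (Fin (n i)) (MvPolynomial (Fin (n _) × Fin (n _)) ℂ))) i
        (Matrix.of fun a b => (MvPolynomial.X (a, b) : MvPolynomial (Fin (n i) × Fin (n i)) ℂ)))) a) b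
    rw [Matrix.map_apply] at h1
    unfold blk
    rw [h1]
    congr 2
    funext j
    by_cases hj : j = i
    · subst hj
      rw [Function.update_self, Function.update_self]
      ext a b
      rw [Matrix.map_apply, Matrix.of_apply, MvPolynomial.aeval_X]
    · rw [Function.update_of_ne hj, Function.update_of_ne hj]
      ext a b
      rw [Matrix.map_apply, Matrix.one_apply, Matrix.one_apply]
      split_ifs <;> simp
  rw [← hfe]
  refine h _ fun g' hg' => ?_
  rw [hfe]
  exact hp _ hg'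

lemma bS_E (hA : ∀ i, A i ^ n i = 0) (hE : ∀ c : ℂ, ∀ g ∈ S, E (bd A) c * g * E (bd A) (-c) ∈ S) (i : Fin q) (c : ℂ)
    (g : Matrix (Fin (n i)) (Fin (n i)) ℂ) (hg : g ∈ bS S i) : E (A i) c * g * E (A i) (-c) ∈ bS S i := by
  have h1 := hE c _ hg
  rw [bd_E hA, bd_E hA] at h1
  unfold blk at h1
  rw [← bd_mul, ← bd_mul] at h1
  show blk i (E (A i) c * g * E (A i) (-c)) ∈ S
  unfold blk
  have e : (fun j => E (A j) c * Function.update (fun j => (1 : Matrix (Fin (n j)) (Fin (n j)) ℂ)) i g j * E (A j) (-c)) =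
      Function.update (fun j => (1 : Matrix (Fin (n j)) (Fin (n j)) ℂ)) i (E (A i) c * g * E (A i) (-c)) := by
    funext j
    by_cases hj : j = i
    · subst hj
      rw [Function.update_self, Function.update_self]
    · rw [Function.update_of_ne hj, Function.update_of_ne hj, mul_one, E_mul_neg (hA j)]
  rw [← e]
  exact h1

/-- a square zero element of one block -/
lemma blk_one_add (hZ : ∀ g, (∀ p ∈ Id (S : Set (Matrix (Fin (tot n)) (Fin (tot n)) ℂ)), pe p g = 0) → g ∈ S) {i : Fin q}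
    {X : Matrix (Fin (n i)) (Fin (n i)) ℂ} (hX2 : X * X = 0)
    (hX : bd (Function.update (fun j => (0 : Matrix (Fin (n j)) (Fin (n j)) ℂ)) i X) ∈
      Lie (S : Set (Matrix (Fin (tot n)) (Fin (tot n)) ℂ))) (t : ℂ) : 1 + t • X ∈ bS S i := by
  have h1 := one_add_mem hZ hX (by
    rw [← bd_mul, update_mul, hX2]
    simp only [mul_zero]
    rw [Function.update_eq_self]
    exact bd_zero) t
  show blk i (1 + t • X) ∈ S
  have e : blk i (1 + t • X) = 1 + t • bd (Function.update (fun j => (0 : Matrix (Fin (n j)) (Fin (n j)) ℂ)) i X) := by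
    unfold blk
    rw [← bd_smul, ← bd_one, ← bd_add]
    congr 1
    funext j
    by_cases hj : j = i
    · subst hj
      rw [Function.update_self, Function.update_self]
    · rw [Function.update_of_ne hj, Function.update_of_ne hj, smul_zero, add_zero]
  rw [e]
  exact h1

end Pool.Agent.L0h14.HO
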