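import Mathlib
import Pool.Agent.L0h14.HO.JGrp

/-!
# Density for several blocks
-/

set_option autoImplicit false

open Matrix Filter Topology

namespace Pool.Agent.L0h14.HO

open Pool.Agent.Y119.HY (HD E E_HD E_zero E_mul_neg E_add E_isom om om_eq om_self om_skew tv tv_isom tv_mul_neg tv_mulVec sp_all)

/-- a block with a transvection -/
structure SB (n : ℕ) (A : Matrix (Fin n) (Fin n) ℂ) (T : ℤ → Matrix (Fin n) (Fin n) ℂ) (J : Matrix (Fin n) (Fin n) ℂ)
    (v : Fin n → ℂ) : Prop where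
  skew : J.transpose = -J
  det : J.det ≠ 0
  rel : A.transpose * J + J * A = 0
  T_eq : ∀ r, T r = tv J v (tp r)
  cyc : om J v ((A ^ (n - 1)) *ᵥ v) ≠ 0

/-- a block whose monodromy has the order `D` -/
structure FB (n : ℕ) (A : Matrix (Fin n) (Fin n) ℂ) (T : ℤ → Matrix (Fin n) (Fin n) ℂ)
    (G : Submonoid (Matrix (Fin n) (Fin n) ℂ)) (D : ℕ) : Prop where
  zero : T 0 = 1
  per : ∀ r m : ℤ, T (r + D * m) = T r
  dens : ∀ S : Submonoid (Matrix (Fin n) (Fin n) ℂ),
    (∀ g, (∀ p ∈ Id (S : Set (Matrix (Fin n) (Fin n) ℂ)), pe p g = 0) → g ∈ S) →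
    (∀ c : ℂ, ∀ g ∈ S, E A c * g * E A (-c) ∈ S) → (∀ r, T r ∈ S) → ∀ g ∈ G, g ∈ S

lemma tp_neg (r : ℤ) : tp (-r) = -tp r := by
  unfold tp
  push_cast
  ring

lemma tp_inj {r r' : ℤ} (h : tp r = tp r') : r = r' := by
  unfold tp at h
  have h2 : (2 * Real.pi * Complex.I : ℂ) ≠ 0 := Complex.two_pi_I_ne_zero
  exact_mod_cast mul_right_cancel₀ h2 h

lemma line_eval {N : ℕ} (X : Matrix (Fin N) (Fin N) ℂ) (p : MvPolynomial (Fin N × Fin N) ℂ) (c : ℂ) :
    Polynomial.eval c (MvPolynomial.aeval (fun x : Fin N × Fin N =>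
        Polynomial.C ((1 : Matrix (Fin N) (Fin N) ℂ) x.1 x.2) + Polynomial.X * Polynomial.C (X x.1 x.2)) p) =
        pe p (1 + c • X) := by
  unfold pe
  induction p using MvPolynomial.induction_on with
  | C a => simp
  | add p q hp' hq' =>
    simp only [map_add, Polynomial.eval_add]
    rw [hp', hq']
  | mul_X p i hp' =>
    simp only [map_mul, Polynomial.eval_mul]
    rw [hp', MvPolynomial.aeval_X, MvPolynomial.eval_X, Polynomial.eval_add, Polynomial.eval_mul, Polynomial.eval_C,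
      Polynomial.eval_C, Polynomial.eval_X, Matrix.add_apply, Matrix.smul_apply, smul_eq_mul]

/-- a line which contains infinitely many elements is contained in a closed set -/
lemma line_mem {N : ℕ} {S : Submonoid (Matrix (Fin N) (Fin N) ℂ)}
    (hZ : ∀ g, (∀ p ∈ Id (S : Set (Matrix (Fin N) (Fin N) ℂ)), pe p g = 0) → g ∈ S) {X : Matrix (Fin N) (Fin N) ℂ}
    {D : ℤ} (hD : D ≠ 0) (h : ∀ r : ℤ, 1 + tp (D * r) • X ∈ S) (t : ℂ) : 1 + t • X ∈ S := by
  refine hZ _ fun p hp => ?_
  rw [← line_eval]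
  have h0 : MvPolynomial.aeval (fun x : Fin N × Fin N =>
        Polynomial.C ((1 : Matrix (Fin N) (Fin N) ℂ) x.1 x.2) + Polynomial.X * Polynomial.C (X x.1 x.2)) p = 0 := by
    refine Polynomial.eq_zero_of_infinite_isRoot _ (Set.Infinite.mono (s := Set.range fun r : ℤ => tp (D * r)) ?_ ?_)
    · rintro _ ⟨r, rfl⟩
      show Polynomial.eval _ _ = 0
      rw [line_eval]
      exact hp _ (h r)
    · refine Set.infinite_range_of_injective fun r r' hr => ?_
      have := tp_inj hr
      exact mul_left_cancel₀ hD this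
  rw [h0, Polynomial.eval_zero]

section

variable {N : ℕ}

lemma pe_map_eval (M : Matrix (Fin N) (Fin N) (Polynomial ℂ)) (p : MvPolynomial (Fin N × Fin N) ℂ) (c : ℂ) :
    Polynomial.eval c (MvPolynomial.aeval (fun x : Fin N × Fin N => M x.1 x.2) p) = pe p (M.map (Polynomial.eval c)) := by
  unfold pe
  induction p using MvPolynomial.induction_on with
  | C a => simp
  | add p q hp' hq' =>
    simp only [map_add, Polynomial.eval_add]
    rw [hp', hq']
  | mul_X p i hp' =>
    simp only [map_mul, Polynomial.eval_mul]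
    rw [hp', MvPolynomial.aeval_X, MvPolynomial.eval_X]
    simp

/-- specialisation of polynomial families -/
lemma spec_closed {S : Submonoid (Matrix (Fin N) (Fin N) ℂ)}
    (hZ : ∀ g, (∀ p ∈ Id (S : Set (Matrix (Fin N) (Fin N) ℂ)), pe p g = 0) → g ∈ S)
    (M : Matrix (Fin N) (Fin N) (Polynomial ℂ)) (hM : ∀ c : ℂ, c ≠ 0 → M.map (Polynomial.eval c) ∈ S) :
    M.map (Polynomial.eval 0) ∈ S := by
  refine hZ _ fun p hp => ?_
  rw [← pe_map_eval]
  have h0 : MvPolynomial.aeval (fun x : Fin N × Fin N => M x.1 x.2) p = 0 := by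
    refine Polynomial.eq_zero_of_infinite_isRoot _ (Set.Infinite.mono (s := ({0} : Set ℂ)ᶜ) ?_
      (Set.finite_singleton (0 : ℂ)).infinite_compl)
    intro c hc
    show Polynomial.eval _ _ = 0
    rw [pe_map_eval]
    exact hp _ (hM c hc)
  rw [h0, Polynomial.eval_zero]

end

section main

variable {q : ℕ} {n : Fin q → ℕ} {A : ∀ i, Matrix (Fin (n i)) (Fin (n i)) ℂ} {T : ∀ i, ℤ → Matrix (Fin (n i)) (Fin (n i)) ℂ}
  {G : ∀ i, Submonoid (Matrix (Fin (n i)) (Fin (n i)) ℂ)} {d : Fin q → ℕ} {J : ∀ i, Matrix (Fin (n i)) (Fin (n i)) ℂ}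
  {v : ∀ i, Fin (n i) → ℂ} {S : Submonoid (Matrix (Fin (tot n)) (Fin (tot n)) ℂ)}

/-- the invariant of a transvection block -/
noncomputable def psi {n : ℕ} (A J : Matrix (Fin n) (Fin n) ℂ) (v : Fin n → ℂ) (s : ℂ) : ℂ := om J v (E A s *ᵥ v)

lemma om_isom {n : ℕ} {J g : Matrix (Fin n) (Fin n) ℂ} (hg : g.transpose * J * g = J) (u v : Fin n → ℂ) :
    om J (g *ᵥ u) (g *ᵥ v) = om J u v := by
  unfold om
  rw [mulVec_mulVec, ← vecMul_transpose, ← dotProduct_mulVec, mulVec_mulVec, ← Matrix.mul_assoc, hg]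

lemma psi_neg {n : ℕ} {A J : Matrix (Fin n) (Fin n) ℂ} (hA : A ^ n = 0) (hJ : J.transpose = -J)
    (hr : A.transpose * J + J * A = 0) (v : Fin n → ℂ) (s : ℂ) : om J v (E A (-s) *ᵥ v) = -psi A J v s := by
  have h1 := om_isom (E_isom hA hr s) v (E A (-s) *ᵥ v)
  rw [mulVec_mulVec, E_mul_neg hA, one_mulVec] at h1
  rw [← h1, om_skew hJ]
  rfl

/-- the element -/
lemma R_sandwich {n : ℕ} {A J : Matrix (Fin n) (Fin n) ℂ} (v : Fin n → ℂ) (s : ℂ) :
    vecMulVec v (v ᵥ* J) * (E A s * vecMulVec v (v ᵥ* J) * E A (-s)) * vecMulVec v (v ᵥ* J) =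
      (om J v (E A s *ᵥ v) * om J v (E A (-s) *ᵥ v)) • vecMulVec v (v ᵥ* J) := by
  have h1 : vecMulVec v (v ᵥ* J) * (E A s * vecMulVec v (v ᵥ* J) * E A (-s)) * vecMulVec v (v ᵥ* J) =
      (vecMulVec v (v ᵥ* J) * (E A s * vecMulVec v (v ᵥ* J))) * (E A (-s) * vecMulVec v (v ᵥ* J)) := by
    simp only [Matrix.mul_assoc]
  rw [h1, mul_vecMulVec (E A s), mul_vecMulVec (E A (-s)), vecMulVec_mul_vecMulVec, vecMulVec_mul_vecMulVec]
  rw [← om_eq, smul_dotProduct, ← om_eq, smul_eq_mul, vecMulVec_smul]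

open Classical in
/-- **Density for several blocks.** -/
theorem joint (hA : ∀ i, A i ^ n i = 0)
    (hS : ∀ i, d i = 0 → SB (n i) (A i) (T i) (J i) (v i) ∧ G i = isoM (J i))
    (hF : ∀ i, d i ≠ 0 → FB (n i) (A i) (T i) (G i) (d i))
    (hsep : ∀ i j, i ≠ j → d i = 0 → d j = 0 → ∃ s, psi (A i) (J i) (v i) s ^ 2 ≠ psi (A j) (J j) (v j) s ^ 2)
    (hcop : ∀ i j, i ≠ j → d i ≠ 0 → d j ≠ 0 → (d i).Coprime (d j))
    (hZ : ∀ g, (∀ p ∈ Id (S : Set (Matrix (Fin (tot n)) (Fin (tot n)) ℂ)), pe p g = 0) → g ∈ S)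
    (hE : ∀ c : ℂ, ∀ g ∈ S, E (bd A) c * g * E (bd A) (-c) ∈ S)
    (hT : ∀ r, bd (fun i => T i r) ∈ S) {g : ∀ i, Matrix (Fin (n i)) (Fin (n i)) ℂ} (hg : ∀ i, g i ∈ G i) : bd g ∈ S := by
  have hFz : ∀ i, d i ≠ 0 → ∀ m : ℤ, T i ((d i : ℤ) * m) = 1 := by
    intro i hi m
    have := (hF i hi).per 0 m
    rw [zero_add] at this
    rw [this, (hF i hi).zero]
  -- the square zero element
  set R : ∀ i, Matrix (Fin (n i)) (Fin (n i)) ℂ := fun i => if d i = 0 then vecMulVec (v i) (v i ᵥ* J i) else 0 with hR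
  have hRS : ∀ i, d i = 0 → R i = vecMulVec (v i) (v i ᵥ* J i) := fun i hi => by rw [hR]; simp only; rw [if_pos hi]
  have hRF : ∀ i, d i ≠ 0 → R i = 0 := fun i hi => by rw [hR]; simp only; rw [if_neg hi]
  have hRR : ∀ i, R i * R i = 0 := by
    intro i
    by_cases hi : d i = 0
    · rw [hRS i hi]
      exact Pool.Agent.Y119.HY.tv_sq (hS i hi).1.skew _
    · rw [hRF i hi, zero_mul]
  -- the order
  set D : ℕ := ∏ i, (if d i = 0 then 1 else d i) with hD
  have hD0 : D ≠ 0 := by
    refine Finset.prod_ne_zero_iff.2 fun i _ => ?_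
    split_ifs with h
    · exact one_ne_zero
    · exact h
  have hline : ∀ r : ℤ, 1 + tp ((D : ℤ) * r) • bd R ∈ S := by
    intro r
    have h1 := hT ((D : ℤ) * r)
    have e : bd (fun i => T i ((D : ℤ) * r)) = 1 + tp ((D : ℤ) * r) • bd R := by
      rw [← bd_smul, ← bd_one, ← bd_add]
      congr 1
      funext i
      by_cases hi : d i = 0
      · rw [(hS i hi).1.T_eq, hRS i hi]
        rfl
      · rw [hRF i hi, smul_zero, add_zero]
        have h2 : (if d i = 0 then 1 else d i) ∣ D := Finset.dvd_prod_of_mem (fun i => if d i = 0 then 1 else d i) (Finset.mem_univ i)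
        rw [if_neg hi] at h2
        obtain ⟨c, hc⟩ := h2
        rw [hc]
        push_cast
        rw [mul_assoc]
        exact hFz i hi _
    rw [e] at h1
    exact h1
  have hall := line_mem hZ (D := (D : ℤ)) (by exact_mod_cast hD0) hline
  have hbdR : bd R ∈ Lie (S : Set (Matrix (Fin (tot n)) (Fin (tot n)) ℂ)) := by
    refine tangent (M := fun t : ℂ => 1 + t • bd R) ?_ (by simp) hall
    intro a b
    have : HasDerivAt (fun t : ℂ => (1 : Matrix (Fin (tot n)) (Fin (tot n)) ℂ) a b + t * bd R a b) (0 + 1 * bd R a b) 0 :=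
      (hasDerivAt_const _ _).add ((hasDerivAt_id _).mul_const _)
    simpa using this
  -- the characters
  set χ : Fin q → ℂ → ℂ := fun i s => if d i = 0 then -psi (A i) (J i) (v i) s ^ 2 else 0 with hχ
  have hχR : ∀ i s, R i * (E (A i) s * R i * E (A i) (-s)) * R i = χ i s • R i := by
    intro i s
    rw [hχ]
    simp only
    by_cases hi : d i = 0
    · rw [if_pos hi, hRS i hi, R_sandwich, psi_neg (hA i) (hS i hi).1.skew (hS i hi).1.rel]
      congr 1
      unfold psi
      ring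
    · rw [hRF i hi, mul_zero, smul_zero]
  -- the symplectic blocks
  have hsym : ∀ i, d i = 0 → ∀ g ∈ G i, g ∈ bS S i := by
    intro i hi g hg
    obtain ⟨hB, hGi⟩ := hS i hi
    rw [hGi] at hg
    have h1 := sep hZ hA hE hRR hχR hbdR i (fun j hj => by
      by_cases hj0 : d j = 0
      · right
        obtain ⟨s, hs⟩ := hsep i j (Ne.symm hj) hi hj0
        refine ⟨s, ?_⟩
        rw [hχ]
        simp only
        rw [if_pos hi, if_pos hj0]
        intro h
        exact hs (neg_injective h)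
      · left
        exact hRF j hj0)
    have h2 := blk_one_add hZ (hRR i) h1
    refine sp_all hB.skew (hA i) hB.rel hB.cyc (bS S i) (bS_E hA hE i) (fun s => ?_)
      (fun M hM => spec_closed (bS_Z hZ i) M hM) hB.det g hg
    have h3 := h2 s
    rw [hRS i hi] at h3
    exact h3
  -- the finite blocks
  have hfin : ∀ i, d i ≠ 0 → ∀ g ∈ G i, g ∈ bS S i := by
    intro i hi g hg
    refine (hF i hi).dens (bS S i) (bS_Z hZ i) (bS_E hA hE i) (fun r => ?_) g hg
    -- a suitable power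
    set M : ℕ := ∏ j ∈ Finset.univ.erase i, (if d j = 0 then 1 else d j) with hM
    have hcp : (d i).Coprime M := by
      refine Nat.Coprime.prod_right fun j hj => ?_
      split_ifs with h
      · exact Nat.coprime_one_right _
      · exact hcop i j (Ne.symm (Finset.ne_of_mem_erase hj)) hi h
    obtain ⟨a, b, hab⟩ := Nat.isCoprime_iff_coprime.2 hcp
    set r' : ℤ := r * b * M with hr'
    have hr1 : r' = r + (d i : ℤ) * (-(r * a)) := by
      rw [hr']
      linear_combination r * hab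
    have h1 := hT r'
    have h2 : bd (fun j => if d j = 0 then T j (-r') else 1) ∈ S := by
      refine bd_mem fun j => ?_
      split_ifs with hj
      · refine hsym j hj _ ?_
        rw [(hS j hj).2, (hS j hj).1.T_eq]
        exact tv_isom (hS j hj).1.skew _ _
      · rw [blk_one]
        exact S.one_mem
    have h3 := S.mul_mem h1 h2
    rw [← bd_mul] at h3
    show blk i (T i r) ∈ S
    have e : (fun j => T j r' * if d j = 0 then T j (-r') else 1) =
        Function.update (fun j => (1 : Matrix (Fin (n j)) (Fin (n j)) ℂ)) i (T i r) := by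
      funext j
      by_cases hj : j = i
      · subst hj
        rw [Function.update_self, if_neg hi, mul_one, hr1, (hF j hi).per]
      · rw [Function.update_of_ne hj]
        by_cases hj0 : d j = 0
        · rw [if_pos hj0, (hS j hj0).1.T_eq, (hS j hj0).1.T_eq, tp_neg, tv_mul_neg (hS j hj0).1.skew]
        · rw [if_neg hj0, mul_one]
          have h4 : (if d j = 0 then 1 else d j) ∣ M :=
            Finset.dvd_prod_of_mem (fun j => if d j = 0 then 1 else d j) (Finset.mem_erase.2 ⟨hj, Finset.mem_univ _⟩)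
          rw [if_neg hj0] at h4
          obtain ⟨c, hc⟩ := h4
          have h5 : r' = (d j : ℤ) * (r * b * c) := by
            rw [hr', hc]
            push_cast
            ring
          rw [h5]
          exact hFz j hj0 _
    rw [e] at h3
    exact h3
  refine bd_mem fun i => ?_
  by_cases hi : d i = 0
  · exact hsym i hi _ (hg i)
  · exact hfin i hi _ (hg i)

end main

end Pool.Agent.L0h14.HO
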