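import Mathlib
import Pool.Agent.L0h14.HO.JMain

/-!
# The blocks of the hypergeometric families
-/

set_option autoImplicit false

open Matrix Filter Topology

namespace Pool.Agent.L0h14.HO

open Pool.Agent.Y113
open Pool.Agent.Y119.HY hiding sol_c a0_ne ratio sing Bm_mul step_q
open Pool.Agent.Y119.HZ hiding ode_Hp ode_int gsys_Hp ode_A2 Phi_ode qu_hf hfam_hf Cv_Hp ev_aeval rel_inv relI_vanish

variable {n : ℕ} {Q : Polynomial ℚ}

/-- **The data of a family of linear type** -/
theorem lin_data (h : QS n Q) (h2 : ∀ a : ℤ, 2 * sg n Q ≠ a) {d : ℕ} {e : ℤ} (hd : sg n Q * d = e) :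
    ∃ (u p : Fin n → ℂ) (T : ℤ → Matrix (Fin n) (Fin n) ℂ), LD (Yf (cm (Am n)) (Hc n Q)) T ∧
      T 0 = 1 ∧ (∀ r m : ℤ, T (r + d * m) = T r) ∧
      T 1 = 1 - vecMulVec u p ∧ T (-1) = 1 + (mlt (sg n Q))⁻¹ • vecMulVec u p ∧ p ⬝ᵥ u = 1 - mlt (sg n Q) ∧
      (cm (Am n) ^ (n - 1)) *ᵥ u ≠ 0 ∧ p ᵥ* (cm (Am n) ^ (n - 1)) ≠ 0 := by
  have hn := h.pos.two
  have hσ : ∀ a : ℤ, sg n Q ≠ a := by
    intro a ha
    refine h2 (2 * a) ?_
    rw [ha]
    push_cast
    ring
  have hσ' : ∀ a : ℤ, sg n (dq n Q) ≠ a := by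
    intro a ha
    rw [sg_dual (by omega)] at ha
    refine hσ (-a) ?_
    push_cast
    linarith
  obtain ⟨K, M, Mi, hKg, hMMi, hMiM, hconn⟩ := connS h hσ
  obtain ⟨K', M', Mi', hKg', hMMi', hMiM', hconn'⟩ := connS h.dual' hσ'
  have hσ0 : (sg n Q : ℂ) ≠ 0 := by
    have := hσ 0
    rw [Int.cast_zero] at this
    exact_mod_cast this
  have hσ0' : (sg n (dq n Q) : ℂ) ≠ 0 := by
    have := hσ' 0
    rw [Int.cast_zero] at this
    exact_mod_cast this
  set lam := mlt (sg n Q) with hlam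
  have hl0 : lam ≠ 0 := mlt_ne_zero _
  have hl1 : 1 - lam ≠ 0 := mlt_ne_one hσ
  have hl2 : 1 + lam ≠ 0 := mlt_ne_neg h2
  set A := cm (Am n) with hA
  set J := cm (Jm n Q) with hJ
  have hAn : A ^ n = 0 := Ac_nil
  have hAJ : A.transpose * J + J * A = 0 := Jc_rel
  have hBB := Bc_sq (Q := Q) hn
  have hBB' := Bc_sq (Q := dq n Q) hn
  set u := Mi *ᵥ uc n with hu
  set p := ((sg n Q : ℂ)⁻¹ * (1 - lam)) • (qc n Q ᵥ* M) with hp
  set u' := Mi' *ᵥ uc n with hu'
  set p' := ((sg n (dq n Q) : ℂ)⁻¹ * (1 - mlt (sg n (dq n Q)))) • (qc n (dq n Q) ᵥ* M') with hp'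
  obtain ⟨f1, f2⟩ := mon_form hn hσ hMiM
  obtain ⟨f1', -⟩ := mon_form hn hσ' hMiM'
  have hpu : p ⬝ᵥ u = 1 - lam := by
    rw [hp, smul_dotProduct, hu, dotProduct_mulVec, vecMul_vecMul, hMMi, vecMul_one, qc_uc hn, smul_eq_mul]
    field_simp
  have hune : u ≠ 0 := by
    intro h0
    rw [h0, dotProduct_zero] at hpu
    exact hl1 hpu.symm
  have hJd : J.det ≠ 0 := by
    have h4 : (cm (Jm n Q)).det = algebraMap ℚ ℂ (Jm n Q).det := (RingHom.map_det _ _).symm
    rw [hJ, h4]
    exact (map_ne_zero _).2 (Jm_detS h)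
  -- the row vector
  have hpe : p ⬝ᵥ ec n ≠ 0 := by
    rw [hp, smul_dotProduct, ← dotProduct_mulVec, smul_eq_mul]
    exact mul_ne_zero (mul_ne_zero (inv_ne_zero hσ0) hl1) (row_ne h.pos hKg hconn)
  have hpe' : p' ⬝ᵥ ec n ≠ 0 := by
    rw [hp', smul_dotProduct, ← dotProduct_mulVec, smul_eq_mul]
    exact mul_ne_zero (mul_ne_zero (inv_ne_zero hσ0') (mlt_ne_one hσ')) (row_ne h.dual hKg' hconn')
  -- the pairing of the two systems on the real segment
  have hXY : ∀ x : ℝ, 0 < x → x < 1 → (Yf A (Hc n (dq n Q)) (x : ℂ)).transpose * J * Yf A (Hc n Q) (x : ℂ) = J := by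
    intro x hx hx1
    have h1 := formD_real h hx hx1
    have i1 := E_isom hAn hAJ (Complex.log (x : ℂ))
    unfold Yf
    rw [transpose_mul]
    calc _ = (E A (Complex.log (x : ℂ))).transpose * ((Hf (Hc n (dq n Q)) (x : ℂ)).transpose * J *
          Hf (Hc n Q) (x : ℂ)) * E A (Complex.log (x : ℂ)) := by simp only [Matrix.mul_assoc]
      _ = J := by rw [h1, i1]
  -- its continuation
  have hjoint : (1 - vecMulVec u' p').transpose * J * (1 - vecMulVec u p) = J := by
    rw [← f1, ← f1']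
    set F : ℂ → Matrix (Fin n) (Fin n) ℂ := fun s =>
      (Hf K' (Complex.exp s) * PS (sg n (dq n Q)) (-cm (Bm n (dq n Q))) s * M').transpose * J *
        (Hf K (Complex.exp s) * PS (sg n Q) (-cm (Bm n Q)) s * M) - J with hF
    have hFan : ∀ i j, AnalyticOnNhd ℂ (fun s => F s i j) HP := by
      have hHan : ∀ (K : ℕ → Matrix (Fin n) (Fin n) ℂ), (∀ i j, PG fun k => K k i j) → ∀ i j,
          AnalyticOnNhd ℂ (fun s => Hf K (Complex.exp s) i j) HP := by
        intro K hK i j s hs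
        have h3 : AnalyticAt ℂ (fun w => Hf K w i j) (Complex.exp s) := Hf_an1 hK i j _ (by
          rw [Metric.mem_ball, dist_zero_right]
          exact exp_HP hs)
        exact h3.fun_comp analyticAt_cexp
      have hPan : ∀ (σ : ℝ) (N : Matrix (Fin n) (Fin n) ℂ) i j, AnalyticOnNhd ℂ (fun s => PS σ N s i j) HP := by
        intro σ N i j
        unfold PS
        simp only [Matrix.add_apply, Matrix.smul_apply, smul_eq_mul]
        refine analyticOnNhd_const.add (AnalyticOnNhd.mul (analyticOnNhd_const.mul (analyticOnNhd_const.sub ?_))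
          analyticOnNhd_const)
        intro s _
        exact (analyticAt_cexp).fun_comp (analyticAt_const.mul analyticAt_id)
      have hmul : ∀ {P R : ℂ → Matrix (Fin n) (Fin n) ℂ}, (∀ i j, AnalyticOnNhd ℂ (fun s => P s i j) HP) →
          (∀ i j, AnalyticOnNhd ℂ (fun s => R s i j) HP) → ∀ i j, AnalyticOnNhd ℂ (fun s => (P s * R s) i j) HP := by
        intro P R hP hR i j
        simp only [Matrix.mul_apply]
        exact Finset.analyticOnNhd_fun_sum _ fun l _ => (hP i l).mul (hR l j)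
      intro i j
      rw [hF]
      simp only [Matrix.sub_apply]
      refine AnalyticOnNhd.sub ?_ analyticOnNhd_const
      refine hmul (P := fun s => (Hf K' (Complex.exp s) * PS (sg n (dq n Q)) (-cm (Bm n (dq n Q))) s * M').transpose * J)
        (hmul (R := fun _ => J) (fun i j => ?_) (fun _ _ => analyticOnNhd_const))
        (hmul (R := fun _ => M) (hmul (hHan K hKg) (hPan _ _)) (fun _ _ => analyticOnNhd_const)) i j
      simp only [Matrix.transpose_apply]
      exact hmul (R := fun _ => M') (hmul (hHan K' hKg') (hPan _ _)) (fun _ _ => analyticOnNhd_const) j i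
    have hFr : ∀ r : ℝ, r < 0 → F (r : ℂ) = 0 := by
      intro r hr
      have e1 : Real.exp r < 1 := Real.exp_lt_one_iff.2 hr
      have e2 : 0 < Real.exp r := Real.exp_pos r
      have h3 := hXY (1 - Real.exp r) (by linarith) (by linarith)
      rw [hconn _ (real_mem_Lens (by linarith) (by linarith)), hconn' _ (real_mem_Lens (by linarith) (by linarith))] at h3
      push_cast at h3
      rw [sub_sub_cancel] at h3
      unfold ZS at h3
      have e3 : Complex.log (Complex.exp (r : ℂ)) = r := by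
        rw [← Complex.ofReal_exp, ← Complex.ofReal_log e2.le, Real.log_exp]
      rw [e3] at h3
      rw [hF]
      simp only
      rw [h3, sub_self]
    have hF1 : ∀ s ∈ HP, F s = 0 := by
      intro s hs
      ext i j
      exact HP_zero (hFan i j) (fun r hr => by rw [hFr r hr]; rfl) hs
    have hs0 : ((-1 : ℝ) : ℂ) ∈ HP := by
      show ((-1 : ℝ) : ℂ).re < 0
      rw [Complex.ofReal_re]
      norm_num
    have hs1 : ((-1 : ℝ) : ℂ) + ((1 : ℤ) : ℂ) * (2 * Real.pi * Complex.I) ∈ HP := by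
      show (((-1 : ℝ) : ℂ) + ((1 : ℤ) : ℂ) * (2 * Real.pi * Complex.I)).re < 0
      rw [Complex.add_re, Complex.ofReal_re]
      simp
    have g0 := sub_eq_zero.1 (hF1 _ hs0)
    have g1 := sub_eq_zero.1 (hF1 _ hs1)
    rw [Complex.exp_add, Complex.exp_int_mul_two_pi_mul_I, mul_one, PS_add hσ0 hBB, PS_add hσ0' hBB'] at g1
    set a := Hf K (Complex.exp ((-1 : ℝ) : ℂ)) * PS (sg n Q) (-cm (Bm n Q)) ((-1 : ℝ) : ℂ) with ha
    set a' := Hf K' (Complex.exp ((-1 : ℝ) : ℂ)) * PS (sg n (dq n Q)) (-cm (Bm n (dq n Q))) ((-1 : ℝ) : ℂ) with ha'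
    set T := PS (sg n Q) (-cm (Bm n Q)) (((1 : ℤ) : ℂ) * (2 * Real.pi * Complex.I)) with hT
    set T' := PS (sg n (dq n Q)) (-cm (Bm n (dq n Q))) (((1 : ℤ) : ℂ) * (2 * Real.pi * Complex.I)) with hT'
    have r1 : Hf K (Complex.exp ((-1 : ℝ) : ℂ)) * (PS (sg n Q) (-cm (Bm n Q)) ((-1 : ℝ) : ℂ) * T) * M = a * T * M := by
      rw [ha, ← Matrix.mul_assoc]
    have r1' : Hf K' (Complex.exp ((-1 : ℝ) : ℂ)) *
        (PS (sg n (dq n Q)) (-cm (Bm n (dq n Q))) ((-1 : ℝ) : ℂ) * T') * M' = a' * T' * M' := by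
      rw [ha', ← Matrix.mul_assoc]
    rw [r1, r1'] at g1
    have g2 : a * T * M = a * M * (Mi * T * M) := by
      calc a * T * M = a * (M * Mi) * T * M := by rw [hMMi, mul_one]
        _ = _ := by simp only [Matrix.mul_assoc]
    have g2' : a' * T' * M' = a' * M' * (Mi' * T' * M') := by
      calc a' * T' * M' = a' * (M' * Mi') * T' * M' := by rw [hMMi', mul_one]
        _ = _ := by simp only [Matrix.mul_assoc]
    rw [g2, g2', transpose_mul] at g1
    calc (Mi' * T' * M').transpose * J * (Mi * T * M)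
        = (Mi' * T' * M').transpose * ((a' * M').transpose * J * (a * M)) * (Mi * T * M) := by rw [g0]
      _ = (Mi' * T' * M').transpose * (a' * M').transpose * J * (a * M * (Mi * T * M)) := by
        simp only [Matrix.mul_assoc]
      _ = J := g1
  -- the column vector
  have hlast : u ⟨n - 1, by omega⟩ ≠ 0 := by
    intro h0
    have home : om J (ec n) u = 0 := by
      unfold om dotProduct
      refine Finset.sum_eq_zero fun i _ => ?_
      by_cases hi : (i : ℕ) = 0
      · have : (J *ᵥ u) i = 0 := by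
          rw [mv_apply]
          refine Finset.sum_eq_zero fun j _ => ?_
          by_cases hj : (j : ℕ) + 1 = n
          · have : j = ⟨n - 1, by omega⟩ := Fin.ext (by simp only; omega)
            rw [this, h0, mul_zero]
          · rw [hJ, cm_apply]
            unfold Jm
            rw [Matrix.of_apply, if_neg (by have := j.2; omega)]
            simp
        rw [this, mul_zero]
      · unfold ec
        rw [if_neg hi, zero_mul]
    have hbil : ∀ x, om J ((1 - vecMulVec u' p') *ᵥ x) ((1 - vecMulVec u p) *ᵥ u) = om J x u := by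
      intro x
      rw [om_mulVec, mulVec_mulVec, hjoint]
      rfl
    have hgu : (1 - vecMulVec u p) *ᵥ u = lam • u := by
      rw [sub_mulVec, one_mulVec, vm_mulVec, hpu, sub_smul, one_smul]
      abel
    have hgx : ∀ x, (1 - vecMulVec u' p') *ᵥ x = x - (p' ⬝ᵥ x) • u' := by
      intro x
      rw [sub_mulVec, one_mulVec, vm_mulVec]
    have h3 : ∀ x, lam * (om J x u - (p' ⬝ᵥ x) * om J u' u) = om J x u := by
      intro x
      have := hbil x
      rw [hgu, hgx, om_smul, om_sub_left, om_smul_left] at this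
      exact this
    have h4 : om J u' u = 0 := by
      have h5 := h3 (ec n)
      rw [home, zero_sub, mul_neg, neg_eq_zero] at h5
      rcases mul_eq_zero.1 h5 with h6 | h6
      · exact absurd h6 hl0
      · exact (mul_eq_zero.1 h6).resolve_left hpe'
    have h5 : ∀ x, om J x u = 0 := by
      intro x
      have h6 := h3 x
      rw [h4, mul_zero, sub_zero] at h6
      have h7 : (1 - lam) * om J x u = 0 := by linear_combination -h6
      exact (mul_eq_zero.1 h7).resolve_left hl1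
    apply hune
    have h6 : J *ᵥ u = 0 := by
      funext i
      have := h5 (Pi.single i 1)
      unfold om at this
      rwa [single_one_dotProduct] at this
    have h7 := congrArg (fun x => J⁻¹ *ᵥ x) h6
    simp only [mulVec_mulVec, nonsing_inv_mul _ (Ne.isUnit hJd), one_mulVec, mulVec_zero] at h7
    exact h7
  have hcu : (A ^ (n - 1)) *ᵥ u ≠ 0 := by
    rw [hA, Ac_last hn]
    intro h0
    rcases smul_eq_zero.1 h0 with h1 | h1
    · exact hlast h1
    · have h2 := congrFun h1 ⟨0, by omega⟩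
      unfold ec at h2
      rw [if_pos rfl] at h2
      exact one_ne_zero h2
  have hcp : p ᵥ* (A ^ (n - 1)) ≠ 0 := by
    intro h0
    apply hpe
    have h1 := congrArg (fun r => r ⬝ᵥ uc n) h0
    simp only [zero_dotProduct] at h1
    rw [← dotProduct_mulVec, hA, Ac_last hn, dotProduct_smul] at h1
    unfold uc at h1
    rw [if_pos (by simp only; omega), one_smul] at h1
    exact h1
  refine ⟨u, p, fun r => Mi * PS (sg n Q) (-cm (Bm n Q)) (tp r) * M,
    LD.refl hσ0 hBB hKg hMMi fun x hx hx1 => hconn x (real_mem_Lens hx hx1), ?_, fun r m => ?_, ?_, ?_, hpu, hcu, hcp⟩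
  · have h0 : tp 0 = 0 := by
      unfold tp
      simp
    simp only
    rw [h0, PS_zero, mul_one, hMiM]
  · have h0 : Complex.exp (-(sg n Q : ℂ) * tp (r + d * m)) = Complex.exp (-(sg n Q : ℂ) * tp r) := by
      have e1 : -(sg n Q : ℂ) * tp (r + d * m) = -(sg n Q : ℂ) * tp r + (((-(e * m) : ℤ)) : ℂ) * (2 * Real.pi * Complex.I) := by
        unfold tp
        have e2 : (sg n Q : ℂ) * (d : ℂ) = (e : ℂ) := by exact_mod_cast hd
        push_cast
        linear_combination (-(m : ℂ) * (2 * Real.pi * Complex.I)) * e2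
      rw [e1, Complex.exp_add, Complex.exp_int_mul_two_pi_mul_I, mul_one]
    simp only
    unfold PS
    rw [h0]
  · exact f1
  · exact f2

/-- the block of linear type -/
theorem famL (h : QS n Q) (h2 : ∀ a : ℤ, 2 * sg n Q ≠ a) {r : ℚ} (hr : sg n Q = (r : ℝ)) :
    ∃ T : ℤ → Matrix (Fin n) (Fin n) ℂ, LD (Yf (cm (Am n)) (Hc n Q)) T ∧ FB n (cm (Am n)) T (detM n r.den) r.den := by
  have hσ : ∀ a : ℤ, sg n Q ≠ a := by
    intro a ha
    refine h2 (2 * a) ?_
    rw [ha]
    push_cast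
    ring
  have hl0 : mlt (sg n Q) ≠ 0 := mlt_ne_zero _
  have hl1 : 1 - mlt (sg n Q) ≠ 0 := mlt_ne_one hσ
  have hl2 : 1 + mlt (sg n Q) ≠ 0 := mlt_ne_neg h2
  obtain ⟨u, p, T, hT, hT0, hper, hT1, hTm, hpu, hcu, hcp⟩ := lin_data h h2 (d := r.den) (e := r.num) (by
    rw [hr]
    have := Rat.mul_den_eq_num r
    exact_mod_cast this)
  refine ⟨T, hT, hT0, hper, fun S hZ hE hTS g hg => ?_⟩
  have m1 := hTS 1
  have m2 := hTS (-1)
  rw [hT1] at m1
  rw [hTm] at m2
  set m := 1 - vecMulVec u p with hm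
  set m' := 1 + (mlt (sg n Q))⁻¹ • vecMulVec u p with hm'
  have hmm : m * m' = 1 := hh' hpu hl0
  have hmd : m.det = mlt (sg n Q) := by
    have h3 := Matrix.det_one_add_replicateCol_mul_replicateRow (ι := Unit) (-u) p
    rw [dotProduct_neg, hpu] at h3
    have h4 : (1 : Matrix (Fin n) (Fin n) ℂ) - vecMulVec u p = 1 + replicateCol Unit (-u) * replicateRow Unit p := by
      rw [← vecMulVec_eq, neg_vecMulVec, sub_eq_add_neg]
    rw [hm, h4, h3]
    ring
  have hsl : ∀ g : Matrix (Fin n) (Fin n) ℂ, g.det = 1 → g ∈ S := fun g hg =>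
    sl_all hpu hl0 hl2 hl1 Ac_nil hcu hcp hE m1 m2 hZ g hg
  have hg' : g.det ^ r.den = 1 := hg
  have hprim : IsPrimitiveRoot (mlt (sg n Q)) r.den := by
    have h3 := Complex.isPrimitiveRoot_exp_rat (-r)
    rw [Rat.neg_den] at h3
    have h4 : mlt (sg n Q) = Complex.exp (2 * Real.pi * Complex.I * ((-r : ℚ) : ℂ)) := by
      unfold mlt
      rw [hr]
      congr 1
      push_cast
      ring
    rw [h4]
    exact h3
  haveI : NeZero r.den := ⟨r.den_nz⟩
  obtain ⟨j, -, hj⟩ := hprim.eq_pow_of_pow_eq_one hg'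
  have hmd' : m'.det * m.det = 1 := by
    rw [← Matrix.det_mul, mul_eq_one_comm.1 hmm, Matrix.det_one]
  have h5 : (g * m' ^ j).det = 1 := by
    rw [Matrix.det_mul, Matrix.det_pow, ← hj, ← hmd, ← mul_pow, mul_comm, hmd', one_pow]
  have h6 := S.mul_mem (hsl _ h5) (Submonoid.pow_mem _ m1 j)
  have h7 : g * m' ^ j * m ^ j = g := by
    have hc : Commute m' m := by
      show m' * m = m * m'
      rw [hmm, mul_eq_one_comm.1 hmm]
    rw [mul_assoc, ← hc.mul_pow, mul_eq_one_comm.1 hmm, one_pow, mul_one]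
  rw [h7] at h6
  exact h6

end Pool.Agent.L0h14.HO
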