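import Mathlib
import Pool.Agent.L0h14.HO.FamL

/-!
# The block of orthogonal type
-/

set_option autoImplicit false

open Matrix Filter Topology

namespace Pool.Agent.L0h14.HO

open Pool.Agent.Y113
open Pool.Agent.Y119.HY hiding sol_c a0_ne ratio sing Bm_mul step_q
open Pool.Agent.Y119.HZ hiding ode_Hp ode_int gsys_Hp ode_A2 Phi_ode qu_hf hfam_hf Cv_Hp ev_aeval rel_inv relI_vanish

variable {n : ℕ} {R : Polynomial ℚ}

lemma PS_half (N : Matrix (Fin n) (Fin n) ℂ) (s : ℂ) : PS (1 / 2) N s = Pf N s := by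
  unfold PS Pf
  have e1 : (((1 / 2 : ℝ)) : ℂ)⁻¹ = 2 := by
    push_cast
    norm_num
  have e2 : -(((1 / 2 : ℝ)) : ℂ) * s = -s / 2 := by
    push_cast
    ring
  rw [e1, e2]

/-- **The block of orthogonal type** -/
theorem famO (h : QO n R) : ∃ T : ℤ → Matrix (Fin n) (Fin n) ℂ, LD (Yf (cm (Am n)) (Hc n (PO R))) T ∧
    FB n (cm (Am n)) T (isoM (cm (Jm n R))) 2 := by
  have hn := h.two
  set A := cm (Am n) with hA
  set B := cm (Pool.Agent.Y119.HY.Bm n (PO R)) with hB
  set J0' := cm (Jm n R) with hJ0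
  set J1' := cm (J1 n R) with hJ1
  have hsol : Sol A B (Hc n (PO R)) := HO.sol_c h.qg
  have hAn : A ^ n = 0 := Ac_nil
  have hA0 : A.transpose * J0' + J0' * A = 0 := Jc_rel
  have hB0 : B.transpose * J0' + J0' * B = cm (C0 n R) := by
    rw [← rB0 h, cm_add, cm_mul, cm_mul, cm_transpose]
  have hA1 : J1' + (A.transpose * J1' + J1' * A) = cm (C0 n R) := by
    rw [← rA1, cm_add, cm_add, cm_mul, cm_mul, cm_transpose]
  have hB1 : B.transpose * J1' + J1' * B = cm (C0 n R) := by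
    rw [← rB1 h, cm_add, cm_mul, cm_mul, cm_transpose]
  have hBB : (-B) * (-B) = (-(1 / 2 : ℂ)) • (-B) := by
    rw [neg_mul_neg, hB, ← cm_mul, rBB h, cm_smulQ]
    push_cast
    rw [neg_smul, smul_neg, neg_neg]
  obtain ⟨K, hK⟩ := exists_sol1 hBB (-A)
  have hKg := growth1 hK hBB
  obtain ⟨M, Mi, hMMi, hMiM, hconn⟩ := connect1 hAn hA0 hB0 hA1 hB1 hBB (fun x hx hx1 => Jz_det h (by
    have : (1 - (x : ℂ)) = ((1 - x : ℝ) : ℂ) := by push_cast; rfl
    rw [this]
    exact Complex.ofReal_ne_zero.2 (sub_pos.2 hx1).ne')) hsol hK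
  have hmon := mono_one hBB hKg (Y := Yf A (Hc n (PO R))) hMMi (fun x hx hx1 => hconn x (real_mem_Lens hx hx1))
  have hJsym : J0'.transpose = J0' := by rw [hJ0, ← cm_transpose, J0_symm h]
  have hJdet : J0'.det ≠ 0 := by
    have h4 : (cm (Jm n R)).det = algebraMap ℚ ℂ (Jm n R).det := (RingHom.map_det _ _).symm
    rw [hJ0, h4]
    exact (map_ne_zero _).2 (J0_det h)
  have hiso := Gal_isom (J0 := J0') (J1 := J1') (Y := Yf A (Hc n (PO R))) (fun x hx hx1 => Yf_form h hx hx1) hmon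
  -- the reflection
  set q : Fin n → ℂ := fun j => ((qv n (PO R) j : ℚ) : ℂ) with hq
  have hBv : B = vecMulVec (uc n) q := by
    rw [hB, Bm_vec, cm_vec, uc_eq]
  set u : Fin n → ℂ := Mi *ᵥ uc n with hu
  set p : Fin n → ℂ := (4 : ℂ) • (q ᵥ* M) with hp
  have hform : Mi * (1 + (4 : ℂ) • (-B)) * M = 1 - vecMulVec u p := by
    rw [mul_add, mul_one, add_mul, hMiM, mul_smul_comm, smul_mul_assoc, mul_neg, neg_mul, hBv, mul_vecMulVec, vecMulVec_mul,
      hp, vecMulVec_smul, smul_neg, sub_eq_add_neg]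
  rw [hform] at hmon hiso
  have hpu : p ⬝ᵥ u = 2 := by
    rw [hp, smul_dotProduct, hu, dotProduct_mulVec, vecMul_vecMul, hMMi, vecMul_one]
    have h1 : q ⬝ᵥ uc n = ((um n ⬝ᵥ qv n (PO R) : ℚ) : ℂ) := by
      rw [dotProduct_comm, hq, uc_eq]
      unfold dotProduct
      push_cast
      rfl
    rw [h1, um_qv h]
    norm_num
  obtain ⟨huu, hrf⟩ := rf_of hJsym hJdet hpu hiso
  rw [hrf] at hmon
  -- cyclicity
  have hcyc : (A ^ (n - 1)) *ᵥ u ≠ 0 := by
    rw [hA, Ac_last hn]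
    intro h0
    have hlast : u ⟨n - 1, by omega⟩ = 0 := by
      rcases smul_eq_zero.1 h0 with h1 | h1
      · exact h1
      · exfalso
        have h2 := congrFun h1 ⟨0, by omega⟩
        unfold ec at h2
        rw [if_pos rfl] at h2
        exact one_ne_zero h2
    have home : om J0' u (ec n) = 0 := by
      unfold om dotProduct
      refine Finset.sum_eq_zero fun i _ => ?_
      by_cases hi : (i : ℕ) + 1 = n
      · have : i = ⟨n - 1, by omega⟩ := Fin.ext (by simp only; omega)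
        rw [this, hlast, zero_mul]
      · have : (J0' *ᵥ ec n) i = 0 := by
          rw [mv_apply]
          refine Finset.sum_eq_zero fun j _ => ?_
          unfold ec
          split_ifs with hj
          · rw [hJ0, cm_apply]
            unfold Jm
            rw [Matrix.of_apply, if_neg (by have := i.2; omega)]
            simp
          · rw [mul_zero]
        rw [this, mul_zero]
    have hfix : rf J0' u *ᵥ ec n = ec n := rf_fix home
    rw [← hrf, ← hform] at hfix
    have hBM : (-B) *ᵥ (M *ᵥ ec n) = 0 := by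
      have h1 := congrArg (fun x => M *ᵥ x) hfix
      simp only [← mulVec_mulVec] at h1
      rw [mulVec_mulVec (_) M Mi, hMMi, one_mulVec, add_mulVec, one_mulVec, smul_mulVec] at h1
      have h2 : (4 : ℂ) • ((-B) *ᵥ (M *ᵥ ec n)) = 0 := by
        have := congrArg (fun x => x - M *ᵥ ec n) h1
        simpa using this
      exact (smul_eq_zero.1 h2).resolve_left (by norm_num)
    refine HO.sing h.qg (fun z => (Hf K (1 - z) *ᵥ (M *ᵥ ec n)) ⟨0, by omega⟩) ?_ fun z hz => ?_
    · simp only [Matrix.mulVec, dotProduct]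
      refine Finset.analyticOnNhd_fun_sum _ fun j _ => AnalyticOnNhd.mul ?_ analyticOnNhd_const
      intro z hz
      have h3 : AnalyticAt ℂ (fun w => Hf K w ⟨0, by omega⟩ j) (1 - z) := Hf_an1 hKg ⟨0, by omega⟩ j (1 - z) (by
        rw [Metric.mem_ball, dist_comm, dist_eq_norm] at hz
        rwa [Metric.mem_ball, dist_zero_right])
      have h4 : AnalyticAt ℂ (fun w : ℂ => 1 - w) z := analyticAt_const.sub analyticAt_id
      exact h3.fun_comp h4
    · have h3 := congrArg (fun X : Matrix (Fin n) (Fin n) ℂ => X *ᵥ ec n) (hconn z hz)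
      unfold Yf Zf at h3
      rw [← mulVec_mulVec, E_fix (Ac_ec n), ← mulVec_mulVec, ← mulVec_mulVec, Pf_fix hBM] at h3
      rw [h3]
  have hBB' : (-B) * (-B) = (-(((1 / 2 : ℝ)) : ℂ)) • (-B) := by
    rw [hBB]
    push_cast
    rfl
  have hσ0 : (((1 / 2 : ℝ)) : ℂ) ≠ 0 := by
    push_cast
    norm_num
  refine ⟨fun r => Mi * PS (1 / 2) (-B) (tp r) * M, LD.refl hσ0 hBB' hKg hMMi fun x hx hx1 => ?_, ?_, fun r m => ?_,
    fun S hZ hE hTS g hg => ?_⟩
  · rw [hconn x (real_mem_Lens hx hx1)]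
    unfold Zf ZS
    rw [PS_half]
  · have h0 : tp 0 = 0 := by
      unfold tp
      simp
    show Mi * PS (1 / 2) (-B) (tp 0) * M = 1
    rw [h0, PS_zero, mul_one, hMiM]
  · have h0 : Complex.exp (-(((1 / 2 : ℝ)) : ℂ) * tp (r + (2 : ℕ) * m)) = Complex.exp (-(((1 / 2 : ℝ)) : ℂ) * tp r) := by
      have e1 : -(((1 / 2 : ℝ)) : ℂ) * tp (r + (2 : ℕ) * m) = -(((1 / 2 : ℝ)) : ℂ) * tp r +
          (((-m : ℤ)) : ℂ) * (2 * Real.pi * Complex.I) := by
        unfold tp
        push_cast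
        ring
      rw [e1, Complex.exp_add, Complex.exp_int_mul_two_pi_mul_I, mul_one]
    show Mi * PS (1 / 2) (-B) (tp (r + (2 : ℕ) * m)) * M = Mi * PS (1 / 2) (-B) (tp r) * M
    unfold PS
    rw [h0]
  · have h1 : Mi * PS (1 / 2) (-B) (tp 1) * M ∈ S := hTS 1
    have h0 : tp 1 = 2 * Real.pi * Complex.I := by
      unfold tp
      push_cast
      ring
    rw [h0, PS_half, Pf_two_pi, hform, hrf] at h1
    exact orth_all hJsym hJdet hAn hA0 hcyc huu hE h1 hZ g hg

end Pool.Agent.L0h14.HO
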