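import Mathlib
import Pool.Agent.L0h14.HO.FamO

/-!
# The block of symplectic type
-/

set_option autoImplicit false

open Matrix Filter Topology

namespace Pool.Agent.L0h14.HO

open Pool.Agent.Y113
open Pool.Agent.Y119.HY hiding sol_c a0_ne ratio sing Bm_mul step_q
open Pool.Agent.Y119.HZ hiding ode_Hp ode_int gsys_Hp ode_A2 Phi_ode qu_hf hfam_hf Cv_Hp ev_aeval rel_inv relI_vanish

variable {n : ℕ}

lemma tendsto_mat {ι : Type*} {l : Filter ι} {F : ι → Matrix (Fin n) (Fin n) ℂ} {L : Matrix (Fin n) (Fin n) ℂ} :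
    Tendsto F l (𝓝 L) ↔ ∀ i j, Tendsto (fun x => F x i j) l (𝓝 (L i j)) := by
  refine (tendsto_pi_nhds (f := fun x i => F x i) (g := fun i => L i)).trans ?_
  exact forall_congr' fun i => tendsto_pi_nhds (f := fun x j => F x i j) (g := fun j => L i j)

lemma log_one_sub : Tendsto (fun x : ℝ => (Complex.log (1 - (x : ℂ)))⁻¹) (𝓝[<] 1) (𝓝 0) := by
  have h1 : Tendsto (fun x : ℝ => 1 - x) (𝓝[<] 1) (𝓝[>] 0) := by
    refine tendsto_nhdsWithin_iff.2 ⟨?_, ?_⟩
    · have : Tendsto (fun x : ℝ => 1 - x) (𝓝 1) (𝓝 (1 - 1)) := tendsto_const_nhds.sub tendsto_id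
      rw [sub_self] at this
      exact this.mono_left nhdsWithin_le_nhds
    · filter_upwards [self_mem_nhdsWithin] with x hx
      rw [Set.mem_Iio] at hx
      rw [Set.mem_Ioi]
      linarith
  have h2 := Real.tendsto_log_nhdsGT_zero.comp h1
  have h3 : Tendsto (fun x : ℝ => ((Real.log (1 - x))⁻¹ : ℝ)) (𝓝[<] 1) (𝓝 0) := h2.inv_tendsto_atBot
  have h4 : Tendsto (fun x : ℝ => (((Real.log (1 - x))⁻¹ : ℝ) : ℂ)) (𝓝[<] 1) (𝓝 ((0 : ℝ) : ℂ)) :=
    (Complex.continuous_ofReal.tendsto 0).comp h3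
  rw [Complex.ofReal_zero] at h4
  refine h4.congr' ?_
  filter_upwards [self_mem_nhdsWithin] with x hx
  rw [Set.mem_Iio] at hx
  have : (1 - (x : ℂ)) = ((1 - x : ℝ) : ℂ) := by push_cast; rfl
  rw [this, ← Complex.ofReal_log (by linarith), Complex.ofReal_inv]

/-- the singular part at one -/
lemma sing_part {J A : Matrix (Fin n) (Fin n) ℂ} {u : Fin n → ℂ} {H K : ℕ → Matrix (Fin n) (Fin n) ℂ} (hn : 2 ≤ n)
    (hJ : J.transpose = -J) (hA : A ^ n = 0) (hK : Sol (vecMulVec u (u ᵥ* J)) (-A) K)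
    {M : Matrix (Fin n) (Fin n) ℂ}
    (hconn : ∀ z ∈ Lens, Yf A H z = Yf (vecMulVec u (u ᵥ* J)) K (1 - z) * M) (i j : Fin n) :
    Tendsto (fun x : ℝ => Hf H (x : ℂ) i j * (Complex.log (1 - (x : ℂ)))⁻¹) (𝓝[<] 1)
      (𝓝 ((vecMulVec u (u ᵥ* J) * M) i j)) := by
  set B := vecMulVec u (u ᵥ* J) with hB
  have hBn : B ^ n = 0 := tv_pow hJ u hn
  -- the factors
  have hx1 : Tendsto (fun x : ℝ => (1 - (x : ℂ))) (𝓝[<] 1) (𝓝 0) := by
    have : Tendsto (fun x : ℝ => (1 - (x : ℂ))) (𝓝 1) (𝓝 (1 - ((1 : ℝ) : ℂ))) :=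
      tendsto_const_nhds.sub (Complex.continuous_ofReal.tendsto 1)
    rw [Complex.ofReal_one, sub_self] at this
    exact this.mono_left nhdsWithin_le_nhds
  have hlx : Tendsto (fun x : ℝ => Complex.log (x : ℂ)) (𝓝[<] 1) (𝓝 0) := by
    have h0 : ContinuousAt (fun x : ℝ => Complex.log (x : ℂ)) 1 := by
      refine ContinuousAt.clog (Complex.continuous_ofReal.continuousAt) ?_
      rw [Complex.ofReal_one]
      exact Complex.one_mem_slitPlane
    have h1 := h0.tendsto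
    rw [Complex.ofReal_one, Complex.log_one] at h1
    exact h1.mono_left nhdsWithin_le_nhds
  have f1 : Tendsto (fun x : ℝ => Hf K (1 - (x : ℂ))) (𝓝[<] 1) (𝓝 1) := by
    rw [tendsto_mat]
    intro a b
    have h1 : ContinuousAt (fun z => Hf K z a b) 0 := (Hf_an hK hBn a b 0 (Metric.mem_ball_self one_pos)).continuousAt
    have h2 := h1.tendsto
    rw [Hf_zero hK] at h2
    exact h2.comp hx1
  have f2 : Tendsto (fun x : ℝ => E A (-Complex.log (x : ℂ))) (𝓝[<] 1) (𝓝 1) := by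
    have h1 : Continuous fun s : ℂ => E A (-s) := by
      unfold E
      refine continuous_finsetSum _ fun l _ => ?_
      exact (((continuous_neg.pow l).div_const _)).smul continuous_const
    have h2 := (h1.tendsto 0).comp hlx
    rw [neg_zero, E_zero hA] at h2
    exact h2
  have f3 := log_one_sub
  have g1 := ((f1.mul_const M).mul f2)
  have g2 := (((f1.mul_const B).mul_const M).mul f2)
  rw [one_mul, mul_one] at g1
  rw [one_mul, mul_one] at g2
  have g3 := (f3.smul g1).add g2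
  rw [zero_smul, zero_add] at g3
  have g4 := tendsto_mat.1 g3 i j
  refine g4.congr' ?_
  filter_upwards [self_mem_nhdsWithin, Ioo_mem_nhdsLT (show (0 : ℝ) < 1 by norm_num)] with x hx hx'
  have hxL := real_mem_Lens hx'.1 hx'.2
  have e1 : Hf H (x : ℂ) = Yf A H (x : ℂ) * E A (-Complex.log (x : ℂ)) := by
    unfold Yf
    rw [Matrix.mul_assoc, E_mul_neg hA, mul_one]
  have e2 : Yf B K (1 - (x : ℂ)) = Hf K (1 - (x : ℂ)) + Complex.log (1 - (x : ℂ)) • (Hf K (1 - (x : ℂ)) * B) := by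
    unfold Yf
    rw [hB, E_tv hn hJ]
    unfold tv
    rw [mul_add, mul_one, mul_smul_comm]
  have hl0 : Complex.log (1 - (x : ℂ)) ≠ 0 := by
    have : (1 - (x : ℂ)) = ((1 - x : ℝ) : ℂ) := by push_cast; rfl
    have h0 := hx'.1
    have h1 := hx'.2
    rw [this, ← Complex.ofReal_log (by linarith)]
    have h2 : Real.log (1 - x) < 0 := Real.log_neg (by linarith) (by linarith)
    exact_mod_cast h2.ne
  rw [e1, hconn _ hxL, e2]
  set X := Hf K (1 - (x : ℂ))
  set L := Complex.log (1 - (x : ℂ))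
  have e3 : L⁻¹ • (X * M * E A (-Complex.log (x : ℂ))) + X * B * M * E A (-Complex.log (x : ℂ)) =
      L⁻¹ • ((X + L • (X * B)) * M * E A (-Complex.log (x : ℂ))) := by
    rw [add_mul, add_mul, smul_add, smul_mul_assoc, smul_mul_assoc, smul_smul, inv_mul_cancel₀ hl0, one_smul]
  rw [e3, Matrix.smul_apply, smul_eq_mul, mul_comm]

/-- **The block of symplectic type** -/
theorem famS {Q : Polynomial ℚ} (hQ : QD n Q) : ∃ v : Fin n → ℂ,
    LD (Yf (cm (Am n)) (Hc n Q)) (fun r => tv (cm (Jm n Q)) v (tp r)) ∧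
    SB n (cm (Am n)) (fun r => tv (cm (Jm n Q)) v (tp r)) (cm (Jm n Q)) v ∧
    ∀ i j : Fin n, (i : ℕ) + 1 = n →
      Tendsto (fun x : ℝ => Hf (Hc n Q) (x : ℂ) i j * (Complex.log (1 - (x : ℂ)))⁻¹) (𝓝[<] 1)
      (𝓝 ((v ᵥ* cm (Jm n Q)) j)) := by
  have hn := hQ.two
  set J := cm (Jm n Q) with hJd
  set A := cm (Am n) with hAd
  set u := uc n with hu
  have hJ : J.transpose = -J := Jc_skew hQ
  have hdet : J.det ≠ 0 := Jc_det hQ
  have hA : A ^ n = 0 := Ac_nil
  have hAJ : A.transpose * J + J * A = 0 := Jc_rel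
  have hH : Sol A (-vecMulVec u (u ᵥ* J)) (Hc n Q) := by
    have := Pool.Agent.Y119.HY.sol_c hQ
    rw [cm_Bm hQ] at this
    exact this
  have hAe : A *ᵥ ec n = 0 := Ac_ec n
  set e := ec n with he
  set B : Matrix (Fin n) (Fin n) ℂ := -vecMulVec u (u ᵥ* J) with hBdef
  have hnB : -B = vecMulVec u (u ᵥ* J) := by rw [hBdef, neg_neg]
  have hB : (-B) ^ n = 0 := by rw [hnB]; exact tv_pow hJ u hn
  have hBJ : B.transpose * J + J * B = 0 := by
    rw [hBdef, transpose_neg, neg_mul, mul_neg, ← neg_add, tv_skew hJ, neg_zero]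
  obtain ⟨K, hK⟩ := exists_sol hB (-A)
  obtain ⟨M, Mi, hMMi, hMiM, hMJ, hconn⟩ := connect hdet hA hAJ hB hBJ hH hK
  have hMiJ : Mi.transpose * J * Mi = J := by
    calc Mi.transpose * J * Mi = Mi.transpose * (M.transpose * J * M) * Mi := by rw [hMJ]
      _ = (M * Mi).transpose * J * (M * Mi) := by rw [transpose_mul]; simp only [Matrix.mul_assoc]
      _ = J := by rw [hMMi, transpose_one, one_mul, mul_one]
  set v : Fin n → ℂ := Mi *ᵥ u with hv
  have hvJ : v ᵥ* J = (u ᵥ* J) ᵥ* M := by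
    rw [hv, ← vecMul_transpose, vecMul_vecMul, vecMul_vecMul]
    congr 1
    calc Mi.transpose * J = Mi.transpose * J * (Mi * M) := by rw [hMiM, mul_one]
      _ = Mi.transpose * J * Mi * M := by simp only [Matrix.mul_assoc]
      _ = J * M := by rw [hMiJ]
  refine ⟨v, ?_, ⟨hJ, hdet, hAJ, fun r => rfl, ?_⟩, fun i j hi => ?_⟩
  · have h1 := LD.unip hB hK (Y := Yf A (Hc n Q)) hMMi (fun x hx hx1 => hconn x (real_mem_Lens hx hx1))
    have h2 : (fun r => Mi * E (-B) (tp r) * M) = fun r => tv J v (tp r) := by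
      funext r
      rw [hnB, E_tv hn hJ, tv_conj Mi M hMiM hMiJ]
    rw [h2] at h1
    exact h1
  · have hcyc : ∀ v, om J v e ≠ 0 → om J v ((A ^ (n - 1)) *ᵥ v) ≠ 0 := fun v hv => by
      have h1 := hv
      rw [om_ec hQ] at h1
      rw [Ac_last hn, om_smul]
      exact mul_ne_zero (left_ne_zero_of_mul h1) hv
    refine hcyc v ?_
    intro h0
    -- `ω(u, M e) = 0`
    have h1 : om J u (M *ᵥ e) = 0 := by
      have h2 : om J (Mi *ᵥ u) (Mi *ᵥ (M *ᵥ e)) = om J u (M *ᵥ e) := om_isom hMiJ _ _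
      rw [← h2, mulVec_mulVec e Mi M, hMiM, one_mulVec]
      exact h0
    have h2 : (-B) *ᵥ (M *ᵥ e) = 0 := by
      rw [hnB, vecMulVec_mulVec, ← om_eq, h1]
      simp
    refine Pool.Agent.Y119.HY.sing hQ (fun z => (Hf K (1 - z) *ᵥ (M *ᵥ e)) ⟨0, by omega⟩) ?_ fun z hz => ?_
    · simp only [Matrix.mulVec, dotProduct]
      refine Finset.analyticOnNhd_fun_sum _ fun j _ => AnalyticOnNhd.mul ?_ analyticOnNhd_const
      intro z hz
      have h3 : AnalyticAt ℂ (fun w => Hf K w ⟨0, by omega⟩ j) (1 - z) := Hf_an hK hB ⟨0, by omega⟩ j (1 - z) (by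
        rw [Metric.mem_ball, dist_comm, dist_eq_norm] at hz
        rwa [Metric.mem_ball, dist_zero_right])
      have h4 : AnalyticAt ℂ (fun w : ℂ => 1 - w) z := analyticAt_const.sub analyticAt_id
      exact h3.fun_comp h4
    · have h3 := congrArg (fun X : Matrix (Fin n) (Fin n) ℂ => X *ᵥ e) (hconn z hz)
      unfold Yf at h3
      rw [← mulVec_mulVec, E_fix hAe, ← mulVec_mulVec, ← mulVec_mulVec, E_fix h2] at h3
      rw [h3]
  · rw [hnB] at hK hconn
    have h1 := sing_part (u := u) hn hJ hA hK hconn i j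
    have h2 : (vecMulVec u (u ᵥ* J) * M) i j = (v ᵥ* J) j := by
      rw [vecMulVec_mul, ← hvJ, vecMulVec_apply, hu]
      unfold uc
      rw [if_pos hi, one_mul]
    rw [h2] at h1
    exact h1

end Pool.Agent.L0h14.HO
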