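import Mathlib
import Pool.Agent.Y119.HY.Ps

/-!
# Taylor series at the origin and an Abelian theorem
-/

set_option autoImplicit false

open Filter Topology

namespace Pool.Agent.L0h14.HO

/-- the Taylor series at the origin -/
noncomputable def tay (f : ℂ → ℂ) : PowerSeries ℂ := PowerSeries.mk fun j => iteratedDeriv j f 0 / j.factorial

lemma coeff_tay (f : ℂ → ℂ) (j : ℕ) : PowerSeries.coeff j (tay f) = iteratedDeriv j f 0 / j.factorial := by
  unfold tay
  rw [PowerSeries.coeff_mk]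

lemma tay_mul {f g : ℂ → ℂ} (hf : AnalyticAt ℂ f 0) (hg : AnalyticAt ℂ g 0) : tay (fun z => f z * g z) = tay f * tay g := by
  ext j
  rw [coeff_tay, iteratedDeriv_fun_mul hf.contDiffAt hg.contDiffAt, PowerSeries.coeff_mul,
    Finset.Nat.sum_antidiagonal_eq_sum_range_succ_mk, Finset.sum_div]
  refine Finset.sum_congr rfl fun i hi => ?_
  rw [Finset.mem_range, Nat.lt_succ_iff] at hi
  simp only
  rw [coeff_tay, coeff_tay, Nat.cast_choose _ hi]
  have h1 : (j.factorial : ℂ) ≠ 0 := by exact_mod_cast j.factorial_ne_zero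
  have h2 : (i.factorial : ℂ) ≠ 0 := by exact_mod_cast i.factorial_ne_zero
  have h3 : ((j - i).factorial : ℂ) ≠ 0 := by exact_mod_cast (j - i).factorial_ne_zero
  field_simp

lemma tay_const (c : ℂ) : tay (fun _ => c) = PowerSeries.C c := by
  ext j
  rw [coeff_tay, iteratedDeriv_const, PowerSeries.coeff_C]
  split_ifs with h
  · rw [h]
    simp
  · simp

lemma tay_id : tay (fun z => z) = PowerSeries.X := by
  ext j
  rw [coeff_tay, iteratedDeriv_fun_id_zero, PowerSeries.coeff_X]
  split_ifs with h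
  · rw [h]
    simp
  · simp

lemma tay_add {f g : ℂ → ℂ} (hf : AnalyticAt ℂ f 0) (hg : AnalyticAt ℂ g 0) : tay (fun z => f z + g z) = tay f + tay g := by
  ext j
  rw [map_add, coeff_tay, coeff_tay, coeff_tay]
  have h1 : iteratedDeriv j (fun z => f z + g z) 0 = iteratedDeriv j f 0 + iteratedDeriv j g 0 :=
    iteratedDeriv_fun_add (hf.contDiffAt) (hg.contDiffAt)
  rw [h1, add_div]

lemma tay_congr {f g : ℂ → ℂ} (h : f =ᶠ[𝓝 0] g) : tay f = tay g := by
  ext j
  rw [coeff_tay, coeff_tay, h.iteratedDeriv_eq j]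

lemma tay_neg (f : ℂ → ℂ) : tay (fun z => f (-z)) = PowerSeries.rescale (-1) (tay f) := by
  ext j
  rw [coeff_tay, PowerSeries.coeff_rescale, coeff_tay, iteratedDeriv_comp_neg, neg_zero, smul_eq_mul, mul_div_assoc]

lemma tay_pow {f : ℂ → ℂ} (hf : AnalyticAt ℂ f 0) (m : ℕ) : tay (fun z => f z ^ m) = tay f ^ m := by
  induction m with
  | zero =>
    simp only [pow_zero]
    rw [tay_const, map_one]
  | succ m ih =>
    simp only [pow_succ]
    rw [tay_mul (hf.fun_pow m) hf, ih]

lemma tay_prod {ι : Type*} (s : Finset ι) {f : ι → ℂ → ℂ} (hf : ∀ i ∈ s, AnalyticAt ℂ (f i) 0) :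
    tay (fun z => ∏ i ∈ s, f i z) = ∏ i ∈ s, tay (f i) := by
  classical
  induction s using Finset.induction_on with
  | empty =>
    simp only [Finset.prod_empty]
    rw [tay_const, map_one]
  | insert a s ha ih =>
    simp only [Finset.prod_insert ha]
    rw [tay_mul (hf a (Finset.mem_insert_self _ _))
      (Finset.analyticAt_fun_prod _ fun i hi => hf i (Finset.mem_insert_of_mem hi)),
      ih fun i hi => hf i (Finset.mem_insert_of_mem hi)]

lemma constantCoeff_tay (f : ℂ → ℂ) : PowerSeries.constantCoeff (tay f) = f 0 := by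
  rw [← PowerSeries.coeff_zero_eq_constantCoeff_apply, coeff_tay, iteratedDeriv_zero]
  simp

lemma tay_inv {f : ℂ → ℂ} (hf : AnalyticAt ℂ f 0) (h0 : f 0 ≠ 0) : tay (fun z => (f z)⁻¹) = (tay f)⁻¹ := by
  have h1 : tay (fun z => f z * (f z)⁻¹) = tay f * tay (fun z => (f z)⁻¹) := tay_mul hf (hf.fun_inv h0)
  have h2 : tay (fun z => f z * (f z)⁻¹) = 1 := by
    have h3 : (fun z => f z * (f z)⁻¹) =ᶠ[𝓝 0] fun _ => (1 : ℂ) := by
      filter_upwards [hf.continuousAt.eventually_ne h0] with z hz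
      exact mul_inv_cancel₀ hz
    rw [tay_congr h3, tay_const, map_one]
  rw [h2] at h1
  have h4 : PowerSeries.constantCoeff (tay f) ≠ 0 := by rw [constantCoeff_tay]; exact h0
  rw [PowerSeries.eq_inv_iff_mul_eq_one h4, mul_comm]
  exact h1.symm

/-- limits of Taylor coefficients -/
lemma tay_lim {F : ℕ → ℂ → ℂ} {f : ℂ → ℂ} {U : Set ℂ} (hU : IsOpen U) (h0 : (0 : ℂ) ∈ U)
    (hF : ∀ k, DifferentiableOn ℂ (F k) U) (hf : TendstoLocallyUniformlyOn F f atTop U) (j : ℕ) :
    Tendsto (fun k => PowerSeries.coeff j (tay (F k))) atTop (𝓝 (PowerSeries.coeff j (tay f))) := by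
  have key : ∀ j, TendstoLocallyUniformlyOn (fun k => iteratedDeriv j (F k)) (iteratedDeriv j f) atTop U ∧
      ∀ k, DifferentiableOn ℂ (iteratedDeriv j (F k)) U := by
    intro j
    induction j with
    | zero =>
      simp only [iteratedDeriv_zero]
      exact ⟨hf, hF⟩
    | succ j ih =>
      simp only [iteratedDeriv_succ]
      refine ⟨ih.1.deriv (Filter.Eventually.of_forall ih.2) hU, fun k => (ih.2 k).deriv hU⟩
  simp only [coeff_tay]
  exact ((key j).1.tendsto_at h0).div_const _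

/-! ### the Abelian theorem -/

open Pool.Agent.Y119.HY (ps)

lemma log_real {x : ℝ} (hx1 : x < 1) : Complex.log (1 - (x : ℂ)) = ((Real.log (1 - x) : ℝ) : ℂ) := by
  have : (1 - (x : ℂ)) = ((1 - x : ℝ) : ℂ) := by push_cast; rfl
  rw [this, ← Complex.ofReal_log (by linarith)]

lemma log_sum {x : ℝ} (hx : 0 < x) (hx1 : x < 1) : HasSum (fun k : ℕ => x ^ k / k) (-Real.log (1 - x)) := by
  have h1 := Complex.hasSum_taylorSeries_neg_log (z := (x : ℂ)) (by
    rw [Complex.norm_real, Real.norm_of_nonneg hx.le]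
    exact hx1)
  rw [log_real hx1] at h1
  exact_mod_cast h1

lemma abel {a : ℕ → ℂ} {L : ℂ} (h : Tendsto (fun k : ℕ => (k : ℂ) * a k) atTop (𝓝 L)) :
    Tendsto (fun x : ℝ => ps a (x : ℂ) * (Complex.log (1 - (x : ℂ)))⁻¹) (𝓝[<] 1) (𝓝 (-L)) := by
  -- the bounds
  have hb : ∃ B : ℝ, ∀ k, ‖a k‖ ≤ B := by
    obtain ⟨B, hB⟩ := h.norm.bddAbove_range
    refine ⟨max B ‖a 0‖, fun k => ?_⟩
    rcases Nat.eq_zero_or_pos k with h0 | hk
    · rw [h0]
      exact le_max_right _ _
    · refine le_trans ?_ (le_max_left _ _)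
      have h1 := hB ⟨k, rfl⟩
      simp only [norm_mul, Complex.norm_natCast] at h1
      have h2 : (1 : ℝ) ≤ k := by exact_mod_cast hk
      nlinarith [norm_nonneg (a k)]
  obtain ⟨B, hB⟩ := hb
  have hsum : ∀ x : ℝ, 0 < x → x < 1 → HasSum (fun k => a k * (x : ℂ) ^ k) (ps a (x : ℂ)) := by
    intro x hx hx1
    refine Summable.hasSum ?_
    refine Summable.of_norm_bounded (g := fun k => B * x ^ k) ((summable_geometric_of_lt_one hx.le hx1).mul_left B) fun k => ?_
    rw [norm_mul, norm_pow, Complex.norm_real, Real.norm_of_nonneg hx.le]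
    exact mul_le_mul_of_nonneg_right (hB k) (pow_nonneg hx.le _)
  set c : ℕ → ℂ := fun k => a k - L / k with hc
  have hck : Tendsto (fun k : ℕ => (k : ℂ) * c k) atTop (𝓝 0) := by
    have h1 := h.sub_const L
    rw [sub_self] at h1
    refine h1.congr' ?_
    filter_upwards [eventually_gt_atTop 0] with k hk
    have hk0 : (k : ℂ) ≠ 0 := by exact_mod_cast hk.ne'
    rw [hc]
    simp only
    field_simp
  have hcs : ∀ x : ℝ, 0 < x → x < 1 → HasSum (fun k => c k * (x : ℂ) ^ k) (ps a (x : ℂ) + L * Complex.log (1 - (x : ℂ))) := by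
    intro x hx hx1
    have h1 := Complex.hasSum_taylorSeries_neg_log (z := (x : ℂ)) (by
      rw [Complex.norm_real, Real.norm_of_nonneg hx.le]
      exact hx1)
    have h2 := (hsum x hx hx1).sub (h1.mul_left L)
    have e : ps a (x : ℂ) - L * -Complex.log (1 - (x : ℂ)) = ps a (x : ℂ) + L * Complex.log (1 - (x : ℂ)) := by ring
    rw [e] at h2
    have e2 : (fun k => c k * (x : ℂ) ^ k) = fun k => a k * (x : ℂ) ^ k - L * ((x : ℂ) ^ k / k) := by
      funext k
      rw [hc]
      simp only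
      ring
    rw [e2]
    exact h2
  -- the quotient
  have key : Tendsto (fun x : ℝ => (ps a (x : ℂ) + L * Complex.log (1 - (x : ℂ))) * (Complex.log (1 - (x : ℂ)))⁻¹) (𝓝[<] 1) (𝓝 0) := by
    rw [Metric.tendsto_nhds]
    intro ε hε
    obtain ⟨N₀, hN₀⟩ := Filter.eventually_atTop.1 (hck.norm.eventually (gt_mem_nhds (show ‖(0 : ℂ)‖ < ε / 2 by
      rw [norm_zero]; positivity)))
    obtain ⟨N, hN1, hN⟩ : ∃ N : ℕ, 1 ≤ N ∧ ∀ k ≥ N, ‖(k : ℂ) * c k‖ < ε / 2 :=
      ⟨N₀ + 1, by omega, fun k hk => hN₀ k (by omega)⟩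
    set M : ℝ := ∑ k ∈ Finset.range N, ‖c k‖ with hM
    have hM0 : 0 ≤ M := Finset.sum_nonneg fun _ _ => norm_nonneg _
    have hlog : ∀ᶠ x : ℝ in 𝓝[<] 1, 2 * M / ε + 1 < -Real.log (1 - x) := by
      have h1 : Tendsto (fun x : ℝ => 1 - x) (𝓝[<] 1) (𝓝[>] 0) := by
        refine tendsto_nhdsWithin_iff.2 ⟨?_, ?_⟩
        · have : Tendsto (fun x : ℝ => 1 - x) (𝓝 1) (𝓝 (1 - 1)) := tendsto_const_nhds.sub tendsto_id
          rw [sub_self] at this
          exact this.mono_left nhdsWithin_le_nhds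
        · filter_upwards [self_mem_nhdsWithin] with x hx
          rw [Set.mem_Iio] at hx
          rw [Set.mem_Ioi]
          linarith
      have h2 := tendsto_neg_atBot_atTop.comp (Real.tendsto_log_nhdsGT_zero.comp h1)
      exact h2.eventually (eventually_gt_atTop _)
    filter_upwards [self_mem_nhdsWithin, Ioo_mem_nhdsLT (show (0 : ℝ) < 1 by norm_num), hlog] with x hx hx' hxl
    have hx0 := hx'.1
    have hx1 := hx'.2
    have hsb := log_sum hx0 hx1
    have hfs : HasSum (fun k => if k < N then ‖c k‖ else 0) M := by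
      have h0 : HasSum (fun k => if k < N then ‖c k‖ else 0) (∑ k ∈ Finset.range N, (if k < N then ‖c k‖ else 0)) :=
        hasSum_sum_of_ne_finset_zero (fun k hk => by
          rw [Finset.mem_range] at hk
          rw [if_neg hk])
      have e : ∑ k ∈ Finset.range N, (if k < N then ‖c k‖ else 0) = M := by
        rw [hM]
        refine Finset.sum_congr rfl fun k hk => ?_
        rw [if_pos (Finset.mem_range.1 hk)]
      rwa [e] at h0
    have hbd := HasSum.norm_le_of_bounded (hcs x hx0 hx1) (hfs.add (hsb.mul_left (ε / 2))) fun k => by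
      rw [norm_mul, norm_pow, Complex.norm_real, Real.norm_of_nonneg hx0.le]
      have hxk : x ^ k ≤ 1 := pow_le_one₀ hx0.le hx1.le
      have hxk0 : 0 ≤ x ^ k := pow_nonneg hx0.le _
      split_ifs with hk
      · have h1 : ‖c k‖ * x ^ k ≤ ‖c k‖ := mul_le_of_le_one_right (norm_nonneg _) hxk
        have h2 : 0 ≤ ε / 2 * (x ^ k / k) := by positivity
        linarith
      · rw [zero_add]
        have hk0 : 0 < k := by omega
        have h1 := hN k (by omega)
        rw [norm_mul, Complex.norm_natCast] at h1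
        have hk1 : (0 : ℝ) < k := by exact_mod_cast hk0
        have h2 : ‖c k‖ ≤ ε / 2 / k := by
          rw [le_div_iff₀ hk1]
          linarith
        calc ‖c k‖ * x ^ k ≤ ε / 2 / k * x ^ k := mul_le_mul_of_nonneg_right h2 hxk0
          _ = ε / 2 * (x ^ k / k) := by ring
    rw [dist_zero_right, norm_mul, norm_inv, log_real hx1, Complex.norm_real]
    rw [log_real hx1] at hbd
    have hl : 0 < -Real.log (1 - x) := by
      have : 0 ≤ 2 * M / ε := by positivity
      linarith
    have hn : ‖Real.log (1 - x)‖ = -Real.log (1 - x) := by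
      rw [Real.norm_eq_abs, abs_of_neg (by linarith)]
    rw [hn, ← div_eq_mul_inv, div_lt_iff₀ hl]
    refine lt_of_le_of_lt hbd ?_
    have h3 : 2 * M / ε * ε = 2 * M := by field_simp
    nlinarith
  have h5 := key.sub_const L
  rw [zero_sub] at h5
  refine h5.congr' ?_
  filter_upwards [self_mem_nhdsWithin, Ioo_mem_nhdsLT (show (0 : ℝ) < 1 by norm_num)] with x hx hx'
  have hl0 : Complex.log (1 - (x : ℂ)) ≠ 0 := by
    rw [log_real hx'.2]
    have h2 : Real.log (1 - x) < 0 := Real.log_neg (by linarith [hx'.2]) (by linarith [hx'.1])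
    exact_mod_cast h2.ne
  field_simp
  ring

end Pool.Agent.L0h14.HO
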