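import Mathlib
import Pool.Agent.L0h14.HO.Tay
import Pool.Agent.L0h14.HO.Fam2

/-!
# The singular part at one of the Frobenius solutions
-/

set_option autoImplicit false

open Filter Topology

namespace Pool.Agent.L0h14.HO

variable {n : ℕ}

/-- the disc -/
def Uh : Set ℂ := Metric.ball 0 (1 / 2)

lemma Uh_open : IsOpen Uh := Metric.isOpen_ball

lemma mem_Uh {ε : ℂ} : ε ∈ Uh ↔ ‖ε‖ < 1 / 2 := by
  unfold Uh
  rw [Metric.mem_ball, dist_zero_right]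

lemma zero_Uh : (0 : ℂ) ∈ Uh := by
  rw [mem_Uh, norm_zero]
  norm_num

lemma neg_Uh {ε : ℂ} (h : ε ∈ Uh) : -ε ∈ Uh := by
  rw [mem_Uh, norm_neg]
  exact mem_Uh.1 h

lemma Uh_bd {ε : ℂ} (h : ε ∈ Uh) (m : ℕ) : ((m : ℝ) + 1) / 2 ≤ ‖(m : ℂ) + 1 + ε‖ := by
  have h1 := mem_Uh.1 h
  have h2 : ‖(m : ℂ) + 1‖ = (m : ℝ) + 1 := by
    have : ((m : ℂ) + 1) = ((m + 1 : ℕ) : ℂ) := by push_cast; rfl
    rw [this, Complex.norm_natCast]
    push_cast
    rfl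
  have h3 : ‖(m : ℂ) + 1‖ ≤ ‖(m : ℂ) + 1 + ε‖ + ‖ε‖ := by
    have := norm_sub_le ((m : ℂ) + 1 + ε) ε
    rwa [add_sub_cancel_right] at this
  rw [h2] at h3
  have : (0 : ℝ) ≤ m := Nat.cast_nonneg m
  linarith

lemma Uh_ne {ε : ℂ} (h : ε ∈ Uh) (m : ℕ) : (m : ℂ) + 1 + ε ≠ 0 := by
  intro h0
  have h1 := Uh_bd h m
  rw [h0, norm_zero] at h1
  have : (0 : ℝ) ≤ m := Nat.cast_nonneg m
  linarith

lemma Uh_ne' {ε : ℂ} (h : ε ∈ Uh) (m : ℕ) : (m : ℂ) + 2 + ε ≠ 0 := by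
  have := Uh_ne h (m + 1)
  push_cast at this
  intro h0
  apply this
  rw [← h0]
  ring

/-- the values of the polynomial -/
noncomputable def Qf (α : Fin n → ℚ) (x : ℂ) : ℂ := ∏ j, (x + α j)

/-- the ratios -/
noncomputable def rr (α : Fin n → ℚ) (m : ℕ) (ε : ℂ) : ℂ :=
  (1 + ε / (((m : ℂ) + 1) * ((m : ℂ) + 2 + ε))) * ∏ j, (1 + (α j : ℂ) * ((m : ℂ) + 1 + ε)⁻¹)

/-- the factors minus one -/
noncomputable def ff (α : Fin n → ℚ) : ℕ → ℂ → ℂ
  | 0 => fun ε => Qf α ε * (1 + ε)⁻¹ - 1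
  | m + 1 => fun ε => rr α m ε - 1

/-- the partial products -/
noncomputable def FF (α : Fin n → ℚ) (k : ℕ) (ε : ℂ) : ℂ := ∏ i ∈ Finset.range k, (1 + ff α i ε)

/-- the limit -/
noncomputable def CC (α : Fin n → ℚ) (ε : ℂ) : ℂ := ∏' i, (1 + ff α i ε)

lemma Qf_diff (α : Fin n → ℚ) : Differentiable ℂ (Qf α) := by
  unfold Qf
  exact Differentiable.fun_finsetProd fun j _ => differentiable_id.add_const _

lemma ff_diff (α : Fin n → ℚ) (i : ℕ) : DifferentiableOn ℂ (ff α i) Uh := by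
  rcases i with _ | m
  · unfold ff
    refine DifferentiableOn.sub_const ?_ _
    refine (Qf_diff α).differentiableOn.mul (DifferentiableOn.inv (by fun_prop) fun ε hε => ?_)
    have := Uh_ne hε 0
    push_cast at this
    rwa [zero_add] at this
  · unfold ff rr
    refine DifferentiableOn.sub_const (DifferentiableOn.mul ?_ ?_) _
    · have h1 : DifferentiableOn ℂ (fun ε : ℂ => ε / (((m : ℂ) + 1) * ((m : ℂ) + 2 + ε))) Uh :=
        DifferentiableOn.div differentiableOn_id (by fun_prop) fun ε hε =>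
          mul_ne_zero (by exact_mod_cast Nat.succ_ne_zero m) (Uh_ne' hε m)
      exact h1.const_add 1
    · refine DifferentiableOn.fun_finsetProd fun j _ => ?_
      have h1 : DifferentiableOn ℂ (fun ε : ℂ => ((m : ℂ) + 1 + ε)⁻¹) Uh :=
        DifferentiableOn.inv (by fun_prop) fun ε hε => Uh_ne hε m
      exact (h1.const_mul (α j : ℂ)).const_add 1

lemma FF_diff (α : Fin n → ℚ) (k : ℕ) : DifferentiableOn ℂ (FF α k) Uh := by
  unfold FF
  exact DifferentiableOn.fun_finsetProd fun i _ => (ff_diff α i).const_add 1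

/-- the polynomial estimate -/
lemma poly_bd (α : Fin n → ℚ) (h0 : ∑ j, α j = 0) : ∃ K : ℝ, 0 ≤ K ∧ ∀ w : ℂ, ‖w‖ ≤ 2 →
    ‖∏ j, (1 + (α j : ℂ) * w) - 1‖ ≤ K * ‖w‖ ^ 2 := by
  set P : Polynomial ℂ := ∏ j, (1 + Polynomial.C (α j : ℂ) * Polynomial.X) with hP
  have hPe : ∀ w, P.eval w = ∏ j, (1 + (α j : ℂ) * w) := by
    intro w
    rw [hP, Polynomial.eval_prod]
    simp
  have hP0 : P.coeff 0 = 1 := by
    rw [Polynomial.coeff_zero_eq_eval_zero, hPe]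
    simp
  have hP1 : P.coeff 1 = 0 := by
    have h1 : P.derivative.eval 0 = ∑ j, (α j : ℂ) := by
      rw [hP, Polynomial.derivative_prod_finset, Polynomial.eval_finsetSum]
      refine Finset.sum_congr rfl fun j _ => ?_
      rw [Polynomial.eval_mul, Polynomial.eval_prod]
      simp
    have h2 : P.derivative.eval 0 = P.coeff 1 := by
      rw [← Polynomial.coeff_zero_eq_eval_zero, Polynomial.coeff_derivative]
      simp
    rw [← h2, h1]
    exact_mod_cast h0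
  obtain ⟨R, hR⟩ : Polynomial.X ^ 2 ∣ P - 1 := by
    rw [Polynomial.X_pow_dvd_iff]
    intro d hd
    interval_cases d
    · rw [Polynomial.coeff_sub, hP0]
      simp
    · rw [Polynomial.coeff_sub, hP1, Polynomial.coeff_one]
      simp
  obtain ⟨K, hK⟩ := (isCompact_closedBall (0 : ℂ) 2).exists_bound_of_continuousOn (f := fun w => R.eval w)
    R.continuous.continuousOn
  refine ⟨max K 0, le_max_right _ _, fun w hw => ?_⟩
  have h1 := congrArg (Polynomial.eval w) hR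
  rw [Polynomial.eval_sub, hPe, Polynomial.eval_one, Polynomial.eval_mul, Polynomial.eval_pow, Polynomial.eval_X] at h1
  rw [h1, norm_mul, norm_pow, mul_comm]
  have h2 := hK w (by rw [Metric.mem_closedBall, dist_zero_right]; exact hw)
  exact mul_le_mul_of_nonneg_right (h2.trans (le_max_left _ _)) (sq_nonneg _)

lemma ff_bd (α : Fin n → ℚ) (h0 : ∑ j, α j = 0) : ∃ K : ℝ, 0 ≤ K ∧ ∀ m : ℕ, ∀ ε ∈ Uh, ‖ff α (m + 1) ε‖ ≤ K / ((m : ℝ) + 1) ^ 2 := by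
  obtain ⟨K, hK0, hK⟩ := poly_bd α h0
  refine ⟨1 + 4 * K + 4 * K, by positivity, fun m ε hε => ?_⟩
  have hm : (0 : ℝ) ≤ m := Nat.cast_nonneg m
  have hb1 := Uh_bd hε m
  have hb2 : ((m : ℝ) + 1) / 2 ≤ ‖(m : ℂ) + 2 + ε‖ := by
    have := Uh_bd hε (m + 1)
    push_cast at this
    have e : (m : ℂ) + 1 + 1 + ε = (m : ℂ) + 2 + ε := by ring
    rw [e] at this
    linarith
  have hε1 := mem_Uh.1 hε
  set a := ε / (((m : ℂ) + 1) * ((m : ℂ) + 2 + ε)) with ha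
  set b := ∏ j, (1 + (α j : ℂ) * ((m : ℂ) + 1 + ε)⁻¹) - 1 with hb
  have hm1 : ‖(m : ℂ) + 1‖ = (m : ℝ) + 1 := by
    have : ((m : ℂ) + 1) = ((m + 1 : ℕ) : ℂ) := by push_cast; rfl
    rw [this, Complex.norm_natCast]
    push_cast
    rfl
  have hpos : (0 : ℝ) < (m : ℝ) + 1 := by positivity
  have hna : ‖a‖ ≤ 1 / ((m : ℝ) + 1) ^ 2 := by
    have h5 : 0 < ((m : ℝ) + 1) * ‖(m : ℂ) + 2 + ε‖ := mul_pos hpos (by linarith)
    rw [ha, norm_div, norm_mul, hm1, div_le_div_iff₀ h5 (by positivity), one_mul]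
    nlinarith
  have hinv : ‖((m : ℂ) + 1 + ε)⁻¹‖ ≤ 2 / ((m : ℝ) + 1) := by
    rw [norm_inv, inv_eq_one_div, div_le_div_iff₀ (by linarith) hpos]
    linarith
  have hnb : ‖b‖ ≤ 4 * K / ((m : ℝ) + 1) ^ 2 := by
    refine (hK _ (hinv.trans ?_)).trans ?_
    · rw [div_le_iff₀ hpos]
      linarith
    · have h1 : ‖((m : ℂ) + 1 + ε)⁻¹‖ ^ 2 ≤ (2 / ((m : ℝ) + 1)) ^ 2 := pow_le_pow_left₀ (norm_nonneg _) hinv 2
      calc K * ‖((m : ℂ) + 1 + ε)⁻¹‖ ^ 2 ≤ K * (2 / ((m : ℝ) + 1)) ^ 2 := mul_le_mul_of_nonneg_left h1 hK0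
        _ = 4 * K / ((m : ℝ) + 1) ^ 2 := by
          rw [div_pow]
          ring
  have e : ff α (m + 1) ε = a + b + a * b := by
    show rr α m ε - 1 = _
    unfold rr
    rw [← ha]
    have : ∏ j, (1 + (α j : ℂ) * ((m : ℂ) + 1 + ε)⁻¹) = 1 + b := by rw [hb]; ring
    rw [this]
    ring
  rw [e]
  have h1 : ‖a‖ ≤ 1 := hna.trans (by
    rw [div_le_one (by positivity)]
    nlinarith)
  have h2 : ‖a * b‖ ≤ 4 * K / ((m : ℝ) + 1) ^ 2 := by
    rw [norm_mul]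
    calc ‖a‖ * ‖b‖ ≤ 1 * ‖b‖ := mul_le_mul_of_nonneg_right h1 (norm_nonneg _)
      _ ≤ _ := by rw [one_mul]; exact hnb
  calc ‖a + b + a * b‖ ≤ ‖a‖ + ‖b‖ + ‖a * b‖ := norm_add₃_le
    _ ≤ 1 / ((m : ℝ) + 1) ^ 2 + 4 * K / ((m : ℝ) + 1) ^ 2 + 4 * K / ((m : ℝ) + 1) ^ 2 := by linarith
    _ = _ := by rw [← add_div, ← add_div]

/-- **the convergence** -/
theorem FF_lim (α : Fin n → ℚ) (h0 : ∑ j, α j = 0) : TendstoLocallyUniformlyOn (FF α) (CC α) atTop Uh := by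
  obtain ⟨K, hK0, hK⟩ := ff_bd α h0
  have hs : Summable fun i : ℕ => K / (i : ℝ) ^ 2 := by
    have := (Real.summable_nat_pow_inv.2 (show 1 < 2 by norm_num)).mul_left K
    refine this.congr fun i => ?_
    rw [div_eq_mul_inv]
  have h1 := Summable.hasProdLocallyUniformlyOn_nat_one_add (f := ff α) Uh_open hs (by
    filter_upwards [eventually_gt_atTop 0] with i hi ε hε
    obtain ⟨m, rfl⟩ := Nat.exists_eq_succ_of_ne_zero hi.ne'
    have := hK m ε hε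
    push_cast
    exact this) (fun i => (ff_diff α i).continuousOn)
  exact h1.tendstoLocallyUniformlyOn_finsetRange

lemma CC_diff (α : Fin n → ℚ) (h0 : ∑ j, α j = 0) : DifferentiableOn ℂ (CC α) Uh :=
  (FF_lim α h0).differentiableOn (Eventually.of_forall (FF_diff α)) Uh_open

lemma CC_an (α : Fin n → ℚ) (h0 : ∑ j, α j = 0) : AnalyticAt ℂ (CC α) 0 :=
  (CC_diff α h0).analyticAt (Uh_open.mem_nhds zero_Uh)

/-- the closed form -/
lemma FF_closed {m0 : ℕ} (α : Fin (m0 + 1) → ℚ) {ε : ℂ} (hε : ε ∈ Uh) (k : ℕ) :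
    FF α (k + 1) ε = ((k : ℂ) + 1) * ((k : ℂ) + 1 + ε) ^ m0 *
      ∏ l ∈ Finset.range (k + 1), (Qf α ((l : ℂ) + ε) * (((l : ℂ) + 1 + ε)⁻¹) ^ (m0 + 1)) := by
  induction k with
  | zero =>
    unfold FF
    simp only [zero_add, Finset.prod_range_one, Nat.cast_zero, one_mul]
    have h1 : (1 : ℂ) + ε ≠ 0 := by
      have := Uh_ne hε 0
      push_cast at this
      rwa [zero_add] at this
    show 1 + (Qf α ε * (1 + ε)⁻¹ - 1) = _
    rw [pow_succ (1 + ε)⁻¹]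
    have h2 : (1 + ε) ^ m0 * (1 + ε)⁻¹ ^ m0 = 1 := by rw [← mul_pow, mul_inv_cancel₀ h1, one_pow]
    linear_combination (-(Qf α ε * (1 + ε)⁻¹)) * h2
  | succ k ih =>
    have e1 : FF α (k + 1 + 1) ε = FF α (k + 1) ε * rr α k ε := by
      unfold FF
      rw [Finset.prod_range_succ _ (k + 1)]
      congr 1
      show 1 + (rr α k ε - 1) = _
      ring
    rw [e1, ih, Finset.prod_range_succ _ (k + 1)]
    have h1 := Uh_ne hε k
    have h2 := Uh_ne' hε k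
    have h3 : ((k : ℂ) + 1) ≠ 0 := by exact_mod_cast Nat.succ_ne_zero k
    have e2 : rr α k ε = (((k : ℂ) + 2) * ((k : ℂ) + 1 + ε) / (((k : ℂ) + 1) * ((k : ℂ) + 2 + ε))) *
        (Qf α ((k : ℂ) + 1 + ε) * (((k : ℂ) + 1 + ε)⁻¹) ^ (m0 + 1)) := by
      unfold rr
      have e3 : 1 + ε / (((k : ℂ) + 1) * ((k : ℂ) + 2 + ε)) =
          ((k : ℂ) + 2) * ((k : ℂ) + 1 + ε) / (((k : ℂ) + 1) * ((k : ℂ) + 2 + ε)) := by
        field_simp
        ring
      have e4 : ∏ j, (1 + (α j : ℂ) * ((k : ℂ) + 1 + ε)⁻¹) = Qf α ((k : ℂ) + 1 + ε) * (((k : ℂ) + 1 + ε)⁻¹) ^ (m0 + 1) := by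
        unfold Qf
        have h5 : (((k : ℂ) + 1 + ε)⁻¹) ^ (m0 + 1) = ∏ _j : Fin (m0 + 1), ((k : ℂ) + 1 + ε)⁻¹ := by
          rw [Finset.prod_const, Finset.card_univ, Fintype.card_fin]
        rw [h5, ← Finset.prod_mul_distrib]
        refine Finset.prod_congr rfl fun j _ => ?_
        rw [add_mul, mul_inv_cancel₀ h1]
      rw [e3, e4]
    rw [e2]
    have e5 : (((k + 1 : ℕ) : ℂ)) = (k : ℂ) + 1 := by push_cast; rfl
    simp only [e5]
    set P := ∏ l ∈ Finset.range (k + 1), (Qf α ((l : ℂ) + ε) * (((l : ℂ) + 1 + ε)⁻¹) ^ (m0 + 1))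
    set q := Qf α ((k : ℂ) + 1 + ε)
    have e6 : (k : ℂ) + 1 + 1 + ε = (k : ℂ) + 2 + ε := by ring
    have e7 : (k : ℂ) + 1 + 1 = (k : ℂ) + 2 := by ring
    rw [e6, e7]
    set x := (k : ℂ) + 1 + ε
    set y := (k : ℂ) + 2 + ε
    rw [inv_pow, inv_pow]
    field_simp
    ring

end Pool.Agent.L0h14.HO
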