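import Mathlib
import Pool.Agent.L0h14.HO.PsiA

/-!
# The singular part at one of the Frobenius solutions: the coefficients and the sine product
-/

set_option autoImplicit false

open Filter Topology

namespace Pool.Agent.L0h14.HO

open Pool.Agent.Y119.HY (kx aq hq Hq Hc ps Hf QD)

variable {m0 : ℕ}

/-- complexification -/
noncomputable def mc (f : PowerSeries ℚ) : PowerSeries ℂ := PowerSeries.map (algebraMap ℚ ℂ) f

lemma mc_mul (f g : PowerSeries ℚ) : mc (f * g) = mc f * mc g := map_mul _ _ _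
lemma mc_pow (f : PowerSeries ℚ) (k : ℕ) : mc (f ^ k) = mc f ^ k := map_pow _ _ _
lemma mc_C (c : ℚ) : mc (PowerSeries.C c) = PowerSeries.C (c : ℂ) := PowerSeries.map_C _ _
lemma mc_coeff (f : PowerSeries ℚ) (j : ℕ) : PowerSeries.coeff j (mc f) = ((PowerSeries.coeff j f : ℚ) : ℂ) :=
  PowerSeries.coeff_map _ _ _

lemma mc_inv {f : PowerSeries ℚ} (h : PowerSeries.constantCoeff f ≠ 0) : mc f⁻¹ = (mc f)⁻¹ := by
  have h1 : mc f⁻¹ * mc f = 1 := by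
    rw [← mc_mul, PowerSeries.inv_mul_cancel _ h]
    exact map_one _
  have h2 : PowerSeries.constantCoeff (mc f) ≠ 0 := by
    rw [← PowerSeries.coeff_zero_eq_constantCoeff_apply, mc_coeff, PowerSeries.coeff_zero_eq_constantCoeff_apply]
    exact_mod_cast h
  rw [PowerSeries.eq_inv_iff_mul_eq_one h2]
  exact h1

lemma mc_kx (l : ℕ) : mc (kx l) = PowerSeries.C (l : ℂ) + PowerSeries.X := by
  unfold mc kx
  rw [map_add, PowerSeries.map_C, PowerSeries.map_X]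
  simp

lemma tay_shift (c : ℂ) : tay (fun ε => c + ε) = PowerSeries.C c + PowerSeries.X := by
  have h := tay_add (f := fun _ => c) (g := fun z => z) analyticAt_const analyticAt_id
  rw [h, tay_const, tay_id]

lemma an_shift (c : ℂ) : AnalyticAt ℂ (fun ε : ℂ => c + ε) 0 := analyticAt_const.add analyticAt_id

lemma tay_Qf (α : Fin (m0 + 1) → ℚ) (l : ℕ) :
    tay (fun ε => Qf α ((l : ℂ) + ε)) = mc (Polynomial.aeval (kx l) (QP α)) := by
  have h1 : (fun ε => Qf α ((l : ℂ) + ε)) = fun ε => ∏ j, (((l : ℂ) + α j) + ε) := by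
    funext ε
    unfold Qf
    refine Finset.prod_congr rfl fun j _ => ?_
    ring
  rw [h1, tay_prod _ fun j _ => an_shift _]
  unfold QP mc
  rw [map_prod, map_prod]
  refine Finset.prod_congr rfl fun j _ => ?_
  rw [tay_shift, map_add (Polynomial.aeval (kx l)), Polynomial.aeval_X, Polynomial.aeval_C]
  unfold kx
  rw [map_add (PowerSeries.map (algebraMap ℚ ℂ)), map_add (PowerSeries.map (algebraMap ℚ ℂ)), PowerSeries.map_C,
    PowerSeries.map_X]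
  have h2 : PowerSeries.map (algebraMap ℚ ℂ) ((algebraMap ℚ (PowerSeries ℚ)) (α j)) = PowerSeries.C (α j : ℂ) := by
    have : (algebraMap ℚ (PowerSeries ℚ)) (α j) = PowerSeries.C (α j) := rfl
    rw [this, PowerSeries.map_C]
    rfl
  rw [h2, map_add]
  have h3 : (algebraMap ℚ ℂ) (l : ℚ) = (l : ℂ) := by simp
  rw [h3]
  ring

lemma an_Qf (α : Fin (m0 + 1) → ℚ) (l : ℕ) : AnalyticAt ℂ (fun ε => Qf α ((l : ℂ) + ε)) 0 := by
  have h1 : Differentiable ℂ fun ε => Qf α ((l : ℂ) + ε) := (Qf_diff α).comp (by fun_prop : Differentiable ℂ fun ε : ℂ => (l : ℂ) + ε)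
  exact h1.analyticAt 0

lemma an_inv (l : ℕ) : AnalyticAt ℂ (fun ε : ℂ => ((l : ℂ) + 1 + ε)⁻¹) 0 := by
  refine (an_shift _).fun_inv ?_
  rw [add_zero]
  exact_mod_cast Nat.succ_ne_zero l

lemma tay_invk (l : ℕ) : tay (fun ε : ℂ => ((l : ℂ) + 1 + ε)⁻¹) = mc (kx (l + 1))⁻¹ := by
  have h0 : (l : ℂ) + 1 + 0 ≠ 0 := by
    rw [add_zero]
    exact_mod_cast Nat.succ_ne_zero l
  rw [tay_inv (an_shift _) h0, tay_shift, mc_inv, mc_kx]
  · push_cast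
    rfl
  · unfold kx
    simp
    exact_mod_cast Nat.succ_ne_zero l

/-- **the formal expression** -/
lemma tay_FF (α : Fin (m0 + 1) → ℚ) (k : ℕ) : tay (FF α (k + 1)) =
    mc (PowerSeries.C ((k : ℚ) + 1) * (kx (k + 1) ^ m0 * aq (m0 + 1) (QP α) (k + 1))) := by
  have h1 : FF α (k + 1) =ᶠ[𝓝 0] fun ε => (((k : ℂ) + 1) * ((k : ℂ) + 1 + ε) ^ m0) *
      ∏ l ∈ Finset.range (k + 1), (Qf α ((l : ℂ) + ε) * (((l : ℂ) + 1 + ε)⁻¹) ^ (m0 + 1)) := by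
    filter_upwards [Uh_open.mem_nhds zero_Uh] with ε hε
    exact FF_closed α hε k
  have a1 : ∀ l : ℕ, AnalyticAt ℂ (fun ε => Qf α ((l : ℂ) + ε) * (((l : ℂ) + 1 + ε)⁻¹) ^ (m0 + 1)) 0 :=
    fun l => (an_Qf α l).mul ((an_inv l).fun_pow _)
  have a2 : AnalyticAt ℂ (fun ε : ℂ => ((k : ℂ) + 1 + ε) ^ m0) 0 := (an_shift _).fun_pow _
  have a3 : AnalyticAt ℂ (fun ε : ℂ => ((k : ℂ) + 1) * ((k : ℂ) + 1 + ε) ^ m0) 0 := analyticAt_const.fun_mul a2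
  have a4 : AnalyticAt ℂ (fun ε : ℂ => ∏ l ∈ Finset.range (k + 1), (Qf α ((l : ℂ) + ε) * (((l : ℂ) + 1 + ε)⁻¹) ^ (m0 + 1))) 0 :=
    Finset.analyticAt_fun_prod _ fun l _ => a1 l
  rw [tay_congr h1, tay_mul a3 a4, tay_mul (f := fun _ => (k : ℂ) + 1) analyticAt_const a2, tay_const,
    tay_pow (an_shift _), tay_shift, tay_prod _ fun l _ => a1 l]
  rw [mc_mul, mc_C, mc_mul, mc_pow, mc_kx]
  unfold aq
  have h2 : mc (∏ l ∈ Finset.range (k + 1), Polynomial.aeval (kx l) (QP α) * (kx (l + 1))⁻¹ ^ (m0 + 1)) =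
      ∏ l ∈ Finset.range (k + 1), mc (Polynomial.aeval (kx l) (QP α) * (kx (l + 1))⁻¹ ^ (m0 + 1)) := map_prod _ _ _
  rw [h2]
  have h3 : ∏ l ∈ Finset.range (k + 1), tay (fun ε => Qf α ((l : ℂ) + ε) * (((l : ℂ) + 1 + ε)⁻¹) ^ (m0 + 1)) =
      ∏ l ∈ Finset.range (k + 1), mc (Polynomial.aeval (kx l) (QP α) * (kx (l + 1))⁻¹ ^ (m0 + 1)) := by
    refine Finset.prod_congr rfl fun l _ => ?_
    rw [tay_mul (an_Qf α l) ((an_inv l).fun_pow _), tay_pow (an_inv l), tay_Qf, tay_invk, mc_mul, mc_pow]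
  rw [h3]
  push_cast
  ring

/-- **the asymptotics of the coefficients** -/
theorem coeff_lim (α : Fin (m0 + 1) → ℚ) (h0 : ∑ j, α j = 0) (j : ℕ) :
    Tendsto (fun k : ℕ => (k : ℂ) * ((hq (m0 + 1) (QP α) k m0 j : ℚ) : ℂ)) atTop (𝓝 (PowerSeries.coeff j (tay (CC α)))) := by
  have h1 := tay_lim Uh_open zero_Uh (FF_diff α) (FF_lim α h0) j
  rw [← tendsto_add_atTop_iff_nat 1] at h1 ⊢
  refine h1.congr fun k => ?_
  rw [tay_FF, mc_coeff, PowerSeries.coeff_C_mul]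
  unfold hq
  push_cast
  rfl

/-- **the singular part of the solutions** -/
theorem sing_lim (α : Fin (m0 + 1) → ℚ) (h0 : ∑ j, α j = 0) (i j : Fin (m0 + 1)) (hi : (i : ℕ) + 1 = m0 + 1) :
    Tendsto (fun x : ℝ => Hf (Hc (m0 + 1) (QP α)) (x : ℂ) i j * (Complex.log (1 - (x : ℂ)))⁻¹) (𝓝[<] 1)
      (𝓝 (-(PowerSeries.coeff (j : ℕ) (tay (CC α))))) := by
  refine abel (a := fun k => Hc (m0 + 1) (QP α) k i j) ?_
  refine (coeff_lim α h0 j).congr fun k => ?_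
  congr 1
  have hi' : (i : ℕ) = m0 := by omega
  show _ = ((hq (m0 + 1) (QP α) k i j : ℚ) : ℂ)
  rw [hi']

/-! ### the sine product -/

/-- the partial products of the sine -/
noncomputable def sn (k : ℕ) (z : ℂ) : ℂ := Real.pi * z * ∏ j ∈ Finset.range k, ((1 : ℂ) - z ^ 2 / ((j : ℂ) + 1) ^ 2)

lemma sn_succ (k : ℕ) (z : ℂ) : sn (k + 1) z = sn k z * (1 - z ^ 2 / ((k : ℂ) + 1) ^ 2) := by
  unfold sn
  rw [Finset.prod_range_succ]
  ring

lemma Qf_neg (α : Fin (m0 + 1) → ℚ) (hev : ∀ x, Qf α (-x) = Qf α x) (y ε : ℂ) : Qf α (y - ε) = Qf α (ε - y) := by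
  rw [← hev]
  congr 1
  ring

lemma Qf_prod (α : Fin (m0 + 1) → ℚ) (hn : Even (m0 + 1)) (hev : ∀ x, Qf α (-x) = Qf α x) (y ε : ℂ) :
    Qf α (y + ε) * Qf α (y - ε) = ∏ j, (y ^ 2 - (ε + α j) ^ 2) := by
  have h1 : Qf α (y - ε) = ∏ j, (y - (ε + α j)) := by
    rw [Qf_neg α hev]
    unfold Qf
    have h2 : ∏ j, (ε - y + (α j : ℂ)) = (-1) ^ (m0 + 1) * ∏ j, (y - (ε + α j)) := by
      have h3 : ((-1 : ℂ)) ^ (m0 + 1) = ∏ _j : Fin (m0 + 1), (-1 : ℂ) := by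
        rw [Finset.prod_const, Finset.card_univ, Fintype.card_fin]
      rw [h3, ← Finset.prod_mul_distrib]
      refine Finset.prod_congr rfl fun j _ => ?_
      ring
    rw [h2, hn.neg_one_pow, one_mul]
  rw [h1]
  unfold Qf
  rw [← Finset.prod_mul_distrib]
  refine Finset.prod_congr rfl fun j _ => ?_
  ring

lemma neg_ne {ε : ℂ} (hε : ε ∈ Uh) (k : ℕ) : ((k : ℂ) + 1) ^ 2 - ε ^ 2 ≠ 0 := by
  have h1 := Uh_ne hε k
  have h2 := Uh_ne (neg_Uh hε) k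
  have e : ((k : ℂ) + 1) ^ 2 - ε ^ 2 = ((k : ℂ) + 1 + ε) * ((k : ℂ) + 1 + -ε) := by ring
  rw [e]
  exact mul_ne_zero h1 h2

/-- the ratios -/
lemma rr_prod (α : Fin (m0 + 1) → ℚ) (hn : Even (m0 + 1)) (hev : ∀ x, Qf α (-x) = Qf α x) {ε : ℂ} (hε : ε ∈ Uh) (k : ℕ) :
    rr α k ε * rr α k (-ε) * ((((k : ℂ) + 1) ^ 2 - ε ^ 2) ^ m0 * ((k : ℂ) + 1) ^ 2 * (((k : ℂ) + 2) ^ 2 - ε ^ 2)) =
      ((k : ℂ) + 2) ^ 2 * ∏ j, (((k : ℂ) + 1) ^ 2 - (ε + α j) ^ 2) := by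
  have h1 := Uh_ne hε k
  have h2 := Uh_ne' hε k
  have h1' := Uh_ne (neg_Uh hε) k
  have h2' := Uh_ne' (neg_Uh hε) k
  have h3 : ((k : ℂ) + 1) ≠ 0 := by exact_mod_cast Nat.succ_ne_zero k
  have key : ∀ ε ∈ Uh, rr α k ε = (((k : ℂ) + 2) * ((k : ℂ) + 1 + ε) / (((k : ℂ) + 1) * ((k : ℂ) + 2 + ε))) *
        (Qf α ((k : ℂ) + 1 + ε) * (((k : ℂ) + 1 + ε)⁻¹) ^ (m0 + 1)) := by
    intro ε hε
    have h1 := Uh_ne hε k
    have h2 := Uh_ne' hε k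
    unfold rr
    have e3 : 1 + ε / (((k : ℂ) + 1) * ((k : ℂ) + 2 + ε)) =
        ((k : ℂ) + 2) * ((k : ℂ) + 1 + ε) / (((k : ℂ) + 1) * ((k : ℂ) + 2 + ε)) := by
      field_simp
      ring
    have e4 : ∏ j, (1 + (α j : ℂ) * ((k : ℂ) + 1 + ε)⁻¹) = Qf α ((k : ℂ) + 1 + ε) * (((k : ℂ) + 1 + ε)⁻¹) ^ (m0 + 1) := by
      unfold Qf
      have h5 : (((k : ℂ) + 1 + ε)⁻¹) ^ (m0 + 1) = ∏ _j : Fin (m0 + 1), ((k : ℂ) + 1 + ε)⁻¹ := by
        rw [Finset.prod_const, Finset.card_univ, Fintype.card_fin]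
      rw [h5, ← Finset.prod_mul_distrib]
      refine Finset.prod_congr rfl fun j _ => ?_
      rw [add_mul, mul_inv_cancel₀ h1]
    rw [e3, e4]
  rw [key ε hε, key _ (neg_Uh hε), ← Qf_prod α hn hev]
  have e1 : ((k : ℂ) + 1) ^ 2 - ε ^ 2 = ((k : ℂ) + 1 + ε) * ((k : ℂ) + 1 + -ε) := by ring
  have e2 : ((k : ℂ) + 2) ^ 2 - ε ^ 2 = ((k : ℂ) + 2 + ε) * ((k : ℂ) + 2 + -ε) := by ring
  have e3 : (k : ℂ) + 1 - ε = (k : ℂ) + 1 + -ε := by ring
  rw [e1, e2, e3]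
  set x := (k : ℂ) + 1 + ε
  set x' := (k : ℂ) + 1 + -ε
  set y := (k : ℂ) + 2 + ε
  set y' := (k : ℂ) + 2 + -ε
  set q := Qf α x
  set q' := Qf α x'
  rw [inv_pow, inv_pow, mul_pow]
  field_simp
  ring

/-- **the finite identity** -/
lemma finite_id (α : Fin (m0 + 1) → ℚ) (hn : Even (m0 + 1)) (hev : ∀ x, Qf α (-x) = Qf α x) {ε : ℂ} (hε : ε ∈ Uh) (k : ℕ) :
    FF α (k + 1) ε * FF α (k + 1) (-ε) * sn (k + 1) ε ^ (m0 + 1) * ((Real.pi : ℂ) ^ (m0 + 1) * Qf α ε) =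
      (1 - ε ^ 2 / ((k : ℂ) + 1) ^ 2) ^ m0 * ((Real.pi : ℂ) * ε) ^ (m0 + 1) * Qf α ε ^ 2 * ∏ j, sn k (ε + α j) := by
  induction k with
  | zero =>
    have e1 : FF α (0 + 1) ε = Qf α ε * (1 + ε)⁻¹ := by
      unfold FF
      simp only [zero_add, Finset.prod_range_one]
      show 1 + (Qf α ε * (1 + ε)⁻¹ - 1) = _
      ring
    have e2 : FF α (0 + 1) (-ε) = Qf α ε * (1 + -ε)⁻¹ := by
      unfold FF
      simp only [zero_add, Finset.prod_range_one]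
      show 1 + (Qf α (-ε) * (1 + -ε)⁻¹ - 1) = _
      rw [hev]
      ring
    have e3 : ∏ j, sn 0 (ε + α j) = (Real.pi : ℂ) ^ (m0 + 1) * Qf α ε := by
      unfold sn Qf
      simp only [Finset.range_zero, Finset.prod_empty, mul_one]
      rw [Finset.prod_mul_distrib, Finset.prod_const, Finset.card_univ, Fintype.card_fin]
    have e4 : sn (0 + 1) ε = (Real.pi : ℂ) * ε * (1 - ε ^ 2) := by
      unfold sn
      simp
    have h1 : (1 : ℂ) + ε ≠ 0 := by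
      have := Uh_ne hε 0
      push_cast at this
      rwa [zero_add] at this
    have h2 : (1 : ℂ) + -ε ≠ 0 := by
      have := Uh_ne (neg_Uh hε) 0
      push_cast at this
      rwa [zero_add] at this
    rw [e1, e2, e3, e4, mul_pow ((Real.pi : ℂ) * ε)]
    have e5 : ((1 : ℂ) - ε ^ 2) = (1 + ε) * (1 + -ε) := by ring
    have e6 : (1 - ε ^ 2 / (((0 : ℕ) : ℂ) + 1) ^ 2) = (1 + ε) * (1 + -ε) := by
      push_cast
      ring
    rw [e5, e6, pow_succ ((1 + ε) * (1 + -ε))]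
    field_simp
  | succ k ih =>
    have e1 : ∀ ε, FF α (k + 1 + 1) ε = FF α (k + 1) ε * rr α k ε := by
      intro ε
      unfold FF
      rw [Finset.prod_range_succ _ (k + 1)]
      congr 1
      show 1 + (rr α k ε - 1) = _
      ring
    have h3 : ((k : ℂ) + 1) ≠ 0 := by exact_mod_cast Nat.succ_ne_zero k
    have h4 : ((k : ℂ) + 2) ≠ 0 := by exact_mod_cast Nat.succ_ne_zero (k + 1)
    have hA := neg_ne hε k
    have hB : ((k : ℂ) + 2) ^ 2 - ε ^ 2 ≠ 0 := by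
      have := neg_ne hε (k + 1)
      push_cast at this
      have e : (k : ℂ) + 1 + 1 = (k : ℂ) + 2 := by ring
      rwa [e] at this
    have e2 : ∏ j, sn (k + 1) (ε + α j) = (∏ j, sn k (ε + α j)) *
        ((∏ j, (((k : ℂ) + 1) ^ 2 - (ε + α j) ^ 2)) / (((k : ℂ) + 1) ^ 2) ^ (m0 + 1)) := by
      have h5 : (((k : ℂ) + 1) ^ 2) ^ (m0 + 1) = ∏ _j : Fin (m0 + 1), ((k : ℂ) + 1) ^ 2 := by
        rw [Finset.prod_const, Finset.card_univ, Fintype.card_fin]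
      rw [h5, ← Finset.prod_div_distrib, ← Finset.prod_mul_distrib]
      refine Finset.prod_congr rfl fun j _ => ?_
      rw [sn_succ]
      field_simp
    have e3 : ((k + 1 : ℕ) : ℂ) + 1 = (k : ℂ) + 2 := by push_cast; ring
    have hr := rr_prod α hn hev hε k
    rw [e1, e1, sn_succ (k + 1), e2, e3, mul_pow (sn (k + 1) ε)]
    set A := ((k : ℂ) + 1) ^ 2 - ε ^ 2 with hAd
    set B := ((k : ℂ) + 2) ^ 2 - ε ^ 2 with hBd
    have f1 : 1 - ε ^ 2 / ((k : ℂ) + 2) ^ 2 = B / ((k : ℂ) + 2) ^ 2 := by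
      rw [hBd]
      field_simp
    have f2 : 1 - ε ^ 2 / ((k : ℂ) + 1) ^ 2 = A / ((k : ℂ) + 1) ^ 2 := by
      rw [hAd]
      field_simp
    rw [f2] at ih
    rw [f1]
    set P := ∏ j, (((k : ℂ) + 1) ^ 2 - (ε + α j) ^ 2) with hP
    set S := ∏ j, sn k (ε + α j) with hS
    set a := (k : ℂ) + 1
    set b := (k : ℂ) + 2
    have hr' : rr α k ε * rr α k (-ε) = b ^ 2 * P / (A ^ m0 * a ^ 2 * B) := by
      rw [eq_div_iff (mul_ne_zero (mul_ne_zero (pow_ne_zero _ hA) (pow_ne_zero _ h3)) hB)]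
      exact hr
    set F := FF α (k + 1) ε
    set F' := FF α (k + 1) (-ε)
    set s := sn (k + 1) ε ^ (m0 + 1)
    set c := (Real.pi : ℂ) ^ (m0 + 1) * Qf α ε
    calc F * rr α k ε * (F' * rr α k (-ε)) * (s * (B / b ^ 2) ^ (m0 + 1)) * c
        = (F * F' * s * c) * (rr α k ε * rr α k (-ε)) * (B / b ^ 2) ^ (m0 + 1) := by ring
      _ = ((A / a ^ 2) ^ m0 * ((Real.pi : ℂ) * ε) ^ (m0 + 1) * Qf α ε ^ 2 * S) * (b ^ 2 * P / (A ^ m0 * a ^ 2 * B)) *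
          (B / b ^ 2) ^ (m0 + 1) := by rw [ih, hr']
      _ = _ := by
        rw [div_pow A, div_pow B _ m0, div_pow B]
        field_simp
        ring

/-- **the identity for the limit** -/
theorem limit_id (α : Fin (m0 + 1) → ℚ) (h0 : ∑ j, α j = 0) (hn : Even (m0 + 1)) (hev : ∀ x, Qf α (-x) = Qf α x) {ε : ℂ}
    (hε : ε ∈ Uh) : CC α ε * CC α (-ε) * Complex.sin (Real.pi * ε) ^ (m0 + 1) * Qf α ε =
      ε ^ (m0 + 1) * Qf α ε ^ 2 * ∏ j, Complex.sin (Real.pi * (ε + α j)) := by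
  have t1 : Tendsto (fun k => FF α k ε) atTop (𝓝 (CC α ε)) := (FF_lim α h0).tendsto_at hε
  have t2 : Tendsto (fun k => FF α k (-ε)) atTop (𝓝 (CC α (-ε))) := (FF_lim α h0).tendsto_at (neg_Uh hε)
  have t3 : ∀ z, Tendsto (fun k => sn k z) atTop (𝓝 (Complex.sin (Real.pi * z))) := fun z => Complex.tendsto_euler_sin_prod z
  have t4 : Tendsto (fun k : ℕ => (1 - ε ^ 2 / ((k : ℂ) + 1) ^ 2) ^ m0) atTop (𝓝 1) := by
    have h1 : Tendsto (fun k : ℕ => ((1 : ℂ) / ((k : ℂ) + 1))) atTop (𝓝 0) := tendsto_one_div_add_atTop_nhds_zero_nat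
    have h2 := ((h1.pow 2).const_mul (ε ^ 2)).const_sub 1
    have h3 := h2.pow m0
    simp only [zero_pow two_ne_zero, mul_zero, sub_zero, one_pow] at h3
    refine h3.congr fun k => ?_
    rw [one_div, inv_pow, ← div_eq_mul_inv]
  have t1' := t1.comp (tendsto_add_atTop_nat 1)
  have t2' := t2.comp (tendsto_add_atTop_nat 1)
  have t3' := (t3 ε).comp (tendsto_add_atTop_nat 1)
  have l1 := ((t1'.mul t2').mul (t3'.pow (m0 + 1))).mul_const ((Real.pi : ℂ) ^ (m0 + 1) * Qf α ε)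
  have l2 := ((t4.mul_const (((Real.pi : ℂ) * ε) ^ (m0 + 1))).mul_const (Qf α ε ^ 2)).mul
    (tendsto_finsetProd Finset.univ fun (j : Fin (m0 + 1)) _ => t3 (ε + α j))
  have l3 : Tendsto (fun k : ℕ => (1 - ε ^ 2 / ((k : ℂ) + 1) ^ 2) ^ m0 * ((Real.pi : ℂ) * ε) ^ (m0 + 1) * Qf α ε ^ 2 *
      ∏ j, sn k (ε + α j)) atTop (𝓝 (CC α ε * CC α (-ε) * Complex.sin (Real.pi * ε) ^ (m0 + 1) *
      ((Real.pi : ℂ) ^ (m0 + 1) * Qf α ε))) := by
    refine l1.congr fun k => ?_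
    exact finite_id α hn hev hε k
  have h1 := tendsto_nhds_unique l3 l2
  have hpi : (Real.pi : ℂ) ^ (m0 + 1) ≠ 0 := pow_ne_zero _ (by exact_mod_cast Real.pi_ne_zero)
  refine mul_left_cancel₀ hpi ?_
  calc _ = CC α ε * CC α (-ε) * Complex.sin (Real.pi * ε) ^ (m0 + 1) * ((Real.pi : ℂ) ^ (m0 + 1) * Qf α ε) := by ring
    _ = _ := h1
    _ = _ := by rw [mul_pow]; ring

end Pool.Agent.L0h14.HO
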