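import Mathlib
import Pool.Agent.L0h14.HO.PsiB
import Pool.Agent.L0h14.HO.FamS

/-!
# Inequivalent families are separated
-/

set_option autoImplicit false

open Filter Topology Matrix

namespace Pool.Agent.L0h14.HO

open Pool.Agent.Y119.HY (kx aq hq Hq Hc ps Hf QD Am Jm cm E om om_eq pl pl_eval pl_coeff Am_pow cm_apply cm_pow om_add om_smul mv_apply)

section alg

variable {n : ℕ}

/-- extension by zero -/
noncomputable def ez (v : Fin n → ℂ) (i : ℕ) : ℂ := if h : i < n then v ⟨i, h⟩ else 0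

lemma ez_coe (v : Fin n → ℂ) (i : Fin n) : ez v i = v i := by
  unfold ez
  rw [dif_pos i.2]

/-- the series of the row vector -/
noncomputable def pS (p : Fin n → ℂ) : PowerSeries ℂ := PowerSeries.mk (ez p)

/-- the series of the reversed column vector -/
noncomputable def vS (v : Fin n → ℂ) : PowerSeries ℂ := PowerSeries.mk fun b => if b < n then ez v (n - 1 - b) else 0

/-- the series of the polynomial -/
noncomputable def qS (Q : Polynomial ℚ) : PowerSeries ℂ := PowerSeries.mk fun a => ((Q.coeff a : ℚ) : ℂ)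

lemma claim1 {Q : Polynomial ℚ} (hn : Even n) (v : Fin n → ℂ) {j : ℕ} (hj : j < n) :
    PowerSeries.coeff j (qS Q * PowerSeries.rescale (-1) (vS v)) = -PowerSeries.coeff j (pS (v ᵥ* cm (Jm n Q))) := by
  have h1 : PowerSeries.coeff j (pS (v ᵥ* cm (Jm n Q))) = ∑ i : Fin n, v i * (cm (Jm n Q)) i ⟨j, hj⟩ := by
    unfold pS ez
    rw [PowerSeries.coeff_mk, dif_pos hj]
    rfl
  rw [h1, ← Equiv.sum_comp Fin.revPerm, PowerSeries.coeff_mul, Finset.Nat.sum_antidiagonal_eq_sum_range_succ_mk]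
  have h2 : ∑ i : Fin n, v (Fin.revPerm i) * (cm (Jm n Q)) (Fin.revPerm i) ⟨j, hj⟩ =
      ∑ b ∈ Finset.range n, if b ≤ j then -((-1) ^ b * ez v (n - 1 - b) * ((Q.coeff (j - b) : ℚ) : ℂ)) else 0 := by
    rw [Finset.sum_range]
    refine Finset.sum_congr rfl fun b _ => ?_
    have hb := b.2
    have e1 : ((Fin.revPerm b : Fin n) : ℕ) = n - 1 - b := by
      rw [Fin.revPerm_apply, Fin.val_rev]
      omega
    rw [cm_apply]
    unfold Jm
    rw [Matrix.of_apply, e1]
    simp only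
    by_cases h : (b : ℕ) ≤ j
    · rw [if_pos (by omega), if_pos h]
      have e2 : n - 1 - (b : ℕ) + j + 1 - n = j - b := by omega
      have e3 : v (Fin.revPerm b) = ez v (n - 1 - b) := by
        rw [← e1, ez_coe]
      have e4 : ((-1 : ℚ)) ^ (n - 1 - (b : ℕ)) = -((-1) ^ (b : ℕ)) := by
        have h5 : ((-1 : ℚ)) ^ (n - 1 - (b : ℕ)) * (-1) ^ (b : ℕ) = -1 := by
          rw [← pow_add]
          have : Odd (n - 1 - (b : ℕ) + b) := by
            obtain ⟨c, hc⟩ := hn
            exact ⟨c - 1, by omega⟩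
          rw [this.neg_one_pow]
        have h6 : ((-1 : ℚ)) ^ (b : ℕ) * (-1) ^ (b : ℕ) = 1 := by
          rw [← mul_pow]
          norm_num
        linear_combination ((-1) ^ (b : ℕ)) * h5 - ((-1 : ℚ)) ^ (n - 1 - (b : ℕ)) * h6
      rw [e2, e3, e4]
      push_cast
      ring
    · rw [if_neg (by omega), if_neg h]
      simp
  rw [h2, ← Finset.sum_filter]
  have h3 : (Finset.range n).filter (fun b => b ≤ j) = Finset.range (j + 1) := by
    ext b
    rw [Finset.mem_filter, Finset.mem_range, Finset.mem_range]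
    omega
  rw [h3, ← Finset.sum_neg_distrib, ← Finset.sum_range_reflect]
  refine Finset.sum_congr rfl fun b hb => ?_
  rw [Finset.mem_range] at hb
  rw [PowerSeries.coeff_rescale]
  unfold qS vS
  rw [PowerSeries.coeff_mk, PowerSeries.coeff_mk]
  have e1 : j + 1 - 1 - b = j - b := by omega
  have e2 : j - (j - b) = b := by omega
  rw [e1, e2, if_pos (by omega)]
  ring

lemma claim2 (p v : Fin n → ℂ) {k : ℕ} (hk : k < n) :
    p ⬝ᵥ ((cm (Am n) ^ k) *ᵥ v) = PowerSeries.coeff (n - 1 - k) (pS p * vS v) := by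
  have h1 : ∀ i : Fin n, ((cm (Am n) ^ k) *ᵥ v) i = ez v (i + k) := by
    intro i
    rw [← cm_pow, mv_apply]
    unfold ez
    by_cases h : (i : ℕ) + k < n
    · rw [dif_pos h, Finset.sum_eq_single ⟨(i : ℕ) + k, h⟩]
      · rw [cm_apply, Am_pow, if_pos rfl]
        simp
      · intro b _ hb
        rw [cm_apply, Am_pow, if_neg (fun h' => hb (Fin.ext h'))]
        simp
      · intro h'
        exact absurd (Finset.mem_univ _) h'
    · rw [dif_neg h]
      refine Finset.sum_eq_zero fun b _ => ?_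
      rw [cm_apply, Am_pow, if_neg (by have := b.2; omega)]
      simp
  rw [PowerSeries.coeff_mul, Finset.Nat.sum_antidiagonal_eq_sum_range_succ_mk]
  unfold dotProduct
  simp only [h1]
  have h2 : ∑ i : Fin n, p i * ez v ((i : ℕ) + k) = ∑ a ∈ Finset.range n, ez p a * ez v (a + k) := by
    rw [Finset.sum_range]
    refine Finset.sum_congr rfl fun i _ => ?_
    rw [ez_coe]
  rw [h2]
  symm
  refine Finset.sum_subset_zero_on_sdiff (fun a ha => ?_) (fun a ha => ?_) fun a ha => ?_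
  · rw [Finset.mem_range] at ha ⊢
    omega
  · rw [Finset.mem_sdiff, Finset.mem_range, Finset.mem_range] at ha
    unfold ez
    rw [dif_neg (c := a + k < n) (by omega), mul_zero]
  · rw [Finset.mem_range] at ha
    unfold pS vS
    rw [PowerSeries.coeff_mk, PowerSeries.coeff_mk, if_pos (by omega)]
    congr 2
    omega

/-- the functional -/
noncomputable def omL (J : Matrix (Fin n) (Fin n) ℂ) (v : Fin n → ℂ) : (Fin n → ℂ) →ₗ[ℂ] ℂ where
  toFun x := om J v x
  map_add' := om_add v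
  map_smul' c x := om_smul c v x

lemma psi_eval (A J : Matrix (Fin n) (Fin n) ℂ) (v : Fin n → ℂ) (s : ℂ) : (pl A v (omL J v)).eval s = psi A J v s :=
  pl_eval v (omL J v) s

lemma psi_coeff (A J : Matrix (Fin n) (Fin n) ℂ) (v : Fin n → ℂ) (i : Fin n) :
    (pl A v (omL J v)).coeff i = om J v ((A ^ (i : ℕ)) *ᵥ v) / ((i : ℕ).factorial : ℂ) :=
  pl_coeff v (omL J v) i

lemma psi_coeff_big (A J : Matrix (Fin n) (Fin n) ℂ) (v : Fin n → ℂ) {i : ℕ} (hi : n ≤ i) :
    (pl A v (omL J v)).coeff i = 0 := by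
  unfold pl
  rw [Polynomial.finsetSum_coeff]
  refine Finset.sum_eq_zero fun b _ => ?_
  rw [Polynomial.coeff_monomial, if_neg (by have := b.2; omega)]

/-- the dimension is determined by the invariant -/
lemma psi_dim {n' : ℕ} {A J : Matrix (Fin n) (Fin n) ℂ} {v : Fin n → ℂ} {A' J' : Matrix (Fin n') (Fin n') ℂ} {v' : Fin n' → ℂ}
    (hn : 1 ≤ n) (h1 : om J v ((A ^ (n - 1)) *ᵥ v) ≠ 0) {σ : ℂ}
    (h : pl A v (omL J v) = Polynomial.C σ * pl A' v' (omL J' v')) : n ≤ n' := by
  by_contra hcon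
  have h2 : (pl A v (omL J v)).coeff (n - 1) = (Polynomial.C σ * pl A' v' (omL J' v')).coeff (n - 1) := by rw [h]
  rw [Polynomial.coeff_C_mul, psi_coeff_big A' J' v' (by omega), mul_zero] at h2
  have h3 := psi_coeff A J v ⟨n - 1, by omega⟩
  rw [h3] at h2
  rcases div_eq_zero_iff.1 h2 with h4 | h4
  · exact h1 h4
  · exact absurd h4 (by exact_mod_cast (n - 1).factorial_ne_zero)

end alg

/-! ### congruences -/

lemma xdvd_iff {N : ℕ} {f g : PowerSeries ℂ} : (PowerSeries.X ^ N ∣ f - g) ↔ ∀ j < N, PowerSeries.coeff j f = PowerSeries.coeff j g := by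
  rw [PowerSeries.X_pow_dvd_iff]
  refine forall₂_congr fun j _ => ?_
  rw [map_sub, sub_eq_zero]

lemma rescale_dvd {N : ℕ} {f : PowerSeries ℂ} (h : PowerSeries.X ^ N ∣ f) : PowerSeries.X ^ N ∣ PowerSeries.rescale (-1 : ℂ) f := by
  rw [PowerSeries.X_pow_dvd_iff] at h ⊢
  intro j hj
  rw [PowerSeries.coeff_rescale, h j hj, mul_zero]

lemma rescale_rescale' (f : PowerSeries ℂ) : PowerSeries.rescale (-1 : ℂ) (PowerSeries.rescale (-1 : ℂ) f) = f := by
  ext j
  rw [PowerSeries.coeff_rescale, PowerSeries.coeff_rescale, ← mul_assoc, ← mul_pow]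
  norm_num

lemma qS_even {Q : Polynomial ℚ} (h : ∀ j, Odd j → Q.coeff j = 0) : PowerSeries.rescale (-1 : ℂ) (qS Q) = qS Q := by
  ext j
  rw [PowerSeries.coeff_rescale]
  unfold qS
  rw [PowerSeries.coeff_mk]
  rcases Nat.even_or_odd j with hj | hj
  · rw [hj.neg_one_pow, one_mul]
  · rw [h j hj]
    simp

/-- **the key congruence** -/
lemma key_cong {n : ℕ} {Q : Polynomial ℚ} (hn : Even n) (hQ : ∀ j, Odd j → Q.coeff j = 0) {v : Fin n → ℂ} {C : PowerSeries ℂ}
    (hC : ∀ j : Fin n, (v ᵥ* cm (Jm n Q)) j = -PowerSeries.coeff (j : ℕ) C) :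
    PowerSeries.X ^ n ∣ pS (v ᵥ* cm (Jm n Q)) * vS v * qS Q - -(C * PowerSeries.rescale (-1) C) := by
  set p := pS (v ᵥ* cm (Jm n Q)) with hp
  have h1 : PowerSeries.X ^ n ∣ p - -C := by
    rw [xdvd_iff]
    intro j hj
    rw [hp, map_neg, ← hC ⟨j, hj⟩]
    unfold pS
    rw [PowerSeries.coeff_mk]
    exact ez_coe _ ⟨j, hj⟩
  have h2 : PowerSeries.X ^ n ∣ qS Q * PowerSeries.rescale (-1) (vS v) - -p := by
    rw [xdvd_iff]
    intro j hj
    rw [claim1 hn v hj, map_neg]
  have h3 := rescale_dvd h2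
  rw [map_sub, map_mul, map_neg, rescale_rescale', qS_even hQ] at h3
  have h4 := rescale_dvd h1
  rw [map_sub, map_neg] at h4
  -- combine
  have e : p * vS v * qS Q - -(C * PowerSeries.rescale (-1) C) =
      p * (qS Q * vS v - -(PowerSeries.rescale (-1) p)) - (p - -C) * PowerSeries.rescale (-1) p +
        C * (PowerSeries.rescale (-1) p - -(PowerSeries.rescale (-1) C)) := by ring
  rw [e]
  exact dvd_add (dvd_sub (Dvd.dvd.mul_left h3 _) (Dvd.dvd.mul_right h1 _)) (Dvd.dvd.mul_left h4 _)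

end Pool.Agent.L0h14.HO
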