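import Mathlib
import Pool.Agent.L0h14.HO.Psi

/-!
# Inequivalent families are separated: the trigonometric part
-/

set_option autoImplicit false

open Filter Topology Matrix

namespace Pool.Agent.L0h14.HO

open Pool.Agent.Y119.HY (kx aq hq Hq Hc ps Hf QD Am Jm cm E om om_eq pl pl_eval pl_coeff Am_pow cm_apply cm_pow om_add om_smul mv_apply)

variable {m0 : ℕ}

lemma qS_eq (Q : Polynomial ℚ) : qS Q = ((Q.map (algebraMap ℚ ℂ) : Polynomial ℂ) : PowerSeries ℂ) := by
  ext j
  unfold qS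
  rw [PowerSeries.coeff_mk, Polynomial.coeff_coe, Polynomial.coeff_map]
  rfl

lemma tay_Q (α : Fin (m0 + 1) → ℚ) : tay (Qf α) = qS (QP α) := by
  have h1 : Qf α = fun ε => ∏ j, ((α j : ℂ) + ε) := by
    funext ε
    unfold Qf
    exact Finset.prod_congr rfl fun j _ => add_comm _ _
  rw [h1, tay_prod _ fun j _ => an_shift _, qS_eq]
  unfold QP
  rw [Polynomial.map_prod]
  have h2 : ((∏ j, (Polynomial.X + Polynomial.C (α j)).map (algebraMap ℚ ℂ) : Polynomial ℂ) : PowerSeries ℂ) =
      ∏ j, (((Polynomial.X + Polynomial.C (α j)).map (algebraMap ℚ ℂ) : Polynomial ℂ) : PowerSeries ℂ) := by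
    rw [← Polynomial.coeToPowerSeries.ringHom_apply, map_prod]
    rfl
  rw [h2]
  refine Finset.prod_congr rfl fun j _ => ?_
  rw [tay_shift, Polynomial.map_add, Polynomial.map_X, Polynomial.map_C, Polynomial.coe_add, Polynomial.coe_X,
    Polynomial.coe_C, add_comm]
  rfl

/-- the product of sines -/
noncomputable def Zs (α : Fin (m0 + 1) → ℚ) (ε : ℂ) : ℂ := ∏ j, Complex.sin (Real.pi * (ε + α j))

lemma an_sin (c : ℂ) : AnalyticAt ℂ (fun ε : ℂ => Complex.sin (Real.pi * (ε + c))) 0 := by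
  have h : Differentiable ℂ (fun ε : ℂ => Complex.sin (Real.pi * (ε + c))) := by fun_prop
  exact h.analyticAt 0

lemma an_Zs (α : Fin (m0 + 1) → ℚ) : AnalyticAt ℂ (Zs α) 0 := by
  unfold Zs
  exact Finset.analyticAt_fun_prod _ fun j _ => an_sin _

/-- the sine -/
noncomputable def Ss : PowerSeries ℂ := tay fun ε => Complex.sin (Real.pi * ε)

lemma an_sin0 : AnalyticAt ℂ (fun ε : ℂ => Complex.sin (Real.pi * ε)) 0 := by
  have h : Differentiable ℂ (fun ε : ℂ => Complex.sin (Real.pi * ε)) := by fun_prop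
  exact h.analyticAt 0

lemma Ss_dvd : PowerSeries.X ∣ Ss := by
  rw [PowerSeries.X_dvd_iff]
  unfold Ss
  rw [constantCoeff_tay]
  simp

/-- **the formal identity** -/
lemma formal_id (α : Fin (m0 + 1) → ℚ) (h0 : ∑ j, α j = 0) (hn : Even (m0 + 1)) (hev : ∀ x, Qf α (-x) = Qf α x)
    (hQ0 : Qf α 0 ≠ 0) : tay (CC α) * PowerSeries.rescale (-1) (tay (CC α)) * Ss ^ (m0 + 1) =
      PowerSeries.X ^ (m0 + 1) * qS (QP α) * tay (Zs α) := by
  have hC := CC_an α h0
  have hC' : AnalyticAt ℂ (fun ε => CC α (-ε)) 0 := by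
    have h1 : AnalyticAt ℂ (CC α) (-(0 : ℂ)) := by rw [neg_zero]; exact hC
    exact h1.fun_comp (analyticAt_id.neg)
  have hQ : AnalyticAt ℂ (Qf α) 0 := (Qf_diff α).analyticAt 0
  have hid : (fun ε => CC α ε * CC α (-ε) * Complex.sin (Real.pi * ε) ^ (m0 + 1) * Qf α ε) =ᶠ[𝓝 0]
      fun ε => ε ^ (m0 + 1) * Qf α ε ^ 2 * Zs α ε := by
    filter_upwards [Uh_open.mem_nhds zero_Uh] with ε hε
    exact limit_id α h0 hn hev hε
  have h1 := tay_congr hid
  have a1 : AnalyticAt ℂ (fun ε => CC α ε * CC α (-ε)) 0 := hC.fun_mul hC'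
  have a2 : AnalyticAt ℂ (fun ε : ℂ => Complex.sin (Real.pi * ε) ^ (m0 + 1)) 0 := an_sin0.fun_pow _
  have a3 : AnalyticAt ℂ (fun ε => CC α ε * CC α (-ε) * Complex.sin (Real.pi * ε) ^ (m0 + 1)) 0 := a1.fun_mul a2
  have a4 : AnalyticAt ℂ (fun ε : ℂ => ε ^ (m0 + 1)) 0 := (analyticAt_id (𝕜 := ℂ) (z := 0)).fun_pow _
  have a5 : AnalyticAt ℂ (fun ε => Qf α ε ^ 2) 0 := hQ.fun_pow _
  have a6 : AnalyticAt ℂ (fun ε => ε ^ (m0 + 1) * Qf α ε ^ 2) 0 := a4.fun_mul a5
  have t1 : tay (fun ε => CC α (-ε)) = PowerSeries.rescale (-1) (tay (CC α)) := tay_neg _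
  have t2 : tay (fun ε : ℂ => ε ^ (m0 + 1)) = PowerSeries.X ^ (m0 + 1) := by
    have := tay_pow (f := fun z => z) analyticAt_id (m0 + 1)
    rw [tay_id] at this
    exact this
  rw [tay_mul a3 hQ, tay_mul a1 a2, tay_mul hC hC', t1, tay_pow an_sin0, tay_mul a6 (an_Zs α), tay_mul a4 a5, t2,
    tay_pow hQ, tay_Q] at h1
  have hq : qS (QP α) ≠ 0 := by
    intro h2
    have h3 := constantCoeff_tay (Qf α)
    rw [tay_Q, h2, map_zero] at h3
    exact hQ0 h3.symm
  refine mul_right_cancel₀ hq ?_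
  calc _ = _ := h1
    _ = _ := by ring

/-- the exponential -/
noncomputable def ew (ε : ℂ) : ℂ := Complex.exp (2 * Real.pi * Complex.I * ε)

lemma ew_diff : Differentiable ℂ ew := by
  unfold ew
  fun_prop

lemma ew_deriv : deriv ew 0 = 2 * Real.pi * Complex.I := by
  have h1 : HasDerivAt (fun ε : ℂ => 2 * Real.pi * Complex.I * ε) (2 * Real.pi * Complex.I * 1) 0 :=
    (hasDerivAt_id (0 : ℂ)).const_mul _
  have h2 := h1.cexp
  have h3 : deriv ew 0 = _ := h2.deriv
  rw [h3]
  simp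

/-- **polynomials of the exponential** -/
lemma ord_poly {F : Polynomial ℂ} (hF : F ≠ 0) {N : ℕ} (h : PowerSeries.X ^ N ∣ tay (fun ε => F.eval (ew ε))) :
    N ≤ F.natDegree ∧ (0 < N → F.eval 1 = 0) := by
  obtain ⟨G, hG, hGd⟩ := Polynomial.exists_eq_pow_rootMultiplicity_mul_and_not_dvd F hF 1
  set m := F.rootMultiplicity 1 with hm
  have hG1 : G.eval 1 ≠ 0 := by
    intro h0
    exact hGd (Polynomial.dvd_iff_isRoot.2 h0)
  have hG0 : G ≠ 0 := by
    rintro rfl
    exact hG1 (by simp)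
  have hge : Differentiable ℂ fun ε => G.eval (ew ε) := G.differentiable.comp ew_diff
  have hwe : Differentiable ℂ fun ε => ew ε - 1 := ew_diff.sub_const 1
  have h1 : tay (fun ε => F.eval (ew ε)) = tay (fun ε => ew ε - 1) ^ m * tay (fun ε => G.eval (ew ε)) := by
    have e : (fun ε => F.eval (ew ε)) = fun ε => (ew ε - 1) ^ m * G.eval (ew ε) := by
      funext ε
      rw [hG, Polynomial.eval_mul, Polynomial.eval_pow, Polynomial.eval_sub, Polynomial.eval_X, Polynomial.eval_C]
    rw [e, tay_mul ((hwe.analyticAt 0).fun_pow m) (hge.analyticAt 0), tay_pow (hwe.analyticAt 0)]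
  have hw1 : ew 0 = 1 := by
    unfold ew
    simp
  obtain ⟨U, hU⟩ : PowerSeries.X ∣ tay (fun ε => ew ε - 1) := by
    rw [PowerSeries.X_dvd_iff, constantCoeff_tay, hw1, sub_self]
  have hU0 : PowerSeries.constantCoeff U ≠ 0 := by
    have h2 := congrArg (PowerSeries.coeff 1) hU
    rw [coeff_tay, iteratedDeriv_one, deriv_sub_const, ew_deriv] at h2
    have h3 : PowerSeries.coeff 1 (PowerSeries.X * U) = PowerSeries.constantCoeff U := by
      have := PowerSeries.coeff_succ_X_mul 0 U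
      rw [PowerSeries.coeff_zero_eq_constantCoeff_apply] at this
      exact this
    rw [h3] at h2
    rw [← h2]
    simp
  have hV0 : PowerSeries.constantCoeff (U ^ m * tay (fun ε => G.eval (ew ε))) ≠ 0 := by
    rw [map_mul, map_pow, constantCoeff_tay, hw1]
    exact mul_ne_zero (pow_ne_zero _ hU0) hG1
  have h2 : PowerSeries.X ^ N ∣ PowerSeries.X ^ m * (U ^ m * tay (fun ε => G.eval (ew ε))) := by
    have e : PowerSeries.X ^ m * (U ^ m * tay (fun ε => G.eval (ew ε))) = tay (fun ε => F.eval (ew ε)) := by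
      rw [h1, hU, mul_pow]
      ring
    rw [e]
    exact h
  have hNm : N ≤ m := by
    by_contra hcon
    have h3 : PowerSeries.X ^ (m + 1) ∣ PowerSeries.X ^ m * (U ^ m * tay (fun ε => G.eval (ew ε))) :=
      (pow_dvd_pow _ (by omega)).trans h2
    rw [pow_succ] at h3
    have h4 := (mul_dvd_mul_iff_left (pow_ne_zero m PowerSeries.X_ne_zero)).1 h3
    rw [PowerSeries.X_dvd_iff] at h4
    exact hV0 h4
  refine ⟨hNm.trans ?_, fun hN => ?_⟩
  · have h3 : F.natDegree = m + G.natDegree := by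
      conv_lhs => rw [hG]
      rw [Polynomial.natDegree_mul (pow_ne_zero _ (Polynomial.X_sub_C_ne_zero _)) hG0, Polynomial.natDegree_pow,
        Polynomial.natDegree_X_sub_C, mul_one]
    omega
  · rw [hG, Polynomial.eval_mul, Polynomial.eval_pow, Polynomial.eval_sub, Polynomial.eval_X, Polynomial.eval_C, sub_self,
      zero_pow (by omega), zero_mul]

/-- the characteristic polynomial of the monodromy at infinity -/
noncomputable def chi (α : Fin (m0 + 1) → ℚ) : Polynomial ℂ :=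
  ∏ j, (Polynomial.X - Polynomial.C (ew (-(α j : ℂ))))

lemma chi_monic (α : Fin (m0 + 1) → ℚ) : (chi α).Monic := Polynomial.monic_prod_of_monic _ _ fun _ _ => Polynomial.monic_X_sub_C _

lemma chi_deg (α : Fin (m0 + 1) → ℚ) : (chi α).natDegree = m0 + 1 := by
  unfold chi
  rw [Polynomial.natDegree_prod_of_monic _ _ fun _ _ => Polynomial.monic_X_sub_C _]
  simp

lemma chi_ew (α : Fin (m0 + 1) → ℚ) (h0 : ∑ j, α j = 0) (ε : ℂ) : (chi α).eval (ew ε) =
    (Complex.exp (Real.pi * Complex.I * ε) * (2 * Complex.I)) ^ (m0 + 1) * Zs α ε := by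
  have h1 : ∀ j, Complex.exp (Real.pi * Complex.I * ε) * (2 * Complex.I) * Complex.sin (Real.pi * (ε + α j)) =
      Complex.exp (Real.pi * Complex.I * α j) * (ew ε - ew (-(α j : ℂ))) := by
    intro j
    unfold ew
    rw [Complex.sin]
    have hI : Complex.I ^ 2 = -1 := Complex.I_sq
    have e1 : Complex.exp (-(Real.pi * (ε + α j)) * Complex.I) =
        Complex.exp (-(Real.pi * Complex.I * ε)) * Complex.exp (-(Real.pi * Complex.I * α j)) := by
      rw [← Complex.exp_add]; congr 1; ring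
    have e2 : Complex.exp ((Real.pi * (ε + α j)) * Complex.I) =
        Complex.exp (Real.pi * Complex.I * ε) * Complex.exp (Real.pi * Complex.I * α j) := by
      rw [← Complex.exp_add]; congr 1; ring
    have e3 : Complex.exp (2 * Real.pi * Complex.I * ε) = Complex.exp (Real.pi * Complex.I * ε) * Complex.exp (Real.pi * Complex.I * ε) := by
      rw [← Complex.exp_add]; congr 1; ring
    have e4 : Complex.exp (2 * Real.pi * Complex.I * -(α j : ℂ)) =
        Complex.exp (-(Real.pi * Complex.I * α j)) * Complex.exp (-(Real.pi * Complex.I * α j)) := by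
      rw [← Complex.exp_add]; congr 1; ring
    have e5 : Complex.exp (Real.pi * Complex.I * ε) * Complex.exp (-(Real.pi * Complex.I * ε)) = 1 := by
      rw [← Complex.exp_add, add_neg_cancel, Complex.exp_zero]
    have e6 : Complex.exp (Real.pi * Complex.I * α j) * Complex.exp (-(Real.pi * Complex.I * α j)) = 1 := by
      rw [← Complex.exp_add, add_neg_cancel, Complex.exp_zero]
    rw [e1, e2, e3, e4]
    set a := Complex.exp (Real.pi * Complex.I * ε)
    set a' := Complex.exp (-(Real.pi * Complex.I * ε))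
    set b := Complex.exp (Real.pi * Complex.I * α j)
    set b' := Complex.exp (-(Real.pi * Complex.I * α j))
    linear_combination (a * a' * b' - a * a * b) * hI - b' * e5 + b' * e6
  unfold chi Zs
  rw [Polynomial.eval_prod]
  have h2 : (Complex.exp (Real.pi * Complex.I * ε) * (2 * Complex.I)) ^ (m0 + 1) =
      ∏ _j : Fin (m0 + 1), (Complex.exp (Real.pi * Complex.I * ε) * (2 * Complex.I)) := by
    rw [Finset.prod_const, Finset.card_univ, Fintype.card_fin]
  rw [h2, ← Finset.prod_mul_distrib]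
  simp only [h1]
  rw [Finset.prod_mul_distrib, ← Complex.exp_sum, ← Finset.mul_sum]
  have h3 : ∑ j, (α j : ℂ) = 0 := by exact_mod_cast h0
  rw [h3, mul_zero, Complex.exp_zero, one_mul]
  refine Finset.prod_congr rfl fun j _ => ?_
  rw [Polynomial.eval_sub, Polynomial.eval_X, Polynomial.eval_C]

end Pool.Agent.L0h14.HO
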