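import Mathlib
import Pool.Agent.L0h14.HO.PsiC

/-!
# Inequivalent families are separated: conclusion
-/

set_option autoImplicit false

open Filter Topology Matrix

namespace Pool.Agent.L0h14.HO

open Pool.Agent.Y119.HY (kx aq hq Hq Hc ps Hf QD Am Jm cm E om om_eq pl pl_eval pl_coeff Am_pow cm_apply cm_pow om_add om_smul mv_apply Yf tv)

variable {m0 : ℕ}

/-- the exponents form a symmetric family -/
lemma M_neg {n : ℕ} {α : Fin n → ℚ} (hn : Even n) (h : (QP α).comp (-Polynomial.X) = QP α) :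
    (Multiset.map α Finset.univ.val).map (fun a => -a) = Multiset.map α Finset.univ.val := by
  have h1 : QP (fun i => -α i) = QP α := by
    rw [← dq_QP]
    unfold dq
    rw [hn.neg_one_pow, map_one, one_mul, h]
  have hr : ∀ β : Fin n → ℚ, (QP β).roots = (Multiset.map β Finset.univ.val).map (fun a => -a) := by
    intro β
    have h2 : QP β = (((Multiset.map β Finset.univ.val).map (fun a => -a)).map fun a => Polynomial.X - Polynomial.C a).prod := by
      unfold QP
      rw [Multiset.map_map, Multiset.map_map]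
      simp [Finset.prod]
    rw [h2, Polynomial.roots_multiset_prod_X_sub_C]
  have h2 := hr α
  rw [← h1, hr, Multiset.map_map, Multiset.map_map] at h2
  rw [Multiset.map_map]
  rw [← h2]
  simp

lemma ew_conj (a : ℚ) : (starRingEnd ℂ) (ew (-(a : ℂ))) = ew (a : ℂ) := by
  unfold ew
  rw [← Complex.exp_conj]
  congr 1
  simp only [map_mul, map_neg, Complex.conj_I, Complex.conj_ofReal, map_ofNat]
  have : (starRingEnd ℂ) (a : ℂ) = (a : ℂ) := by
    have h : ((a : ℚ) : ℂ) = (((a : ℚ) : ℝ) : ℂ) := by push_cast; rfl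
    rw [h, Complex.conj_ofReal]
  rw [this]
  ring

lemma ew_eq_one {a : ℚ} (h : ew (a : ℂ) = 1) : ∃ b : ℤ, a = b := by
  unfold ew at h
  obtain ⟨b, hb⟩ := Complex.exp_eq_one_iff.1 h
  refine ⟨b, ?_⟩
  have h2 : (2 * Real.pi * Complex.I : ℂ) ≠ 0 := Complex.two_pi_I_ne_zero
  have h3 : (a : ℂ) = (b : ℂ) := by
    apply mul_left_cancel₀ h2
    rw [hb]
    ring
  exact_mod_cast h3

/-- **positivity** -/
lemma chi_pos {α : Fin (m0 + 1) → ℚ} (hα : ∀ j, ∀ a : ℤ, α j ≠ a) (hn : Even (m0 + 1))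
    (h : (QP α).comp (-Polynomial.X) = QP α) : ∃ r : ℝ, 0 < r ∧ (chi α).eval 1 = r := by
  classical
  set M : Multiset ℚ := Multiset.map α Finset.univ.val with hM
  have hMn : M.map (fun a => -a) = M := M_neg hn h
  have hM0 : ∀ a ∈ M, ∀ b : ℤ, a ≠ b := by
    intro a ha b
    obtain ⟨j, -, rfl⟩ := Multiset.mem_map.1 ha
    exact hα j b
  set f : ℚ → ℂ := fun a => 1 - ew (-(a : ℂ)) with hf
  have h1 : (chi α).eval 1 = (M.map f).prod := by
    unfold chi
    rw [Polynomial.eval_prod, hM, Multiset.map_map]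
    simp only [Polynomial.eval_sub, Polynomial.eval_X, Polynomial.eval_C]
    rfl
  have hfc : ∀ a : ℚ, f (-a) = (starRingEnd ℂ) (f a) := by
    intro a
    rw [hf]
    simp only
    rw [map_sub, map_one, ew_conj]
    push_cast
    rw [neg_neg]
  set P := ((M.filter (fun a => 0 < a)).map f).prod with hP
  have h2 : (M.map f).prod = P * (starRingEnd ℂ) P := by
    have h3 := Multiset.filter_add_not (fun a : ℚ => 0 < a) M
    have h4 : M.filter (fun a => ¬ 0 < a) = (M.filter (fun a => 0 < a)).map (fun a => -a) := by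
      conv_lhs => rw [← hMn]
      rw [Multiset.filter_map]
      congr 1
      refine Multiset.filter_congr fun a ha => ?_
      have h5 : a ≠ 0 := by
        have := hM0 a ha 0
        simpa using this
      simp only [Function.comp_apply, not_lt]
      constructor
      · intro h6
        exact lt_of_le_of_ne (by linarith) (Ne.symm h5)
      · intro h6
        linarith
    conv_lhs => rw [← h3]
    rw [Multiset.map_add, Multiset.prod_add, h4, Multiset.map_map]
    congr 1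
    rw [hP, map_multiset_prod, Multiset.map_map]
    congr 1
    refine Multiset.map_congr rfl fun a _ => ?_
    exact hfc a
  have hP0 : P ≠ 0 := by
    rw [hP]
    refine Multiset.prod_ne_zero ?_
    intro h0
    obtain ⟨a, ha, ha0⟩ := Multiset.mem_map.1 h0
    have ha' := (Multiset.mem_filter.1 ha).1
    have h5 : ew (((-a : ℚ)) : ℂ) = 1 := by
      rw [hf] at ha0
      simp only at ha0
      push_cast
      exact (sub_eq_zero.1 ha0).symm
    obtain ⟨b, hb⟩ := ew_eq_one h5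
    refine hM0 a ha' (-b) ?_
    push_cast
    rw [← hb, neg_neg]
  refine ⟨Complex.normSq P, Complex.normSq_pos.2 hP0, ?_⟩
  rw [h1, h2, Complex.mul_conj]

/-- **the characteristic polynomials coincide** -/
theorem chi_eq {α α' : Fin (m0 + 1) → ℚ} (hn : Even (m0 + 1)) (hα : ∀ j, ∀ a : ℤ, α j ≠ a) (hα' : ∀ j, ∀ a : ℤ, α' j ≠ a)
    (hs : (QP α).comp (-Polynomial.X) = QP α) (hs' : (QP α').comp (-Polynomial.X) = QP α')
    (h0 : ∑ j, α j = 0) (h0' : ∑ j, α' j = 0) (hev : ∀ x, Qf α (-x) = Qf α x) (hev' : ∀ x, Qf α' (-x) = Qf α' x)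
    {σ : ℂ} (hσ : σ = 1 ∨ σ = -1)
    (h : PowerSeries.X ^ (m0 + 1) ∣ tay (CC α) * PowerSeries.rescale (-1) (tay (CC α)) * qS (QP α') -
      PowerSeries.C σ * (tay (CC α') * PowerSeries.rescale (-1) (tay (CC α')) * qS (QP α))) : chi α = chi α' := by
  have hQ0 : ∀ {β : Fin (m0 + 1) → ℚ}, (∀ j, ∀ a : ℤ, β j ≠ a) → Qf β 0 ≠ 0 := by
    intro β hβ
    unfold Qf
    refine Finset.prod_ne_zero_iff.2 fun j _ => ?_
    rw [zero_add]
    have := hβ j 0
    exact_mod_cast this
  have f1 := formal_id α h0 hn hev (hQ0 hα)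
  have f2 := formal_id α' h0' hn hev' (hQ0 hα')
  have hq : ∀ {β : Fin (m0 + 1) → ℚ}, (∀ j, ∀ a : ℤ, β j ≠ a) → IsUnit (qS (QP β)) := by
    intro β hβ
    rw [PowerSeries.isUnit_iff_constantCoeff, ← tay_Q, constantCoeff_tay]
    exact (hQ0 hβ).isUnit
  have hS : PowerSeries.X ^ (m0 + 1) ∣ Ss ^ (m0 + 1) := pow_dvd_pow_of_dvd Ss_dvd _
  have h1 := mul_dvd_mul hS h
  have e1 : Ss ^ (m0 + 1) * (tay (CC α) * PowerSeries.rescale (-1) (tay (CC α)) * qS (QP α') -
      PowerSeries.C σ * (tay (CC α') * PowerSeries.rescale (-1) (tay (CC α')) * qS (QP α))) =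
      PowerSeries.X ^ (m0 + 1) * ((qS (QP α) * qS (QP α')) * (tay (Zs α) - PowerSeries.C σ * tay (Zs α'))) := by
    linear_combination (qS (QP α')) * f1 - (PowerSeries.C σ * qS (QP α)) * f2
  rw [e1] at h1
  have h2 := (mul_dvd_mul_iff_left (pow_ne_zero (m0 + 1) PowerSeries.X_ne_zero)).1 h1
  have h3 : PowerSeries.X ^ (m0 + 1) ∣ tay (Zs α) - PowerSeries.C σ * tay (Zs α') :=
    (((hq hα).mul (hq hα')).dvd_mul_left).1 h2
  set F : Polynomial ℂ := chi α - Polynomial.C σ * chi α' with hF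
  have hexp : Differentiable ℂ fun ε : ℂ => (Complex.exp (Real.pi * Complex.I * ε) * (2 * Complex.I)) ^ (m0 + 1) := by fun_prop
  have hFe : tay (fun ε => F.eval (ew ε)) =
      tay (fun ε : ℂ => (Complex.exp (Real.pi * Complex.I * ε) * (2 * Complex.I)) ^ (m0 + 1)) *
        (tay (Zs α) - PowerSeries.C σ * tay (Zs α')) := by
    have e2 : (fun ε => F.eval (ew ε)) = fun ε => (Complex.exp (Real.pi * Complex.I * ε) * (2 * Complex.I)) ^ (m0 + 1) *
        (Zs α ε + (-σ) * Zs α' ε) := by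
      funext ε
      rw [hF, Polynomial.eval_sub, Polynomial.eval_mul, Polynomial.eval_C, chi_ew α h0, chi_ew α' h0']
      ring
    have a1 : AnalyticAt ℂ (fun ε => (-σ) * Zs α' ε) 0 := analyticAt_const.fun_mul (an_Zs α')
    have a2 : AnalyticAt ℂ (fun ε => Zs α ε + (-σ) * Zs α' ε) 0 := (an_Zs α).fun_add a1
    have t1 : tay (fun ε => (-σ) * Zs α' ε) = PowerSeries.C (-σ) * tay (Zs α') := by
      have := tay_mul (f := fun _ => -σ) (g := Zs α') analyticAt_const (an_Zs α')
      rw [tay_const] at this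
      exact this
    rw [e2, tay_mul (hexp.analyticAt 0) a2, tay_add (an_Zs α) a1, t1, map_neg]
    ring
  have h4 : PowerSeries.X ^ (m0 + 1) ∣ tay (fun ε => F.eval (ew ε)) := by
    rw [hFe]
    exact Dvd.dvd.mul_left h3 _
  rcases hσ with rfl | rfl
  · by_contra hne
    have hF0 : F ≠ 0 := by
      intro h5
      apply hne
      rw [hF, map_one, one_mul] at h5
      exact sub_eq_zero.1 h5
    have h5 := (ord_poly hF0 h4).1
    have h6 : F.degree < (chi α).degree := by
      rw [hF, map_one, one_mul]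
      refine Polynomial.degree_sub_lt_left ?_ (chi_monic α).ne_zero ?_
      · rw [Polynomial.degree_eq_natDegree (chi_monic α).ne_zero, Polynomial.degree_eq_natDegree (chi_monic α').ne_zero,
          chi_deg, chi_deg]
      · rw [(chi_monic α).leadingCoeff, (chi_monic α').leadingCoeff]
    have h7 := Polynomial.natDegree_lt_natDegree hF0 h6
    rw [chi_deg] at h7
    omega
  · exfalso
    obtain ⟨r, hr, hre⟩ := chi_pos hα hn hs
    obtain ⟨r', hr', hre'⟩ := chi_pos hα' hn hs'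
    have hF1 : F.eval 1 = ((r + r' : ℝ) : ℂ) := by
      rw [hF, Polynomial.eval_sub, Polynomial.eval_mul, Polynomial.eval_C, hre, hre']
      push_cast
      ring
    have hne : ((r + r' : ℝ) : ℂ) ≠ 0 := by
      exact_mod_cast (add_pos hr hr').ne'
    have hF0 : F ≠ 0 := by
      intro h5
      rw [h5, Polynomial.eval_zero] at hF1
      exact hne hF1.symm
    have h5 := (ord_poly hF0 h4).2 (by omega)
    rw [hF1] at h5
    exact hne h5

/-- the classes of the exponents modulo the integers -/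
noncomputable def cls {n : ℕ} (α : Fin n → ℚ) : Multiset ℚ := Multiset.map (fun j => Int.fract (α j)) Finset.univ.val

lemma chi_cls {α α' : Fin (m0 + 1) → ℚ} (h : chi α = chi α') : cls α = cls α' := by
  classical
  have hr : ∀ β : Fin (m0 + 1) → ℚ, (chi β).roots = Multiset.map (fun j => ew (-(β j : ℂ))) Finset.univ.val := by
    intro β
    have h2 : chi β = ((Multiset.map (fun j => ew (-(β j : ℂ))) Finset.univ.val).map fun a => Polynomial.X - Polynomial.C a).prod := by
      unfold chi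
      rw [Multiset.map_map]
      rfl
    rw [h2, Polynomial.roots_multiset_prod_X_sub_C]
  have h1 := hr α
  rw [h, hr] at h1
  -- a left inverse
  set g : ℂ → ℚ := fun z => if hz : ∃ a : ℚ, ew (-(a : ℂ)) = z then Int.fract hz.choose else 0 with hg
  have hga : ∀ a : ℚ, g (ew (-(a : ℂ))) = Int.fract a := by
    intro a
    have hz : ∃ b : ℚ, ew (-(b : ℂ)) = ew (-(a : ℂ)) := ⟨a, rfl⟩
    rw [hg]
    simp only
    rw [dif_pos hz]
    have h2 := hz.choose_spec
    set b := hz.choose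
    have h3 : ew (((a - b : ℚ)) : ℂ) = 1 := by
      have e : ew (((a - b : ℚ)) : ℂ) * ew (-(a : ℂ)) = ew (-(b : ℂ)) := by
        unfold ew
        rw [← Complex.exp_add]
        congr 1
        push_cast
        ring
      rw [h2] at e
      have h4 : ew (-(a : ℂ)) ≠ 0 := Complex.exp_ne_zero _
      exact mul_right_cancel₀ h4 (by rw [e, one_mul])
    obtain ⟨c, hc⟩ := ew_eq_one h3
    rw [Int.fract_eq_fract]
    exact ⟨-c, by push_cast; rw [← hc]; ring⟩
  have h2 := congrArg (Multiset.map g) h1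
  rw [Multiset.map_map, Multiset.map_map] at h2
  simp only [Function.comp_def, hga] at h2
  exact h2.symm

lemma sym_facts {n : ℕ} {α : Fin n → ℚ} (hn : 2 ≤ n) (hα : ∀ j, ∀ a : ℤ, α j ≠ a)
    (hs : (QP α).comp (-Polynomial.X) = QP α) : (∑ j, α j = 0) ∧ ∀ x, Qf α (-x) = Qf α x := by
  have hQ := QD_QP hn hα hs
  refine ⟨?_, fun x => ?_⟩
  · rw [← QP_coeff α (by omega)]
    refine hQ.sym _ ?_
    obtain ⟨c, hc⟩ := hQ.even
    exact ⟨c - 1, by omega⟩
  · have h1 : ∀ y : ℂ, ((QP α).map (algebraMap ℚ ℂ)).eval y = Qf α y := by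
      intro y
      unfold QP Qf
      rw [Polynomial.map_prod, Polynomial.eval_prod]
      refine Finset.prod_congr rfl fun j _ => ?_
      rw [Polynomial.map_add, Polynomial.map_X, Polynomial.map_C, Polynomial.eval_add, Polynomial.eval_X, Polynomial.eval_C]
      rfl
    rw [← h1, ← h1]
    conv_rhs => rw [← hs]
    rw [Polynomial.map_comp, Polynomial.eval_comp, Polynomial.map_neg, Polynomial.map_X, Polynomial.eval_neg,
      Polynomial.eval_X]

/-- **Families with different exponents modulo the integers are separated.** -/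
theorem psi_sep {n n' : ℕ} {α : Fin n → ℚ} {α' : Fin n' → ℚ} (hn : 2 ≤ n) (hn' : 2 ≤ n')
    (hα : ∀ j, ∀ a : ℤ, α j ≠ a) (hα' : ∀ j, ∀ a : ℤ, α' j ≠ a)
    (hs : (QP α).comp (-Polynomial.X) = QP α) (hs' : (QP α').comp (-Polynomial.X) = QP α')
    (hne : cls α ≠ cls α') {v : Fin n → ℂ} {v' : Fin n' → ℂ} {T : ℤ → Matrix (Fin n) (Fin n) ℂ}
    {T' : ℤ → Matrix (Fin n') (Fin n') ℂ}
    (hB : SB n (cm (Am n)) T (cm (Jm n (QP α))) v) (hB' : SB n' (cm (Am n')) T' (cm (Jm n' (QP α'))) v')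
    (hv : ∀ i j : Fin n, (i : ℕ) + 1 = n →
      Tendsto (fun x : ℝ => Hf (Hc n (QP α)) (x : ℂ) i j * (Complex.log (1 - (x : ℂ)))⁻¹) (𝓝[<] 1)
      (𝓝 ((v ᵥ* cm (Jm n (QP α))) j)))
    (hv' : ∀ i j : Fin n', (i : ℕ) + 1 = n' →
      Tendsto (fun x : ℝ => Hf (Hc n' (QP α')) (x : ℂ) i j * (Complex.log (1 - (x : ℂ)))⁻¹) (𝓝[<] 1)
      (𝓝 ((v' ᵥ* cm (Jm n' (QP α'))) j))) :
    ∃ s, psi (cm (Am n)) (cm (Jm n (QP α))) v s ^ 2 ≠ psi (cm (Am n')) (cm (Jm n' (QP α'))) v' s ^ 2 := by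
  by_contra hcon
  push Not at hcon
  apply hne
  set P := pl (cm (Am n)) v (omL (cm (Jm n (QP α))) v) with hP
  set P' := pl (cm (Am n')) v' (omL (cm (Jm n' (QP α'))) v') with hP'
  have h1 : P ^ 2 = P' ^ 2 := by
    refine Polynomial.funext fun s => ?_
    rw [Polynomial.eval_pow, Polynomial.eval_pow, hP, hP', psi_eval, psi_eval]
    exact hcon s
  obtain ⟨σ, hσ, hPσ⟩ : ∃ σ : ℂ, (σ = 1 ∨ σ = -1) ∧ P = Polynomial.C σ * P' := by
    rcases sq_eq_sq_iff_eq_or_eq_neg.1 h1 with h2 | h2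
    · exact ⟨1, Or.inl rfl, by rw [map_one, one_mul]; exact h2⟩
    · exact ⟨-1, Or.inr rfl, by rw [map_neg, map_one, neg_one_mul]; exact h2⟩
  have hσ2 : σ * σ = 1 := by
    rcases hσ with rfl | rfl <;> norm_num
  have hPσ' : P' = Polynomial.C σ * P := by
    rw [hPσ, ← mul_assoc, ← map_mul, hσ2, map_one, one_mul]
  -- the dimensions
  have hnn : n = n' := le_antisymm (psi_dim (by omega) hB.cyc hPσ) (psi_dim (by omega) hB'.cyc hPσ')
  subst hnn
  obtain ⟨m0, rfl⟩ := Nat.exists_eq_succ_of_ne_zero (show n ≠ 0 by omega)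
  simp only [Nat.succ_eq_add_one] at *
  have hQ := QD_QP hn hα hs
  have hQ' := QD_QP hn hα' hs'
  obtain ⟨h0, hev⟩ := sym_facts hn hα hs
  obtain ⟨h0', hev'⟩ := sym_facts hn hα' hs'
  -- the row vectors
  have hC : ∀ j : Fin (m0 + 1), (v ᵥ* cm (Jm (m0 + 1) (QP α))) j = -PowerSeries.coeff (j : ℕ) (tay (CC α)) := fun j =>
    tendsto_nhds_unique (hv ⟨m0, by omega⟩ j rfl) (sing_lim α h0 ⟨m0, by omega⟩ j rfl)
  have hC' : ∀ j : Fin (m0 + 1), (v' ᵥ* cm (Jm (m0 + 1) (QP α'))) j = -PowerSeries.coeff (j : ℕ) (tay (CC α')) := fun j =>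
    tendsto_nhds_unique (hv' ⟨m0, by omega⟩ j rfl) (sing_lim α' h0' ⟨m0, by omega⟩ j rfl)
  have k1 := key_cong hQ.even hQ.sym hC
  have k2 := key_cong hQ'.even hQ'.sym hC'
  set p := pS (v ᵥ* cm (Jm (m0 + 1) (QP α))) with hp
  set p' := pS (v' ᵥ* cm (Jm (m0 + 1) (QP α'))) with hp'
  -- the coefficients of the invariants
  have k3 : PowerSeries.X ^ (m0 + 1) ∣ p * vS v - PowerSeries.C σ * (p' * vS v') := by
    rw [xdvd_iff]
    intro j hj
    rw [PowerSeries.coeff_C_mul]
    have e1 : m0 + 1 - 1 - (m0 - j) = j := by omega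
    have c1 := claim2 (v ᵥ* cm (Jm (m0 + 1) (QP α))) v (k := m0 - j) (by omega)
    have c2 := claim2 (v' ᵥ* cm (Jm (m0 + 1) (QP α'))) v' (k := m0 - j) (by omega)
    rw [e1] at c1 c2
    rw [← c1, ← c2, ← om_eq, ← om_eq]
    have d1 := psi_coeff (cm (Am (m0 + 1))) (cm (Jm (m0 + 1) (QP α))) v ⟨m0 - j, by omega⟩
    have d2 := psi_coeff (cm (Am (m0 + 1))) (cm (Jm (m0 + 1) (QP α'))) v' ⟨m0 - j, by omega⟩
    have d3 : P.coeff (m0 - j) = (Polynomial.C σ * P').coeff (m0 - j) := by rw [← hPσ]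
    rw [Polynomial.coeff_C_mul] at d3
    have d1' : P.coeff (m0 - j) = _ := d1
    have d2' : P'.coeff (m0 - j) = _ := d2
    rw [d1', d2'] at d3
    have hf : (((m0 - j).factorial : ℕ) : ℂ) ≠ 0 := by exact_mod_cast (m0 - j).factorial_ne_zero
    simp only at d3
    field_simp at d3
    exact d3
  refine chi_cls (chi_eq hQ.even hα hα' hs hs' h0 h0' hev hev' hσ ?_)
  have e : tay (CC α) * PowerSeries.rescale (-1) (tay (CC α)) * qS (QP α') -
      PowerSeries.C σ * (tay (CC α') * PowerSeries.rescale (-1) (tay (CC α')) * qS (QP α)) =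
      (p * vS v * qS (QP α) - -(tay (CC α) * PowerSeries.rescale (-1) (tay (CC α)))) * qS (QP α') -
      (p' * vS v' * qS (QP α') - -(tay (CC α') * PowerSeries.rescale (-1) (tay (CC α')))) * (PowerSeries.C σ * qS (QP α)) -
      (p * vS v - PowerSeries.C σ * (p' * vS v')) * (qS (QP α) * qS (QP α')) := by ring
  rw [e]
  exact dvd_sub (dvd_sub (Dvd.dvd.mul_right k1 _) (Dvd.dvd.mul_right k2 _)) (Dvd.dvd.mul_right k3 _)

end Pool.Agent.L0h14.HO
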