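import Mathlib
import Pool.Agent.L0h14.HO.PsiD
import Pool.Agent.Y119.J.Gen

/-!
# Tuples of fibres of general systems
-/

set_option autoImplicit false

open PowerSeries Pool.Agent.Y120.GF Pool.Agent.Y120.GH
open Pool.Agent.Y113 hiding ix Bm

namespace Pool.Agent.L0h14.HO

open Pool.Agent.Y119.HY (cm Ep E Ep_eval E_neg Hf Yf Vr Rel Gal E_add E_zero E_mul_neg)
open Pool.Agent.Y119.HZ (ix Ix Vx Jx MV MV.add MV.sum MV.mul_rat fo mem_Ext_one MV.ext Vn Vn_fin MV_mono pw dg evq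
  PR ev_PR spec_eq cf fam_gen gsysL)

/-- the complexified coefficients -/
noncomputable def Hcc {n : ℕ} (H : Matrix (Fin n) (Fin n) ℚ⟦X⟧) (k : ℕ) : Matrix (Fin n) (Fin n) ℂ := cm (cf H k)

/-- systems with the properties which are used -/
structure SY (n : ℕ) (N : Matrix (Fin n) (Fin n) ℚ) (H : Matrix (Fin n) (Fin n) ℚ⟦X⟧)
    (G : Submonoid (Matrix (Fin n) (Fin n) ℂ)) : Prop where
  nil : N ^ n = 0
  int : ∃ Nz : Fin n → Fin n → ℤ, ∀ i j, (Nz i j : ℚ) = N i j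
  ode : ∃ (T₁ : Polynomial ℤ) (A : Fin n → Fin n → Polynomial ℤ), T₁ ≠ 0 ∧
    ∀ i j, ps T₁ * (X * d⁄dX ℚ (H i j) + ∑ k, H i k * C (N k j)) = ∑ k, ps (A i k) * H k j
  h0 : ∀ i j, coeff 0 (H i j) = if i = j then 1 else 0
  sdc : ∀ i j, SDc (H i j)
  wex : ∃ W : Matrix (Fin n) (Fin n) ℚ⟦X⟧, H * W = 1 ∧ ∀ i j, SDc (W i j)
  cv : ∀ t : ℝ, 1 < t → ∀ i j, Cv t (H i j)
  unip : ∀ s : ℂ, E (cm N) s ∈ G
  inv : ∀ g ∈ G, g ∈ Gal (Yf (cm N) (Hcc H))

section one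

variable {n : ℕ} {N : Matrix (Fin n) (Fin n) ℚ} {H : Matrix (Fin n) (Fin n) ℚ⟦X⟧} {G : Submonoid (Matrix (Fin n) (Fin n) ℂ)}

/-- the entries -/
noncomputable def hh (H : Matrix (Fin n) (Fin n) ℚ⟦X⟧) (a : Fin (n * n)) : ℚ⟦X⟧ := H (ix n a).1 (ix n a).2

lemma cmN_nil (h : N ^ n = 0) : cm N ^ n = 0 := by
  rw [← Pool.Agent.Y119.HY.cm_pow, h, Pool.Agent.Y119.HY.cm_zero]

lemma ev_H (H : Matrix (Fin n) (Fin n) ℚ⟦X⟧) (t : ℝ) (i j : Fin n) :
    ((ev t (H i j) : ℝ) : ℂ) = Hf (Hcc H) (((1 / t : ℝ)) : ℂ) i j := by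
  unfold ev Pool.Agent.Y119.HY.Hf Pool.Agent.Y119.HY.ps Hcc
  rw [Complex.ofReal_tsum, Matrix.of_apply]
  refine tsum_congr fun m => ?_
  show _ = ((coeff m (H i j) : ℚ) : ℂ) * (((1 / t : ℝ)) : ℂ) ^ m
  push_cast
  rfl

lemma ev_aevalG (hcv : ∀ t : ℝ, 1 < t → ∀ i j, Cv t (H i j)) {t : ℝ} (ht : 1 < t)
    (R : MvPolynomial (Fin (n * n)) (Polynomial ℚ)) :
    Cv t (MvPolynomial.aeval (hh H) R) ∧ ((ev t (MvPolynomial.aeval (hh H) R) : ℝ) : ℂ) =
      MvPolynomial.eval₂ (evq (((1 / t : ℝ)) : ℂ)) (fun j => ((ev t (hh H j) : ℝ) : ℂ)) R := by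
  have ht0 : 0 < t := by linarith
  induction R using MvPolynomial.induction_on with
  | C p =>
    have h1 : MvPolynomial.aeval (hh H) (MvPolynomial.C p) = (p : ℚ⟦X⟧) := by
      rw [MvPolynomial.aeval_C, PowerSeries.algebraMap_apply']
      simp
    rw [h1, MvPolynomial.eval₂_C]
    refine ⟨Cv.coe p, ?_⟩
    rw [ev_coe]
    unfold evq
    have h2 : (((1 / t : ℝ)) : ℂ) = algebraMap ℝ ℂ (1 / t) := rfl
    rw [h2]
    show _ = Polynomial.aeval (algebraMap ℝ ℂ (1 / t)) p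
    rw [Polynomial.aeval_algebraMap_apply]
    rfl
  | add p q hp hq =>
    rw [map_add, MvPolynomial.eval₂_add, ← hp.2, ← hq.2, Cv.ev_add ht0 hp.1 hq.1]
    refine ⟨Cv.add ht0 hp.1 hq.1, ?_⟩
    push_cast
    rfl
  | mul_X p j hp =>
    have h1 : Cv t (hh H j) := hcv t ht _ _
    rw [map_mul, MvPolynomial.aeval_X, MvPolynomial.eval₂_mul, MvPolynomial.eval₂_X, ← hp.2, Cv.ev_mul ht0 hp.1 h1]
    refine ⟨Cv.mul ht0 hp.1 h1, ?_⟩
    push_cast
    rfl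

/-- **invariance of the relations between the entries of the holomorphic part** -/
theorem rel_invG (hS : SY n N H G) {R : MvPolynomial (Fin (n * n)) (Polynomial ℚ)} (hR : MvPolynomial.aeval (hh H) R = 0)
    {x : ℝ} (hx : 0 < x) (hx1 : x < 1) {κ : Matrix (Fin n) (Fin n) ℂ} (hκ : κ ∈ G) :
    MvPolynomial.eval₂ (evq (x : ℂ)) (fun j => (Hf (Hcc H) (x : ℂ) * κ) (ix n j).1 (ix n j).2) R = 0 := by
  have hN : cm N ^ n = 0 := cmN_nil hS.nil
  -- the relation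
  have hrel : PR (cm N) R ∈ Rel (Yf (cm N) (Hcc H)) := by
    intro y hy hy1
    rw [ev_PR]
    have e1 : Yf (cm N) (Hcc H) (y : ℂ) * E (cm N) (-Complex.log y) = Hf (Hcc H) (y : ℂ) := by
      unfold Yf
      rw [Matrix.mul_assoc, E_mul_neg hN, mul_one]
    rw [e1]
    have hy' : 1 < 1 / y := by rw [lt_div_iff₀ hy]; linarith
    have h1 := (ev_aevalG hS.cv hy' R).2
    rw [hR] at h1
    have h2 : ev (1 / y) (0 : ℚ⟦X⟧) = 0 := by
      unfold ev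
      simp
    rw [h2, Complex.ofReal_zero, one_div_one_div] at h1
    have h3 : (fun j => ((ev (1 / y) (hh H j) : ℝ) : ℂ)) = fun j => Hf (Hcc H) (y : ℂ) (ix n j).1 (ix n j).2 := by
      funext j
      unfold hh
      rw [ev_H, one_div_one_div]
    rw [h3] at h1
    exact h1.symm
  set L : ℂ := Complex.log x with hL
  set g : Matrix (Fin n) (Fin n) ℂ := E (cm N) (-L) * κ * E (cm N) L with hg
  have hgG : g ∈ G := G.mul_mem (G.mul_mem (hS.unip _) hκ) (hS.unip _)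
  have h1 := hS.inv g hgG _ hrel x hx hx1
  rw [ev_PR] at h1
  have e2 : Yf (cm N) (Hcc H) (x : ℂ) * g * E (cm N) (-L) = Hf (Hcc H) (x : ℂ) * κ := by
    unfold Yf
    have e3 : E (cm N) L * E (cm N) (-L) = 1 := E_mul_neg hN L
    calc Hf (Hcc H) (x : ℂ) * E (cm N) (Complex.log x) * g * E (cm N) (-L) =
          Hf (Hcc H) (x : ℂ) * (E (cm N) L * E (cm N) (-L)) * κ * (E (cm N) L * E (cm N) (-L)) := by
            rw [hg]
            simp only [Matrix.mul_assoc]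
            rfl
      _ = _ := by rw [e3, mul_one, mul_one]
  rw [← hL, e2] at h1
  exact h1

/-- the solution at `1 / t` -/
noncomputable def Yg (N : Matrix (Fin n) (Fin n) ℚ) (H : Matrix (Fin n) (Fin n) ℚ⟦X⟧) (t : ℕ) : Matrix (Fin n) (Fin n) ℂ :=
  Hf (Hcc H) (((1 / (t : ℝ) : ℝ)) : ℂ) * E (cm N) (-((Real.log t : ℝ) : ℂ))

end one

section sub

variable {k : ℕ} {n : Fin k → ℕ} (N : ∀ i, Matrix (Fin (n i)) (Fin (n i)) ℚ)

/-- the rational coefficients of `exp (- N L)` -/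
noncomputable def qeN {n : ℕ} (N : Matrix (Fin n) (Fin n) ℚ) (l : ℕ) (c d : Fin n) : ℚ :=
  (-1) ^ l / (l.factorial : ℚ) * (N ^ l) c d

lemma E_qeN {n : ℕ} (N : Matrix (Fin n) (Fin n) ℚ) (L : ℂ) (c d : Fin n) :
    E (cm N) (-L) c d = ∑ l ∈ Finset.range n, ((qeN N l c d : ℚ) : ℂ) * L ^ l := by
  unfold E
  rw [Matrix.sum_apply]
  refine Finset.sum_congr rfl fun l _ => ?_
  rw [Matrix.smul_apply, ← Pool.Agent.Y119.HY.cm_pow, Pool.Agent.Y119.HY.cm_apply, smul_eq_mul, neg_pow]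
  unfold qeN
  push_cast
  ring

/-- the part with rational coefficients -/
noncomputable def rpN (i : Fin k) (a c d : Fin (n i)) : MvPolynomial (Vx n) ℚ :=
  MvPolynomial.X ⟨i, some ((ix (n i)).symm (a, c))⟩ *
    ∑ l ∈ Finset.range (n i), MvPolynomial.C (qeN (N i) l c d) * MvPolynomial.X ⟨i, none⟩ ^ l

/-- the substitution -/
noncomputable def suN (Ω : ∀ i, Matrix (Fin (n i)) (Fin (n i)) ℂ) (v : Ix n) : MvPolynomial (Vx n) ℂ :=
  ∑ c, ∑ d, MvPolynomial.map (algebraMap ℚ ℂ) (rpN N v.1 v.2.1 c d) * MvPolynomial.C (Ω v.1 d v.2.2)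

lemma aeval_rpN (Z : ∀ i, Matrix (Fin (n i)) (Fin (n i)) ℂ) (l : Fin k → ℂ) (i : Fin k) (a c d : Fin (n i)) :
    MvPolynomial.aeval (pt (fun i j => Z i (ix (n i) j).1 (ix (n i) j).2) l)
      (MvPolynomial.map (algebraMap ℚ ℂ) (rpN N i a c d)) = Z i a c * E (cm (N i)) (-l i) c d := by
  unfold rpN
  rw [map_mul, map_mul, MvPolynomial.map_X, MvPolynomial.aeval_X, map_sum, map_sum, E_qeN]
  congr 1
  · unfold pt
    simp
  · refine Finset.sum_congr rfl fun e _ => ?_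
    rw [map_mul, map_mul, map_pow, map_pow, MvPolynomial.map_X, MvPolynomial.aeval_X, MvPolynomial.map_C, MvPolynomial.aeval_C]
    rfl

lemma aeval_suN (Ω : ∀ i, Matrix (Fin (n i)) (Fin (n i)) ℂ) (Z : ∀ i, Matrix (Fin (n i)) (Fin (n i)) ℂ) (l : Fin k → ℂ)
    (v : Ix n) : MvPolynomial.aeval (pt (fun i j => Z i (ix (n i) j).1 (ix (n i) j).2) l) (suN N Ω v) =
      (Z v.1 * E (cm (N v.1)) (-l v.1) * Ω v.1) v.2.1 v.2.2 := by
  unfold suN
  rw [map_sum, Matrix.mul_apply]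
  simp only [map_sum, map_mul, aeval_rpN, Matrix.mul_apply, Finset.sum_mul]
  rw [Finset.sum_comm]
  refine Finset.sum_congr rfl fun d _ => Finset.sum_congr rfl fun c _ => ?_
  rw [MvPolynomial.aeval_C]
  rfl

lemma deg_suN (Ω : ∀ i, Matrix (Fin (n i)) (Fin (n i)) ℂ) (v : Ix n) : (suN N Ω v).totalDegree ≤ dg n := by
  unfold suN
  refine (MvPolynomial.totalDegree_finsetSum _ _).trans (Finset.sup_le fun c _ => ?_)
  refine (MvPolynomial.totalDegree_finsetSum _ _).trans (Finset.sup_le fun d _ => ?_)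
  refine (MvPolynomial.totalDegree_mul _ _).trans ?_
  rw [MvPolynomial.totalDegree_C, add_zero]
  have h0 : (MvPolynomial.map (algebraMap ℚ ℂ) (rpN N v.1 v.2.1 c d)).totalDegree ≤ (rpN N v.1 v.2.1 c d).totalDegree :=
    Finset.sup_mono (MvPolynomial.support_map_subset _ _)
  refine h0.trans ?_
  unfold rpN
  refine (MvPolynomial.totalDegree_mul _ _).trans ?_
  rw [MvPolynomial.totalDegree_X]
  have h1 : n v.1 ≤ ∑ i, n i := Finset.single_le_sum (f := n) (fun _ _ => Nat.zero_le _) (Finset.mem_univ _)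
  have h2 : (∑ l ∈ Finset.range (n v.1), MvPolynomial.C (qeN (N v.1) l c d) *
      (MvPolynomial.X ⟨v.1, none⟩ : MvPolynomial (Vx n) ℚ) ^ l).totalDegree ≤ n v.1 := by
    refine (MvPolynomial.totalDegree_finsetSum _ _).trans (Finset.sup_le fun l hl => ?_)
    refine (MvPolynomial.totalDegree_mul _ _).trans ?_
    rw [MvPolynomial.totalDegree_C, zero_add, MvPolynomial.totalDegree_X_pow]
    exact (Finset.mem_range.1 hl).le
  unfold dg
  omega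

/-- the substitution -/
noncomputable def suN' (Ω : ∀ i, Matrix (Fin (n i)) (Fin (n i)) ℂ) : Jx n → MvPolynomial (Vx n) ℂ
  | ⟨i, none⟩ => MvPolynomial.X ⟨i, none⟩
  | ⟨i, some p⟩ => suN N Ω ⟨i, p⟩

lemma aeval_suN' (Ω : ∀ i, Matrix (Fin (n i)) (Fin (n i)) ℂ) (Z : ∀ i, Matrix (Fin (n i)) (Fin (n i)) ℂ) (l : Fin k → ℂ)
    (v : Jx n) : MvPolynomial.aeval (pt (fun i j => Z i (ix (n i) j).1 (ix (n i) j).2) l) (suN' N Ω v) =
      pw l (fun i => Z i * E (cm (N i)) (-l i) * Ω i) v := by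
  obtain ⟨i, _ | p⟩ := v
  · show MvPolynomial.aeval _ (MvPolynomial.X _) = _
    rw [MvPolynomial.aeval_X]
    rfl
  · exact aeval_suN N Ω Z l ⟨i, p⟩

lemma deg_suN' (Ω : ∀ i, Matrix (Fin (n i)) (Fin (n i)) ℂ) (v : Jx n) : (suN' N Ω v).totalDegree ≤ dg n := by
  obtain ⟨i, _ | p⟩ := v
  · show (MvPolynomial.X _ : MvPolynomial (Vx n) ℂ).totalDegree ≤ _
    rw [MvPolynomial.totalDegree_X]
    unfold dg
    omega
  · exact deg_suN N Ω ⟨i, p⟩

lemma MV_mul_suN {V : Submodule ℚ ℂ} (Ω : ∀ i, Matrix (Fin (n i)) (Fin (n i)) ℂ) {p : MvPolynomial (Vx n) ℂ} (hp : MV V p)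
    (v : Ix n) : MV (Ext V (fo Ω)) (p * suN N Ω v) := by
  unfold suN
  rw [Finset.mul_sum]
  refine MV.sum _ fun c _ => ?_
  rw [Finset.mul_sum]
  refine MV.sum _ fun d _ => ?_
  rw [← mul_assoc]
  intro m
  rw [mul_comm, MvPolynomial.coeff_C_mul, mul_comm]
  exact mem_Ext_one Ω (some ⟨v.1, d, v.2.2⟩) (hp.mul_rat _ m)

lemma MV_mul_suN' {V : Submodule ℚ ℂ} (Ω : ∀ i, Matrix (Fin (n i)) (Fin (n i)) ℂ) {p : MvPolynomial (Vx n) ℂ} (hp : MV V p)
    (v : Jx n) : MV (Ext V (fo Ω)) (p * suN' N Ω v) := by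
  obtain ⟨i, _ | q⟩ := v
  · have h1 := MV.ext Ω (hp.mul_rat (MvPolynomial.X ⟨i, none⟩))
    rwa [MvPolynomial.map_X] at h1
  · exact MV_mul_suN N Ω hp ⟨i, q⟩

lemma MV_msN (Ω : ∀ i, Matrix (Fin (n i)) (Fin (n i)) ℂ) {V : Submodule ℚ ℂ} {c : ℂ} (hc : c ∈ V) (ms : Multiset (Jx n)) :
    MV (Vn Ω V (Multiset.card ms)) (MvPolynomial.C c * (ms.map (suN' N Ω)).prod) ∧
      (MvPolynomial.C c * (ms.map (suN' N Ω)).prod).totalDegree ≤ Multiset.card ms * dg n := by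
  classical
  induction ms using Multiset.induction_on with
  | empty =>
    rw [Multiset.map_zero, Multiset.prod_zero, mul_one, Multiset.card_zero, zero_mul, MvPolynomial.totalDegree_C]
    refine ⟨fun m => ?_, le_rfl⟩
    rw [MvPolynomial.coeff_C]
    split_ifs
    · exact hc
    · exact V.zero_mem
  | cons v ms ih =>
    have h1 : MvPolynomial.C c * ((v ::ₘ ms).map (suN' N Ω)).prod = (MvPolynomial.C c * (ms.map (suN' N Ω)).prod) * suN' N Ω v := by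
      rw [Multiset.map_cons, Multiset.prod_cons]
      ring
    rw [h1, Multiset.card_cons]
    refine ⟨MV_mul_suN' N Ω ih.1 v, (MvPolynomial.totalDegree_mul _ _).trans ?_⟩
    rw [add_mul, one_mul]
    exact add_le_add ih.2 (deg_suN' N Ω v)

/-- the substituted polynomial -/
theorem aeval_MVN (Ω : ∀ i, Matrix (Fin (n i)) (Fin (n i)) ℂ) {V : Submodule ℚ ℂ} {δ : ℕ} {P : MvPolynomial (Jx n) ℂ}
    (hP : P.totalDegree ≤ δ) (hV : ∀ s, P.coeff s ∈ V) :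
    MV (Vn Ω V δ) (MvPolynomial.aeval (suN' N Ω) P) ∧ (MvPolynomial.aeval (suN' N Ω) P).totalDegree ≤ δ * dg n := by
  classical
  have h1 : MvPolynomial.aeval (suN' N Ω) P = ∑ s ∈ P.support, MvPolynomial.C (P.coeff s) *
      ((Finsupp.toMultiset s).map (suN' N Ω)).prod := by
    rw [MvPolynomial.aeval_def, MvPolynomial.eval₂_eq]
    refine Finset.sum_congr rfl fun s _ => ?_
    congr 1
    rw [Finsupp.toMultiset_map, Finsupp.prod_toMultiset, Finsupp.prod_mapDomain_index (by simp) (by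
      intro a b c
      rw [pow_add])]
    rfl
  have h2 : ∀ s ∈ P.support, Multiset.card (Finsupp.toMultiset s) ≤ δ := by
    intro s hs
    rw [Finsupp.card_toMultiset]
    exact (MvPolynomial.le_totalDegree hs).trans hP
  rw [h1]
  refine ⟨MV.sum _ fun s hs => MV_mono Ω (h2 s hs) (MV_msN N Ω (hV s) _).1, ?_⟩
  refine (MvPolynomial.totalDegree_finsetSum _ _).trans (Finset.sup_le fun s hs => ?_)
  exact (MV_msN N Ω (hV s) _).2.trans (Nat.mul_le_mul_right _ (h2 s hs))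

end sub

variable {k : ℕ} {n : Fin k → ℕ} {N : ∀ i, Matrix (Fin (n i)) (Fin (n i)) ℚ} {H : ∀ i, Matrix (Fin (n i)) (Fin (n i)) ℚ⟦X⟧}
  {G : ∀ i, Submonoid (Matrix (Fin (n i)) (Fin (n i)) ℂ)}

theorem relI_vanishG (hS : ∀ i, SY (n i) (N i) (H i) (G i)) {δ : ℕ} {t : Fin k → ℕ} (ht : ∀ i, 2 ≤ t i)
    {κ : ∀ i, Matrix (Fin (n i)) (Fin (n i)) ℂ} (hκ : ∀ i, κ i ∈ G i) (l : Fin k → ℂ)
    {P : MvPolynomial (Vx n) ℂ} (hP : P ∈ relI δ (fun i => hh (H i)) t) :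
    MvPolynomial.aeval (pt (fun i j => (Hf (Hcc (H i)) (((1 / (t i : ℝ) : ℝ)) : ℂ) * κ i) (ix (n i) j).1 (ix (n i) j).2) l) P = 0 := by
  set θ := pt (fun i j => (Hf (Hcc (H i)) (((1 / (t i : ℝ) : ℝ)) : ℂ) * κ i) (ix (n i) j).1 (ix (n i) j).2) l with hθ
  have h1 : relI δ (fun i => hh (H i)) t ≤ RingHom.ker (MvPolynomial.aeval (R := ℂ) θ).toRingHom := by
    unfold relI
    rw [Ideal.span_le]
    rintro _ ⟨i, R, -, hR, rfl⟩
    show (MvPolynomial.aeval θ) (MvPolynomial.rename (fun j => (⟨i, some j⟩ : Vx n)) (MvPolynomial.map (spec (t i)) R)) = 0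
    rw [MvPolynomial.aeval_rename, MvPolynomial.aeval_def, MvPolynomial.eval₂_map]
    have h2 : (algebraMap ℂ ℂ).comp (spec (t i)) = evq (((1 / (t i : ℝ) : ℝ)) : ℂ) := by
      rw [← spec_eq]
      rfl
    rw [h2]
    have h3 : (2 : ℝ) ≤ t i := by exact_mod_cast ht i
    have h4 := rel_invG (hS i) (R := R) hR (x := 1 / (t i : ℝ)) (by positivity) (by rw [div_lt_one (by linarith)]; linarith)
      (hκ i)
    have h5 : (θ ∘ fun j => (⟨i, some j⟩ : Vx n)) = fun j : Fin (n i * n i) =>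
        (Hf (Hcc (H i)) (((1 / (t i : ℝ) : ℝ)) : ℂ) * κ i) (ix (n i) j).1 (ix (n i) j).2 := by
      funext j
      rfl
    rw [h5]
    exact h4
  exact h1 hP

/-- **Few exceptional tuples.** -/
theorem tuplesG (k δ D : ℕ) (n : Fin k → ℕ) (N : ∀ i, Matrix (Fin (n i)) (Fin (n i)) ℚ)
    (H : ∀ i, Matrix (Fin (n i)) (Fin (n i)) ℚ⟦X⟧)
    (G : ∀ i, Submonoid (Matrix (Fin (n i)) (Fin (n i)) ℂ)) (hS : ∀ i, SY (n i) (N i) (H i) (G i)) :
    ∃ c C : ℝ, 0 < c ∧ 0 ≤ C ∧ ∀ (V : Submodule ℚ ℂ) [Module.Finite ℚ V], Module.finrank ℚ V ≤ D →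
      ∀ Ω : (∀ i, Matrix (Fin (n i)) (Fin (n i)) ℂ), ∀ (x : Fin k → ℕ) (B : ℕ), (∀ i, 1 ≤ x i) → 1 ≤ B →
      ∀ S : Finset (Fin k → ℕ), (∀ t ∈ S, (∀ i, x i < t i ∧ t i ≤ x i + B) ∧ ∃ P : MvPolynomial (Jx n) ℂ,
        P.totalDegree ≤ δ ∧ (∀ s, P.coeff s ∈ V) ∧
        MvPolynomial.aeval (pw (fun i => ((Real.log (t i) : ℝ) : ℂ)) fun i => Yg (N i) (H i) (t i) * Ω i) P = 0 ∧
        ∃ (l : Fin k → ℂ) (g : ∀ i, Matrix (Fin (n i)) (Fin (n i)) ℂ), (∀ i, g i ∈ G i) ∧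
          MvPolynomial.aeval (pw l fun i => Yg (N i) (H i) (t i) * g i * Ω i) P ≠ 0) →
      (S.card : ℝ) ≤ C * (B : ℝ) ^ (k - 1) * ∑ i, (1 + B / ((x i : ℝ) + B) ^ c) := by
  classical
  have hfam : ∀ i, Pool.Agent.Y120.R.Fam (δ * dg n) (hh (H i)) := by
    intro i
    obtain ⟨Nz, hNz⟩ := (hS i).int
    obtain ⟨T₁, A, hT, hode⟩ := (hS i).ode
    obtain ⟨W, hW1, hW2⟩ := (hS i).wex
    exact fam_gen (hS i).nil hNz hT hW1 (hS i).h0 hode (hS i).sdc hW2 _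
  obtain ⟨c, C, hc, hC, hmain⟩ := tuples k (δ * dg n) ((Fintype.card (Option (Ix n))) ^ δ * D) (fun i => n i * n i)
    (fun i => hh (H i)) (fun i => (hfam i).1) (fun i => (hfam i).2)
  refine ⟨c, C, hc, hC, ?_⟩
  intro V _ hV Ω x B hx hB S hSS
  obtain ⟨hfin, hrank⟩ := Vn_fin Ω V δ
  refine hmain (Vn Ω V δ) (hrank.trans (Nat.mul_le_mul_left _ hV)) x B hB S fun t htS => ?_
  obtain ⟨hbox, P, hPd, hPV, hP0, l, g, hg, hPg⟩ := hSS t htS
  refine ⟨hbox, MvPolynomial.aeval (suN' N Ω) P, (aeval_MVN N Ω hPd hPV).2, (aeval_MVN N Ω hPd hPV).1, ?_, ?_⟩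
  · -- the value
    have h1 : valpt (fun i => hh (H i)) t =
        pt (fun i j => Hf (Hcc (H i)) (((1 / (t i : ℝ) : ℝ)) : ℂ) (ix (n i) j).1 (ix (n i) j).2)
          (fun i => ((Real.log (t i) : ℝ) : ℂ)) := by
      unfold valpt
      congr 1
      funext i j
      exact ev_H _ _ _ _
    have h2 : MvPolynomial.aeval (valpt (fun i => hh (H i)) t) (MvPolynomial.aeval (suN' N Ω) P) =
        MvPolynomial.aeval (fun v => MvPolynomial.aeval (valpt (fun i => hh (H i)) t) (suN' N Ω v)) P :=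
      MvPolynomial.aeval_bind₁ _ _ _
    rw [h2, h1]
    have h3 := fun v => aeval_suN' N Ω (fun i => Hf (Hcc (H i)) (((1 / (t i : ℝ) : ℝ)) : ℂ)) (fun i => ((Real.log (t i) : ℝ) : ℂ)) v
    simp only [h3]
    exact hP0
  · intro hmem
    apply hPg
    have ht2 : ∀ i, 2 ≤ t i := fun i => by
      have := (hbox i).1
      have := hx i
      omega
    have hN : ∀ i, (cm (N i)) ^ n i = 0 := fun i => cmN_nil (hS i).nil
    let κ : ∀ i, Matrix (Fin (n i)) (Fin (n i)) ℂ := fun i => E (cm (N i)) (-((Real.log (t i) : ℝ) : ℂ)) * g i * E (cm (N i)) (l i)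
    have hκ : ∀ i, κ i ∈ G i := fun i => (G i).mul_mem ((G i).mul_mem ((hS i).unip _) (hg i)) ((hS i).unip _)
    have h1 := relI_vanishG hS ht2 hκ l hmem
    have h2 : MvPolynomial.aeval (pt (fun i j => (Hf (Hcc (H i)) (((1 / (t i : ℝ) : ℝ)) : ℂ) * κ i)
        (ix (n i) j).1 (ix (n i) j).2) l) (MvPolynomial.aeval (suN' N Ω) P) =
        MvPolynomial.aeval (fun v => MvPolynomial.aeval (pt (fun i j => (Hf (Hcc (H i)) (((1 / (t i : ℝ) : ℝ)) : ℂ) * κ i)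
          (ix (n i) j).1 (ix (n i) j).2) l) (suN' N Ω v)) P := MvPolynomial.aeval_bind₁ _ _ _
    rw [h2] at h1
    have h3 := fun v => aeval_suN' N Ω (fun i => Hf (Hcc (H i)) (((1 / (t i : ℝ) : ℝ)) : ℂ) * κ i) l v
    simp only [h3] at h1
    have h4 : (fun i => Hf (Hcc (H i)) (((1 / (t i : ℝ) : ℝ)) : ℂ) * κ i * E (cm (N i)) (-l i) * Ω i) =
        fun i => Yg (N i) (H i) (t i) * g i * Ω i := by
      funext i
      have e1 : E (cm (N i)) (l i) * E (cm (N i)) (-l i) = 1 := E_mul_neg (hN i) (l i)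
      calc Hf (Hcc (H i)) (((1 / (t i : ℝ) : ℝ)) : ℂ) * κ i * E (cm (N i)) (-l i) * Ω i =
          Hf (Hcc (H i)) (((1 / (t i : ℝ) : ℝ)) : ℂ) * E (cm (N i)) (-((Real.log (t i) : ℝ) : ℂ)) * g i *
            (E (cm (N i)) (l i) * E (cm (N i)) (-l i)) * Ω i := by
            show Hf (Hcc (H i)) (((1 / (t i : ℝ) : ℝ)) : ℂ) *
              (E (cm (N i)) (-((Real.log (t i) : ℝ) : ℂ)) * g i * E (cm (N i)) (l i)) * E (cm (N i)) (-l i) * Ω i = _
            simp only [Matrix.mul_assoc]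
        _ = _ := by rw [e1, mul_one]; rfl
    rw [h4] at h1
    exact h1

end Pool.Agent.L0h14.HO
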