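import Mathlib
import Pool.Agent.L0h14.HO.SY

/-!
# Several hypergeometric systems as one system
-/

set_option autoImplicit false

open PowerSeries Matrix Pool.Agent.Y120.GF Pool.Agent.Y120.GH
open Pool.Agent.Y113 hiding ix Bm

namespace Pool.Agent.L0h14.HO

open Pool.Agent.Y119.HY (cm E Hf Hc Hq Yf Gal Am Jm tv Sol conj_E)
open Pool.Agent.Y119.HZ (cf km th Hp T1 A1 exists_b)

section blocks

variable {q : ℕ} {n : Fin q → ℕ}

lemma bd_all {R : Type*} [Zero R] {p : R → Prop} (h0 : p 0) {M : ∀ i, Matrix (Fin (n i)) (Fin (n i)) R}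
    (h : ∀ i a b, p (M i a b)) (x y : Fin (tot n)) : p (bd M x y) := by
  obtain ⟨⟨i, a⟩, rfl⟩ := (ei n).surjective x
  obtain ⟨⟨j, b⟩, rfl⟩ := (ei n).surjective y
  by_cases hij : i = j
  · subst hij
    rw [bd_same]
    exact h i a b
  · rw [bd_ne _ hij]
    exact h0

/-- the products of the groups -/
noncomputable def bG (G : ∀ i, Submonoid (Matrix (Fin (n i)) (Fin (n i)) ℂ)) : Submonoid (Matrix (Fin (tot n)) (Fin (tot n)) ℂ) where
  carrier := {X | ∃ g : ∀ i, Matrix (Fin (n i)) (Fin (n i)) ℂ, (∀ i, g i ∈ G i) ∧ X = bd g}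
  mul_mem' := by
    rintro _ _ ⟨g, hg, rfl⟩ ⟨h, hh, rfl⟩
    exact ⟨fun i => g i * h i, fun i => (G i).mul_mem (hg i) (hh i), (bd_mul g h).symm⟩
  one_mem' := ⟨fun _ => 1, fun i => (G i).one_mem, bd_one.symm⟩

lemma bd_cm (M : ∀ i, Matrix (Fin (n i)) (Fin (n i)) ℚ) : cm (bd M) = bd fun i => cm (M i) :=
  bd_map (fun x : ℚ => algebraMap ℚ ℂ x) (map_zero _) M

lemma bd_cf (H : ∀ i, Matrix (Fin (n i)) (Fin (n i)) ℚ⟦X⟧) (k : ℕ) : cf (bd H) k = bd fun i => cf (H i) k :=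
  bd_map (fun x : ℚ⟦X⟧ => coeff k x) (map_zero _) H

lemma bd_km (M : ∀ i, Matrix (Fin (n i)) (Fin (n i)) ℚ) : km (bd M) = bd fun i => km (M i) :=
  bd_map (fun x : ℚ => C (R := ℚ) x) (map_zero _) M

lemma bd_th (H : ∀ i, Matrix (Fin (n i)) (Fin (n i)) ℚ⟦X⟧) : th (bd H) = bd fun i => th (H i) :=
  bd_map (fun x : ℚ⟦X⟧ => X * d⁄dX ℚ x) (by simp) H

/-- the matrix form of the integral equation -/
lemma ode_iff {m : ℕ} {N : Matrix (Fin m) (Fin m) ℚ} {H : Matrix (Fin m) (Fin m) ℚ⟦X⟧} {T₁ : Polynomial ℤ}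
    {A : Matrix (Fin m) (Fin m) (Polynomial ℤ)} :
    (∀ i j, ps T₁ * (X * d⁄dX ℚ (H i j) + ∑ k, H i k * C (N k j)) = ∑ k, ps (A i k) * H k j) ↔
      ps T₁ • (th H + H * km N) = A.map ps * H := by
  constructor
  · intro h
    ext1 i j
    rw [Matrix.smul_apply, Matrix.add_apply, Matrix.mul_apply, Matrix.mul_apply, smul_eq_mul]
    exact h i j
  · intro h i j
    have := congrFun (congrFun h i) j
    rw [Matrix.smul_apply, Matrix.add_apply, Matrix.mul_apply, Matrix.mul_apply, smul_eq_mul] at this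
    exact this

lemma bd_ode {N : ∀ i, Matrix (Fin (n i)) (Fin (n i)) ℚ} {H : ∀ i, Matrix (Fin (n i)) (Fin (n i)) ℚ⟦X⟧}
    (h : ∀ i, ∃ (T₁ : Polynomial ℤ) (A : Matrix (Fin (n i)) (Fin (n i)) (Polynomial ℤ)), T₁ ≠ 0 ∧
      ps T₁ • (th (H i) + H i * km (N i)) = A.map ps * H i) :
    ∃ (T₁ : Polynomial ℤ) (A : Matrix (Fin (tot n)) (Fin (tot n)) (Polynomial ℤ)), T₁ ≠ 0 ∧
      ps T₁ • (th (bd H) + bd H * km (bd N)) = A.map ps * bd H := by
  classical
  choose T A hT hA using h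
  refine ⟨∏ i, T i, bd fun i => (∏ j ∈ Finset.univ.erase i, T j) • A i, Finset.prod_ne_zero_iff.2 fun i _ => hT i, ?_⟩
  have hps : ∀ f g : Polynomial ℤ, ps (f * g) = ps f * ps g := by
    intro f g
    rw [← Pool.Agent.Y119.HZ.psR_apply, ← Pool.Agent.Y119.HZ.psR_apply, ← Pool.Agent.Y119.HZ.psR_apply, map_mul]
  have hps0 : ps 0 = 0 := by
    rw [← Pool.Agent.Y119.HZ.psR_apply, map_zero]
  rw [bd_th, bd_km, ← bd_mul, ← bd_add, ← bd_smul, bd_map ps hps0, ← bd_mul]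
  congr 1
  funext i
  have h1 : ∏ j, T j = (∏ j ∈ Finset.univ.erase i, T j) * T i := (Finset.prod_erase_mul _ _ (Finset.mem_univ i)).symm
  rw [h1, hps, mul_smul, hA]
  ext1 a b
  rw [Matrix.smul_apply, Matrix.mul_apply, Matrix.mul_apply, smul_eq_mul, Finset.mul_sum]
  refine Finset.sum_congr rfl fun c _ => ?_
  rw [Matrix.map_apply, Matrix.map_apply, Matrix.smul_apply, smul_eq_mul, hps]
  ring

end blocks

/-- the data of a family -/
structure FD (n : ℕ) (α : Fin n → ℚ) (G : Submonoid (Matrix (Fin n) (Fin n) ℂ)) (d : ℕ) : Prop where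
  hm : HM n (QP α) G
  sym : d = 0 → 2 ≤ n ∧ (∀ j, ∀ a : ℤ, α j ≠ a) ∧ (QP α).comp (-Polynomial.X) = QP α ∧ G = isoM (cm (Jm n (QP α)))
  fin : d ≠ 0 → ∃ T : ℤ → Matrix (Fin n) (Fin n) ℂ, LD (Yf (cm (Am n)) (Hc n (QP α))) T ∧ FB n (cm (Am n)) T G d

lemma Hcc_Hp {n : ℕ} (Q : Polynomial ℚ) : Hcc (Hp n Q) = Hc n Q := by
  funext k
  unfold Hcc
  rw [Pool.Agent.Y119.HZ.cf_Hp]
  rfl

/-- **Several families as one system** -/
theorem SY_joint {q : ℕ} {n : Fin q → ℕ} {α : ∀ j, Fin (n j) → ℚ} {G : ∀ j, Submonoid (Matrix (Fin (n j)) (Fin (n j)) ℂ)}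
    {d : Fin q → ℕ} (hF : ∀ j, FD (n j) (α j) (G j) (d j))
    (hsep : ∀ i j, i ≠ j → d i = 0 → d j = 0 → cls (α i) ≠ cls (α j))
    (hcop : ∀ i j, i ≠ j → d i ≠ 0 → d j ≠ 0 → (d i).Coprime (d j)) :
    SY (tot n) (bd fun j => Am (n j)) (bd fun j => Hp (n j) (QP (α j))) (bG G) := by
  classical
  have hAn : ∀ j, cm (Am (n j)) ^ n j = 0 := fun j => Pool.Agent.Y119.HY.Ac_nil
  have hHcc : Hcc (bd fun j => Hp (n j) (QP (α j))) = fun k => bd fun j => Hc (n j) (QP (α j)) k := by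
    funext k
    unfold Hcc
    rw [bd_cf, bd_cm]
    congr 1
    funext j
    rw [← Hcc_Hp]
    rfl
  refine
    { nil := ?_
      int := ?_
      ode := ?_
      h0 := ?_
      sdc := bd_all ?_ fun j => (hF j).hm.sdc
      wex := ?_
      cv := fun t ht => bd_all ?_ fun j => Cv_Hp (hF j).hm.qg ht
      unip := fun s => ?_
      inv := ?_ }
  · have h1 : cm (bd fun j => Am (n j)) ^ tot n = 0 := by
      rw [bd_cm]
      exact bd_nil hAn
    rw [← Pool.Agent.Y119.HY.cm_pow] at h1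
    exact Pool.Agent.Y119.HZ.cm_inj (h1.trans Pool.Agent.Y119.HY.cm_zero.symm)
  · refine ⟨fun i j => (bd fun j => (Matrix.of fun a b : Fin (n j) => if (b : ℕ) = a + 1 then (1 : ℤ) else 0)) i j, fun i j => ?_⟩
    have h1 := bd_map (fun x : ℤ => (x : ℚ)) (by simp)
      (fun j => (Matrix.of fun a b : Fin (n j) => if (b : ℕ) = a + 1 then (1 : ℤ) else 0))
    have h2 := congrFun (congrFun h1 i) j
    rw [Matrix.map_apply] at h2
    rw [h2]
    congr 1
    congr 1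
    funext j
    ext a b
    unfold Am
    rw [Matrix.map_apply, Matrix.of_apply, Matrix.of_apply]
    split_ifs <;> simp
  · obtain ⟨T₁, A, hT, hA⟩ := bd_ode (N := fun j => Am (n j)) (H := fun j => Hp (n j) (QP (α j))) fun j => by
      obtain ⟨D, b, hD, hb⟩ := exists_b (n j) (QP (α j))
      refine ⟨T1 D, Matrix.of (A1 (n j) D b), ?_, ode_iff.1 (ode_int (hF j).hm.qg hb)⟩
      refine mul_ne_zero (Polynomial.C_ne_zero.2 (by exact_mod_cast hD)) ?_
      intro h0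
      have := congrArg (Polynomial.eval 0) h0
      simp at this
    exact ⟨T₁, A, hT, ode_iff.2 hA⟩
  · have h1 : cf (bd fun j => Hp (n j) (QP (α j))) 0 = 1 := by
      rw [bd_cf, ← bd_one]
      congr 1
      funext j
      rw [Pool.Agent.Y119.HZ.cf_Hp, Pool.Agent.Y119.HY.Hq_zero]
    intro i j
    have h2 := congrFun (congrFun h1 i) j
    rw [Matrix.one_apply] at h2
    exact h2
  · have := Pool.Agent.Y119.HZ.SDc_C 0
    rwa [map_zero] at this
  · choose W hW1 hW2 using fun j => (hF j).hm.wex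
    refine ⟨bd W, ?_, bd_all ?_ hW2⟩
    · rw [← bd_mul, ← bd_one]
      congr 1
      funext j
      exact hW1 j
    · have := Pool.Agent.Y119.HZ.SDc_C 0
      rwa [map_zero] at this
  · have := Cv.coe (t := t) (0 : Polynomial ℚ)
    rwa [Polynomial.coe_zero] at this
  · refine ⟨fun j => E (cm (Am (n j))) s, fun j => (hF j).hm.unip s, ?_⟩
    rw [bd_cm, bd_E hAn]
  · rintro _ ⟨g, hg, rfl⟩
    rw [bd_cm, hHcc]
    have hdat : ∀ j, ∃ (T : ℤ → Matrix (Fin (n j)) (Fin (n j)) ℂ) (v : Fin (n j) → ℂ),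
        LD (Yf (cm (Am (n j))) (Hc (n j) (QP (α j)))) T ∧
        (d j = 0 → SB (n j) (cm (Am (n j))) T (cm (Jm (n j) (QP (α j)))) v ∧
          ∀ a b : Fin (n j), (a : ℕ) + 1 = n j → Filter.Tendsto (fun x : ℝ => Hf (Hc (n j) (QP (α j))) (x : ℂ) a b *
            (Complex.log (1 - (x : ℂ)))⁻¹) (nhdsWithin 1 (Set.Iio 1)) (nhds ((v ᵥ* cm (Jm (n j) (QP (α j)))) b))) ∧
        (d j ≠ 0 → FB (n j) (cm (Am (n j))) T (G j) (d j)) := by
      intro j
      by_cases hj : d j = 0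
      · obtain ⟨h2, hα, hs, -⟩ := (hF j).sym hj
        obtain ⟨v, h3, h4, h5⟩ := famS (QD_QP h2 hα hs)
        exact ⟨_, v, h3, fun _ => ⟨h4, h5⟩, fun h => absurd hj h⟩
      · obtain ⟨T, h3, h4⟩ := (hF j).fin hj
        exact ⟨T, 0, h3, fun h => absurd h hj, fun _ => h4⟩
    choose T v hLD hS hFB using hdat
    have hbig := LD.bd hLD
    have hYf : (fun z => bd fun j => Yf (cm (Am (n j))) (Hc (n j) (QP (α j))) z) =
        Yf (bd fun j => cm (Am (n j))) (fun k => bd fun j => Hc (n j) (QP (α j)) k) := by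
      funext z
      rw [bd_Yf hAn]
    rw [hYf] at hbig
    have hsol : Sol (bd fun j => cm (Am (n j))) (bd fun j => cm (Pool.Agent.Y119.HY.Bm (n j) (QP (α j))))
        (fun k => bd fun j => Hc (n j) (QP (α j)) k) := bd_Sol fun j => HO.sol_c (hF j).hm.qg
    refine joint (A := fun j => cm (Am (n j))) (T := T) (G := G) (d := d) (J := fun j => cm (Jm (n j) (QP (α j)))) (v := v)
      hAn (fun j hj => ⟨(hS j hj).1, ((hF j).sym hj).2.2.2⟩) hFB ?_ hcop (Gal_Z _)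
      (fun c g hg => conj_E (bd_nil hAn) hsol c g hg) (fun r => hbig.mem r) hg
    intro i j hij hi hj
    obtain ⟨h2, hα, hs, -⟩ := (hF i).sym hi
    obtain ⟨h2', hα', hs', -⟩ := (hF j).sym hj
    exact psi_sep h2 h2' hα hα' hs hs' (hsep i j hij hi hj) (hS i hi).1 (hS j hj).1 (hS i hi).2 (hS j hj).2

end Pool.Agent.L0h14.HO
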