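import Mathlib
import Pool.Agent.L0h14.HO.SYB

/-!
# The transcendence degree of the holomorphic part of a general system
-/

set_option autoImplicit false

open Matrix Filter Topology

namespace Pool.Agent.L0h14.HO

open Pool.Agent.Y119.HY (HD Hf cm)
open Pool.Agent.Y119.HZ (ix evq)

section lie

variable {q : ℕ} {n : Fin q → ℕ} {G : ∀ i, Submonoid (Matrix (Fin (n i)) (Fin (n i)) ℂ)}

/-- the elements of the Lie algebra of a factor -/
lemma lie_bG (j : Fin q) {X : Matrix (Fin (n j)) (Fin (n j)) ℂ}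
    (hX : X ∈ Lie ((G j : Submonoid _) : Set (Matrix (Fin (n j)) (Fin (n j)) ℂ))) :
    bd (Function.update (fun i => (0 : Matrix (Fin (n i)) (Fin (n i)) ℂ)) j X) ∈
      Lie ((bG G : Submonoid _) : Set (Matrix (Fin (tot n)) (Fin (tot n)) ℂ)) := by
  classical
  rintro p hp _ ⟨g, hg, rfl⟩
  -- the restricted polynomial
  set f : Fin (tot n) × Fin (tot n) → MvPolynomial (Fin (n j) × Fin (n j)) ℂ := fun xy =>
    bd (Function.update (fun i => (g i).map (fun c => (MvPolynomial.C c : MvPolynomial (Fin (n j) × Fin (n j)) ℂ))) j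
      (Matrix.of fun a b => MvPolynomial.X (a, b))) xy.1 xy.2 with hf
  set p' : MvPolynomial (Fin (n j) × Fin (n j)) ℂ := MvPolynomial.bind₁ f p with hp'
  have hev : ∀ h : Matrix (Fin (n j)) (Fin (n j)) ℂ, pe p' h = pe p (bd (Function.update g j h)) := by
    intro h
    unfold pe
    rw [hp', ← MvPolynomial.coe_aeval_eq_eval, ← MvPolynomial.coe_aeval_eq_eval, RingHom.coe_coe, RingHom.coe_coe,
      MvPolynomial.aeval_bind₁]
    congr 1
    congr 1
    funext xy
    rw [hf]
    simp only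
    have h1 := bd_map (fun P : MvPolynomial (Fin (n j) × Fin (n j)) ℂ => (MvPolynomial.aeval fun x : Fin (n j) × Fin (n j) => h x.1 x.2) P)
      (map_zero _) (Function.update (fun i => (g i).map (fun c => (MvPolynomial.C c : MvPolynomial (Fin (n j) × Fin (n j)) ℂ))) j
      (Matrix.of fun a b => MvPolynomial.X (a, b)))
    have h2 := congrFun (congrFun h1 xy.1) xy.2
    rw [Matrix.map_apply] at h2
    rw [h2]
    congr 1
    congr 1
    funext i
    by_cases hi : i = j
    · subst hi
      rw [Function.update_self, Function.update_self]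
      ext a b
      rw [Matrix.map_apply, Matrix.of_apply, MvPolynomial.aeval_X]
    · rw [Function.update_of_ne hi, Function.update_of_ne hi]
      ext a b
      rw [Matrix.map_apply, Matrix.map_apply, MvPolynomial.aeval_C]
      rfl
  have hI : p' ∈ Id ((G j : Submonoid _) : Set (Matrix (Fin (n j)) (Fin (n j)) ℂ)) := by
    intro h hh
    rw [hev]
    refine hp _ ⟨Function.update g j h, fun i => ?_, rfl⟩
    by_cases hi : i = j
    · subst hi
      rw [Function.update_self]
      exact hh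
    · rw [Function.update_of_ne hi]
      exact hg i
  have h3 := hX p' hI (g j) (hg j)
  have hc1 : HD (fun t : ℂ => g j + t • (g j * X)) (g j * X) 0 := by
    intro a b
    have : HasDerivAt (fun t : ℂ => g j a b + t * (g j * X) a b) (0 + 1 * (g j * X) a b) 0 :=
      (hasDerivAt_const _ _).add ((hasDerivAt_id _).mul_const _)
    simpa using this
  have h4 := pe_HD p' hc1
  simp only [zero_smul, add_zero] at h4
  rw [h3] at h4
  set U := bd (Function.update (fun i => (0 : Matrix (Fin (n i)) (Fin (n i)) ℂ)) j X) with hU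
  have hc2 : HD (fun t : ℂ => bd g + t • (bd g * U)) (bd g * U) 0 := by
    intro a b
    have : HasDerivAt (fun t : ℂ => bd g a b + t * (bd g * U) a b) (0 + 1 * (bd g * U) a b) 0 :=
      (hasDerivAt_const _ _).add ((hasDerivAt_id _).mul_const _)
    simpa using this
  have h5 := pe_HD p hc2
  simp only [zero_smul, add_zero] at h5
  refine h5.unique (h4.congr_of_eventuallyEq (Eventually.of_forall fun t => ?_))
  simp only
  rw [hev]
  congr 1
  rw [hU, ← bd_mul, ← bd_smul, ← bd_add]
  congr 1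
  funext i
  by_cases hi : i = j
  · subst hi
    rw [Function.update_self, Function.update_self]
  · rw [Function.update_of_ne hi, Function.update_of_ne hi, mul_zero, smul_zero, add_zero]

/-- the dimension of a product -/
theorem HasDim.bG {d : Fin q → ℕ} (h : ∀ j, HasDim (G j) (d j)) : HasDim (HO.bG G) (∑ j, d j) := by
  classical
  choose X hX hL using h
  refine HasDim.of (I := Σ j : Fin q, Fin (d j)) (by simp) (X := fun a => bd (Function.update
    (fun i => (0 : Matrix (Fin (n i)) (Fin (n i)) ℂ)) a.1 (X a.1 a.2))) (fun a => lie_bG a.1 (hX a.1 a.2)) ?_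
  rw [Fintype.linearIndependent_iff]
  rintro g hg ⟨j, b⟩
  have h1 := Fintype.linearIndependent_iff.1 (hL j) (fun b => g ⟨j, b⟩) ?_ b
  · exact h1
  · ext x y
    have h2 := congrFun (congrFun hg (ei n ⟨j, x⟩)) (ei n ⟨j, y⟩)
    rw [Matrix.sum_apply, Fintype.sum_sigma, Finset.sum_eq_single j] at h2
    · rw [Matrix.sum_apply]
      refine Eq.trans (Finset.sum_congr rfl fun c _ => ?_) h2
      rw [Matrix.smul_apply, Matrix.smul_apply, bd_same, Function.update_self]
    · intro i _ hi
      refine Finset.sum_eq_zero fun c _ => ?_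
      rw [Matrix.smul_apply, bd_same, Function.update_of_ne (Ne.symm hi), Matrix.zero_apply, smul_zero]
    · intro h
      exact absurd (Finset.mem_univ _) h

end lie

variable {n : ℕ} {N : Matrix (Fin n) (Fin n) ℚ} {H : Matrix (Fin n) (Fin n) (PowerSeries ℚ)}
  {G : Submonoid (Matrix (Fin n) (Fin n) ℂ)}

open Pool.Agent.Y120.GF Pool.Agent.Y120.GH in
open Pool.Agent.Y113 hiding ix Bm in
lemma Hcc_cont (hS : SY n N H G) (i j : Fin n) : ContinuousAt (fun y : ℝ => Hf (Hcc H) (y : ℂ) i j) 0 := by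
  have hcv := hS.cv 2 (by norm_num) i j
  unfold Cv at hcv
  have h1 : ContinuousOn (fun z : ℂ => Hf (Hcc H) z i j) (Metric.closedBall 0 (1 / 2)) := by
    unfold Pool.Agent.Y119.HY.Hf Pool.Agent.Y119.HY.ps
    simp only [Matrix.of_apply]
    refine continuousOn_tsum (fun m => by fun_prop) hcv fun m z hz => ?_
    rw [mem_closedBall_zero_iff] at hz
    rw [norm_mul, norm_pow]
    refine mul_le_mul (le_of_eq ?_) (pow_le_pow_left₀ (norm_nonneg _) hz _) (by positivity) (by positivity)
    show ‖((PowerSeries.coeff m (H i j) : ℚ) : ℂ)‖ = _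
    have h2 : ((PowerSeries.coeff m (H i j) : ℚ) : ℂ) = (((PowerSeries.coeff m (H i j) : ℚ) : ℝ) : ℂ) := by push_cast; rfl
    rw [h2, Complex.norm_real, Real.norm_eq_abs]
  have h2 : ContinuousAt (fun z : ℂ => Hf (Hcc H) z i j) ((0 : ℝ) : ℂ) := by
    rw [Complex.ofReal_zero]
    exact h1.continuousAt (Metric.closedBall_mem_nhds _ (by norm_num))
  exact h2.comp (Complex.continuous_ofReal.continuousAt)

lemma Hcc_zero (hS : SY n N H G) : Hf (Hcc H) 0 = 1 := by
  ext i j
  show Pool.Agent.Y119.HY.ps (fun k => Hcc H k i j) 0 = _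
  rw [Pool.Agent.Y119.HY.ps_zero]
  show ((PowerSeries.coeff 0 (H i j) : ℚ) : ℂ) = _
  rw [hS.h0, Matrix.one_apply]
  split_ifs <;> simp

open Pool.Agent.Y120.GF Pool.Agent.Y120.GH in
open Pool.Agent.Y113 hiding ix Bm in
/-- **The entries of the holomorphic part contain as many algebraically independent ones as the dimension of the group.** -/
theorem alg_indepG (hS : SY n N H G) {I : Type} [Fintype I] [DecidableEq I]
    {X : I → Matrix (Fin n) (Fin n) ℂ} (hX : ∀ a, X a ∈ Lie (G : Set (Matrix (Fin n) (Fin n) ℂ)))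
    (hLI : LinearIndependent ℂ X) :
    ∃ τ : I → Fin n × Fin n, AlgebraicIndependent (Polynomial ℚ) (fun b => H (τ b).1 (τ b).2) := by
  classical
  have hLI' : LinearIndependent ℂ (fun a (p : Fin n × Fin n) => X a p.1 p.2) := by
    rw [Fintype.linearIndependent_iff] at hLI ⊢
    intro g hg
    refine hLI g ?_
    ext i j
    have h1 := congrFun hg (i, j)
    rw [Finset.sum_apply] at h1
    rw [Matrix.sum_apply]
    exact h1
  obtain ⟨τ, hτ⟩ := coords hLI'
  refine ⟨τ, ?_⟩
  rw [algebraicIndependent_iff]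
  intro R hR
  by_contra hne
  obtain ⟨s, hs⟩ := MvPolynomial.ne_zero_iff.1 hne
  have hdc : ContinuousAt (fun y : ℝ => (Matrix.of fun a b => (Hf (Hcc H) (y : ℂ) * X a) (τ b).1 (τ b).2).det) 0 := by
    simp only [Matrix.det_apply]
    refine tendsto_finsetSum _ fun σ _ => ?_
    refine Tendsto.const_smul ?_ _
    refine tendsto_finsetProd _ fun i _ => ?_
    simp only [Matrix.of_apply, Matrix.mul_apply]
    refine tendsto_finsetSum _ fun l _ => ?_
    exact (Hcc_cont hS _ _).tendsto.mul_const _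
  have hd0 : (Matrix.of fun a b => (Hf (Hcc H) ((0 : ℝ) : ℂ) * X a) (τ b).1 (τ b).2).det ≠ 0 := by
    rw [Complex.ofReal_zero, Hcc_zero hS]
    simp only [one_mul]
    exact hτ
  have hev1 : ∀ᶠ y : ℝ in 𝓝[>] 0, (Matrix.of fun a b => (Hf (Hcc H) (y : ℂ) * X a) (τ b).1 (τ b).2).det ≠ 0 :=
    (hdc.tendsto.mono_left nhdsWithin_le_nhds).eventually (isOpen_ne.mem_nhds hd0)
  have hev2 : ∀ᶠ y : ℝ in 𝓝[>] 0, evq (y : ℂ) (MvPolynomial.coeff s R) ≠ 0 := by
    set c := MvPolynomial.coeff s R with hc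
    have h2 : {y : ℝ | evq (y : ℂ) c = 0}.Finite := by
      have h3 : {y : ℝ | evq (y : ℂ) c = 0} ⊆ (fun y : ℝ => (y : ℂ)) ⁻¹' (c.aroots ℂ).toFinset := by
        intro y hy
        have hy' : Polynomial.aeval (y : ℂ) c = 0 := hy
        simp only [Set.mem_preimage, Finset.mem_coe, Multiset.mem_toFinset]
        rw [Polynomial.mem_aroots]
        exact ⟨hs, hy'⟩
      refine (Set.Finite.preimage ?_ (Finset.finite_toSet _)).subset h3
      exact Complex.ofReal_injective.injOn
    have h4 : ({y : ℝ | evq (y : ℂ) c = 0} \ {0}).Finite := h2.subset Set.sdiff_subset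
    have h5 : ({y : ℝ | evq (y : ℂ) c = 0} \ {0})ᶜ ∈ 𝓝 (0 : ℝ) := h4.isClosed.isOpen_compl.mem_nhds (by simp)
    filter_upwards [mem_nhdsWithin_of_mem_nhds h5, self_mem_nhdsWithin] with y hy1 hy2 hy3
    exact hy1 ⟨hy3, (ne_of_gt hy2)⟩
  obtain ⟨x, hx, hx1, hx2, hx3⟩ : ∃ x : ℝ, 0 < x ∧ x < 1 ∧
      (Matrix.of fun a b => (Hf (Hcc H) (x : ℂ) * X a) (τ b).1 (τ b).2).det ≠ 0 ∧ evq (x : ℂ) (MvPolynomial.coeff s R) ≠ 0 := by
    have h6 : ∀ᶠ y : ℝ in 𝓝[>] 0, y ∈ Set.Ioo (0 : ℝ) 1 := Ioo_mem_nhdsGT (show (0 : ℝ) < 1 by norm_num)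
    obtain ⟨x, h1, h2, h3⟩ := ((h6.and (hev1.and hev2))).exists
    exact ⟨x, h1.1, h1.2, h2, h3⟩
  -- the relation at `x`
  set R' : MvPolynomial (Fin (n * n)) (Polynomial ℚ) := MvPolynomial.rename (fun b => (ix n).symm (τ b)) R with hR'
  have h1 : MvPolynomial.aeval (hh H) R' = 0 := by
    rw [hR', MvPolynomial.aeval_rename]
    have e : (hh H ∘ fun b => (ix n).symm (τ b)) = fun b => H (τ b).1 (τ b).2 := by
      funext b
      simp only [Function.comp_apply]
      unfold hh
      rw [Equiv.apply_symm_apply]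
    rw [e]
    exact hR
  have h2 : MvPolynomial.map (evq (x : ℂ)) R = 0 := by
    refine vanish hX τ (Hf (Hcc H) (x : ℂ)) hx2 _ fun κ hκ => ?_
    have h3 := rel_invG hS h1 hx hx1 hκ
    rw [hR', MvPolynomial.eval₂_rename] at h3
    rw [MvPolynomial.eval_map]
    have e : ((fun j => (Hf (Hcc H) (x : ℂ) * κ) (ix n j).1 (ix n j).2) ∘ fun b => (ix n).symm (τ b)) =
        fun b => (Hf (Hcc H) (x : ℂ) * κ) (τ b).1 (τ b).2 := by
      funext b
      simp only [Function.comp_apply, Equiv.apply_symm_apply]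
    rw [e] at h3
    exact h3
  have h3 := congrArg (MvPolynomial.coeff s) h2
  rw [MvPolynomial.coeff_map, MvPolynomial.coeff_zero] at h3
  exact hx3 h3

end Pool.Agent.L0h14.HO
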