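import Mathlib
import Pool.Agent.L0h14.HO.SYRank
import Pool.Agent.Results.MP_cbf1af_ag.AllTuplesDegenerating

/-!
# All tuples of fibres of a general system
-/

set_option autoImplicit false

open PowerSeries Module Pool.Agent.Y113

namespace Pool.Agent.L0h14.HO

open Pool.Agent.Y119.HY (cm E Hf)
open Pool.Agent.Results.MP_cbf1af_ag.AllTuplesDegenerating (toQ GCond val periods rank)

variable {n : ℕ} {N : Matrix (Fin n) (Fin n) ℚ} {H : Matrix (Fin n) (Fin n) ℚ⟦X⟧} {G' : Submonoid (Matrix (Fin n) (Fin n) ℂ)}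

lemma Nt_map {Nt : Matrix (Fin n) (Fin n) ℤ} (h : ∀ i j, ((Nt i j : ℤ) : ℚ) = N j i) :
    Nt.map (Int.castRingHom ℂ) = (cm N).transpose := by
  ext i j
  rw [Matrix.map_apply, Matrix.transpose_apply, Pool.Agent.Y119.HY.cm_apply, ← h]
  simp

lemma Nt_nil {Nt : Matrix (Fin n) (Fin n) ℤ} (h : ∀ i j, ((Nt i j : ℤ) : ℚ) = N j i) (hN : N ^ n = 0) : Nt ^ n = 0 := by
  have h1 : (Nt.map (Int.castRingHom ℂ)) ^ n = 0 := by
    rw [Nt_map h, ← Matrix.transpose_pow, cmN_nil hN, Matrix.transpose_zero]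
  have h2 : (RingHom.mapMatrix (Int.castRingHom ℂ)) (Nt ^ n) = 0 := by
    rw [map_pow]
    exact h1
  ext i j
  have h3 := congrFun (congrFun h2 i) j
  rw [RingHom.mapMatrix_apply, Matrix.map_apply, Matrix.zero_apply] at h3
  exact (Int.cast_eq_zero (α := ℂ)).1 h3

/-- the rank is at least the dimension of the group -/
theorem rank_geG (hS : SY n N H G') {d : ℕ} (hd : HasDim G' d) : d ≤ rank H.transpose := by
  obtain ⟨X, hX, hLI⟩ := hd
  obtain ⟨τ, hτ⟩ := alg_indepG hS hX hLI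
  refine le_csSup ?_ ⟨fun i => ((τ i).2, (τ i).1), hτ⟩
  refine ⟨Fintype.card (Fin n × Fin n), ?_⟩
  rintro d' ⟨T, hT⟩
  have h1 : Function.Injective T := by
    intro i j hij
    exact hT.injective (by
      show H.transpose (T i).1 (T i).2 = H.transpose (T j).1 (T j).2
      rw [hij])
  simpa using Fintype.card_le_of_injective T h1

lemma exp_eqG {Nt : Matrix (Fin n) (Fin n) ℤ} (h : ∀ i j, ((Nt i j : ℤ) : ℚ) = N j i) (hN : N ^ n = 0) (s : ℂ) :
    IsNilpotent.exp (s • Nt.map (Int.castRingHom ℂ)) = (E (cm N) s).transpose := by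
  rw [Nt_map h]
  have h0 : (s • (cm N).transpose) ^ n = 0 := by
    rw [smul_pow, ← Matrix.transpose_pow, cmN_nil hN, Matrix.transpose_zero, smul_zero]
  rw [IsNilpotent.exp_eq_sum h0]
  unfold E
  rw [Matrix.transpose_sum]
  refine Finset.sum_congr rfl fun l _ => ?_
  rw [smul_pow, ← Matrix.transpose_pow, Matrix.transpose_smul]
  ext i j
  rw [Matrix.smul_apply, Matrix.smul_apply, Matrix.smul_apply, smul_eq_mul, smul_eq_mul, Rat.smul_def]
  push_cast
  ring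

lemma val_eqG (H : Matrix (Fin n) (Fin n) ℚ⟦X⟧) (m : ℕ) :
    val H.transpose m = (Hf (Hcc H) (((1 / (m : ℝ) : ℝ)) : ℂ)).transpose := by
  ext i j
  rw [Matrix.transpose_apply, ← ev_H]
  rfl

lemma periods_eqG {Nt : Matrix (Fin n) (Fin n) ℤ} (h : ∀ i j, ((Nt i j : ℤ) : ℚ) = N j i) (hN : N ^ n = 0)
    (H : Matrix (Fin n) (Fin n) ℚ⟦X⟧) (Ω : Matrix (Fin n) (Fin n) ℂ) (m : ℕ) :
    (periods Ω.transpose Nt H.transpose m).transpose = Yg N H m * Ω := by
  unfold periods Yg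
  rw [exp_eqG h hN, val_eqG, Matrix.transpose_mul, Matrix.transpose_mul, Matrix.transpose_transpose, Matrix.transpose_transpose,
    Matrix.transpose_transpose, Matrix.mul_assoc]

/-- the general theorem for our system -/
theorem all_mainG (hS : SY n N H G') :
    ∃ Nt : Matrix (Fin n) (Fin n) ℤ, (∀ i j, ((Nt i j : ℤ) : ℚ) = N j i) ∧ ∃ G : ℕ, ∀ k δ D : ℕ,
      (∃ (c : ℝ) (M₀ : ℕ), 0 < c ∧ ∀ M : ℕ, M₀ ≤ M → ∀ Ω : Matrix (Fin n) (Fin n) ℂ, IsUnit Ω →
        Pool.Agent.Results.MP_cbf1af_ag.AllTuplesDegenerating.Bound Ω Nt H.transpose G k δ D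
          ((k - 1) * (rank H.transpose + 1)) c M) ∧
      ∀ Ω : Matrix (Fin n) (Fin n) ℂ, IsUnit Ω → ∀ (s : ℕ) (ω : Fin s → ℂ),
        (∀ i j, IsAlgebraic (Algebra.adjoin ℚ (Set.range ω)) (Ω i j)) →
        ∃ (c : ℝ) (M₀ : ℕ), 0 < c ∧ ∀ M : ℕ, M₀ ≤ M →
          Pool.Agent.Results.MP_cbf1af_ag.AllTuplesDegenerating.Bound Ω Nt H.transpose G k δ D
            (k * (rank H.transpose + 1) - (s + 1)) c M := by
  obtain ⟨Nz, hNz⟩ := hS.int
  obtain ⟨T₁, A, hT, hode⟩ := hS.ode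
  obtain ⟨W, hW1, hW2⟩ := hS.wex
  set Nt : Matrix (Fin n) (Fin n) ℤ := Matrix.of fun i j => Nz j i with hNt
  have hc : ∀ i j, ((Nt i j : ℤ) : ℚ) = N j i := fun i j => hNz j i
  refine ⟨Nt, hc, ?_⟩
  refine Pool.Agent.Results.MP_cbf1af_ag.AllTuplesDegenerating.result n T₁ (Matrix.of fun k j => A j k) Nt H.transpose
    W.transpose hT (Nt_nil hc hS.nil) ?_ ?_ ?_ (fun i j => gcond (hS.sdc j i)) (fun i j => gcond (hW2 j i))
  · intro i j
    have h1 := hode j i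
    have h2 : ∑ k, C ((Nt i k : ℤ) : ℚ) * H.transpose k j = ∑ k, H j k * C (N k i) := by
      refine Finset.sum_congr rfl fun k _ => ?_
      rw [hc, mul_comm]
      rfl
    have h3 : ∑ k, H.transpose i k * toQ ((Matrix.of fun k j => A j k) k j) = ∑ k, ps (A j k) * H k i := by
      refine Finset.sum_congr rfl fun k _ => ?_
      rw [mul_comm]
      rfl
    rw [h2, h3, ← h1]
    rfl
  · intro i j
    rw [Matrix.transpose_apply, hS.h0]
    simp only [eq_comm]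
  · rw [← Matrix.transpose_mul, hW1, Matrix.transpose_one]

end Pool.Agent.L0h14.HO
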