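import Mathlib
import Pool.Agent.L0h14.HO.SYAll
import Pool.Agent.L0h14.HO.CGrp

/-!
# Tuples of fibres of general systems, with any radius of convergence
-/

set_option autoImplicit false

open PowerSeries Pool.Agent.Y120.GF Pool.Agent.Y120.GH
open Pool.Agent.Y113 hiding ix Bm

namespace Pool.Agent.L0h14.HO

open Pool.Agent.Y119.HY (cm Ep E Ep_eval E_neg Hf Yf Vr Rel Gal E_add E_zero E_mul_neg)
open Pool.Agent.Y119.HZ (ix Ix Vx Jx MV MV.add MV.sum MV.mul_rat fo mem_Ext_one MV.ext Vn Vn_fin MV_mono pw dg evq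
  PR ev_PR spec_eq cf fam_gen gsysL)

/-- systems with the properties which are used -/
structure SYR (n : ℕ) (N : Matrix (Fin n) (Fin n) ℚ) (H : Matrix (Fin n) (Fin n) ℚ⟦X⟧)
    (G : Submonoid (Matrix (Fin n) (Fin n) ℂ)) (ρ : ℝ) : Prop where
  nil : N ^ n = 0
  int : ∃ Nz : Fin n → Fin n → ℤ, ∀ i j, (Nz i j : ℚ) = N i j
  ode : ∃ (T₁ : Polynomial ℤ) (A : Fin n → Fin n → Polynomial ℤ), T₁ ≠ 0 ∧
    ∀ i j, ps T₁ * (X * d⁄dX ℚ (H i j) + ∑ k, H i k * C (N k j)) = ∑ k, ps (A i k) * H k j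
  h0 : ∀ i j, coeff 0 (H i j) = if i = j then 1 else 0
  sdc : ∀ i j, SDc (H i j)
  wex : ∃ W : Matrix (Fin n) (Fin n) ℚ⟦X⟧, H * W = 1 ∧ ∀ i j, SDc (W i j)
  pos : 0 < ρ
  cv : ∀ t : ℝ, 1 / ρ < t → ∀ i j, Cv t (H i j)
  unip : ∀ s : ℂ, E (cm N) s ∈ G
  inv : ∀ g ∈ G, g ∈ Gal fun z => Yf (cm N) (Hcc H) ((ρ : ℂ) * z)

section one

variable {n : ℕ} {N : Matrix (Fin n) (Fin n) ℚ} {H : Matrix (Fin n) (Fin n) ℚ⟦X⟧} {G : Submonoid (Matrix (Fin n) (Fin n) ℂ)}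
  {ρ : ℝ}

lemma ev_aevalR (hρ : 0 < ρ) (hcv : ∀ t : ℝ, 1 / ρ < t → ∀ i j, Cv t (H i j)) {t : ℝ} (ht : 1 / ρ < t)
    (R : MvPolynomial (Fin (n * n)) (Polynomial ℚ)) :
    Cv t (MvPolynomial.aeval (hh H) R) ∧ ((ev t (MvPolynomial.aeval (hh H) R) : ℝ) : ℂ) =
      MvPolynomial.eval₂ (evq (((1 / t : ℝ)) : ℂ)) (fun j => ((ev t (hh H j) : ℝ) : ℂ)) R := by
  have ht0 : 0 < t := lt_trans (by positivity) ht
  induction R using MvPolynomial.induction_on with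
  | C p =>
    have h1 : MvPolynomial.aeval (hh H) (MvPolynomial.C p) = (p : ℚ⟦X⟧) := by
      rw [MvPolynomial.aeval_C, PowerSeries.algebraMap_apply']
      simp
    rw [h1, MvPolynomial.eval₂_C]
    refine ⟨Cv.coe p, ?_⟩
    rw [ev_coe]
    unfold evq
    have h2 : (((1 / t : ℝ)) : ℂ) = algebraMap ℝ ℂ (1 / t) := rfl
    rw [h2]
    show _ = Polynomial.aeval (algebraMap ℝ ℂ (1 / t)) p
    rw [Polynomial.aeval_algebraMap_apply]
    rfl
  | add p q hp hq =>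
    rw [map_add, MvPolynomial.eval₂_add, ← hp.2, ← hq.2, Cv.ev_add ht0 hp.1 hq.1]
    refine ⟨Cv.add ht0 hp.1 hq.1, ?_⟩
    push_cast
    rfl
  | mul_X p j hp =>
    have h1 : Cv t (hh H j) := hcv t ht _ _
    rw [map_mul, MvPolynomial.aeval_X, MvPolynomial.eval₂_mul, MvPolynomial.eval₂_X, ← hp.2, Cv.ev_mul ht0 hp.1 h1]
    refine ⟨Cv.mul ht0 hp.1 h1, ?_⟩
    push_cast
    rfl

/-- the shifted relation -/
noncomputable def PRs (N : Matrix (Fin n) (Fin n) ℂ) (R : MvPolynomial (Fin (n * n)) (Polynomial ℚ)) (r l : ℂ) :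
    MvPolynomial (Vr n) ℂ :=
  MvPolynomial.bind₁ (fun o : Vr n => o.elim (MvPolynomial.C r * MvPolynomial.X none) fun o =>
    o.elim (MvPolynomial.X (some none) + MvPolynomial.C l) fun x => MvPolynomial.X (some (some x))) (PR N R)

lemma ev_PRs (N : Matrix (Fin n) (Fin n) ℂ) (R : MvPolynomial (Fin (n * n)) (Polynomial ℚ)) (r l z L : ℂ)
    (M : Matrix (Fin n) (Fin n) ℂ) : Pool.Agent.Y119.HY.ev (PRs N R r l) z L M =
      Pool.Agent.Y119.HY.ev (PR N R) (r * z) (L + l) M := by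
  unfold PRs Pool.Agent.Y119.HY.ev
  rw [← MvPolynomial.coe_aeval_eq_eval, ← MvPolynomial.coe_aeval_eq_eval, RingHom.coe_coe, RingHom.coe_coe,
    MvPolynomial.aeval_bind₁]
  congr 1
  congr 1
  funext o
  rcases o with _ | _ | x
  · simp [Pool.Agent.Y119.HY.pt]
  · simp [Pool.Agent.Y119.HY.pt]
  · simp [Pool.Agent.Y119.HY.pt]

/-- **invariance of the relations between the entries of the holomorphic part** -/
theorem rel_invR (hS : SYR n N H G ρ) {R : MvPolynomial (Fin (n * n)) (Polynomial ℚ)} (hR : MvPolynomial.aeval (hh H) R = 0)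
    {x : ℝ} (hx : 0 < x) (hx1 : x < ρ) {κ : Matrix (Fin n) (Fin n) ℂ} (hκ : κ ∈ G) :
    MvPolynomial.eval₂ (evq (x : ℂ)) (fun j => (Hf (Hcc H) (x : ℂ) * κ) (ix n j).1 (ix n j).2) R = 0 := by
  have hN : cm N ^ n = 0 := cmN_nil hS.nil
  have hρ := hS.pos
  have hlog : ∀ y : ℝ, 0 < y → Complex.log ((ρ : ℂ) * (y : ℂ)) = Complex.log y + Complex.log ρ := by
    intro y hy
    rw [← Complex.ofReal_mul, ← Complex.ofReal_log (by positivity), Real.log_mul hρ.ne' hy.ne', Complex.ofReal_add,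
      Complex.ofReal_log hρ.le, Complex.ofReal_log hy.le, add_comm]
  -- the relation
  have hrel : PRs (cm N) R ρ (Complex.log ρ) ∈ Rel fun z => Yf (cm N) (Hcc H) ((ρ : ℂ) * z) := by
    intro y hy hy1
    rw [ev_PRs, ev_PR, ← hlog y hy]
    have e1 : Yf (cm N) (Hcc H) ((ρ : ℂ) * (y : ℂ)) * E (cm N) (-Complex.log ((ρ : ℂ) * (y : ℂ))) =
        Hf (Hcc H) ((ρ : ℂ) * (y : ℂ)) := by
      unfold Yf
      rw [Matrix.mul_assoc, E_mul_neg hN, mul_one]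
    rw [e1]
    have hy' : 1 / ρ < 1 / (ρ * y) := by
      rw [div_lt_div_iff₀ hρ (by positivity)]
      nlinarith
    have h1 := (ev_aevalR hρ hS.cv hy' R).2
    rw [hR] at h1
    have h2 : ev (1 / (ρ * y)) (0 : ℚ⟦X⟧) = 0 := by
      unfold ev
      simp
    rw [h2, Complex.ofReal_zero, one_div_one_div] at h1
    have h3 : (fun j => ((ev (1 / (ρ * y)) (hh H j) : ℝ) : ℂ)) =
        fun j => Hf (Hcc H) ((ρ : ℂ) * (y : ℂ)) (ix n j).1 (ix n j).2 := by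
      funext j
      unfold hh
      rw [ev_H, one_div_one_div]
      push_cast
      rfl
    rw [h3] at h1
    push_cast at h1
    exact h1.symm
  set y : ℝ := x / ρ with hyd
  have hy : 0 < y := by positivity
  have hy1 : y < 1 := by rw [hyd, div_lt_one hρ]; exact hx1
  have hxy : (ρ : ℂ) * (y : ℂ) = (x : ℂ) := by
    rw [← Complex.ofReal_mul, hyd, mul_div_cancel₀ _ hρ.ne']
  set L : ℂ := Complex.log x with hL
  set g : Matrix (Fin n) (Fin n) ℂ := E (cm N) (-L) * κ * E (cm N) L with hg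
  have hgG : g ∈ G := G.mul_mem (G.mul_mem (hS.unip _) hκ) (hS.unip _)
  have h1 := hS.inv g hgG _ hrel y hy hy1
  rw [ev_PRs, ev_PR, ← hlog y hy] at h1
  simp only [hxy] at h1
  have e2 : Yf (cm N) (Hcc H) (x : ℂ) * g * E (cm N) (-L) = Hf (Hcc H) (x : ℂ) * κ := by
    unfold Yf
    have e3 : E (cm N) L * E (cm N) (-L) = 1 := E_mul_neg hN L
    calc Hf (Hcc H) (x : ℂ) * E (cm N) (Complex.log x) * g * E (cm N) (-L) =
          Hf (Hcc H) (x : ℂ) * (E (cm N) L * E (cm N) (-L)) * κ * (E (cm N) L * E (cm N) (-L)) := by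
            rw [hg]
            simp only [Matrix.mul_assoc]
            rfl
      _ = _ := by rw [e3, mul_one, mul_one]
  rw [← hL, e2] at h1
  exact h1

end one

variable {k : ℕ} {n : Fin k → ℕ} {N : ∀ i, Matrix (Fin (n i)) (Fin (n i)) ℚ} {H : ∀ i, Matrix (Fin (n i)) (Fin (n i)) ℚ⟦X⟧}
  {G : ∀ i, Submonoid (Matrix (Fin (n i)) (Fin (n i)) ℂ)} {ρ : Fin k → ℝ}

theorem relI_vanishR (hS : ∀ i, SYR (n i) (N i) (H i) (G i) (ρ i)) {δ : ℕ} {t : Fin k → ℕ} (ht : ∀ i, 1 < ρ i * t i)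
    {κ : ∀ i, Matrix (Fin (n i)) (Fin (n i)) ℂ} (hκ : ∀ i, κ i ∈ G i) (l : Fin k → ℂ)
    {P : MvPolynomial (Vx n) ℂ} (hP : P ∈ relI δ (fun i => hh (H i)) t) :
    MvPolynomial.aeval (pt (fun i j => (Hf (Hcc (H i)) (((1 / (t i : ℝ) : ℝ)) : ℂ) * κ i) (ix (n i) j).1 (ix (n i) j).2) l) P = 0 := by
  set θ := pt (fun i j => (Hf (Hcc (H i)) (((1 / (t i : ℝ) : ℝ)) : ℂ) * κ i) (ix (n i) j).1 (ix (n i) j).2) l with hθ
  have h1 : relI δ (fun i => hh (H i)) t ≤ RingHom.ker (MvPolynomial.aeval (R := ℂ) θ).toRingHom := by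
    unfold relI
    rw [Ideal.span_le]
    rintro _ ⟨i, R, -, hR, rfl⟩
    show (MvPolynomial.aeval θ) (MvPolynomial.rename (fun j => (⟨i, some j⟩ : Vx n)) (MvPolynomial.map (spec (t i)) R)) = 0
    rw [MvPolynomial.aeval_rename, MvPolynomial.aeval_def, MvPolynomial.eval₂_map]
    have h2 : (algebraMap ℂ ℂ).comp (spec (t i)) = evq (((1 / (t i : ℝ) : ℝ)) : ℂ) := by
      rw [← spec_eq]
      rfl
    rw [h2]
    have h0 : (0 : ℝ) < t i := by
      have h1 := ht i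
      have h2 := (hS i).pos
      rcases Nat.eq_zero_or_pos (t i) with h0 | h0
      · rw [h0, Nat.cast_zero, mul_zero] at h1
        linarith
      · exact_mod_cast h0
    have h4 := rel_invR (hS i) (R := R) hR (x := 1 / (t i : ℝ)) (by positivity) (by rw [div_lt_iff₀ h0]; exact ht i)
      (hκ i)
    have h5 : (θ ∘ fun j => (⟨i, some j⟩ : Vx n)) = fun j : Fin (n i * n i) =>
        (Hf (Hcc (H i)) (((1 / (t i : ℝ) : ℝ)) : ℂ) * κ i) (ix (n i) j).1 (ix (n i) j).2 := by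
      funext j
      rfl
    rw [h5]
    exact h4
  exact h1 hP

/-- **Few exceptional tuples.** -/
theorem tuplesR (k δ D : ℕ) (n : Fin k → ℕ) (N : ∀ i, Matrix (Fin (n i)) (Fin (n i)) ℚ)
    (H : ∀ i, Matrix (Fin (n i)) (Fin (n i)) ℚ⟦X⟧)
    (G : ∀ i, Submonoid (Matrix (Fin (n i)) (Fin (n i)) ℂ)) (ρ : Fin k → ℝ) (hS : ∀ i, SYR (n i) (N i) (H i) (G i) (ρ i)) :
    ∃ c C : ℝ, 0 < c ∧ 0 ≤ C ∧ ∀ (V : Submodule ℚ ℂ) [Module.Finite ℚ V], Module.finrank ℚ V ≤ D →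
      ∀ Ω : (∀ i, Matrix (Fin (n i)) (Fin (n i)) ℂ), ∀ (x : Fin k → ℕ) (B : ℕ), (∀ i, 1 ≤ ρ i * x i) → 1 ≤ B →
      ∀ S : Finset (Fin k → ℕ), (∀ t ∈ S, (∀ i, x i < t i ∧ t i ≤ x i + B) ∧ ∃ P : MvPolynomial (Jx n) ℂ,
        P.totalDegree ≤ δ ∧ (∀ s, P.coeff s ∈ V) ∧
        MvPolynomial.aeval (pw (fun i => ((Real.log (t i) : ℝ) : ℂ)) fun i => Yg (N i) (H i) (t i) * Ω i) P = 0 ∧
        ∃ (l : Fin k → ℂ) (g : ∀ i, Matrix (Fin (n i)) (Fin (n i)) ℂ), (∀ i, g i ∈ G i) ∧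
          MvPolynomial.aeval (pw l fun i => Yg (N i) (H i) (t i) * g i * Ω i) P ≠ 0) →
      (S.card : ℝ) ≤ C * (B : ℝ) ^ (k - 1) * ∑ i, (1 + B / ((x i : ℝ) + B) ^ c) := by
  classical
  have hfam : ∀ i, Pool.Agent.Y120.R.Fam (δ * dg n) (hh (H i)) := by
    intro i
    obtain ⟨Nz, hNz⟩ := (hS i).int
    obtain ⟨T₁, A, hT, hode⟩ := (hS i).ode
    obtain ⟨W, hW1, hW2⟩ := (hS i).wex
    exact fam_gen (hS i).nil hNz hT hW1 (hS i).h0 hode (hS i).sdc hW2 _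
  obtain ⟨c, C, hc, hC, hmain⟩ := tuples k (δ * dg n) ((Fintype.card (Option (Ix n))) ^ δ * D) (fun i => n i * n i)
    (fun i => hh (H i)) (fun i => (hfam i).1) (fun i => (hfam i).2)
  refine ⟨c, C, hc, hC, ?_⟩
  intro V _ hV Ω x B hx hB S hSS
  obtain ⟨hfin, hrank⟩ := Vn_fin Ω V δ
  refine hmain (Vn Ω V δ) (hrank.trans (Nat.mul_le_mul_left _ hV)) x B hB S fun t htS => ?_
  obtain ⟨hbox, P, hPd, hPV, hP0, l, g, hg, hPg⟩ := hSS t htS
  refine ⟨hbox, MvPolynomial.aeval (suN' N Ω) P, (aeval_MVN N Ω hPd hPV).2, (aeval_MVN N Ω hPd hPV).1, ?_, ?_⟩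
  · -- the value
    have h1 : valpt (fun i => hh (H i)) t =
        pt (fun i j => Hf (Hcc (H i)) (((1 / (t i : ℝ) : ℝ)) : ℂ) (ix (n i) j).1 (ix (n i) j).2)
          (fun i => ((Real.log (t i) : ℝ) : ℂ)) := by
      unfold valpt
      congr 1
      funext i j
      exact ev_H _ _ _ _
    have h2 : MvPolynomial.aeval (valpt (fun i => hh (H i)) t) (MvPolynomial.aeval (suN' N Ω) P) =
        MvPolynomial.aeval (fun v => MvPolynomial.aeval (valpt (fun i => hh (H i)) t) (suN' N Ω v)) P :=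
      MvPolynomial.aeval_bind₁ _ _ _
    rw [h2, h1]
    have h3 := fun v => aeval_suN' N Ω (fun i => Hf (Hcc (H i)) (((1 / (t i : ℝ) : ℝ)) : ℂ)) (fun i => ((Real.log (t i) : ℝ) : ℂ)) v
    simp only [h3]
    exact hP0
  · intro hmem
    apply hPg
    have ht2 : ∀ i, 1 < ρ i * t i := fun i => by
      have h1 : (x i : ℝ) < t i := by exact_mod_cast (hbox i).1
      have h2 := hx i
      have h3 := (hS i).pos
      nlinarith
    have hN : ∀ i, (cm (N i)) ^ n i = 0 := fun i => cmN_nil (hS i).nil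
    let κ : ∀ i, Matrix (Fin (n i)) (Fin (n i)) ℂ := fun i => E (cm (N i)) (-((Real.log (t i) : ℝ) : ℂ)) * g i * E (cm (N i)) (l i)
    have hκ : ∀ i, κ i ∈ G i := fun i => (G i).mul_mem ((G i).mul_mem ((hS i).unip _) (hg i)) ((hS i).unip _)
    have h1 := relI_vanishR hS ht2 hκ l hmem
    have h2 : MvPolynomial.aeval (pt (fun i j => (Hf (Hcc (H i)) (((1 / (t i : ℝ) : ℝ)) : ℂ) * κ i)
        (ix (n i) j).1 (ix (n i) j).2) l) (MvPolynomial.aeval (suN' N Ω) P) =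
        MvPolynomial.aeval (fun v => MvPolynomial.aeval (pt (fun i j => (Hf (Hcc (H i)) (((1 / (t i : ℝ) : ℝ)) : ℂ) * κ i)
          (ix (n i) j).1 (ix (n i) j).2) l) (suN' N Ω v)) P := MvPolynomial.aeval_bind₁ _ _ _
    rw [h2] at h1
    have h3 := fun v => aeval_suN' N Ω (fun i => Hf (Hcc (H i)) (((1 / (t i : ℝ) : ℝ)) : ℂ) * κ i) l v
    simp only [h3] at h1
    have h4 : (fun i => Hf (Hcc (H i)) (((1 / (t i : ℝ) : ℝ)) : ℂ) * κ i * E (cm (N i)) (-l i) * Ω i) =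
        fun i => Yg (N i) (H i) (t i) * g i * Ω i := by
      funext i
      have e1 : E (cm (N i)) (l i) * E (cm (N i)) (-l i) = 1 := E_mul_neg (hN i) (l i)
      calc Hf (Hcc (H i)) (((1 / (t i : ℝ) : ℝ)) : ℂ) * κ i * E (cm (N i)) (-l i) * Ω i =
          Hf (Hcc (H i)) (((1 / (t i : ℝ) : ℝ)) : ℂ) * E (cm (N i)) (-((Real.log (t i) : ℝ) : ℂ)) * g i *
            (E (cm (N i)) (l i) * E (cm (N i)) (-l i)) * Ω i := by
            show Hf (Hcc (H i)) (((1 / (t i : ℝ) : ℝ)) : ℂ) *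
              (E (cm (N i)) (-((Real.log (t i) : ℝ) : ℂ)) * g i * E (cm (N i)) (l i)) * E (cm (N i)) (-l i) * Ω i = _
            simp only [Matrix.mul_assoc]
        _ = _ := by rw [e1, mul_one]; rfl
    rw [h4] at h1
    exact h1

end Pool.Agent.L0h14.HO
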