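import Mathlib
import Pool.Agent.L0h14.HO.CSys

/-!
# The transcendence degree of the holomorphic part of a general system, and all tuples, with any radius of convergence
-/

set_option autoImplicit false

namespace Pool.Agent.L0h14.HO

section rk

open Matrix Filter Topology

open Pool.Agent.Y119.HY (HD Hf cm)
open Pool.Agent.Y119.HZ (ix evq)

variable {n : ℕ} {N : Matrix (Fin n) (Fin n) ℚ} {H : Matrix (Fin n) (Fin n) (PowerSeries ℚ)}
  {G : Submonoid (Matrix (Fin n) (Fin n) ℂ)} {ρ : ℝ}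

open Pool.Agent.Y120.GF Pool.Agent.Y120.GH in
open Pool.Agent.Y113 hiding ix Bm in
lemma Hcc_contR (hS : SYR n N H G ρ) (i j : Fin n) : ContinuousAt (fun y : ℝ => Hf (Hcc H) (y : ℂ) i j) 0 := by
  have hρ := hS.pos
  have hcv := hS.cv (2 / ρ) (by
    rw [div_lt_div_iff_of_pos_right hρ]
    norm_num) i j
  unfold Cv at hcv
  have h1 : ContinuousOn (fun z : ℂ => Hf (Hcc H) z i j) (Metric.closedBall 0 (1 / (2 / ρ))) := by
    unfold Pool.Agent.Y119.HY.Hf Pool.Agent.Y119.HY.ps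
    simp only [Matrix.of_apply]
    refine continuousOn_tsum (fun m => by fun_prop) hcv fun m z hz => ?_
    rw [mem_closedBall_zero_iff] at hz
    rw [norm_mul, norm_pow]
    refine mul_le_mul (le_of_eq ?_) (pow_le_pow_left₀ (norm_nonneg _) hz _) (by positivity) (by positivity)
    show ‖((PowerSeries.coeff m (H i j) : ℚ) : ℂ)‖ = _
    have h2 : ((PowerSeries.coeff m (H i j) : ℚ) : ℂ) = (((PowerSeries.coeff m (H i j) : ℚ) : ℝ) : ℂ) := by push_cast; rfl
    rw [h2, Complex.norm_real, Real.norm_eq_abs]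
  have h2 : ContinuousAt (fun z : ℂ => Hf (Hcc H) z i j) ((0 : ℝ) : ℂ) := by
    rw [Complex.ofReal_zero]
    exact h1.continuousAt (Metric.closedBall_mem_nhds _ (by positivity))
  exact h2.comp (Complex.continuous_ofReal.continuousAt)

lemma Hcc_zeroR (hS : SYR n N H G ρ) : Hf (Hcc H) 0 = 1 := by
  ext i j
  show Pool.Agent.Y119.HY.ps (fun k => Hcc H k i j) 0 = _
  rw [Pool.Agent.Y119.HY.ps_zero]
  show ((PowerSeries.coeff 0 (H i j) : ℚ) : ℂ) = _
  rw [hS.h0, Matrix.one_apply]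
  split_ifs <;> simp

open Pool.Agent.Y120.GF Pool.Agent.Y120.GH in
open Pool.Agent.Y113 hiding ix Bm in
/-- **The entries of the holomorphic part contain as many algebraically independent ones as the dimension of the group.** -/
theorem alg_indepR (hS : SYR n N H G ρ) {I : Type} [Fintype I] [DecidableEq I]
    {X : I → Matrix (Fin n) (Fin n) ℂ} (hX : ∀ a, X a ∈ Lie (G : Set (Matrix (Fin n) (Fin n) ℂ)))
    (hLI : LinearIndependent ℂ X) :
    ∃ τ : I → Fin n × Fin n, AlgebraicIndependent (Polynomial ℚ) (fun b => H (τ b).1 (τ b).2) := by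
  classical
  have hLI' : LinearIndependent ℂ (fun a (p : Fin n × Fin n) => X a p.1 p.2) := by
    rw [Fintype.linearIndependent_iff] at hLI ⊢
    intro g hg
    refine hLI g ?_
    ext i j
    have h1 := congrFun hg (i, j)
    rw [Finset.sum_apply] at h1
    rw [Matrix.sum_apply]
    exact h1
  obtain ⟨τ, hτ⟩ := coords hLI'
  refine ⟨τ, ?_⟩
  rw [algebraicIndependent_iff]
  intro R hR
  by_contra hne
  obtain ⟨s, hs⟩ := MvPolynomial.ne_zero_iff.1 hne
  have hdc : ContinuousAt (fun y : ℝ => (Matrix.of fun a b => (Hf (Hcc H) (y : ℂ) * X a) (τ b).1 (τ b).2).det) 0 := by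
    simp only [Matrix.det_apply]
    refine tendsto_finsetSum _ fun σ _ => ?_
    refine Tendsto.const_smul ?_ _
    refine tendsto_finsetProd _ fun i _ => ?_
    simp only [Matrix.of_apply, Matrix.mul_apply]
    refine tendsto_finsetSum _ fun l _ => ?_
    exact (Hcc_contR hS _ _).tendsto.mul_const _
  have hd0 : (Matrix.of fun a b => (Hf (Hcc H) ((0 : ℝ) : ℂ) * X a) (τ b).1 (τ b).2).det ≠ 0 := by
    rw [Complex.ofReal_zero, Hcc_zeroR hS]
    simp only [one_mul]
    exact hτ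
  have hev1 : ∀ᶠ y : ℝ in 𝓝[>] 0, (Matrix.of fun a b => (Hf (Hcc H) (y : ℂ) * X a) (τ b).1 (τ b).2).det ≠ 0 :=
    (hdc.tendsto.mono_left nhdsWithin_le_nhds).eventually (isOpen_ne.mem_nhds hd0)
  have hev2 : ∀ᶠ y : ℝ in 𝓝[>] 0, evq (y : ℂ) (MvPolynomial.coeff s R) ≠ 0 := by
    set c := MvPolynomial.coeff s R with hc
    have h2 : {y : ℝ | evq (y : ℂ) c = 0}.Finite := by
      have h3 : {y : ℝ | evq (y : ℂ) c = 0} ⊆ (fun y : ℝ => (y : ℂ)) ⁻¹' (c.aroots ℂ).toFinset := by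
        intro y hy
        have hy' : Polynomial.aeval (y : ℂ) c = 0 := hy
        simp only [Set.mem_preimage, Finset.mem_coe, Multiset.mem_toFinset]
        rw [Polynomial.mem_aroots]
        exact ⟨hs, hy'⟩
      refine (Set.Finite.preimage ?_ (Finset.finite_toSet _)).subset h3
      exact Complex.ofReal_injective.injOn
    have h4 : ({y : ℝ | evq (y : ℂ) c = 0} \ {0}).Finite := h2.subset Set.sdiff_subset
    have h5 : ({y : ℝ | evq (y : ℂ) c = 0} \ {0})ᶜ ∈ 𝓝 (0 : ℝ) := h4.isClosed.isOpen_compl.mem_nhds (by simp)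
    filter_upwards [mem_nhdsWithin_of_mem_nhds h5, self_mem_nhdsWithin] with y hy1 hy2 hy3
    exact hy1 ⟨hy3, (ne_of_gt hy2)⟩
  obtain ⟨x, hx, hx1, hx2, hx3⟩ : ∃ x : ℝ, 0 < x ∧ x < ρ ∧
      (Matrix.of fun a b => (Hf (Hcc H) (x : ℂ) * X a) (τ b).1 (τ b).2).det ≠ 0 ∧ evq (x : ℂ) (MvPolynomial.coeff s R) ≠ 0 := by
    have h6 : ∀ᶠ y : ℝ in 𝓝[>] 0, y ∈ Set.Ioo (0 : ℝ) ρ := Ioo_mem_nhdsGT hS.pos
    obtain ⟨x, h1, h2, h3⟩ := ((h6.and (hev1.and hev2))).exists
    exact ⟨x, h1.1, h1.2, h2, h3⟩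
  -- the relation at `x`
  set R' : MvPolynomial (Fin (n * n)) (Polynomial ℚ) := MvPolynomial.rename (fun b => (ix n).symm (τ b)) R with hR'
  have h1 : MvPolynomial.aeval (hh H) R' = 0 := by
    rw [hR', MvPolynomial.aeval_rename]
    have e : (hh H ∘ fun b => (ix n).symm (τ b)) = fun b => H (τ b).1 (τ b).2 := by
      funext b
      simp only [Function.comp_apply]
      unfold hh
      rw [Equiv.apply_symm_apply]
    rw [e]
    exact hR
  have h2 : MvPolynomial.map (evq (x : ℂ)) R = 0 := by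
    refine vanish hX τ (Hf (Hcc H) (x : ℂ)) hx2 _ fun κ hκ => ?_
    have h3 := rel_invR hS h1 hx hx1 hκ
    rw [hR', MvPolynomial.eval₂_rename] at h3
    rw [MvPolynomial.eval_map]
    have e : ((fun j => (Hf (Hcc H) (x : ℂ) * κ) (ix n j).1 (ix n j).2) ∘ fun b => (ix n).symm (τ b)) =
        fun b => (Hf (Hcc H) (x : ℂ) * κ) (τ b).1 (τ b).2 := by
      funext b
      simp only [Function.comp_apply, Equiv.apply_symm_apply]
    rw [e] at h3
    exact h3
  have h3 := congrArg (MvPolynomial.coeff s) h2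
  rw [MvPolynomial.coeff_map, MvPolynomial.coeff_zero] at h3
  exact hx3 h3

end rk

section all

open PowerSeries Module Pool.Agent.Y113

open Pool.Agent.Y119.HY (cm E Hf)
open Pool.Agent.Results.MP_cbf1af_ag.AllTuplesDegenerating (toQ GCond val periods rank)

variable {n : ℕ} {N : Matrix (Fin n) (Fin n) ℚ} {H : Matrix (Fin n) (Fin n) ℚ⟦X⟧} {G' : Submonoid (Matrix (Fin n) (Fin n) ℂ)}
  {ρ : ℝ}

/-- the rank is at least the dimension of the group -/
theorem rank_geR (hS : SYR n N H G' ρ) {d : ℕ} (hd : HasDim G' d) : d ≤ rank H.transpose := by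
  obtain ⟨X, hX, hLI⟩ := hd
  obtain ⟨τ, hτ⟩ := alg_indepR hS hX hLI
  refine le_csSup ?_ ⟨fun i => ((τ i).2, (τ i).1), hτ⟩
  refine ⟨Fintype.card (Fin n × Fin n), ?_⟩
  rintro d' ⟨T, hT⟩
  have h1 : Function.Injective T := by
    intro i j hij
    exact hT.injective (by
      show H.transpose (T i).1 (T i).2 = H.transpose (T j).1 (T j).2
      rw [hij])
  simpa using Fintype.card_le_of_injective T h1

/-- the general theorem for our system -/
theorem all_mainR (hS : SYR n N H G' ρ) :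
    ∃ Nt : Matrix (Fin n) (Fin n) ℤ, (∀ i j, ((Nt i j : ℤ) : ℚ) = N j i) ∧ ∃ G : ℕ, ∀ k δ D : ℕ,
      (∃ (c : ℝ) (M₀ : ℕ), 0 < c ∧ ∀ M : ℕ, M₀ ≤ M → ∀ Ω : Matrix (Fin n) (Fin n) ℂ, IsUnit Ω →
        Pool.Agent.Results.MP_cbf1af_ag.AllTuplesDegenerating.Bound Ω Nt H.transpose G k δ D
          ((k - 1) * (rank H.transpose + 1)) c M) ∧
      ∀ Ω : Matrix (Fin n) (Fin n) ℂ, IsUnit Ω → ∀ (s : ℕ) (ω : Fin s → ℂ),
        (∀ i j, IsAlgebraic (Algebra.adjoin ℚ (Set.range ω)) (Ω i j)) →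
        ∃ (c : ℝ) (M₀ : ℕ), 0 < c ∧ ∀ M : ℕ, M₀ ≤ M →
          Pool.Agent.Results.MP_cbf1af_ag.AllTuplesDegenerating.Bound Ω Nt H.transpose G k δ D
            (k * (rank H.transpose + 1) - (s + 1)) c M := by
  obtain ⟨Nz, hNz⟩ := hS.int
  obtain ⟨T₁, A, hT, hode⟩ := hS.ode
  obtain ⟨W, hW1, hW2⟩ := hS.wex
  set Nt : Matrix (Fin n) (Fin n) ℤ := Matrix.of fun i j => Nz j i with hNt
  have hc : ∀ i j, ((Nt i j : ℤ) : ℚ) = N j i := fun i j => hNz j i
  refine ⟨Nt, hc, ?_⟩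
  refine Pool.Agent.Results.MP_cbf1af_ag.AllTuplesDegenerating.result n T₁ (Matrix.of fun k j => A j k) Nt H.transpose
    W.transpose hT (Nt_nil hc hS.nil) ?_ ?_ ?_ (fun i j => gcond (hS.sdc j i)) (fun i j => gcond (hW2 j i))
  · intro i j
    have h1 := hode j i
    have h2 : ∑ k, C ((Nt i k : ℤ) : ℚ) * H.transpose k j = ∑ k, H j k * C (N k i) := by
      refine Finset.sum_congr rfl fun k _ => ?_
      rw [hc, mul_comm]
      rfl
    have h3 : ∑ k, H.transpose i k * toQ ((Matrix.of fun k j => A j k) k j) = ∑ k, ps (A j k) * H k i := by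
      refine Finset.sum_congr rfl fun k _ => ?_
      rw [mul_comm]
      rfl
    rw [h2, h3, ← h1]
    rfl
  · intro i j
    rw [Matrix.transpose_apply, hS.h0]
    simp only [eq_comm]
  · rw [← Matrix.transpose_mul, hW1, Matrix.transpose_one]

end all

end Pool.Agent.L0h14.HO
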