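import Mathlib
import Pool.Agent.L0h14.HO.CGrp

/-!
# The Lie algebra of a closed monoid: brackets and tori
-/

set_option autoImplicit false

open Matrix Filter Topology

namespace Pool.Agent.L0h14.HO

open Pool.Agent.Y119.HY (HD E E_HD E_zero E_mul_neg E_add)

variable {n : ℕ} {S : Submonoid (Matrix (Fin n) (Fin n) ℂ)}

/-- a linear functional along a curve -/
lemma HD_fun {M : ℂ → Matrix (Fin n) (Fin n) ℂ} {M' : Matrix (Fin n) (Fin n) ℂ} {z : ℂ} (h : HD M M' z)
    (l : Matrix (Fin n) (Fin n) ℂ →ₗ[ℂ] ℂ) : HasDerivAt (fun c => l (M c)) (l M') z := by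
  have h9 : ∀ Y : Matrix (Fin n) (Fin n) ℂ, l Y = ∑ i, ∑ j, Y i j * l (Matrix.single i j 1) := by
    intro Y
    conv_lhs => rw [Matrix.matrix_eq_sum_single Y]
    rw [map_sum]
    refine Finset.sum_congr rfl fun i _ => ?_
    rw [map_sum]
    refine Finset.sum_congr rfl fun j _ => ?_
    rw [← mul_one (Y i j), ← smul_eq_mul, ← Matrix.smul_single, map_smul, smul_eq_mul, smul_eq_mul, mul_one]
  have h10 : (fun c : ℂ => l (M c)) = fun c => ∑ i, ∑ j, (M c) i j * l (Matrix.single i j 1) := by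
    funext c
    exact h9 _
  rw [h10, h9 M']
  exact HasDerivAt.fun_sum fun i _ => HasDerivAt.fun_sum fun j _ => (h i j).mul_const _

/-- the derivative of a curve in a subspace -/
lemma deriv_mem {L : Submodule ℂ (Matrix (Fin n) (Fin n) ℂ)} {M : ℂ → Matrix (Fin n) (Fin n) ℂ}
    {M' : Matrix (Fin n) (Fin n) ℂ} {z : ℂ} (h : HD M M' z) (hM : ∀ c, M c ∈ L) : M' ∈ L := by
  by_contra hcon
  obtain ⟨l, hl1, hl2⟩ := Submodule.exists_le_ker_of_notMem hcon
  have h8 := HD_fun h l
  have h11 : (fun c : ℂ => l (M c)) = fun _ => 0 := by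
    funext c
    exact LinearMap.mem_ker.1 (hl2 (hM c))
  rw [h11] at h8
  exact hl1 (h8.unique (hasDerivAt_const _ _))

section exp

attribute [local instance] Matrix.linftyOpNormedRing Matrix.linftyOpNormedAlgebra

/-- the exponential curve -/
lemma exp_curve (X : Matrix (Fin n) (Fin n) ℂ) : ∃ R : ℂ → Matrix (Fin n) (Fin n) ℂ, R 0 = 1 ∧
    (∀ t, HD R (R t * X) t) ∧ ∀ t, R t * R (-t) = 1 := by
  refine ⟨fun t => NormedSpace.exp (t • X), ?_, fun t => ?_, fun t => ?_⟩
  · show NormedSpace.exp ((0 : ℂ) • X) = 1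
    rw [zero_smul, NormedSpace.exp_zero]
  · have h1 : HasDerivAt (fun u : ℂ => NormedSpace.exp (u • X)) (NormedSpace.exp (t • X) * X) t := hasDerivAt_exp_smul_const X t
    intro i j
    have h2 := ((LinearMap.toContinuousLinearMap (Matrix.entryLinearMap ℂ ℂ i j)).hasFDerivAt).comp_hasDerivAt t h1
    exact h2
  · show NormedSpace.exp (t • X) * NormedSpace.exp ((-t) • X) = 1
    refine (NormedSpace.exp_add_of_commute (((Commute.refl X).smul_left t).smul_right (-t))).symm.trans ?_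
    rw [← add_smul, add_neg_cancel, zero_smul, NormedSpace.exp_zero]

end exp

/-- **The Lie algebra is closed under brackets.** -/
theorem lie_br (hZ : ∀ g, (∀ q ∈ Id (S : Set (Matrix (Fin n) (Fin n) ℂ)), pe q g = 0) → g ∈ S)
    {X Y : Matrix (Fin n) (Fin n) ℂ} (hX : X ∈ Lie (S : Set (Matrix (Fin n) (Fin n) ℂ)))
    (hY : Y ∈ Lie (S : Set (Matrix (Fin n) (Fin n) ℂ))) : X * Y - Y * X ∈ Lie (S : Set (Matrix (Fin n) (Fin n) ℂ)) := by
  obtain ⟨R, h0, hR, hRR⟩ := exp_curve X
  have hS : ∀ t, R t ∈ S := fun t => path hZ hX hR h0 t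
  have hRR' : ∀ t, R (-t) * R t = 1 := fun t => mul_eq_one_comm.1 (hRR t)
  have hmem : ∀ t, R t * Y * R (-t) ∈ Lie (S : Set (Matrix (Fin n) (Fin n) ℂ)) := fun t =>
    conj_lie (hRR t) (fun g hg => mul_mem (mul_mem (hS _) hg) (hS _)) (fun g hg => mul_mem (mul_mem (hS _) hg) (hS _)) hY
  have h3 : HD (fun t : ℂ => R t * Y * R (-t)) (X * Y - Y * X) 0 := by
    have h4 := hR 0
    have h5 : HD (fun c : ℂ => R (-c)) ((-1 : ℂ) • (R 0 * X)) 0 := by
      have h6 : HasDerivAt (fun c : ℂ => -c) (-1) 0 := (hasDerivAt_id _).neg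
      have h7 : HD R (R 0 * X) (-(0 : ℂ)) := by rw [neg_zero]; exact h4
      exact h7.comp h6
    refine ((h4.mul (Pool.Agent.Y119.HY.HD.const Y 0)).mul h5).congr ?_
    rw [neg_zero, h0]
    simp only [mul_one, one_mul, mul_zero, add_zero, neg_smul, one_smul, Matrix.mul_neg, sub_eq_add_neg]
  exact deriv_mem h3 hmem

/-- polynomials along a one dimensional torus -/
lemma pe_torus (q : MvPolynomial (Fin n × Fin n) ℂ) (A B C : Matrix (Fin n) (Fin n) ℂ) :
    ∃ (D : ℕ) (g : Polynomial ℂ), ∀ z : ℂ, z ≠ 0 → g.eval z = z ^ D * pe q (z • A + B + z⁻¹ • C) := by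
  induction q using MvPolynomial.induction_on with
  | C a =>
    refine ⟨0, Polynomial.C a, fun z _ => ?_⟩
    unfold pe
    rw [Polynomial.eval_C, MvPolynomial.eval_C, pow_zero, one_mul]
  | add p q hp hq =>
    obtain ⟨D1, g1, h1⟩ := hp
    obtain ⟨D2, g2, h2⟩ := hq
    refine ⟨D1 + D2, Polynomial.X ^ D2 * g1 + Polynomial.X ^ D1 * g2, fun z hz => ?_⟩
    have e : pe (p + q) (z • A + B + z⁻¹ • C) = pe p (z • A + B + z⁻¹ • C) + pe q (z • A + B + z⁻¹ • C) := by
      unfold pe
      rw [map_add]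
    rw [Polynomial.eval_add, Polynomial.eval_mul, Polynomial.eval_mul, Polynomial.eval_pow, Polynomial.eval_pow,
      Polynomial.eval_X, h1 z hz, h2 z hz, e]
    ring
  | mul_X p i hp =>
    obtain ⟨D1, g1, h1⟩ := hp
    refine ⟨D1 + 1, g1 * (Polynomial.C (A i.1 i.2) * Polynomial.X ^ 2 + Polynomial.C (B i.1 i.2) * Polynomial.X +
      Polynomial.C (C i.1 i.2)), fun z hz => ?_⟩
    have e : pe (p * MvPolynomial.X i) (z • A + B + z⁻¹ • C) = pe p (z • A + B + z⁻¹ • C) *
        (z * A i.1 i.2 + B i.1 i.2 + z⁻¹ * C i.1 i.2) := by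
      unfold pe
      rw [map_mul, MvPolynomial.eval_X]
      rfl
    rw [Polynomial.eval_mul, h1 z hz, e]
    simp only [Polynomial.eval_add, Polynomial.eval_mul, Polynomial.eval_C, Polynomial.eval_X, Polynomial.eval_pow]
    generalize pe p (z • A + B + z⁻¹ • C) = w
    field_simp
    ring

/-- the closure of the powers of a semisimple element -/
lemma torus_mem (hZ : ∀ g, (∀ q ∈ Id (S : Set (Matrix (Fin n) (Fin n) ℂ)), pe q g = 0) → g ∈ S)
    {A B C : Matrix (Fin n) (Fin n) ℂ} {κ : ℂ} (hκ0 : κ ≠ 0) (hκ : ‖κ‖ ≠ 1)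
    (h : ∀ k : ℕ, κ ^ k • A + B + (κ ^ k)⁻¹ • C ∈ S) {z : ℂ} (hz : z ≠ 0) : z • A + B + z⁻¹ • C ∈ S := by
  refine hZ _ fun q hq => ?_
  obtain ⟨D, g, hg⟩ := pe_torus q A B C
  have hinj : Function.Injective fun k : ℕ => κ ^ k := by
    intro a b hab
    have h1 : ‖κ‖ ^ a = ‖κ‖ ^ b := by
      have := congrArg norm hab
      simpa [norm_pow] using this
    have h2 : 0 < ‖κ‖ := norm_pos_iff.2 hκ0
    exact (pow_right_injective₀ h2 hκ) h1
  have hg0 : g = 0 := by
    refine Polynomial.eq_zero_of_infinite_isRoot _ (Set.Infinite.mono ?_ (Set.infinite_range_of_injective hinj))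
    rintro _ ⟨k, rfl⟩
    show Polynomial.eval _ g = 0
    rw [hg _ (pow_ne_zero _ hκ0), hq _ (h k), mul_zero]
  have h1 := hg z hz
  rw [hg0, Polynomial.eval_zero] at h1
  exact (mul_eq_zero.1 h1.symm).resolve_left (pow_ne_zero _ hz)

/-- **The logarithm of a semisimple element with the eigenvalues `1, κ, κ⁻¹`.** -/
theorem semi_lie (hZ : ∀ g, (∀ q ∈ Id (S : Set (Matrix (Fin n) (Fin n) ℂ)), pe q g = 0) → g ∈ S)
    {W D : Matrix (Fin n) (Fin n) ℂ} (hM : 1 + (1 / 2 : ℂ) • (W + D) ∈ S) {μ : ℂ} (hμ : ∀ r : ℝ, μ + 2 ≠ r)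
    (hWW : W * W = μ • W) (hWD : W * D = μ • D) (hDW : D * W = μ • D) (hDD : D * D = (μ + 4) • W) :
    D ∈ Lie (S : Set (Matrix (Fin n) (Fin n) ℂ)) := by
  have hμ0 : μ ≠ 0 := by
    rintro rfl
    exact hμ 2 (by push_cast; ring)
  -- the eigenvalue
  obtain ⟨κ, hκ⟩ : ∃ κ : ℂ, κ * κ - (μ + 2) * κ + 1 = 0 := by
    obtain ⟨κ, hκ⟩ := IsAlgClosed.exists_root (Polynomial.X ^ 2 - Polynomial.C (μ + 2) * Polynomial.X + Polynomial.C 1 : Polynomial ℂ) (by
      have : (Polynomial.X ^ 2 - Polynomial.C (μ + 2) * Polynomial.X + Polynomial.C 1 : Polynomial ℂ).degree = 2 := by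
        compute_degree!
      rw [this]
      norm_num)
    refine ⟨κ, ?_⟩
    have h1 : Polynomial.eval κ (Polynomial.X ^ 2 - Polynomial.C (μ + 2) * Polynomial.X + Polynomial.C 1 : Polynomial ℂ) = 0 := hκ
    simp only [Polynomial.eval_add, Polynomial.eval_sub, Polynomial.eval_mul, Polynomial.eval_pow, Polynomial.eval_X,
      Polynomial.eval_C] at h1
    linear_combination h1
  have hκ0 : κ ≠ 0 := by
    rintro rfl
    simp at hκ
  have hκμ : κ + κ⁻¹ = μ + 2 := by
    field_simp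
    linear_combination hκ
  have hκn : ‖κ‖ ≠ 1 := by
    intro h1
    have h2 : κ⁻¹ = (starRingEnd ℂ) κ := Complex.inv_eq_conj h1
    rw [h2] at hκμ
    refine hμ (2 * κ.re) ?_
    rw [← hκμ]
    apply Complex.ext
    · simp
      ring
    · simp
  have hκκ : κ - κ⁻¹ ≠ 0 := by
    intro h1
    have h2 : κ ^ 2 = 1 := by
      field_simp at h1
      linear_combination h1
    have h3 : ‖κ‖ ^ 2 = 1 := by rw [← norm_pow, h2, norm_one]
    have h4 : ‖κ‖ = 1 := by nlinarith [norm_nonneg κ]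
    exact hκn h4
  have hsq : (κ - κ⁻¹) ^ 2 = μ * (μ + 4) := by
    have h1 : κ * κ⁻¹ = 1 := mul_inv_cancel₀ hκ0
    have h2 : (κ + κ⁻¹) ^ 2 = (μ + 2) ^ 2 := by rw [hκμ]
    linear_combination h2 - 4 * h1
  set α : ℂ := μ⁻¹ / 2 with hα
  set β : ℂ := (κ - κ⁻¹)⁻¹ / 2 with hβ
  have hαμ : α * μ = 1 / 2 := by
    rw [hα]
    field_simp
  have hβκ : β * (κ - κ⁻¹) = 1 / 2 := by
    rw [hβ, div_mul_eq_mul_div, inv_mul_cancel₀ hκκ]
  have hβ2 : β * β * (μ + 4) = α / 2 := by
    have h1 : β * β * (μ * (μ + 4)) = 1 / 4 := by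
      rw [← hsq]
      linear_combination (β * (κ - κ⁻¹) + 1 / 2) * hβκ
    rw [hα]
    field_simp
    linear_combination 4 * h1
  set A : Matrix (Fin n) (Fin n) ℂ := α • W + β • D with hA
  set C : Matrix (Fin n) (Fin n) ℂ := α • W - β • D with hC
  have hAA : A * A = A := by
    have e : A * A = (α * α) • (W * W) + (α * β) • (W * D) + (β * α) • (D * W) + (β * β) • (D * D) := by
      rw [hA]
      simp only [mul_add, add_mul, smul_mul_smul_comm]
      abel
    rw [e, hWW, hWD, hDW, hDD, hA]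
    simp only [smul_smul]
    have e1 : α * α * μ = α / 2 := by linear_combination α * hαμ
    have e2 : α * β * μ = β / 2 := by linear_combination β * hαμ
    have e3 : β * α * μ = β / 2 := by linear_combination β * hαμ
    rw [e1, e2, e3, hβ2]
    module
  have hCC : C * C = C := by
    have e : C * C = (α * α) • (W * W) - (α * β) • (W * D) - (β * α) • (D * W) + (β * β) • (D * D) := by
      rw [hC]
      simp only [mul_sub, sub_mul, smul_mul_smul_comm]
      abel
    rw [e, hWW, hWD, hDW, hDD, hC]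
    simp only [smul_smul]
    have e1 : α * α * μ = α / 2 := by linear_combination α * hαμ
    have e2 : α * β * μ = β / 2 := by linear_combination β * hαμ
    have e3 : β * α * μ = β / 2 := by linear_combination β * hαμ
    rw [e1, e2, e3, hβ2]
    module
  have hAC : A * C = 0 := by
    have e : A * C = (α * α) • (W * W) - (α * β) • (W * D) + (β * α) • (D * W) - (β * β) • (D * D) := by
      rw [hA, hC]
      simp only [mul_sub, add_mul, smul_mul_smul_comm]
      abel
    rw [e, hWW, hWD, hDW, hDD]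
    simp only [smul_smul]
    have e1 : α * α * μ = α / 2 := by linear_combination α * hαμ
    have e2 : α * β * μ = β / 2 := by linear_combination β * hαμ
    have e3 : β * α * μ = β / 2 := by linear_combination β * hαμ
    rw [e1, e2, e3, hβ2]
    module
  have hCA : C * A = 0 := by
    have e : C * A = (α * α) • (W * W) + (α * β) • (W * D) - (β * α) • (D * W) - (β * β) • (D * D) := by
      rw [hA, hC]
      simp only [mul_add, sub_mul, smul_mul_smul_comm]
      abel
    rw [e, hWW, hWD, hDW, hDD]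
    simp only [smul_smul]
    have e1 : α * α * μ = α / 2 := by linear_combination α * hαμ
    have e2 : α * β * μ = β / 2 := by linear_combination β * hαμ
    have e3 : β * α * μ = β / 2 := by linear_combination β * hαμ
    rw [e1, e2, e3, hβ2]
    module
  set B : Matrix (Fin n) (Fin n) ℂ := 1 - A - C with hB
  have hMe : 1 + (1 / 2 : ℂ) • (W + D) = κ • A + B + κ⁻¹ • C := by
    have e1 : κ • A + B + κ⁻¹ • C = 1 + ((α * (κ + κ⁻¹ - 2)) • W + (β * (κ - κ⁻¹)) • D) := by
      rw [hB, hA, hC]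
      module
    have e2 : α * (κ + κ⁻¹ - 2) = 1 / 2 := by
      rw [hκμ]
      linear_combination hαμ
    rw [e1, e2, hβκ]
    module
  have hmul : ∀ a b a' b' : ℂ, (a • A + B + b • C) * (a' • A + B + b' • C) = (a * a') • A + B + (b * b') • C := by
    intro a b a' b'
    have e1 : A * B = 0 := by rw [hB, mul_sub, mul_sub, mul_one, hAA, hAC]; abel
    have e2 : B * A = 0 := by rw [hB, sub_mul, sub_mul, one_mul, hAA, hCA]; abel
    have e3 : C * B = 0 := by rw [hB, mul_sub, mul_sub, mul_one, hCC, hCA]; abel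
    have e4 : B * C = 0 := by rw [hB, sub_mul, sub_mul, one_mul, hCC, hAC]; abel
    have e5 : B * B = B := by
      nth_rewrite 1 [hB]
      rw [sub_mul, sub_mul, one_mul, e1, e3]
      abel
    simp only [add_mul, mul_add, smul_mul_assoc, mul_smul_comm, hAA, hAC, hCA, hCC, e1, e2, e3, e4, e5, smul_zero, add_zero,
      zero_add, smul_smul]
    rw [mul_comm a' a, mul_comm b' b]
  have hpow : ∀ k : ℕ, κ ^ k • A + B + (κ ^ k)⁻¹ • C ∈ S := by
    intro k
    induction k with
    | zero =>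
      have : (κ ^ 0) • A + B + (κ ^ 0)⁻¹ • C = 1 := by
        rw [hB, pow_zero, inv_one]
        module
      rw [this]
      exact one_mem _
    | succ k ih =>
      have h1 := mul_mem ih (hMe ▸ hM)
      rw [hmul, ← pow_succ, ← mul_inv, ← pow_succ] at h1
      exact h1
  have hcurve : HD (fun w : ℂ => Complex.exp w • A + B + (Complex.exp w)⁻¹ • C) (A - C) 0 := by
    intro i j
    have h1 : HasDerivAt (fun w : ℂ => Complex.exp w * A i j + B i j + Complex.exp (-w) * C i j)
        (Complex.exp 0 * A i j + 0 + (Complex.exp (-0) * (-1)) * C i j) 0 :=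
      (((Complex.hasDerivAt_exp 0).mul_const _).add (hasDerivAt_const _ _)).add
        ((((hasDerivAt_id (0 : ℂ)).neg).cexp).mul_const _)
    have e1 : Complex.exp 0 * A i j + 0 + (Complex.exp (-0) * (-1)) * C i j = (A - C) i j := by
      rw [neg_zero, Complex.exp_zero, Matrix.sub_apply]
      ring
    rw [e1] at h1
    have e2 : (fun w : ℂ => (Complex.exp w • A + B + (Complex.exp w)⁻¹ • C) i j) =
        fun w : ℂ => Complex.exp w * A i j + B i j + Complex.exp (-w) * C i j := by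
      funext w
      rw [Complex.exp_neg]
      rfl
    rw [e2]
    exact h1
  have h3 : A - C ∈ Lie (S : Set (Matrix (Fin n) (Fin n) ℂ)) := by
    refine tangent hcurve ?_ fun w => torus_mem hZ hκ0 hκn hpow (Complex.exp_ne_zero w)
    rw [Complex.exp_zero, hB]
    module
  have h4 : D = (κ - κ⁻¹) • (A - C) := by
    have e1 : (κ - κ⁻¹) • (A - C) = (2 * (β * (κ - κ⁻¹))) • D := by
      rw [hA, hC]
      module
    rw [e1, hβκ]
    norm_num
  rw [h4]
  exact (Lie (S : Set (Matrix (Fin n) (Fin n) ℂ))).smul_mem _ h3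

end Pool.Agent.L0h14.HO
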