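import Mathlib
import Pool.Agent.L0h14.HO.CBr

/-!
# Density of the group generated by a regular unipotent group and a pseudo-reflection
-/

set_option autoImplicit false

open Matrix Filter Topology

namespace Pool.Agent.L0h14.HO

open Pool.Agent.Y119.HY (HD E E_HD E_zero E_mul_neg E_add chain_li pl pl_eval pl_coeff pl_ne)

variable {n : ℕ}

section fn

variable (N : Matrix (Fin n) (Fin n) ℂ) (u p : Fin n → ℂ)

/-- the functional `x ↦ p · x` -/
def lf : (Fin n → ℂ) →ₗ[ℂ] ℂ where
  toFun x := p ⬝ᵥ x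
  map_add' := dotProduct_add p
  map_smul' c x := by rw [dotProduct_smul]; rfl

/-- the polynomial `p · E(x) u` -/
noncomputable def PP (x : ℂ) : ℂ := p ⬝ᵥ (E N x *ᵥ u)

/-- the same as a polynomial -/
noncomputable def Pl : Polynomial ℂ := pl N u (lf p)

/-- the matrices `E(a) u pᵀ E(-b)` -/
noncomputable def XX (a b : ℂ) : Matrix (Fin n) (Fin n) ℂ := E N a * vecMulVec u p * E N (-b)

variable {N u p}

lemma Pl_eval (x : ℂ) : (Pl N u p).eval x = PP N u p x := pl_eval u (lf p) x

lemma rk_sandwich (M : Matrix (Fin n) (Fin n) ℂ) : vecMulVec u p * M * vecMulVec u p = (p ⬝ᵥ (M *ᵥ u)) • vecMulVec u p := by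
  rw [vecMulVec_mul, vecMulVec_mul_vecMulVec, ← dotProduct_mulVec, vecMulVec_smul]

lemma XX_mul (hN : N ^ n = 0) (a b c d : ℂ) : XX N u p a b * XX N u p c d = PP N u p (c - b) • XX N u p a d := by
  unfold XX PP
  have e1 : E N (-b) * E N c = E N (c - b) := by
    rw [← E_add hN]
    congr 1
    ring
  calc E N a * vecMulVec u p * E N (-b) * (E N c * vecMulVec u p * E N (-d)) =
        E N a * (vecMulVec u p * (E N (-b) * E N c) * vecMulVec u p) * E N (-d) := by simp only [Matrix.mul_assoc]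
    _ = _ := by rw [e1, rk_sandwich, mul_smul_comm, smul_mul_assoc]

lemma XX_trace (hN : N ^ n = 0) (a b : ℂ) : (XX N u p a b).trace = PP N u p (a - b) := by
  unfold XX PP
  have e1 : E N (-b) * E N a = E N (a - b) := by
    rw [← E_add hN]
    congr 1
    ring
  rw [Matrix.mul_assoc, trace_mul_comm, Matrix.mul_assoc, e1, vecMulVec_mul, trace_vecMulVec, dotProduct_comm,
    ← dotProduct_mulVec]

lemma XX_zero (hN : N ^ n = 0) : XX N u p 0 0 = vecMulVec u p := by
  unfold XX
  rw [neg_zero, E_zero hN, one_mul, mul_one]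

lemma XX_conj (hN : N ^ n = 0) (s : ℂ) : E N s * (1 - vecMulVec u p) * E N (-s) = 1 - XX N u p s s := by
  unfold XX
  rw [mul_sub, mul_one, sub_mul, E_mul_neg hN]

lemma XX_HD (hN : N ^ n = 0) {a b : ℂ → ℂ} (ha : Differentiable ℂ a) (hb : Differentiable ℂ b) (z : ℂ) :
    ∃ M', HD (fun z => XX N u p (a z) (b z)) M' z := by
  have h1 : HD (fun z => E N (a z)) (deriv a z • (N * E N (a z))) z := (E_HD hN (a z)).comp (ha z).hasDerivAt
  have h0 : HasDerivAt (fun w => -(b w)) (-deriv b z) z := (hb z).hasDerivAt.neg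
  have h2 : HD (fun z => E N (-(b z))) (-deriv b z • (N * E N (-(b z)))) z := by
    have h3 := Pool.Agent.Y119.HY.HD.comp (A := E N) (f := fun w => -(b w)) (z := z) (E_HD hN (-(b z))) h0
    exact h3
  exact ⟨_, (h1.mul (Pool.Agent.Y119.HY.HD.const (vecMulVec u p) z)).mul h2⟩

lemma XX_diff (hN : N ^ n = 0) (l : Matrix (Fin n) (Fin n) ℂ →ₗ[ℂ] ℂ) {a b : ℂ → ℂ} (ha : Differentiable ℂ a)
    (hb : Differentiable ℂ b) : Differentiable ℂ fun z => l (XX N u p (a z) (b z)) := by
  intro z
  obtain ⟨M', h⟩ := XX_HD (N := N) (u := u) (p := p) hN ha hb z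
  exact (HD_fun h l).differentiableAt

lemma PP_diff {a : ℂ → ℂ} (ha : Differentiable ℂ a) : Differentiable ℂ fun z => PP N u p (a z) := by
  have h1 : (fun z => PP N u p (a z)) = fun z => (Pl N u p).eval (a z) := by
    funext z
    rw [Pl_eval]
  rw [h1]
  exact (Pl N u p).differentiable.comp ha

end fn

/-- functions of three variables which are entire along curves -/
def Ent3 (g : ℂ → ℂ → ℂ → ℂ) : Prop :=
  ∀ a b c : ℂ → ℂ, Differentiable ℂ a → Differentiable ℂ b → Differentiable ℂ c → Differentiable ℂ fun z => g (a z) (b z) (c z)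

lemma Ent3.zero {Δ g : ℂ → ℂ → ℂ → ℂ} (hΔ : Ent3 Δ) (hg : Ent3 g) (h : ∀ s t u, Δ s t u * g s t u = 0)
    (hne : ∃ s t u, Δ s t u ≠ 0) (s t u : ℂ) : g s t u = 0 := by
  obtain ⟨s₀, t₀, u₀, h0⟩ := hne
  set a : ℂ → ℂ := fun z => s₀ + z * (s - s₀) with ha
  set b : ℂ → ℂ := fun z => t₀ + z * (t - t₀) with hb
  set c : ℂ → ℂ := fun z => u₀ + z * (u - u₀) with hc
  have ha' : Differentiable ℂ a := by fun_prop
  have hb' : Differentiable ℂ b := by fun_prop
  have hc' : Differentiable ℂ c := by fun_prop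
  have h1 := hΔ a b c ha' hb' hc'
  have h2 := hg a b c ha' hb' hc'
  have h3 := AnalyticOnNhd.eq_zero_or_eq_zero_of_mul_eq_zero (U := Set.univ) (fun z _ => h1.analyticAt z)
    (fun z _ => h2.analyticAt z) (fun z _ => h (a z) (b z) (c z)) isPreconnected_univ
  rcases h3 with h3 | h3
  · exfalso
    apply h0
    have := h3 0 (Set.mem_univ _)
    simpa [ha, hb, hc] using this
  · have := h3 1 (Set.mem_univ _)
    simpa [ha, hb, hc] using this

section deg

variable {N : Matrix (Fin n) (Fin n) ℂ} {u p : Fin n → ℂ}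

lemma Pl_coeff_top (hn : 1 ≤ n) (hup : p ⬝ᵥ ((N ^ (n - 1)) *ᵥ u) ≠ 0) : (Pl N u p).coeff (n - 1) ≠ 0 := by
  have h1 := pl_coeff (N := N) u (lf p) ⟨n - 1, by omega⟩
  unfold Pl
  rw [h1]
  exact div_ne_zero hup (by exact_mod_cast (n - 1).factorial_ne_zero)

lemma Pl_natDegree (hn : 1 ≤ n) (hup : p ⬝ᵥ ((N ^ (n - 1)) *ᵥ u) ≠ 0) : (Pl N u p).natDegree = n - 1 := by
  refine le_antisymm ?_ (Polynomial.le_natDegree_of_ne_zero (Pl_coeff_top hn hup))
  unfold Pl pl
  refine Polynomial.natDegree_sum_le_of_forall_le _ _ fun i _ => (Polynomial.natDegree_monomial_le _).trans ?_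
  have := i.2
  omega

lemma Pl_ne (hn : 1 ≤ n) (hup : p ⬝ᵥ ((N ^ (n - 1)) *ᵥ u) ≠ 0) : Pl N u p ≠ 0 := fun h =>
  Pl_coeff_top hn hup (by rw [h, Polynomial.coeff_zero])

/-- parity -/
lemma parity (hn : 1 ≤ n) (hup : p ⬝ᵥ ((N ^ (n - 1)) *ᵥ u) ≠ 0) {ε : ℂ}
    (h : ∀ a b, PP N u p (-a) * PP N u p (-b) * PP N u p (a + b) = ε * (PP N u p a * PP N u p b * PP N u p (-a - b))) (a : ℂ) :
    PP N u p (-a) = ε * PP N u p a := by
  set P := Pl N u p with hP
  have hP0 : P ≠ 0 := Pl_ne hn hup
  set q1 : Polynomial ℂ := P.comp (-Polynomial.X) * P.comp (Polynomial.X + Polynomial.C a) with hq1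
  set q2 : Polynomial ℂ := P * P.comp (-Polynomial.X - Polynomial.C a) with hq2
  have hd1 : (-Polynomial.X : Polynomial ℂ).natDegree = 1 := by rw [Polynomial.natDegree_neg, Polynomial.natDegree_X]
  have hd2 : (Polynomial.X + Polynomial.C a : Polynomial ℂ).natDegree = 1 := Polynomial.natDegree_X_add_C a
  have e3 : (-Polynomial.X - Polynomial.C a : Polynomial ℂ) = -(Polynomial.X + Polynomial.C a) := by ring
  have hd3 : (-Polynomial.X - Polynomial.C a : Polynomial ℂ).natDegree = 1 := by
    rw [e3, Polynomial.natDegree_neg, hd2]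
  have l1 : (-Polynomial.X : Polynomial ℂ).leadingCoeff = -1 := by rw [Polynomial.leadingCoeff_neg, Polynomial.leadingCoeff_X]
  have l2 : (Polynomial.X + Polynomial.C a : Polynomial ℂ).leadingCoeff = 1 := Polynomial.leadingCoeff_X_add_C a
  have l3 : (-Polynomial.X - Polynomial.C a : Polynomial ℂ).leadingCoeff = -1 := by
    rw [e3, Polynomial.leadingCoeff_neg, l2]
  have hl1 : q1.leadingCoeff = P.leadingCoeff * (-1) ^ P.natDegree * P.leadingCoeff := by
    rw [hq1, Polynomial.leadingCoeff_mul, Polynomial.leadingCoeff_comp (by rw [hd1]; norm_num),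
      Polynomial.leadingCoeff_comp (by rw [hd2]; norm_num), l1, l2, one_pow, mul_one]
  have hl2 : q2.leadingCoeff = P.leadingCoeff * (-1) ^ P.natDegree * P.leadingCoeff := by
    rw [hq2, Polynomial.leadingCoeff_mul, Polynomial.leadingCoeff_comp (by rw [hd3]; norm_num), l3]
    ring
  have hl0 : P.leadingCoeff * (-1) ^ P.natDegree * P.leadingCoeff ≠ 0 :=
    mul_ne_zero (mul_ne_zero (Polynomial.leadingCoeff_ne_zero.2 hP0) (pow_ne_zero _ (by norm_num)))
      (Polynomial.leadingCoeff_ne_zero.2 hP0)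
  have hn1 : q1.natDegree = P.natDegree + P.natDegree := by
    rw [hq1, Polynomial.natDegree_mul', Polynomial.natDegree_comp, Polynomial.natDegree_comp, hd1, hd2, mul_one]
    rw [Polynomial.leadingCoeff_comp (by rw [hd1]; norm_num),
      Polynomial.leadingCoeff_comp (by rw [hd2]; norm_num), l1, l2, one_pow, mul_one]
    exact hl0
  have hn2 : q2.natDegree = P.natDegree + P.natDegree := by
    rw [hq2, Polynomial.natDegree_mul', Polynomial.natDegree_comp, hd3, mul_one]
    rw [Polynomial.leadingCoeff_comp (by rw [hd3]; norm_num), l3, ← mul_assoc, mul_right_comm]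
    exact hl0
  have hpoly : Polynomial.C (PP N u p (-a)) * q1 = Polynomial.C (ε * PP N u p a) * q2 := by
    refine Polynomial.funext fun b => ?_
    rw [hq1, hq2]
    simp only [Polynomial.eval_mul, Polynomial.eval_C, Polynomial.eval_comp, Polynomial.eval_neg, Polynomial.eval_X,
      Polynomial.eval_add, Polynomial.eval_sub, hP, Pl_eval]
    have h1 := h a b
    have e1 : b + a = a + b := add_comm _ _
    have e2 : -b - a = -a - b := by ring
    rw [e1, e2]
    linear_combination h1
  have h2 := congrArg (fun q => Polynomial.coeff q (P.natDegree + P.natDegree)) hpoly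
  simp only [Polynomial.coeff_C_mul] at h2
  have c1 : q1.coeff (P.natDegree + P.natDegree) = q1.leadingCoeff := by
    rw [Polynomial.leadingCoeff, hn1]
  have c2 : q2.coeff (P.natDegree + P.natDegree) = q2.leadingCoeff := by
    rw [Polynomial.leadingCoeff, hn2]
  rw [c1, c2, hl1, hl2] at h2
  exact mul_right_cancel₀ hl0 h2

end deg

section span

variable {N : Matrix (Fin n) (Fin n) ℂ} {u p : Fin n → ℂ}

/-- a functional which vanishes on the orbit of a cyclic vector -/
lemma orb_zero (hN : N ^ n = 0) (hu : (N ^ (n - 1)) *ᵥ u ≠ 0) (l : (Fin n → ℂ) →ₗ[ℂ] ℂ)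
    (h : ∀ a, l (E N a *ᵥ u) = 0) : l = 0 := by
  by_contra hl
  refine pl_ne hN hu hl (Polynomial.funext fun c => ?_)
  rw [pl_eval, h, Polynomial.eval_zero]

lemma E_transpose (s : ℂ) : E N.transpose s = (E N s).transpose := by
  unfold E
  rw [transpose_sum]
  refine Finset.sum_congr rfl fun i _ => ?_
  rw [transpose_smul, transpose_pow]

/-- the matrices `XX a b` span all matrices -/
lemma XX_span (hN : N ^ n = 0) (hup : p ⬝ᵥ ((N ^ (n - 1)) *ᵥ u) ≠ 0) (m : Matrix (Fin n) (Fin n) ℂ →ₗ[ℂ] ℂ)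
    (h : ∀ a b, m (XX N u p a b) = 0) : m = 0 := by
  have hu : (N ^ (n - 1)) *ᵥ u ≠ 0 := by
    intro h0
    rw [h0, dotProduct_zero] at hup
    exact hup rfl
  have hp : (N.transpose ^ (n - 1)) *ᵥ p ≠ 0 := by
    intro h0
    rw [← transpose_pow, mulVec_transpose] at h0
    rw [dotProduct_mulVec, h0, zero_dotProduct] at hup
    exact hup rfl
  have hNt : N.transpose ^ n = 0 := by rw [← transpose_pow, hN, transpose_zero]
  have hX : ∀ a b, XX N u p a b = vecMulVec (E N a *ᵥ u) (p ᵥ* E N (-b)) := by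
    intro a b
    unfold XX
    rw [mul_vecMulVec, vecMulVec_mul]
  have h1 : ∀ (v : Fin n → ℂ) (b : ℂ), m (vecMulVec v (p ᵥ* E N (-b))) = 0 := by
    intro v b
    set l : (Fin n → ℂ) →ₗ[ℂ] ℂ :=
      { toFun := fun v => m (vecMulVec v (p ᵥ* E N (-b)))
        map_add' := fun x y => by rw [add_vecMulVec, map_add]
        map_smul' := fun c x => by rw [smul_vecMulVec, map_smul]; rfl } with hl
    have h2 := orb_zero hN hu l fun a => by
      show m (vecMulVec (E N a *ᵥ u) (p ᵥ* E N (-b))) = 0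
      rw [← hX]
      exact h a b
    exact LinearMap.congr_fun h2 v
  have h3 : ∀ v w : Fin n → ℂ, m (vecMulVec v w) = 0 := by
    intro v w
    set l : (Fin n → ℂ) →ₗ[ℂ] ℂ :=
      { toFun := fun w => m (vecMulVec v w)
        map_add' := fun x y => by rw [vecMulVec_add, map_add]
        map_smul' := fun c x => by rw [vecMulVec_smul, map_smul]; rfl } with hl
    have h2 := orb_zero hNt hp l fun a => by
      show m (vecMulVec v (E N.transpose a *ᵥ p)) = 0
      have := h1 v (-a)
      rw [neg_neg] at this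
      rw [E_transpose, mulVec_transpose]
      exact this
    exact LinearMap.congr_fun h2 w
  refine LinearMap.ext fun M => ?_
  rw [LinearMap.zero_apply, Matrix.matrix_eq_sum_single M, map_sum]
  refine Finset.sum_eq_zero fun i _ => ?_
  rw [map_sum]
  refine Finset.sum_eq_zero fun j _ => ?_
  have e1 : Matrix.single i j (M i j) = vecMulVec (Pi.single i (M i j)) (Pi.single j 1) := by
    ext a b
    rw [vecMulVec_apply, Matrix.single_apply, Pi.single_apply, Pi.single_apply]
    by_cases h1 : i = a <;> by_cases h2 : j = b <;> simp [h1, h2, eq_comm]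
  rw [e1, h3]

end span

/-- **All functionals are multiples of the trace.** -/
lemma lie_of_fun {N : Matrix (Fin n) (Fin n) ℂ} {u p : Fin n → ℂ} (hN : N ^ n = 0)
    (hup : p ⬝ᵥ ((N ^ (n - 1)) *ᵥ u) ≠ 0) {L : Submodule ℂ (Matrix (Fin n) (Fin n) ℂ)}
    (h : ∀ l : Matrix (Fin n) (Fin n) ℂ →ₗ[ℂ] ℂ, L ≤ LinearMap.ker l → ∃ c : ℂ, ∀ a b, l (XX N u p a b) = c * PP N u p (a - b))
    {X : Matrix (Fin n) (Fin n) ℂ} (hX : X.trace = 0) : X ∈ L := by
  by_contra hcon
  obtain ⟨l, hl1, hl2⟩ := Submodule.exists_le_ker_of_notMem hcon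
  obtain ⟨c, hc⟩ := h l hl2
  have h1 := XX_span (N := N) (u := u) (p := p) hN hup (l - c • Matrix.traceLinearMap (Fin n) ℂ ℂ) fun a b => by
    rw [LinearMap.sub_apply, LinearMap.smul_apply, Matrix.traceLinearMap_apply, hc, XX_trace hN, smul_eq_mul, sub_self]
  have h2 := LinearMap.congr_fun h1 X
  rw [LinearMap.sub_apply, LinearMap.smul_apply, Matrix.traceLinearMap_apply, hX, smul_zero, sub_zero, LinearMap.zero_apply] at h2
  exact hl1 h2

section cases

variable {N : Matrix (Fin n) (Fin n) ℂ} {u p : Fin n → ℂ} {S : Submonoid (Matrix (Fin n) (Fin n) ℂ)}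

/-- the final step for transvections: `f(t, u) P(u - s) = f(u, s) P(t - u)` -/
lemma const_of_chain (hn : 1 ≤ n) (hup : p ⬝ᵥ ((N ^ (n - 1)) *ᵥ u) ≠ 0) {f : ℂ → ℂ → ℂ}
    (h : ∀ s t u', PP N u p (u' - s) * f t u' - PP N u p (t - u') * f u' s = 0) :
    ∃ c : ℂ, ∀ a b, f a b = c * PP N u p (a - b) := by
  have hP := Pl_ne (N := N) (u := u) (p := p) hn hup
  obtain ⟨x, hx⟩ : ∃ x, PP N u p x ≠ 0 := by
    by_contra hcon
    push Not at hcon
    exact hP (Polynomial.funext fun c => by rw [Pl_eval, hcon, Polynomial.eval_zero])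
  refine ⟨f x 0 / PP N u p x, fun t v => ?_⟩
  -- the intermediate point
  obtain ⟨s, hs⟩ : ∃ s, PP N u p (v - s) * PP N u p (0 - s) ≠ 0 := by
    by_contra hcon
    push Not at hcon
    have hne : ∀ v : ℂ, (Pl N u p).comp (Polynomial.C v - Polynomial.X) ≠ 0 := by
      intro v h0
      have h1 := congrArg (Polynomial.eval (v - x)) h0
      rw [Polynomial.eval_comp, Polynomial.eval_sub, Polynomial.eval_C, Polynomial.eval_X, sub_sub_cancel, Pl_eval,
        Polynomial.eval_zero] at h1
      exact hx h1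
    refine mul_ne_zero (hne v) (hne 0) (Polynomial.funext fun s => ?_)
    rw [Polynomial.eval_mul, Polynomial.eval_comp, Polynomial.eval_comp, Polynomial.eval_zero]
    simp only [Polynomial.eval_sub, Polynomial.eval_C, Polynomial.eval_X, Pl_eval]
    exact hcon s
  have hs1 := left_ne_zero_of_mul hs
  have hs2 := right_ne_zero_of_mul hs
  have key : ∀ t v, PP N u p (v - s) ≠ 0 → f t v * PP N u p x = f s (s - x) * PP N u p (t - v) := by
    intro t v hv
    have h1 := h s t v
    have h2 := h (s - x) v s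
    rw [sub_sub_cancel] at h2
    have h3 : PP N u p (v - s) * (f t v * PP N u p x - f s (s - x) * PP N u p (t - v)) = 0 := by
      linear_combination PP N u p x * h1 + PP N u p (t - v) * h2
    have h4 := (mul_eq_zero.1 h3).resolve_left hv
    linear_combination h4
  have k1 := key t v hs1
  have k2 := key x 0 hs2
  rw [sub_zero] at k2
  have k3 : f x 0 = f s (s - x) := mul_right_cancel₀ hx k2
  rw [← k3] at k1
  field_simp
  linear_combination k1

variable (hN : N ^ n = 0) (hup : p ⬝ᵥ ((N ^ (n - 1)) *ᵥ u) ≠ 0)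
  (hE : ∀ c : ℂ, ∀ g ∈ S, E N c * g * E N (-c) ∈ S) (hS : 1 - vecMulVec u p ∈ S)
  (hZ : ∀ g, (∀ q ∈ Id (S : Set (Matrix (Fin n) (Fin n) ℂ)), pe q g = 0) → g ∈ S)

include hN hup hE hS hZ in
/-- the case of a transvection -/
lemma lie_transv (hn : 1 ≤ n) (h0 : p ⬝ᵥ u = 0) (hodd : ∃ a, PP N u p (-a) ≠ -PP N u p a) {X : Matrix (Fin n) (Fin n) ℂ}
    (hX : X.trace = 0) : X ∈ Lie (S : Set (Matrix (Fin n) (Fin n) ℂ)) := by
  set L := Lie (S : Set (Matrix (Fin n) (Fin n) ℂ)) with hL
  have hP0 : PP N u p 0 = 0 := by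
    unfold PP
    rw [E_zero hN, one_mulVec, h0]
  have hR : ∀ s, XX N u p s s ∈ L := by
    intro s
    have hsq : XX N u p s s * XX N u p s s = 0 := by
      rw [XX_mul hN, sub_self, hP0, zero_smul]
    have hSs : 1 - XX N u p s s ∈ S := by
      rw [← XX_conj hN]
      exact hE s _ hS
    have hpow : ∀ k : ℕ, (1 - XX N u p s s) ^ k = 1 - (k : ℂ) • XX N u p s s := by
      intro k
      induction k with
      | zero => simp
      | succ k ih =>
        rw [pow_succ, ih, mul_sub, mul_one, sub_mul, one_mul, smul_mul_assoc, hsq, smul_zero, sub_zero]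
        push_cast
        module
    set M : Matrix (Fin n) (Fin n) (Polynomial ℂ) := Matrix.of fun i j => Polynomial.C ((1 : Matrix (Fin n) (Fin n) ℂ) i j) +
      Polynomial.X * Polynomial.C (XX N u p s s i j) with hM
    have hMe : ∀ t, M.map (Polynomial.eval t) = 1 + t • XX N u p s s := by
      intro t
      ext i j
      rw [hM]
      simp only [Matrix.map_apply, Matrix.of_apply, Polynomial.eval_add, Polynomial.eval_mul, Polynomial.eval_C,
        Polynomial.eval_X, Matrix.add_apply, Matrix.smul_apply, smul_eq_mul]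
    have hall : ∀ t : ℂ, 1 + t • XX N u p s s ∈ S := by
      intro t
      rw [← hMe]
      refine fam_mem hZ M (Z := Set.range fun k : ℕ => -(k : ℂ)) (Set.infinite_range_of_injective fun a b hab => ?_) ?_ t
      · have h1 : (a : ℂ) = b := neg_injective hab
        exact_mod_cast h1
      · rintro _ ⟨k, rfl⟩
        rw [hMe]
        have h1 := Submonoid.pow_mem _ hSs k
        rw [hpow] at h1
        rw [neg_smul, ← sub_eq_add_neg]
        exact h1
    refine tangent (M := fun t => 1 + t • XX N u p s s) ?_ (by simp) hall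
    intro i j
    simp only [Matrix.add_apply, Matrix.smul_apply, smul_eq_mul]
    have := ((hasDerivAt_id (0 : ℂ)).mul_const (XX N u p s s i j)).const_add ((1 : Matrix (Fin n) (Fin n) ℂ) i j)
    simpa using this
  have hF : ∀ s t, PP N u p (t - s) • XX N u p s t - PP N u p (s - t) • XX N u p t s ∈ L := by
    intro s t
    have h1 := lie_br hZ (hR s) (hR t)
    rw [XX_mul hN, XX_mul hN] at h1
    exact h1
  have hG : ∀ s t v, (PP N u p (t - s) * PP N u p (s - v)) • XX N u p v t - (PP N u p (s - t) * PP N u p (t - v)) • XX N u p v s -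
      (PP N u p (t - s) * PP N u p (v - t)) • XX N u p s v + (PP N u p (s - t) * PP N u p (v - s)) • XX N u p t v ∈ L := by
    intro s t v
    have h1 := lie_br hZ (hR v) (hF s t)
    rw [mul_sub, sub_mul, mul_smul_comm, mul_smul_comm, smul_mul_assoc, smul_mul_assoc, XX_mul hN, XX_mul hN, XX_mul hN,
      XX_mul hN, smul_smul, smul_smul, smul_smul, smul_smul] at h1
    convert h1 using 1
    abel
  refine lie_of_fun hN hup (fun l hl => const_of_chain hn hup (f := fun a b => l (XX N u p a b)) ?_) hX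
  have hl' : ∀ Y ∈ L, l Y = 0 := fun Y hY => LinearMap.mem_ker.1 (hl hY)
  set f : ℂ → ℂ → ℂ := fun a b => l (XX N u p a b) with hf
  refine Ent3.zero (Δ := fun s t v => PP N u p (s - t) * PP N u p (t - v) * PP N u p (v - s) +
      PP N u p (t - s) * PP N u p (v - t) * PP N u p (s - v))
    (g := fun s t v => PP N u p (v - s) * f t v - PP N u p (t - v) * f v s) ?_ ?_ ?_ ?_
  · intro a b c ha hb hc
    exact (((PP_diff (ha.sub hb)).mul (PP_diff (hb.sub hc))).mul (PP_diff (hc.sub ha))).add
      (((PP_diff (hb.sub ha)).mul (PP_diff (hc.sub hb))).mul (PP_diff (ha.sub hc)))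
  · intro a b c ha hb hc
    exact ((PP_diff (hc.sub ha)).mul (XX_diff hN l hb hc)).sub ((PP_diff (hb.sub hc)).mul (XX_diff hN l hc ha))
  · intro s t v
    have g1 := hl' _ (hF s v)
    have g2 := hl' _ (hF v t)
    have g3 := hl' _ (hG s t v)
    simp only [map_sub, map_add, map_smul, smul_eq_mul] at g1 g2 g3
    simp only [hf]
    linear_combination (PP N u p (v - s) * PP N u p (t - v)) * g3 -
      (PP N u p (t - s) * PP N u p (s - v) * PP N u p (v - s)) * g2 +
      (PP N u p (t - s) * PP N u p (v - t) * PP N u p (t - v)) * g1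
  · by_contra hcon
    push Not at hcon
    obtain ⟨a, ha⟩ := hodd
    refine ha ?_
    have h1 := parity (N := N) (u := u) (p := p) hn hup (ε := -1) (fun a b => by
      have := hcon 0 a (a + b)
      have e1 : (0 : ℂ) - a = -a := by ring
      have e2 : a - (a + b) = -b := by ring
      have e3 : a + b - 0 = a + b := by ring
      have e4 : a - 0 = a := by ring
      have e5 : a + b - a = b := by ring
      have e6 : 0 - (a + b) = -a - b := by ring
      rw [e1, e2, e3, e4, e5, e6] at this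
      linear_combination this) a
    rw [h1]
    ring

end cases

end Pool.Agent.L0h14.HO
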