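import Mathlib
import Pool.Agent.L0h14.HO.CDens

/-!
# The trichotomy for the group generated by a regular unipotent group and a pseudo-reflection
-/

set_option autoImplicit false

open Matrix Filter Topology

namespace Pool.Agent.L0h14.HO

open Pool.Agent.Y119.HY (HD E E_HD E_zero E_mul_neg E_add chain_li pl pl_eval pl_coeff pl_ne om om_add om_smul om_eq E_isom)

variable {n : ℕ} {N : Matrix (Fin n) (Fin n) ℂ} {u p : Fin n → ℂ} {S : Submonoid (Matrix (Fin n) (Fin n) ℂ)}

/-- the group is at least the special linear group if its Lie algebra contains the traceless matrices -/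
theorem sl_of_lie (hZ : ∀ g, (∀ q ∈ Id (S : Set (Matrix (Fin n) (Fin n) ℂ)), pe q g = 0) → g ∈ S)
    (hL : ∀ X : Matrix (Fin n) (Fin n) ℂ, X.trace = 0 → X ∈ Lie (S : Set (Matrix (Fin n) (Fin n) ℂ)))
    (g : Matrix (Fin n) (Fin n) ℂ) (hg : g.det = 1) : g ∈ S := by
  obtain ⟨L1, L2, D, hD⟩ := Matrix.Pivot.exists_list_transvec_mul_diagonal_mul_list_transvec g
  have htr : ∀ l : List (Matrix.TransvectionStruct (Fin n) ℂ), (l.map Matrix.TransvectionStruct.toMatrix).prod ∈ S := by
    intro l
    refine Submonoid.list_prod_mem _ fun x hx => ?_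
    obtain ⟨t, -, rfl⟩ := List.mem_map.1 hx
    have e1 : t.toMatrix = 1 + t.c • Matrix.single t.i t.j (1 : ℂ) := by
      unfold Matrix.TransvectionStruct.toMatrix Matrix.transvection
      rw [Matrix.smul_single, smul_eq_mul, mul_one]
    rw [e1]
    refine uni_mem hZ ?_ (hL _ ?_) _
    · rw [Matrix.single_mul_single_of_ne]
      exact (Ne.symm t.hij)
    · rw [Matrix.trace_single_eq_of_ne _ _ _ t.hij]
  have hdet : ∏ i, D i = 1 := by
    rw [hD, det_mul, det_mul, det_diagonal, Matrix.TransvectionStruct.det_toMatrix_prod,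
      Matrix.TransvectionStruct.det_toMatrix_prod, one_mul, mul_one] at hg
    exact hg
  have hD0 : ∀ i, D i ≠ 0 := by
    intro i hi
    have : ∏ i, D i = 0 := Finset.prod_eq_zero (Finset.mem_univ i) hi
    rw [hdet] at this
    exact one_ne_zero this
  rw [hD]
  refine mul_mem (mul_mem (htr _) ?_) (htr _)
  rcases Nat.eq_zero_or_pos n with hn | hn
  · subst hn
    have : diagonal D = 1 := Subsingleton.elim _ _
    rw [this]
    exact one_mem _
  have hsum : Complex.exp (∑ i, Complex.log (D i)) = 1 := by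
    rw [Complex.exp_sum, ← hdet]
    exact Finset.prod_congr rfl fun i _ => Complex.exp_log (hD0 i)
  obtain ⟨k, hk⟩ := Complex.exp_eq_one_iff.1 hsum
  set i₀ : Fin n := ⟨0, hn⟩
  set y : Fin n → ℂ := fun i => Complex.log (D i) - if i = i₀ then (k : ℂ) * (2 * Real.pi * Complex.I) else 0 with hy
  have hy0 : ∑ i, y i = 0 := by
    rw [hy, Finset.sum_sub_distrib, hk, Finset.sum_ite_eq' Finset.univ i₀, if_pos (Finset.mem_univ _), sub_self]
  have hye : ∀ i, Complex.exp (y i) = D i := by
    intro i
    rw [hy]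
    simp only
    rw [Complex.exp_sub, Complex.exp_log (hD0 i)]
    split_ifs
    · rw [Complex.exp_int_mul_two_pi_mul_I, div_one]
    · rw [Complex.exp_zero, div_one]
  have h3 := path (R := fun t => diagonal fun i => Complex.exp (t * y i)) (X := diagonal y) hZ
    (hL _ (by rw [trace_diagonal, hy0])) (fun t => by
      show HD (fun t => diagonal fun i => Complex.exp (t * y i)) ((diagonal fun i => Complex.exp (t * y i)) * diagonal y) t
      rw [diagonal_mul_diagonal]
      intro i j
      by_cases hij : i = j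
      · subst hij
        simp only [diagonal_apply_eq]
        have := ((hasDerivAt_id t).mul_const (y i)).cexp
        simpa using this
      · simp only [diagonal_apply_ne _ hij]
        exact hasDerivAt_const _ _) (by
      show (diagonal fun i => Complex.exp (0 * y i)) = 1
      simp) 1
  simp only [one_mul, hye] at h3
  exact h3

section refl

/-- the relations for two reflections -/
lemma refl_alg {a b : ℂ} {x11 x12 x21 x22 : Matrix (Fin n) (Fin n) ℂ}
    (h1111 : x11 * x11 = (2 : ℂ) • x11) (h1112 : x11 * x12 = (2 : ℂ) • x12) (h1121 : x11 * x21 = a • x11)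
    (h1122 : x11 * x22 = a • x12) (h1211 : x12 * x11 = b • x11) (h1212 : x12 * x12 = b • x12)
    (h1221 : x12 * x21 = (2 : ℂ) • x11) (h1222 : x12 * x22 = (2 : ℂ) • x12) (h2111 : x21 * x11 = (2 : ℂ) • x21)
    (h2112 : x21 * x12 = (2 : ℂ) • x22) (h2121 : x21 * x21 = a • x21) (h2122 : x21 * x22 = a • x22)
    (h2211 : x22 * x11 = b • x21) (h2212 : x22 * x12 = b • x22) (h2221 : x22 * x21 = (2 : ℂ) • x21)
    (h2222 : x22 * x22 = (2 : ℂ) • x22) {W D : Matrix (Fin n) (Fin n) ℂ}
    (hW : W = (-2 : ℂ) • x11 + (-2 : ℂ) • x22 + a • x12 + b • x21) (hD : D = a • x12 + (-b) • x21) :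
    W * W = (a * b - 4) • W ∧ W * D = (a * b - 4) • D ∧ D * W = (a * b - 4) • D ∧ D * D = (a * b - 4 + 4) • W := by
  refine ⟨?_, ?_, ?_, ?_⟩
  · rw [hW]
    simp only [add_mul, mul_add, smul_mul_smul_comm, h1111, h1112, h1121, h1122, h1211, h1212, h1221, h1222, h2111, h2112,
      h2121, h2122, h2211, h2212, h2221, h2222, smul_smul]
    module
  · rw [hW, hD]
    simp only [add_mul, mul_add, smul_mul_smul_comm, h1111, h1112, h1121, h1122, h1211, h1212, h1221, h1222, h2111, h2112,
      h2121, h2122, h2211, h2212, h2221, h2222, smul_smul]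
    module
  · rw [hW, hD]
    simp only [add_mul, mul_add, smul_mul_smul_comm, h1111, h1112, h1121, h1122, h1211, h1212, h1221, h1222, h2111, h2112,
      h2121, h2122, h2211, h2212, h2221, h2222, smul_smul]
    module
  · rw [hW, hD]
    simp only [add_mul, mul_add, smul_mul_smul_comm, h1111, h1112, h1121, h1122, h1211, h1212, h1221, h1222, h2111, h2112,
      h2121, h2122, h2211, h2212, h2221, h2222, smul_smul]
    module

variable (hN : N ^ n = 0) (hup : p ⬝ᵥ ((N ^ (n - 1)) *ᵥ u) ≠ 0)
  (hE : ∀ c : ℂ, ∀ g ∈ S, E N c * g * E N (-c) ∈ S) (hS : 1 - vecMulVec u p ∈ S)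
  (hZ : ∀ g, (∀ q ∈ Id (S : Set (Matrix (Fin n) (Fin n) ℂ)), pe q g = 0) → g ∈ S)

include hN hup hE hS hZ in
/-- the case of a reflection -/
lemma lie_refl (hn : 1 ≤ n) (h2 : p ⬝ᵥ u = 2) (hev : ∃ a, PP N u p (-a) ≠ PP N u p a) {X : Matrix (Fin n) (Fin n) ℂ}
    (hX : X.trace = 0) : X ∈ Lie (S : Set (Matrix (Fin n) (Fin n) ℂ)) := by
  set L := Lie (S : Set (Matrix (Fin n) (Fin n) ℂ)) with hL
  have hP0 : PP N u p 0 = 2 := by
    unfold PP
    rw [E_zero hN, one_mulVec, h2]
  have hTs : ∀ s, 1 - XX N u p s s ∈ S := by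
    intro s
    rw [← XX_conj hN]
    exact hE s _ hS
  -- the elements for most pairs
  have hF1 : ∀ s t, (PP N u p (t - s) * PP N u p (s - t)).im ≠ 0 →
      PP N u p (t - s) • XX N u p s t - PP N u p (s - t) • XX N u p t s ∈ L := by
    intro s t him
    set a := PP N u p (t - s) with ha
    set b := PP N u p (s - t) with hb
    obtain ⟨k1, k2, k3, k4⟩ := refl_alg (a := a) (b := b) (x11 := XX N u p s s) (x12 := XX N u p s t) (x21 := XX N u p t s)
      (x22 := XX N u p t t) (by rw [XX_mul hN, sub_self, hP0]) (by rw [XX_mul hN, sub_self, hP0]) (by rw [XX_mul hN])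
      (by rw [XX_mul hN]) (by rw [XX_mul hN]) (by rw [XX_mul hN]) (by rw [XX_mul hN, sub_self, hP0])
      (by rw [XX_mul hN, sub_self, hP0]) (by rw [XX_mul hN, sub_self, hP0]) (by rw [XX_mul hN, sub_self, hP0])
      (by rw [XX_mul hN]) (by rw [XX_mul hN]) (by rw [XX_mul hN]) (by rw [XX_mul hN]) (by rw [XX_mul hN, sub_self, hP0])
      (by rw [XX_mul hN, sub_self, hP0]) rfl rfl
    have h3 := semi_lie hZ (W := (-2 : ℂ) • XX N u p s s + (-2 : ℂ) • XX N u p t t + a • XX N u p s t + b • XX N u p t s)
      (D := a • XX N u p s t + (-b) • XX N u p t s) (μ := a * b - 4) ?_ (fun r hr => ?_) k1 k2 k3 k4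
    · rw [neg_smul, ← sub_eq_add_neg] at h3
      exact h3
    · have h4 := mul_mem (hTs s) (hTs t)
      have e1 : (1 - XX N u p s s) * (1 - XX N u p t t) = 1 - XX N u p s s - XX N u p t t + a • XX N u p s t := by
        rw [mul_sub, mul_one, sub_mul, one_mul, XX_mul hN]
        abel
      rw [e1] at h4
      convert h4 using 1
      module
    · apply him
      have h5 : a * b = ((r + 2 : ℝ) : ℂ) := by
        push_cast
        linear_combination hr
      rw [h5, Complex.ofReal_im]
  -- a good point
  have hn2 : n - 1 ≠ 0 := by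
    intro h0
    obtain ⟨a, ha⟩ := hev
    apply ha
    have h1 := Pl_natDegree (N := N) (u := u) (p := p) hn hup
    rw [h0] at h1
    have h3 := Polynomial.eq_C_of_natDegree_eq_zero h1
    rw [← Pl_eval, ← Pl_eval, h3, Polynomial.eval_C, Polynomial.eval_C]
  obtain ⟨x₀, hx₀⟩ : ∃ x₀, PP N u p x₀ * PP N u p (-x₀) = Complex.I := by
    set Q : Polynomial ℂ := Pl N u p * (Pl N u p).comp (-Polynomial.X) - Polynomial.C Complex.I with hQ
    have hP := Pl_ne (N := N) (u := u) (p := p) hn hup
    have hd1 : (-Polynomial.X : Polynomial ℂ).natDegree = 1 := by rw [Polynomial.natDegree_neg, Polynomial.natDegree_X]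
    have hc : (Pl N u p).comp (-Polynomial.X) ≠ 0 := by
      intro h0
      refine hP (Polynomial.funext fun c => ?_)
      have h1 := congrArg (Polynomial.eval (-c)) h0
      rw [Polynomial.eval_comp, Polynomial.eval_neg, Polynomial.eval_X, neg_neg, Polynomial.eval_zero] at h1
      rw [h1, Polynomial.eval_zero]
    have hdeg : (Pl N u p * (Pl N u p).comp (-Polynomial.X)).natDegree = (n - 1) + (n - 1) := by
      rw [Polynomial.natDegree_mul hP hc, Polynomial.natDegree_comp, hd1, Pl_natDegree hn hup, mul_one]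
    have hQd : Q.natDegree = (n - 1) + (n - 1) := by
      rw [hQ, Polynomial.natDegree_sub_C, hdeg]
    obtain ⟨x₀, hx₀⟩ := IsAlgClosed.exists_root Q (fun h0 => by
      have h5 : Q.natDegree = 0 := Polynomial.natDegree_eq_of_degree_eq_some h0
      rw [hQd] at h5
      omega)
    refine ⟨x₀, ?_⟩
    have h1 : Polynomial.eval x₀ Q = 0 := hx₀
    rw [hQ, Polynomial.eval_sub, Polynomial.eval_mul, Polynomial.eval_comp, Polynomial.eval_neg, Polynomial.eval_X,
      Polynomial.eval_C, Pl_eval, Pl_eval] at h1
    linear_combination h1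
  -- all pairs
  have hF : ∀ s t, PP N u p (t - s) • XX N u p s t - PP N u p (s - t) • XX N u p t s ∈ L := by
    intro s t
    by_contra hcon
    obtain ⟨l, hl1, hl2⟩ := Submodule.exists_le_ker_of_notMem hcon
    set g : ℂ → ℂ := fun t => PP N u p (t - s) * l (XX N u p s t) - PP N u p (s - t) * l (XX N u p t s) with hg
    have hgd : Differentiable ℂ g := by
      have d1 : Differentiable ℂ fun t : ℂ => t - s := by fun_prop
      have d2 : Differentiable ℂ fun t : ℂ => s - t := by fun_prop
      have d3 : Differentiable ℂ fun _ : ℂ => s := by fun_prop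
      exact ((PP_diff d1).mul (XX_diff hN l d3 differentiable_id)).sub ((PP_diff d2).mul (XX_diff hN l differentiable_id d3))
    have hopen : ∀ᶠ t in 𝓝 (s + x₀), g t = 0 := by
      have hc : ContinuousAt (fun t : ℂ => (PP N u p (t - s) * PP N u p (s - t)).im) (s + x₀) := by
        have d1 : Differentiable ℂ fun t : ℂ => t - s := by fun_prop
        have d2 : Differentiable ℂ fun t : ℂ => s - t := by fun_prop
        exact Complex.continuous_im.continuousAt.comp (((PP_diff d1).mul (PP_diff d2)).continuous.continuousAt)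
      have h1 : (PP N u p (s + x₀ - s) * PP N u p (s - (s + x₀))).im ≠ 0 := by
        have e1 : s + x₀ - s = x₀ := by ring
        have e2 : s - (s + x₀) = -x₀ := by ring
        rw [e1, e2, hx₀, Complex.I_im]
        norm_num
      filter_upwards [hc.eventually_ne h1] with t ht
      have h3 := LinearMap.mem_ker.1 (hl2 (hF1 s t ht))
      rw [map_sub, map_smul, map_smul, smul_eq_mul, smul_eq_mul] at h3
      exact h3
    have h4 := AnalyticOnNhd.eqOn_zero_of_preconnected_of_eventuallyEq_zero (f := g) (U := Set.univ)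
      (fun z _ => hgd.analyticAt z) isPreconnected_univ (Set.mem_univ (s + x₀)) hopen (Set.mem_univ t)
    apply hl1
    rw [map_sub, map_smul, map_smul, smul_eq_mul, smul_eq_mul]
    exact h4
  -- brackets
  have hG : ∀ s t v, (2 * (PP N u p (t - s) * PP N u p (v - t))) • XX N u p s v -
      (2 * (PP N u p (t - v) * PP N u p (s - t))) • XX N u p v s -
      (PP N u p (t - v) * PP N u p (v - t)) • (PP N u p (t - s) • XX N u p s t - PP N u p (s - t) • XX N u p t s) -
      (PP N u p (t - s) * PP N u p (s - t)) • (PP N u p (v - t) • XX N u p t v - PP N u p (t - v) • XX N u p v t) +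
      (PP N u p (s - t) * PP N u p (t - v) * PP N u p (v - s) - PP N u p (v - t) * PP N u p (t - s) * PP N u p (s - v)) •
        XX N u p t t ∈ L := by
    intro s t v
    have h1 := lie_br hZ (hF s t) (hF t v)
    simp only [mul_sub, sub_mul, smul_mul_smul_comm, XX_mul hN, sub_self, hP0, smul_smul] at h1
    convert h1 using 1
    module
  refine lie_of_fun hN hup (fun l hl => ?_) hX
  have hl' : ∀ Y ∈ L, l Y = 0 := fun Y hY => LinearMap.mem_ker.1 (hl hY)
  set f : ℂ → ℂ → ℂ := fun a b => l (XX N u p a b) with hf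
  have key : ∀ s t v, PP N u p (s - v) * f t t - 2 * f s v = 0 := by
    refine Ent3.zero (Δ := fun s t v => PP N u p (s - t) * PP N u p (t - v) * PP N u p (v - s) -
        PP N u p (v - t) * PP N u p (t - s) * PP N u p (s - v)) ?_ ?_ ?_ ?_
    · intro a b c ha hb hc
      exact (((PP_diff (ha.sub hb)).mul (PP_diff (hb.sub hc))).mul (PP_diff (hc.sub ha))).sub
        (((PP_diff (hc.sub hb)).mul (PP_diff (hb.sub ha))).mul (PP_diff (ha.sub hc)))
    · intro a b c ha hb hc
      exact ((PP_diff (ha.sub hc)).mul (XX_diff hN l hb hb)).sub ((XX_diff hN l ha hc).const_mul 2)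
    · intro s t v
      have g1 := hl' _ (hF s t)
      have g2 := hl' _ (hF t v)
      have g3 := hl' _ (hF s v)
      have g4 := hl' _ (hG s t v)
      simp only [map_sub, map_add, map_smul, smul_eq_mul] at g1 g2 g3 g4
      simp only [hf]
      linear_combination PP N u p (s - v) * g4 + PP N u p (s - v) * (PP N u p (t - v) * PP N u p (v - t)) * g1 +
        PP N u p (s - v) * (PP N u p (t - s) * PP N u p (s - t)) * g2 -
        2 * (PP N u p (t - v) * PP N u p (s - t)) * g3
    · by_contra hcon
      push Not at hcon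
      obtain ⟨a, ha⟩ := hev
      refine ha ?_
      have h1 := parity (N := N) (u := u) (p := p) hn hup (ε := 1) (fun a b => by
        have := hcon 0 a (a + b)
        have e1 : (0 : ℂ) - a = -a := by ring
        have e2 : a - (a + b) = -b := by ring
        have e3 : a + b - 0 = a + b := by ring
        have e4 : a - 0 = a := by ring
        have e5 : a + b - a = b := by ring
        have e6 : 0 - (a + b) = -a - b := by ring
        rw [e1, e2, e3, e4, e5, e6] at this
        linear_combination this) a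
      rw [h1, one_mul]
  refine ⟨f 0 0 / 2, fun a b => ?_⟩
  have := key a 0 b
  show f a b = _
  linear_combination -this / 2

end refl

end Pool.Agent.L0h14.HO
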