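import Mathlib
import Pool.Agent.L0h14.HO.CTri

/-!
# Invariant forms of the group generated by a regular unipotent group and a pseudo-reflection
-/

set_option autoImplicit false

open Matrix Filter Topology

namespace Pool.Agent.L0h14.HO

open Pool.Agent.Y119.HY (HD E E_HD E_zero E_mul_neg E_add chain_li om om_add om_smul om_eq E_isom)

variable {n : ℕ} {N : Matrix (Fin n) (Fin n) ℂ} {u p : Fin n → ℂ} {S : Submonoid (Matrix (Fin n) (Fin n) ℂ)}

lemma PP_zero (hN : N ^ n = 0) : PP N u p 0 = p ⬝ᵥ u := by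
  unfold PP
  rw [E_zero hN, one_mulVec]

/-- the form exists if the polynomial has a parity -/
lemma exists_form (hN : N ^ n = 0) (hup : p ⬝ᵥ ((N ^ (n - 1)) *ᵥ u) ≠ 0) {ε : ℂ} (hε : ε * ε = 1)
    (hpu : p ⬝ᵥ u = 1 + ε) (hpar : ∀ a, PP N u p (-a) = ε * PP N u p a) :
    ∃ J : Matrix (Fin n) (Fin n) ℂ, J.transpose = ε • J ∧ J.det ≠ 0 ∧ N.transpose * J + J * N = 0 ∧
      (1 - vecMulVec u p).transpose * J * (1 - vecMulVec u p) = J := by
  have hu : (N ^ (n - 1)) *ᵥ u ≠ 0 := by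
    intro h0
    rw [h0, dotProduct_zero] at hup
    exact hup rfl
  have hp : (N.transpose ^ (n - 1)) *ᵥ p ≠ 0 := by
    intro h0
    rw [← transpose_pow, mulVec_transpose] at h0
    rw [dotProduct_mulVec, h0, zero_dotProduct] at hup
    exact hup rfl
  have hNt : N.transpose ^ n = 0 := by rw [← transpose_pow, hN, transpose_zero]
  set U : Matrix (Fin n) (Fin n) ℂ := Matrix.of fun k : Fin n => (N ^ (k : ℕ)) *ᵥ u with hU
  set V : Matrix (Fin n) (Fin n) ℂ := Matrix.of fun k : Fin n => (N.transpose ^ (k : ℕ)) *ᵥ p with hV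
  have hUd : IsUnit U.det := by
    rw [← Matrix.isUnit_iff_isUnit_det, ← Matrix.linearIndependent_rows_iff_isUnit]
    exact chain_li hN hu
  have hVd : IsUnit V.det := by
    rw [← Matrix.isUnit_iff_isUnit_det, ← Matrix.linearIndependent_rows_iff_isUnit]
    exact chain_li hNt hp
  set Dg : Matrix (Fin n) (Fin n) ℂ := diagonal fun k : Fin n => (-1 : ℂ) ^ (k : ℕ) with hDg
  have hDd : Dg.det ≠ 0 := by
    rw [hDg, det_diagonal]
    exact Finset.prod_ne_zero_iff.2 fun k _ => pow_ne_zero _ (by norm_num)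
  -- the form
  set J : Matrix (Fin n) (Fin n) ℂ := V.transpose * Dg * U.transpose⁻¹ with hJ
  have hUt : IsUnit U.transpose.det := by rw [det_transpose]; exact hUd
  have hJd : J.det ≠ 0 := by
    rw [hJ, det_mul, det_mul, det_transpose]
    refine mul_ne_zero (mul_ne_zero hVd.ne_zero hDd) ?_
    have h1 : IsUnit (U.transpose⁻¹).det := Matrix.isUnit_nonsing_inv_det _ hUt
    exact h1.ne_zero
  have hJU : J * U.transpose = V.transpose * Dg := by
    rw [hJ, Matrix.mul_assoc, nonsing_inv_mul _ hUt, mul_one]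
  have hJk' : ∀ k : Fin n, J *ᵥ ((N ^ (k : ℕ)) *ᵥ u) = (-1 : ℂ) ^ (k : ℕ) • ((N.transpose ^ (k : ℕ)) *ᵥ p) := by
    intro k
    have h1 : (J * U.transpose).col k = (V.transpose * Dg).col k := by rw [hJU]
    have h2 : (J * U.transpose).col k = J *ᵥ ((N ^ (k : ℕ)) *ᵥ u) := by
      ext i
      rw [Matrix.col_apply, Matrix.mul_apply]
      rfl
    have h3 : (V.transpose * Dg).col k = (-1 : ℂ) ^ (k : ℕ) • ((N.transpose ^ (k : ℕ)) *ᵥ p) := by
      ext i
      rw [Matrix.col_apply, hDg, Matrix.mul_diagonal, Pi.smul_apply, smul_eq_mul, mul_comm]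
      rfl
    rw [h2, h3] at h1
    exact h1
  clear_value J
  have hJk : ∀ k : ℕ, J *ᵥ ((N ^ k) *ᵥ u) = (-1 : ℂ) ^ k • ((N.transpose ^ k) *ᵥ p) := by
    intro k
    rcases lt_or_ge k n with hk | hk
    · exact hJk' ⟨k, hk⟩
    · rw [pow_eq_zero_of_le hk hN, pow_eq_zero_of_le hk hNt, zero_mulVec, zero_mulVec, mulVec_zero, smul_zero]
  have hspan := (chain_li hN hu).span_eq_top_of_card_eq_finrank' (by simp)
  have hext : ∀ A B : Matrix (Fin n) (Fin n) ℂ, (∀ k : ℕ, A *ᵥ ((N ^ k) *ᵥ u) = B *ᵥ ((N ^ k) *ᵥ u)) → A = B := by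
    intro A B hAB
    have h1 : A.mulVecLin = B.mulVecLin := by
      refine LinearMap.ext_on hspan ?_
      rintro _ ⟨k, rfl⟩
      exact hAB k
    exact ext_mulVec fun x => LinearMap.congr_fun h1 x
  have hJE : ∀ a : ℂ, J *ᵥ (E N a *ᵥ u) = E N.transpose (-a) *ᵥ p := by
    intro a
    unfold E
    rw [sum_mulVec, sum_mulVec, mulVec_sum]
    refine Finset.sum_congr rfl fun k _ => ?_
    rw [smul_mulVec, smul_mulVec, mulVec_smul, hJk, smul_smul]
    congr 1
    rw [neg_pow a]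
    ring
  have hNJ : N.transpose * J + J * N = 0 := by
    refine hext _ _ fun k => ?_
    have e1 : N *ᵥ ((N ^ k) *ᵥ u) = (N ^ (k + 1)) *ᵥ u := by rw [mulVec_mulVec, ← pow_succ']
    have e2 : N.transpose *ᵥ ((N.transpose ^ k) *ᵥ p) = (N.transpose ^ (k + 1)) *ᵥ p := by
      rw [mulVec_mulVec, ← pow_succ']
    rw [add_mulVec, zero_mulVec, ← mulVec_mulVec, ← mulVec_mulVec, hJk, e1, hJk, mulVec_smul, e2, ← add_smul,
      pow_succ (-1 : ℂ)]
    have : (-1 : ℂ) ^ k + (-1) ^ k * -1 = 0 := by ring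
    rw [this, zero_smul]
  have hsym : J.transpose = ε • J := by
    -- the bilinear form on the orbit
    have h1 : ∀ a b : ℂ, (E N a *ᵥ u) ⬝ᵥ (J *ᵥ (E N b *ᵥ u)) = PP N u p (a - b) := by
      intro a b
      rw [hJE, E_transpose, mulVec_transpose, dotProduct_comm, ← dotProduct_mulVec, mulVec_mulVec, ← E_add hN]
      unfold PP
      congr 3
      ring
    have h2 : ∀ (w : Fin n → ℂ) (b : ℂ), w ⬝ᵥ ((J.transpose - ε • J) *ᵥ (E N b *ᵥ u)) = 0 := by
      intro w b
      have h3 := orb_zero hN hu (lf ((J.transpose - ε • J) *ᵥ (E N b *ᵥ u))) fun a => by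
        show ((J.transpose - ε • J) *ᵥ (E N b *ᵥ u)) ⬝ᵥ (E N a *ᵥ u) = 0
        rw [sub_mulVec, smul_mulVec, sub_dotProduct, smul_dotProduct, dotProduct_comm (J *ᵥ (E N b *ᵥ u)), h1,
          mulVec_transpose, ← dotProduct_mulVec, h1, smul_eq_mul]
        have h4 := hpar (a - b)
        have e1 : -(a - b) = b - a := by ring
        rw [e1] at h4
        rw [h4, sub_self]
      have h4 := LinearMap.congr_fun h3 w
      rw [dotProduct_comm]
      exact h4
    have h5 : ∀ b : ℂ, (J.transpose - ε • J) *ᵥ (E N b *ᵥ u) = 0 := by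
      intro b
      funext i
      have := h2 (Pi.single i 1) b
      rwa [single_one_dotProduct] at this
    have h6 : J.transpose - ε • J = 0 := by
      ext i j
      set l : (Fin n → ℂ) →ₗ[ℂ] ℂ := (LinearMap.proj i).comp (J.transpose - ε • J).mulVecLin with hl
      have h7 := orb_zero hN hu l fun a => by
        show ((J.transpose - ε • J) *ᵥ (E N a *ᵥ u)) i = 0
        rw [h5]
        rfl
      have h8 := LinearMap.congr_fun h7 (Pi.single j 1)
      have h9 : l (Pi.single j 1) = (J.transpose - ε • J) i j := by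
        show ((J.transpose - ε • J) *ᵥ (Pi.single j 1)) i = _
        rw [mulVec_single_one]
        rfl
      rw [h9] at h8
      exact h8
    exact sub_eq_zero.1 h6
  refine ⟨J, hsym, hJd, hNJ, ?_⟩
  have hJu : J *ᵥ u = p := by
    have := hJk 0
    simpa using this
  have huJ : u ᵥ* J = ε • p := by
    have h1 : u ᵥ* J = J.transpose *ᵥ u := (mulVec_transpose _ _).symm
    rw [h1, hsym, smul_mulVec, hJu]
  rw [transpose_sub, transpose_one, transpose_vecMulVec, sub_mul, one_mul, mul_sub, mul_one, sub_mul, vecMulVec_mul, huJ,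
    mul_vecMulVec, hJu, vecMulVec_mul_vecMulVec, smul_dotProduct, hpu, vecMulVec_smul, vecMulVec_smul]
  have e1 : (ε • (1 + ε)) = ε + 1 := by
    rw [smul_eq_mul]
    linear_combination hε
  rw [e1]
  module

/-- an invariant form forces a parity -/
lemma par_of_form (hN : N ^ n = 0) (hup : p ⬝ᵥ ((N ^ (n - 1)) *ᵥ u) ≠ 0) {J : Matrix (Fin n) (Fin n) ℂ} (hdet : J.det ≠ 0)
    (hNJ : N.transpose * J + J * N = 0) (hg : (1 - vecMulVec u p).transpose * J * (1 - vecMulVec u p) = J) :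
    (p ⬝ᵥ u = 0 ∧ ∀ a, PP N u p (-a) = -PP N u p a) ∨ (p ⬝ᵥ u = 2 ∧ ∀ a, PP N u p (-a) = PP N u p a) := by
  have hu : u ≠ 0 := by
    rintro rfl
    rw [mulVec_zero, dotProduct_zero] at hup
    exact hup rfl
  have hp : p ≠ 0 := by
    rintro rfl
    rw [zero_dotProduct] at hup
    exact hup rfl
  obtain ⟨i, hi⟩ : ∃ i, p i ≠ 0 := by
    by_contra hcon
    push Not at hcon
    exact hp (funext hcon)
  set x₀ : Fin n → ℂ := Pi.single i (p i)⁻¹ with hx₀
  have hpx : p ⬝ᵥ x₀ = 1 := by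
    rw [hx₀, dotProduct_single, mul_inv_cancel₀ hi]
  set c : ℂ := om J u u - om J x₀ u with hc
  set c' : ℂ := om J u u - om J u x₀ with hc'
  have h1 : ∀ y, om J u y = c * (p ⬝ᵥ y) := by
    intro y
    have := psr_om hg x₀ y
    rw [hpx] at this
    rw [hc]
    linear_combination this
  have h2 : ∀ x, om J x u = c' * (p ⬝ᵥ x) := by
    intro x
    have := psr_om hg x x₀
    rw [hpx] at this
    rw [hc']
    linear_combination this
  have hc0 : c ≠ 0 := by
    intro h0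
    exact hu (om_nd hdet fun y => by rw [h1, h0, zero_mul])
  have h3 : c * (p ⬝ᵥ u) = c' * (p ⬝ᵥ u) := by rw [← h1, ← h2]
  have h4 : c + c' = c * (p ⬝ᵥ u) := by
    have h5 := psr_om hg x₀ x₀
    rw [hpx, h1, h2, hpx, h1] at h5
    linear_combination h5
  have hEJ : ∀ s, (E N s).transpose * J * E N s = J := fun s => E_isom hN hNJ s
  have hpar : ∀ a, c * PP N u p (-a) = c' * PP N u p a := by
    intro a
    have h5 : om J (E N a *ᵥ u) u = c' * PP N u p a := h2 _
    have h6 : om J u (E N (-a) *ᵥ u) = c * PP N u p (-a) := h1 _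
    have h7 := iso_om (hEJ a) u (E N (-a) *ᵥ u)
    rw [mulVec_mulVec, E_mul_neg hN, one_mulVec] at h7
    rw [← h5, ← h6, h7]
  by_cases h0 : p ⬝ᵥ u = 0
  · left
    refine ⟨h0, fun a => ?_⟩
    rw [h0, mul_zero] at h4
    have h5 : c' = -c := by linear_combination h4
    have h6 := hpar a
    rw [h5] at h6
    have h7 : c * (PP N u p (-a) + PP N u p a) = 0 := by linear_combination h6
    linear_combination (mul_eq_zero.1 h7).resolve_left hc0
  · right
    have h5 : c' = c := (mul_right_cancel₀ h0 h3).symm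
    rw [h5] at h4
    have h6 : c * (p ⬝ᵥ u - 2) = 0 := by linear_combination -h4
    refine ⟨by linear_combination (mul_eq_zero.1 h6).resolve_left hc0, fun a => ?_⟩
    have h7 := hpar a
    rw [h5] at h7
    exact mul_left_cancel₀ hc0 h7

/-- **The linear case.** -/
theorem sl_dense' (hN : N ^ n = 0) (hn : 1 ≤ n) (hup : p ⬝ᵥ ((N ^ (n - 1)) *ᵥ u) ≠ 0)
    (hform : ¬ ((p ⬝ᵥ u = 0 ∧ ∀ a, PP N u p (-a) = -PP N u p a) ∨ (p ⬝ᵥ u = 2 ∧ ∀ a, PP N u p (-a) = PP N u p a)))
    (h0 : (1 - vecMulVec u p).det ≠ 0)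
    {T' : Matrix (Fin n) (Fin n) ℂ} (hT' : (1 - vecMulVec u p) * T' = 1)
    (hE : ∀ c : ℂ, ∀ g ∈ S, E N c * g * E N (-c) ∈ S) (hS : 1 - vecMulVec u p ∈ S) (hS' : T' ∈ S)
    (hZ : ∀ g, (∀ q ∈ Id (S : Set (Matrix (Fin n) (Fin n) ℂ)), pe q g = 0) → g ∈ S)
    (g : Matrix (Fin n) (Fin n) ℂ) (hgd : g.det = 1) : g ∈ S := by
  have hd : (1 - vecMulVec u p).det = 1 - p ⬝ᵥ u := by
    have e1 : vecMulVec u p = replicateCol (Fin 1) u * replicateRow (Fin 1) p := by
      ext i j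
      rw [vecMulVec_apply, Matrix.mul_apply]
      simp
    rw [e1, det_one_sub_mul_comm]
    simp [Matrix.mul_apply, dotProduct]
  push Not at hform
  by_cases h1 : (1 - vecMulVec u p).det = 1
  · have h3 : p ⬝ᵥ u = 0 := by rw [hd] at h1; linear_combination -h1
    exact sl_of_lie hZ (fun X hX => lie_transv hN hup hE hS hZ hn h3 (hform.1 h3) hX) g hgd
  · by_cases h2 : (1 - vecMulVec u p).det = -1
    · have h3 : p ⬝ᵥ u = 2 := by rw [hd] at h2; linear_combination -h2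
      exact sl_of_lie hZ (fun X hX => lie_refl hN hup hE hS hZ hn h3 (hform.2 h3) hX) g hgd
    · exact sl_dense hN hup h0 h1 h2 hT' hE hS hS' hZ g hgd

/-- **The trichotomy.** -/
theorem tri_form (hN : N ^ n = 0) (hup : p ⬝ᵥ ((N ^ (n - 1)) *ᵥ u) ≠ 0) :
    (∃ J : Matrix (Fin n) (Fin n) ℂ, J.transpose = -J ∧ J.det ≠ 0 ∧ N.transpose * J + J * N = 0 ∧
      (1 - vecMulVec u p).transpose * J * (1 - vecMulVec u p) = J) ∨
    (∃ J : Matrix (Fin n) (Fin n) ℂ, J.transpose = J ∧ J.det ≠ 0 ∧ N.transpose * J + J * N = 0 ∧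
      (1 - vecMulVec u p).transpose * J * (1 - vecMulVec u p) = J) ∨
    ∀ J : Matrix (Fin n) (Fin n) ℂ, J.det ≠ 0 → N.transpose * J + J * N = 0 →
      (1 - vecMulVec u p).transpose * J * (1 - vecMulVec u p) ≠ J := by
  by_cases h1 : p ⬝ᵥ u = 0 ∧ ∀ a, PP N u p (-a) = -PP N u p a
  · left
    obtain ⟨J, k1, k2, k3, k4⟩ := exists_form hN hup (ε := -1) (by norm_num) (by rw [h1.1]; norm_num)
      (fun a => by rw [h1.2]; ring)
    exact ⟨J, by rw [k1, neg_one_smul], k2, k3, k4⟩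
  · by_cases h2 : p ⬝ᵥ u = 2 ∧ ∀ a, PP N u p (-a) = PP N u p a
    · right
      left
      obtain ⟨J, k1, k2, k3, k4⟩ := exists_form hN hup (ε := 1) (by norm_num) (by rw [h2.1]; norm_num)
        (fun a => by rw [h2.2]; ring)
      exact ⟨J, by rw [k1, one_smul], k2, k3, k4⟩
    · right
      right
      intro J k1 k2 k3
      rcases par_of_form hN hup k1 k2 k3 with h | h
      · exact h1 h
      · exact h2 h

/-- the linear case, in terms of forms -/
theorem sl_dense'' (hN : N ^ n = 0) (hn : 1 ≤ n) (hup : p ⬝ᵥ ((N ^ (n - 1)) *ᵥ u) ≠ 0)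
    (hform : ∀ J : Matrix (Fin n) (Fin n) ℂ, J.det ≠ 0 → N.transpose * J + J * N = 0 →
      (1 - vecMulVec u p).transpose * J * (1 - vecMulVec u p) ≠ J)
    (h0 : (1 - vecMulVec u p).det ≠ 0)
    {T' : Matrix (Fin n) (Fin n) ℂ} (hT' : (1 - vecMulVec u p) * T' = 1)
    (hE : ∀ c : ℂ, ∀ g ∈ S, E N c * g * E N (-c) ∈ S) (hS : 1 - vecMulVec u p ∈ S) (hS' : T' ∈ S)
    (hZ : ∀ g, (∀ q ∈ Id (S : Set (Matrix (Fin n) (Fin n) ℂ)), pe q g = 0) → g ∈ S)
    (g : Matrix (Fin n) (Fin n) ℂ) (hgd : g.det = 1) : g ∈ S := by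
  refine sl_dense' hN hn hup ?_ h0 hT' hE hS hS' hZ g hgd
  rintro (h1 | h2)
  · obtain ⟨J, k1, k2, k3, k4⟩ := exists_form hN hup (ε := -1) (by norm_num) (by rw [h1.1]; norm_num)
      (fun a => by rw [h1.2]; ring)
    exact hform J k2 k3 k4
  · obtain ⟨J, k1, k2, k3, k4⟩ := exists_form hN hup (ε := 1) (by norm_num) (by rw [h2.1]; norm_num)
      (fun a => by rw [h2.2]; ring)
    exact hform J k2 k3 k4

end Pool.Agent.L0h14.HO
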