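import Mathlib
import Pool.Agent.L0h14.HO.CRank
import Pool.Agent.L0h14.HO.CForm

/-!
# Families whose nearest singularity is a pseudo-reflection: the system
-/

set_option autoImplicit false

open PowerSeries Matrix
open Pool.Agent.Y113 hiding ix Bm

namespace Pool.Agent.L0h14.HO

open Pool.Agent.Y119.HY (cm Ep E Ep_eval E_neg Hf Yf Vr Rel Gal E_add E_zero E_mul_neg E_isom)
open Pool.Agent.Y119.HZ (cf)

variable {n : ℕ}

/-- the determinant of the exponential -/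
lemma det_EN {N : Matrix (Fin n) (Fin n) ℂ} (hN : N ^ n = 0) (s : ℂ) : (E N s).det = 1 := by
  set f : Polynomial ℂ := (Ep N).det with hf
  have hfe : ∀ s, f.eval s = (E N s).det := by
    intro s
    rw [hf, ← Ep_eval, ← Polynomial.coe_evalRingHom, RingHom.map_det]
    rfl
  have hne : ∀ s, f.eval s ≠ 0 := by
    intro s h0
    rw [hfe] at h0
    have h1 := congrArg Matrix.det (E_mul_neg hN s)
    rw [det_mul, h0, zero_mul, det_one] at h1
    exact zero_ne_one h1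
  have hdeg : f.degree = 0 := by
    by_contra hd
    obtain ⟨r, hr⟩ := IsAlgClosed.exists_root f hd
    exact hne r hr
  have h0 := Polynomial.eq_C_of_degree_eq_zero hdeg
  have h1 := hfe 0
  rw [E_zero hN, det_one] at h1
  rw [← hfe, h0, Polynomial.eval_C]
  rw [h0, Polynomial.eval_C] at h1
  exact h1

/-- analyticity of the holomorphic part -/
lemma Hf_anR {H : Matrix (Fin n) (Fin n) ℚ⟦X⟧} {ρ : ℝ} (hρ : 0 < ρ) (hcv : ∀ t : ℝ, 1 / ρ < t → ∀ i j, Cv t (H i j))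
    (i j : Fin n) : AnalyticOnNhd ℂ (fun z => Hf (Hcc H) z i j) (Metric.ball 0 ρ) := by
  intro z hz
  rw [Metric.mem_ball, dist_zero_right] at hz
  obtain ⟨r, hr1, hr2⟩ := exists_between hz
  have hr0 : 0 < r := lt_of_le_of_lt (norm_nonneg _) hr1
  have h1 : 1 / ρ < 1 / r := one_div_lt_one_div_of_lt hr0 hr2
  have hs := hcv _ h1 i j
  unfold Cv at hs
  rw [one_div_one_div] at hs
  have h2 : DifferentiableOn ℂ (fun z => Hf (Hcc H) z i j) (Metric.ball 0 r) := by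
    unfold Pool.Agent.Y119.HY.Hf Pool.Agent.Y119.HY.ps
    simp only [Matrix.of_apply]
    refine Complex.differentiableOn_tsum_of_summable_norm hs (fun m => by fun_prop) Metric.isOpen_ball fun m w hw => ?_
    rw [Metric.mem_ball, dist_zero_right] at hw
    rw [norm_mul, norm_pow]
    refine mul_le_mul (le_of_eq ?_) (pow_le_pow_left₀ (norm_nonneg _) hw.le _) (by positivity) (by positivity)
    show ‖((PowerSeries.coeff m (H i j) : ℚ) : ℂ)‖ = _
    have h2 : ((PowerSeries.coeff m (H i j) : ℚ) : ℂ) = (((PowerSeries.coeff m (H i j) : ℚ) : ℝ) : ℂ) := by push_cast; rfl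
    rw [h2, Complex.norm_real, Real.norm_eq_abs]
  exact h2.analyticOnNhd Metric.isOpen_ball z (by rw [Metric.mem_ball, dist_zero_right]; exact hr1)

/-- the local data at the nearest singularity -/
structure MR (N : Matrix (Fin n) (Fin n) ℚ) (H : Matrix (Fin n) (Fin n) ℚ⟦X⟧) (ρ : ℝ) (u p : Fin n → ℂ) : Prop where
  nil : N ^ n = 0
  pos : 0 < ρ
  cv : ∀ t : ℝ, 1 / ρ < t → ∀ i j, Cv t (H i j)
  corner : p ⬝ᵥ ((cm N ^ (n - 1)) *ᵥ u) ≠ 0
  det : (1 - vecMulVec u p).det ≠ 0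
  mono : ∃ (ε : ℝ) (Φ : ℂ → Matrix (Fin n) (Fin n) ℂ), 0 < ε ∧ ε ≤ 1 ∧
    (∀ i j, AnalyticOnNhd ℂ (fun s => Φ s i j) {s | s.re < Real.log ε}) ∧
    (∀ x : ℝ, 1 - ε < x → x < 1 → Yf (cm N) (Hcc H) ((ρ : ℂ) * (x : ℂ)) = Φ (Real.log (1 - x) : ℝ)) ∧
    ∀ s : ℂ, s.re < Real.log ε → Φ (s + 2 * Real.pi * Complex.I) = Φ s * (1 - vecMulVec u p)

section gal

variable {N : Matrix (Fin n) (Fin n) ℚ} {H : Matrix (Fin n) (Fin n) ℚ⟦X⟧} {ρ : ℝ} {u p : Fin n → ℂ}

lemma MR.conj (h : MR N H ρ u p) (c : ℂ) (g : Matrix (Fin n) (Fin n) ℂ)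
    (hg : g ∈ Gal fun z => Yf (cm N) (Hcc H) ((ρ : ℂ) * z)) :
    E (cm N) c * g * E (cm N) (-c) ∈ Gal fun z => Yf (cm N) (Hcc H) ((ρ : ℂ) * z) := by
  have hN : cm N ^ n = 0 := cmN_nil h.nil
  have hρ := h.pos
  refine conj_EF (F := fun z => Hf (Hcc H) ((ρ : ℂ) * z) * E (cm N) (Complex.log ρ)) hN (fun i j => ?_) (fun x hx hx1 => ?_) c g hg
  · simp only [Matrix.mul_apply]
    refine Finset.analyticOnNhd_fun_sum _ fun l _ => AnalyticOnNhd.mul ?_ analyticOnNhd_const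
    intro z hz
    rw [Metric.mem_ball, dist_zero_right] at hz
    have h1 : AnalyticAt ℂ (fun z => Hf (Hcc H) z i l) ((ρ : ℂ) * z) := Hf_anR hρ h.cv i l _ (by
      rw [Metric.mem_ball, dist_zero_right, norm_mul, Complex.norm_real, Real.norm_of_nonneg hρ.le]
      nlinarith)
    exact h1.fun_comp (f := fun z : ℂ => (ρ : ℂ) * z) (analyticAt_const.mul analyticAt_id)
  · unfold Yf
    rw [Matrix.mul_assoc, ← E_add hN, ← Complex.ofReal_mul, ← Complex.ofReal_log (by positivity : 0 ≤ ρ * x),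
      Real.log_mul hρ.ne' hx.ne', Complex.ofReal_add, Complex.ofReal_log hρ.le, Complex.ofReal_log hx.le]

lemma MR.memGal (h : MR N H ρ u p) : 1 - vecMulVec u p ∈ Gal (fun z => Yf (cm N) (Hcc H) ((ρ : ℂ) * z)) ∧
    ∃ T' : Matrix (Fin n) (Fin n) ℂ, (1 - vecMulVec u p) * T' = 1 ∧
      T' ∈ Gal (fun z => Yf (cm N) (Hcc H) ((ρ : ℂ) * z)) := by
  have hN : cm N ^ n = 0 := cmN_nil h.nil
  have hρ := h.pos
  obtain ⟨ε, Φ, hε, hε1, hΦ, hY, hT⟩ := h.mono
  set F : ℂ → Matrix (Fin n) (Fin n) ℂ := fun z => Hf (Hcc H) ((ρ : ℂ) * z) * E (cm N) (Complex.log ρ) with hF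
  have hFan : ∀ i j, AnalyticOnNhd ℂ (fun z => F z i j) (Metric.ball 0 1) := by
    intro i j
    rw [hF]
    simp only [Matrix.mul_apply]
    refine Finset.analyticOnNhd_fun_sum _ fun l _ => AnalyticOnNhd.mul ?_ analyticOnNhd_const
    intro z hz
    rw [Metric.mem_ball, dist_zero_right] at hz
    have h1 : AnalyticAt ℂ (fun z => Hf (Hcc H) z i l) ((ρ : ℂ) * z) := Hf_anR hρ h.cv i l _ (by
      rw [Metric.mem_ball, dist_zero_right, norm_mul, Complex.norm_real, Real.norm_of_nonneg hρ.le]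
      nlinarith)
    exact h1.fun_comp (f := fun z : ℂ => (ρ : ℂ) * z) (analyticAt_const.mul analyticAt_id)
  have hYF : ∀ x : ℝ, 0 < x → x < 1 → Yf (cm N) (Hcc H) ((ρ : ℂ) * (x : ℂ)) = F (x : ℂ) * E (cm N) (Complex.log x) := by
    intro x hx hx1
    rw [hF]
    unfold Yf
    simp only
    rw [Matrix.mul_assoc, ← E_add hN, ← Complex.ofReal_mul, ← Complex.ofReal_log (by positivity : 0 ≤ ρ * x),
      Real.log_mul hρ.ne' hx.ne', Complex.ofReal_add, Complex.ofReal_log hρ.le, Complex.ofReal_log hx.le]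
  have ha : Real.log ε ≤ 0 := Real.log_nonpos hε.le hε1
  have hY' : ∀ x : ℝ, 1 - Real.exp (Real.log ε) < x → x < 1 →
      Yf (cm N) (Hcc H) ((ρ : ℂ) * (x : ℂ)) = Φ (Complex.log (1 - (x : ℂ))) := by
    intro x hx hx1
    rw [Real.exp_log hε] at hx
    rw [hY x hx hx1]
    congr 1
    have hxr : (1 - (x : ℂ)) = ((1 - x : ℝ) : ℂ) := by push_cast; rfl
    rw [hxr, Complex.ofReal_log (by linarith)]
  have hdet : IsUnit (1 - vecMulVec u p).det := Ne.isUnit h.det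
  refine ⟨?_, (1 - vecMulVec u p)⁻¹, mul_nonsing_inv _ hdet, ?_⟩
  · refine mono_at (Y := fun z => Yf (cm N) (Hcc H) ((ρ : ℂ) * z)) hN hFan hYF ha hΦ hY' (c := 2 * Real.pi * Complex.I)
      Complex.exp_two_pi_mul_I (by simp) fun s hs => hT s hs
  · refine mono_at (Y := fun z => Yf (cm N) (Hcc H) ((ρ : ℂ) * z)) hN hFan hYF ha hΦ hY' (c := -(2 * Real.pi * Complex.I))
      (by rw [Complex.exp_neg, Complex.exp_two_pi_mul_I, inv_one]) (by simp) fun s hs => ?_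
    have h1 := hT (s + -(2 * Real.pi * Complex.I)) (by
      have hs' : s.re < Real.log ε := hs
      rw [Complex.add_re]
      simpa using hs')
    rw [neg_add_cancel_right] at h1
    rw [h1, Matrix.mul_assoc, mul_nonsing_inv _ hdet, mul_one]

/-- the symplectic type -/
theorem MR.sp (h : MR N H ρ u p) {J : Matrix (Fin n) (Fin n) ℂ} (hJ : J.transpose = -J) (hdet : J.det ≠ 0)
    (hNJ : (cm N).transpose * J + J * cm N = 0)
    (hTJ : (1 - vecMulVec u p).transpose * J * (1 - vecMulVec u p) = J) (g : Matrix (Fin n) (Fin n) ℂ) (hg : g ∈ isoM J) :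
    g ∈ Gal fun z => Yf (cm N) (Hcc H) ((ρ : ℂ) * z) :=
  sp_dense hJ hdet (cmN_nil h.nil) hNJ h.corner hTJ h.conj h.memGal.1 (Gal_Z _) g hg

/-- the orthogonal type -/
theorem MR.so (h : MR N H ρ u p) {J : Matrix (Fin n) (Fin n) ℂ} (hJ : J.transpose = J) (hdet : J.det ≠ 0)
    (hNJ : (cm N).transpose * J + J * cm N = 0)
    (hTJ : (1 - vecMulVec u p).transpose * J * (1 - vecMulVec u p) = J) (g : Matrix (Fin n) (Fin n) ℂ) (hg : g ∈ isoM J) :
    g ∈ Gal fun z => Yf (cm N) (Hcc H) ((ρ : ℂ) * z) :=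
  so_dense hJ hdet (cmN_nil h.nil) hNJ h.corner hTJ h.conj h.memGal.1 (Gal_Z _) g hg

/-- the linear type -/
theorem MR.sl (h : MR N H ρ u p) (hn : 1 ≤ n) (hform : ∀ J : Matrix (Fin n) (Fin n) ℂ, J.det ≠ 0 →
    (cm N).transpose * J + J * cm N = 0 → (1 - vecMulVec u p).transpose * J * (1 - vecMulVec u p) ≠ J)
    (g : Matrix (Fin n) (Fin n) ℂ) (hg : g.det = 1) : g ∈ Gal fun z => Yf (cm N) (Hcc H) ((ρ : ℂ) * z) := by
  obtain ⟨k1, T', k2, k3⟩ := h.memGal
  exact sl_dense'' (cmN_nil h.nil) hn h.corner hform h.det k2 h.conj k1 k3 (Gal_Z _) g hg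

end gal

end Pool.Agent.L0h14.HO
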